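import Pool.Agent.Helper18.ShghDeg2

open Module

noncomputable section

namespace Helper18.Shgh

abbrev R3 := MvPolynomial (Fin 3) ℂ

/-- a triangular index set -/
abbrev Tri (M : ℕ) := (n : Fin M) × Fin ((n : ℕ) + 1)

theorem card_Tri (M : ℕ) : Fintype.card (Tri M) = (M + 1).choose 2 := by
  rw [Fintype.card_sigma]
  simp only [Fintype.card_fin]
  rw [Fin.sum_univ_eq_sum_range (fun n => n + 1) M]
  induction M with
  | zero => rfl
  | succ M ih =>
    rw [Finset.sum_range_succ, ih, Nat.choose_succ_succ' (M + 1) 1, Nat.choose_one_right]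
    ring

/-- exponents in three variables -/
def e3 (u v w : ℕ) : Fin 3 →₀ ℕ := Finsupp.equivFunOnFinite.symm ![u, v, w]

theorem e3_degree (u v w : ℕ) : (e3 u v w).degree = u + v + w := by
  rw [Finsupp.degree_eq_sum, Fin.sum_univ_three]; rfl

theorem e3_eq (e : Fin 3 →₀ ℕ) : e = e3 (e 0) (e 1) (e 2) := by
  ext i
  fin_cases i <;> rfl

theorem isHomogeneous_iff' {F : R3} {d : ℕ} :
    F.IsHomogeneous d ↔ ∀ e, MvPolynomial.coeff e F ≠ 0 → e.degree = d := by
  have key : ∀ e : Fin 3 →₀ ℕ, Finsupp.weight 1 e = e.degree := by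
    intro e
    have := DFunLike.congr_fun (Finsupp.degree_eq_weight_one (σ := Fin 3) (R := ℕ)) e
    exact this.symm
  constructor
  · intro h e he
    have := h he
    rwa [key] at this
  · intro h e he
    rw [key]
    exact h e he

abbrev HS (d : ℕ) : Submodule ℂ R3 := MvPolynomial.homogeneousSubmodule (Fin 3) ℂ d

instance (d : ℕ) : FiniteDimensional ℂ (HS d) :=
  Module.Finite.iff_fg.2 (MvPolynomial.homogeneousSubmodule_fg (σ := Fin 3) (R := ℂ) d)

theorem le_finrank_HS (d : ℕ) : (d + 2).choose 2 ≤ finrank ℂ (HS d) := by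
  rw [← card_Tri (d + 1)]
  let b : Tri (d + 1) → HS d := fun x =>
    ⟨MvPolynomial.monomial (e3 x.2 (x.1 - x.2) (d - x.1)) 1, by
      rw [MvPolynomial.mem_homogeneousSubmodule]
      apply MvPolynomial.isHomogeneous_monomial
      rw [e3_degree]
      have h1 := x.1.2
      have h2 := x.2.2
      omega⟩
  have hb : LinearIndependent ℂ b := by
    apply LinearIndependent.of_comp (HS d).subtype
    have h1 : (HS d).subtype ∘ b = (fun e : Fin 3 →₀ ℕ => (MvPolynomial.monomial e 1 : R3)) ∘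
        (fun x : Tri (d + 1) => e3 x.2 (x.1 - x.2) (d - x.1)) := rfl
    rw [h1]
    have h2 := (MvPolynomial.basisMonomials (Fin 3) ℂ).linearIndependent
    rw [MvPolynomial.coe_basisMonomials] at h2
    apply h2.comp
    rintro ⟨⟨n, hn⟩, ⟨i, hi⟩⟩ ⟨⟨n', hn'⟩, ⟨i', hi'⟩⟩ h
    have h0 := DFunLike.congr_fun h 0
    have h1 := DFunLike.congr_fun h 1
    change i = i' at h0
    change n - i = n' - i' at h1
    simp only at hi hi'
    have h3 : n = n' := by omega
    subst h3 h0
    rfl
  exact hb.fintype_card_le_finrank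

/-- the ideal of a point of the projective plane -/
def LI (P : Fin 3 → ℂ) : Ideal R3 :=
  Ideal.span {g : MvPolynomial (Fin 3) ℂ | g.IsHomogeneous 1 ∧ MvPolynomial.eval P g = 0}

theorem LI_le_mI (P : Fin 3 → ℂ) : LI P ≤ mI P := by
  rw [LI, Ideal.span_le]
  rintro g ⟨-, hg⟩
  exact mem_mI_iff.2 hg

/-- the linear change of coordinates -/
def alp (a b : ℂ) : R3 →ₐ[ℂ] R3 :=
  MvPolynomial.aeval ![MvPolynomial.X 0 + MvPolynomial.C a * MvPolynomial.X 2,
    MvPolynomial.X 1 + MvPolynomial.C b * MvPolynomial.X 2, MvPolynomial.X 2]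

theorem alp_alp (a b : ℂ) (F : R3) : alp (-a) (-b) (alp a b F) = F := by
  have : (alp (-a) (-b)).comp (alp a b) = AlgHom.id ℂ _ := by
    apply MvPolynomial.algHom_ext
    intro i
    fin_cases i <;> simp [alp]
  exact DFunLike.congr_fun this F

theorem alp_homog (a b : ℂ) {F : R3} {d : ℕ} (h : F.IsHomogeneous d) :
    (alp a b F).IsHomogeneous d := by
  have h1 := MvPolynomial.IsHomogeneous.aeval (S := ℂ) h
    (![MvPolynomial.X 0 + MvPolynomial.C a * MvPolynomial.X 2,
    MvPolynomial.X 1 + MvPolynomial.C b * MvPolynomial.X 2, MvPolynomial.X 2] :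
      Fin 3 → MvPolynomial (Fin 3) ℂ) (n := 1) (by
      have h2 : ∀ (c : ℂ) (i j : Fin 3),
          (MvPolynomial.X i + MvPolynomial.C c * MvPolynomial.X j : R3).IsHomogeneous 1 := by
        intro c i j
        refine (MvPolynomial.isHomogeneous_X _ _).add ?_
        have := (MvPolynomial.isHomogeneous_C (Fin 3) c).mul (MvPolynomial.isHomogeneous_X ℂ j)
        simpa using this
      intro i
      fin_cases i
      · exact h2 a 0 2
      · exact h2 b 1 2
      · exact MvPolynomial.isHomogeneous_X _ _)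
  rw [one_mul] at h1
  exact h1

/-- the conditions at a point -/
def psi (d M : ℕ) (P : Fin 3 → ℂ) : R3 →ₗ[ℂ] (Tri M → ℂ) :=
  LinearMap.pi fun x => (MvPolynomial.lcoeff ℂ (e3 x.2 (x.1 - x.2) (d - x.1))) ∘ₗ
    (alp (P 0 / P 2) (P 1 / P 2)).toLinearMap

theorem mem_of_psi {d M : ℕ} {P : Fin 3 → ℂ} (hP : P 2 ≠ 0) {F : R3} (hF : F.IsHomogeneous d)
    (h : psi d M P F = 0) : F ∈ LI P ^ M := by
  set a := P 0 / P 2 with ha
  set b := P 1 / P 2 with hb
  have hG := alp_homog a b hF
  rw [isHomogeneous_iff'] at hG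
  have h0 : alp (-a) (-b) (MvPolynomial.X 0) ∈ LI P := by
    apply Ideal.subset_span
    have e : alp (-a) (-b) (MvPolynomial.X 0) =
      MvPolynomial.X 0 + MvPolynomial.C (-a) * MvPolynomial.X 2 := by simp [alp]
    rw [e]
    refine ⟨?_, ?_⟩
    · refine (MvPolynomial.isHomogeneous_X _ _).add ?_
      have := (MvPolynomial.isHomogeneous_C (Fin 3) (-a)).mul (MvPolynomial.isHomogeneous_X ℂ 2)
      simpa using this
    · simp only [map_add, map_mul, MvPolynomial.eval_X, MvPolynomial.eval_C]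
      rw [ha]
      field_simp
      ring
  have h1 : alp (-a) (-b) (MvPolynomial.X 1) ∈ LI P := by
    apply Ideal.subset_span
    have e : alp (-a) (-b) (MvPolynomial.X 1) =
      MvPolynomial.X 1 + MvPolynomial.C (-b) * MvPolynomial.X 2 := by simp [alp]
    rw [e]
    refine ⟨?_, ?_⟩
    · refine (MvPolynomial.isHomogeneous_X _ _).add ?_
      have := (MvPolynomial.isHomogeneous_C (Fin 3) (-b)).mul (MvPolynomial.isHomogeneous_X ℂ 2)
      simpa using this
    · simp only [map_add, map_mul, MvPolynomial.eval_X, MvPolynomial.eval_C]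
      rw [hb]
      field_simp
      ring
  rw [← alp_alp a b F, (alp a b F).as_sum, map_sum]
  apply Ideal.sum_mem
  intro e he
  rw [MvPolynomial.mem_support_iff] at he
  have hdeg := hG e he
  have hM : M ≤ e 0 + e 1 := by
    by_contra hlt
    push Not at hlt
    apply he
    have h2 := congrFun h ⟨⟨e 0 + e 1, hlt⟩, ⟨e 0, by simp only; omega⟩⟩
    change MvPolynomial.coeff (e3 (e 0) (e 0 + e 1 - e 0) (d - (e 0 + e 1)))
      (alp (P 0 / P 2) (P 1 / P 2) F) = 0 at h2
    rw [← ha, ← hb] at h2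
    have h3 : e = e3 (e 0) (e 0 + e 1 - e 0) (d - (e 0 + e 1)) := by
      conv_lhs => rw [e3_eq e]
      have h4 : e.degree = e 0 + e 1 + e 2 := by
        conv_lhs => rw [e3_eq e]
        rw [e3_degree]
      congr 1
      · omega
      · omega
    rw [h3]
    exact h2
  have h2 : MvPolynomial.monomial e (MvPolynomial.coeff e (alp a b F)) =
      (MvPolynomial.X 0 ^ (e 0) * MvPolynomial.X 1 ^ (e 1)) *
        (MvPolynomial.C (MvPolynomial.coeff e (alp a b F)) * MvPolynomial.X 2 ^ (e 2)) := by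
    rw [MvPolynomial.monomial_eq, Finsupp.prod_fintype _ _ (by simp), Fin.prod_univ_three]
    ring
  rw [h2, map_mul]
  apply Ideal.mul_mem_right
  rw [map_mul, map_pow, map_pow]
  apply Ideal.pow_le_pow_right hM
  rw [pow_add]
  exact Ideal.mul_mem_mul (Ideal.pow_mem_pow h0 _) (Ideal.pow_mem_pow h1 _)

/-- forms with multiplicities -/
abbrev FS (s : ℕ) (m : ℕ → ℕ) (d : ℕ) (P : Fin s → Fin 3 → ℂ) : Submodule ℂ R3 :=
  MvPolynomial.homogeneousSubmodule (Fin 3) ℂ d ⊓
    ⨅ i : Fin s, Submodule.restrictScalars ℂ ((LI (P i)) ^ (m (i : ℕ)) : Ideal R3)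

theorem lower_bound (s : ℕ) (m : ℕ → ℕ) (d : ℕ) (P : Fin s → Fin 3 → ℂ)
    (hP : ∀ i, P i 2 ≠ 0) :
    (d + 2).choose 2 ≤ finrank ℂ (FS s m d P) + ∑ i : Fin s, (m (i : ℕ) + 1).choose 2 := by
  let K : Fin s → Submodule ℂ (HS d) := fun i =>
    (Submodule.restrictScalars ℂ ((LI (P i)) ^ (m (i : ℕ)) : Ideal R3)).comap (HS d).subtype
  have h1 := finrank_le_inf_iInf (Finset.univ : Finset (Fin s)) K
    (fun i => (m (i : ℕ) + 1).choose 2) (by
      intro i _ U hU
      have : FiniteDimensional ℂ (U ⊓ K i : Submodule ℂ (HS d)) :=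
        Submodule.finiteDimensional_of_le inf_le_left
      have h2 := finrank_le_add (U ⊓ K i) U
        (((psi d (m i) (P i)).domRestrict (HS d)) : HS d →ₗ[ℂ] (Tri (m i) → ℂ)) (by
          intro x hx h0
          refine Submodule.mem_inf.2 ⟨hx, ?_⟩
          exact mem_of_psi (hP i) x.2 h0)
      rw [finrank_fintype_fun_eq_card, card_Tri] at h2
      exact h2) ⊤
  rw [finrank_top] at h1
  refine (le_finrank_HS d).trans (h1.trans ?_)
  apply Nat.add_le_add_right
  have h3 : (⊤ ⊓ ⨅ i ∈ Finset.univ, K i : Submodule ℂ (HS d)).map (HS d).subtype ≤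
      FS s m d P := by
    rintro _ ⟨x, hx, rfl⟩
    refine Submodule.mem_inf.2 ⟨x.2, ?_⟩
    rw [Submodule.mem_iInf]
    intro i
    have h4 := (Submodule.mem_inf.1 hx).2
    rw [Submodule.mem_iInf] at h4
    have h5 := h4 i
    rw [Submodule.mem_iInf] at h5
    exact h5 (Finset.mem_univ i)
  have hfd : FiniteDimensional ℂ (FS s m d P) :=
    Submodule.finiteDimensional_of_le (inf_le_left : FS s m d P ≤ HS d)
  have h4 := Submodule.finrank_mono h3
  rwa [finrank_map_inj (HS d).subtype_injective] at h4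

end Helper18.Shgh
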