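import Pool.Agent.Helper18.ShghLine

open Module

noncomputable section

namespace Helper18.Shgh

theorem tri_key (c : ℕ) : c * (c + 1) = (c - 1) * (c - 1 + 1) + 2 * c := by
  rcases Nat.eq_zero_or_pos c with h | h
  · subst h; rfl
  · obtain ⟨c', rfl⟩ : ∃ c', c = c' + 1 := ⟨c - 1, by omega⟩
    simp only [Nat.add_sub_cancel]
    ring

/-- the admissible final levels -/
def KK (m : ℕ → ℕ) (d K : ℕ) : Prop :=
  K = m 2 ∨ (K = m 2 + 1 ∧ (m 0 + m 1 + m 2 < d ∨ m 2 < m 1))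

variable {q : ℕ → Pt} {m : ℕ → ℕ} {d : ℕ}

theorem GG_base (hm : Antitone m) (hd : m 0 + m 1 + m 2 ≤ d)
    (hinj : Set.InjOn (fun i => (q i).z ^ 2) (Finset.range 9 : Finset ℕ))
    (hz : ∀ i ∈ Finset.range 9, (q i).z ≠ 0) {K : ℕ} (hK : KK m d K) :
    2 * (finrank ℂ (GG (Finset.range 9) q m d K) : ℤ) +
      ∑ i ∈ Finset.range 9, ((m i - K : ℕ) : ℤ) * (((m i - K : ℕ) : ℤ) + 1) ≤
      ((d : ℤ) - 3 * K + 1) * ((d : ℤ) - 3 * K + 2) := by
  have m01 : m 1 ≤ m 0 := hm (by norm_num)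
  have m12 : m 2 ≤ m 1 := hm (by norm_num)
  have hKd : -2 ≤ (d : ℤ) - 3 * K ∧ (((m 0 - K : ℕ) : ℤ) + ((m 1 - K : ℕ) : ℤ) ≤
      (d : ℤ) - 3 * K + 1 ∨ (m 0 - K = 0 ∧ m 1 - K = 0)) := by
    rcases hK with rfl | ⟨rfl, h | h⟩
    · omega
    · omega
    · omega
  have hK2 : m 2 ≤ K := by
    rcases hK with rfl | ⟨rfl, h⟩ <;> omega
  have hPQ : (q 0).pt 0 ≠ (q 1).pt 0 := by
    intro h
    have := hinj (by simp : (0 : ℕ) ∈ (↑(Finset.range 9) : Set ℕ))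
      (by simp : (1 : ℕ) ∈ (↑(Finset.range 9) : Set ℕ)) h
    omega
  have h1 := finrank_TP' hPQ ((d : ℤ) - 3 * K) hKd.1 (m 0 - K) (m 1 - K) hKd.2
  have h2 : finrank ℂ (GG (Finset.range 9) q m d K) ≤
      finrank ℂ (TP ((d : ℤ) - 3 * K) (q 0).pt (q 1).pt (m 0 - K) (m 1 - K)) := by
    apply Submodule.finrank_mono
    intro G hG
    rw [mem_TP]
    exact ⟨hG.1, mem_GG_ord hz hG (by simp), mem_GG_ord hz hG (by simp)⟩
  have h3 : ∑ i ∈ Finset.range 9, ((m i - K : ℕ) : ℤ) * (((m i - K : ℕ) : ℤ) + 1) =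
      ((m 0 - K : ℕ) : ℤ) * (((m 0 - K : ℕ) : ℤ) + 1) +
      ((m 1 - K : ℕ) : ℤ) * (((m 1 - K : ℕ) : ℤ) + 1) := by
    have e : ∀ i, 2 ≤ i → m i - K = 0 := fun i hi => by
      have := hm hi
      omega
    simp only [Finset.sum_range_succ, Finset.sum_range_zero]
    rw [e 2 (by norm_num), e 3 (by norm_num), e 4 (by norm_num), e 5 (by norm_num),
      e 6 (by norm_num), e 7 (by norm_num), e 8 (by norm_num)]
    simp
  rw [h3]
  have h4 : (finrank ℂ (GG (Finset.range 9) q m d K) : ℤ) ≤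
      finrank ℂ (TP ((d : ℤ) - 3 * K) (q 0).pt (q 1).pt (m 0 - K) (m 1 - K)) := by
    exact_mod_cast h2
  linarith

theorem GG_pos (hm : Antitone m) (hd : m 0 + m 1 + m 2 ≤ d)
    (hsum : ∑ i ∈ Finset.range 9, m i < 3 * d) {K : ℕ} (hK : KK m d K) {k n : ℕ} (hk : k < K)
    (hn : n + 3 * k = d) : ∑ i ∈ Finset.range 9, (m i - k) < 3 * n := by
  have m01 : m 1 ≤ m 0 := hm (by norm_num)
  have m12 : m 2 ≤ m 1 := hm (by norm_num)
  have m23 : m 3 ≤ m 2 := hm (by norm_num)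
  have m34 : m 4 ≤ m 3 := hm (by norm_num)
  have m45 : m 5 ≤ m 4 := hm (by norm_num)
  have m56 : m 6 ≤ m 5 := hm (by norm_num)
  have m67 : m 7 ≤ m 6 := hm (by norm_num)
  have m78 : m 8 ≤ m 7 := hm (by norm_num)
  simp only [Finset.sum_range_succ, Finset.sum_range_zero] at hsum ⊢
  rcases lt_or_ge k (m 8) with h8 | h8
  · omega
  · have e3 : m 3 - k ≤ m 2 - k := by omega
    have e4 : m 4 - k ≤ m 2 - k := by omega
    have e5 : m 5 - k ≤ m 2 - k := by omega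
    have e6 : m 6 - k ≤ m 2 - k := by omega
    have e7 : m 7 - k ≤ m 2 - k := by omega
    have e8 : m 8 - k = 0 := by omega
    have hKk : k ≤ m 2 := by rcases hK with rfl | ⟨rfl, h⟩ <;> omega
    have key : (m 0 - k) + (m 1 - k) + 6 * (m 2 - k) < 3 * n := by
      rcases hK with rfl | ⟨rfl, h | h⟩ <;> omega
    omega

theorem GG_bound (hm : Antitone m) (hd : m 0 + m 1 + m 2 ≤ d)
    (hsum : ∑ i ∈ Finset.range 9, m i < 3 * d)
    (hinj : Set.InjOn (fun i => (q i).z ^ 2) (Finset.range 9 : Finset ℕ))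
    (hz : ∀ i ∈ Finset.range 9, (q i).z ≠ 0) {K : ℕ} (hK : KK m d K) (t : ℕ) :
    ∀ k : ℕ, k + t = K →
    2 * (finrank ℂ (GG (Finset.range 9) q m d k) : ℤ) +
      ∑ i ∈ Finset.range 9, ((m i - k : ℕ) : ℤ) * (((m i - k : ℕ) : ℤ) + 1) ≤
      ((d : ℤ) - 3 * k + 1) * ((d : ℤ) - 3 * k + 2) := by
  induction t with
  | zero =>
    intro k hk
    have : k = K := by omega
    subst this
    exact GG_base hm hd hinj hz hK
  | succ t ih =>
    intro k hk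
    have m01 : m 1 ≤ m 0 := hm (by norm_num)
    have m12 : m 2 ≤ m 1 := hm (by norm_num)
    have h1 := ih (k + 1) (by omega)
    have hKk : k ≤ m 2 := by rcases hK with rfl | ⟨rfl, h⟩ <;> omega
    obtain ⟨n, hn⟩ : ∃ n : ℕ, n + 3 * k = d := ⟨d - 3 * k, by omega⟩
    have hpos := GG_pos hm hd hsum hK (k := k) (n := n) (by omega) hn
    have h2 := finrank_GG_le (S := Finset.range 9) (q := q) (m := m) (d := (d : ℤ)) hinj hz
      (k := k) (n := n) (by omega) hpos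
    have h3 : ∑ i ∈ Finset.range 9, ((m i - k : ℕ) : ℤ) * (((m i - k : ℕ) : ℤ) + 1) =
        ∑ i ∈ Finset.range 9, ((m i - (k + 1) : ℕ) : ℤ) * (((m i - (k + 1) : ℕ) : ℤ) + 1) +
        2 * ∑ i ∈ Finset.range 9, ((m i - k : ℕ) : ℤ) := by
      rw [Finset.mul_sum, ← Finset.sum_add_distrib]
      apply Finset.sum_congr rfl
      intro i _
      have := tri_key (m i - k)
      rw [Nat.sub_sub] at this
      exact_mod_cast this
    rw [h3]
    have h4 : (finrank ℂ (GG (Finset.range 9) q m d k) : ℤ) +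
        ∑ i ∈ Finset.range 9, ((m i - k : ℕ) : ℤ) ≤
        finrank ℂ (GG (Finset.range 9) q m d (k + 1)) + 3 * n := by
      exact_mod_cast h2
    have hn' : (d : ℤ) = n + 3 * k := by exact_mod_cast hn.symm
    push_cast at h1 ⊢
    rw [hn'] at h1 h4 ⊢
    ring_nf at h1 h4 ⊢
    linarith

end Helper18.Shgh
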