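import Pool.Agent.Helper18.CuspTransfer
import Pool.Agent.Helper18.ShghNine

/-!
The dimensions of the stages and the shape of the region.
-/

open Module

noncomputable section

namespace Helper18.Cusp

open Helper18.Shgh

theorem YB_step {n : ℕ} {a : ℕ → ℕ} {k n' : ℕ} (hn : n' + 3 * k = n)
    (h : ∑ i ∈ Finset.range 9, (a i - k) < 3 * n') :
    finrank ℂ (YB n a k) + ∑ i ∈ Finset.range 9, (a i - k) ≤
      finrank ℂ (YB n a (k + 1)) + 3 * n' := by
  have h1 := YS_step (n := n') (a := fun i => a i - k) h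
  have e1 : (n : ℤ) - 3 * k = n' := by omega
  have e2 : (n : ℤ) - 3 * ((k + 1 : ℕ) : ℤ) = (n' : ℤ) - 3 := by push_cast; omega
  have e3 : (fun i => a i - (k + 1)) = fun i => a i - k - 1 := by funext i; omega
  rw [YB, YB, e1, e2, e3]
  exact h1

/-- twice the expected dimension at stage `k` -/
def chB (n : ℤ) (a : ℕ → ℕ) (k : ℕ) : ℤ := (n - 3 * k + 1) * (n - 3 * k + 2) -
  ∑ i ∈ Finset.range 9, ((a i - k : ℕ) : ℤ) * (((a i - k : ℕ) : ℤ) + 1)

theorem qq_ne {i j : ℕ} (h : i ≠ j) : qq i 0 ≠ qq j 0 := fun h1 => h (zi_sq_inj h1)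

/-- an admissible level: the system of the first two points is nonspecial there -/
def Lev (n : ℕ) (a : ℕ → ℕ) (K : ℕ) : Prop := a 2 ≤ K ∧ (a 0 - K) + (a 1 - K) + 3 * K ≤ n

theorem lev_red {n : ℕ} {a : ℕ → ℕ} (ha : ∀ i j, i ≤ j → j < 9 → a j ≤ a i)
    (hd : a 0 + a 1 + a 2 ≤ n) : Lev n a (a 2) := by
  have m01 : a 1 ≤ a 0 := ha 0 1 (by norm_num) (by norm_num)
  have m12 : a 2 ≤ a 1 := ha 1 2 (by norm_num) (by norm_num)
  exact ⟨le_rfl, by omega⟩

theorem YB_base {n : ℕ} {a : ℕ → ℕ} (ha : ∀ i j, i ≤ j → j < 9 → a j ≤ a i) {K : ℕ}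
    (hK : Lev n a K) : 2 * (finrank ℂ (YB n a K) : ℤ) ≤ chB n a K := by
  obtain ⟨hK1, hK2⟩ := hK
  have h1 := finrank_TP' (qq_ne (show (0 : ℕ) ≠ 1 by norm_num)) ((n : ℤ) - 3 * K) (by omega)
    (a 0 - K) (a 1 - K) (by omega)
  have h2 : finrank ℂ (YB n a K) ≤
      finrank ℂ (TP ((n : ℤ) - 3 * K) (qq 0) (qq 1) (a 0 - K) (a 1 - K)) := by
    apply Submodule.finrank_mono
    intro G hG
    rw [mem_TP]
    exact ⟨hG.1, hG.2 0 (by simp), hG.2 1 (by simp)⟩
  have h3 : ∑ i ∈ Finset.range 9, ((a i - K : ℕ) : ℤ) * (((a i - K : ℕ) : ℤ) + 1) =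
      ((a 0 - K : ℕ) : ℤ) * (((a 0 - K : ℕ) : ℤ) + 1) +
      ((a 1 - K : ℕ) : ℤ) * (((a 1 - K : ℕ) : ℤ) + 1) := by
    have e : ∀ i, 2 ≤ i → i < 9 → a i - K = 0 := fun i hi hi9 => by
      have := ha 2 i hi hi9
      omega
    simp only [Finset.sum_range_succ, Finset.sum_range_zero]
    rw [e 2 (by norm_num) (by norm_num), e 3 (by norm_num) (by norm_num),
      e 4 (by norm_num) (by norm_num), e 5 (by norm_num) (by norm_num),
      e 6 (by norm_num) (by norm_num), e 7 (by norm_num) (by norm_num),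
      e 8 (by norm_num) (by norm_num)]
    simp
  rw [chB, h3]
  have h4 : (finrank ℂ (YB n a K) : ℤ) ≤
      finrank ℂ (TP ((n : ℤ) - 3 * K) (qq 0) (qq 1) (a 0 - K) (a 1 - K)) := by
    exact_mod_cast h2
  linarith

/-- the degree on the cubic is positive as long as the system is reduced -/
theorem YB_pos {n : ℕ} {a : ℕ → ℕ} (ha : ∀ i j, i ≤ j → j < 9 → a j ≤ a i)
    (hd : a 0 + a 1 + a 2 ≤ n) (hsum : ∑ i ∈ Finset.range 9, a i < 3 * n) {k K n' : ℕ}
    (hK : Lev n a K) (hk : k < K) (hn : n' + 3 * k = n) :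
    ∑ i ∈ Finset.range 9, (a i - k) < 3 * n' := by
  obtain ⟨hK1, hK2⟩ := hK
  have m01 : a 1 ≤ a 0 := ha 0 1 (by norm_num) (by norm_num)
  have m12 : a 2 ≤ a 1 := ha 1 2 (by norm_num) (by norm_num)
  have m23 : a 3 ≤ a 2 := ha 2 3 (by norm_num) (by norm_num)
  have m34 : a 4 ≤ a 3 := ha 3 4 (by norm_num) (by norm_num)
  have m45 : a 5 ≤ a 4 := ha 4 5 (by norm_num) (by norm_num)
  have m56 : a 6 ≤ a 5 := ha 5 6 (by norm_num) (by norm_num)
  have m67 : a 7 ≤ a 6 := ha 6 7 (by norm_num) (by norm_num)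
  have m78 : a 8 ≤ a 7 := ha 7 8 (by norm_num) (by norm_num)
  simp only [Finset.sum_range_succ, Finset.sum_range_zero] at hsum ⊢
  rcases lt_or_ge k (a 8) with h8 | h8
  · omega
  · rcases lt_or_ge k (a 2) with h2 | h2 <;> omega

theorem YB_upper {n : ℕ} {a : ℕ → ℕ} (ha : ∀ i j, i ≤ j → j < 9 → a j ≤ a i)
    (hd : a 0 + a 1 + a 2 ≤ n) (hsum : ∑ i ∈ Finset.range 9, a i < 3 * n) {K : ℕ}
    (hK : Lev n a K) (t : ℕ) :
    ∀ k : ℕ, k + t = K → 2 * (finrank ℂ (YB n a k) : ℤ) ≤ chB n a k := by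
  induction t with
  | zero =>
    intro k hk
    have : k = K := by omega
    subst this
    exact YB_base ha hK
  | succ t ih =>
    intro k hk
    have h1 := ih (k + 1) (by omega)
    obtain ⟨n', hn⟩ : ∃ n' : ℕ, n' + 3 * k = n := ⟨n - 3 * k, by have := hK.2; omega⟩
    have hpos := YB_pos ha hd hsum (k := k) (n' := n') hK (by omega) hn
    have h2 := YB_step hn hpos
    have h3 : ∑ i ∈ Finset.range 9, ((a i - k : ℕ) : ℤ) * (((a i - k : ℕ) : ℤ) + 1) =
        ∑ i ∈ Finset.range 9, ((a i - (k + 1) : ℕ) : ℤ) * (((a i - (k + 1) : ℕ) : ℤ) + 1) +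
        2 * ∑ i ∈ Finset.range 9, ((a i - k : ℕ) : ℤ) := by
      rw [Finset.mul_sum, ← Finset.sum_add_distrib]
      apply Finset.sum_congr rfl
      intro i _
      have := tri_key (a i - k)
      rw [Nat.sub_sub] at this
      exact_mod_cast this
    rw [chB, h3]
    rw [chB] at h1
    have h4 : (finrank ℂ (YB n a k) : ℤ) + ∑ i ∈ Finset.range 9, ((a i - k : ℕ) : ℤ) ≤
        finrank ℂ (YB n a (k + 1)) + 3 * n' := by
      exact_mod_cast h2
    have hn' : (n : ℤ) = n' + 3 * k := by exact_mod_cast hn.symm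
    push_cast at h1 ⊢
    rw [hn'] at h1 h4 ⊢
    ring_nf at h1 h4 ⊢
    linarith

/-- the lower bound -/
theorem YS_lower (n : ℤ) (hn : -2 ≤ n) (a : ℕ → ℕ) :
    (n + 1) * (n + 2) - ∑ i ∈ Finset.range 9, (a i : ℤ) * ((a i : ℤ) + 1) ≤
      2 * (finrank ℂ (YS n a) : ℤ) := by
  let K : ℕ → Submodule ℂ R2 := fun i =>
    Submodule.restrictScalars ℂ ((mI (qq i) ^ a i : Ideal R2))
  have h1 := finrank_le_inf_iInf (Finset.range 9) K (fun i => (a i + 1).choose 2) (by
      intro i _ U hU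
      have : FiniteDimensional ℂ (U ⊓ K i : Submodule ℂ R2) :=
        Submodule.finiteDimensional_of_le inf_le_left
      have h2 := finrank_le_add (U ⊓ K i) U (tayL (a i) (qq i)) (by
          intro x hx h0
          refine Submodule.mem_inf.2 ⟨hx, ?_⟩
          exact mem_of_tayL h0)
      rw [finrank_fintype_fun_eq_card, card_Tri] at h2
      exact h2) (V n)
  have h2 : V n ⊓ ⨅ i ∈ Finset.range 9, K i ≤ YS n a := by
    intro F hF
    obtain ⟨h3, h4⟩ := Submodule.mem_inf.1 hF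
    refine ⟨h3, fun i hi => ?_⟩
    rw [Submodule.mem_iInf] at h4
    have h5 := h4 i
    rw [Submodule.mem_iInf] at h5
    exact h5 hi
  have h3 := Submodule.finrank_mono h2
  have h4 := le_finrank_V n hn
  have h5 : (finrank ℂ (V n) : ℤ) ≤ finrank ℂ (YS n a) +
      ∑ i ∈ Finset.range 9, ((a i + 1).choose 2 : ℤ) := by
    have : finrank ℂ (V n) ≤ finrank ℂ (YS n a) +
      ∑ i ∈ Finset.range 9, (a i + 1).choose 2 := by omega
    exact_mod_cast this
  have h6 : 2 * ∑ i ∈ Finset.range 9, ((a i + 1).choose 2 : ℤ) =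
      ∑ i ∈ Finset.range 9, (a i : ℤ) * (a i + 1) := by
    rw [Finset.mul_sum]
    apply Finset.sum_congr rfl
    intro i _
    have h7 : (a i + 1).choose 2 * 2 = (a i + 1) * a i := by
      rw [Nat.choose_two_right, Nat.add_sub_cancel]
      exact Nat.div_mul_cancel (Nat.even_mul_pred_self (a i + 1)).two_dvd
    have h8 : (((a i + 1).choose 2 : ℕ) : ℤ) * 2 = (a i + 1) * a i := by exact_mod_cast h7
    linarith
  linarith

theorem YB_lower (n : ℤ) (a : ℕ → ℕ) (k : ℕ) (hn : -2 ≤ n - 3 * k) :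
    chB n a k ≤ 2 * (finrank ℂ (YB n a k) : ℤ) := by
  have h := YS_lower (n - 3 * k) hn (fun i => a i - k)
  rw [chB]
  exact h

theorem YB_eq {n : ℕ} {a : ℕ → ℕ} (ha : ∀ i j, i ≤ j → j < 9 → a j ≤ a i)
    (hd : a 0 + a 1 + a 2 ≤ n) (hsum : ∑ i ∈ Finset.range 9, a i < 3 * n) {k K : ℕ}
    (hK : Lev n a K) (hk : k ≤ K) : 2 * (finrank ℂ (YB n a k) : ℤ) = chB n a k := by
  apply le_antisymm
  · exact YB_upper ha hd hsum hK (K - k) k (by omega)
  · exact YB_lower n a k (by have := hK.2; omega)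

/-- row lengths in the reduced range -/
theorem rr_eq {n : ℕ} {a : ℕ → ℕ} (ha : ∀ i j, i ≤ j → j < 9 → a j ≤ a i)
    (hd : a 0 + a 1 + a 2 ≤ n) (hsum : ∑ i ∈ Finset.range 9, a i < 3 * n) {b K : ℕ}
    (hK : Lev n a K) (hb : b < K) : (rr n a b : ℤ) = 3 * ((n : ℤ) - 3 * b) -
      ∑ i ∈ Finset.range 9, ((a i - b : ℕ) : ℤ) := by
  have h1 := YB_eq ha hd hsum hK hb.le
  have h2 := YB_eq ha hd hsum hK (k := b + 1) hb
  have h3 := rr_add n a b
  have h4 : (rr n a b : ℤ) + finrank ℂ (YB n a (b + 1)) = finrank ℂ (YB n a b) := by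
    exact_mod_cast h3
  have h5 : ∑ i ∈ Finset.range 9, ((a i - b : ℕ) : ℤ) * (((a i - b : ℕ) : ℤ) + 1) =
      ∑ i ∈ Finset.range 9, ((a i - (b + 1) : ℕ) : ℤ) * (((a i - (b + 1) : ℕ) : ℤ) + 1) +
      2 * ∑ i ∈ Finset.range 9, ((a i - b : ℕ) : ℤ) := by
    rw [Finset.mul_sum, ← Finset.sum_add_distrib]
    apply Finset.sum_congr rfl
    intro i _
    have := tri_key (a i - b)
    rw [Nat.sub_sub] at this
    exact_mod_cast this
  rw [chB, h5] at h1
  rw [chB] at h2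
  push_cast at h2
  ring_nf at h1 h2 ⊢
  linarith

/-- upper bound for the row lengths -/
theorem rr_le {n : ℕ} {a : ℕ → ℕ} {b n' : ℕ} (hn : n' + 3 * b = n)
    (h : ∑ i ∈ Finset.range 9, (a i - b) < 3 * n') :
    rr n a b + ∑ i ∈ Finset.range 9, (a i - b) ≤ 3 * n' := by
  have h1 := YB_step hn h
  have h2 := rr_add n a b
  omega

open Polynomial in
theorem le_finrank_of_orders (o : ℂ) (n : ℕ) : ∀ (W : Submodule ℂ ℂ[X]), FiniteDimensional ℂ W →
    ∀ s : ℕ, (∀ k, s ≤ k → k < s + n → ∃ f ∈ W, (taylor o f).coeff k = 1 ∧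
      ∀ i < k, (taylor o f).coeff i = 0) → n ≤ finrank ℂ W := by
  induction n with
  | zero => intro W _ s _; exact Nat.zero_le _
  | succ n ih =>
    intro W hW s h
    let φ : ℂ[X] →ₗ[ℂ] ℂ := (lcoeff ℂ s) ∘ₗ (taylor o)
    have hφ : ∀ f, φ f = (taylor o f).coeff s := fun f => rfl
    have h1 := ih (W ⊓ LinearMap.ker φ) (Submodule.finiteDimensional_of_le inf_le_left) (s + 1) (by
      intro k hk1 hk2
      obtain ⟨f, hf, h2, h3⟩ := h k (by omega) (by omega)
      refine ⟨f, ⟨hf, ?_⟩, h2, h3⟩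
      rw [SetLike.mem_coe, LinearMap.mem_ker, hφ]
      exact h3 s (by omega))
    have h2 : W ⊓ LinearMap.ker φ < W := by
      refine lt_of_le_of_ne inf_le_left ?_
      intro heq
      obtain ⟨f, hf, h3, -⟩ := h s le_rfl (by omega)
      rw [← heq] at hf
      have h4 := hf.2
      rw [SetLike.mem_coe, LinearMap.mem_ker, hφ, h3] at h4
      exact one_ne_zero h4
    have h3 := Submodule.finrank_lt_finrank_of_lt h2
    omega

open Polynomial in
/-- the lemma of Hopf for products of spaces of polynomials in one variable -/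
theorem hopf {U W Z : Submodule ℂ ℂ[X]} [FiniteDimensional ℂ U] [FiniteDimensional ℂ W]
    [FiniteDimensional ℂ Z] (hZ : ∀ f ∈ U, ∀ g ∈ W, f * g ∈ Z) (hU : 0 < finrank ℂ U)
    (hW : 0 < finrank ℂ W) : finrank ℂ U + finrank ℂ W ≤ finrank ℂ Z + 1 := by
  obtain ⟨N₁, hN₁, h₁⟩ := exists_general (finrank ℂ U) U inferInstance rfl
  obtain ⟨N₂, hN₂, h₂⟩ := exists_general (finrank ℂ W) W inferInstance rfl
  obtain ⟨o, ho⟩ : ∃ o : ℂ, (N₁ * N₂).eval o ≠ 0 := by
    by_contra hcon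
    push Not at hcon
    exact mul_ne_zero hN₁ hN₂ (Polynomial.funext (fun r => by rw [hcon r, Polynomial.eval_zero]))
  rw [Polynomial.eval_mul] at ho
  have g₁ := h₁ o (left_ne_zero_of_mul ho)
  have g₂ := h₂ o (right_ne_zero_of_mul ho)
  have key := le_finrank_of_orders o (finrank ℂ U + finrank ℂ W - 1) Z inferInstance 0 (by
    intro k _ hk
    obtain ⟨x, y, hx, hy, hxy⟩ : ∃ x y, x < finrank ℂ U ∧ y < finrank ℂ W ∧ x + y = k := by
      refine ⟨min k (finrank ℂ U - 1), k - min k (finrank ℂ U - 1), ?_, ?_, ?_⟩ <;> omega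
    obtain ⟨f, hf, hf1, hf2⟩ := exists_taylor g₁ x hx
    obtain ⟨g, hg, hg1, hg2⟩ := exists_taylor g₂ y hy
    obtain ⟨f', hf'⟩ : X ^ x ∣ taylor o f := X_pow_dvd_iff.2 hf2
    obtain ⟨g', hg'⟩ : X ^ y ∣ taylor o g := X_pow_dvd_iff.2 hg2
    have hf0 : f'.coeff 0 = 1 := by
      rw [← hf1, hf', coeff_X_pow_mul', if_pos le_rfl, Nat.sub_self]
    have hg0 : g'.coeff 0 = 1 := by
      rw [← hg1, hg', coeff_X_pow_mul', if_pos le_rfl, Nat.sub_self]
    have e : taylor o (f * g) = X ^ k * (f' * g') := by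
      rw [taylor_mul, hf', hg', ← hxy, pow_add]
      ring
    refine ⟨f * g, hZ f hf g hg, ?_, ?_⟩
    · rw [e, coeff_X_pow_mul', if_pos le_rfl, Nat.sub_self, mul_coeff_zero, hf0, hg0, one_mul]
    · intro i hi
      rw [e, coeff_X_pow_mul', if_neg (by omega)])
  omega

/-- the rows get shorter by at least the number of missing points minus one -/
theorem rr_hopf (n : ℤ) (a : ℕ → ℕ) (b : ℕ) (h : 0 < rr n a (b + 1))
    (h9 : ((Finset.range 9).filter fun i => b < a i).card < 9) :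
    rr n a (b + 1) + 8 ≤ rr n a b + ((Finset.range 9).filter fun i => b < a i).card := by
  set N := ((Finset.range 9).filter fun i => b < a i).card with hN
  let δ : ℕ → ℕ := fun i => if b < a i then 1 else 0
  have h1 := YS_lower 3 (by norm_num) δ
  have h2 : ∑ i ∈ Finset.range 9, (δ i : ℤ) * ((δ i : ℤ) + 1) = 2 * N := by
    have h3 : ∀ i ∈ Finset.range 9, (δ i : ℤ) * ((δ i : ℤ) + 1) = 2 * (if b < a i then 1 else 0) := by
      intro i _
      simp only [δ]
      split_ifs <;> simp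
    rw [Finset.sum_congr rfl h3, ← Finset.mul_sum, Finset.sum_boole]
  rw [h2] at h1
  -- the restriction of cubics
  have h3 := finrank_map_rc 3 δ 0
  have e1 : YB 3 δ 0 = YS 3 δ := by
    have e1 : (3 : ℤ) - 3 * ((0 : ℕ) : ℤ) = 3 := by simp
    have e2 : (fun i => δ i - 0) = δ := by funext i; simp
    rw [YB, e1, e2]
  have e2 : finrank ℂ (YB 3 δ (0 + 1)) ≤ 1 := by
    have e3 : (3 : ℤ) - 3 * ((0 + 1 : ℕ) : ℤ) = 0 := by simp
    have e4 : YB 3 δ (0 + 1) ≤ ℂ ∙ (1 : R2) := by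
      rintro F ⟨hF, -⟩
      rw [e3] at hF
      rw [mem_V] at hF
      rw [Submodule.mem_span_singleton]
      rcases hF with rfl | hF
      · exact ⟨0, by simp⟩
      · have h4 : F.totalDegree = 0 := by omega
        have h5 := MvPolynomial.totalDegree_eq_zero_iff_eq_C.1 h4
        exact ⟨MvPolynomial.coeff 0 F, by rw [MvPolynomial.smul_eq_C_mul, mul_one, ← h5]⟩
    have h5 := Submodule.finrank_mono e4
    rwa [finrank_span_singleton one_ne_zero] at h5
  rw [e1] at h3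
  have h4 : 9 ≤ finrank ℂ ((YS 3 δ).map rc.toLinearMap) + N := by
    have h5 : (20 : ℤ) - 2 * N ≤ 2 * finrank ℂ (YS 3 δ) := by linarith
    omega
  have h5 := hopf (U := (YB n a (b + 1)).map rc.toLinearMap) (W := (YS 3 δ).map rc.toLinearMap)
    (Z := (YB n a b).map rc.toLinearMap) (by
      rintro _ ⟨F, hF, rfl⟩ _ ⟨G, hG, rfl⟩
      refine ⟨F * G, ⟨?_, fun i hi => ?_⟩, map_mul rc F G⟩
      · have h6 := hF.1
        have h7 := hG.1
        rw [mem_V] at h6 h7 ⊢
        rcases h6 with rfl | h6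
        · left; simp
        rcases h7 with rfl | h7
        · left; simp
        right
        have h8 := MvPolynomial.totalDegree_mul F G
        push_cast at h6
        have h9 : ((F * G).totalDegree : ℤ) ≤ F.totalDegree + G.totalDegree := by exact_mod_cast h8
        linarith
      · have h6 := mul_mem_mI_pow (hF.2 i hi) (hG.2 i hi)
        refine Ideal.pow_le_pow_right ?_ h6
        simp only [δ]
        split_ifs <;> omega) (by rw [finrank_map_rc']; exact h) (by omega)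
  rw [finrank_map_rc', finrank_map_rc'] at h5
  omega

end Helper18.Cusp
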