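import Pool.Agent.Helper18.CuspDim

/-!
The shape of the region.
-/

open Module

noncomputable section

namespace Helper18.Cusp

open Helper18.Shgh

/-- reduced systems with nine points and positive degree on the cubic -/
structure Red (n : ℕ) (a : ℕ → ℕ) : Prop where
  ha : ∀ i j, i ≤ j → j < 9 → a j ≤ a i
  hd : a 0 + a 1 + a 2 ≤ n
  hsum : ∑ i ∈ Finset.range 9, a i < 3 * n

/-- the degree on the cubic -/
def kap (n : ℕ) (a : ℕ → ℕ) : ℕ := 3 * n - ∑ i ∈ Finset.range 9, a i

variable {n : ℕ} {a : ℕ → ℕ}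

theorem Red.chain (h : Red n a) : a 1 ≤ a 0 ∧ a 2 ≤ a 1 ∧ a 3 ≤ a 2 ∧ a 4 ≤ a 3 ∧ a 5 ≤ a 4 ∧
    a 6 ≤ a 5 ∧ a 7 ≤ a 6 ∧ a 8 ≤ a 7 :=
  ⟨h.ha 0 1 (by norm_num) (by norm_num), h.ha 1 2 (by norm_num) (by norm_num),
    h.ha 2 3 (by norm_num) (by norm_num), h.ha 3 4 (by norm_num) (by norm_num),
    h.ha 4 5 (by norm_num) (by norm_num), h.ha 5 6 (by norm_num) (by norm_num),
    h.ha 6 7 (by norm_num) (by norm_num), h.ha 7 8 (by norm_num) (by norm_num)⟩

theorem sum9 (f : ℕ → ℕ) : ∑ i ∈ Finset.range 9, f i =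
    f 0 + f 1 + f 2 + f 3 + f 4 + f 5 + f 6 + f 7 + f 8 := by
  simp only [Finset.sum_range_succ, Finset.sum_range_zero, zero_add]

theorem sum9z (f : ℕ → ℤ) : ∑ i ∈ Finset.range 9, f i =
    f 0 + f 1 + f 2 + f 3 + f 4 + f 5 + f 6 + f 7 + f 8 := by
  simp only [Finset.sum_range_succ, Finset.sum_range_zero, zero_add]

theorem Red.kap_pos (h : Red n a) : 0 < kap n a := by
  have := h.hsum
  rw [kap]; omega

theorem rr_wall (h : Red n a) {b : ℕ} (hb : b < a 8) : rr n a b = kap n a := by
  obtain ⟨h1, h2, h3, h4, h5, h6, h7, h8⟩ := h.chain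
  have e := rr_eq h.ha h.hd h.hsum (lev_red h.ha h.hd) (b := b) (by omega)
  have hs := h.hsum
  rw [sum9z] at e
  rw [kap]
  rw [sum9] at hs ⊢
  omega

theorem rr_le' (h : Red n a) {b : ℕ} (hb : b ≤ a 2) (hn : 3 * b < n) :
    (rr n a b : ℤ) ≤ 3 * ((n : ℤ) - 3 * b) - ∑ i ∈ Finset.range 9, ((a i - b : ℕ) : ℤ) := by
  obtain ⟨n', hn'⟩ : ∃ n', n' + 3 * b = n := ⟨n - 3 * b, by omega⟩
  have hpos : ∑ i ∈ Finset.range 9, (a i - b) < 3 * n' := by
    rcases lt_or_eq_of_le hb with hb | hb
    · exact YB_pos h.ha h.hd h.hsum (lev_red h.ha h.hd) hb hn'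
    · obtain ⟨h1, h2, h3, h4, h5, h6, h7, h8⟩ := h.chain
      have hd := h.hd
      rw [sum9]
      omega
  have e := rr_le hn' hpos
  rw [sum9] at e
  rw [sum9z]
  omega

theorem rr_zero {b : ℕ} (hb : n < 3 * b) : rr n a b = 0 := by
  rw [rr, YB_eq_bot (by exact_mod_cast hb), finrank_bot, Nat.zero_sub]

theorem rr_le_one {b : ℕ} (hb : n = 3 * b) : rr n a b ≤ 1 := by
  have e4 : YB n a b ≤ ℂ ∙ (1 : R2) := by
    rintro F ⟨hF, -⟩
    have e3 : (n : ℤ) - 3 * b = 0 := by rw [hb]; push_cast; ring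
    rw [e3, mem_V] at hF
    rw [Submodule.mem_span_singleton]
    rcases hF with rfl | hF
    · exact ⟨0, by simp⟩
    · have h4 : F.totalDegree = 0 := by omega
      have h5 := MvPolynomial.totalDegree_eq_zero_iff_eq_C.1 h4
      exact ⟨MvPolynomial.coeff 0 F, by rw [MvPolynomial.smul_eq_C_mul, mul_one, ← h5]⟩
  have h5 := Submodule.finrank_mono e4
  rw [finrank_span_singleton one_ne_zero] at h5
  rw [rr]; omega

theorem card_filter_lt_of {b k : ℕ} (h : ∀ i, k ≤ i → i < 9 → a i ≤ b) :
    ((Finset.range 9).filter fun i => b < a i).card ≤ k := by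
  have h1 : ((Finset.range 9).filter fun i => b < a i) ⊆ Finset.range k := by
    intro i hi
    rw [Finset.mem_filter, Finset.mem_range] at hi
    rw [Finset.mem_range]
    by_contra hcon
    have := h i (by omega) hi.1
    omega
  have h2 := Finset.card_le_card h1
  rwa [Finset.card_range] at h2

theorem rr_strict (h : Red n a) {b : ℕ} (hb : a 8 ≤ b) (h2 : 0 < rr n a (b + 1)) :
    rr n a (b + 1) < rr n a b ∨ (n = 3 * (b + 1) ∧ rr n a (b + 1) = 1 ∧ 0 < rr n a b) := by
  obtain ⟨h01, h12, h23, h34, h45, h56, h67, h78⟩ := h.chain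
  rcases Nat.lt_or_ge b (a 7) with h7 | h7
  · have hlev := lev_red h.ha h.hd
    have e := rr_eq h.ha h.hd h.hsum hlev (b := b) (by omega)
    rw [sum9z] at e
    rcases Nat.lt_trichotomy n (3 * (b + 1)) with hn | hn | hn
    · have := rr_zero (a := a) hn
      omega
    · right
      have h3 := rr_le_one (a := a) hn
      have h4 := rr_hopf n a b h2 (by
        have := card_filter_lt_of (a := a) (b := b) (k := 8) (by
          intro i hi hi9
          have : i = 8 := by omega
          subst this; exact hb)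
        omega)
      have h5 := card_filter_lt_of (a := a) (b := b) (k := 8) (by
          intro i hi hi9
          have : i = 8 := by omega
          subst this; exact hb)
      exact ⟨hn, by omega, by omega⟩
    · left
      have e2 := rr_le' h (b := b + 1) (by omega) hn
      rw [sum9z] at e2
      push_cast at e2
      omega
  · left
    have h5 := card_filter_lt_of (a := a) (b := b) (k := 7) (by
      intro i hi hi9
      have : a i ≤ a 7 := h.ha 7 i (by omega) hi9
      omega)
    have h4 := rr_hopf n a b h2 (by omega)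
    omega

theorem rr_anti (h : Red n a) (b : ℕ) : rr n a (b + 1) ≤ rr n a b := by
  rcases Nat.eq_zero_or_pos (rr n a (b + 1)) with h0 | h0
  · omega
  rcases Nat.lt_or_ge b (a 8) with h8 | h8
  · obtain ⟨h01, h12, h23, h34, h45, h56, h67, h78⟩ := h.chain
    have hs := h.hsum
    have hd := h.hd
    rw [sum9] at hs
    have e1 := rr_wall h h8
    have e2 := rr_le' h (b := b + 1) (by omega) (by omega)
    rw [kap, sum9] at e1
    rw [sum9z] at e2
    omega
  · rcases rr_strict h h8 h0 with h1 | ⟨h1, h2, h3⟩ <;> omega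

theorem rr_antitone (h : Red n a) : Antitone (rr n a) := antitone_nat_of_succ_le (rr_anti h)

theorem rr_le_kap (h : Red n a) (b : ℕ) : rr n a b ≤ kap n a := by
  refine (rr_antitone h (Nat.zero_le b)).trans ?_
  obtain ⟨h01, h12, h23, h34, h45, h56, h67, h78⟩ := h.chain
  have hs := h.hsum
  have hd := h.hd
  rw [sum9] at hs
  have e2 := rr_le' h (b := 0) (by omega) (by omega)
  rw [sum9z] at e2
  rw [kap, sum9]
  omega

/-- heights of the columns -/
def HS (n : ℕ) (a : ℕ → ℕ) (x : ℕ) : ℕ := ((Finset.range (n + 1)).filter fun b => x < rr n a b).card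

theorem lt_HS (h : Red n a) {x b : ℕ} : b < HS n a x ↔ x < rr n a b := by
  have hanti := rr_antitone h
  constructor
  · intro hb
    by_contra hcon
    push Not at hcon
    have h1 : ((Finset.range (n + 1)).filter fun b => x < rr n a b) ⊆ Finset.range b := by
      intro c hc
      rw [Finset.mem_filter] at hc
      rw [Finset.mem_range]
      by_contra h2
      have := hanti (show b ≤ c by omega)
      omega
    have h2 := Finset.card_le_card h1
    rw [Finset.card_range] at h2
    rw [HS] at hb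
    omega
  · intro hb
    have hbn : b < n + 1 := by
      by_contra h2
      have := rr_zero (a := a) (show n < 3 * b by omega)
      omega
    have h1 : Finset.range (b + 1) ⊆ ((Finset.range (n + 1)).filter fun b => x < rr n a b) := by
      intro c hc
      rw [Finset.mem_range] at hc
      rw [Finset.mem_filter, Finset.mem_range]
      have := hanti (show c ≤ b by omega)
      omega
    have h2 := Finset.card_le_card h1
    rw [Finset.card_range] at h2
    rw [HS]
    omega

theorem HS_anti (n : ℕ) (a : ℕ → ℕ) : Antitone (HS n a) := by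
  intro x y hxy
  apply Finset.card_le_card
  intro b hb
  rw [Finset.mem_filter] at hb ⊢
  exact ⟨hb.1, lt_of_le_of_lt hxy hb.2⟩

theorem HS_drop (h : Red n a) {x : ℕ} (hx : x + 1 < kap n a) : HS n a x ≤ HS n a (x + 1) + 2 := by
  by_contra hcon
  push Not at hcon
  set t := HS n a (x + 1) with ht
  have h1 : ¬ x + 1 < rr n a t := fun h2 => by
    have := (lt_HS h).2 h2
    omega
  have h2 : x < rr n a (t + 1 + 1) := (lt_HS h).1 (by omega)
  have h3 := rr_anti h (t + 1)
  have h4 := rr_anti h t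
  have h8 : a 8 ≤ t := by
    by_contra h8
    have := rr_wall h (b := t) (by omega)
    omega
  rcases rr_strict h (b := t) h8 (by omega) with h5 | ⟨h5, h6, h7⟩
  · omega
  · have := rr_zero (a := a) (b := t + 1 + 1) (n := n) (by omega)
    omega

theorem HS_drop' (h : Red n a) {x : ℕ} (hx : x + 1 < kap n a) (hx0 : 0 < x) :
    HS n a x ≤ HS n a (x + 1) + 1 := by
  by_contra hcon
  push Not at hcon
  set t := HS n a (x + 1) with ht
  have h1 : ¬ x + 1 < rr n a t := fun h2 => by
    have := (lt_HS h).2 h2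
    omega
  have h2 : x < rr n a (t + 1) := (lt_HS h).1 (by omega)
  have h4 := rr_anti h t
  have h8 : a 8 ≤ t := by
    by_contra h8
    have := rr_wall h (b := t) (by omega)
    omega
  rcases rr_strict h (b := t) h8 (by omega) with h5 | ⟨h5, h6, h7⟩ <;> omega

theorem HS_wall (h : Red n a) {x : ℕ} (hx : x < kap n a) : a 8 ≤ HS n a x := by
  by_contra hcon
  push Not at hcon
  have h1 := rr_wall h hcon
  have h2 : ¬ x < rr n a (HS n a x) := fun h2 => by
    have := (lt_HS h).2 h2
    omega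
  omega

theorem rr_lev (h : Red n a) {K b : ℕ} (hK : Lev n a K) (hb : b < K) :
    (rr n a b : ℤ) = 3 * ((n : ℤ) - 3 * b) - ∑ i ∈ Finset.range 9, ((a i - b : ℕ) : ℤ) :=
  rr_eq h.ha h.hd h.hsum hK hb

theorem HS_lev (h : Red n a) {K : ℕ} (hK : Lev n a K) : K ≤ HS n a 0 := by
  by_contra hcon
  push Not at hcon
  have h2 : ¬ 0 < rr n a (HS n a 0) := fun h2 => by
    have := (lt_HS h).2 h2
    omega
  have h3 := rr_lev h hK hcon
  set b := HS n a 0
  obtain ⟨n', hn'⟩ : ∃ n', n' + 3 * b = n := ⟨n - 3 * b, by have := hK.2; omega⟩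
  have h4 := YB_pos h.ha h.hd h.hsum hK hcon hn'
  have h5 : ((∑ i ∈ Finset.range 9, (a i - b) : ℕ) : ℤ) < 3 * n' := by exact_mod_cast h4
  push_cast at h5
  have h6 : (rr n a b : ℤ) = 0 := by omega
  omega

theorem finrank_YB_of_rr_zero (h : Red n a) {b : ℕ} (h0 : rr n a b = 0) :
    finrank ℂ (YB n a b) = 0 := by
  have h1 : ∀ t, finrank ℂ (YB n a (b + t)) = finrank ℂ (YB n a b) := by
    intro t
    induction t with
    | zero => rfl
    | succ t ih =>
      have h2 := rr_add n a (b + t)
      have h3 := rr_antitone h (show b ≤ b + t by omega)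
      rw [← ih, ← h2, add_assoc]
      omega
  rw [← h1 (n + 1), YB_eq_bot (by push_cast; omega), finrank_bot]

/-- the stages are nonzero for long -/
theorem rr_pos (h : Red n a) {b : ℕ} (hb : (a 0 - b) + 3 * b ≤ n) : 0 < rr n a b := by
  by_contra hcon
  push Not at hcon
  have h0 : rr n a b = 0 := by omega
  rcases Nat.lt_or_ge b (a 2) with h2 | h2
  · have hlev := lev_red h.ha h.hd
    have h3 := rr_lev h hlev h2
    obtain ⟨n', hn'⟩ : ∃ n', n' + 3 * b = n := ⟨n - 3 * b, by have := hlev.2; omega⟩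
    have h4 := YB_pos h.ha h.hd h.hsum hlev h2 hn'
    have h5 : ((∑ i ∈ Finset.range 9, (a i - b) : ℕ) : ℤ) < 3 * n' := by exact_mod_cast h4
    push_cast at h5
    omega
  · have h3 := finrank_YB_of_rr_zero h h0
    rw [Submodule.finrank_eq_zero] at h3
    obtain ⟨h01, -⟩ := h.chain
    -- the line through the first two points
    have hx : qq 1 0 - qq 0 0 ≠ 0 := sub_ne_zero.2 (qq_ne (by norm_num))
    set α : ℂ := (qq 1 1 - qq 0 1) / (qq 1 0 - qq 0 0) with hα
    set β : ℂ := qq 0 1 - α * qq 0 0 with hβ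
    have hmem : ll α β ^ (a 0 - b) ∈ YB n a b := by
      refine ⟨?_, fun i hi => ?_⟩
      · rw [mem_V]
        right
        have := MvPolynomial.totalDegree_pow (ll α β) (a 0 - b)
        rw [totalDegree_ll, mul_one] at this
        have h5 : ((ll α β ^ (a 0 - b)).totalDegree : ℤ) ≤ ((a 0 - b : ℕ) : ℤ) := by
          exact_mod_cast this
        omega
      · rw [Finset.mem_range] at hi
        change ll α β ^ (a 0 - b) ∈ mI (qq i) ^ (a i - b)
        have e0 : ll α β ∈ mI (qq 0) := by
          rw [mem_mI_iff, ll]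
          simp only [map_sub, map_add, map_mul, MvPolynomial.eval_X, MvPolynomial.eval_C]
          rw [hβ]; ring
        have e1 : ll α β ∈ mI (qq 1) := by
          rw [mem_mI_iff, ll]
          simp only [map_sub, map_add, map_mul, MvPolynomial.eval_X, MvPolynomial.eval_C]
          rw [hβ, hα]
          field_simp
          ring
        rcases Nat.lt_or_ge i 2 with hi2 | hi2
        · have : i = 0 ∨ i = 1 := by omega
          rcases this with rfl | rfl
          · exact Ideal.pow_mem_pow e0 _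
          · exact Ideal.pow_le_pow_right (by omega) (Ideal.pow_mem_pow e1 (a 0 - b))
        · have h6 : a i ≤ a 2 := h.ha 2 i hi2 hi
          rw [show a i - b = 0 by omega, pow_zero, Ideal.one_eq_top]
          exact Submodule.mem_top
    rw [h3, Submodule.mem_bot] at hmem
    exact pow_ne_zero _ (ll_ne_zero α β) hmem

theorem lt_HS_zero (h : Red n a) {b : ℕ} (hb : (a 0 - b) + 3 * b ≤ n) : b < HS n a 0 :=
  (lt_HS h).2 (rr_pos h hb)

/-- the corner -/
theorem rr_corner (h : Red n a) {K A j b : ℕ} (hK : Lev n a K) (hA : A ≤ K) (hj : j ≤ 9)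
    (hbig : ∀ i < j, A ≤ a i) (hsmall : ∀ i, j ≤ i → i < 9 → a i = 0) (hb : b < A) :
    rr n a b + (9 - j) * b = kap n a := by
  have h1 := rr_lev h hK (lt_of_lt_of_le hb hA)
  have h2 : ∑ i ∈ Finset.range 9, ((a i - b : ℕ) : ℤ) =
      ∑ i ∈ Finset.range 9, (a i : ℤ) - j * b := by
    have h3 : ∀ i ∈ Finset.range 9, ((a i - b : ℕ) : ℤ) = (a i : ℤ) - if i < j then (b : ℤ) else 0 := by
      intro i hi
      rw [Finset.mem_range] at hi
      split_ifs with h4
      · have := hbig i h4
        omega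
      · rw [hsmall i (by omega) hi]
        simp
    rw [Finset.sum_congr rfl h3, Finset.sum_sub_distrib]
    congr 1
    rw [← Finset.sum_filter, Finset.sum_const, nsmul_eq_mul]
    congr 2
    have : ((Finset.range 9).filter fun i => i < j) = Finset.range j := by
      ext i
      rw [Finset.mem_filter, Finset.mem_range, Finset.mem_range]
      omega
    rw [this, Finset.card_range]
  rw [h2] at h1
  have hs : ((∑ i ∈ Finset.range 9, a i : ℕ) : ℤ) < 3 * n := by exact_mod_cast h.hsum
  have hk : (kap n a : ℤ) = 3 * n - ∑ i ∈ Finset.range 9, (a i : ℤ) := by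
    rw [kap, Nat.cast_sub h.hsum.le]
    push_cast
    ring
  have h5 : ((9 - j : ℕ) : ℤ) = 9 - j := by omega
  have h6 : ((rr n a b + (9 - j) * b : ℕ) : ℤ) = kap n a := by
    push_cast
    rw [h5, h1, hk]
    ring
  exact_mod_cast h6

theorem HS_corner (h : Red n a) {K A j x : ℕ} (hK : Lev n a K) (hA : A ≤ K) (hj : j ≤ 8)
    (hbig : ∀ i < j, A ≤ a i) (hsmall : ∀ i, j ≤ i → i < 9 → a i = 0)
    (hx1 : x ≤ kap n a) (hx2 : kap n a ≤ x + (9 - j) * (A - 1)) (hA0 : 0 < A) :
    HS n a x = (kap n a - x + (9 - j - 1)) / (9 - j) := by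
  set s := 9 - j with hs
  have hs0 : 0 < s := by omega
  set c := (kap n a - x + (s - 1)) / s with hc
  have hc1 : s * c ≤ kap n a - x + (s - 1) := Nat.mul_div_le _ _
  have hc2 : kap n a - x + (s - 1) < s * (c + 1) := Nat.lt_mul_div_succ _ hs0
  have hcA : c ≤ A - 1 := by
    by_contra hcon
    push Not at hcon
    have : s * A ≤ s * c := Nat.mul_le_mul_left _ (by omega)
    have : s * (A - 1) + s = s * A := by
      rw [← Nat.mul_succ]; congr 1; omega
    omega
  apply le_antisymm
  · by_contra hcon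
    push Not at hcon
    have h1 := (lt_HS h).1 hcon
    have h2 := rr_corner h hK hA (by omega) hbig hsmall (b := c) (by omega)
    rw [← hs] at h2
    rw [mul_add] at hc2
    omega
  · by_contra hcon
    push Not at hcon
    have h1 : ¬ x < rr n a (HS n a x) := fun h1 => by
      have := (lt_HS h).2 h1
      omega
    have h2 := rr_corner h hK hA (by omega) hbig hsmall (b := HS n a x) (by omega)
    rw [← hs] at h2
    have h3 : s * (HS n a x + 1) ≤ s * c := Nat.mul_le_mul_left _ hcon
    rw [mul_add] at h3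
    omega

theorem card_DS' (h : Red n a) {B : ℕ} (hB : n < 3 * B) :
    2 * ((DS n a B).card : ℤ) = ((n : ℤ) + 1) * (n + 2) -
      ∑ i ∈ Finset.range 9, (a i : ℤ) * ((a i : ℤ) + 1) := by
  have h1 := YB_eq h.ha h.hd h.hsum (lev_red h.ha h.hd) (k := 0) (Nat.zero_le _)
  rw [card_DS (by exact_mod_cast hB)]
  have e1 : (n : ℤ) - 3 * ((0 : ℕ) : ℤ) = n := by simp
  have e2 : (fun i => a i - 0) = a := by funext i; simp
  rw [YB, chB, e1, e2] at h1
  simpa using h1

theorem swap_DS (h : Red n a) {B : ℕ} (hB : n < 3 * B) (d : ℕ × ℕ) :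
    d ∈ (DS n a B).image Prod.swap ↔ d.2 < kap n a ∧ d.1 < HS n a d.2 := by
  rw [Finset.mem_image]
  constructor
  · rintro ⟨c, hc, rfl⟩
    rw [mem_DS] at hc
    exact ⟨lt_of_lt_of_le hc.2 (rr_le_kap h _), (lt_HS h).2 hc.2⟩
  · rintro ⟨h1, h2⟩
    refine ⟨d.swap, ?_, Prod.swap_swap d⟩
    have h3 := (lt_HS h).1 h2
    rw [mem_DS]
    refine ⟨?_, h3⟩
    by_contra hcon
    rw [Prod.snd_swap] at hcon
    have := rr_zero (a := a) (b := d.1) (n := n) (by omega)
    omega

end Helper18.Cusp
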