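import Pool.Agent.Helper18.ShghGP

open Module

noncomputable section

namespace Helper18.Shgh

/-- adding one simple point -/
theorem add_simple {d : ℕ} {S : Finset ℕ} {P : ℕ → Fin 2 → ℂ} {m : ℕ → ℕ} {a : ℕ} (ha : a ∉ S)
    (hma : m a = 1) : ∃ P' : ℕ → Fin 2 → ℂ,
      finrank ℂ (SP (d : ℤ) (insert a S) P' m) ≤ finrank ℂ (SP (d : ℤ) S P m) - 1 := by
  have key : ∀ x : Fin 2 → ℂ, SP (d : ℤ) (insert a S) (Function.update P a x) m ≤
      SP (d : ℤ) S P m := by
    intro x F hF
    rw [mem_SP] at *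
    refine ⟨hF.1, fun i hi => ?_⟩
    have h1 := hF.2 i (Finset.mem_insert_of_mem hi)
    rwa [Function.update_of_ne (by rintro rfl; exact ha hi)] at h1
  by_cases hbot : SP (d : ℤ) S P m = ⊥
  · refine ⟨Function.update P a 0, ?_⟩
    have h1 := Submodule.finrank_mono (key 0)
    rw [hbot, finrank_bot] at h1
    omega
  · obtain ⟨F, hF, hF0⟩ := (Submodule.ne_bot_iff _).1 hbot
    obtain ⟨x, hx⟩ : ∃ x, MvPolynomial.eval x F ≠ 0 := by
      by_contra hcon
      push Not at hcon
      exact hF0 (MvPolynomial.funext fun x => by rw [hcon x, map_zero])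
    refine ⟨Function.update P a x, ?_⟩
    have h1 : SP (d : ℤ) (insert a S) (Function.update P a x) m < SP (d : ℤ) S P m := by
      refine lt_of_le_of_ne (key x) ?_
      intro heq
      rw [← heq, mem_SP] at hF
      have h2 := hF.2 a (Finset.mem_insert_self a S)
      rw [Function.update_self, hma, pow_one, mem_mI_iff] at h2
      exact hx h2
    have h2 := Submodule.finrank_lt_finrank_of_lt h1
    omega

theorem add_simples {d : ℕ} {S : Finset ℕ} {P : ℕ → Fin 2 → ℂ} {m : ℕ → ℕ} (F : Finset ℕ)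
    (hd : Disjoint S F) (hF : ∀ a ∈ F, m a = 1) : ∃ P' : ℕ → Fin 2 → ℂ,
      finrank ℂ (SP (d : ℤ) (S ∪ F) P' m) ≤ finrank ℂ (SP (d : ℤ) S P m) - F.card := by
  induction F using Finset.induction_on with
  | empty =>
    refine ⟨P, ?_⟩
    rw [Finset.union_empty, Finset.card_empty, Nat.sub_zero]
  | insert a F ha ih =>
    have h1 : Disjoint S F := hd.mono_right (Finset.subset_insert a F)
    obtain ⟨P₁, hP₁⟩ := ih h1 fun b hb => hF b (Finset.mem_insert_of_mem hb)
    have h2 : a ∉ S ∪ F := by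
      rw [Finset.mem_union, not_or]
      exact ⟨fun h => (Finset.disjoint_left.1 hd h) (Finset.mem_insert_self a F), ha⟩
    obtain ⟨P₂, hP₂⟩ := add_simple (d := d) (P := P₁) h2 (hF a (Finset.mem_insert_self a F))
    refine ⟨P₂, ?_⟩
    rw [Finset.union_insert, Finset.card_insert_of_notMem ha]
    omega

theorem two_choose (n : ℕ) : 2 * ((n + 1).choose 2 : ℤ) = n * (n + 1) := by
  have h := Nat.triangle_succ n
  rw [← Nat.choose_two_right] at h
  have h2 : (n + 1).choose 2 * 2 = (n + 1) * n := by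
    rw [Nat.choose_two_right, Nat.add_sub_cancel]
    exact Nat.div_mul_cancel (Nat.even_mul_pred_self (n + 1)).two_dvd
  have h3 : (((n + 1).choose 2 : ℕ) : ℤ) * 2 = (n + 1) * n := by exact_mod_cast h2
  linarith

theorem final (s : ℕ) (m : ℕ → ℕ) (d : ℕ) (hm : Antitone m) (hs : ∀ i, s ≤ i → m i = 0)
    (hd : m 0 + m 1 + m 2 ≤ d)
    (hsum : 2 * ∑ i ∈ Finset.range 9, m i +
      ∑ i ∈ (Finset.Ico 9 s).filter (fun i => 2 ≤ m i),
        (m i + if m 0 + m 1 + m 2 = d ∧ m i = m 1 then 1 else 0) < 6 * d) :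
    ∃ G : MvPolynomial (Fin s × Fin 3) ℂ, G ≠ 0 ∧
      ∀ P : Fin s → Fin 3 → ℂ, (∀ i, P i ≠ 0) →
        MvPolynomial.eval (fun ij : Fin s × Fin 3 => P ij.1 ij.2) G ≠ 0 →
        (finrank ℂ (FS s m d P) : ℤ) =
          max (((d + 2).choose 2 : ℤ) - ∑ i : Fin s, ((m (i : ℕ) + 1).choose 2 : ℤ)) 0 := by
  set E := (Finset.Ico 9 s).filter (fun i => 2 ≤ m i) with hE
  set F := (Finset.Ico 9 s).filter (fun i => m i = 1) with hF
  obtain ⟨P, hP⟩ := exists_points (E := E) hm hd (by
    intro r hr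
    rw [hE, Finset.mem_filter, Finset.mem_Ico] at hr
    exact ⟨hr.1.1, hr.2⟩) hsum
  have hdisj : Disjoint (Finset.range 9 ∪ E) F := by
    rw [Finset.disjoint_left]
    intro i hi hi2
    rw [hF, Finset.mem_filter, Finset.mem_Ico] at hi2
    rw [Finset.mem_union, Finset.mem_range, hE, Finset.mem_filter] at hi
    omega
  obtain ⟨P', hP'⟩ := add_simples (d := d) (P := P) (m := m) F hdisj (by
    intro a ha
    rw [hF, Finset.mem_filter] at ha
    exact ha.2)
  apply general_position hm P'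
  have h1 : SP (d : ℤ) (Finset.range s) P' m ≤ SP (d : ℤ) (Finset.range 9 ∪ E ∪ F) P' m := by
    intro G hG
    rw [mem_SP] at *
    refine ⟨hG.1, fun i hi => ?_⟩
    by_cases his : i < s
    · exact hG.2 i (Finset.mem_range.2 his)
    · rw [hs i (by omega), pow_zero, Ideal.one_eq_top]
      exact Submodule.mem_top
  have h2 := Submodule.finrank_mono h1
  have h3 : ∑ i : Fin s, ((m (i : ℕ) + 1).choose 2 : ℤ) =
      ∑ i ∈ Finset.range s, ((m i + 1).choose 2 : ℤ) :=
    Fin.sum_univ_eq_sum_range (fun i => ((m i + 1).choose 2 : ℤ)) s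
  have h4 : ∑ i ∈ Finset.range s, ((m i + 1).choose 2 : ℤ) =
      ∑ i ∈ Finset.range 9 ∪ E ∪ F, ((m i + 1).choose 2 : ℤ) := by
    have h5 : ∑ i ∈ Finset.range s, ((m i + 1).choose 2 : ℤ) =
        ∑ i ∈ Finset.range s ∪ Finset.range 9, ((m i + 1).choose 2 : ℤ) := by
      apply Finset.sum_subset Finset.subset_union_left
      intro i _ hi
      rw [Finset.mem_range] at hi
      rw [hs i (by omega)]
      rfl
    rw [h5]
    symm
    apply Finset.sum_subset
    · intro i hi
      rw [Finset.mem_union, Finset.mem_union, hE, hF, Finset.mem_filter, Finset.mem_filter,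
        Finset.mem_Ico, Finset.mem_range] at hi
      rw [Finset.mem_union, Finset.mem_range, Finset.mem_range]
      omega
    · intro i hi hi2
      rw [Finset.mem_union, Finset.mem_range, Finset.mem_range] at hi
      rw [Finset.mem_union, Finset.mem_union, hE, hF, Finset.mem_filter, Finset.mem_filter,
        Finset.mem_Ico, Finset.mem_range] at hi2
      have h6 : m i = 0 := by omega
      rw [h6]
      rfl
  have h5 : ∑ i ∈ F, ((m i + 1).choose 2 : ℤ) = F.card := by
    rw [Finset.sum_congr rfl (g := fun _ => (1 : ℤ))]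
    · simp
    · intro i hi
      rw [hF, Finset.mem_filter] at hi
      rw [hi.2]
      rfl
  have h6 : 2 * ∑ i ∈ Finset.range 9 ∪ E, ((m i + 1).choose 2 : ℤ) =
      ∑ i ∈ Finset.range 9 ∪ E, (m i : ℤ) * (m i + 1) := by
    rw [Finset.mul_sum]
    apply Finset.sum_congr rfl
    intro i _
    exact two_choose (m i)
  have h7 := two_choose (d + 1)
  rw [h3, h4, Finset.sum_union hdisj, h5]
  push_cast at h7 hP ⊢
  rcases le_or_gt (finrank ℂ (SP (d : ℤ) (Finset.range 9 ∪ E) P m)) F.card with h8 | h8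
  · refine le_max_of_le_right ?_
    have : finrank ℂ (SP (d : ℤ) (Finset.range s) P' m) = 0 := by omega
    rw [this]
    simp
  · refine le_max_of_le_left ?_
    have h9 : (finrank ℂ (SP (d : ℤ) (Finset.range s) P' m) : ℤ) + F.card ≤
        finrank ℂ (SP (d : ℤ) (Finset.range 9 ∪ E) P m) := by
      have : finrank ℂ (SP (d : ℤ) (Finset.range s) P' m) + F.card ≤
        finrank ℂ (SP (d : ℤ) (Finset.range 9 ∪ E) P m) := by omega
      exact_mod_cast this
    have h10 : ((d + 2).choose 2 : ℤ) = ((d + 1 + 1).choose 2 : ℤ) := rfl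
    linarith

end Helper18.Shgh
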