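import Pool.Agent.Helper18.CuspSwap
import Pool.Agent.Helper18.ShghFinal
import Pool.Agent.Helper18.CuspShape

/-!
From the toric region to the plane.
-/

open Module

noncomputable section

namespace Helper18.Cusp

open Helper18.Shgh
open Pool.Agent.Lead.Sh (E Row InjAt IndAt Inj Ind rows mem_rows cellR card_cellR)

theorem sum_range_sub (M : ℕ) : ∑ j ∈ Finset.range M, (M - j) = (M + 1).choose 2 := by
  have h1 := Finset.sum_range_reflect (fun j => j + 1) M
  have h2 : ∑ j ∈ Finset.range M, (M - j) = ∑ j ∈ Finset.range M, (M - 1 - j + 1) := by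
    apply Finset.sum_congr rfl
    intro j hj
    rw [Finset.mem_range] at hj
    omega
  rw [h2, h1]
  have h3 := Finset.sum_range_succ' (fun j => j) M
  rw [add_zero] at h3
  rw [← h3, Finset.sum_range_id, Nat.choose_two_right]

theorem card_rows (m : ℕ → ℕ) (S : Finset ℕ) : (rows m S).card = ∑ k ∈ S, (m k + 1).choose 2 := by
  unfold rows
  rw [Finset.card_biUnion]
  · apply Finset.sum_congr rfl
    intro k _
    rw [card_cellR, sum_range_sub]
  · intro i _ j _ hij
    change Disjoint _ _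
    rw [Finset.disjoint_left]
    intro r hr hr'
    rw [Pool.Agent.Lead.Sh.mem_cellR] at hr hr'
    exact hij (hr.1.symm.trans hr'.1)

/-- the conditions are of maximal rank on the region -/
def GoodFor (D : Finset (ℕ × ℕ)) (m : ℕ → ℕ) (S : Finset ℕ) : Prop :=
  (D.card ≤ ∑ k ∈ S, (m k + 1).choose 2 → Inj D (rows m S)) ∧
    (∑ k ∈ S, (m k + 1).choose 2 ≤ D.card → Ind D (rows m S))

theorem GoodFor.swap {D : Finset (ℕ × ℕ)} {m : ℕ → ℕ} {S : Finset ℕ}
    (h : GoodFor (D.image Prod.swap) m S) : GoodFor D m S := by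
  have hc : (D.image Prod.swap).card = D.card := Finset.card_image_of_injective _ Prod.swap_injective
  rw [GoodFor, hc] at h
  exact ⟨fun h1 => inj_swap (h.1 h1), fun h1 => ind_swap (h.2 h1)⟩

/-- the first `j` multiplicities -/
def tr (m : ℕ → ℕ) (j i : ℕ) : ℕ := if i < j then m i else 0

theorem sum_split {M : Type*} [AddCommMonoid M] {m : ℕ → ℕ} {s j : ℕ} (hj : j ≤ 9)
    (hs : ∀ i, s ≤ i → m i = 0) (f : ℕ → M) (hf : f 0 = 0) :
    ∑ i ∈ Finset.range 9, f (tr m j i) + ∑ i ∈ Finset.Ico j s, f (m i) =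
      ∑ i ∈ Finset.range s, f (m i) := by
  have h1 : ∑ i ∈ Finset.range 9, f (tr m j i) = ∑ i ∈ Finset.range j, f (m i) := by
    have h2 : ∑ i ∈ Finset.range j, f (m i) = ∑ i ∈ Finset.range j, f (tr m j i) := by
      apply Finset.sum_congr rfl
      intro i hi
      rw [Finset.mem_range] at hi
      rw [tr, if_pos hi]
    rw [h2]
    symm
    apply Finset.sum_subset
    · intro i hi
      rw [Finset.mem_range] at hi ⊢
      omega
    · intro i _ hi
      rw [Finset.mem_range] at hi
      rw [tr, if_neg hi, hf]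
  have h3 : ∑ i ∈ Finset.range s, f (m i) =
      ∑ i ∈ Finset.range j ∪ Finset.Ico j s, f (m i) := by
    apply Finset.sum_subset
    · intro i hi
      rw [Finset.mem_range] at hi
      rw [Finset.mem_union, Finset.mem_range, Finset.mem_Ico]
      omega
    · intro i _ hi
      rw [Finset.mem_range] at hi
      rw [hs i (by omega), hf]
  rw [h1, h3, Finset.sum_union]
  rw [Finset.disjoint_left]
  intro i hi hi2
  rw [Finset.mem_range] at hi
  rw [Finset.mem_Ico] at hi2
  omega

theorem two_choose_nat (n : ℕ) : 2 * (n + 1).choose 2 = n * (n + 1) := by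
  have h := two_choose n
  exact_mod_cast h

theorem cubic_finish (s : ℕ) (m : ℕ → ℕ) (d j : ℕ) (hm : Antitone m) (hs : ∀ i, s ≤ i → m i = 0)
    (hj : j ≤ 9) (hR : Red d (tr m j))
    (hG : GoodFor (DS d (tr m j) (d + 1)) m (Finset.Ico j s)) :
    ∃ G : MvPolynomial (Fin s × Fin 3) ℂ, G ≠ 0 ∧
      ∀ P : Fin s → Fin 3 → ℂ, (∀ i, P i ≠ 0) →
        MvPolynomial.eval (fun ij : Fin s × Fin 3 => P ij.1 ij.2) G ≠ 0 →
        (finrank ℂ (FS s m d P) : ℤ) =
          max (((d + 2).choose 2 : ℤ) - ∑ i : Fin s, ((m (i : ℕ) + 1).choose 2 : ℤ)) 0 := by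
  have hB : (d : ℤ) < 3 * ((d + 1 : ℕ) : ℤ) := by push_cast; omega
  have hcard := card_DS' hR (B := d + 1) (by omega)
  have hfin := card_DS (a := tr m j) hB
  have hd1 : 2 * ((d + 2).choose 2 : ℤ) = (d + 1) * (d + 2) := by
    have := two_choose (d + 1)
    push_cast at this ⊢
    linarith
  have hsum : 2 * ∑ i : Fin s, ((m (i : ℕ) + 1).choose 2 : ℤ) =
      ∑ i ∈ Finset.range 9, (tr m j i : ℤ) * ((tr m j i : ℤ) + 1) +
        2 * ((∑ k ∈ Finset.Ico j s, (m k + 1).choose 2 : ℕ) : ℤ) := by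
    have h1 := sum_split (m := m) hj hs (fun x => (x : ℤ) * (x + 1)) (by simp)
    rw [Fin.sum_univ_eq_sum_range (fun i => ((m i + 1).choose 2 : ℤ)) s, Finset.mul_sum,
      Finset.sum_congr rfl (fun i _ => two_choose (m i)), ← h1]
    congr 1
    push_cast
    rw [Finset.mul_sum]
    apply Finset.sum_congr rfl
    intro i _
    rw [two_choose]
  set χ : ℤ := ((d + 2).choose 2 : ℤ) - ∑ i : Fin s, ((m (i : ℕ) + 1).choose 2 : ℤ) with hχ
  have hχ2 : χ = ((DS d (tr m j) (d + 1)).card : ℤ) -
      ((∑ k ∈ Finset.Ico j s, (m k + 1).choose 2 : ℕ) : ℤ) := by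
    have h2 : 2 * χ = 2 * (((DS d (tr m j) (d + 1)).card : ℤ) -
      ((∑ k ∈ Finset.Ico j s, (m k + 1).choose 2 : ℕ) : ℤ)) := by
      rw [hχ, mul_sub, mul_sub, hcard, hd1, hsum]
      ring
    linarith
  -- from special to general points
  have key : ∀ P : ℕ → Fin 2 → ℂ,
      (finrank ℂ (KS d (tr m j) m (Finset.Ico j s) P) : ℤ) ≤ max χ 0 →
      ∃ G : MvPolynomial (Fin s × Fin 3) ℂ, G ≠ 0 ∧
        ∀ P : Fin s → Fin 3 → ℂ, (∀ i, P i ≠ 0) →
        MvPolynomial.eval (fun ij : Fin s × Fin 3 => P ij.1 ij.2) G ≠ 0 →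
        (finrank ℂ (FS s m d P) : ℤ) = max χ 0 := by
    intro P hP
    apply general_position hm (fun i => if i < j then qq i else P i)
    refine le_trans ?_ hP
    have h1 : SP (d : ℤ) (Finset.range s) (fun i => if i < j then qq i else P i) m ≤
        KS d (tr m j) m (Finset.Ico j s) P := by
      rintro F ⟨h1, h2⟩
      rw [mem_KS]
      refine ⟨⟨h1, fun i _ => ?_⟩, fun i hi => ?_⟩
      · rw [tr]
        split_ifs with hij
        · by_cases his : i < s
          · have := h2 i (Finset.mem_range.2 his)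
            simp only [if_pos hij] at this
            exact this
          · rw [hs i (by omega), pow_zero, Ideal.one_eq_top]
            exact Submodule.mem_top
        · rw [pow_zero, Ideal.one_eq_top]
          exact Submodule.mem_top
      · rw [Finset.mem_Ico] at hi
        have := h2 i (Finset.mem_range.2 hi.2)
        simp only [if_neg (not_lt.2 hi.1)] at this
        exact this
    have hfd : FiniteDimensional ℂ (KS d (tr m j) m (Finset.Ico j s) P) :=
      Submodule.finiteDimensional_of_le (inf_le_left : _ ≤ YS (d : ℤ) (tr m j))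
    exact_mod_cast Submodule.finrank_mono h1
  rcases le_total ((DS d (tr m j) (d + 1)).card) (∑ k ∈ Finset.Ico j s, (m k + 1).choose 2) with h | h
  · obtain ⟨P, hP⟩ := transfer_inj hB (hG.1 h)
    apply key P
    rw [hP, finrank_bot]
    exact le_max_right _ _
  · obtain ⟨P, hP⟩ := transfer_ind hB (hG.2 h)
    apply key P
    rw [card_rows, ← hfin] at hP
    apply le_max_of_le_left
    rw [hχ2]
    have : (finrank ℂ (KS d (tr m j) m (Finset.Ico j s) P) : ℤ) +
        ((∑ k ∈ Finset.Ico j s, (m k + 1).choose 2 : ℕ) : ℤ) ≤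
        (DS d (tr m j) (d + 1)).card := by exact_mod_cast hP
    linarith

end Helper18.Cusp
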