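import Pool.Agent.Helper18.NodCurve
import Pool.Agent.Helper18.CuspShape

/-!
Nine points on the nodal cubic: dimensions.
-/

open Module

noncomputable section

namespace Helper18.Nod

open Helper18.Shgh
open Helper18.Cusp (Red chB Lev lev_red YB_pos)

/-- admissible parameters -/
def GoodZ (z : ℕ → ℂ) : Prop :=
  (∀ i < 9, z i ≠ 1 ∧ z i ≠ -1) ∧ ∀ i < 9, ∀ j < 9, z i ^ 2 = z j ^ 2 → i = j

/-- polynomials with multiplicities at the nine points -/
abbrev NS (z : ℕ → ℂ) (n : ℤ) (a : ℕ → ℕ) : Submodule ℂ R2 :=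
  SP n (Finset.range 9) (fun i => np (z i)) a

/-- the stage `b` of the filtration by powers of the cubic -/
abbrev NB (z : ℕ → ℂ) (n : ℤ) (a : ℕ → ℕ) (b : ℕ) : Submodule ℂ R2 :=
  NS z (n - 3 * b) (fun i => a i - b)

variable {z : ℕ → ℂ}

theorem z_inj (hz : GoodZ z) {i j : ℕ} (hi : i < 9) (hj : j < 9) (h : z i = z j) : i = j :=
  hz.2 i hi j hj (by rw [h])

/-- the polynomial with the prescribed zeros -/
def PN (z : ℕ → ℂ) (a : ℕ → ℕ) : Polynomial ℂ :=
  ∏ i ∈ Finset.range 9, (Polynomial.X - Polynomial.C (z i)) ^ a i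

theorem PN_monic (z : ℕ → ℂ) (a : ℕ → ℕ) : (PN z a).Monic :=
  Polynomial.monic_prod_of_monic _ _ fun _ _ => (Polynomial.monic_X_sub_C _).pow _

theorem natDegree_PN (z : ℕ → ℂ) (a : ℕ → ℕ) :
    (PN z a).natDegree = ∑ i ∈ Finset.range 9, a i := by
  rw [PN, Polynomial.natDegree_prod_of_monic _ _ fun _ _ => (Polynomial.monic_X_sub_C _).pow _]
  apply Finset.sum_congr rfl
  intro i _
  rw [Polynomial.natDegree_pow, Polynomial.natDegree_X_sub_C, mul_one]

theorem PN_eval_one (hz : GoodZ z) (a : ℕ → ℕ) : (PN z a).eval 1 ≠ 0 := by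
  rw [PN, Polynomial.eval_prod, Finset.prod_ne_zero_iff]
  intro i hi
  rw [Polynomial.eval_pow, Polynomial.eval_sub, Polynomial.eval_X, Polynomial.eval_C]
  exact pow_ne_zero _ (sub_ne_zero.2 (hz.1 i (Finset.mem_range.1 hi)).1.symm)

theorem PN_eval_neg (hz : GoodZ z) (a : ℕ → ℕ) : (PN z a).eval (-1) ≠ 0 := by
  rw [PN, Polynomial.eval_prod, Finset.prod_ne_zero_iff]
  intro i hi
  rw [Polynomial.eval_pow, Polynomial.eval_sub, Polynomial.eval_X, Polynomial.eval_C]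
  exact pow_ne_zero _ (sub_ne_zero.2 (hz.1 i (Finset.mem_range.1 hi)).2.symm)

theorem PN_dvd (hz : GoodZ z) {a : ℕ → ℕ} {f : Polynomial ℂ}
    (h : ∀ i ∈ Finset.range 9, (Polynomial.X - Polynomial.C (z i)) ^ a i ∣ f) : PN z a ∣ f := by
  apply Finset.prod_dvd_of_coprime _ h
  intro i hi j hj hij
  apply IsCoprime.pow
  apply Polynomial.isCoprime_X_sub_C_of_isUnit_sub
  exact (sub_ne_zero.2 fun h => hij (z_inj hz (by simpa using hi) (by simpa using hj) h)).isUnit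

/-- the possible restrictions to the cubic -/
def UN (z : ℕ → ℂ) (N : ℕ) (a : ℕ → ℕ) : Submodule ℂ (Polynomial ℂ) where
  carrier := {f | f ∈ Polynomial.degreeLT ℂ (N + 1) ∧ f.eval 1 = f.eval (-1) ∧
    ∀ i ∈ Finset.range 9, (Polynomial.X - Polynomial.C (z i)) ^ a i ∣ f}
  add_mem' := by
    rintro f g ⟨h1, h2, h3⟩ ⟨h4, h5, h6⟩
    refine ⟨Submodule.add_mem _ h1 h4, ?_, fun i hi => dvd_add (h3 i hi) (h6 i hi)⟩
    rw [Polynomial.eval_add, Polynomial.eval_add, h2, h5]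
  zero_mem' := ⟨Submodule.zero_mem _, by simp, fun i _ => dvd_zero _⟩
  smul_mem' := by
    rintro c f ⟨h1, h2, h3⟩
    refine ⟨Submodule.smul_mem _ c h1, ?_, fun i hi => ?_⟩
    · rw [Polynomial.eval_smul, Polynomial.eval_smul, h2]
    · rw [Polynomial.smul_eq_C_mul]
      exact Dvd.dvd.mul_left (h3 i hi) _

theorem mem_UN {N : ℕ} {a : ℕ → ℕ} {f : Polynomial ℂ} : f ∈ UN z N a ↔
    f ∈ Polynomial.degreeLT ℂ (N + 1) ∧ f.eval 1 = f.eval (-1) ∧
    ∀ i ∈ Finset.range 9, (Polynomial.X - Polynomial.C (z i)) ^ a i ∣ f := Iff.rfl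

instance (N : ℕ) (a : ℕ → ℕ) : FiniteDimensional ℂ (UN z N a) :=
  Submodule.finiteDimensional_of_le (fun _ h => h.1 : UN z N a ≤ Polynomial.degreeLT ℂ (N + 1))

/-- the gluing condition -/
def glue (P : Polynomial ℂ) : Polynomial ℂ →ₗ[ℂ] ℂ :=
  (Polynomial.leval 1 - Polynomial.leval (-1)) ∘ₗ LinearMap.mulLeft ℂ P

theorem glue_apply (P g : Polynomial ℂ) : glue P g = (P * g).eval 1 - (P * g).eval (-1) := rfl

theorem finrank_UN_le (hz : GoodZ z) {N : ℕ} {a : ℕ → ℕ}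
    (h : ∑ i ∈ Finset.range 9, a i < N) :
    finrank ℂ (UN z N a) + ∑ i ∈ Finset.range 9, a i ≤ N := by
  set κ := N - ∑ i ∈ Finset.range 9, a i with hκ
  let K : Submodule ℂ (Polynomial ℂ) := Polynomial.degreeLT ℂ (κ + 1) ⊓
    LinearMap.ker (glue (PN z a))
  have hmK : ∀ g, g ∈ K ↔ g ∈ Polynomial.degreeLT ℂ (κ + 1) ∧ glue (PN z a) g = 0 := fun g =>
    Submodule.mem_inf
  have h1 : UN z N a ≤ K.map (LinearMap.mulLeft ℂ (PN z a)) := by
    rintro f ⟨h2, h3, h4⟩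
    obtain ⟨g, hg⟩ := PN_dvd hz h4
    refine ⟨g, ?_, hg.symm⟩
    rw [SetLike.mem_coe, hmK]
    refine ⟨?_, by rw [glue_apply, ← hg, h3, sub_self]⟩
    rw [mem_degreeLT_iff]
    by_cases h0 : g = 0
    · exact Or.inl h0
    · right
      rw [mem_degreeLT_iff] at h2
      have hf0 : f ≠ 0 := by
        rw [hg]; exact mul_ne_zero (PN_monic z a).ne_zero h0
      have h5 := h2.resolve_left hf0
      rw [hg, (PN_monic z a).natDegree_mul' h0, natDegree_PN] at h5
      omega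
  have hKfd : FiniteDimensional ℂ K := Submodule.finiteDimensional_of_le
    (inf_le_left : K ≤ Polynomial.degreeLT ℂ (κ + 1))
  have h2 := (Submodule.finrank_mono h1).trans (Submodule.finrank_map_le _ _)
  have h3 : K < Polynomial.degreeLT ℂ (κ + 1) := by
    refine lt_of_le_of_ne inf_le_left ?_
    intro heq
    have h4 : (Polynomial.X + 1 : Polynomial ℂ) ∈ Polynomial.degreeLT ℂ (κ + 1) := by
      rw [mem_degreeLT_iff]
      right
      have : (Polynomial.X + 1 : Polynomial ℂ).natDegree ≤ 1 := by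
        have e : (Polynomial.X + 1 : Polynomial ℂ) = Polynomial.X + Polynomial.C 1 := by simp
        rw [e, Polynomial.natDegree_X_add_C]
      omega
    rw [← heq, hmK, glue_apply, Polynomial.eval_mul, Polynomial.eval_mul] at h4
    have h5 := h4.2
    simp only [Polynomial.eval_add, Polynomial.eval_X, Polynomial.eval_one, neg_add_cancel,
      mul_zero, sub_zero] at h5
    rcases mul_eq_zero.1 h5 with h6 | h6
    · exact PN_eval_one hz a h6
    · norm_num at h6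
  have h4 := Submodule.finrank_lt_finrank_of_lt h3
  rw [finrank_degreeLT] at h4
  omega

theorem cn_mul_mem_NS (hz : GoodZ z) {n : ℤ} {a : ℕ → ℕ} {G : R2} :
    cn * G ∈ NS z n a ↔ G ∈ NS z (n - 3) (fun i => a i - 1) := by
  rw [mem_SP, mem_SP, cn_mul_mem_V]
  refine and_congr_right fun _ => forall₂_congr fun i hi => ?_
  have hi9 := hz.1 i (Finset.mem_range.1 hi)
  constructor
  · intro h
    have h3 : cn ^ 1 * G ∈ mI (np (z i)) ^ a i := by rw [pow_one]; exact h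
    exact mem_of_pow_mul_mem (cn_notMem hi9.1 hi9.2) 1 h3
  · intro h
    have h2 : cn ∈ mI (np (z i)) ^ 1 := by rw [pow_one]; exact cn_mem _
    have h3 := mul_mem_mI_pow h2 h
    exact Ideal.pow_le_pow_right (by omega) h3

theorem rn_mem_UN {n : ℕ} {a : ℕ → ℕ} {G : R2} (h : G ∈ NS z (n : ℤ) a) :
    rn G ∈ UN z (3 * n) a := by
  refine ⟨?_, rn_glue G, fun i hi => rn_dvd (h.2 i hi)⟩
  rw [mem_degreeLT_iff]
  right
  have := natDegree_rn h.1
  omega

theorem NS_step (hz : GoodZ z) {n : ℕ} {a : ℕ → ℕ} (h : ∑ i ∈ Finset.range 9, a i < 3 * n) :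
    finrank ℂ (NS z (n : ℤ) a) + ∑ i ∈ Finset.range 9, a i ≤
      finrank ℂ (NS z ((n : ℤ) - 3) (fun i => a i - 1)) + 3 * n := by
  have h1 := finrank_le_of_map (NS z (n : ℤ) a) (NS z ((n : ℤ) - 3) (fun i => a i - 1))
    (UN z (3 * n) a) rn.toLinearMap (LinearMap.mulLeft ℂ cn)
    (fun x hx => rn_mem_UN hx)
    (by
      intro x hx h0
      obtain ⟨G, hG⟩ := exists_of_rn_eq_zero h0
      refine ⟨G, ?_, hG.symm⟩
      rw [← cn_mul_mem_NS hz, ← hG]; exact hx)
  have h2 := finrank_UN_le hz h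
  omega

theorem NB_step (hz : GoodZ z) {n : ℕ} {a : ℕ → ℕ} {k n' : ℕ} (hn : n' + 3 * k = n)
    (h : ∑ i ∈ Finset.range 9, (a i - k) < 3 * n') :
    finrank ℂ (NB z n a k) + ∑ i ∈ Finset.range 9, (a i - k) ≤
      finrank ℂ (NB z n a (k + 1)) + 3 * n' := by
  have h1 := NS_step hz (n := n') (a := fun i => a i - k) h
  have e1 : (n : ℤ) - 3 * k = n' := by omega
  have e2 : (n : ℤ) - 3 * ((k + 1 : ℕ) : ℤ) = (n' : ℤ) - 3 := by push_cast; omega
  have e3 : (fun i => a i - (k + 1)) = fun i => a i - k - 1 := by funext i; omega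
  rw [NB, NB, e1, e2, e3]
  exact h1

theorem NB_base (hz : GoodZ z) {n : ℕ} {a : ℕ → ℕ} (ha : ∀ i j, i ≤ j → j < 9 → a j ≤ a i)
    {K : ℕ} (hK : Lev n a K) : 2 * (finrank ℂ (NB z n a K) : ℤ) ≤ chB n a K := by
  obtain ⟨hK1, hK2⟩ := hK
  have hne : np (z 0) 0 ≠ np (z 1) 0 := by
    intro h
    have h1 : z 0 ^ 2 - 1 = z 1 ^ 2 - 1 := h
    have := hz.2 0 (by norm_num) 1 (by norm_num) (by linear_combination h1)
    omega
  have h1 := finrank_TP' hne ((n : ℤ) - 3 * K) (by omega)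
    (a 0 - K) (a 1 - K) (by omega)
  have h2 : finrank ℂ (NB z n a K) ≤
      finrank ℂ (TP ((n : ℤ) - 3 * K) (np (z 0)) (np (z 1)) (a 0 - K) (a 1 - K)) := by
    apply Submodule.finrank_mono
    intro G hG
    rw [mem_TP]
    exact ⟨hG.1, hG.2 0 (by simp), hG.2 1 (by simp)⟩
  have h3 : ∑ i ∈ Finset.range 9, ((a i - K : ℕ) : ℤ) * (((a i - K : ℕ) : ℤ) + 1) =
      ((a 0 - K : ℕ) : ℤ) * (((a 0 - K : ℕ) : ℤ) + 1) +
      ((a 1 - K : ℕ) : ℤ) * (((a 1 - K : ℕ) : ℤ) + 1) := by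
    have e : ∀ i, 2 ≤ i → i < 9 → a i - K = 0 := fun i hi hi9 => by
      have := ha 2 i hi hi9
      omega
    simp only [Finset.sum_range_succ, Finset.sum_range_zero]
    rw [e 2 (by norm_num) (by norm_num), e 3 (by norm_num) (by norm_num),
      e 4 (by norm_num) (by norm_num), e 5 (by norm_num) (by norm_num),
      e 6 (by norm_num) (by norm_num), e 7 (by norm_num) (by norm_num),
      e 8 (by norm_num) (by norm_num)]
    simp
  rw [chB, h3]
  have h4 : (finrank ℂ (NB z n a K) : ℤ) ≤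
      finrank ℂ (TP ((n : ℤ) - 3 * K) (np (z 0)) (np (z 1)) (a 0 - K) (a 1 - K)) := by
    exact_mod_cast h2
  linarith

theorem NB_upper (hz : GoodZ z) {n : ℕ} {a : ℕ → ℕ} (ha : ∀ i j, i ≤ j → j < 9 → a j ≤ a i)
    (hd : a 0 + a 1 + a 2 ≤ n) (hsum : ∑ i ∈ Finset.range 9, a i < 3 * n) {K : ℕ}
    (hK : Lev n a K) (t : ℕ) :
    ∀ k : ℕ, k + t = K → 2 * (finrank ℂ (NB z n a k) : ℤ) ≤ chB n a k := by
  induction t with
  | zero =>
    intro k hk
    have : k = K := by omega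
    subst this
    exact NB_base hz ha hK
  | succ t ih =>
    intro k hk
    have h1 := ih (k + 1) (by omega)
    obtain ⟨n', hn⟩ : ∃ n' : ℕ, n' + 3 * k = n := ⟨n - 3 * k, by have := hK.2; omega⟩
    have hpos := YB_pos ha hd hsum (k := k) (n' := n') hK (by omega) hn
    have h2 := NB_step hz hn hpos
    have h3 : ∑ i ∈ Finset.range 9, ((a i - k : ℕ) : ℤ) * (((a i - k : ℕ) : ℤ) + 1) =
        ∑ i ∈ Finset.range 9, ((a i - (k + 1) : ℕ) : ℤ) * (((a i - (k + 1) : ℕ) : ℤ) + 1) +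
        2 * ∑ i ∈ Finset.range 9, ((a i - k : ℕ) : ℤ) := by
      rw [Finset.mul_sum, ← Finset.sum_add_distrib]
      apply Finset.sum_congr rfl
      intro i _
      have := tri_key (a i - k)
      rw [Nat.sub_sub] at this
      exact_mod_cast this
    rw [chB, h3]
    rw [chB] at h1
    have h4 : (finrank ℂ (NB z n a k) : ℤ) + ∑ i ∈ Finset.range 9, ((a i - k : ℕ) : ℤ) ≤
        finrank ℂ (NB z n a (k + 1)) + 3 * n' := by
      exact_mod_cast h2
    have hn' : (n : ℤ) = n' + 3 * k := by exact_mod_cast hn.symm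
    push_cast at h1 ⊢
    rw [hn'] at h1 h4 ⊢
    ring_nf at h1 h4 ⊢
    linarith

/-- the lower bound -/
theorem NS_lower (z : ℕ → ℂ) (n : ℤ) (hn : -2 ≤ n) (a : ℕ → ℕ) :
    (n + 1) * (n + 2) - ∑ i ∈ Finset.range 9, (a i : ℤ) * ((a i : ℤ) + 1) ≤
      2 * (finrank ℂ (NS z n a) : ℤ) := by
  let K : ℕ → Submodule ℂ R2 := fun i =>
    Submodule.restrictScalars ℂ ((mI (np (z i)) ^ a i : Ideal R2))
  have h1 := finrank_le_inf_iInf (Finset.range 9) K (fun i => (a i + 1).choose 2) (by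
      intro i _ U hU
      have : FiniteDimensional ℂ (U ⊓ K i : Submodule ℂ R2) :=
        Submodule.finiteDimensional_of_le inf_le_left
      have h2 := finrank_le_add (U ⊓ K i) U (tayL (a i) (np (z i))) (by
          intro x hx h0
          refine Submodule.mem_inf.2 ⟨hx, ?_⟩
          exact mem_of_tayL h0)
      rw [finrank_fintype_fun_eq_card, card_Tri] at h2
      exact h2) (V n)
  have h2 : V n ⊓ ⨅ i ∈ Finset.range 9, K i ≤ NS z n a := by
    intro F hF
    obtain ⟨h3, h4⟩ := Submodule.mem_inf.1 hF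
    refine ⟨h3, fun i hi => ?_⟩
    rw [Submodule.mem_iInf] at h4
    have h5 := h4 i
    rw [Submodule.mem_iInf] at h5
    exact h5 hi
  have h3 := Submodule.finrank_mono h2
  have h4 := le_finrank_V n hn
  have h5 : (finrank ℂ (V n) : ℤ) ≤ finrank ℂ (NS z n a) +
      ∑ i ∈ Finset.range 9, ((a i + 1).choose 2 : ℤ) := by
    have : finrank ℂ (V n) ≤ finrank ℂ (NS z n a) +
      ∑ i ∈ Finset.range 9, (a i + 1).choose 2 := by omega
    exact_mod_cast this
  have h6 : 2 * ∑ i ∈ Finset.range 9, ((a i + 1).choose 2 : ℤ) =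
      ∑ i ∈ Finset.range 9, (a i : ℤ) * (a i + 1) := by
    rw [Finset.mul_sum]
    apply Finset.sum_congr rfl
    intro i _
    have h7 : (a i + 1).choose 2 * 2 = (a i + 1) * a i := by
      rw [Nat.choose_two_right, Nat.add_sub_cancel]
      exact Nat.div_mul_cancel (Nat.even_mul_pred_self (a i + 1)).two_dvd
    have h8 : (((a i + 1).choose 2 : ℕ) : ℤ) * 2 = (a i + 1) * a i := by exact_mod_cast h7
    linarith
  linarith

theorem NB_lower (z : ℕ → ℂ) (n : ℤ) (a : ℕ → ℕ) (k : ℕ) (hn : -2 ≤ n - 3 * k) :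
    chB n a k ≤ 2 * (finrank ℂ (NB z n a k) : ℤ) := by
  have h := NS_lower z (n - 3 * k) hn (fun i => a i - k)
  rw [chB]
  exact h

theorem NB_eq (hz : GoodZ z) {n : ℕ} {a : ℕ → ℕ} (hR : Red n a) {k : ℕ} (hk : k ≤ a 2) :
    2 * (finrank ℂ (NB z n a k) : ℤ) = chB n a k := by
  have hK := lev_red hR.ha hR.hd
  apply le_antisymm
  · exact NB_upper hz hR.ha hR.hd hR.hsum hK (a 2 - k) k (by omega)
  · exact NB_lower z n a k (by have := hK.2; omega)

end Helper18.Nod
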