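import Pool.Agent.Helper18.CuspToric

/-!
The main theorem, from the profile theorem.
-/

open Module

noncomputable section

namespace Helper18.Cusp

open Helper18.Shgh
open Pool.Agent.Lead.Sh (E Row InjAt IndAt Inj Ind rows mem_rows)

/-- the profile theorem with a wall -/
def ProfWall : Prop := ∀ (M W : ℕ) (H : ℕ → ℕ) (D : Finset (ℕ × ℕ)) (m : ℕ → ℕ)
  (S : Finset ℕ), 1 ≤ M → (∀ d, d ∈ D ↔ d.2 < W ∧ d.1 < H d.2) →
  (∀ y, y + 1 < W → H (y + 1) ≤ H y) → (∀ y, y + 1 < W → H y ≤ H (y + 1) + 2) →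
  50 * M ^ 3 ≤ H 0 → 3 * M ^ 2 ≤ H (W - 1) → 3 * M ^ 2 ≤ W → (∀ i ∈ S, m i ≤ M) → GoodFor D m S

/-- the profile theorem with a corner -/
def ProfCorner : Prop := ∀ (M W k : ℕ) (H : ℕ → ℕ) (D : Finset (ℕ × ℕ)) (m : ℕ → ℕ)
  (S : Finset ℕ), 1 ≤ M → 1 ≤ k → k ≤ 9 → (∀ d, d ∈ D ↔ d.2 < W ∧ d.1 < H d.2) →
  (∀ y, y + 1 < W → H (y + 1) ≤ H y) → (∀ y, y + 1 < W → H y ≤ H (y + 1) + 2) →
  50 * M ^ 3 ≤ H 0 → (∀ y < W, W ≤ y + k * (4 * M ^ 2) → H y = (W - y + k - 1) / k) →
  k * (4 * M ^ 2) ≤ W → (∀ i ∈ S, m i ≤ M) → GoodFor D m S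

/-- the conclusion -/
def Concl (s : ℕ) (m : ℕ → ℕ) (d : ℕ) : Prop :=
  ∃ G : MvPolynomial (Fin s × Fin 3) ℂ, G ≠ 0 ∧
      ∀ P : Fin s → Fin 3 → ℂ, (∀ i, P i ≠ 0) →
        MvPolynomial.eval (fun ij : Fin s × Fin 3 => P ij.1 ij.2) G ≠ 0 →
        (finrank ℂ (FS s m d P) : ℤ) =
          max (((d + 2).choose 2 : ℤ) - ∑ i : Fin s, ((m (i : ℕ) + 1).choose 2 : ℤ)) 0

theorem tr_lt {m : ℕ → ℕ} {j i : ℕ} (h : i < j) : tr m j i = m i := by rw [tr, if_pos h]
theorem tr_ge {m : ℕ → ℕ} {j i : ℕ} (h : j ≤ i) : tr m j i = 0 := by rw [tr, if_neg (by omega)]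

theorem main_j (hPW : ProfWall) (hPC : ProfCorner) {s : ℕ} {m : ℕ → ℕ} {d : ℕ}
    (hm : Antitone m) (hs : ∀ i, s ≤ i → m i = 0) (hd : m 0 + m 1 + m 2 ≤ d) {j M : ℕ}
    (hj : j ≤ 9) (hM : 1 ≤ M) (hjM : m j ≤ M) (h1 : 0 < j → 4 * M ^ 2 + 1 ≤ m (j - 1))
    (h2 : 100 * M ^ 3 ≤ d - m 0) (h3 : 150 * M ^ 3 ≤ d)
    (h4 : 24 * M ^ 2 + ∑ i ∈ Finset.range j, m i ≤ 3 * d) : Concl s m d := by
  have hM2 : M ^ 2 ≤ M ^ 3 := Nat.pow_le_pow_right hM (by norm_num)
  have hM1 : 1 ≤ M ^ 2 := Nat.one_le_pow _ _ hM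
  have hS : ∀ i ∈ Finset.Ico j s, m i ≤ M := by
    intro i hi
    rw [Finset.mem_Ico] at hi
    exact (hm hi.1).trans hjM
  rcases Nat.lt_or_ge j 3 with hj3 | hj3
  · -- toric cases
    apply toric_finish s m d j hm hs (by omega) (by omega)
    interval_cases j
    · -- no point
      rw [tr_ge le_rfl, tr_ge (by norm_num)]
      apply hPC M (d + 1) 1 (fun y => d + 1 - y) _ m _ hM le_rfl (by norm_num)
      · intro x
        rw [mem_DT2]
        omega
      · intro y hy
        omega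
      · intro y hy
        omega
      · omega
      · intro y hy _
        simp only [Nat.add_sub_cancel, Nat.div_one]
      · omega
      · exact hS
    · rw [tr_lt (by norm_num), tr_ge le_rfl]
      apply hPC M (d + 1) 1 (fun y => min (d + 1 - y) (d + 1 - m 0)) _ m _ hM le_rfl (by norm_num)
      · intro x
        rw [mem_DT2]
        omega
      · intro y hy
        omega
      · intro y hy
        omega
      · omega
      · intro y hy hy2
        simp only [Nat.add_sub_cancel, Nat.div_one]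
        omega
      · omega
      · exact hS
    · rw [tr_lt (by norm_num), tr_lt (by norm_num)]
      have h1'' : 4 * M ^ 2 + 1 ≤ m 1 := h1 (by norm_num)
      have h10 : m 1 ≤ m 0 := hm (by norm_num)
      have e : d - m 1 + 1 - 1 = d - m 1 := by omega
      apply hPW M (d - m 1 + 1) (fun y => min (d + 1 - y) (d + 1 - m 0)) _ m _ hM
      · intro x
        rw [mem_DT2]
        omega
      · intro y hy
        omega
      · intro y hy
        omega
      · omega
      · rw [e]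
        omega
      · omega
      · exact hS
  · -- the cubic
    have hsum : ∑ i ∈ Finset.range 9, tr m j i = ∑ i ∈ Finset.range j, m i := by
      rw [← Finset.sum_congr rfl (fun i hi => tr_lt (m := m) (Finset.mem_range.1 hi))]
      symm
      apply Finset.sum_subset
      · intro i hi
        rw [Finset.mem_range] at hi ⊢
        omega
      · intro i _ hi
        rw [Finset.mem_range] at hi
        exact tr_ge (by omega)
    have hR : Red d (tr m j) := by
      refine ⟨?_, ?_, ?_⟩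
      · intro a b hab _
        rw [tr, tr]
        split_ifs with h4 h5
        · exact hm hab
        · omega
        · exact Nat.zero_le _
        · exact le_rfl
      · rw [tr_lt (by omega), tr_lt (by omega), tr_lt (by omega)]
        exact hd
      · rw [hsum]
        omega
    apply cubic_finish s m d j hm hs hj hR
    apply GoodFor.swap
    have h1' := h1 (by omega)
    have h2j : m (j - 1) ≤ m 2 := hm (by omega)
    have hlev := lev_red hR.ha hR.hd
    have e2 : tr m j 2 = m 2 := tr_lt (by omega)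
    have e0 : tr m j 0 = m 0 := tr_lt (by omega)
    have hk : 24 * M ^ 2 ≤ kap d (tr m j) := by
      rw [kap, hsum]
      omega
    have hH0 : 50 * M ^ 3 ≤ HS d (tr m j) 0 := by
      have := lt_HS_zero hR (b := 50 * M ^ 3) (by rw [e0]; omega)
      omega
    have hD : ∀ x : ℕ × ℕ, x ∈ (DS d (tr m j) (d + 1)).image Prod.swap ↔
        x.2 < kap d (tr m j) ∧ x.1 < HS d (tr m j) x.2 := fun x => swap_DS hR (by omega) x
    rcases Nat.lt_or_ge j 9 with hj9 | hj9
    · apply hPC M (kap d (tr m j)) (9 - j) (HS d (tr m j)) _ m _ hM (by omega) (by omega) hD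
        (fun y _ => HS_anti d (tr m j) (Nat.le_succ y)) (fun y hy => HS_drop hR hy) hH0
      · intro y hy hy2
        have h5 : (9 - j) * (4 * M ^ 2) ≤ (9 - j) * (m (j - 1) - 1) :=
          Nat.mul_le_mul_left _ (by omega)
        have h6 := HS_corner hR hlev (A := m (j - 1)) (j := j) (x := y) (by rw [e2]; exact h2j)
          (by omega) (fun i hi => by rw [tr_lt hi]; exact hm (by omega))
          (fun i hi _ => tr_ge hi) hy.le (by omega) (by omega)
        rw [h6]
        congr 1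
        omega
      · have : (9 - j) * (4 * M ^ 2) ≤ 6 * (4 * M ^ 2) := Nat.mul_le_mul_right _ (by omega)
        omega
      · exact hS
    · have hj9' : j = 9 := by omega
      subst hj9'
      have h5 := HS_wall hR (x := kap d (tr m 9) - 1) (by omega)
      rw [tr_lt (by norm_num)] at h5
      have h6 : 4 * M ^ 2 + 1 ≤ m 8 := h1'
      apply hPW M (kap d (tr m 9)) (HS d (tr m 9)) _ m _ hM hD
        (fun y _ => HS_anti d (tr m 9) (Nat.le_succ y)) (fun y hy => HS_drop hR hy) hH0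
        (by omega) (by omega)
      exact hS

/-- the thresholds -/
def BB (M i : ℕ) : ℕ := (5 * (M + 1)) ^ (2 ^ (i + 1) - 1)

theorem BB_succ (M i : ℕ) : 4 * BB M i ^ 2 + 1 ≤ BB M (i + 1) := by
  have h1 : BB M (i + 1) = (5 * (M + 1)) * BB M i ^ 2 := by
    rw [BB, BB, ← pow_mul, ← pow_succ']
    congr 1
    have : 1 ≤ 2 ^ (i + 1) := Nat.one_le_two_pow
    rw [pow_succ 2 (i + 1)]
    omega
  have h2 : 1 ≤ BB M i := Nat.one_le_pow _ _ (by omega)
  rw [h1]
  nlinarith [Nat.one_le_pow 2 _ h2]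

theorem BB_zero (M : ℕ) : BB M 0 = 5 * (M + 1) := by
  rw [BB]; norm_num

theorem exists_gap {M : ℕ} {m : ℕ → ℕ} (h9 : m 9 ≤ M) :
    ∃ j ≤ 9, m j ≤ BB M (9 - j) ∧ (0 < j → 4 * BB M (9 - j) ^ 2 + 1 ≤ m (j - 1)) := by
  have key : ∀ t ≤ 9, (∃ j ≤ 9, m j ≤ BB M (9 - j) ∧
      (0 < j → 4 * BB M (9 - j) ^ 2 + 1 ≤ m (j - 1))) ∨ m (9 - t) ≤ BB M t := by
    intro t
    induction t with
    | zero =>
      intro _
      right
      rw [BB_zero]
      exact h9.trans (by omega)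
    | succ t ih =>
      intro ht
      rcases ih (by omega) with h1 | h1
      · exact Or.inl h1
      · by_cases h2 : 4 * BB M t ^ 2 + 1 ≤ m (9 - (t + 1))
        · left
          refine ⟨9 - t, by omega, ?_, fun _ => ?_⟩
          · rw [show 9 - (9 - t) = t by omega]
            exact h1
          · rw [show 9 - (9 - t) = t by omega, show 9 - t - 1 = 9 - (t + 1) by omega]
            exact h2
        · right
          have := BB_succ M t
          omega
  rcases key 9 le_rfl with h1 | h1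
  · exact h1
  · exact ⟨0, by norm_num, h1, fun h => absurd h (lt_irrefl 0)⟩

theorem BB_mono (M : ℕ) {i j : ℕ} (h : i ≤ j) : BB M i ≤ BB M j := by
  rw [BB, BB]
  apply Nat.pow_le_pow_right (by omega)
  have := Nat.pow_le_pow_right (show 0 < 2 by norm_num) (show i + 1 ≤ j + 1 by omega)
  omega

theorem main_gap (hPW : ProfWall) (hPC : ProfCorner) {s : ℕ} {m : ℕ → ℕ} {d : ℕ}
    (hm : Antitone m) (hs : ∀ i, s ≤ i → m i = 0) (hd : m 0 + m 1 + m 2 ≤ d) {M : ℕ}
    (h9 : m 9 ≤ M) (h2 : (5 * (M + 1)) ^ 3073 ≤ d - m 0)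
    (h3 : (5 * (M + 1)) ^ 3073 + ∑ i ∈ Finset.range 9, m i ≤ 3 * d) : Concl s m d := by
  obtain ⟨j, hj, hj1, hj2⟩ := exists_gap h9
  have h5 : BB M (9 - j) ≤ BB M 9 := BB_mono M (by omega)
  have h6 : 1 ≤ BB M (9 - j) := Nat.one_le_pow _ _ (by omega)
  have h7 : 150 * BB M (9 - j) ^ 3 ≤ (5 * (M + 1)) ^ 3073 := by
    have e1 : (5 * (M + 1)) ^ 3073 = (5 * (M + 1)) ^ 4 * BB M 9 ^ 3 := by
      rw [BB, ← pow_mul, ← pow_add, show 4 + (2 ^ (9 + 1) - 1) * 3 = 3073 by norm_num]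
    rw [e1]
    apply Nat.mul_le_mul
    · calc 150 ≤ 5 ^ 4 := by norm_num
        _ ≤ (5 * (M + 1)) ^ 4 := Nat.pow_le_pow_left (by omega) 4
    · exact Nat.pow_le_pow_left h5 3
  have hM2 : BB M (9 - j) ^ 2 ≤ BB M (9 - j) ^ 3 := Nat.pow_le_pow_right h6 (by norm_num)
  set N := (5 * (M + 1)) ^ 3073
  apply main_j hPW hPC hm hs hd hj h6 hj1 hj2
  · omega
  · omega
  · have h7 : ∑ i ∈ Finset.range j, m i ≤ ∑ i ∈ Finset.range 9, m i := by
      apply Finset.sum_le_sum_of_subset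
      intro i hi
      rw [Finset.mem_range] at hi ⊢
      omega
    omega

end Helper18.Cusp
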