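import Mathlib
import Pool.Agent.Helper43.Ah.Block

/-!
The last block of a strip: `Pool.Agent.Helper43.Ah.block` with a weaker convexity hypothesis.
-/

set_option autoImplicit false

namespace Helper18.Cusp

open Finset Pool.Agent.Helper43.Ah

theorem block' (n : ℤ) (ρ : ℕ → ℤ) (μ : ℕ) (hμ : 1 ≤ μ) (hn : 0 ≤ n) (h0 : ρ μ = 0)
    (htot : 2 * ∑ t ∈ range μ, ρ t = n * μ * (μ + 1))
    (hHB : ∀ s : ℕ, s < μ → (μ : ℤ) * (s * (s + 1) * (s + 2)) ≤
      s * (s + 3) * ρ s - s * (s + 1) * ρ (s + 1) - n * (s * (s + 1)) - 2 * Gc n ρ s)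
    (h1 : ρ 1 ≤ ρ 0 + n) :
    ∃ X z : ℕ → ℤ, (∀ j < μ, 0 ≤ z j ∧ z j ≤ X j) ∧ z (μ - 1) = 0 ∧ ∑ j ∈ range μ, X j = n ∧
      ∀ j < μ, ∑ i ∈ range μ, X i * (if j < i then (j : ℤ) + 1 else (μ : ℤ) - j + i) - z j +
        (if j = 0 then 0 else z (j - 1)) = ρ (μ - 1 - j) := by
  have hG := Gc_total n ρ htot
  set Y := Ya n ρ μ with hY
  set z : ℕ → ℤ := fun j => if j + 1 < μ then Zc n ρ (μ - 1 - j) else 0 with hz
  have hY0 : Y 0 = n := by simp [hY, Ya]
  have hYμ : Y μ = 0 := by
    simp only [hY, Ya]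
    rw [if_neg (by omega), if_neg (by omega)]
  refine ⟨fun j => Y j - Y (j + 1), z, ?_, ?_, ?_, ?_⟩
  · intro j hj
    by_cases hj1 : j + 1 < μ
    · have hzj : z j = Zc n ρ (μ - 1 - j) := by simp only [hz]; rw [if_pos hj1]
      obtain ⟨s, hs⟩ : ∃ s, μ - 1 - j = s + 1 := ⟨μ - 1 - j - 1, by omega⟩
      rw [hzj]
      refine ⟨Zc_nonneg n ρ (by omega), ?_⟩
      have e1 : Y (j + 1) = Tc n ρ (μ - 1 - j) - Tc n ρ (μ - 1 - j + 1) := by
        simp only [hY, Ya]
        rw [if_neg (by omega), if_pos hj1, show μ - (j + 1) = μ - 1 - j by omega]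
      rcases Nat.eq_zero_or_pos j with hj0 | hj0
      · -- first row
        subst hj0
        simp only [zero_add] at e1 ⊢
        rw [hY0, e1, Nat.sub_zero, show μ - 1 + 1 = μ by omega]
        have hTμ : Tc n ρ μ = 0 := by simp [Tc, hG]
        rw [hTμ, sub_zero]
        have hH := hHB (μ - 1) (by omega)
        have hTZ := TZ n ρ (μ - 1)
        have hZ1 := Zc_nonneg n ρ (show 1 ≤ μ - 1 by omega)
        have hZ2 := Zc_le n ρ (show 1 ≤ μ - 1 by omega)
        have hGs := Gc_succ n ρ (μ - 1)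
        rw [show μ - 1 + 1 = μ by omega, hG] at hGs
        rw [show μ - 1 + 1 = μ by omega, h0] at hH
        obtain ⟨v, hv⟩ : ∃ v, μ = v + 2 := ⟨μ - 2, by omega⟩
        subst hv
        rw [show v + 2 - 1 = v + 1 by omega] at *
        push_cast at *
        set a := ρ (v + 1)
        set G1 := Gc n ρ (v + 1)
        set Z1 := Zc n ρ (v + 1)
        set T1 := Tc n ρ (v + 1)
        -- G1 = n (v+2) - a
        have hG1 : G1 = n * (v + 2) - a := by linarith
        rw [hG1] at hH hTZ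
        have hv0 : (0 : ℤ) ≤ v := by positivity
        -- from hH : a - n ≥ (v+2)(v+1)
        have h5 : ((v : ℤ) + 2) * (v + 3) * (a - n) ≥ ((v : ℤ) + 2) * (v + 3) * ((v + 2) * (v + 1)) := by
          nlinarith
        have h6 : a - n ≥ ((v : ℤ) + 2) * (v + 1) := by
          by_contra hcon
          push Not at hcon
          have : ((v : ℤ) + 2) * (v + 3) * (a - n) < ((v : ℤ) + 2) * (v + 3) * ((v + 2) * (v + 1)) :=
            mul_lt_mul_of_pos_left hcon (by positivity)
          linarith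
        -- (v+1)(n - T1 - Z1) = a - n - v Z1
        by_contra hcon
        push Not at hcon
        have h7 : n - T1 - Z1 ≤ -1 := by linarith
        have h8 : ((v : ℤ) + 1) * (n - T1 - Z1) ≤ -(v + 1) := by nlinarith
        have h9 : (v : ℤ) * Z1 ≤ v * v := by
          have : Z1 ≤ v := by linarith
          nlinarith
        nlinarith
      · -- general row
        have e2 : Y j = Tc n ρ (μ - 1 - j + 1) - Tc n ρ (μ - 1 - j + 2) := by
          simp only [hY, Ya]
          rw [if_neg (by omega), if_pos (by omega), show μ - j = μ - 1 - j + 1 by omega]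
        show _ ≤ Y j - Y (j + 1)
        rw [e1, e2, hs]
        have hH := hHB (s + 1) (by omega)
        have t0 := TZ n ρ (s + 1)
        have t1 := TZ n ρ (s + 1 + 1)
        have t2 := TZ n ρ (s + 1 + 2)
        have z0 := Zc_nonneg n ρ (show 1 ≤ s + 1 by omega)
        have z0' := Zc_le n ρ (show 1 ≤ s + 1 by omega)
        have z1' := Zc_le n ρ (show 1 ≤ s + 1 + 1 by omega)
        have z2 := Zc_nonneg n ρ (show 1 ≤ s + 1 + 2 by omega)
        have g1 := Gc_succ n ρ (s + 1)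
        have g2 := Gc_succ n ρ (s + 1 + 1)
        have hsμ : (s : ℤ) + 2 ≤ μ := by
          have : s + 2 ≤ μ := by omega
          exact_mod_cast this
        rw [show s + 1 + 1 + 1 = s + 1 + 2 by omega] at g2
        push_cast at *
        set Z0 := Zc n ρ (s + 1)
        set Z1 := Zc n ρ (s + 1 + 1)
        set Z2 := Zc n ρ (s + 1 + 2)
        set T0 := Tc n ρ (s + 1)
        set T1 := Tc n ρ (s + 1 + 1)
        set T2 := Tc n ρ (s + 1 + 2)
        set G0 := Gc n ρ (s + 1)
        set G1 := Gc n ρ (s + 1 + 1)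
        set G2 := Gc n ρ (s + 1 + 2)
        set r1 := ρ (s + 1)
        set r2 := ρ (s + 1 + 1)
        have hs0 : (0 : ℤ) ≤ s := by positivity
        -- key identity
        have key : ((s : ℤ) + 1) * (s + 2) * (s + 3) * (T1 - T2 - (T0 - T1)) =
            (((s : ℤ) + 1) * (s + 4) * r1 - (s + 1) * (s + 2) * r2 - n * ((s + 1) * (s + 2)) -
              2 * G0) - 2 * (s + 1) * (s + 3) * Z1 + (s + 1) * (s + 2) * Z2 +
              (s + 2) * (s + 3) * Z0 := by
          have k0 : ((s : ℤ) + 1) * T0 = G0 - Z0 := t0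
          have k1 : ((s : ℤ) + 1 + 1) * T1 = G1 - Z1 := t1
          have k2 : ((s : ℤ) + 1 + 2) * T2 = G2 - Z2 := t2
          have e : ((s : ℤ) + 1) * (s + 2) * (s + 3) * (T1 - T2 - (T0 - T1)) =
            2 * ((s : ℤ) + 1) * (s + 3) * (((s : ℤ) + 1 + 1) * T1) -
              (s + 1) * (s + 2) * (((s : ℤ) + 1 + 2) * T2) -
              (s + 2) * (s + 3) * (((s : ℤ) + 1) * T0) := by ring
          rw [e, k0, k1, k2, g2, g1]
          ring
        have hH2 : (μ : ℤ) * (((s : ℤ) + 1) * (s + 2) * (s + 3)) ≤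
            ((s : ℤ) + 1) * (s + 4) * r1 - (s + 1) * (s + 2) * r2 - n * ((s + 1) * (s + 2)) -
              2 * G0 := by
          have e1 : (μ : ℤ) * (((s : ℤ) + 1) * (s + 2) * (s + 3)) =
            (μ : ℤ) * (((s : ℤ) + 1) * (s + 1 + 1) * (s + 1 + 2)) := by ring
          rw [e1]
          refine le_trans hH (le_of_eq (by ring))
        have p1 : ((s : ℤ) + 2) * (((s : ℤ) + 1) * (s + 2) * (s + 3)) ≤
            (μ : ℤ) * (((s : ℤ) + 1) * (s + 2) * (s + 3)) := by
          apply mul_le_mul_of_nonneg_right hsμ; positivity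
        have p2 : 2 * ((s : ℤ) + 1) * (s + 3) * Z1 ≤ 2 * ((s : ℤ) + 1) * (s + 3) * (s + 1) := by
          apply mul_le_mul_of_nonneg_left _ (by positivity)
          linarith
        have p3 : (0 : ℤ) ≤ ((s : ℤ) + 1) * (s + 2) * Z2 := by positivity
        have p4 : (s : ℤ) * ((s + 2) * (s + 3)) * Z0 ≤ (s : ℤ) * ((s + 2) * (s + 3)) * s := by
          apply mul_le_mul_of_nonneg_left _ (by positivity)
          linarith
        have p5 : ((s : ℤ) + 1) * (s + 2) * (s + 3) * Z0 ≤
            ((s : ℤ) + 1) * (s + 2) * (s + 3) * (T1 - T2 - (T0 - T1)) := by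
          rw [key]
          have p6 : 2 * ((s : ℤ) + 1) * (s + 3) * (s + 1) + (s : ℤ) * ((s + 2) * (s + 3)) * s ≤
              ((s : ℤ) + 2) * (((s : ℤ) + 1) * (s + 2) * (s + 3)) := by
            have : (0 : ℤ) ≤ ((s : ℤ) + 3) * ((s : ℤ) * s + 4 * s + 2) := by positivity
            linarith [this]
          linarith
        exact le_of_mul_le_mul_left p5 (by positivity)
    · have hzj : z j = 0 := by simp only [hz]; rw [if_neg hj1]
      rw [hzj]
      refine ⟨le_rfl, ?_⟩
      have hj2 : j + 1 = μ := by omega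
      show _ ≤ Y j - Y (j + 1)
      rw [hj2, hYμ, sub_zero]
      rcases Nat.eq_zero_or_pos j with hj0 | hj0
      · rw [hj0, hY0]; exact hn
      · have e2 : Y j = Tc n ρ 1 - Tc n ρ 2 := by
          simp only [hY, Ya]
          rw [if_neg (by omega), if_pos (by omega), show μ - j = 1 by omega]
        rw [e2]
        have t1 := TZ n ρ 1
        have t2 := TZ n ρ 2
        have z1 := Zc_le n ρ (show 1 ≤ 1 by omega)
        have z1' := Zc_nonneg n ρ (show 1 ≤ 1 by omega)
        have z2 := Zc_nonneg n ρ (show 1 ≤ 2 by omega)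
        have g0 : Gc n ρ 0 = 0 := by simp [Gc]
        have g1 := Gc_succ n ρ 0
        have g2 := Gc_succ n ρ 1
        rw [g0] at g1
        push_cast at *
        simp only [zero_add] at g1
        linarith
  · simp only [hz]
    rw [if_neg (by omega)]
  · rw [range_eq_Ico]
    have := tele Y 0 μ
    rw [zero_add] at this
    rw [this, hY0, hYμ, sub_zero]
  · intro j hj
    have hsplit : ∑ i ∈ range μ, (Y i - Y (i + 1)) * (if j < i then (j : ℤ) + 1 else
        (μ : ℤ) - j + i) = ∑ i ∈ range (j + 1), (Y i - Y (i + 1)) * (((μ : ℤ) - j) + i) +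
          ((j : ℤ) + 1) * ∑ i ∈ Ico (j + 1) (j + 1 + (μ - 1 - j)), (Y i - Y (i + 1)) := by
      rw [show j + 1 + (μ - 1 - j) = μ by omega, mul_sum, range_eq_Ico, range_eq_Ico,
        ← sum_Ico_consecutive _ (show 0 ≤ j + 1 by omega) (show j + 1 ≤ μ by omega)]
      congr 1
      · apply sum_congr rfl
        intro i hi
        rw [mem_Ico] at hi
        rw [if_neg (by omega)]
      · apply sum_congr rfl
        intro i hi
        rw [mem_Ico] at hi
        rw [if_pos (by omega)]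
        ring
    rw [hsplit, abel, tele, show j + 1 + (μ - 1 - j) = μ by omega, hYμ, hY0,
      Ya_sum n ρ hG j hj]
    have tj := TZ n ρ (μ - j)
    -- value of z (j-1)
    have hzprev : (if j = 0 then 0 else z (j - 1)) = Zc n ρ (μ - j) := by
      rcases Nat.eq_zero_or_pos j with hj0 | hj0
      · subst hj0
        simp [Zc, hG]
      · rw [if_neg (by omega)]
        simp only [hz]
        rw [if_pos (by omega), show μ - 1 - (j - 1) = μ - j by omega]
    rw [hzprev]
    have hGs := Gc_succ n ρ (μ - 1 - j)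
    rw [show μ - 1 - j + 1 = μ - j by omega] at hGs
    have hcast : ((μ - j : ℕ) : ℤ) = (μ : ℤ) - j := by omega
    have hcast2 : ((μ - 1 - j : ℕ) : ℤ) = (μ : ℤ) - 1 - j := by omega
    rw [hcast] at tj
    rw [hcast2] at hGs
    by_cases hj1 : j + 1 < μ
    · have tj1 := TZ n ρ (μ - 1 - j)
      rw [hcast2] at tj1
      have hzj : z j = Zc n ρ (μ - 1 - j) := by simp only [hz]; rw [if_pos hj1]
      have e1 : Y (j + 1) = Tc n ρ (μ - 1 - j) - Tc n ρ (μ - j) := by
        simp only [hY, Ya]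
        rw [if_neg (by omega), if_pos hj1, show μ - (j + 1) = μ - 1 - j by omega,
          show μ - 1 - j + 1 = μ - j by omega]
      rw [hzj, e1]
      linear_combination tj - tj1 + hGs
    · have hzj : z j = 0 := by simp only [hz]; rw [if_neg hj1]
      have hj2 : j + 1 = μ := by omega
      rw [hzj, hj2, hYμ]
      have hg0 : Gc n ρ (μ - 1 - j) = 0 := by
        rw [show μ - 1 - j = 0 by omega]; simp [Gc]
      rw [hg0] at hGs
      have hj3 : (j : ℤ) = μ - 1 := by omega
      rw [hj3] at tj hGs ⊢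
      linear_combination tj + hGs



/-- the sum of the weighted second differences -/
lemma H_sum (n : ℤ) (ρ : ℕ → ℤ) (s : ℕ) :
    s * (s + 3) * ρ s - s * (s + 1) * ρ (s + 1) - n * (s * (s + 1)) - 2 * Gc n ρ s =
      ∑ u ∈ range s, ((u : ℤ) + 1) * (u + 2) * (2 * ρ (u + 1) - ρ (u + 2) - ρ u) := by
  induction s with
  | zero => simp [Gc]
  | succ s ih =>
    rw [sum_range_succ, ← ih, Gc_succ]
    push_cast
    ring

lemma sum_u (s : ℕ) : 3 * ∑ u ∈ range s, ((u : ℤ) + 1) * (u + 2) = s * (s + 1) * (s + 2) := by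
  induction s with
  | zero => simp
  | succ s ih => rw [sum_range_succ, mul_add, ih]; push_cast; ring

lemma H_bound' (n : ℤ) (ρ : ℕ → ℤ) (μ : ℕ) (X E : ℤ) (hX : 0 ≤ X) (hE : 0 ≤ E)
    (h1 : 1 < μ → X - E ≤ 2 * ρ 1 - ρ 2 - ρ 0)
    (hu : ∀ u, 1 ≤ u → u < μ → - E ≤ 2 * ρ u - ρ (u + 1) - ρ (u - 1))
    (hXE : (E + 3 * μ) * (μ * μ * μ) ≤ 6 * X) (s : ℕ) (hs : s < μ) :
    (μ : ℤ) * (s * (s + 1) * (s + 2)) ≤
      s * (s + 3) * ρ s - s * (s + 1) * ρ (s + 1) - n * (s * (s + 1)) - 2 * Gc n ρ s := by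
  rw [H_sum]
  rcases Nat.eq_zero_or_pos s with h0 | h0
  · subst h0; simp
  · obtain ⟨p, rfl⟩ : ∃ p, s = p + 1 := ⟨s - 1, by omega⟩
    have e1 : ∑ u ∈ range (p + 1), ((u : ℤ) + 1) * (u + 2) * (2 * ρ (u + 1) - ρ (u + 2) - ρ u) ≥
        2 * X - E * ∑ u ∈ range (p + 1), ((u : ℤ) + 1) * (u + 2) := by
      have e2 : 2 * X - E * ∑ u ∈ range (p + 1), ((u : ℤ) + 1) * (u + 2) =
          ∑ u ∈ range (p + 1), ((if u = 0 then 2 * X else 0) - E * (((u : ℤ) + 1) * (u + 2))) := by
        rw [sum_sub_distrib, ← mul_sum]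
        congr 1
        rw [sum_ite_eq' (range (p + 1)) 0 (fun _ => 2 * X), if_pos (mem_range.2 (by omega))]
      rw [e2, ge_iff_le]
      apply sum_le_sum
      intro u hu'
      rw [mem_range] at hu'
      split_ifs with h2
      · subst h2
        have := h1 (by omega)
        simp only [Nat.cast_zero, zero_add]
        linarith
      · have := hu (u + 1) (by omega) (by omega)
        rw [Nat.add_sub_cancel, show u + 1 + 1 = u + 2 by omega] at this
        have h3 : (0 : ℤ) ≤ ((u : ℤ) + 1) * (u + 2) := by positivity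
        nlinarith
    have e3 := sum_u (p + 1)
    set S := ∑ u ∈ range (p + 1), ((u : ℤ) + 1) * (u + 2) with hS
    set P : ℤ := ((p + 1 : ℕ) : ℤ) * (((p + 1 : ℕ) : ℤ) + 1) * (((p + 1 : ℕ) : ℤ) + 2) with hP
    have hPμ : P ≤ μ * μ * μ := by
      have hp : ((p + 1 : ℕ) : ℤ) + 1 ≤ μ := by exact_mod_cast hs
      have h4 : P ≤ ((μ : ℤ) - 1) * μ * (μ + 1) := by
        rw [hP]
        have h5 : (0 : ℤ) ≤ ((p + 1 : ℕ) : ℤ) := by positivity
        have h6 : ((p + 1 : ℕ) : ℤ) * (((p + 1 : ℕ) : ℤ) + 1) ≤ ((μ : ℤ) - 1) * μ :=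
          mul_le_mul (by linarith) hp (by positivity) (by linarith)
        exact mul_le_mul h6 (by linarith) (by positivity) (by
          apply mul_nonneg <;> linarith)
      have h7 : ((μ : ℤ) - 1) * μ * (μ + 1) ≤ μ * μ * μ := by
        have : (0 : ℤ) ≤ μ := by positivity
        nlinarith
      linarith
    have hP0 : 0 ≤ P := by rw [hP]; positivity
    have h8 : (E + 3 * μ) * P ≤ (E + 3 * μ) * (μ * μ * μ) :=
      mul_le_mul_of_nonneg_left hPμ (by positivity)
    nlinarith

end Helper18.Cusp
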