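import Mathlib
import Pool.Agent.Helper43.Ah.Core

/-!
Exact filling of the rows of a (possibly thin) strip by points of one multiplicity: the process.
The rows may change by at most `δ` from one row to the next.
(The process is the one of `Pool.Agent.Helper43.Ah.Proc`, with the parameter `δ`.)
-/

set_option autoImplicit false
set_option linter.unusedSectionVars false

namespace Helper18.Cusp

open Finset Pool.Agent.Lead.Sh Pool.Agent.Helper43.Ah

/-- the state of the process before the stage `J` -/
structure SS (m R δ : ℕ) (ν b : ℕ → ℕ) (J T : ℕ) (st zc : ℕ → ℕ) : Prop where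
  st_lt : ∀ c < T, st c < J
  zc_lt : ∀ c < T, zc c < ν c
  fits : ∀ c < T, st c + ν c < R
  done : ∀ j < J, ∑ c ∈ range T, pat R (ν c) (st c) (zc c) j = b j
  drop : ∀ i, J ≤ i → ∑ c ∈ range T, (if i ≤ st c + zc c then 1 else 0) ≤ (m - 1) - (i - J)
  nom : ∀ j, j + 1 = J → ∑ c ∈ range T, (ν c - (j - st c)) ≤ b j + (m - 1)
  cnt : ∀ j < J, b j ≤ m * (m * ((range T).filter (fun c => st c = j)).card) + (2 * m * m + m * δ)

section step

variable {m R δ : ℕ} {ν b : ℕ → ℕ} {J T : ℕ} {st zc : ℕ → ℕ}

lemma SS.sum_after (h : SS m R δ ν b J T st zc) {i : ℕ} (hi : J ≤ i) :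
    ∑ c ∈ range T, pat R (ν c) (st c) (zc c) i = ∑ c ∈ range T, (ν c - (i - st c)) +
      ∑ c ∈ range T, (if i ≤ st c + zc c then 1 else 0) := by
  rw [← sum_add_distrib]
  apply sum_congr rfl
  intro c hc
  rw [mem_range] at hc
  have := h.st_lt c hc
  exact pat_after (by omega) (h.zc_lt c hc)

/-- the contributions to the later rows are small -/
lemma SS.bound (h : SS m R δ ν b J T st zc) (hm : 1 ≤ m) (hνm : ∀ c, ν c ≤ m) {j i : ℕ}
    (hj : j + 1 = J) (hi : J ≤ i) :
    m * ∑ c ∈ range T, pat R (ν c) (st c) (zc c) i ≤ (m - 1) * (b j + (m - 1)) + m * (m - 1) := by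
  rw [h.sum_after hi, mul_add]
  apply add_le_add
  · have h1 := h.nom j hj
    refine le_trans ?_ (Nat.mul_le_mul_left (m - 1) h1)
    rw [mul_sum, mul_sum]
    apply sum_le_sum
    intro c hc
    rw [mem_range] at hc
    have h2 := h.st_lt c hc
    have h3 := hνm c
    obtain ⟨p, rfl⟩ : ∃ p, m = p + 1 := ⟨m - 1, by omega⟩
    rw [Nat.add_sub_cancel]
    rcases Nat.eq_zero_or_pos (ν c - (j - st c)) with h4 | h4
    · rw [show ν c - (i - st c) = 0 by omega]; simp
    · obtain ⟨a, ha⟩ : ∃ a, ν c - (j - st c) = a + 1 := ⟨ν c - (j - st c) - 1, by omega⟩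
      have h5 : ν c - (i - st c) ≤ a := by omega
      have h6 : a ≤ p := by omega
      rw [ha]
      calc (p + 1) * (ν c - (i - st c)) ≤ (p + 1) * a := Nat.mul_le_mul_left _ h5
        _ ≤ p * (a + 1) := by nlinarith
  · apply Nat.mul_le_mul_left
    exact le_trans (h.drop i hi) (Nat.sub_le _ _)

lemma SS.small (h : SS m R δ ν b J T st zc) (hm : 1 ≤ m) (hνm : ∀ c, ν c ≤ m)
    (hb : 2 * m * m + m * δ ≤ b J) (hb1 : ∀ j, j + 1 = J → b j ≤ b J + δ) :
    m * ∑ c ∈ range T, pat R (ν c) (st c) (zc c) J + b J ≤ m * b J + (2 * m * m + m * δ) := by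
  rcases Nat.eq_zero_or_pos J with h0 | h0
  · subst h0
    have hT : T = 0 := by
      by_contra hne
      have := h.st_lt 0 (by omega)
      omega
    subst hT
    simp only [range_zero, sum_empty, mul_zero, zero_add]
    nlinarith
  · obtain ⟨j, rfl⟩ : ∃ j, J = j + 1 := ⟨J - 1, by omega⟩
    have h1 := h.bound hm hνm rfl le_rfl
    have h2 := hb1 j rfl
    obtain ⟨p, rfl⟩ : ∃ p, m = p + 1 := ⟨m - 1, by omega⟩
    rw [Nat.add_sub_cancel] at h1
    nlinarith

lemma SS.zero (m R δ : ℕ) (ν b st zc : ℕ → ℕ) : SS m R δ ν b 0 0 st zc where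
  st_lt := by intro c hc; omega
  zc_lt := by intro c hc; omega
  fits := by intro c hc; omega
  done := by intro c hc; omega
  drop := by intro i _; simp
  nom := by intro j hj; omega
  cnt := by intro c hc; omega

theorem SS.step (h : SS m R δ ν b J T st zc) (hm : 1 ≤ m) (hν1 : ∀ c, 1 ≤ ν c)
    (hνm : ∀ c, ν c ≤ m) (hfit : ∀ c, T ≤ c → J + ν c < R)
    (hb : 2 * m * m + m * δ ≤ b J) (hb1 : ∀ j, j + 1 = J → b j ≤ b J + δ) :
    ∃ T' st' zc', T ≤ T' ∧ (∀ c < T, st' c = st c) ∧ (∀ c, T ≤ c → st' c = J) ∧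
      SS m R δ ν b (J + 1) T' st' zc' := by
  classical
  have hsm := h.small hm hνm hb hb1
  set K := ∑ c ∈ range T, pat R (ν c) (st c) (zc c) J with hK
  have hKb : K ≤ b J := by
    have : m * K ≤ m * b J := by omega
    exact Nat.le_of_mul_le_mul_left this (by omega)
  set r := b J - K with hr
  have hex : ∃ n, r ≤ ∑ c ∈ Ico T (T + n), ν c := by
    refine ⟨r, ?_⟩
    calc r = ∑ c ∈ Ico T (T + r), 1 := by simp
      _ ≤ _ := sum_le_sum (fun c _ => hν1 c)
  set n := Nat.find hex with hn
  have hn1 : r ≤ ∑ c ∈ Ico T (T + n), ν c := Nat.find_spec hex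
  have hn2 : ∀ k < n, ∑ c ∈ Ico T (T + k), ν c < r := fun k hk => not_le.1 (Nat.find_min hex hk)
  set Z := ∑ c ∈ Ico T (T + n), ν c - r with hZ
  have hZlt : ∀ c, c + 1 = T + n → T ≤ c → Z < ν c := by
    intro c hc hTc
    have h1 := hn2 (n - 1) (by omega)
    have h2 : ∑ c ∈ Ico T (T + n), ν c = ∑ c ∈ Ico T (T + (n - 1)), ν c + ν c := by
      rw [show T + n = T + (n - 1) + 1 by omega, sum_Ico_succ_top (by omega)]
      rw [show T + (n - 1) = c by omega]
    omega
  have hZ0 : n = 0 → Z = 0 := by
    intro h0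
    rw [hZ, h0]; simp
  set st' : ℕ → ℕ := fun c => if c < T then st c else J with hst'
  set zc' : ℕ → ℕ := fun c => if c < T then zc c else if c + 1 = T + n then Z else 0 with hzc'
  have s1 : ∀ c < T, st' c = st c := by intro c hc; simp only [hst']; rw [if_pos hc]
  have s2 : ∀ c, T ≤ c → st' c = J := by intro c hc; simp only [hst']; rw [if_neg (by omega)]
  have z1 : ∀ c < T, zc' c = zc c := by intro c hc; simp only [hzc']; rw [if_pos hc]
  have z2 : ∀ c, T ≤ c → zc' c = if c + 1 = T + n then Z else 0 := by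
    intro c hc; simp only [hzc']; rw [if_neg (by omega)]
  have zlt : ∀ c, T ≤ c → c < T + n → zc' c < ν c := by
    intro c h1 h2
    rw [z2 c h1]
    split_ifs with h3
    · exact hZlt c h3 h1
    · exact hν1 c
  have hsplit : ∀ f : ℕ → ℕ, ∑ c ∈ range (T + n), f c = ∑ c ∈ range T, f c +
      ∑ c ∈ Ico T (T + n), f c := by
    intro f
    rw [range_eq_Ico, range_eq_Ico, sum_Ico_consecutive _ (by omega) (by omega)]
  have hzsum : ∑ c ∈ Ico T (T + n), zc' c = Z := by
    rcases Nat.eq_zero_or_pos n with h0 | h0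
    · rw [hZ0 h0, h0]; simp
    · rw [sum_eq_single (T + n - 1)]
      · rw [z2 _ (by omega), if_pos (by omega)]
      · intro c hc hne
        rw [mem_Ico] at hc
        rw [z2 _ hc.1, if_neg (by omega)]
      · intro hc
        exfalso; apply hc; rw [mem_Ico]; omega
  refine ⟨T + n, st', zc', by omega, s1, s2, ?_⟩
  have old : ∀ j, ∑ c ∈ range T, pat R (ν c) (st' c) (zc' c) j =
      ∑ c ∈ range T, pat R (ν c) (st c) (zc c) j := by
    intro j
    apply sum_congr rfl
    intro c hc
    rw [mem_range] at hc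
    rw [s1 c hc, z1 c hc]
  refine ⟨?_, ?_, ?_, ?_, ?_, ?_, ?_⟩
  · intro c hc
    by_cases hT : c < T
    · rw [s1 c hT]; have := h.st_lt c hT; omega
    · rw [s2 c (by omega)]; omega
  · intro c hc
    by_cases hT : c < T
    · rw [z1 c hT]; exact h.zc_lt c hT
    · exact zlt c (by omega) hc
  · intro c hc
    by_cases hT : c < T
    · rw [s1 c hT]; exact h.fits c hT
    · rw [s2 c (by omega)]; exact hfit c (by omega)
  · intro j hj
    rw [hsplit, old]
    by_cases hjJ : j < J
    · rw [h.done j hjJ]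
      have : ∑ c ∈ Ico T (T + n), pat R (ν c) (st' c) (zc' c) j = 0 := by
        apply sum_eq_zero
        intro c hc
        rw [mem_Ico] at hc
        rw [s2 c hc.1]
        exact pat_before hjJ (by have := hfit c hc.1; omega)
      rw [this, add_zero]
    · have hjJ' : j = J := by omega
      subst hjJ'
      have e1 : ∑ c ∈ Ico T (T + n), pat R (ν c) (st' c) (zc' c) j +
          ∑ c ∈ Ico T (T + n), zc' c = ∑ c ∈ Ico T (T + n), ν c := by
        rw [← sum_add_distrib]
        apply sum_congr rfl
        intro c hc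
        rw [mem_Ico] at hc
        rw [s2 c hc.1, pat_at]
        have := zlt c hc.1 hc.2
        omega
      rw [hzsum] at e1
      omega
  · intro i hi
    rw [hsplit]
    have e1 : ∑ c ∈ range T, (if i ≤ st' c + zc' c then 1 else 0) =
        ∑ c ∈ range T, (if i ≤ st c + zc c then 1 else 0) := by
      apply sum_congr rfl
      intro c hc
      rw [mem_range] at hc
      rw [s1 c hc, z1 c hc]
    have e2 : ∑ c ∈ Ico T (T + n), (if i ≤ st' c + zc' c then 1 else 0) ≤
        if i ≤ J + (m - 1) then 1 else 0 := by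
      rcases Nat.eq_zero_or_pos n with h0 | h0
      · rw [h0]; simp
      · rw [sum_eq_single (T + n - 1)]
        · rw [s2 _ (by omega)]
          have h1 := zlt (T + n - 1) (by omega) (by omega)
          have h2 := hνm (T + n - 1)
          split_ifs <;> omega
        · intro c hc hne
          rw [mem_Ico] at hc
          rw [s2 c hc.1, z2 _ hc.1, if_neg (by omega : ¬ c + 1 = T + n), if_neg (by omega)]
        · intro hc
          exfalso; apply hc; rw [mem_Ico]; omega
    rw [e1]
    have e3 := h.drop i (by omega)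
    split_ifs at e2 with h4
    · omega
    · omega
  · intro j hj
    have hj' : j = J := by omega
    subst hj'
    rw [hsplit]
    have e1 : ∑ c ∈ range T, (ν c - (j - st' c)) ≤ K := by
      rw [hK, h.sum_after le_rfl]
      refine le_trans (le_of_eq ?_) (Nat.le_add_right _ _)
      apply sum_congr rfl
      intro c hc
      rw [mem_range] at hc
      rw [s1 c hc]
    have e2 : ∑ c ∈ Ico T (T + n), (ν c - (j - st' c)) = ∑ c ∈ Ico T (T + n), ν c := by
      apply sum_congr rfl
      intro c hc
      rw [mem_Ico] at hc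
      rw [s2 c hc.1]; simp
    rw [e2]
    have e3 : Z ≤ m - 1 := by
      rcases Nat.eq_zero_or_pos n with h0 | h0
      · rw [hZ0 h0]; omega
      · have h1 := hZlt (T + n - 1) (by omega) (by omega)
        have h2 := hνm (T + n - 1)
        omega
    omega
  · intro j hj
    by_cases hjJ : j < J
    · have e1 : (range (T + n)).filter (fun c => st' c = j) =
          (range T).filter (fun c => st c = j) := by
        ext c
        rw [mem_filter, mem_filter, mem_range, mem_range]
        constructor
        · rintro ⟨h1, h2⟩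
          by_cases hT : c < T
          · rw [s1 c hT] at h2; exact ⟨hT, h2⟩
          · rw [s2 c (by omega)] at h2; omega
        · rintro ⟨h1, h2⟩
          rw [s1 c h1]; exact ⟨by omega, h2⟩
      rw [e1]
      exact h.cnt j hjJ
    · have hjJ' : j = J := by omega
      subst hjJ'
      have e1 : (range (T + n)).filter (fun c => st' c = j) = Ico T (T + n) := by
        ext c
        rw [mem_filter, mem_range, mem_Ico]
        constructor
        · rintro ⟨h1, h2⟩
          by_cases hT : c < T
          · rw [s1 c hT] at h2; have := h.st_lt c hT; omega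
          · omega
        · rintro ⟨h1, h2⟩
          rw [s2 c h1]; exact ⟨h2, rfl⟩
      rw [e1, Nat.card_Ico, Nat.add_sub_cancel_left]
      have e2 : ∑ c ∈ Ico T (T + n), ν c ≤ m * n := by
        calc ∑ c ∈ Ico T (T + n), ν c ≤ ∑ c ∈ Ico T (T + n), m := sum_le_sum (fun c _ => hνm c)
          _ = m * n := by rw [sum_const, Nat.card_Ico, smul_eq_mul]; rw [Nat.add_sub_cancel_left, mul_comm]
      have e3 : m * r ≤ m * (m * n) := Nat.mul_le_mul_left _ (by omega)
      have e4 : m * r + m * K = m * b j := by rw [← mul_add]; congr 1; omega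
      omega

end step



end Helper18.Cusp
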