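import Mathlib
import Pool.Agent.Helper18.StripProc
import Pool.Agent.Helper18.StripBlock

/-!
Exact filling of the rows of a (possibly thin) strip by points of one multiplicity.
-/

set_option autoImplicit false
set_option linter.unusedSectionVars false

namespace Helper18.Cusp

open Finset Pool.Agent.Lead.Sh Pool.Agent.Helper43.Ah

section run

variable {m R δ : ℕ} {ν b : ℕ → ℕ} {J T : ℕ} {st zc : ℕ → ℕ}

lemma SS.total (h : SS m R δ ν b J T st zc) :
    ∑ j ∈ range R, ∑ c ∈ range T, pat R (ν c) (st c) (zc c) j =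
      ∑ c ∈ range T, (ν c + 1).choose 2 := by
  rw [sum_comm]
  apply sum_congr rfl
  intro c hc
  rw [mem_range] at hc
  exact pat_sum (h.zc_lt c hc) (h.fits c hc)

theorem srun (μ R δ : ℕ) (b : ℕ → ℕ) (hμ : 1 ≤ μ)
    (hb : ∀ j < R, 2 * μ * μ + μ * δ ≤ b j)
    (hb1 : ∀ j, j + 1 < R → b j ≤ b (j + 1) + δ) :
    ∀ J ≤ R - μ, ∃ T st zc, SS μ R δ (fun _ => μ) b J T st zc := by
  intro J
  induction J with
  | zero => intro _; exact ⟨0, fun _ => 0, fun _ => 0, SS.zero _ _ _ _ _ _ _⟩
  | succ J ih =>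
    intro hJ
    obtain ⟨T, st, zc, h⟩ := ih (by omega)
    obtain ⟨T', st', zc', hTT, e1, e2, h'⟩ := h.step hμ (fun _ => hμ) (fun _ => le_rfl)
      (fun c _ => by show J + μ < R; omega) (hb J (by omega)) (by
      intro j hj
      subst hj
      exact hb1 j (by omega))
    exact ⟨T', st', zc', h'⟩

end run

/-- the threshold for the lengths of the rows -/
def TS (μ δ : ℕ) : ℕ := 2 * μ ^ 5 * (δ + 2 * μ)

theorem strip_one (μ R δ N : ℕ) (hμ : 1 ≤ μ) (hR : μ + 2 ≤ R) (b : ℕ → ℕ)
    (hb1 : ∀ j, j + 1 < R → b j ≤ b (j + 1) + δ) (hb2 : ∀ j, j + 1 < R → b (j + 1) ≤ b j + δ)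
    (hT : ∀ j < R, TS μ δ ≤ b j)
    (htot : ∑ j ∈ range R, b j = N * (μ + 1).choose 2) :
    ∃ st zc : ℕ → ℕ, (∀ c < N, st c + zc c < R ∧ zc c ≤ μ) ∧
      ∀ j < R, ∑ c ∈ range N, pat R μ (st c) (zc c) j = b j := by
  classical
  have hμ5 : 1 ≤ μ ^ 5 := Nat.one_le_pow _ _ hμ
  have hμ2 : μ * μ ≤ μ ^ 5 := by
    rw [← pow_two]; exact Nat.pow_le_pow_right hμ (by norm_num)
  have hμ1 : μ ≤ μ ^ 5 := by
    calc μ = μ ^ 1 := (pow_one μ).symm
      _ ≤ _ := Nat.pow_le_pow_right hμ (by norm_num)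
  have hTe : TS μ δ = 2 * (μ ^ 5 * δ) + 4 * (μ ^ 5 * μ) := by unfold TS; ring
  have k1 : μ * δ ≤ μ ^ 5 * δ := Nat.mul_le_mul_right _ hμ1
  have k2 : μ * μ ≤ μ ^ 5 * μ := Nat.mul_le_mul_right _ hμ1
  have k3 : μ * μ * δ ≤ μ ^ 5 * δ := Nat.mul_le_mul_right _ hμ2
  have hsmall : 2 * μ * μ + μ * δ ≤ TS μ δ := by rw [hTe]; nlinarith
  obtain ⟨T, st, zc, h⟩ := srun μ R δ b hμ (fun j hj => le_trans hsmall (hT j hj)) hb1
    (R - μ) le_rfl
  obtain ⟨J0, hJ0⟩ : ∃ J0, R = J0 + μ := ⟨R - μ, by omega⟩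
  rw [show R - μ = J0 by omega] at h
  have hJ2 : 2 ≤ J0 := by omega
  set K : ℕ → ℕ := fun i => ∑ c ∈ range T, pat R μ (st c) (zc c) i with hK
  have hbj : ∀ e j, j + e < R → b j ≤ b (j + e) + e * δ := by
    intro e
    induction e with
    | zero => intro j _; simp
    | succ e ih =>
      intro j hj
      have h1 := ih j (by omega)
      have h2 := hb1 (j + e) (by omega)
      rw [← add_assoc j e 1, add_mul, one_mul]
      omega
  have hKle : ∀ i, J0 ≤ i → i < R → K i ≤ b i := by
    intro i hi hiR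
    have h1 := h.bound hμ (fun _ => le_rfl) (j := J0 - 1) (by omega) hi
    have h2 := hbj (i - (J0 - 1)) (J0 - 1) (by omega)
    rw [show J0 - 1 + (i - (J0 - 1)) = i by omega] at h2
    have h20 : (i - (J0 - 1)) * δ ≤ μ * δ := Nat.mul_le_mul_right _ (by omega)
    have h3 : b (J0 - 1) ≤ b i + μ * δ := by omega
    have h4 := hT i hiR
    have h5 : μ * K i ≤ μ * b i := by
      obtain ⟨p, rfl⟩ : ∃ p, μ = p + 1 := ⟨μ - 1, by omega⟩
      rw [Nat.add_sub_cancel] at h1
      have h6 : 2 * (p + 1) * (p + 1) + (p + 1) * (p + 1) * δ ≤ b i := by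
        refine le_trans ?_ h4
        rw [hTe]
        clear * - k2 k3
        generalize (p + 1) ^ 5 = P at *
        nlinarith only [k2, k3, Nat.zero_le (P * δ), Nat.zero_le (P * (p + 1))]
      have h7 : p * (b (J0 - 1) + p) ≤ p * (b i + (p + 1) * δ + p) :=
        Nat.mul_le_mul_left _ (by omega)
      calc (p + 1) * K i ≤ p * (b (J0 - 1) + p) + (p + 1) * p := h1
        _ ≤ p * (b i + (p + 1) * δ + p) + (p + 1) * p := by omega
        _ ≤ (p + 1) * b i := by
            clear * - h6
            nlinarith only [h6, Nat.zero_le (p * δ), Nat.zero_le δ, Nat.zero_le p]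
    exact Nat.le_of_mul_le_mul_left h5 (by omega)
  have hKdone : ∀ j < J0, K j = b j := h.done
  have htotT : ∑ j ∈ range R, K j = T * (μ + 1).choose 2 := by
    have := h.total
    rw [sum_const, card_range, smul_eq_mul] at this
    exact this
  have hCpos : 1 ≤ (μ + 1).choose 2 := ch2_pos hμ
  have hTN : T ≤ N := by
    have h2 : ∑ j ∈ range R, K j ≤ ∑ j ∈ range R, b j := by
      apply sum_le_sum
      intro j hj
      rw [mem_range] at hj
      by_cases hjJ : j < J0
      · rw [hKdone j hjJ]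
      · exact hKle j (by omega) hj
    rw [htotT, htot] at h2
    exact Nat.le_of_mul_le_mul_right h2 (by omega)
  obtain ⟨n, rfl⟩ := Nat.exists_eq_add_of_le hTN
  set ρ : ℕ → ℤ := fun t => (b (R - 1 - t) : ℤ) - (K (R - 1 - t) : ℤ) with hρ
  have hρμ : ρ μ = 0 := by
    simp only [hρ]
    rw [hKdone (R - 1 - μ) (by omega)]; ring
  have hρnn : ∀ t < μ, 0 ≤ ρ t := by
    intro t ht
    simp only [hρ]
    have := hKle (R - 1 - t) (by omega) (by omega)
    omega
  have hK0 : K (R - 1) = 0 := by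
    apply sum_eq_zero
    intro c hc
    rw [mem_range] at hc
    have h1 := h.fits c hc
    have h2 := h.zc_lt c hc
    have h3 := h.st_lt c hc
    rw [pat_after (by omega) h2, if_neg (by omega)]
    omega
  have hρ0 : ρ 0 = b (R - 1) := by
    simp only [hρ]
    rw [Nat.sub_zero, hK0]; simp
  have hsumρ : ∑ t ∈ range μ, ρ t = ∑ j ∈ range R, ((b j : ℤ) - K j) := by
    have e1 : ∑ j ∈ range R, ((b j : ℤ) - K j) = ∑ j ∈ range J0, ((b j : ℤ) - K j) +
        ∑ j ∈ Ico J0 R, ((b j : ℤ) - K j) := by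
      rw [range_eq_Ico, range_eq_Ico, sum_Ico_consecutive _ (by omega) (by omega)]
    have e2 : ∑ j ∈ range J0, ((b j : ℤ) - K j) = 0 := by
      apply sum_eq_zero
      intro j hj
      rw [mem_range] at hj
      rw [hKdone j hj]; ring
    rw [e1, e2, zero_add, sum_Ico_eq_sum_range, show R - J0 = μ by omega,
      ← sum_range_reflect]
    apply sum_congr rfl
    intro t ht
    rw [mem_range] at ht
    simp only [hρ]
    rw [show R - 1 - (μ - 1 - t) = J0 + t by omega]
  have hcells : ∑ j ∈ range R, ((b j : ℤ) - K j) = (n : ℤ) * ((μ + 1).choose 2 : ℕ) := by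
    rw [sum_sub_distrib]
    have e1 : (∑ j ∈ range R, (b j : ℤ)) = (((T + n) * (μ + 1).choose 2 : ℕ) : ℤ) := by
      rw [← htot]; push_cast; rfl
    have e2 : (∑ j ∈ range R, (K j : ℤ)) = ((T * (μ + 1).choose 2 : ℕ) : ℤ) := by
      rw [← htotT]; push_cast; rfl
    rw [e1, e2]
    push_cast; ring
  have htotρ : 2 * ∑ t ∈ range μ, ρ t = (n : ℤ) * μ * (μ + 1) := by
    rw [hsumρ, hcells]
    have := two_ch2 μ
    have h2 : (2 : ℤ) * ((μ + 1).choose 2 : ℕ) = (μ : ℤ) * (μ + 1) := by exact_mod_cast this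
    calc (2 : ℤ) * ((n : ℤ) * ((μ + 1).choose 2 : ℕ)) = n * (2 * ((μ + 1).choose 2 : ℕ)) := by ring
      _ = _ := by rw [h2]; ring
  have hnδ : δ ≤ n := by
    have h2 := single_le_sum (f := ρ) (s := range μ) (fun t ht => hρnn t (mem_range.1 ht))
      (mem_range.2 (show 0 < μ by omega))
    have h3 := hT (R - 1) (by omega)
    rw [hρ0] at h2
    have h4 : 2 * (TS μ δ) ≤ n * μ * (μ + 1) := by
      have : (2 : ℤ) * (TS μ δ : ℤ) ≤ (n : ℤ) * μ * (μ + 1) := by
        rw [← htotρ]
        have : (TS μ δ : ℤ) ≤ (b (R - 1) : ℤ) := by exact_mod_cast h3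
        linarith
      exact_mod_cast this
    by_contra hcon
    push Not at hcon
    have h5 : n * μ * (μ + 1) ≤ δ * μ * (μ + 1) := by gcongr
    have h6 : δ * μ * (μ + 1) ≤ 2 * (μ * μ * δ) := by
      nlinarith only [Nat.mul_le_mul_left (δ * μ) hμ]
    rw [hTe] at h4
    have h7 : 1 ≤ μ ^ 5 * μ := Nat.mul_pos hμ5 hμ
    linarith only [h4, h5, h6, k3, h7, Nat.zero_le (μ ^ 5 * δ)]
  -- nominal contributions
  set A : ℕ → ℕ := fun i => ∑ c ∈ range T, (μ - (i - st c)) with hA
  have hKA : ∀ i, J0 ≤ i → A i ≤ K i ∧ K i ≤ A i + (μ - 1) := by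
    intro i hi
    have h1 := h.sum_after hi
    have h2 := h.drop i hi
    simp only [hK, hA]
    omega
  have hKA' : A (J0 - 1) ≤ K (J0 - 1) + (μ - 1) := by
    rw [hKdone _ (by omega)]
    exact h.nom (J0 - 1) (by omega)
  have hsd : ∀ i, J0 ≤ i → 2 * A i + ((range T).filter (fun c => st c + μ = i)).card ≤
      A (i + 1) + A (i - 1) := by
    intro i hi
    simp only [hA]
    rw [mul_sum, card_filter, ← sum_add_distrib, ← sum_add_distrib]
    apply sum_le_sum
    intro c hc
    rw [mem_range] at hc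
    have h1 := h.st_lt c hc
    split_ifs with h2
    · omega
    · omega
  set E : ℤ := 2 * δ + 4 * μ with hE
  have hΔ : ∀ u, 1 ≤ u → u < μ → ((((range T).filter (fun c => st c + μ = R - 1 - u)).card : ℕ) : ℤ)
      - E ≤ 2 * ρ u - ρ (u + 1) - ρ (u - 1) := by
    intro u hu1 hu2
    have e1 : R - 1 - (u + 1) = R - 1 - u - 1 := by omega
    have e2 : R - 1 - (u - 1) = R - 1 - u + 1 := by omega
    simp only [hρ]
    rw [e1, e2]
    set i := R - 1 - u with hi
    have hiJ : J0 ≤ i := by omega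
    have c2 := hsd i hiJ
    have c3 := hKA i hiJ
    have c4 := hKA (i + 1) (by omega)
    have c5 : A (i - 1) ≤ K (i - 1) + (μ - 1) := by
      by_cases h7 : J0 ≤ i - 1
      · have := hKA (i - 1) h7
        omega
      · rw [show i - 1 = J0 - 1 by omega]; exact hKA'
    have c6 := hb1 (i - 1) (by omega)
    rw [show i - 1 + 1 = i by omega] at c6
    have c7 := hb2 i (by omega)
    omega
  have hcnt : (δ + 2 * μ) * (μ * μ * μ) ≤
      ((range T).filter (fun c => st c = J0 - 2)).card := by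
    have h1 := h.cnt (J0 - 2) (by omega)
    have h2 := hT (J0 - 2) (by omega)
    by_contra hcon
    push Not at hcon
    set q := ((range T).filter (fun c => st c = J0 - 2)).card
    have h5 : μ * (μ * q) + μ * μ ≤ μ * (μ * ((δ + 2 * μ) * (μ * μ * μ))) := by
      have : μ * (μ * (q + 1)) ≤ μ * (μ * ((δ + 2 * μ) * (μ * μ * μ))) :=
        Nat.mul_le_mul_left _ (Nat.mul_le_mul_left _ hcon)
      linarith only [this]
    have h6 : μ * (μ * ((δ + 2 * μ) * (μ * μ * μ))) = μ ^ 5 * δ + 2 * (μ ^ 5 * μ) := by ring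
    rw [hTe] at h2
    nlinarith only [h1, h2, h5, h6, k1, k2, k3, hμ5, hμ]
  have hcnt' : 1 < μ → (δ + 2 * μ) * (μ * μ * μ) ≤
      ((range T).filter (fun c => st c + μ = R - 1 - 1)).card := by
    intro h1
    refine le_trans hcnt (card_le_card ?_)
    intro c hc
    rw [mem_filter] at hc ⊢
    exact ⟨hc.1, by omega⟩
  have hHB := H_bound' (n : ℤ) ρ μ (((δ + 2 * μ) * (μ * μ * μ) : ℕ) : ℤ) E (by positivity)
    (by rw [hE]; positivity) (by
      intro h1
      have h2 := hΔ 1 le_rfl h1
      have h3 : ((((δ + 2 * μ) * (μ * μ * μ) : ℕ)) : ℤ) ≤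
        ((((range T).filter (fun c => st c + μ = R - 1 - 1)).card : ℕ) : ℤ) := by
          exact_mod_cast hcnt' h1
      rw [show (1 : ℕ) + 1 = 2 by rfl, Nat.sub_self] at h2
      linarith) (by
      intro u h1 h2
      have h3 := hΔ u h1 h2
      have h4 : (0 : ℤ) ≤ ((((range T).filter (fun c => st c + μ = R - 1 - u)).card : ℕ) : ℤ) := by
        positivity
      linarith) (by
      push_cast
      rw [hE]
      have h0 : (0 : ℤ) ≤ (μ : ℤ) * μ * μ := by positivity
      have h1 : (0 : ℤ) ≤ δ := by positivity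
      have h2 : (0 : ℤ) ≤ μ := by positivity
      nlinarith only [h0, h1, h2, mul_nonneg h0 h1, mul_nonneg h0 h2])
  obtain ⟨X, z, hXz, hzlast, hXn, hblock⟩ := block' (n : ℤ) ρ μ hμ (by positivity) hρμ htotρ hHB (by
    by_cases h1 : μ = 1
    · subst h1
      rw [hρμ, hρ0]; positivity
    · rw [hρ0]
      simp only [hρ]
      have c6 := hb1 (R - 1 - 1) (by omega)
      rw [show R - 1 - 1 + 1 = R - 1 by omega] at c6
      have : (0 : ℤ) ≤ K (R - 1 - 1) := by positivity
      omega)
  -- natural numbers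
  have hXnn : ∀ j < μ, 0 ≤ X j := fun j hj => le_trans (hXz j hj).1 (hXz j hj).2
  have hXsum : ∑ i ∈ range μ, (X i).toNat = n := by
    have : ((∑ i ∈ range μ, (X i).toNat : ℕ) : ℤ) = n := by
      rw [← hXn]; push_cast
      apply sum_congr rfl
      intro i hi
      rw [mem_range] at hi
      exact Int.toNat_of_nonneg (hXnn i hi)
    exact_mod_cast this
  obtain ⟨s, w, hs, hF⟩ := dist J0 T (fun i => (X i).toNat) (fun i => (z i).toNat) μ (by
    intro i hi
    exact Int.toNat_le_toNat (hXz i hi).2)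
  rw [hXsum] at hs hF
  refine ⟨fun c => if c < T then st c else s c, fun c => if c < T then zc c else w c, ?_, ?_⟩
  · intro c hc
    by_cases hcT : c < T
    · simp only [if_pos hcT]
      have h1 := h.fits c hcT
      have h2 := h.zc_lt c hcT
      omega
    · simp only [if_neg hcT]
      obtain ⟨i, hi, e1, e2⟩ := hs c (by omega) hc
      rw [e1]
      rcases e2 with e2 | ⟨e2, e3⟩
      · rw [e2]; omega
      · rw [e2]
        by_cases h4 : i = μ - 1
        · rw [h4, hzlast] at e3; simp at e3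
        · omega
  · intro j hj
    have esum : ∑ c ∈ range (T + n), pat R μ ((fun c => if c < T then st c else s c) c)
        ((fun c => if c < T then zc c else w c) c) j = K j +
          ∑ c ∈ Ico T (T + n), pat R μ (s c) (w c) j := by
      rw [range_eq_Ico, ← sum_Ico_consecutive _ (show 0 ≤ T by omega) (show T ≤ T + n by omega),
        ← range_eq_Ico]
      congr 1
      · apply sum_congr rfl
        intro c hc
        rw [mem_range] at hc
        simp only [if_pos hc]
      · apply sum_congr rfl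
        intro c hc
        rw [mem_Ico] at hc
        simp only [if_neg (show ¬ c < T by omega)]
    rw [esum]
    by_cases hjJ : j < J0
    · rw [hKdone j hjJ, hF (fun a d => pat R μ a d j)]
      have : ∀ i ∈ range μ, ((z i).toNat * pat R μ (J0 + i) 1 j +
          ((X i).toNat - (z i).toNat) * pat R μ (J0 + i) 0 j) = 0 := by
        intro i hi
        rw [mem_range] at hi
        have e : ∀ zz, pat R μ (J0 + i) zz j = 0 := by
          intro zz
          unfold pat
          rw [if_pos (by omega)]; omega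
        rw [e, e]; simp
      rw [sum_congr rfl this]; simp
    · obtain ⟨j', rfl⟩ : ∃ j', j = J0 + j' := ⟨j - J0, by omega⟩
      have hj' : j' < μ := by omega
      rw [hF (fun a d => pat R μ a d (J0 + j'))]
      have key : ((∑ i ∈ range μ, ((z i).toNat * pat R μ (J0 + i) 1 (J0 + j') +
          ((X i).toNat - (z i).toNat) * pat R μ (J0 + i) 0 (J0 + j')) : ℕ) : ℤ) = ρ (μ - 1 - j') := by
        rw [← hblock j' hj', hJ0]
        rw [Nat.cast_sum]
        have e1 : ∀ i ∈ range μ, (((z i).toNat * pat (J0 + μ) μ (J0 + i) 1 (J0 + j') +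
          ((X i).toNat - (z i).toNat) * pat (J0 + μ) μ (J0 + i) 0 (J0 + j') : ℕ) : ℤ) =
            X i * (if j' < i then (j' : ℤ) + 1 else (μ : ℤ) - j' + i) -
              (if j' = i then z i else 0) + (if j' = i + 1 then z i else 0) := by
          intro i hi
          rw [mem_range] at hi
          rw [pat_block J0 μ i j' hi hj' _ _ (Int.toNat_le_toNat (hXz i hi).2) hμ]
          rw [Int.toNat_of_nonneg (hXnn i hi), Int.toNat_of_nonneg (hXz i hi).1]
        rw [sum_congr rfl e1, sum_add_distrib, sum_sub_distrib]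
        congr 1
        · congr 1
          rw [sum_ite_eq, if_pos (mem_range.2 hj')]
        · by_cases hj0 : j' = 0
          · subst hj0
            simp
          · rw [if_neg hj0]
            rw [sum_eq_single (j' - 1)]
            · rw [if_pos (by omega)]
            · intro i _ hne
              rw [if_neg (by omega)]
            · intro hn
              exfalso; apply hn; rw [mem_range]; omega
      have hρv : ρ (μ - 1 - j') = (b (J0 + j') : ℤ) - K (J0 + j') := by
        simp only [hρ]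
        rw [show R - 1 - (μ - 1 - j') = J0 + j' by omega]
      rw [hρv] at key
      omega

end Helper18.Cusp
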