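import Mathlib
import Pool.Agent.Helper18.CuspMain
import Pool.Agent.Helper18.StripOne
import Pool.Agent.Helper39.Ah.Strip
import Pool.Agent.Helper39.Ah.Shapes

/-!
The main theorem: systems in the half space `-K₁₀·L ≥ 2`.
-/

set_option autoImplicit false

open Module

noncomputable section

namespace Helper18.Cusp

open Helper18.Shgh
open Pool.Agent.Lead.Sh (E Row InjAt IndAt Inj Ind rows mem_rows triD mem_triD)
open Pool.Agent.Helper43.Ah (Good rowsD mem_rowsD)
open Pool.Agent.Helper39.Ah (StripOne T2 strip_good good_wall good_corner good_P2)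

theorem goodFor_of_good {M : ℕ} {D D' : Finset (ℕ × ℕ)} {m : ℕ → ℕ} {S : Finset ℕ}
    (h : Good M D') (hD : ∀ x, x ∈ D ↔ x ∈ D') (hS : ∀ i ∈ S, m i ≤ M) : GoodFor D m S := by
  have e : D = D' := Finset.ext hD
  subst e
  exact h S m hS

theorem goodFor_zero {D : Finset (ℕ × ℕ)} {m : ℕ → ℕ} {S : Finset ℕ} (h : ∀ i ∈ S, m i = 0) :
    GoodFor D m S := by
  have hr : rows m S = ∅ := by
    rw [Finset.eq_empty_iff_forall_notMem]
    intro r hr
    rw [mem_rows] at hr
    have := h _ hr.1
    omega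
  constructor
  · intro hc
    have h0 : ∑ k ∈ S, (m k + 1).choose 2 = 0 := by
      apply Finset.sum_eq_zero
      intro k hk
      rw [h k hk]; rfl
    rw [h0] at hc
    have hD : D = ∅ := Finset.card_eq_zero.1 (by omega)
    subst hD
    exact ⟨fun _ => 0, fun c _ d hd => absurd hd (Finset.notMem_empty _)⟩
  · intro _
    rw [hr]
    exact ⟨fun _ => 0, fun l _ r hr => absurd hr (Finset.notMem_empty _)⟩

/-- the threshold of the strips as a function of three arguments -/
def TSf (μ _W δ : ℕ) : ℕ := TS μ δ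

theorem stripOne_TSf : StripOne TSf := by
  intro μ W δ N hμ hW b hδ hT htot
  exact strip_one μ W δ N hμ hW b (fun j hj => hδ j (by omega) (j + 1) hj)
    (fun j hj => hδ (j + 1) hj j (by omega)) hT htot

theorem TSf_mono (μ μ' W δ δ' : ℕ) (h1 : μ ≤ μ') (h2 : δ ≤ δ') : TSf μ W δ ≤ TSf μ' W δ' := by
  unfold TSf TS
  gcongr

theorem choose_le_sq (M : ℕ) (hM : 1 ≤ M) : (M + 1).choose 2 ≤ M ^ 2 := by
  have := Pool.Agent.Helper43.Ah.two_ch2 M
  nlinarith

theorem T2_le (M W δ : ℕ) (hM : 1 ≤ M) (hW : W ≤ 3 * M ^ 2) (hδ : δ ≤ 6 * M ^ 2) :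
    T2 TSf M W δ ≤ 100 * M ^ 15 := by
  have hp : ∀ a b : ℕ, a ≤ b → M ^ a ≤ M ^ b := fun a b h => Nat.pow_le_pow_right hM h
  have e1 : TSf M W 1 ≤ 6 * M ^ 6 := by
    unfold TSf TS
    calc 2 * M ^ 5 * (1 + 2 * M) ≤ 2 * M ^ 5 * (M + 2 * M) := by gcongr
      _ = 6 * M ^ 6 := by ring
  have e2 : W * (TSf M W 1 + 1) + 1 ≤ 22 * M ^ 8 := by
    have h6 : 1 ≤ M ^ 6 := Nat.one_le_pow _ _ hM
    have h8 : 1 ≤ M ^ 8 := Nat.one_le_pow _ _ hM
    calc W * (TSf M W 1 + 1) + 1 ≤ 3 * M ^ 2 * (6 * M ^ 6 + M ^ 6) + M ^ 8 := by gcongr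
      _ = 22 * M ^ 8 := by ring
  have e3 : Pool.Agent.Helper39.Ah.DD TSf M W (δ + (M + 1).choose 2) ≤ 29 * M ^ 9 := by
    unfold Pool.Agent.Helper39.Ah.DD
    have h1 := choose_le_sq M hM
    calc δ + (M + 1).choose 2 + M * (W * (TSf M W 1 + 1) + 1) ≤
        6 * M ^ 9 + M ^ 9 + M * (22 * M ^ 8) := by
          have := hp 2 9 (by norm_num)
          have h2 : M * (W * (TSf M W 1 + 1) + 1) ≤ M * (22 * M ^ 8) :=
            Nat.mul_le_mul_left _ e2
          omega
      _ = 29 * M ^ 9 := by ring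
  unfold T2
  set D := Pool.Agent.Helper39.Ah.DD TSf M W (δ + (M + 1).choose 2) with hD
  have e4 : TSf M W D ≤ 62 * M ^ 14 := by
    unfold TSf TS
    have h1 : 2 * M ≤ 2 * M ^ 9 := by
      have := hp 1 9 (by norm_num)
      rw [pow_one] at this
      omega
    calc 2 * M ^ 5 * (D + 2 * M) ≤ 2 * M ^ 5 * (29 * M ^ 9 + 2 * M ^ 9) := by
          apply Nat.mul_le_mul_left
          omega
      _ = 62 * M ^ 14 := by ring
  calc M * (TSf M W D + D) ≤ M * (62 * M ^ 14 + 38 * M ^ 14) := by
        apply Nat.mul_le_mul_left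
        have := hp 9 14 (by norm_num)
        omega
    _ = 100 * M ^ 15 := by ring

/-- **rows of a strip, thin or not** -/
theorem good_rows (M W : ℕ) (H : ℕ → ℕ) (hM : 1 ≤ M)
    (hanti : ∀ y, y + 1 < W → H (y + 1) ≤ H y)
    (hdrop : ∀ y, y + 1 < W → H y ≤ H (y + 1) + 2) (hW : M + 2 ≤ W)
    (hmin : 100 * M ^ 15 ≤ H (W - 1)) : Good M (rowsD W H) := by
  have hp : ∀ a b : ℕ, a ≤ b → M ^ a ≤ M ^ b := fun a b h => Nat.pow_le_pow_right hM h
  have hlow : ∀ y < W, H (W - 1) ≤ H y := by
    have : ∀ t y, y + t = W - 1 → H (W - 1) ≤ H y := by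
      intro t
      induction t with
      | zero => intro y hy; rw [← hy]; simp
      | succ t ih =>
        intro y hy
        exact (ih (y + 1) (by omega)).trans (hanti y (by omega))
    intro y hy
    exact this (W - 1 - y) y (by omega)
  rcases Nat.lt_or_ge W (3 * M ^ 2) with h1 | h1
  · have hgood := strip_good stripOne_TSf TSf_mono M W (2 * W) hM hW (fun y => H (W - 1 - y)) (by
      have hup : ∀ t y, y + t < W → H y ≤ H (y + t) + 2 * t := by
        intro t
        induction t with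
        | zero => intro y _; simp
        | succ t ih =>
          intro y hy
          have h2 := ih y (by omega)
          have h3 := hdrop (y + t) (by omega)
          rw [← add_assoc y t 1]
          omega
      have hle : ∀ t y, y + t < W → H (y + t) ≤ H y := by
        intro t
        induction t with
        | zero => intro y _; simp
        | succ t ih =>
          intro y hy
          have h2 := ih y (by omega)
          have h3 := hanti (y + t) (by omega)
          rw [← add_assoc y t 1]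
          omega
      intro i hi j hj
      show H (W - 1 - i) ≤ H (W - 1 - j) + 2 * W
      rcases le_total i j with hij | hij
      · have := hle (j - i) (W - 1 - j) (by omega)
        rw [show W - 1 - j + (j - i) = W - 1 - i by omega] at this
        omega
      · have := hup (i - j) (W - 1 - i) (by omega)
        rw [show W - 1 - i + (i - j) = W - 1 - j by omega] at this
        omega) (by
      intro j hj
      show _ ≤ H (W - 1 - j)
      refine (T2_le M W (2 * W) hM h1.le (by omega)).trans (hmin.trans (hlow _ (by omega))))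
    have e : rowsD W (fun y => (fun y => H (W - 1 - y)) (W - 1 - y)) = rowsD W H := by
      apply Pool.Agent.Helper43.Ah.rowsD_congr
      intro y hy
      show H (W - 1 - (W - 1 - y)) = H y
      rw [show W - 1 - (W - 1 - y) = y by omega]
    rwa [e] at hgood
  · apply good_wall M W H hM hanti hdrop h1
    · refine le_trans ?_ hmin
      have := hp 2 15 (by norm_num)
      omega
    · refine le_trans ?_ (hmin.trans (hlow 0 (by omega)))
      have := hp 3 15 (by norm_num)
      omega

theorem tr_all {m : ℕ → ℕ} {j : ℕ} (h : ∀ i, j ≤ i → m i = 0) : tr m j = m := by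
  funext i
  rw [tr]
  split_ifs with h1
  · rfl
  · exact (h i (by omega)).symm

/-- the reduced data of the first `j ≥ 3` points -/
theorem red_tr {m : ℕ → ℕ} {d : ℕ} (hm : Antitone m) (hd : m 0 + m 1 + m 2 ≤ d) {j : ℕ}
    (hj3 : 3 ≤ j) (hj : j ≤ 9) (h : ∑ i ∈ Finset.range j, m i < 3 * d) :
    ∑ i ∈ Finset.range 9, tr m j i = ∑ i ∈ Finset.range j, m i ∧ Red d (tr m j) := by
  have hsum : ∑ i ∈ Finset.range 9, tr m j i = ∑ i ∈ Finset.range j, m i := by
    rw [← Finset.sum_congr rfl (fun i hi => tr_lt (m := m) (Finset.mem_range.1 hi))]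
    symm
    apply Finset.sum_subset
    · intro i hi
      rw [Finset.mem_range] at hi ⊢
      omega
    · intro i _ hi
      rw [Finset.mem_range] at hi
      exact tr_ge (by omega)
  refine ⟨hsum, ⟨?_, ?_, ?_⟩⟩
  · intro a b hab _
    rw [tr, tr]
    split_ifs with h4 h5
    · exact hm hab
    · omega
    · exact Nat.zero_le _
    · exact le_rfl
  · rw [tr_lt (by omega), tr_lt (by omega), tr_lt (by omega)]
    exact hd
  · rw [hsum]
    exact h

theorem sum_le_of_red {m : ℕ → ℕ} {d : ℕ} (hm : Antitone m) (hd : m 0 + m 1 + m 2 ≤ d) {j : ℕ}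
    (hj3 : 3 ≤ j) (hj : j ≤ 9) :
    ∑ i ∈ Finset.range j, m i + (9 - j) * m 2 ≤ 3 * d := by
  have h3 : m 3 ≤ m 2 := hm (by norm_num)
  have h4 : m 4 ≤ m 2 := hm (by norm_num)
  have h5 : m 5 ≤ m 2 := hm (by norm_num)
  have h6 : m 6 ≤ m 2 := hm (by norm_num)
  have h7 : m 7 ≤ m 2 := hm (by norm_num)
  have h8 : m 8 ≤ m 2 := hm (by norm_num)
  have h1 : m 1 ≤ m 0 := hm (by norm_num)
  have h2 : m 2 ≤ m 1 := hm (by norm_num)
  interval_cases j <;> simp only [Finset.sum_range_succ, Finset.sum_range_zero, zero_add] <;> omega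

theorem main_T {s : ℕ} {m : ℕ → ℕ} {d : ℕ}
    (hm : Antitone m) (hs : ∀ i, s ≤ i → m i = 0) (hd : m 0 + m 1 + m 2 ≤ d)
    (h9 : 1 ≤ m 9) {j : ℕ} (hj0 : 1 ≤ j)
    (hj : j ≤ 9) (hK : j = 9 → ∑ i ∈ Finset.range 10, m i + 2 ≤ 3 * d)
    (h1 : 100 * m j ^ 15 ≤ m (j - 1)) : Concl s m d := by
  set M := m j with hMdef
  have hM : 1 ≤ M := h9.trans (hm hj)
  have hp : ∀ a b : ℕ, a ≤ b → M ^ a ≤ M ^ b := fun a b h => Nat.pow_le_pow_right hM h
  have hp1 := hp 1 15 (by norm_num)
  have hp2 := hp 2 15 (by norm_num)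
  have hp3 := hp 3 15 (by norm_num)
  rw [pow_one] at hp1
  have hM2 : 1 ≤ M ^ 2 := Nat.one_le_pow _ _ hM
  have hS : ∀ i ∈ Finset.Ico j s, m i ≤ M := by
    intro i hi
    rw [Finset.mem_Ico] at hi
    exact hm hi.1
  have hm2 : 1 ≤ m 2 := h9.trans (hm (by norm_num))
  rcases Nat.lt_or_ge j 3 with hj3 | hj3
  · -- toric cases
    apply toric_finish s m d j hm hs (by omega) (by omega)
    rcases Nat.lt_or_ge j 2 with hj2 | hj2
    · have hj1 : j = 1 := by omega
      rw [hj1, tr_lt (by norm_num), tr_ge le_rfl, ← hj1]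
      rw [hj1] at hMdef
      have h1' : 100 * M ^ 15 ≤ m 0 := by
        rw [hj1] at h1; exact h1
      apply GoodFor.swap
      apply goodFor_of_good (good_rows M (d - m 0 + 1) (fun y => d + 1 - y) hM _ _ (by omega) _) _ hS
      · intro y hy
        omega
      · intro y hy
        omega
      · show 100 * M ^ 15 ≤ d + 1 - (d - m 0 + 1 - 1)
        omega
      · intro x
        rw [mem_rowsD, Finset.mem_image]
        constructor
        · rintro ⟨y, hy, rfl⟩
          rw [mem_DT2] at hy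
          simp only [Prod.fst_swap, Prod.snd_swap]
          omega
        · intro hx
          refine ⟨x.swap, ?_, Prod.swap_swap x⟩
          rw [mem_DT2]
          simp only [Prod.fst_swap, Prod.snd_swap]
          omega
    · have hj2' : j = 2 := by omega
      rw [hj2', tr_lt (by norm_num), tr_lt (by norm_num), ← hj2']
      rw [hj2'] at hMdef
      have h1' : 100 * M ^ 15 ≤ m 1 := by
        rw [hj2'] at h1; exact h1
      have h10 : m 1 ≤ m 0 := hm (by norm_num)
      apply goodFor_of_good (good_rows M (d - m 1 + 1) (fun y => min (d + 1 - y) (d + 1 - m 0)) hM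
        _ _ (by omega) _) _ hS
      · intro y hy
        omega
      · intro y hy
        omega
      · show 100 * M ^ 15 ≤ min (d + 1 - (d - m 1 + 1 - 1)) (d + 1 - m 0)
        omega
      · intro x
        rw [mem_rowsD, mem_DT2]
        omega
  · -- the cubic
    have hsle := sum_le_of_red hm hd hj3 hj
    have h2j : m (j - 1) ≤ m 2 := hm (by omega)
    have hlt : ∑ i ∈ Finset.range j, m i < 3 * d := by
      rcases Nat.lt_or_ge j 9 with hj9 | hj9
      · have : 1 * m 2 ≤ (9 - j) * m 2 := Nat.mul_le_mul_right _ (by omega)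
        omega
      · have hj9' : j = 9 := by omega
        have hK := hK hj9'
        rw [Finset.sum_range_succ] at hK
        rw [hj9']
        omega
    obtain ⟨hsum, hR⟩ := red_tr hm hd hj3 hj hlt
    apply cubic_finish s m d j hm hs hj hR
    apply GoodFor.swap
    have hlev := lev_red hR.ha hR.hd
    have e2 : tr m j 2 = m 2 := tr_lt (by omega)
    have e0 : tr m j 0 = m 0 := tr_lt (by omega)
    have hk : kap d (tr m j) = 3 * d - ∑ i ∈ Finset.range j, m i := by
      rw [kap, hsum]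
    have h12 : m 2 ≤ m 1 := hm (by norm_num)
    have h01 : m 1 ≤ m 0 := hm (by norm_num)
    have hH0 : 50 * M ^ 3 ≤ HS d (tr m j) 0 := by
      have := lt_HS_zero hR (b := 50 * M ^ 3) (by rw [e0]; omega)
      omega
    have hD : ∀ x : ℕ × ℕ, x ∈ (DS d (tr m j) (d + 1)).image Prod.swap ↔
        x.2 < kap d (tr m j) ∧ x.1 < HS d (tr m j) x.2 := fun x => swap_DS hR (by omega) x
    rcases Nat.lt_or_ge j 9 with hj9 | hj9
    · have hkk : (9 - j) * (4 * M ^ 2) ≤ kap d (tr m j) := by
        rw [hk]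
        have : (9 - j) * (4 * M ^ 2) ≤ (9 - j) * m 2 := Nat.mul_le_mul_left _ (by omega)
        omega
      apply goodFor_of_good (good_corner M (kap d (tr m j)) (9 - j) (HS d (tr m j)) hM (by omega)
        (by omega) (fun y _ => HS_anti d (tr m j) (Nat.le_succ y)) (fun y hy => HS_drop hR hy) hkk
        _ hH0) _ hS
      · intro y hy hy2
        have h5 : (9 - j) * (4 * M ^ 2) ≤ (9 - j) * (m (j - 1) - 1) :=
          Nat.mul_le_mul_left _ (by omega)
        have h6 := HS_corner hR hlev (A := m (j - 1)) (j := j) (x := y) (by rw [e2]; exact h2j)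
          (by omega) (fun i hi => by rw [tr_lt hi]; exact hm (by omega))
          (fun i hi _ => tr_ge hi) hy.le (by omega) (by omega)
        rw [h6]
        congr 1
        omega
      · intro x
        rw [mem_rowsD]
        exact hD x
    · have hj9' : j = 9 := by omega
      have hkk : M + 2 ≤ kap d (tr m j) := by
        rw [hk]
        have hK := hK hj9'
        rw [Finset.sum_range_succ] at hK
        rw [hj9'] at hMdef ⊢
        omega
      have h5 := HS_wall hR (x := kap d (tr m j) - 1) (by omega)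
      rw [tr_lt (by omega)] at h5
      apply goodFor_of_good (good_rows M (kap d (tr m j)) (HS d (tr m j)) hM
        (fun y _ => HS_anti d (tr m j) (Nat.le_succ y)) (fun y hy => HS_drop hR hy) hkk _) _ hS
      · refine le_trans ?_ h5
        rw [hj9'] at h1
        exact h1
      · intro x
        rw [mem_rowsD]
        exact hD x

/-- the case of at most nine points -/
theorem main_nine {s : ℕ} {m : ℕ → ℕ} {d : ℕ}
    (hm : Antitone m) (hs : ∀ i, s ≤ i → m i = 0) (hd : m 0 + m 1 + m 2 ≤ d)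
    (hK : ∑ i ∈ Finset.range 9, m i < 3 * d) (h9 : m 9 = 0) : Concl s m d := by
  obtain ⟨hsum, hR⟩ := red_tr hm hd (j := 9) (by norm_num) le_rfl hK
  apply cubic_finish s m d 9 hm hs le_rfl hR
  apply goodFor_zero
  intro i hi
  rw [Finset.mem_Ico] at hi
  have := hm hi.1
  omega

/-- the case of small multiplicities -/
theorem main_small {s : ℕ} {m : ℕ → ℕ} {d : ℕ}
    (hm : Antitone m) (hs : ∀ i, s ≤ i → m i = 0) (hd : m 0 + m 1 + m 2 ≤ d)
    (h0 : 1 ≤ m 0) (h1 : 10 * m 0 ^ 3 ≤ d) : Concl s m d := by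
  apply toric_finish s m d 0 hm hs (by norm_num) (by omega)
  rw [tr_ge le_rfl, tr_ge (Nat.zero_le 1)]
  apply goodFor_of_good (good_P2 (m 0) d h0 h1)
  · intro x
    rw [mem_DT2, mem_triD]
    omega
  · intro i _
    exact hm (Nat.zero_le _)

theorem exists_gap' {m : ℕ → ℕ} (h9 : 1 ≤ m 9) :
    (∃ j, 1 ≤ j ∧ j ≤ 9 ∧ 100 * m j ^ 15 ≤ m (j - 1)) ∨ m 0 ≤ (100 * m 9) ^ (16 ^ 9) := by
  have key : ∀ t ≤ 9, (∃ j, 1 ≤ j ∧ j ≤ 9 ∧ 100 * m j ^ 15 ≤ m (j - 1)) ∨
      m (9 - t) ≤ (100 * m 9) ^ (16 ^ t) := by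
    intro t
    induction t with
    | zero =>
      intro _
      right
      rw [pow_zero, pow_one, Nat.sub_zero]
      omega
    | succ t ih =>
      intro ht
      rcases ih (by omega) with h1 | h1
      · exact Or.inl h1
      · by_cases h2 : 100 * m (9 - t) ^ 15 ≤ m (9 - (t + 1))
        · left
          exact ⟨9 - t, by omega, by omega, by rw [show 9 - t - 1 = 9 - (t + 1) by omega]; exact h2⟩
        · right
          push Not at h2
          refine h2.le.trans ?_
          have h3 : m (9 - t) ^ 15 ≤ ((100 * m 9) ^ (16 ^ t)) ^ 15 := Nat.pow_le_pow_left h1 15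
          have h4 : 100 ≤ (100 * m 9) ^ (16 ^ t) := by
            calc 100 ≤ 100 * m 9 := by omega
              _ = (100 * m 9) ^ 1 := (pow_one _).symm
              _ ≤ _ := Nat.pow_le_pow_right (by omega) (Nat.one_le_pow _ _ (by norm_num))
          calc 100 * m (9 - t) ^ 15 ≤ (100 * m 9) ^ (16 ^ t) * ((100 * m 9) ^ (16 ^ t)) ^ 15 :=
                Nat.mul_le_mul h4 h3
            _ = (100 * m 9) ^ (16 ^ (t + 1)) := by
                rw [← pow_succ', ← pow_mul, ← pow_succ]
  exact key 9 le_rfl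

/-- **The main theorem.** -/
theorem main_half {s : ℕ} {m : ℕ → ℕ} {d : ℕ}
    (hm : Antitone m) (hs : ∀ i, s ≤ i → m i = 0) (hd : m 0 + m 1 + m 2 ≤ d)
    (hK : ∑ i ∈ Finset.range 10, m i + 2 ≤ 3 * d) (hN : (100 * m 9) ^ (2 ^ 38) ≤ d) :
    Concl s m d := by
  rcases Nat.eq_zero_or_pos (m 9) with h9 | h9
  · apply main_nine hm hs hd _ h9
    rw [Finset.sum_range_succ] at hK
    omega
  · rcases exists_gap' h9 with ⟨j, hj0, hj, h1⟩ | h1
    · exact main_T hm hs hd h9 hj0 hj (fun _ => hK) h1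
    · have h0 : 1 ≤ m 0 := le_trans h9 (hm (Nat.zero_le 9))
      apply main_small hm hs hd h0
      refine le_trans ?_ hN
      have e1 : 2 ^ 38 = 16 ^ 9 * 4 := by norm_num
      rw [e1, pow_mul]
      have h4 : 10 ≤ (100 * m 9) ^ (16 ^ 9) := by
        calc 10 ≤ 100 * m 9 := by omega
          _ = (100 * m 9) ^ 1 := (pow_one _).symm
          _ ≤ _ := Nat.pow_le_pow_right (by omega) (Nat.one_le_pow _ _ (by norm_num))
      generalize (100 * m 9) ^ (16 ^ 9) = B at h1 h4 ⊢
      calc 10 * m 0 ^ 3 ≤ B * B ^ 3 := Nat.mul_le_mul h4 (Nat.pow_le_pow_left h1 3)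
        _ = B ^ 4 := by ring

end Helper18.Cusp
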