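import Pool.Agent.Helper18.FlagLead

/-!
The transfer theorem: a linear system of plane curves degenerates to the region of monomials
given by an irreducible curve and a general point on it.
-/

open Module

noncomputable section

namespace Helper18.Flag

open Helper18.Shgh
open Helper18.Cusp (TC TC_eq_zero TC_sum ND ex0 ex0_coe finrank_ker_of_inj)
open Pool.Agent.Lead.Sh (E Row InjAt IndAt Inj Ind poly_inj rows mem_rows)

/-- the stages of the filtration of a linear system by the powers of `F` -/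
structure Stages (F : R2) (U : ℕ → Submodule ℂ R2) (B : ℕ) : Prop where
  fd : ∀ b, FiniteDimensional ℂ (U b)
  mul : ∀ b G, F * G ∈ U b ↔ G ∈ U (b + 1)
  bot : U B = ⊥

/-- the dimensions of the restrictions to the curve -/
def rk (U : ℕ → Submodule ℂ R2) (b : ℕ) : ℕ := finrank ℂ (U b) - finrank ℂ (U (b + 1))

variable {F : R2} {U : ℕ → Submodule ℂ R2} {B : ℕ}

theorem finrank_map_mkQ (h : Stages F U B) (hF : F ≠ 0) (b : ℕ) :
    finrank ℂ ((U b).map (IF F).mkQ) + finrank ℂ (U (b + 1)) = finrank ℂ (U b) := by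
  have := h.fd b
  have := h.fd (b + 1)
  have h1 := LinearMap.finrank_range_add_finrank_ker ((IF F).mkQ.domRestrict (U b))
  rw [LinearMap.range_domRestrict] at h1
  have h2 : (LinearMap.ker ((IF F).mkQ.domRestrict (U b))).map (U b).subtype =
      (U (b + 1)).map (LinearMap.mulLeft ℂ F) := by
    ext x
    constructor
    · rintro ⟨y, hy, rfl⟩
      have h3 : (IF F).mkQ (y : R2) = 0 := LinearMap.mem_ker.1 hy
      rw [mkQ_eq_zero] at h3
      obtain ⟨G, hG⟩ := h3
      refine ⟨G, ?_, hG.symm⟩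
      rw [SetLike.mem_coe, ← h.mul, ← hG]
      exact y.2
    · rintro ⟨G, hG, rfl⟩
      refine ⟨⟨F * G, (h.mul b G).2 hG⟩, ?_, rfl⟩
      rw [SetLike.mem_coe, LinearMap.mem_ker]
      change (IF F).mkQ (F * G) = 0
      rw [mkQ_eq_zero]
      exact Dvd.intro _ rfl
  have h3 := finrank_map_inj (U b).subtype_injective
    (LinearMap.ker ((IF F).mkQ.domRestrict (U b)))
  have h4 : Function.Injective (LinearMap.mulLeft ℂ F) := fun G H h =>
    mul_left_cancel₀ hF h
  rw [h2, finrank_map_inj h4] at h3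
  omega

theorem finrank_map_mkQ' (h : Stages F U B) (hF : F ≠ 0) (b : ℕ) :
    finrank ℂ ((U b).map (IF F).mkQ) = rk U b := by
  have := finrank_map_mkQ h hF b
  rw [rk]; omega

theorem rk_add (h : Stages F U B) (hF : F ≠ 0) (b : ℕ) :
    rk U b + finrank ℂ (U (b + 1)) = finrank ℂ (U b) := by
  have := finrank_map_mkQ h hF b
  rw [rk]; omega

/-- the region of monomials -/
def DR (U : ℕ → Submodule ℂ R2) (B : ℕ) : Finset (ℕ × ℕ) :=
  (Finset.range B).biUnion fun b => (Finset.range (rk U b)).image fun x => (x, b)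

theorem mem_DR {d : ℕ × ℕ} : d ∈ DR U B ↔ d.2 < B ∧ d.1 < rk U d.2 := by
  rw [DR, Finset.mem_biUnion]
  constructor
  · rintro ⟨b, hb, hd⟩
    rw [Finset.mem_image] at hd
    obtain ⟨x, hx, rfl⟩ := hd
    exact ⟨Finset.mem_range.1 hb, Finset.mem_range.1 hx⟩
  · rintro ⟨h1, h2⟩
    exact ⟨d.2, Finset.mem_range.2 h1, Finset.mem_image.2 ⟨d.1, Finset.mem_range.2 h2, rfl⟩⟩

theorem card_DR_aux (U : ℕ → Submodule ℂ R2) (B : ℕ) :
    (DR U B).card = ∑ b ∈ Finset.range B, rk U b := by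
  rw [DR, Finset.card_biUnion]
  · apply Finset.sum_congr rfl
    intro b _
    rw [Finset.card_image_of_injective, Finset.card_range]
    intro x y h
    exact (Prod.mk.inj h).1
  · intro i _ j _ hij
    change Disjoint _ _
    rw [Finset.disjoint_left]
    intro d hd hd'
    rw [Finset.mem_image] at hd hd'
    obtain ⟨t, _, rfl⟩ := hd
    obtain ⟨t', _, he⟩ := hd'
    exact hij (Prod.mk.inj he).2.symm

theorem sum_rk (h : Stages F U B) (hF : F ≠ 0) (b : ℕ) :
    ∑ i ∈ Finset.range b, rk U i + finrank ℂ (U b) = finrank ℂ (U 0) := by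
  induction b with
  | zero => simp
  | succ b ih => rw [Finset.sum_range_succ, add_assoc, rk_add h hF, ih]

theorem card_DR (h : Stages F U B) (hF : F ≠ 0) : (DR U B).card = finrank ℂ (U 0) := by
  have h1 := sum_rk h hF B
  rw [h.bot, finrank_bot, add_zero] at h1
  rw [card_DR_aux, h1]

theorem pow_mul_mem (h : Stages F U B) {b : ℕ} : ∀ {c : ℕ} {G : R2}, G ∈ U (b + c) →
    F ^ c * G ∈ U b := by
  intro c
  induction c with
  | zero => intro G h; simpa using h
  | succ c ih =>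
    intro G hG
    rw [pow_succ, mul_assoc]
    apply ih
    rw [h.mul]
    exact hG

/-- the point of the chart -/
def ptC (O : Fin 2 → ℂ) (g : Polynomial ℂ) (t : ℂ) (β : ℕ) (Q : ℕ → ℂ × ℂ) (k : ℕ) : Fin 2 → ℂ :=
  ![O 0 + t * (Q k).1, g.eval (t * (Q k).1) + t ^ β * (Q k).2]

theorem exists_family (h : Stages F U B) (hF : Irreducible F) (hFy : ¬ F ∣ DY F) :
    ∃ (O : Fin 2 → ℂ) (g : Polynomial ℂ) (β : ℕ) (C : ℕ × ℕ → R2),
      ∀ d ∈ DR U B, C d ∈ U 0 ∧ WL β (Ch O g (C d)) d := by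
  have h1 : ∀ b : ℕ, ∃ N : R2, ¬ F ∣ N ∧ ∀ O : Fin 2 → ℂ, MvPolynomial.eval O F = 0 →
        MvPolynomial.eval O N ≠ 0 → MvPolynomial.eval O (DY F) ≠ 0 →
        ∀ (g : Polynomial ℂ) (n : ℕ), g.eval 0 = O 1 → rk U b ≤ n → Polynomial.X ^ n ∣ gm O g F →
        ∀ f ∈ U b, Polynomial.X ^ (rk U b) ∣ gm O g f → F ∣ f := fun b =>
    exists_general hF hFy (rk U b) (U b) (h.fd b) (finrank_map_mkQ' h hF.ne_zero b)
  choose N hN0 hN using h1
  obtain ⟨O, hO, hO1⟩ := exists_point hF (g := DY F * ∏ b ∈ Finset.range B, N b) (by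
    intro h1
    rcases hF.prime.dvd_or_dvd h1 with h2 | h2
    · exact hFy h2
    · obtain ⟨b, _, hb⟩ := (Prime.dvd_finsetProd_iff hF.prime _).1 h2
      exact hN0 b hb)
  rw [map_mul, map_prod] at hO1
  have hO2 := left_ne_zero_of_mul hO1
  have hO3 := Finset.prod_ne_zero_iff.1 (right_ne_zero_of_mul hO1)
  obtain ⟨β, hβ⟩ : ∃ β : ℕ, ∀ b ∈ Finset.range B, rk U b < β :=
    ⟨(Finset.range B).sup (rk U) + 1, fun b hb => Nat.lt_succ_of_le (Finset.le_sup hb)⟩
  obtain ⟨g, hg, hgF⟩ := exists_branch hO hO2 (β + 1)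
  have h3 : ∀ d : ℕ × ℕ, ∃ G : R2, d ∈ DR U B → G ∈ U 0 ∧ WL β (Ch O g G) d := by
    intro d
    by_cases hd : d ∈ DR U B
    · have hd' := mem_DR.1 hd
      have hβd := hβ d.2 (Finset.mem_range.2 hd'.1)
      have h4 := hN d.2 O hO (hO3 d.2 (Finset.mem_range.2 hd'.1)) hO2 g (β + 1) hg (by omega) hgF
      have := h.fd d.2
      rw [← finrank_map_mkQ' h hF.ne_zero] at h4 hβd
      obtain ⟨f, hf, h5, h6⟩ := exists_taylor (by omega) hgF h4 d.1 (by
        rw [finrank_map_mkQ' h hF.ne_zero]; exact hd'.2)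
      refine ⟨F ^ d.2 * f, fun _ => ⟨?_, ?_⟩⟩
      · apply pow_mul_mem h
        rw [zero_add]
        exact hf
      · exact wl_chart (by omega) hg hgF hO2 (by
          rw [finrank_map_mkQ' h hF.ne_zero] at hβd
          omega) h5 h6
    · exact ⟨0, fun h => absurd h hd⟩
  choose C hC using h3
  exact ⟨O, g, β, C, fun d hd => hC d hd⟩

/-- the linear system with all the conditions -/
def KU (U : Submodule ℂ R2) (m : ℕ → ℕ) (S : Finset ℕ) (P : ℕ → Fin 2 → ℂ) : Submodule ℂ R2 :=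
  U ⊓ ⨅ k ∈ S, Submodule.restrictScalars ℂ (mI (P k) ^ m k : Ideal R2)

theorem mem_KU {U : Submodule ℂ R2} {m : ℕ → ℕ} {S : Finset ℕ} {P : ℕ → Fin 2 → ℂ} {G : R2} :
    G ∈ KU U m S P ↔ G ∈ U ∧ ∀ k ∈ S, G ∈ mI (P k) ^ m k := by
  rw [KU, Submodule.mem_inf]
  simp only [Submodule.mem_iInf, Submodule.restrictScalars_mem]

section

variable {O : Fin 2 → ℂ} {g : Polynomial ℂ} {β : ℕ} {C : ℕ × ℕ → R2}

/-- the parametrization of the system -/
def TU (hC : ∀ d ∈ DR U B, C d ∈ U 0 ∧ WL β (Ch O g (C d)) d) :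
    (DR U B → ℂ) →ₗ[ℂ] U 0 where
  toFun c := ⟨∑ d : DR U B, c d • C d, Submodule.sum_mem _ fun d _ =>
    Submodule.smul_mem _ _ (hC d d.2).1⟩
  map_add' c c' := by
    apply Subtype.ext
    simp only [Pi.add_apply, add_smul, Finset.sum_add_distrib, Submodule.coe_add]
  map_smul' c c' := by
    apply Subtype.ext
    simp only [Pi.smul_apply, smul_eq_mul, mul_smul, RingHom.id_apply, Submodule.coe_smul,
      Finset.smul_sum]

theorem TU_apply (hC : ∀ d ∈ DR U B, C d ∈ U 0 ∧ WL β (Ch O g (C d)) d) (c : DR U B → ℂ) :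
    (TU hC c : R2) = ∑ d : DR U B, c d • C d := rfl

theorem TU_inj (hC : ∀ d ∈ DR U B, C d ∈ U 0 ∧ WL β (Ch O g (C d)) d) :
    Function.Injective (TU hC) := by
  rw [injective_iff_map_eq_zero]
  intro c hc
  have h1 : ∑ d : DR U B, c d • C d = 0 := by
    rw [← TU_apply hC, hc]; rfl
  have h2 : ∑ d ∈ DR U B, ex0 c d • Ch O g (C d) = 0 := by
    rw [← Finset.sum_coe_sort]
    have h3 := congrArg (Ch O g) h1
    rw [map_sum, map_zero] at h3
    rw [← h3]
    apply Finset.sum_congr rfl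
    intro d _
    rw [ex0_coe, map_smul]
  have h3 := wl_indep (fun d hd => (hC d hd).2) h2
  funext d
  rw [← ex0_coe c d, h3 d d.2]
  rfl

theorem TU_surj (h : Stages F U B) (hF : F ≠ 0)
    (hC : ∀ d ∈ DR U B, C d ∈ U 0 ∧ WL β (Ch O g (C d)) d) :
    Function.Surjective (TU hC) := by
  have := h.fd 0
  rw [← LinearMap.injective_iff_surjective_of_finrank_eq_finrank]
  · exact TU_inj hC
  · rw [finrank_fintype_fun_eq_card, Fintype.card_coe, card_DR h hF]

/-- the conditions in terms of the deformed coefficients -/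
theorem cond_of_mem (hC : ∀ d ∈ DR U B, C d ∈ U 0 ∧ WL β (Ch O g (C d)) d)
    {t : ℂ} (Q : ℕ → ℂ × ℂ) {m : ℕ → ℕ} {S : Finset ℕ}
    (c : DR U B → ℂ) (hc : (TU hC c : R2) ∈ KU (U 0) m S (ptC O g t β Q)) {r : Row}
    (hr : r ∈ rows m S) :
    ∑ d : DR U B, (c d * t ^ Pool.Agent.Lead.Sh.wt (1, β) (d : ℕ × ℕ)) *
      (ND β (Ch O g (C d)) d (Q r.1) r.2).eval t = 0 := by
  rw [mem_rows] at hr
  have h1 := Ch_mem (P := ![t * (Q r.1).1, t ^ β * (Q r.1).2]) ((mem_KU.1 hc).2 r.1 hr.1)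
  have h2 := TC_eq_zero (Q := (t * (Q r.1).1, t ^ β * (Q r.1).2)) h1 hr.2
  rw [TU_apply, map_sum, Finset.sum_congr rfl (fun d _ => map_smul (Ch O g) (c d) (C d)),
    TC_sum] at h2
  have h3 : ∀ d : DR U B, (c d * t ^ Pool.Agent.Lead.Sh.wt (1, β) (d : ℕ × ℕ)) *
      (ND β (Ch O g (C d)) d (Q r.1) r.2).eval t = t ^ Pool.Agent.Lead.Sh.wt (1, β) r.2 *
        (c d * TC (Ch O g (C d)) (t * (Q r.1).1, t ^ β * (Q r.1).2) r.2) := by
    intro d
    rw [mul_assoc, ← ND_eval' (hC d d.2).2]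
    ring
  rw [Finset.sum_congr rfl (fun d _ => h3 d), ← Finset.mul_sum, h2, mul_zero]

end

theorem transfer_inj {m : ℕ → ℕ} {S : Finset ℕ} (hU : Stages F U B) (hF : Irreducible F)
    (hFy : ¬ F ∣ DY F) (h : Inj (DR U B) (rows m S)) :
    ∃ P : ℕ → Fin 2 → ℂ, KU (U 0) m S P = ⊥ := by
  obtain ⟨Q, hQ⟩ := h
  obtain ⟨O, g, β, C, hC⟩ := exists_family hU hF hFy
  obtain ⟨t, ht, hinj⟩ := poly_inj
    (fun (r : ↥(rows m S)) (d : ↥(DR U B)) => ND β (Ch O g (C d)) d (Q (r : Row).1) (r : Row).2) (by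
      intro c hc
      have h1 := hQ (fun d => ex0 c d * MvPolynomial.coeff (e2 d.1 d.2) (Ch O g (C d))) (by
        intro r hr
        refine Eq.trans ?_ (hc ⟨r, hr⟩)
        rw [← Finset.sum_coe_sort (DR U B)]
        apply Finset.sum_congr rfl
        intro d _
        rw [ex0_coe, ND_eval_zero' (hC d d.2).2, mul_assoc])
      funext d
      have h2 := h1 d d.2
      rw [ex0_coe] at h2
      rcases mul_eq_zero.1 h2 with h3 | h3
      · exact h3
      · exact absurd h3 (hC d d.2).2.1)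
  refine ⟨ptC O g t β Q, ?_⟩
  rw [Submodule.eq_bot_iff]
  intro G hG
  obtain ⟨c, hc⟩ := TU_surj hU hF.ne_zero hC ⟨G, (mem_KU.1 hG).1⟩
  have hc' : (TU hC c : R2) = G := by rw [hc]
  have h1 := hinj (fun d => c d * t ^ Pool.Agent.Lead.Sh.wt (1, β) (d : ℕ × ℕ)) (by
    intro r
    apply cond_of_mem hC Q c (by rw [hc']; exact hG) r.2)
  have h2 : c = 0 := by
    funext d
    have h3 := congrFun h1 d
    simp only [Pi.zero_apply] at h3
    rcases mul_eq_zero.1 h3 with h4 | h4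
    · exact h4
    · exact absurd h4 (pow_ne_zero _ ht)
  rw [← hc', h2, map_zero]
  rfl

theorem transfer_ind {m : ℕ → ℕ} {S : Finset ℕ} (hU : Stages F U B) (hF : Irreducible F)
    (hFy : ¬ F ∣ DY F) (h : Ind (DR U B) (rows m S)) :
    ∃ P : ℕ → Fin 2 → ℂ, finrank ℂ (KU (U 0) m S P) + (rows m S).card ≤ finrank ℂ (U 0) := by
  obtain ⟨Q, hQ⟩ := h
  obtain ⟨O, g, β, C, hC⟩ := exists_family hU hF hFy
  have := hU.fd 0
  obtain ⟨t, ht, hinj⟩ := poly_inj
    (fun (d : ↥(DR U B)) (r : ↥(rows m S)) => ND β (Ch O g (C d)) d (Q (r : Row).1) (r : Row).2) (by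
      intro l hl
      let l' : Row → ℂ := fun r => if h : r ∈ rows m S then l ⟨r, h⟩ else 0
      have hl' : ∀ r : rows m S, l' r = l r := fun r => dif_pos r.2
      have h1 := hQ l' (by
        intro d hd
        have h2 := hl ⟨d, hd⟩
        have h3 : MvPolynomial.coeff (e2 d.1 d.2) (Ch O g (C d)) *
            ∑ r ∈ rows m S, l' r * E r.2 d (Q r.1).1 (Q r.1).2 = 0 := by
          refine Eq.trans ?_ h2
          rw [← Finset.sum_coe_sort (rows m S), Finset.mul_sum]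
          apply Finset.sum_congr rfl
          intro r _
          rw [hl', ND_eval_zero' (hC d hd).2]
          ring
        rcases mul_eq_zero.1 h3 with h4 | h4
        · exact absurd h4 (hC d hd).2.1
        · exact h4)
      funext r
      rw [← hl' r, h1 r r.2]
      rfl)
  refine ⟨ptC O g t β Q, ?_⟩
  let M : Matrix (rows m S) (DR U B) ℂ := Matrix.of fun r d =>
    (ND β (Ch O g (C d)) d (Q (r : Row).1) (r : Row).2).eval t
  have h1 := finrank_ker_of_inj M (fun l hl => hinj l hl)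
  rw [Fintype.card_coe, Fintype.card_coe, card_DR hU hF.ne_zero] at h1
  -- rescaling
  let W : (DR U B → ℂ) ≃ₗ[ℂ] (DR U B → ℂ) := LinearEquiv.piCongrRight fun d =>
    LinearEquiv.smulOfNeZero ℂ ℂ (t ^ Pool.Agent.Lead.Sh.wt (1, β) (d : ℕ × ℕ)) (pow_ne_zero _ ht)
  have hW : ∀ c d, W c d = t ^ Pool.Agent.Lead.Sh.wt (1, β) (d : ℕ × ℕ) * c d := fun c d => rfl
  let Φ : (DR U B → ℂ) ≃ₗ[ℂ] U 0 := LinearEquiv.ofBijective (TU hC)
    ⟨TU_inj hC, TU_surj hU hF.ne_zero hC⟩
  let J : U 0 →ₗ[ℂ] (DR U B → ℂ) := W.toLinearMap ∘ₗ Φ.symm.toLinearMap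
  have hJ : Function.Injective J := W.injective.comp Φ.symm.injective
  let K : Submodule ℂ (U 0) := (KU (U 0) m S (ptC O g t β Q)).comap (U 0).subtype
  have hK : K.map J ≤ LinearMap.ker M.mulVecLin := by
    rintro _ ⟨G, hG, rfl⟩
    rw [LinearMap.mem_ker, Matrix.mulVecLin_apply]
    funext r
    rw [Matrix.mulVec, dotProduct, Pi.zero_apply]
    have hG' : (TU hC (Φ.symm G) : R2) ∈ KU (U 0) m S (ptC O g t β Q) := by
      have : TU hC (Φ.symm G) = G := Φ.apply_symm_apply G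
      rw [this]
      exact hG
    rw [← cond_of_mem hC Q (Φ.symm G) hG' r.2]
    apply Finset.sum_congr rfl
    intro d _
    have : J G d = t ^ Pool.Agent.Lead.Sh.wt (1, β) (d : ℕ × ℕ) * Φ.symm G d := rfl
    rw [this]
    change (ND β (Ch O g (C d)) d (Q (r : Row).1) (r : Row).2).eval t * _ = _
    ring
  have h2 := Submodule.finrank_mono hK
  rw [finrank_map_inj hJ] at h2
  have h3 : finrank ℂ K = finrank ℂ (KU (U 0) m S (ptC O g t β Q)) := by
    have h4 : K.map (U 0).subtype = KU (U 0) m S (ptC O g t β Q) := by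
      rw [Submodule.map_comap_subtype, inf_eq_right]
      intro x hx
      exact (mem_KU.1 hx).1
    rw [← h4, finrank_map_inj (U 0).subtype_injective]
  omega

end Helper18.Flag
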