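import Mathlib
import Pool.Agent.Helper18.CuspThin
import Pool.Agent.Helper18.FlagTransfer

/-!
The region of a linear system along a curve of the pencil: a strip with a short tail.
-/

set_option autoImplicit false

open Module

noncomputable section

namespace Helper18.Slab

open Helper18.Shgh Helper18.Cusp
open Pool.Agent.Helper43.Ah (Good rowsD mem_rowsD)
open Pool.Agent.Helper39.Ah (StripOne T2 strip_good)

/-- the length of the row `y` -/
def HR (r : ℕ → ℕ) (B y : ℕ) : ℕ := ((Finset.range B).filter fun b => y < r b).card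

variable {r : ℕ → ℕ} {B : ℕ}

theorem lt_HR (hr : Antitone r) {b y : ℕ} : b < HR r B y ↔ b < B ∧ y < r b := by
  have h1 : (Finset.range B).filter (fun b => y < r b) = Finset.range (HR r B y) := by
    have hsub : (Finset.range B).filter (fun b => y < r b) ⊆ Finset.range (HR r B y) := by
      intro b hb
      rw [Finset.mem_filter, Finset.mem_range] at hb
      rw [Finset.mem_range]
      have h2 : Finset.range (b + 1) ⊆ (Finset.range B).filter (fun b => y < r b) := by
        intro c hc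
        rw [Finset.mem_range] at hc
        rw [Finset.mem_filter, Finset.mem_range]
        exact ⟨by omega, lt_of_lt_of_le hb.2 (hr (by omega))⟩
      have h3 := Finset.card_le_card h2
      rw [Finset.card_range] at h3
      exact h3
    apply Finset.eq_of_subset_of_card_le hsub
    rw [Finset.card_range]
    exact le_rfl
  rw [← Finset.mem_range, ← h1, Finset.mem_filter, Finset.mem_range]

theorem HR_ge (hr : Antitone r) {b₀ W y : ℕ} (hB : b₀ ≤ B) (h : ∀ b < b₀, r b = W) (hy : y < W) :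
    b₀ ≤ HR r B y := by
  rcases Nat.eq_zero_or_pos b₀ with h0 | h0
  · omega
  · have : b₀ - 1 < HR r B y := (lt_HR hr).2 ⟨by omega, by rw [h _ (by omega)]; exact hy⟩
    omega

theorem HR_le {b₀ y : ℕ} (hB : b₀ ≤ B) : HR r B y ≤ b₀ + ∑ b ∈ Finset.Ico b₀ B, r b := by
  have h1 : (Finset.range B).filter (fun b => y < r b) ⊆
      Finset.range b₀ ∪ (Finset.Ico b₀ B).filter (fun b => y < r b) := by
    intro b hb
    rw [Finset.mem_filter, Finset.mem_range] at hb
    rw [Finset.mem_union, Finset.mem_range, Finset.mem_filter, Finset.mem_Ico]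
    by_cases h : b < b₀
    · exact Or.inl h
    · exact Or.inr ⟨⟨by omega, hb.1⟩, hb.2⟩
  have h2 := (Finset.card_le_card h1).trans (Finset.card_union_le _ _)
  rw [Finset.card_range] at h2
  refine h2.trans (Nat.add_le_add_left ?_ _)
  rw [Finset.card_eq_sum_ones]
  calc ∑ b ∈ (Finset.Ico b₀ B).filter (fun b => y < r b), 1 ≤
      ∑ b ∈ (Finset.Ico b₀ B).filter (fun b => y < r b), r b := by
        apply Finset.sum_le_sum
        intro b hb
        rw [Finset.mem_filter] at hb
        omega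
    _ ≤ ∑ b ∈ Finset.Ico b₀ B, r b := by
        apply Finset.sum_le_sum_of_subset
        exact Finset.filter_subset _ _

/-- **Fat points on a strip with a short tail.** -/
theorem good_tail {M W b₀ τ : ℕ} (hM : 1 ≤ M) (hW : M + 2 ≤ W) (hr : Antitone r)
    (hB : b₀ ≤ B) (h : ∀ b < b₀, r b = W) (hτ : ∑ b ∈ Finset.Ico b₀ B, r b ≤ τ)
    (hT : T2 TSf M W τ ≤ b₀) (h0 : 1 ≤ b₀) {D : Finset (ℕ × ℕ)}
    (hD : ∀ d, d ∈ D ↔ d.2 < B ∧ d.1 < r d.2) {m : ℕ → ℕ} {S : Finset ℕ}
    (hS : ∀ i ∈ S, m i ≤ M) : GoodFor D m S := by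
  have hge : ∀ y < W, b₀ ≤ HR r B y := fun y hy => HR_ge hr hB h hy
  have hle : ∀ y, HR r B y ≤ b₀ + τ := fun y =>
    (HR_le hB).trans (Nat.add_le_add_left hτ _)
  have hrW : ∀ b, r b ≤ W := fun b => by
    have := hr (Nat.zero_le b)
    rw [h 0 (by omega)] at this
    exact this
  have hgood := strip_good stripOne_TSf TSf_mono M W τ hM hW (fun y => HR r B (W - 1 - y)) (by
    intro i hi j hj
    have h1 := hle (W - 1 - i)
    have h2 := hge (W - 1 - j) (by omega)
    show HR r B (W - 1 - i) ≤ HR r B (W - 1 - j) + τ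
    omega) (by
    intro j hj
    exact hT.trans (hge (W - 1 - j) (by omega)))
  have e : rowsD W (fun y => (fun y => HR r B (W - 1 - y)) (W - 1 - y)) = rowsD W (HR r B) := by
    apply Pool.Agent.Helper43.Ah.rowsD_congr
    intro y hy
    show HR r B (W - 1 - (W - 1 - y)) = HR r B y
    rw [show W - 1 - (W - 1 - y) = y by omega]
  rw [e] at hgood
  apply GoodFor.swap
  apply goodFor_of_good hgood _ hS
  intro x
  rw [mem_rowsD, lt_HR hr, Finset.mem_image]
  constructor
  · rintro ⟨c, hc, rfl⟩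
    rw [hD] at hc
    simp only [Prod.fst_swap, Prod.snd_swap]
    exact ⟨lt_of_lt_of_le hc.2 (hrW _), hc⟩
  · intro hx
    refine ⟨x.swap, ?_, Prod.swap_swap x⟩
    rw [hD]
    exact hx.2

theorem T2_slab (M W : ℕ) (hM : 1 ≤ M) (hW : W ≤ 6 * M ^ 2) :
    T2 TSf M W (10 * M ^ 2) ≤ 200 * M ^ 15 := by
  have hp : ∀ a b : ℕ, a ≤ b → M ^ a ≤ M ^ b := fun a b h => Nat.pow_le_pow_right hM h
  have e1 : TSf M W 1 ≤ 6 * M ^ 6 := by
    unfold TSf TS
    calc 2 * M ^ 5 * (1 + 2 * M) ≤ 2 * M ^ 5 * (M + 2 * M) := by gcongr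
      _ = 6 * M ^ 6 := by ring
  have e2 : W * (TSf M W 1 + 1) + 1 ≤ 43 * M ^ 8 := by
    have h6 : 1 ≤ M ^ 6 := Nat.one_le_pow _ _ hM
    have h8 : 1 ≤ M ^ 8 := Nat.one_le_pow _ _ hM
    calc W * (TSf M W 1 + 1) + 1 ≤ 6 * M ^ 2 * (6 * M ^ 6 + M ^ 6) + M ^ 8 := by gcongr
      _ = 43 * M ^ 8 := by ring
  have e3 : Pool.Agent.Helper39.Ah.DD TSf M W (10 * M ^ 2 + (M + 1).choose 2) ≤ 54 * M ^ 9 := by
    unfold Pool.Agent.Helper39.Ah.DD
    have h1 := choose_le_sq M hM
    calc 10 * M ^ 2 + (M + 1).choose 2 + M * (W * (TSf M W 1 + 1) + 1) ≤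
        10 * M ^ 9 + M ^ 9 + M * (43 * M ^ 8) := by
          have := hp 2 9 (by norm_num)
          have h2 : M * (W * (TSf M W 1 + 1) + 1) ≤ M * (43 * M ^ 8) :=
            Nat.mul_le_mul_left _ e2
          omega
      _ = 54 * M ^ 9 := by ring
  unfold T2
  set D := Pool.Agent.Helper39.Ah.DD TSf M W (10 * M ^ 2 + (M + 1).choose 2) with hD
  have e4 : TSf M W D ≤ 112 * M ^ 14 := by
    unfold TSf TS
    have h1 : 2 * M ≤ 2 * M ^ 9 := by
      have := hp 1 9 (by norm_num)
      rw [pow_one] at this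
      omega
    calc 2 * M ^ 5 * (D + 2 * M) ≤ 2 * M ^ 5 * (54 * M ^ 9 + 2 * M ^ 9) := by
          apply Nat.mul_le_mul_left
          omega
      _ = 112 * M ^ 14 := by ring
  calc M * (TSf M W D + D) ≤ M * (112 * M ^ 14 + 88 * M ^ 14) := by
        apply Nat.mul_le_mul_left
        have := hp 9 14 (by norm_num)
        omega
    _ = 200 * M ^ 15 := by ring

end Helper18.Slab
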