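import Mathlib
import Pool.Agent.Helper18.SlabShape
import Pool.Agent.Helper18.NodDim

/-!
The slab: systems whose first nine multiplicities form a system of small anticanonical degree.
-/

set_option autoImplicit false

open Module

noncomputable section

namespace Helper18.Slab

open Helper18.Shgh Helper18.Cusp Helper18.Flag
open Helper18.Nod
open Pool.Agent.Lead.Sh (Inj Ind rows mem_rows)

/-- a curve of class `-kK`, irreducible, on the blow-up of the nine points with parameters `z` of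
the nodal cubic -/
structure Pencil (k : ℕ) (z : ℕ → ℂ) (F : R2) : Prop where
  good : GoodZ z
  irr : Irreducible F
  notdvd : ¬ F ∣ cn
  ndy : ¬ F ∣ DY F
  mul : ∀ (n : ℤ) (a : ℕ → ℕ) (G : R2), F * G ∈ NS z n a ↔ G ∈ NS z (n - 3 * k) (fun i => a i - k)

variable {k : ℕ} {z : ℕ → ℂ} {F : R2}

/-- the stages -/
def Uk (k : ℕ) (z : ℕ → ℂ) (n : ℤ) (a : ℕ → ℕ) (b : ℕ) : Submodule ℂ R2 := NB z n a (k * b)

theorem stages (hP : Pencil k z F) (hk : 1 ≤ k) (n : ℕ) (a : ℕ → ℕ) :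
    Stages F (Uk k z n a) (n + 1) where
  fd b := by rw [Uk]; infer_instance
  mul b G := by
    rw [Uk, Uk, hP.mul]
    have e1 : (n : ℤ) - 3 * ((k * b : ℕ) : ℤ) - 3 * k = n - 3 * ((k * (b + 1) : ℕ) : ℤ) := by
      push_cast; ring
    have e2 : (fun i => a i - k * b - k) = fun i => a i - k * (b + 1) := by
      funext i
      rw [mul_add, mul_one]; omega
    rw [e1, e2]
  bot := by
    rw [Uk, Submodule.eq_bot_iff]
    rintro G ⟨h1, -⟩
    have h2 : (n : ℤ) - 3 * ((k * (n + 1) : ℕ) : ℤ) < 0 := by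
      have : 1 * (n + 1) ≤ k * (n + 1) := Nat.mul_le_mul_right _ hk
      push_cast at this ⊢
      have h3 : ((1 * (n + 1) : ℕ) : ℤ) ≤ ((k * (n + 1) : ℕ) : ℤ) := by exact_mod_cast this
      push_cast at h3
      linarith
    rw [V_neg h2] at h1
    exact h1

theorem cn_pow_mul_mem (hz : GoodZ z) {n : ℤ} {a : ℕ → ℕ} : ∀ (c : ℕ) (G : R2),
    cn ^ c * G ∈ NS z n a ↔ G ∈ NS z (n - 3 * c) (fun i => a i - c) := by
  intro c
  induction c generalizing n a with
  | zero => intro G; simp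
  | succ c ih =>
    intro G
    rw [pow_succ', mul_assoc, cn_mul_mem_NS hz, ih]
    have e1 : n - 3 - 3 * (c : ℤ) = n - 3 * ((c + 1 : ℕ) : ℤ) := by push_cast; ring
    have e2 : (fun i => a i - 1 - c) = fun i => a i - (c + 1) := by funext i; omega
    rw [e1, e2]

theorem rk_antitone (hP : Pencil k z F) (hk : 1 ≤ k) (n : ℕ) (a : ℕ → ℕ) :
    Antitone (rk (Uk k z n a)) := by
  apply antitone_nat_of_succ_le
  intro b
  have hS := stages hP hk n a
  have hF0 := hP.irr.ne_zero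
  rw [← finrank_map_mkQ' hS hF0 (b + 1), ← finrank_map_mkQ' hS hF0 b]
  have := hS.fd b
  have := hS.fd (b + 1)
  let μ : R2 →ₗ[ℂ] R2 := LinearMap.mulLeft ℂ (cn ^ k)
  have hμ : ∀ x, μ x = cn ^ k * x := fun x => rfl
  have hle : IF F ≤ (IF F).comap μ := by
    intro x hx
    rw [Submodule.mem_comap, mem_IF, hμ]
    exact Dvd.dvd.mul_left (mem_IF.1 hx) _
  let φ := (IF F).mapQ (IF F) μ hle
  have hφ : Function.Injective φ := by
    rw [injective_iff_map_eq_zero]
    intro x hx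
    obtain ⟨y, rfl⟩ := (IF F).mkQ_surjective x
    have h1 : (IF F).mkQ (μ y) = 0 := hx
    rw [mkQ_eq_zero, hμ] at h1
    rw [mkQ_eq_zero]
    rcases hP.irr.prime.dvd_or_dvd h1 with h2 | h2
    · exact absurd (hP.irr.prime.dvd_of_dvd_pow h2) hP.notdvd
    · exact h2
  rw [← finrank_map_inj hφ]
  apply Submodule.finrank_mono
  rintro _ ⟨_, ⟨x, hx, rfl⟩, rfl⟩
  refine ⟨cn ^ k * x, ?_, rfl⟩
  rw [SetLike.mem_coe, Uk, cn_pow_mul_mem hP.good]
  rw [SetLike.mem_coe, Uk] at hx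
  have e1 : (n : ℤ) - 3 * ((k * b : ℕ) : ℤ) - 3 * k = n - 3 * ((k * (b + 1) : ℕ) : ℤ) := by
    push_cast; ring
  have e2 : (fun i => a i - k * b - k) = fun i => a i - k * (b + 1) := by
    funext i
    rw [mul_add, mul_one]; omega
  rw [e1, e2]
  exact hx

theorem chB_lin {n : ℕ} {a : ℕ → ℕ} (ha : ∀ i < 9, a 8 ≤ a i) {j : ℕ} (hj : j ≤ a 8) :
    chB n a j = chB n a 0 - 2 * j * (3 * n - ∑ i ∈ Finset.range 9, (a i : ℤ)) := by
  have h1 : ∀ i < 9, ((a i - j : ℕ) : ℤ) = a i - j := by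
    intro i hi
    have := ha i hi
    omega
  rw [chB, chB, sum9z, sum9z, sum9z, h1 0 (by norm_num), h1 1 (by norm_num), h1 2 (by norm_num),
    h1 3 (by norm_num), h1 4 (by norm_num), h1 5 (by norm_num), h1 6 (by norm_num),
    h1 7 (by norm_num), h1 8 (by norm_num)]
  push_cast
  simp only [Nat.sub_zero]
  ring

theorem chB_top {n : ℕ} {a : ℕ → ℕ} (ha : ∀ i < 9, a 8 ≤ a i) (κ : ℤ)
    (hκ : κ = 3 * n - ∑ i ∈ Finset.range 9, (a i : ℤ)) :
    chB n a (a 8) ≤ κ * κ + κ + 2 := by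
  set x : ℕ → ℤ := fun i => (a i : ℤ) - a 8 with hx
  have h1 : ∑ i ∈ Finset.range 9, ((a i - a 8 : ℕ) : ℤ) * (((a i - a 8 : ℕ) : ℤ) + 1) =
      ∑ i ∈ Finset.range 8, x i ^ 2 + ∑ i ∈ Finset.range 8, x i := by
    rw [Finset.sum_range_succ, Nat.sub_self, ← Finset.sum_add_distrib]
    simp only [Nat.cast_zero, zero_mul, add_zero]
    apply Finset.sum_congr rfl
    intro i hi
    rw [Finset.mem_range] at hi
    have := ha i (by omega)
    have e : ((a i - a 8 : ℕ) : ℤ) = x i := by simp only [hx]; omega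
    rw [e]; ring
  have h2 : ∑ i ∈ Finset.range 9, (a i : ℤ) = ∑ i ∈ Finset.range 8, x i + 9 * a 8 := by
    rw [Finset.sum_range_succ]
    have : ∑ i ∈ Finset.range 8, (a i : ℤ) = ∑ i ∈ Finset.range 8, (x i + a 8) := by
      apply Finset.sum_congr rfl
      intro i _
      simp only [hx]; ring
    rw [this, Finset.sum_add_distrib, Finset.sum_const, Finset.card_range]
    ring
  have h3 := sq_sum_le_card_mul_sum_sq (s := Finset.range 8) (f := x)
  rw [Finset.card_range] at h3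
  rw [chB, h1, hκ, h2]
  set S := ∑ i ∈ Finset.range 8, x i
  set Q := ∑ i ∈ Finset.range 8, x i ^ 2
  push_cast at h3
  nlinarith [sq_nonneg (8 * ((n : ℤ) - 3 * a 8) - 3 * S)]

theorem finrank_Uk (hP : Pencil k z F) {n : ℕ} {a : ℕ → ℕ} (hR : Red n a) {b : ℕ}
    (hb : k * b ≤ a 8) : 2 * (finrank ℂ (Uk k z n a b) : ℤ) =
      chB n a 0 - 2 * (k * b) * (3 * n - ∑ i ∈ Finset.range 9, (a i : ℤ)) := by
  have ha : ∀ i < 9, a 8 ≤ a i := fun i hi => hR.ha i 8 (by omega) (by norm_num)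
  rw [Uk, NB_eq hP.good hR (hb.trans (ha 2 (by norm_num))), chB_lin ha hb]
  push_cast
  ring

theorem good_slab {M : ℕ} (hM : 1 ≤ M) (hP : Pencil (M + 2) z F) {n : ℕ} {a : ℕ → ℕ}
    (hR : Red n a) (hκ : 3 * n ≤ ∑ i ∈ Finset.range 9, a i + (M + 1))
    (h8 : 1000 * M ^ 16 ≤ a 8) {m : ℕ → ℕ} {S : Finset ℕ} (hS : ∀ i ∈ S, m i ≤ M) :
    GoodFor (DR (Uk (M + 2) z n a) (n + 1)) m S := by
  set k := M + 2 with hk
  set κ := 3 * n - ∑ i ∈ Finset.range 9, a i with hκdef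
  have hsum := hR.hsum
  have hκ1 : 1 ≤ κ := by omega
  have hκM : κ ≤ M + 1 := by omega
  have hκz : (κ : ℤ) = 3 * n - ∑ i ∈ Finset.range 9, (a i : ℤ) := by
    have : (κ : ℤ) = ((3 * n : ℕ) : ℤ) - ((∑ i ∈ Finset.range 9, a i : ℕ) : ℤ) := by omega
    rw [this]; push_cast; ring
  have hS' := stages hP (by omega) n a
  have hF0 := hP.irr.ne_zero
  set b₀ := a 8 / k with hb₀
  have hkb : k * b₀ ≤ a 8 := Nat.mul_div_le _ _
  have hkb2 : a 8 < k * b₀ + k := by
    have := Nat.lt_div_mul_add (a := a 8) (b := k) (by omega)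
    rw [mul_comm]; exact this
  have h9 : 9 * a 8 < 3 * n := by
    obtain ⟨h1, h2, h3, h4, h5, h6, h7, h8⟩ := hR.chain
    rw [sum9] at hsum
    omega
  have hB : b₀ ≤ n + 1 := by
    have : b₀ ≤ a 8 := Nat.div_le_self _ _
    omega
  have hM15 : 1 ≤ M ^ 15 := Nat.one_le_pow _ _ hM
  have hb₀T : 200 * M ^ 15 ≤ b₀ := by
    rw [hb₀, Nat.le_div_iff_mul_le (by omega)]
    calc 200 * M ^ 15 * k ≤ 200 * M ^ 15 * (3 * M) := Nat.mul_le_mul_left _ (by omega)
      _ = 600 * M ^ 16 := by ring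
      _ ≤ 1000 * M ^ 16 := Nat.mul_le_mul_right _ (by norm_num)
      _ ≤ a 8 := h8
  -- the rows before the tail
  have hrk : ∀ b < b₀, rk (Uk k z n a) b = k * κ := by
    intro b hb
    have h1 : k * (b + 1) ≤ a 8 := le_trans (Nat.mul_le_mul_left _ hb) hkb
    have h2 : k * b ≤ a 8 := le_trans (Nat.mul_le_mul_left _ (Nat.le_succ b)) h1
    have e1 := finrank_Uk hP hR h1
    have e2 := finrank_Uk hP hR h2
    have e3 := rk_add hS' hF0 b
    rw [← hκz] at e1 e2
    have e4 : (rk (Uk k z n a) b : ℤ) + finrank ℂ (Uk k z n a (b + 1)) =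
        finrank ℂ (Uk k z n a b) := by exact_mod_cast e3
    have e5 : (rk (Uk k z n a) b : ℤ) = k * κ := by
      push_cast at e1
      linarith
    exact_mod_cast e5
  -- the tail
  have htail : finrank ℂ (Uk k z n a b₀) ≤ 10 * M ^ 2 := by
    have ha : ∀ i < 9, a 8 ≤ a i := fun i hi => hR.ha i 8 (by omega) (by norm_num)
    have e1 := finrank_Uk hP hR hkb
    have e2 := chB_top ha κ hκz
    rw [chB_lin ha le_rfl] at e2
    rw [← hκz] at e1 e2
    have e3 : ((a 8 : ℤ) - k * b₀) ≤ k := by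
      have : (a 8 : ℤ) < k * b₀ + k := by exact_mod_cast hkb2
      linarith
    have e4 : ((a 8 : ℤ) - k * b₀) * κ ≤ k * κ :=
      mul_le_mul_of_nonneg_right e3 (by positivity)
    have e5 : (κ : ℤ) ≤ M + 1 := by exact_mod_cast hκM
    have e6 : (κ : ℤ) * κ ≤ (M + 1) * (M + 1) := by
      apply mul_le_mul e5 e5 (by positivity) (by positivity)
    have e7 : (k : ℤ) * κ ≤ (M + 2) * (M + 1) := by
      have : (k : ℤ) = M + 2 := by rw [hk]; push_cast; ring
      rw [this]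
      exact mul_le_mul_of_nonneg_left e5 (by positivity)
    have e8 : (1 : ℤ) ≤ M := by exact_mod_cast hM
    have e9 : (finrank ℂ (Uk k z n a b₀) : ℤ) ≤ 10 * M ^ 2 := by
      nlinarith
    exact_mod_cast e9
  have hsumtail : ∑ b ∈ Finset.Ico b₀ (n + 1), rk (Uk k z n a) b ≤ 10 * M ^ 2 := by
    have e1 := sum_rk hS' hF0 (n + 1)
    have e2 := sum_rk hS' hF0 b₀
    rw [hS'.bot, finrank_bot, add_zero, Finset.range_eq_Ico,
      ← Finset.sum_Ico_consecutive _ (Nat.zero_le b₀) hB, ← Finset.range_eq_Ico] at e1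
    omega
  have hW : k * κ ≤ 6 * M ^ 2 := by
    calc k * κ ≤ (3 * M) * (2 * M) := Nat.mul_le_mul (by omega) (by omega)
      _ = 6 * M ^ 2 := by ring
  have hW2 : M + 2 ≤ k * κ := by
    calc M + 2 = k * 1 := by rw [mul_one]
      _ ≤ k * κ := Nat.mul_le_mul_left _ hκ1
  exact good_tail hM hW2 (rk_antitone hP (by omega) n a) hB hrk hsumtail
    ((T2_slab M (k * κ) hM hW).trans hb₀T) (by omega) (fun d => mem_DR) hS

/-- from special to general points -/
theorem finish9 {s : ℕ} {m : ℕ → ℕ} {d : ℕ} (hm : Antitone m) (hs : ∀ i, s ≤ i → m i = 0)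
    (q : ℕ → Fin 2 → ℂ) (P : ℕ → Fin 2 → ℂ)
    (h : (finrank ℂ (KU (SP (d : ℤ) (Finset.range 9) q m) m (Finset.Ico 9 s) P) : ℤ) ≤
      max (((d + 2).choose 2 : ℤ) - ∑ i : Fin s, ((m (i : ℕ) + 1).choose 2 : ℤ)) 0) :
    Concl s m d := by
  apply general_position hm (fun i => if i < 9 then q i else P i)
  refine le_trans ?_ h
  have h1 : SP (d : ℤ) (Finset.range s) (fun i => if i < 9 then q i else P i) m ≤
      KU (SP (d : ℤ) (Finset.range 9) q m) m (Finset.Ico 9 s) P := by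
    rintro G ⟨h1, h2⟩
    rw [mem_KU]
    refine ⟨⟨h1, fun i hi => ?_⟩, fun i hi => ?_⟩
    · rw [Finset.mem_range] at hi
      by_cases his : i < s
      · have := h2 i (Finset.mem_range.2 his)
        simp only [if_pos hi] at this
        exact this
      · rw [hs i (by omega), pow_zero, Ideal.one_eq_top]
        exact Submodule.mem_top
    · rw [Finset.mem_Ico] at hi
      have := h2 i (Finset.mem_range.2 hi.2)
      simp only [if_neg (not_lt.2 hi.1)] at this
      exact this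
  have hfd : FiniteDimensional ℂ (KU (SP (d : ℤ) (Finset.range 9) q m) m (Finset.Ico 9 s) P) :=
    Submodule.finiteDimensional_of_le (inf_le_left : _ ≤ SP (d : ℤ) (Finset.range 9) q m)
  exact_mod_cast Submodule.finrank_mono h1

theorem sum_split9 {m : ℕ → ℕ} {s : ℕ} (hs : ∀ i, s ≤ i → m i = 0) :
    2 * ∑ i : Fin s, ((m (i : ℕ) + 1).choose 2 : ℤ) =
      ∑ i ∈ Finset.range 9, (m i : ℤ) * ((m i : ℤ) + 1) +
        2 * ((∑ k ∈ Finset.Ico 9 s, (m k + 1).choose 2 : ℕ) : ℤ) := by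
  have h0 : ∀ i ∈ Finset.range 9, tr m 9 i = m i := fun i hi => tr_lt (Finset.mem_range.1 hi)
  have h1 := sum_split (m := m) (j := 9) le_rfl hs (fun x => (x : ℤ) * (x + 1)) (by simp)
  rw [Finset.sum_congr rfl (fun i hi => by rw [h0 i hi])] at h1
  rw [Fin.sum_univ_eq_sum_range (fun i => ((m i + 1).choose 2 : ℤ)) s, Finset.mul_sum,
    Finset.sum_congr rfl (fun i _ => two_choose (m i)), ← h1]
  congr 1
  push_cast
  rw [Finset.mul_sum]
  apply Finset.sum_congr rfl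
  intro i _
  rw [two_choose]

theorem main_slab {s : ℕ} {m : ℕ → ℕ} {d : ℕ} (hm : Antitone m) (hs : ∀ i, s ≤ i → m i = 0)
    (hd : m 0 + m 1 + m 2 ≤ d) (h9 : 1 ≤ m 9) (hP : Pencil (m 9 + 2) z F)
    (hlt : ∑ i ∈ Finset.range 9, m i < 3 * d)
    (hκ : 3 * d ≤ ∑ i ∈ Finset.range 9, m i + (m 9 + 1)) (h8 : 1000 * m 9 ^ 16 ≤ m 8) :
    Concl s m d := by
  have hR : Red d m := ⟨fun i j hij _ => hm hij, hd, hlt⟩
  have hG := good_slab h9 hP hR hκ h8 (m := m) (S := Finset.Ico 9 s) (by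
    intro i hi
    rw [Finset.mem_Ico] at hi
    exact hm hi.1)
  set k := m 9 + 2 with hk
  have hS' := stages hP (by omega) d m
  have hF0 := hP.irr.ne_zero
  have hU0 : Uk k z d m 0 = SP (d : ℤ) (Finset.range 9) (fun i => np (z i)) m := by
    rw [Uk, mul_zero]
    have e1 : (d : ℤ) - 3 * ((0 : ℕ) : ℤ) = d := by simp
    have e2 : (fun i => m i - 0) = m := by funext i; simp
    rw [NB, e1, e2]
  have hcard := card_DR hS' hF0
  have hfin := finrank_Uk hP hR (b := 0) (by rw [mul_zero]; exact Nat.zero_le _)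
  have hd1 : 2 * ((d + 2).choose 2 : ℤ) = (d + 1) * (d + 2) := by
    have := two_choose (d + 1)
    push_cast at this ⊢
    linarith
  set χ : ℤ := ((d + 2).choose 2 : ℤ) - ∑ i : Fin s, ((m (i : ℕ) + 1).choose 2 : ℤ) with hχ
  have hχ2 : χ = ((DR (Uk k z d m) (d + 1)).card : ℤ) -
      ((∑ k ∈ Finset.Ico 9 s, (m k + 1).choose 2 : ℕ) : ℤ) := by
    rw [hcard]
    have e1 := sum_split9 hs
    have e2 : chB (d : ℤ) m 0 = (d + 1) * (d + 2) -
        ∑ i ∈ Finset.range 9, (m i : ℤ) * ((m i : ℤ) + 1) := by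
      rw [chB]
      simp
    rw [e2] at hfin
    push_cast at hfin ⊢
    push_cast at e1
    linarith
  rcases le_total ((DR (Uk k z d m) (d + 1)).card) (∑ k ∈ Finset.Ico 9 s, (m k + 1).choose 2)
    with h | h
  · obtain ⟨P, hPP⟩ := transfer_inj hS' hP.irr hP.ndy (hG.1 h)
    apply finish9 hm hs (fun i => np (z i)) P
    rw [← hU0, hPP, finrank_bot]
    exact le_max_right _ _
  · obtain ⟨P, hPP⟩ := transfer_ind hS' hP.irr hP.ndy (hG.2 h)
    apply finish9 hm hs (fun i => np (z i)) P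
    rw [← hU0]
    rw [Pool.Agent.Lead.Sh.card_rows, ← hcard] at hPP
    apply le_max_of_le_left
    rw [← hχ, hχ2]
    have : (finrank ℂ (KU (Uk k z d m 0) m (Finset.Ico 9 s) P) : ℤ) +
        ((∑ k ∈ Finset.Ico 9 s, (m k + 1).choose 2 : ℕ) : ℤ) ≤
        (DR (Uk k z d m) (d + 1)).card := by exact_mod_cast hPP
    linarith

end Helper18.Slab
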