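import Pool.Agent.Helper18.ShghLim

open Module

noncomputable section

namespace Helper18.Shgh

theorem finrank_pi_le {κ : Type*} [Fintype κ] (C : κ → Submodule ℂ CR)
    [∀ i, FiniteDimensional ℂ (C i)] :
    FiniteDimensional ℂ (Submodule.pi Set.univ C) ∧
    finrank ℂ (Submodule.pi Set.univ C) ≤ ∑ i, finrank ℂ (C i) := by
  let ψ : (Submodule.pi Set.univ C) →ₗ[ℂ] (∀ i, C i) :=
    { toFun := fun x i => ⟨x.1 i, x.2 i trivial⟩
      map_add' := fun x y => rfl
      map_smul' := fun c x => rfl }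
  have hψ : Function.Injective ψ := by
    intro x y h
    apply Subtype.ext
    funext i
    exact congrArg Subtype.val (congrFun h i)
  refine ⟨FiniteDimensional.of_injective ψ hψ, ?_⟩
  have h1 := LinearMap.finrank_le_finrank_of_injective hψ
  rwa [finrank_pi_fintype] at h1

variable (q : ℕ → Pt) (m : ℕ → ℕ) (d j : ℕ) (E : Finset ℕ)

/-- conditions on the `k`-th coefficient -/
def CK (k : ℕ) : Submodule ℂ CR :=
  Eig 1 ⊓ (Fil (3 * d)).comap (mulL (pp ^ k)) ⊓
    ⨅ i ∈ Finset.range 9, (Ord (q i) (m i)).comap (mulL (pp ^ k))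

variable {q m d} in
theorem mem_CK {k : ℕ} {f : CR} : f ∈ CK q m d k ↔
    f ∈ Eig 1 ∧ f * pp ^ k ∈ Fil (3 * d) ∧ ∀ i ∈ Finset.range 9, f * pp ^ k ∈ Ord (q i) (m i) := by
  simp [CK, Submodule.mem_iInf, and_assoc, mulL]

/-- `Psi` as a linear map -/
def PsiL (w : ℂ) (b : ℕ) : (Fin (j + 1) → CR) →ₗ[ℂ] CR where
  toFun c := Psi j w c b
  map_add' c c' := by
    simp only [Psi, Pi.add_apply, smul_add, Finset.sum_add_distrib]
  map_smul' a c := by
    simp only [Psi, Pi.smul_apply, RingHom.id_apply, Finset.smul_sum]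
    exact Finset.sum_congr rfl fun k _ => smul_comm _ _ _

/-- the space of limits -/
def LP : Submodule ℂ (Fin (j + 1) → CR) :=
  Submodule.pi Set.univ (fun k : Fin (j + 1) => CK q m d k) ⊓
    ⨅ r ∈ E, ⨅ b ∈ Finset.range (j + 1), (Ord (q r) (m r - b)).comap (PsiL j (ev (q r) pp) b)

variable {q m d j E}

theorem mem_LP {c : Fin (j + 1) → CR} : c ∈ LP q m d j E ↔
    (∀ k : Fin (j + 1), c k ∈ CK q m d k) ∧
    ∀ r ∈ E, ∀ b ∈ Finset.range (j + 1), Psi j (ev (q r) pp) c b ∈ Ord (q r) (m r - b) := by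
  simp [LP, Submodule.mem_iInf, PsiL, Submodule.mem_pi]

/-- the coefficients of the associated polynomial -/
def HH (j : ℕ) (c : Fin (j + 1) → CR) (i : ℕ) : CR :=
  (Hp j (fun k => c k * pp ^ (k : ℕ))).coeff i

theorem HH_eq (j : ℕ) (c : Fin (j + 1) → CR) (i : ℕ) :
    HH j c i = ∑ k : Fin (j + 1), aa j k i • (c k * pp ^ (k : ℕ)) := coeff_Hp j _ i

/-- the coefficients as a linear map -/
def HHL (j i : ℕ) : (Fin (j + 1) → CR) →ₗ[ℂ] CR where
  toFun c := HH j c i
  map_add' c c' := by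
    simp only [HH_eq, Pi.add_apply, add_mul, smul_add, Finset.sum_add_distrib]
  map_smul' a c := by
    simp only [HH_eq, Pi.smul_apply, RingHom.id_apply, Finset.smul_sum, smul_mul_assoc]
    exact Finset.sum_congr rfl fun k _ => smul_comm _ _ _

theorem HHL_apply (j i : ℕ) (c : Fin (j + 1) → CR) : HHL j i c = HH j c i := rfl

theorem sg_mul_pp {f : CR} (hf : f ∈ Eig 1) (k : ℕ) :
    sg (f * pp ^ k) = ((-1 : ℂ) ^ k) • (f * pp ^ k) := by
  rw [sg_mul, mem_Eig_one.1 hf, sg_pow, sg_pp, neg_pow, ← mul_smul_comm]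
  congr 1
  rw [Algebra.smul_def, map_pow, map_neg, map_one]

theorem HH_mem_Fil {c : Fin (j + 1) → CR} (hc : c ∈ LP q m d j E) (i : ℕ) :
    HH j c i ∈ Fil (3 * d) := by
  rw [HH_eq]
  apply Submodule.sum_mem
  intro k _
  exact Submodule.smul_mem _ _ (mem_CK.1 ((mem_LP.1 hc).1 k)).2.1

theorem HH_mem_Ord {c : Fin (j + 1) → CR} (hc : c ∈ LP q m d j E) (i : ℕ) {l : ℕ}
    (hl : l ∈ Finset.range 9) : HH j c i ∈ Ord (q l) (m l) := by
  rw [HH_eq]
  apply Submodule.sum_mem
  intro k _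
  exact Submodule.smul_mem _ _ ((mem_CK.1 ((mem_LP.1 hc).1 k)).2.2 l hl)

theorem HH_mem_Ord_neg {c : Fin (j + 1) → CR} (hc : c ∈ LP q m d j E) (i : ℕ) {l : ℕ}
    (hl : l ∈ Finset.range 9) : HH j c i ∈ Ord (q l).neg (m l) := by
  rw [Ord_neg, HH_eq, map_sum]
  apply Submodule.sum_mem
  intro k _
  rw [map_smul, sg_mul_pp (mem_CK.1 ((mem_LP.1 hc).1 k)).1]
  exact Submodule.smul_mem _ _
    (Submodule.smul_mem _ _ ((mem_CK.1 ((mem_LP.1 hc).1 k)).2.2 l hl))

theorem HH_mem_Ord' {c : Fin (j + 1) → CR} (hc : c ∈ LP q m d j E) (i : ℕ) {r : ℕ}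
    (hr : r ∈ E) : HH j c i ∈ Ord (q r) (m r - i) :=
  coeff_Hp_mem_Ord rfl ((mem_LP.1 hc).2 r hr) i

theorem HH_symm {c : Fin (j + 1) → CR} (hc : c ∈ LP q m d j E) {i : ℕ} (hi : i ≤ j) :
    HH j c (j - i) = ((-1 : ℂ) ^ j) • sg (HH j c i) := by
  rw [HH_eq, HH_eq, map_sum, Finset.smul_sum]
  apply Finset.sum_congr rfl
  intro k _
  have hk : (k : ℕ) ≤ j := by omega
  rw [map_smul, sg_mul_pp (mem_CK.1 ((mem_LP.1 hc).1 k)).1, aa_symm hk hi, smul_smul, smul_smul]
  congr 1
  have h1 : (-1 : ℂ) ^ j = (-1) ^ (j - k) * (-1) ^ (k : ℕ) := by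
    rw [← pow_add]; congr 1; omega
  have h2 : (-1 : ℂ) ^ (k : ℕ) * (-1) ^ (k : ℕ) = 1 := by
    rw [← mul_pow]; norm_num
  rw [h1]
  linear_combination (-(-1) ^ (j - k) * aa j k i) * h2

theorem sg_HH {c : Fin (j + 1) → CR} (hc : c ∈ LP q m d j E) {i : ℕ} (hi : i ≤ j) :
    sg (HH j c i) = ((-1 : ℂ) ^ j) • HH j c (j - i) := by
  rw [HH_symm hc hi, smul_smul, ← mul_pow]
  norm_num

theorem HH_mem_Ord_neg' {c : Fin (j + 1) → CR} (hc : c ∈ LP q m d j E) {i : ℕ} (hi : i ≤ j)
    {r : ℕ} (hr : r ∈ E) : HH j c i ∈ Ord (q r).neg (m r - (j - i)) := by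
  rw [Ord_neg, sg_HH hc hi]
  exact Submodule.smul_mem _ _ (HH_mem_Ord' hc _ hr)

theorem LP_inj {c : Fin (j + 1) → CR} (hc : c ∈ LP q m d j E)
    (h : ∀ i, 2 * i ≤ j → HH j c i = 0) : c = 0 := by
  have h1 : ∀ i, i ≤ j → HH j c i = 0 := by
    intro i hi
    rcases le_or_gt (2 * i) j with h2 | h2
    · exact h i h2
    · have h3 := HH_symm hc (i := j - i) (by omega)
      rw [show j - (j - i) = i by omega, h (j - i) (by omega), map_zero, smul_zero] at h3
      exact h3
  have h2 : Hp j (fun k => c k * pp ^ (k : ℕ)) = 0 := by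
    ext1 i
    rcases le_or_gt i j with hi | hi
    · rw [Polynomial.coeff_zero]; exact h1 i hi
    · rw [Polynomial.coeff_zero, coeff_Hp]
      apply Finset.sum_eq_zero
      intro k _
      rw [aa_eq_zero (by omega) hi, zero_smul]
  have h3 := Hp_inj j _ h2
  ext1 k
  have h4 := congrFun h3 k
  exact (mul_eq_zero.1 h4).resolve_right (pow_ne_zero _ pp_ne_zero)

/-- the points on the double cover -/
def q2 (q : ℕ → Pt) (x : ℕ × Bool) : Pt := if x.2 then q x.1 else (q x.1).neg

/-- the orders at the points of the double cover -/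
def n2 (m : ℕ → ℕ) (j i : ℕ) (x : ℕ × Bool) : ℕ :=
  if x.1 ∈ Finset.range 9 then m x.1 else if x.2 then m x.1 - i else m x.1 - (j - i)

/-- the orders at the points of the curve -/
def n1 (m : ℕ → ℕ) (i : ℕ) (l : ℕ) : ℕ := if l ∈ Finset.range 9 then m l else m l - i

theorem q2_inj (hz : ∀ i, (q i).z ≠ 0) (hinj : Function.Injective (fun i => (q i).z ^ 2))
    (S : Set (ℕ × Bool)) : Set.InjOn (fun x => (q2 q x).z) S := by
  rintro ⟨a, β⟩ - ⟨b, γ⟩ - h
  have h1 : (q a).z ^ 2 = (q b).z ^ 2 := by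
    have := congrArg (fun x => x ^ 2) h
    simp only [q2] at this
    split_ifs at this <;> simpa [Pt.neg] using this
  have h2 := hinj h1
  subst h2
  have h3 : (q a).z ≠ -(q a).z := by
    intro h4
    apply hz a
    linear_combination h4 / 2
  cases β <;> cases γ
  · rfl
  · exact absurd (show -(q a).z = (q a).z from h) (Ne.symm h3)
  · exact absurd (show (q a).z = -(q a).z from h) h3
  · rfl

/-- the target spaces -/
def CC (q : ℕ → Pt) (m : ℕ → ℕ) (d j : ℕ) (E : Finset ℕ) (i : ℕ) : Submodule ℂ CR :=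
  if 2 * i < j then UU ((Finset.range 9 ∪ E) ×ˢ Finset.univ) (q2 q) (n2 m j i) (3 * d)
  else if 2 * i = j then EU (Finset.range 9 ∪ E) q (n1 m i) 1 (3 * d)
  else ⊥

instance (i : ℕ) : FiniteDimensional ℂ (CC q m d j E i) := by
  by_cases h1 : 2 * i < j
  · have h : CC q m d j E i =
        UU ((Finset.range 9 ∪ E) ×ˢ Finset.univ) (q2 q) (n2 m j i) (3 * d) := by
      unfold CC; rw [if_pos h1]
    rw [h]; infer_instance
  · by_cases h2 : 2 * i = j
    · have h : CC q m d j E i = EU (Finset.range 9 ∪ E) q (n1 m i) 1 (3 * d) := by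
        unfold CC; rw [if_neg h1, if_pos h2]
      rw [h]; infer_instance
    · have h : CC q m d j E i = ⊥ := by
        unfold CC; rw [if_neg h1, if_neg h2]
      rw [h]; infer_instance

theorem HH_mem_CC {c : Fin (j + 1) → CR} (hc : c ∈ LP q m d j E) {i : ℕ} (hi : 2 * i ≤ j) :
    HH j c i ∈ CC q m d j E i := by
  unfold CC
  split_ifs with h1 h2
  · rw [mem_UU]
    refine ⟨HH_mem_Fil hc i, ?_⟩
    rintro ⟨l, β⟩ hl
    rw [Finset.mem_product, Finset.mem_union] at hl
    by_cases h3 : l ∈ Finset.range 9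
    · cases β
      · have := HH_mem_Ord_neg hc i h3
        simpa [q2, n2, Finset.mem_range.1 h3] using this
      · have := HH_mem_Ord hc i h3
        simpa [q2, n2, Finset.mem_range.1 h3] using this
    · have h4 : l ∈ E := hl.1.resolve_left h3
      cases β
      · have := HH_mem_Ord_neg' hc (i := i) (by omega) h4
        rw [Finset.mem_range] at h3
        simpa [q2, n2, h3] using this
      · have := HH_mem_Ord' hc i h4
        rw [Finset.mem_range] at h3
        simpa [q2, n2, h3] using this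
  · rw [mem_EU]
    refine ⟨HH_mem_Fil hc i, ?_, ?_⟩
    · have h5 : (-1 : ℂ) ^ j = 1 := by rw [← h2, pow_mul]; norm_num
      rw [mem_Eig_one, sg_HH hc (by omega), show j - i = i by omega, h5, one_smul]
    · intro l hl
      rw [Finset.mem_union] at hl
      by_cases h3 : l ∈ Finset.range 9
      · have := HH_mem_Ord hc i h3
        simpa [n1, Finset.mem_range.1 h3] using this
      · have h4 : l ∈ E := hl.resolve_left h3
        have := HH_mem_Ord' hc i h4
        rw [Finset.mem_range] at h3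
        simpa [n1, h3] using this
  · omega

/-- the number of conditions -/
def Nc (m : ℕ → ℕ) (j : ℕ) (E : Finset ℕ) (i : ℕ) : ℕ :=
  2 * ∑ l ∈ Finset.range 9, m l + ∑ r ∈ E, ((m r - i) + (m r - (j - i)))

theorem sum_n2 (hE : Disjoint (Finset.range 9) E) (i : ℕ) :
    ∑ x ∈ (Finset.range 9 ∪ E) ×ˢ (Finset.univ : Finset Bool), n2 m j i x = Nc m j E i := by
  rw [Finset.sum_product, Finset.sum_union hE, Nc, Finset.mul_sum]
  congr 1
  · apply Finset.sum_congr rfl
    intro l hl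
    rw [Fintype.sum_bool]
    simp only [n2, if_pos hl]
    ring
  · apply Finset.sum_congr rfl
    intro l hl
    have : l ∉ Finset.range 9 := fun h => (Finset.disjoint_left.1 hE h) hl
    rw [Fintype.sum_bool]
    rw [Finset.mem_range] at this
    simp [n2, this]

theorem sum_n1 (hE : Disjoint (Finset.range 9) E) {i : ℕ} (hi : 2 * i = j) :
    2 * ∑ x ∈ (Finset.range 9 ∪ E), n1 m i x = Nc m j E i := by
  have h1 : ∑ x ∈ Finset.range 9, n1 m i x = ∑ x ∈ Finset.range 9, m x := by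
    apply Finset.sum_congr rfl
    intro l hl
    simp only [n1, if_pos hl]
  have h2 : 2 * ∑ x ∈ E, n1 m i x = ∑ r ∈ E, ((m r - i) + (m r - (j - i))) := by
    rw [Finset.mul_sum]
    apply Finset.sum_congr rfl
    intro l hl
    have : l ∉ Finset.range 9 := fun h => (Finset.disjoint_left.1 hE h) hl
    simp only [n1, if_neg this]
    rw [show j - i = i by omega]
    ring
  rw [Finset.sum_union hE, Nc, mul_add, h1, h2]

theorem Nc_symm {i : ℕ} (hi : i ≤ j) : Nc m j E (j - i) = Nc m j E i := by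
  rw [Nc, Nc]
  congr 1
  apply Finset.sum_congr rfl
  intro r _
  rw [show j - (j - i) = i by omega, add_comm]

theorem CC_pair_lt (hz : ∀ i, (q i).z ≠ 0) (hinj : Function.Injective (fun i => (q i).z ^ 2))
    (hE : Disjoint (Finset.range 9) E) (hN : ∀ i ≤ j, Nc m j E i < 6 * d) {i : ℕ}
    (hi : 2 * i < j) :
    finrank ℂ (CC q m d j E i) + finrank ℂ (CC q m d j E (j - i)) + Nc m j E i ≤ 6 * d := by
  have h1 : CC q m d j E (j - i) = ⊥ := by
    unfold CC
    rw [if_neg (by omega), if_neg (by omega)]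
  have h2 : CC q m d j E i =
      UU ((Finset.range 9 ∪ E) ×ˢ Finset.univ) (q2 q) (n2 m j i) (3 * d) := by
    unfold CC
    rw [if_pos hi]
  have h3 := finrank_UU_le (S := (Finset.range 9 ∪ E) ×ˢ (Finset.univ : Finset Bool))
    (q := q2 q) (n := n2 m j i) (N := 3 * d) (q2_inj hz hinj _) (by
      rw [sum_n2 hE]
      have := hN i (by omega)
      omega)
  rw [sum_n2 hE] at h3
  rw [h1, h2, finrank_bot]
  omega

theorem CC_pair_eq (hz : ∀ i, (q i).z ≠ 0) (hinj : Function.Injective (fun i => (q i).z ^ 2))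
    (hE : Disjoint (Finset.range 9) E) (hN : ∀ i ≤ j, Nc m j E i < 6 * d) {i : ℕ}
    (hi : 2 * i = j) :
    finrank ℂ (CC q m d j E i) + finrank ℂ (CC q m d j E (j - i)) + Nc m j E i ≤ 6 * d := by
  rw [show j - i = i by omega]
  have h2 : CC q m d j E i = EU (Finset.range 9 ∪ E) q (n1 m i) 1 (3 * d) := by
    unfold CC
    rw [if_neg (by omega), if_pos hi]
  have h4 := sum_n1 (m := m) hE hi
  have h3 := finrank_EU_le (S := (Finset.range 9 ∪ E))
    (q := q) (n := n1 m i) (N := 3 * d) 1 (hinj.injOn) (fun i _ => hz i) (by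
      have := hN i (by omega)
      omega)
  rw [h2]
  omega

theorem CC_pair (hz : ∀ i, (q i).z ≠ 0) (hinj : Function.Injective (fun i => (q i).z ^ 2))
    (hE : Disjoint (Finset.range 9) E) (hN : ∀ i ≤ j, Nc m j E i < 6 * d) {i : ℕ}
    (hi : i ≤ j) :
    finrank ℂ (CC q m d j E i) + finrank ℂ (CC q m d j E (j - i)) + Nc m j E i ≤ 6 * d := by
  rcases lt_trichotomy (2 * i) j with h | h | h
  · exact CC_pair_lt hz hinj hE hN h
  · exact CC_pair_eq hz hinj hE hN h
  · have h1 := CC_pair_lt (i := j - i) hz hinj hE hN (by omega)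
    rw [show j - (j - i) = i by omega, Nc_symm hi] at h1
    omega

theorem sum_sub_eq {M : ℕ} (hM : M ≤ j + 1) :
    2 * ∑ i ∈ Finset.range (j + 1), (M - i) = M * (M + 1) := by
  have h1 : ∑ i ∈ Finset.range (j + 1), (M - i) = ∑ i ∈ Finset.range M, (M - i) := by
    symm
    apply Finset.sum_subset
    · intro x hx
      rw [Finset.mem_range] at *
      omega
    · intro x _ hx
      rw [Finset.mem_range] at hx
      omega
  rw [h1]
  clear h1 hM
  induction M with
  | zero => rfl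
  | succ M ih =>
    rw [Finset.sum_range_succ']
    simp only [Nat.add_sub_add_right, Nat.sub_zero]
    rw [mul_add, ih]
    ring

theorem finrank_LP (hz : ∀ i, (q i).z ≠ 0) (hinj : Function.Injective (fun i => (q i).z ^ 2))
    (hE : Disjoint (Finset.range 9) E) (hN : ∀ i ≤ j, Nc m j E i < 6 * d)
    (hj : ∀ r ∈ E, m r ≤ j + 1) :
    FiniteDimensional ℂ (LP q m d j E) ∧
    2 * finrank ℂ (LP q m d j E) + 2 * (j + 1) * ∑ l ∈ Finset.range 9, m l +
      ∑ r ∈ E, m r * (m r + 1) ≤ 6 * d * (j + 1) := by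
  let C : Fin (j + 1) → Submodule ℂ CR := fun i => CC q m d j E i
  let φ : (Fin (j + 1) → CR) →ₗ[ℂ] (Fin (j + 1) → CR) :=
    LinearMap.pi fun i => if 2 * (i : ℕ) ≤ j then HHL j i else 0
  have hφ : ∀ c ∈ LP q m d j E, φ c ∈ Submodule.pi Set.univ C := by
    intro c hc i _
    change (if 2 * (i : ℕ) ≤ j then HHL j i else 0) c ∈ CC q m d j E i
    split_ifs with h
    · exact HH_mem_CC hc h
    · exact Submodule.zero_mem _
  have hφ2 : ∀ c ∈ LP q m d j E, φ c = 0 → c = 0 := by
    intro c hc h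
    apply LP_inj hc
    intro i hi
    have h1 := congrFun h ⟨i, by omega⟩
    change (if 2 * i ≤ j then HHL j i else 0) c = 0 at h1
    rw [if_pos hi] at h1
    exact h1
  obtain ⟨hfd, hfr⟩ := finrank_pi_le C
  let ψ : (LP q m d j E) →ₗ[ℂ] (Submodule.pi Set.univ C) :=
    (φ.domRestrict (LP q m d j E)).codRestrict _ (fun x => hφ x.1 x.2)
  have hψ : Function.Injective ψ := by
    rw [← LinearMap.ker_eq_bot, eq_bot_iff]
    intro x hx
    have : φ x.1 = 0 := congrArg Subtype.val (LinearMap.mem_ker.1 hx)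
    exact Subtype.ext (hφ2 x.1 x.2 this)
  refine ⟨FiniteDimensional.of_injective ψ hψ, ?_⟩
  have h1 := LinearMap.finrank_le_finrank_of_injective hψ
  have h2 : ∑ i : Fin (j + 1), finrank ℂ (C i) =
      ∑ i ∈ Finset.range (j + 1), finrank ℂ (CC q m d j E i) :=
    Fin.sum_univ_eq_sum_range (fun i => finrank ℂ (CC q m d j E i)) (j + 1)
  have h3 : ∑ i ∈ Finset.range (j + 1), (finrank ℂ (CC q m d j E i) +
      finrank ℂ (CC q m d j E (j - i)) + Nc m j E i) ≤ ∑ i ∈ Finset.range (j + 1), 6 * d := by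
    apply Finset.sum_le_sum
    intro i hi
    exact CC_pair hz hinj hE hN (by rw [Finset.mem_range] at hi; omega)
  rw [Finset.sum_add_distrib, Finset.sum_add_distrib, Finset.sum_const, Finset.card_range,
    smul_eq_mul] at h3
  have h4 : ∑ i ∈ Finset.range (j + 1), finrank ℂ (CC q m d j E (j - i)) =
      ∑ i ∈ Finset.range (j + 1), finrank ℂ (CC q m d j E i) := by
    have := Finset.sum_range_reflect (fun i => finrank ℂ (CC q m d j E i)) (j + 1)
    simpa using this
  have h5 : ∑ i ∈ Finset.range (j + 1), Nc m j E i =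
      2 * (j + 1) * ∑ l ∈ Finset.range 9, m l + ∑ r ∈ E, m r * (m r + 1) := by
    simp only [Nc]
    rw [Finset.sum_add_distrib, Finset.sum_const, Finset.card_range, smul_eq_mul,
      Finset.sum_comm]
    congr 1
    · ring
    · apply Finset.sum_congr rfl
      intro r hr
      rw [Finset.sum_add_distrib]
      have h6 : ∑ i ∈ Finset.range (j + 1), (m r - (j - i)) =
          ∑ i ∈ Finset.range (j + 1), (m r - i) := by
        have := Finset.sum_range_reflect (fun i => m r - i) (j + 1)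
        simpa using this
      rw [h6, ← sum_sub_eq (hj r hr)]
      ring
  rw [h4, h5] at h3
  have h6 : finrank ℂ (LP q m d j E) ≤ ∑ i ∈ Finset.range (j + 1), finrank ℂ (CC q m d j E i) := by
    rw [← h2]; omega
  have h7 : (j + 1) * (6 * d) = 6 * d * (j + 1) := by ring
  omega

end Helper18.Shgh
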