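import Mathlib

open Module

noncomputable section

namespace Helper18.Shgh

section semi

variable {A E ι : Type*} [CommRing A] [Algebra ℂ A] [AddCommGroup E] [Module ℂ E]

/-- specialization of a family of functionals -/
def spec (Λ : E →ₗ[ℂ] (ι → A)) (φ : A →ₐ[ℂ] ℂ) : E →ₗ[ℂ] (ι → ℂ) :=
  LinearMap.pi fun i => φ.toLinearMap ∘ₗ LinearMap.proj i ∘ₗ Λ

theorem spec_apply (Λ : E →ₗ[ℂ] (ι → A)) (φ : A →ₐ[ℂ] ℂ) (x : E) (i : ι) :
    spec Λ φ x i = φ (Λ x i) := rfl

theorem mem_ker_spec {Λ : E →ₗ[ℂ] (ι → A)} {φ : A →ₐ[ℂ] ℂ} {x : E} :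
    x ∈ LinearMap.ker (spec Λ φ) ↔ ∀ i, φ (Λ x i) = 0 := by
  rw [LinearMap.mem_ker, funext_iff]
  rfl

theorem semicont [FiniteDimensional ℂ E] [Fintype ι] (Λ : E →ₗ[ℂ] (ι → A)) (φ₀ : A →ₐ[ℂ] ℂ) :
    ∃ G : A, φ₀ G ≠ 0 ∧ ∀ φ : A →ₐ[ℂ] ℂ, φ G ≠ 0 →
      finrank ℂ (LinearMap.ker (spec Λ φ)) ≤ finrank ℂ (LinearMap.ker (spec Λ φ₀)) := by
  classical
  obtain ⟨U, hU⟩ := Submodule.exists_isCompl (LinearMap.ker (spec Λ φ₀))
  let b := finBasis ℂ U
  let f₀ : U →ₗ[ℂ] (ι → ℂ) := (spec Λ φ₀).domRestrict U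
  have hf₀ : LinearMap.ker f₀ = ⊥ := by
    rw [eq_bot_iff]
    intro x hx
    have h1 : (x : E) ∈ LinearMap.ker (spec Λ φ₀) := hx
    have h2 := (Submodule.disjoint_def.1 hU.disjoint) x.1 h1 x.2
    exact Subtype.ext h2
  obtain ⟨g, hg⟩ := LinearMap.exists_leftInverse_of_injective f₀ hf₀
  let N : Matrix (Fin (finrank ℂ U)) (Fin (finrank ℂ U)) A := Matrix.of fun a c =>
    ∑ i, algebraMap ℂ A (b.repr (g (Pi.single i 1)) a) * Λ (b c : E) i
  have hN : ∀ (φ : A →ₐ[ℂ] ℂ) a c, φ (N a c) = b.repr (g (spec Λ φ (b c : E))) a := by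
    intro φ a c
    have h1 : spec Λ φ (b c : E) = ∑ i, φ (Λ (b c : E) i) • (Pi.single i (1 : ℂ) : ι → ℂ) := by
      ext j
      rw [Finset.sum_apply, Finset.sum_eq_single j]
      · simp [spec_apply]
      · intro i _ hij
        simp [Pi.single_apply, hij.symm]
      · simp
    rw [h1, map_sum, map_sum, Finsupp.finset_sum_apply]
    change φ (∑ i, algebraMap ℂ A (b.repr (g (Pi.single i 1)) a) * Λ (b c : E) i) = _
    rw [map_sum]
    apply Finset.sum_congr rfl
    intro i _
    rw [map_mul, AlgHom.commutes, map_smul, map_smul, Finsupp.smul_apply, smul_eq_mul, mul_comm]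
    rfl
  refine ⟨N.det, ?_, ?_⟩
  · have h1 : φ₀ N.det = (φ₀.toRingHom.mapMatrix N).det := by
      rw [← RingHom.map_det]; rfl
    have h2 : φ₀.toRingHom.mapMatrix N = 1 := by
      ext a c
      rw [RingHom.mapMatrix_apply, Matrix.map_apply]
      change φ₀ (N a c) = _
      rw [hN]
      have h3 : g (spec Λ φ₀ (b c : E)) = b c := DFunLike.congr_fun hg (b c)
      rw [h3, Basis.repr_self, Matrix.one_apply, Finsupp.single_apply]
      simp only [eq_comm]
    rw [h1, h2, Matrix.det_one]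
    exact one_ne_zero
  · intro φ hφ
    have h1 : φ N.det = (φ.toRingHom.mapMatrix N).det := by
      rw [← RingHom.map_det]; rfl
    rw [h1] at hφ
    have hdisj : Disjoint (LinearMap.ker (spec Λ φ)) U := by
      rw [Submodule.disjoint_def]
      intro x hx hxU
      have h2 : (φ.toRingHom.mapMatrix N).mulVec (b.repr ⟨x, hxU⟩) = 0 := by
        ext a
        rw [Matrix.mulVec, dotProduct]
        have h3 : ∀ c, (φ.toRingHom.mapMatrix N) a c = b.repr (g (spec Λ φ (b c : E))) a := by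
          intro c
          exact hN φ a c
        simp only [h3]
        have h4 : spec Λ φ x = 0 := hx
        have h5 : (⟨x, hxU⟩ : U) = ∑ c, b.repr ⟨x, hxU⟩ c • b c := (b.sum_repr _).symm
        have h6 : spec Λ φ x = ∑ c, b.repr ⟨x, hxU⟩ c • spec Λ φ (b c : E) := by
          have := congrArg Subtype.val h5
          rw [AddSubmonoidClass.coe_finset_sum] at this
          change x = _ at this
          conv_lhs => rw [this]
          rw [map_sum]
          simp only [Submodule.coe_smul, map_smul]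
        rw [h4] at h6
        have h7 := congrArg (fun y => b.repr (g y) a) h6
        simp only [map_zero, map_sum, map_smul, Finsupp.coe_zero, Pi.zero_apply,
          Finsupp.finset_sum_apply, Finsupp.smul_apply, smul_eq_mul] at h7
        rw [Pi.zero_apply, h7]
        apply Finset.sum_congr rfl
        intro c _
        ring
      have h3 := Matrix.eq_zero_of_mulVec_eq_zero hφ h2
      have h4 : b.repr ⟨x, hxU⟩ = 0 := by
        ext c; exact congrFun h3 c
      have h5 : (⟨x, hxU⟩ : U) = 0 := by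
        simpa using h4
      exact congrArg Subtype.val h5
    have h2 := Submodule.finrank_add_finrank_le_of_disjoint hdisj
    have h3 := Submodule.finrank_add_eq_of_isCompl hU
    omega

end semi

theorem exists_ne_zero_eval_ne_zero (G : Polynomial ℂ) (hG : G ≠ 0) :
    ∃ t : ℂ, t ≠ 0 ∧ G.eval t ≠ 0 := by
  by_contra hcon
  push Not at hcon
  have h1 : Polynomial.X * G = 0 := by
    apply Polynomial.funext
    intro t
    rw [Polynomial.eval_mul, Polynomial.eval_X, Polynomial.eval_zero]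
    by_cases ht : t = 0
    · rw [ht, zero_mul]
    · rw [hcon t ht, mul_zero]
  rcases mul_eq_zero.1 h1 with h | h
  · exact Polynomial.X_ne_zero h
  · exact hG h

end Helper18.Shgh
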