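import Pool.Agent.Helper18.ShghDeg
import Pool.Agent.Helper18.ShghSemi
import Pool.Agent.Helper18.ShghPB

open Module

noncomputable section

namespace Helper18.Shgh

/-- polynomials of degree at most `n` with multiplicities at given points -/
def SP {ι : Type*} (n : ℤ) (S : Finset ι) (P : ι → Fin 2 → ℂ) (m : ι → ℕ) : Submodule ℂ R2 where
  carrier := {G | G ∈ V n ∧ ∀ i ∈ S, G ∈ mI (P i) ^ m i}
  add_mem' := by
    rintro F G ⟨hF1, hF2⟩ ⟨hG1, hG2⟩
    exact ⟨Submodule.add_mem _ hF1 hG1, fun i hi => Ideal.add_mem _ (hF2 i hi) (hG2 i hi)⟩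
  zero_mem' := ⟨Submodule.zero_mem _, fun i _ => Ideal.zero_mem _⟩
  smul_mem' := by
    rintro c F ⟨hF1, hF2⟩
    refine ⟨Submodule.smul_mem _ c hF1, fun i hi => ?_⟩
    rw [← algebraMap_smul R2 c F, smul_eq_mul]
    exact Ideal.mul_mem_left _ _ (hF2 i hi)

theorem mem_SP {ι : Type*} {n : ℤ} {S : Finset ι} {P : ι → Fin 2 → ℂ} {m : ι → ℕ} {G : R2} :
    G ∈ SP n S P m ↔ G ∈ V n ∧ ∀ i ∈ S, G ∈ mI (P i) ^ m i := Iff.rfl

instance {ι : Type*} (n : ℤ) (S : Finset ι) (P : ι → Fin 2 → ℂ) (m : ι → ℕ) :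
    FiniteDimensional ℂ (SP n S P m) :=
  Submodule.finiteDimensional_of_le (fun _ h => h.1 : SP n S P m ≤ V n)

theorem finrank_comap_add {k E F : Type*} [Field k] [AddCommGroup E] [Module k E]
    [AddCommGroup F] [Module k F] [FiniteDimensional k E] [FiniteDimensional k F]
    (Θ : E →ₗ[k] F) (hΘ : Function.Surjective Θ) (M : Submodule k F) :
    finrank k M + finrank k E = finrank k (M.comap Θ) + finrank k F := by
  have h1 := LinearMap.finrank_range_add_finrank_ker Θ
  rw [LinearMap.range_eq_top.2 hΘ, finrank_top] at h1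
  have h2 := LinearMap.finrank_range_add_finrank_ker (Θ.domRestrict (M.comap Θ))
  have h3 : LinearMap.range (Θ.domRestrict (M.comap Θ)) = M := by
    ext x
    constructor
    · rintro ⟨y, rfl⟩
      exact y.2
    · intro hx
      obtain ⟨y, rfl⟩ := hΘ x
      exact ⟨⟨y, hx⟩, rfl⟩
  have h4 : (LinearMap.ker (Θ.domRestrict (M.comap Θ))).map (M.comap Θ).subtype =
      LinearMap.ker Θ := by
    ext x
    constructor
    · rintro ⟨y, hy, rfl⟩
      exact hy
    · intro hx
      have hx' : x ∈ M.comap Θ := by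
        rw [Submodule.mem_comap, LinearMap.mem_ker.1 hx]
        exact M.zero_mem
      exact ⟨⟨x, hx'⟩, hx, rfl⟩
  have h5 := finrank_map_inj (M.comap Θ).subtype_injective
    (LinearMap.ker (Θ.domRestrict (M.comap Θ)))
  rw [h4] at h5
  rw [h3] at h2
  omega

/-- iterated derivatives as a linear map -/
def DD2 (a b : ℕ) : R2 →ₗ[ℂ] R2 := (DT.toLinearMap ^ a) ∘ₗ (DY.toLinearMap ^ b)

theorem DD2_apply (a b : ℕ) (F : R2) : DD2 a b F = DT^[a] (DY^[b] F) := by
  rw [DD2, LinearMap.comp_apply, Module.End.pow_apply, Module.End.pow_apply]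
  rfl

theorem eval_DD2 {P : Fin 2 → ℂ} {M a b : ℕ} (hab : a + b < M) {F : R2} (hF : F ∈ mI P ^ M) :
    MvPolynomial.eval P (DD2 a b F) = 0 := by
  rw [DD2_apply, ← mem_mI_iff]
  have h1 : DY^[b] F ∈ mI P ^ (M - b) :=
    deriv_iterate_mem_pow DY (mI P) b (M - b) (by rwa [show M - b + b = M by omega])
  have h2 : DT^[a] (DY^[b] F) ∈ mI P ^ (M - b - a) :=
    deriv_iterate_mem_pow DT (mI P) a (M - b - a) (by rwa [show M - b - a + a = M - b by omega])
  have h3 := Ideal.pow_le_pow_right (I := mI P) (show 1 ≤ M - b - a by omega) h2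
  rwa [pow_one] at h3

variable {q : ℕ → Pt} {m : ℕ → ℕ} {d j : ℕ} {E : Finset ℕ}

theorem cc_pow_mul_mem_V {k : ℕ} {F : R2} {n : ℤ} : cc ^ k * F ∈ V n ↔ F ∈ V (n - 3 * k) := by
  induction k generalizing n with
  | zero => simp
  | succ k ih =>
    rw [pow_succ', mul_assoc, cc_mul_mem_V, ih]
    push_cast
    rw [show n - 3 - 3 * (k : ℤ) = n - 3 * (k + 1) by ring]

theorem pow_mul_mem_GG {k : ℕ} {G : R2} (h : G ∈ GG (Finset.range 9) q m d k) :
    cc ^ k * G ∈ GG (Finset.range 9) q m d 0 := by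
  rw [mem_GG] at *
  refine ⟨?_, fun i hi => ?_⟩
  · rw [cc_pow_mul_mem_V]
    simpa using h.1
  · rw [pow_zero, one_mul]; exact h.2 i hi

theorem rho_mem_CK (hz : ∀ i, (q i).z ≠ 0) (hp : ∀ i ∈ Finset.range 9, ev (q i) pp = 0)
    {k : ℕ} {G : R2} (h : G ∈ GG (Finset.range 9) q m d k) : rho G ∈ CK q m d k := by
  rw [mem_CK]
  refine ⟨rho_mem_Eig G, ?_, ?_⟩
  · rcases le_or_gt 0 ((d : ℤ) - 3 * k) with hn | hn
    · obtain ⟨n, hn'⟩ : ∃ n : ℕ, (n : ℤ) = (d : ℤ) - 3 * k := ⟨((d : ℤ) - 3 * k).toNat, by omega⟩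
      have h1 : rho G ∈ Fil (3 * n) := rho_mem_Fil (by rw [hn']; exact h.1)
      have h2 := mul_mem_Fil h1 (pow_mem_Fil pp_mem_Fil k)
      rwa [show 3 * n + k * 9 = 3 * d by omega] at h2
    · have h1 : G = 0 := by
        have := h.1
        rw [V_neg hn] at this
        exact this
      rw [h1, map_zero, zero_mul]
      exact Submodule.zero_mem _
  · intro i hi
    have h1 : rho G ∈ Ord (q i) (m i - k) := rho_mem_Ord (mem_GG_ord (fun i _ => hz i) h hi)
    have h2 : pp ^ k ∈ Ord (q i) k := by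
      have := Ord_pow (mem_Ord_one.2 (hp i hi)) k
      rwa [mul_one] at this
    exact Ord_anti _ (by omega) (Ord_mul h1 h2)

theorem DD_iterate_smul (a : ℕ) (c : ℂ) (f : CR) : DD^[a] (c • f) = c • DD^[a] f := by
  induction a generalizing f with
  | zero => rfl
  | succ a ih => rw [Function.iterate_succ_apply, Function.iterate_succ_apply, map_smul, ih]

theorem DD_iterate_sum {ι : Type*} (a : ℕ) (s : Finset ι) (f : ι → CR) :
    DD^[a] (∑ i ∈ s, f i) = ∑ i ∈ s, DD^[a] (f i) := by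
  have h : ∀ g : CR, DD^[a] g = (DD ^ a) g := fun g => by rw [Module.End.pow_apply]
  simp only [h, map_sum]

/-- the limit conditions -/
theorem limit_ord {r : Pt} (hz : r.z ≠ 0) {M b : ℕ} {G : Fin (j + 1) → R2}
    (h : ∀ a, a + b < M → ∑ k : Fin (j + 1), ((k : ℕ).descFactorial b : ℂ) *
      (ev r pp) ^ ((k : ℕ) - b) *
        MvPolynomial.eval r.pt (DT^[a] ((2 * MvPolynomial.X 1) ^ b * G k)) = 0) :
    Psi j (ev r pp) (fun k => rho (G k)) b ∈ Ord r (M - b) := by
  have hu : ev r ((b.factorial : CR) * rho (2 * MvPolynomial.X 1) ^ b) ≠ 0 := by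
    rw [map_mul, map_natCast, map_pow, map_mul, rho_X1, map_mul, map_mul, ev_zz, ev_vv]
    apply mul_ne_zero
    · exact_mod_cast b.factorial_ne_zero
    · apply pow_ne_zero
      apply mul_ne_zero
      · rw [map_ofNat, map_ofNat]; norm_num
      · exact mul_ne_zero hz r.hv
  apply Ord_of_mul hu
  rw [mem_Ord_iff]
  intro a ha
  have h1 := h a (by omega)
  have h2 : (b.factorial : CR) * rho (2 * MvPolynomial.X 1) ^ b *
      Psi j (ev r pp) (fun k => rho (G k)) b =
      ∑ k : Fin (j + 1), (((k : ℕ).descFactorial b : ℂ) * (ev r pp) ^ ((k : ℕ) - b)) •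
        rho ((2 * MvPolynomial.X 1) ^ b * G k) := by
    rw [Psi, Finset.mul_sum]
    apply Finset.sum_congr rfl
    intro k _
    have e : rho ((2 * MvPolynomial.X 1) ^ b * G k) =
        rho (2 * MvPolynomial.X 1) ^ b * rho (G k) := by rw [map_mul, map_pow]
    rw [Nat.descFactorial_eq_factorial_mul_choose, e]
    simp only [Algebra.smul_def, map_mul, map_natCast, Nat.cast_mul, map_pow]
    ring
  rw [h2, DD_iterate_sum, map_sum, ← h1]
  apply Finset.sum_congr rfl
  intro k _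
  rw [DD_iterate_smul, ev_smul, ← rho_DT_iterate, ev_rho]

theorem deg_bound (hz : ∀ i, (q i).z ≠ 0) (hp : ∀ i ∈ Finset.range 9, ev (q i) pp = 0)
    (hE : Disjoint (Finset.range 9) E) (hj : ∀ r ∈ E, m r ≤ j + 1)
    (hfd : FiniteDimensional ℂ (LP q m d j E)) :
    ∃ P : ℕ → Fin 2 → ℂ, finrank ℂ (SP (d : ℤ) (Finset.range 9 ∪ E) P m) ≤
      finrank ℂ (GG (Finset.range 9) q m d (j + 1)) + finrank ℂ (LP q m d j E) := by
  choose T hT1 hT2 using fun (r a : ℕ) (b k : Fin (j + 1)) =>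
    exists_T (q r) (hz r) j a b k (by omega) (by omega)
  let W := (k : Fin (j + 1)) → GG (Finset.range 9) q m (d : ℤ) k
  let Λ : W →ₗ[ℂ] ((E × Fin (j + 1) × Fin (j + 1)) → Polynomial ℂ) :=
    LinearMap.pi fun i => if (i.2.1 : ℕ) + i.2.2 < m i.1 then
      ∑ k : Fin (j + 1), T i.1 i.2.1 i.2.2 k ∘ₗ
        (GG (Finset.range 9) q m (d : ℤ) k).subtype ∘ₗ LinearMap.proj k else 0
  have hΛ : ∀ (G : W) (r : E) (a b : Fin (j + 1)), (a : ℕ) + b < m r →
      Λ G (r, a, b) = ∑ k : Fin (j + 1), T r a b k (G k) := by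
    intro G r a b hab
    change (if (a : ℕ) + b < m r then
      ∑ k : Fin (j + 1), T r a b k ∘ₗ
        (GG (Finset.range 9) q m (d : ℤ) k).subtype ∘ₗ LinearMap.proj k else 0) G = _
    rw [if_pos hab, LinearMap.sum_apply]
    rfl
  have hΛ' : ∀ (G : W) (r : E) (a b : Fin (j + 1)), ¬ ((a : ℕ) + b < m r) →
      Λ G (r, a, b) = 0 := by
    intro G r a b hab
    change (if (a : ℕ) + b < m r then
      ∑ k : Fin (j + 1), T r a b k ∘ₗ
        (GG (Finset.range 9) q m (d : ℤ) k).subtype ∘ₗ LinearMap.proj k else 0) G = _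
    rw [if_neg hab]
    rfl
  obtain ⟨Δ, hΔ0, hΔ⟩ := semicont Λ (Polynomial.aeval (0 : ℂ))
  have hΔne : Δ ≠ 0 := by
    rintro rfl
    exact hΔ0 (map_zero _)
  obtain ⟨t, ht, hΔt⟩ := exists_ne_zero_eval_ne_zero Δ hΔne
  have hker := hΔ (Polynomial.aeval t) (by rwa [Polynomial.coe_aeval_eq_eval])
  -- the limit
  have hlim : finrank ℂ (LinearMap.ker (spec Λ (Polynomial.aeval (0 : ℂ)))) ≤
      ∑ k : Fin (j + 1), finrank ℂ (GG (Finset.range 9) q m (d : ℤ) ((k : ℕ) + 1)) +
        finrank ℂ (LP q m d j E) := by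
    let W' := (k : Fin (j + 1)) → GG (Finset.range 9) q m (d : ℤ) ((k : ℕ) + 1)
    let μ : W' →ₗ[ℂ] W := LinearMap.pi fun k =>
      ((mulcc.domRestrict _).codRestrict (GG (Finset.range 9) q m (d : ℤ) k)
        (fun x => mulcc_mem_GG.2 x.2)) ∘ₗ LinearMap.proj k
    let φ : W →ₗ[ℂ] (Fin (j + 1) → CR) := LinearMap.pi fun k =>
      rho.toLinearMap ∘ₗ (GG (Finset.range 9) q m (d : ℤ) k).subtype ∘ₗ LinearMap.proj k
    have h1 := finrank_le_of_map (LinearMap.ker (spec Λ (Polynomial.aeval (0 : ℂ))))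
      (⊤ : Submodule ℂ W') (LP q m d j E) φ μ
      (by
        intro G hG
        rw [mem_ker_spec] at hG
        rw [mem_LP]
        refine ⟨fun k => rho_mem_CK hz hp (G k).2, ?_⟩
        intro r hr b hb
        rw [Finset.mem_range] at hb
        apply limit_ord (hz r) (G := fun k => (G k : R2))
        intro a hab
        have h2 := hG (⟨r, hr⟩, ⟨a, by have := hj r hr; omega⟩, ⟨b, hb⟩)
        rw [hΛ _ _ _ _ hab, map_sum] at h2
        rw [← h2]
        apply Finset.sum_congr rfl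
        intro k _
        rw [Polynomial.coe_aeval_eq_eval, hT2])
      (by
        intro G _ h0
        have h2 : ∀ k : Fin (j + 1), ∃ y : GG (Finset.range 9) q m (d : ℤ) ((k : ℕ) + 1),
            cc * (y : R2) = G k := by
          intro k
          have h3 : rho (G k : R2) = 0 := congrFun h0 k
          obtain ⟨y, hy⟩ := exists_of_rho_eq_zero h3
          refine ⟨⟨y, ?_⟩, hy.symm⟩
          rw [← mulcc_mem_GG, ← hy]
          exact (G k).2
        choose y hy using h2
        refine ⟨y, trivial, ?_⟩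
        funext k
        exact Subtype.ext (hy k))
    rw [finrank_top, finrank_pi_fintype] at h1
    exact h1
  -- the general member
  let Θ : W →ₗ[ℂ] GG (Finset.range 9) q m (d : ℤ) 0 :=
    ∑ k : Fin (j + 1), (t ^ (j - (k : ℕ))) •
      (((LinearMap.mulLeft ℂ (cc ^ (k : ℕ))).domRestrict _).codRestrict
        (GG (Finset.range 9) q m (d : ℤ) 0) (fun x => pow_mul_mem_GG x.2)) ∘ₗ LinearMap.proj k
  have hΘ : ∀ G : W, ((Θ G : GG (Finset.range 9) q m (d : ℤ) 0) : R2) =
      ∑ k : Fin (j + 1), t ^ (j - (k : ℕ)) • (cc ^ (k : ℕ) * (G k : R2)) := by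
    intro G
    change (GG (Finset.range 9) q m (d : ℤ) 0).subtype (Θ G) = _
    rw [LinearMap.sum_apply, map_sum]
    rfl
  have hΘs : Function.Surjective Θ := by
    intro F
    have hF : (t ^ j)⁻¹ • (F : R2) ∈
        GG (Finset.range 9) q m (d : ℤ) ((0 : Fin (j + 1)) : ℕ) :=
      Submodule.smul_mem _ _ F.2
    refine ⟨Pi.single (0 : Fin (j + 1)) ⟨_, hF⟩, ?_⟩
    apply Subtype.ext
    rw [hΘ, Finset.sum_eq_single (0 : Fin (j + 1))]
    · rw [Pi.single_eq_same]
      simp only [Fin.val_zero, Nat.sub_zero, pow_zero, one_mul, smul_smul]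
      rw [mul_inv_cancel₀ (pow_ne_zero _ ht), one_smul]
    · intro k _ hk
      rw [Pi.single_eq_of_ne hk]
      simp
    · simp
  let P : ℕ → Fin 2 → ℂ := fun i => if i ∈ Finset.range 9 then (q i).pt else
    ![(q i).z ^ 2, (q i).y + (q i).eta * t]
  refine ⟨P, ?_⟩
  have hPr : ∀ r ∈ E, P r = ![(q r).z ^ 2, (q r).y + (q r).eta * t] := by
    intro r hr
    have : r ∉ Finset.range 9 := fun h => (Finset.disjoint_left.1 hE h) hr
    simp only [P, if_neg this]
  set M := SP (d : ℤ) (Finset.range 9 ∪ E) P m with hM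
  have hMG : M ≤ GG (Finset.range 9) q m (d : ℤ) 0 := by
    intro F hF
    rw [hM, mem_SP] at hF
    rw [mem_GG]
    refine ⟨by simpa using hF.1, fun i hi => ?_⟩
    rw [pow_zero, one_mul]
    have h1 := hF.2 i (Finset.mem_union_left _ hi)
    simp only [P, if_pos hi] at h1
    exact h1
  let M' : Submodule ℂ (GG (Finset.range 9) q m (d : ℤ) 0) :=
    M.comap (GG (Finset.range 9) q m (d : ℤ) 0).subtype
  have hM' : finrank ℂ M' = finrank ℂ M := by
    have h1 : M'.map (GG (Finset.range 9) q m (d : ℤ) 0).subtype = M := by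
      ext x
      constructor
      · rintro ⟨y, hy, rfl⟩
        exact hy
      · intro hx
        exact ⟨⟨x, hMG hx⟩, hx, rfl⟩
    have h2 := finrank_map_inj (GG (Finset.range 9) q m (d : ℤ) 0).subtype_injective M'
    rw [h1] at h2
    exact h2.symm
  have h3 := finrank_comap_add Θ hΘs M'
  have h4 : M'.comap Θ ≤ LinearMap.ker (spec Λ (Polynomial.aeval t)) := by
    intro G hG
    have hG' : ((Θ G : GG (Finset.range 9) q m (d : ℤ) 0) : R2) ∈ M := hG
    rw [mem_ker_spec]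
    rintro ⟨r, a, b⟩
    by_cases hab : (a : ℕ) + b < m r
    · have h5 : (t ^ (j - (b : ℕ))) * (Λ G (r, a, b)).eval t =
          MvPolynomial.eval (P r) (DD2 a b (Θ G : R2)) := by
        rw [hΛ _ _ _ _ hab, Polynomial.eval_finsetSum, Finset.mul_sum, hΘ, map_sum, map_sum]
        apply Finset.sum_congr rfl
        intro k _
        have h6 := congrArg (Polynomial.eval t) (hT1 r a b k (G k))
        rw [Polynomial.eval_mul, Polynomial.eval_mul, Polynomial.eval_pow, Polynomial.eval_pow,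
          Polynomial.eval_X, eval_phi, ← hPr r r.2] at h6
        rw [h6, map_smul, MvPolynomial.smul_eval, DD2_apply]
      rw [hM, mem_SP] at hG'
      rw [eval_DD2 hab (hG'.2 r (Finset.mem_union_right _ r.2))] at h5
      rw [Polynomial.coe_aeval_eq_eval]
      exact (mul_eq_zero.1 h5).resolve_left (pow_ne_zero _ ht)
    · rw [hΛ' _ _ _ _ hab, map_zero]
  have h5 := Submodule.finrank_mono h4
  have h6 : finrank ℂ W =
      ∑ k : Fin (j + 1), finrank ℂ (GG (Finset.range 9) q m (d : ℤ) (k : ℕ)) :=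
    finrank_pi_fintype ℂ
  have h7 := Fin.sum_univ_eq_sum_range
    (fun k => finrank ℂ (GG (Finset.range 9) q m (d : ℤ) k)) (j + 1)
  have h8 := Fin.sum_univ_eq_sum_range
    (fun k => finrank ℂ (GG (Finset.range 9) q m (d : ℤ) (k + 1))) (j + 1)
  have h9 := Finset.sum_range_succ'
    (fun k => finrank ℂ (GG (Finset.range 9) q m (d : ℤ) k)) (j + 1)
  have h10 := Finset.sum_range_succ
    (fun k => finrank ℂ (GG (Finset.range 9) q m (d : ℤ) k)) (j + 1)
  rw [h8] at hlim
  rw [h6, h7, hM'] at h3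
  omega

end Helper18.Shgh
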