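import Pool.Agent.Helper18.CuspCurve
import Pool.Agent.Helper18.ShghDeg2

/-!
Nine points on the cuspidal cubic: dimensions.
-/

open Module

noncomputable section

namespace Helper18.Cusp

open Helper18.Shgh

/-- the parameters of the nine points -/
def zi (i : ℕ) : ℂ := (i : ℂ) + 1

theorem zi_ne (i : ℕ) : zi i ≠ 0 := by
  rw [zi]; exact_mod_cast i.succ_ne_zero

theorem zi_inj : Function.Injective zi := by
  intro i j h
  rw [zi, zi, add_left_inj] at h
  exact_mod_cast h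

theorem zi_sq_inj {i j : ℕ} (h : zi i ^ 2 = zi j ^ 2) : i = j := by
  rw [zi, zi] at h
  have h1 : (i + 1) ^ 2 = (j + 1) ^ 2 := by exact_mod_cast h
  have h2 := Nat.pow_left_injective (n := 2) (by norm_num) h1
  omega

/-- the nine points -/
def qq (i : ℕ) : Fin 2 → ℂ := cp (zi i)

/-- the polynomial with the prescribed zeros -/
def PP (a : ℕ → ℕ) : Polynomial ℂ :=
  ∏ i ∈ Finset.range 9, (Polynomial.X - Polynomial.C (zi i)) ^ a i

theorem PP_monic (a : ℕ → ℕ) : (PP a).Monic :=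
  Polynomial.monic_prod_of_monic _ _ fun _ _ => (Polynomial.monic_X_sub_C _).pow _

theorem natDegree_PP (a : ℕ → ℕ) : (PP a).natDegree = ∑ i ∈ Finset.range 9, a i := by
  rw [PP, Polynomial.natDegree_prod_of_monic _ _ fun _ _ => (Polynomial.monic_X_sub_C _).pow _]
  apply Finset.sum_congr rfl
  intro i _
  rw [Polynomial.natDegree_pow, Polynomial.natDegree_X_sub_C, mul_one]

theorem PP_coeff_zero (a : ℕ → ℕ) : (PP a).coeff 0 ≠ 0 := by
  rw [Polynomial.coeff_zero_eq_eval_zero, PP, Polynomial.eval_prod, Finset.prod_ne_zero_iff]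
  intro i _
  rw [Polynomial.eval_pow, Polynomial.eval_sub, Polynomial.eval_X, Polynomial.eval_C, zero_sub]
  exact pow_ne_zero _ (neg_ne_zero.2 (zi_ne i))

theorem PP_dvd {a : ℕ → ℕ} {f : Polynomial ℂ}
    (h : ∀ i ∈ Finset.range 9, (Polynomial.X - Polynomial.C (zi i)) ^ a i ∣ f) : PP a ∣ f := by
  apply Finset.prod_dvd_of_coprime _ h
  intro i _ j _ hij
  apply IsCoprime.pow
  apply Polynomial.isCoprime_X_sub_C_of_isUnit_sub
  exact (sub_ne_zero.2 fun h => hij (zi_inj h)).isUnit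

/-- the possible restrictions to the cubic -/
def UR (N : ℕ) (a : ℕ → ℕ) : Submodule ℂ (Polynomial ℂ) where
  carrier := {f | f ∈ Polynomial.degreeLT ℂ (N + 1) ∧ f.coeff 1 = 0 ∧
    ∀ i ∈ Finset.range 9, (Polynomial.X - Polynomial.C (zi i)) ^ a i ∣ f}
  add_mem' := by
    rintro f g ⟨h1, h2, h3⟩ ⟨h4, h5, h6⟩
    refine ⟨Submodule.add_mem _ h1 h4, ?_, fun i hi => dvd_add (h3 i hi) (h6 i hi)⟩
    rw [Polynomial.coeff_add, h2, h5, add_zero]
  zero_mem' := ⟨Submodule.zero_mem _, Polynomial.coeff_zero _, fun i _ => dvd_zero _⟩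
  smul_mem' := by
    rintro c f ⟨h1, h2, h3⟩
    refine ⟨Submodule.smul_mem _ c h1, ?_, fun i hi => ?_⟩
    · rw [Polynomial.coeff_smul, h2, smul_zero]
    · rw [Polynomial.smul_eq_C_mul]
      exact Dvd.dvd.mul_left (h3 i hi) _

theorem mem_UR {N : ℕ} {a : ℕ → ℕ} {f : Polynomial ℂ} : f ∈ UR N a ↔
    f ∈ Polynomial.degreeLT ℂ (N + 1) ∧ f.coeff 1 = 0 ∧
    ∀ i ∈ Finset.range 9, (Polynomial.X - Polynomial.C (zi i)) ^ a i ∣ f := Iff.rfl

instance (N : ℕ) (a : ℕ → ℕ) : FiniteDimensional ℂ (UR N a) :=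
  Submodule.finiteDimensional_of_le (fun _ h => h.1 : UR N a ≤ Polynomial.degreeLT ℂ (N + 1))

theorem finrank_UR_le {N : ℕ} {a : ℕ → ℕ} (h : ∑ i ∈ Finset.range 9, a i < N) :
    finrank ℂ (UR N a) + ∑ i ∈ Finset.range 9, a i ≤ N := by
  set κ := N - ∑ i ∈ Finset.range 9, a i with hκ
  let K : Submodule ℂ (Polynomial ℂ) := Polynomial.degreeLT ℂ (κ + 1) ⊓
    LinearMap.ker ((Polynomial.lcoeff ℂ 1) ∘ₗ LinearMap.mulLeft ℂ (PP a))
  have hmK : ∀ g, g ∈ K ↔ g ∈ Polynomial.degreeLT ℂ (κ + 1) ∧ (PP a * g).coeff 1 = 0 := fun g =>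
    Submodule.mem_inf
  have h1 : UR N a ≤ K.map (LinearMap.mulLeft ℂ (PP a)) := by
    rintro f ⟨h2, h3, h4⟩
    obtain ⟨g, hg⟩ := PP_dvd h4
    refine ⟨g, ?_, hg.symm⟩
    rw [SetLike.mem_coe, hmK]
    refine ⟨?_, by rw [← hg]; exact h3⟩
    rw [mem_degreeLT_iff]
    by_cases h0 : g = 0
    · exact Or.inl h0
    · right
      rw [mem_degreeLT_iff] at h2
      have hf0 : f ≠ 0 := by
        rw [hg]; exact mul_ne_zero (PP_monic a).ne_zero h0
      have h5 := h2.resolve_left hf0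
      rw [hg, (PP_monic a).natDegree_mul' h0, natDegree_PP] at h5
      omega
  have hKfd : FiniteDimensional ℂ K := Submodule.finiteDimensional_of_le
    (inf_le_left : K ≤ Polynomial.degreeLT ℂ (κ + 1))
  have h2 := (Submodule.finrank_mono h1).trans (Submodule.finrank_map_le _ _)
  have h3 : K < Polynomial.degreeLT ℂ (κ + 1) := by
    refine lt_of_le_of_ne inf_le_left ?_
    intro heq
    have h4 : Polynomial.X ∈ Polynomial.degreeLT ℂ (κ + 1) := by
      rw [mem_degreeLT_iff, Polynomial.natDegree_X]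
      right; omega
    rw [← heq, hmK, Polynomial.coeff_mul_X] at h4
    exact PP_coeff_zero a h4.2
  have h4 := Submodule.finrank_lt_finrank_of_lt h3
  rw [finrank_degreeLT] at h4
  omega

/-- polynomials with multiplicities at the nine points -/
abbrev YS (n : ℤ) (a : ℕ → ℕ) : Submodule ℂ R2 := SP n (Finset.range 9) qq a

theorem cu_mul_mem_YS {n : ℤ} {a : ℕ → ℕ} {G : R2} :
    cu * G ∈ YS n a ↔ G ∈ YS (n - 3) (fun i => a i - 1) := by
  rw [mem_SP, mem_SP, cu_mul_mem_V]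
  refine and_congr_right fun _ => forall₂_congr fun i _ => ?_
  constructor
  · intro h
    have h3 : cu ^ 1 * G ∈ mI (qq i) ^ a i := by rw [pow_one]; exact h
    exact mem_of_pow_mul_mem (cu_notMem (zi_ne i)) 1 h3
  · intro h
    have h2 : cu ∈ mI (qq i) ^ 1 := by rw [pow_one]; exact cu_mem _
    have h3 := mul_mem_mI_pow h2 h
    exact Ideal.pow_le_pow_right (by omega) h3

theorem rc_mem_UR {n : ℕ} {a : ℕ → ℕ} {G : R2} (h : G ∈ YS (n : ℤ) a) :
    rc G ∈ UR (3 * n) a := by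
  refine ⟨?_, coeff_one_rc G, fun i hi => rc_dvd (h.2 i hi)⟩
  rw [mem_degreeLT_iff]
  right
  have := natDegree_rc h.1
  omega

theorem YS_step {n : ℕ} {a : ℕ → ℕ} (h : ∑ i ∈ Finset.range 9, a i < 3 * n) :
    finrank ℂ (YS (n : ℤ) a) + ∑ i ∈ Finset.range 9, a i ≤
      finrank ℂ (YS ((n : ℤ) - 3) (fun i => a i - 1)) + 3 * n := by
  have h1 := finrank_le_of_map (YS (n : ℤ) a) (YS ((n : ℤ) - 3) (fun i => a i - 1))
    (UR (3 * n) a) rc.toLinearMap (LinearMap.mulLeft ℂ cu)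
    (fun x hx => rc_mem_UR hx)
    (by
      intro x hx h0
      obtain ⟨G, hG⟩ := exists_of_rc_eq_zero h0
      refine ⟨G, ?_, hG.symm⟩
      rw [← cu_mul_mem_YS, ← hG]; exact hx)
  have h2 := finrank_UR_le h
  omega

end Helper18.Cusp
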