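import Pool.Agent.Helper18.ShghRR

/-!
General points impose independent conditions on spaces of polynomials in one variable.
-/

open Module Polynomial

noncomputable section

namespace Helper18.Cusp

open Helper18.Shgh

theorem natDegree_eq_of_wronsk {f g : ℂ[X]} (hf : f ≠ 0) (hg : g ≠ 0)
    (h : g * derivative f = f * derivative g) : f.natDegree = g.natDegree := by
  have h1 : (g * derivative f).coeff (g.natDegree + f.natDegree - 1) =
      (f * derivative g).coeff (g.natDegree + f.natDegree - 1) := by rw [h]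
  rcases Nat.eq_zero_or_pos (g.natDegree + f.natDegree) with h0 | h0
  · omega
  have key : ∀ p q : ℂ[X], 0 < p.natDegree + q.natDegree →
      (p * derivative q).coeff (p.natDegree + q.natDegree - 1) =
        p.leadingCoeff * q.leadingCoeff * q.natDegree := by
    intro p q hpq
    rcases Nat.eq_zero_or_pos q.natDegree with hq | hq
    · rw [Polynomial.natDegree_eq_zero] at hq
      obtain ⟨c, rfl⟩ := hq
      simp
    · have e : p.natDegree + q.natDegree - 1 = p.natDegree + (q.natDegree - 1) := by omega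
      rw [e, Polynomial.coeff_mul_add_eq_of_natDegree_le le_rfl (Polynomial.natDegree_derivative_le q),
        Polynomial.coeff_derivative, Nat.sub_add_cancel hq]
      have : ((q.natDegree - 1 : ℕ) : ℂ) + 1 = q.natDegree := by
        rw [Nat.cast_sub hq]; push_cast; ring
      rw [this, ← Polynomial.leadingCoeff, ← Polynomial.leadingCoeff]
      ring
  rw [key g f h0, add_comm g.natDegree, key f g (by omega)] at h1
  have h2 : g.leadingCoeff * f.leadingCoeff ≠ 0 :=
    mul_ne_zero (leadingCoeff_ne_zero.2 hg) (leadingCoeff_ne_zero.2 hf)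
  rw [mul_comm f.leadingCoeff g.leadingCoeff] at h1
  have h3 := mul_left_cancel₀ h2 h1
  exact_mod_cast h3

theorem exists_smul_of_wronsk {f g : ℂ[X]} (hg : g ≠ 0)
    (h : g * derivative f = f * derivative g) : ∃ c : ℂ, f = c • g := by
  by_cases hf : f = 0
  · exact ⟨0, by rw [hf, zero_smul]⟩
  have h1 := natDegree_eq_of_wronsk hf hg h
  refine ⟨f.leadingCoeff / g.leadingCoeff, ?_⟩
  by_contra hne
  set c := f.leadingCoeff / g.leadingCoeff with hc
  have h2 : f - c • g ≠ 0 := sub_ne_zero.2 hne
  have h3 : g * derivative (f - c • g) = (f - c • g) * derivative g := by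
    rw [derivative_sub, derivative_smul, mul_sub, sub_mul, h, smul_mul_assoc, mul_smul_comm]
  have h4 := natDegree_eq_of_wronsk h2 hg h3
  have h5 : (f - c • g).coeff g.natDegree = 0 := by
    rw [coeff_sub, coeff_smul, ← h1, coeff_natDegree, h1, coeff_natDegree, smul_eq_mul, hc,
      div_mul_cancel₀ _ (leadingCoeff_ne_zero.2 hg), sub_self]
  rw [← h4, coeff_natDegree] at h5
  exact h2 (leadingCoeff_eq_zero.1 h5)

/-- a general point is not a flex of a finite dimensional space of polynomials -/
theorem exists_general (r : ℕ) : ∀ W : Submodule ℂ ℂ[X], FiniteDimensional ℂ W →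
    finrank ℂ W = r → ∃ N : ℂ[X], N ≠ 0 ∧ ∀ a : ℂ, N.eval a ≠ 0 → ∀ f ∈ W,
      (X - C a) ^ r ∣ f → f = 0 := by
  induction r with
  | zero =>
    intro W hW h
    have := Submodule.finrank_eq_zero.1 h
    refine ⟨1, one_ne_zero, fun a _ f hf _ => ?_⟩
    rw [this] at hf
    exact hf
  | succ r ih =>
    intro W hW h
    have hne : W ≠ ⊥ := by
      rintro rfl
      rw [finrank_bot] at h
      omega
    obtain ⟨f₀, hf₀, hf₀'⟩ := (Submodule.ne_bot_iff W).1 hne
    let φ : ℂ[X] →ₗ[ℂ] ℂ[X] :=
      (LinearMap.mulLeft ℂ f₀) ∘ₗ derivative - (LinearMap.mulLeft ℂ (derivative f₀))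
    have hφ : ∀ f, φ f = f₀ * derivative f - derivative f₀ * f := fun f => rfl
    have hker : ∀ f, φ f = 0 → ∃ c : ℂ, f = c • f₀ := by
      intro f hf
      rw [hφ, sub_eq_zero] at hf
      exact exists_smul_of_wronsk hf₀' (by rw [hf, mul_comm])
    have h1 := LinearMap.finrank_range_add_finrank_ker (φ.domRestrict W)
    have h2 : finrank ℂ (LinearMap.ker (φ.domRestrict W)) = 1 := by
      apply le_antisymm
      · have h3 : (LinearMap.ker (φ.domRestrict W)).map W.subtype ≤ ℂ ∙ f₀ := by
          rintro _ ⟨x, hx, rfl⟩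
          obtain ⟨c, hc⟩ := hker x.1 (LinearMap.mem_ker.1 hx)
          rw [Submodule.mem_span_singleton]
          exact ⟨c, hc.symm⟩
        have h4 := Submodule.finrank_mono h3
        rwa [finrank_map_inj W.subtype_injective, finrank_span_singleton hf₀'] at h4
      · rw [Nat.one_le_iff_ne_zero]
        intro h3
        have h4 := Submodule.finrank_eq_zero.1 h3
        have h5 : (⟨f₀, hf₀⟩ : W) ∈ LinearMap.ker (φ.domRestrict W) := by
          rw [LinearMap.mem_ker]
          change φ f₀ = 0
          rw [hφ, mul_comm, sub_self]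
        rw [h4, Submodule.mem_bot] at h5
        exact hf₀' (congrArg Subtype.val h5)
    have h3 : LinearMap.range (φ.domRestrict W) = W.map φ := by
      rw [LinearMap.range_domRestrict]
    rw [h3, h2, h] at h1
    obtain ⟨N, hN, hN2⟩ := ih (W.map φ) inferInstance (by omega)
    refine ⟨N * f₀, mul_ne_zero hN hf₀', fun a ha f hf hdvd => ?_⟩
    rw [eval_mul] at ha
    have h4 : φ f = 0 := by
      apply hN2 a (left_ne_zero_of_mul ha) _ ⟨f, hf, rfl⟩
      rw [hφ]
      apply dvd_sub
      · apply Dvd.dvd.mul_left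
        obtain ⟨g, rfl⟩ := hdvd
        rw [derivative_mul, derivative_X_sub_C_pow, Nat.add_sub_cancel]
        apply dvd_add
        · rw [mul_assoc, mul_comm _ g, mul_left_comm]
          exact dvd_mul_of_dvd_right (Dvd.intro_left _ rfl) _ |>.trans (by
            exact dvd_rfl)
        · exact Dvd.dvd.mul_right (pow_dvd_pow _ (Nat.le_succ r)) _
      · exact Dvd.dvd.mul_left ((pow_dvd_pow _ (Nat.le_succ r)).trans hdvd) _
    obtain ⟨c, hc⟩ := hker f h4
    have h5 : f.eval a = 0 := by
      obtain ⟨g, hg⟩ := hdvd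
      rw [hg, eval_mul, eval_pow, eval_sub, eval_X, eval_C, sub_self, pow_succ, mul_zero, zero_mul]
    rw [hc, eval_smul, smul_eq_mul] at h5
    rcases mul_eq_zero.1 h5 with h6 | h6
    · rw [hc, h6, zero_smul]
    · exact absurd h6 (right_ne_zero_of_mul ha)

/-- elements with prescribed Taylor coefficients -/
theorem exists_taylor {W : Submodule ℂ ℂ[X]} [FiniteDimensional ℂ W] {a : ℂ}
    (h : ∀ f ∈ W, (X - C a) ^ finrank ℂ W ∣ f → f = 0) (x : ℕ) (hx : x < finrank ℂ W) :
    ∃ f ∈ W, (taylor a f).coeff x = 1 ∧ ∀ i < x, (taylor a f).coeff i = 0 := by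
  let θ : W →ₗ[ℂ] (Fin (finrank ℂ W) → ℂ) :=
    (LinearMap.pi fun i => (lcoeff ℂ (i : ℕ)) ∘ₗ taylor a) ∘ₗ W.subtype
  have hθ : ∀ (f : W) (i : Fin (finrank ℂ W)), θ f i = (taylor a (f : ℂ[X])).coeff i :=
    fun _ _ => rfl
  have hinj : Function.Injective θ := by
    rw [← LinearMap.ker_eq_bot, eq_bot_iff]
    intro f hf
    rw [LinearMap.mem_ker] at hf
    rw [Submodule.mem_bot]
    apply Subtype.ext
    apply h f.1 f.2
    rw [X_sub_C_pow_dvd_iff, X_pow_dvd_iff]
    intro i hi
    have := congrFun hf ⟨i, hi⟩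
    rw [hθ] at this
    exact this
  have hsurj : Function.Surjective θ := by
    rw [← LinearMap.injective_iff_surjective_of_finrank_eq_finrank]
    · exact hinj
    · rw [finrank_fin_fun]
  obtain ⟨f, hf⟩ := hsurj (Pi.single ⟨x, hx⟩ 1)
  refine ⟨f, f.2, ?_, fun i hi => ?_⟩
  · have := congrFun hf ⟨x, hx⟩
    rw [hθ, Pi.single_eq_same] at this
    exact this
  · have := congrFun hf ⟨i, hi.trans hx⟩
    rw [hθ, Pi.single_eq_of_ne] at this
    · exact this
    · intro h
      have := congrArg Fin.val h
      simp only at this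
      omega

end Helper18.Cusp
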