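import Pool.Agent.Helper18.ShghSteps

open Module

noncomputable section

namespace Helper18.Shgh

/-- exponents in two variables -/
def e2 (u v : ℕ) : Fin 2 →₀ ℕ := Finsupp.equivFunOnFinite.symm ![u, v]

theorem e2_eq (e : Fin 2 →₀ ℕ) : e = e2 (e 0) (e 1) := by
  ext i
  fin_cases i <;> rfl

theorem le_finrank_V (n : ℤ) (hn : -2 ≤ n) : (n + 1) * (n + 2) ≤ 2 * (finrank ℂ (V n) : ℤ) := by
  rcases lt_or_ge n 0 with h0 | h0
  · rw [V_neg h0, finrank_bot]
    have : n = -1 ∨ n = -2 := by omega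
    rcases this with rfl | rfl <;> norm_num
  · obtain ⟨N, rfl⟩ := Int.eq_ofNat_of_zero_le h0
    let φ : HS N →ₗ[ℂ] V (N : ℤ) :=
      (deh.toLinearMap.domRestrict (HS N)).codRestrict (V (N : ℤ)) (fun x => deh_mem_V x.2)
    have hφ : Function.Injective φ := by
      rw [← LinearMap.ker_eq_bot, eq_bot_iff]
      intro x hx
      have h1 : deh (x : R3) = 0 := congrArg Subtype.val (LinearMap.mem_ker.1 hx)
      exact Subtype.ext (deh_inj x.2 h1)
    have h1 := LinearMap.finrank_le_finrank_of_injective hφ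
    have h2 := (le_finrank_HS N).trans h1
    have h3 := two_choose' N
    have h4 : (((N + 2).choose 2 : ℕ) : ℤ) ≤ finrank ℂ (V (N : ℤ)) := by exact_mod_cast h2
    linarith
where
  two_choose' (N : ℕ) : 2 * ((N + 2).choose 2 : ℤ) = ((N : ℤ) + 1) * (N + 2) := by
    have h2 : (N + 2).choose 2 * 2 = (N + 2) * (N + 1) := by
      rw [Nat.choose_two_right]
      exact Nat.div_mul_cancel (Nat.even_mul_pred_self (N + 2)).two_dvd
    have h3 : (((N + 2).choose 2 : ℕ) : ℤ) * 2 = (N + 2) * (N + 1) := by exact_mod_cast h2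
    linarith

/-- the functionals of a multiplicity condition -/
def tayL (M : ℕ) (P : Fin 2 → ℂ) : R2 →ₗ[ℂ] (Tri M → ℂ) :=
  LinearMap.pi fun x => (MvPolynomial.lcoeff ℂ (e2 x.2 (x.1 - x.2))) ∘ₗ (tau P).toLinearMap

theorem mem_of_tayL {M : ℕ} {P : Fin 2 → ℂ} {F : R2} (h : tayL M P F = 0) : F ∈ mI P ^ M := by
  rw [mem_mI_pow]
  intro e he
  have h1 : e.degree = e 0 + e 1 := by
    rw [Finsupp.degree_eq_sum, Fin.sum_univ_two]
  rw [h1] at he
  have h2 := congrFun h ⟨⟨e 0 + e 1, he⟩, ⟨e 0, by simp only; omega⟩⟩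
  change MvPolynomial.coeff (e2 (e 0) (e 0 + e 1 - e 0)) (tau P F) = 0 at h2
  rw [Nat.add_sub_cancel_left, ← e2_eq] at h2
  exact h2

variable {q : ℕ → Pt}

theorem chi_le (n : ℤ) (hn : -2 ≤ n) (a m : ℕ → ℕ) (P : ℕ → Fin 2 → ℂ) :
    chi n a m ∅ ≤ 2 * (finrank ℂ (XX q n a m ∅ P) : ℤ) := by
  let K : ℕ → Submodule ℂ R2 := fun i =>
    Submodule.restrictScalars ℂ ((mI (q i).pt ^ a i : Ideal R2))
  have h1 := finrank_le_inf_iInf (Finset.range 9) K (fun i => (a i + 1).choose 2) (by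
      intro i _ U hU
      have : FiniteDimensional ℂ (U ⊓ K i : Submodule ℂ R2) :=
        Submodule.finiteDimensional_of_le inf_le_left
      have h2 := finrank_le_add (U ⊓ K i) U (tayL (a i) (q i).pt) (by
          intro x hx h0
          refine Submodule.mem_inf.2 ⟨hx, ?_⟩
          exact mem_of_tayL h0)
      rw [finrank_fintype_fun_eq_card, card_Tri] at h2
      exact h2) (V n)
  have h2 : V n ⊓ ⨅ i ∈ Finset.range 9, K i ≤ XX q n a m ∅ P := by
    intro F hF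
    obtain ⟨h3, h4⟩ := Submodule.mem_inf.1 hF
    refine ⟨h3, fun i hi => ?_, fun r hr => by simp at hr⟩
    rw [Submodule.mem_iInf] at h4
    have h5 := h4 i
    rw [Submodule.mem_iInf] at h5
    exact h5 hi
  have h3 := Submodule.finrank_mono h2
  have h4 := le_finrank_V n hn
  have h5 : (finrank ℂ (V n) : ℤ) ≤ finrank ℂ (XX q n a m ∅ P) +
      ∑ i ∈ Finset.range 9, ((a i + 1).choose 2 : ℤ) := by
    have : finrank ℂ (V n) ≤ finrank ℂ (XX q n a m ∅ P) +
      ∑ i ∈ Finset.range 9, (a i + 1).choose 2 := by omega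
    exact_mod_cast this
  have h6 : 2 * ∑ i ∈ Finset.range 9, ((a i + 1).choose 2 : ℤ) =
      ∑ i ∈ Finset.range 9, (a i : ℤ) * (a i + 1) := by
    rw [Finset.mul_sum]
    apply Finset.sum_congr rfl
    intro i _
    have h7 : (a i + 1).choose 2 * 2 = (a i + 1) * a i := by
      rw [Nat.choose_two_right, Nat.add_sub_cancel]
      exact Nat.div_mul_cancel (Nat.even_mul_pred_self (a i + 1)).two_dvd
    have h8 : (((a i + 1).choose 2 : ℕ) : ℤ) * 2 = (a i + 1) * a i := by exact_mod_cast h7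
    linarith
  rw [chi, Finset.sum_empty]
  linarith

theorem Lq_pow_mul_mem_V {t : ℕ} {n : ℤ} {F : R2} : Lq q ^ t * F ∈ V n ↔ F ∈ V (n - t) := by
  induction t generalizing n with
  | zero => simp
  | succ t ih =>
    rw [pow_succ', mul_assoc]
    have h1 : Lq q * (Lq q ^ t * F) ∈ V n ↔ Lq q ^ t * F ∈ V (n - 1) := ll_mul_mem_V
    rw [h1, ih]
    push_cast
    rw [show n - 1 - (t : ℤ) = n - (t + 1) by ring]

/-- passing to a subspace -/
theorem subspace_R (hq : Nine q) {n : ℤ} {t : ℕ} {a b m : ℕ → ℕ} {E : Finset ℕ}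
    (hn : -2 ≤ n - t) (h0 : a 0 ≤ b 0 + t) (h1 : a 1 ≤ b 1 + t)
    (hab : ∀ i ∈ Finset.range 9, 2 ≤ i → a i ≤ b i)
    (hbase : ∀ P, 2 * (finrank ℂ (XX q n a m ∅ P) : ℤ) ≤ chi n a m ∅)
    (h : RR q (n - t) b m E) : RR q n a m E := by
  obtain ⟨P, hP, hdim⟩ := h
  refine ⟨P, hP, ?_⟩
  let μ : R2 →ₗ[ℂ] R2 := LinearMap.mulLeft ℂ (Lq q ^ t)
  have hμ : Function.Injective μ := by
    intro F G hFG
    exact mul_left_cancel₀ (pow_ne_zero _ (ll_ne_zero _ _)) hFG
  have hX : ∀ F : R2, (∀ i ∈ Finset.range 9, F ∈ mI (q i).pt ^ b i) →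
      ∀ i ∈ Finset.range 9, Lq q ^ t * F ∈ mI (q i).pt ^ a i := by
    intro F hF i hi
    have h2 := hF i hi
    rcases Nat.lt_or_ge i 2 with h3 | h3
    · have h4 : Lq q ^ t ∈ mI (q i).pt ^ t := by
        apply Ideal.pow_mem_pow
        have : i = 0 ∨ i = 1 := by omega
        rcases this with rfl | rfl
        · exact Lq_mem0
        · exact Lq_mem1 hq
      have h5 := mul_mem_mI_pow h4 h2
      have h6 : a i ≤ t + b i := by
        have : i = 0 ∨ i = 1 := by omega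
        rcases this with rfl | rfl <;> omega
      exact Ideal.pow_le_pow_right h6 h5
    · exact Ideal.mul_mem_left _ _ (Ideal.pow_le_pow_right (hab i hi h3) h2)
  set Z := XX q n a m ∅ P with hZ
  set A := XX q n a m E P with hA
  set B := (XX q (n - t) b m ∅ P).map μ with hB
  have hAZ : A ≤ Z := by
    rintro F ⟨h2, h3, -⟩
    exact ⟨h2, h3, fun r hr => by simp at hr⟩
  have hBZ : B ≤ Z := by
    rintro _ ⟨F, ⟨h2, h3, -⟩, rfl⟩
    exact ⟨Lq_pow_mul_mem_V.2 h2, hX F h3, fun r hr => by simp at hr⟩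
  have hAB : A ⊓ B ≤ (XX q (n - t) b m E P).map μ := by
    rintro F ⟨hFA, G, ⟨h2, h3, -⟩, rfl⟩
    refine ⟨G, ⟨h2, h3, fun r hr => ?_⟩, rfl⟩
    have h4 := hFA.2.2 r hr
    have h5 : MvPolynomial.eval (P r) (Lq q ^ t) ≠ 0 := by
      rw [map_pow]; exact pow_ne_zero _ (hP r hr).2
    exact (mem_of_mul_unit h5).1 h4
  have hZfd : FiniteDimensional ℂ Z := by rw [hZ]; infer_instance
  have hAfd : FiniteDimensional ℂ A := by rw [hA]; infer_instance
  have hBfd : FiniteDimensional ℂ B := by rw [hB]; infer_instance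
  have e1 := Submodule.finrank_sup_add_finrank_inf_eq A B
  have e2 : finrank ℂ (A ⊔ B : Submodule ℂ R2) ≤ finrank ℂ Z :=
    Submodule.finrank_mono (sup_le hAZ hBZ)
  have e3 := Submodule.finrank_mono hAB
  rw [finrank_map_inj hμ] at e3
  have e4 : finrank ℂ B = finrank ℂ (XX q (n - t) b m ∅ P) := by
    rw [hB, finrank_map_inj hμ]
  have e5 := chi_le (q := q) (n - t) hn b m P
  have e6 := hbase P
  have e7 : (finrank ℂ A : ℤ) + finrank ℂ (XX q (n - t) b m ∅ P) ≤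
      finrank ℂ Z + finrank ℂ (XX q (n - t) b m E P) := by
    have : finrank ℂ A + finrank ℂ (XX q (n - t) b m ∅ P) ≤
      finrank ℂ Z + finrank ℂ (XX q (n - t) b m E P) := by omega
    exact_mod_cast this
  rw [chi] at e5 e6 hdim ⊢
  rw [Finset.sum_empty] at e5 e6
  linarith

/-- the base case: nine points -/
theorem base_red (hq : Nine q) {n : ℕ} {a m : ℕ → ℕ} (ha : Antitone a)
    (hd : a 0 + a 1 + a 2 ≤ n) (hsum : ∑ i ∈ Finset.range 9, a i < 3 * n) (P : ℕ → Fin 2 → ℂ) :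
    2 * (finrank ℂ (XX q n a m ∅ P) : ℤ) ≤ chi n a m ∅ := by
  have h1 := GG_bound (q := q) ha hd hsum hq.hinj.injOn (fun i _ => hq.hz i) (K := a 2)
    (Or.inl rfl) (a 2) 0 (by omega)
  have h2 : XX q n a m ∅ P ≤ GG (Finset.range 9) q a (n : ℤ) 0 := by
    rintro F ⟨h3, h4, -⟩
    refine ⟨by simpa using h3, fun i hi => ?_⟩
    rw [pow_zero, one_mul]
    exact h4 i hi
  have h3 := Submodule.finrank_mono h2
  have h4 : (finrank ℂ (XX q n a m ∅ P) : ℤ) ≤
    finrank ℂ (GG (Finset.range 9) q a (n : ℤ) 0) := by exact_mod_cast h3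
  simp only [Nat.sub_zero, Nat.cast_zero, mul_zero, sub_zero] at h1
  rw [chi, Finset.sum_empty]
  linarith

theorem base_two (hq : Nine q) {n : ℤ} {a m : ℕ → ℕ} (hn : -1 ≤ n)
    (ha : ∀ i ∈ Finset.range 9, 2 ≤ i → a i = 0) (hd : (a 0 : ℤ) + a 1 ≤ n + 1)
    (P : ℕ → Fin 2 → ℂ) :
    2 * (finrank ℂ (XX q n a m ∅ P) : ℤ) ≤ chi n a m ∅ := by
  have hPQ : (q 0).pt 0 ≠ (q 1).pt 0 := by
    intro h
    have := hq.hinj h
    omega
  have h1 := finrank_TP' hPQ n (by omega) (a 0) (a 1) (Or.inl hd)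
  have h2 : XX q n a m ∅ P ≤ TP n (q 0).pt (q 1).pt (a 0) (a 1) := by
    rintro F ⟨h3, h4, -⟩
    exact ⟨h3, h4 0 (by simp), h4 1 (by simp)⟩
  have h3 := Submodule.finrank_mono h2
  have h4 : (finrank ℂ (XX q n a m ∅ P) : ℤ) ≤
    finrank ℂ (TP n (q 0).pt (q 1).pt (a 0) (a 1)) := by exact_mod_cast h3
  have h5 : ∑ i ∈ Finset.range 9, (a i : ℤ) * (a i + 1) =
      (a 0 : ℤ) * (a 0 + 1) + a 1 * (a 1 + 1) := by
    simp only [Finset.sum_range_succ, Finset.sum_range_zero]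
    rw [ha 2 (by simp) (by norm_num), ha 3 (by simp) (by norm_num), ha 4 (by simp) (by norm_num),
      ha 5 (by simp) (by norm_num), ha 6 (by simp) (by norm_num), ha 7 (by simp) (by norm_num),
      ha 8 (by simp) (by norm_num)]
    simp
  rw [chi, Finset.sum_empty, h5]
  linarith

/-- multiplicity zero points -/
theorem RR_of_zero {n : ℤ} {a m : ℕ → ℕ} {E : Finset ℕ} (hm : ∀ r ∈ E, m r = 0)
    (hbase : ∀ P, 2 * (finrank ℂ (XX q n a m ∅ P) : ℤ) ≤ chi n a m ∅) : RR q n a m E := by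
  obtain ⟨P, hP⟩ := exists_good q E
  refine ⟨P, hP, ?_⟩
  have h1 : XX q n a m E P ≤ XX q n a m ∅ P := by
    rintro F ⟨h2, h3, -⟩
    exact ⟨h2, h3, fun r hr => by simp at hr⟩
  have h2 := Submodule.finrank_mono h1
  have h3 : (finrank ℂ (XX q n a m E P) : ℤ) ≤ finrank ℂ (XX q n a m ∅ P) := by
    exact_mod_cast h2
  have h4 : ∑ r ∈ E, (m r : ℤ) * (m r + 1) = 0 :=
    Finset.sum_eq_zero fun r hr => by rw [hm r hr]; simp
  have h5 := hbase P
  rw [chi] at h5 ⊢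
  rw [Finset.sum_empty] at h5
  rw [h4]
  linarith

end Helper18.Shgh
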