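import Pool.Agent.Helper18.CuspBase
import Pool.Agent.Helper18.CuspOne
import Pool.Agent.Helper18.ShghSub

/-!
An etale chart of the plane along the cuspidal cubic and leading monomials in this chart.
-/

open Module

noncomputable section

namespace Helper18.Cusp

open Helper18.Shgh

/-- the chart `(u, w) ↦ ((o + u)^2, (o + u)^3 + w)` -/
def Ph (o : ℂ) : R2 →ₐ[ℂ] R2 :=
  MvPolynomial.aeval ![(MvPolynomial.C o + MvPolynomial.X 0) ^ 2,
    (MvPolynomial.C o + MvPolynomial.X 0) ^ 3 + MvPolynomial.X 1]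

theorem Ph_X0 (o : ℂ) : Ph o (MvPolynomial.X 0) = (MvPolynomial.C o + MvPolynomial.X 0) ^ 2 := by
  simp [Ph]
theorem Ph_X1 (o : ℂ) : Ph o (MvPolynomial.X 1) =
    (MvPolynomial.C o + MvPolynomial.X 0) ^ 3 + MvPolynomial.X 1 := by
  simp [Ph]

/-- the second factor of the cubic in the chart -/
def UU (o : ℂ) : R2 := 2 * (MvPolynomial.C o + MvPolynomial.X 0) ^ 3 + MvPolynomial.X 1

theorem Ph_cu (o : ℂ) : Ph o cu = MvPolynomial.X 1 * UU o := by
  rw [cu, map_sub, map_pow, map_pow, Ph_X0, Ph_X1, UU]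
  ring

/-- restriction to `w = 0` -/
def res0 : R2 →ₐ[ℂ] Polynomial ℂ := MvPolynomial.aeval ![Polynomial.X, 0]

theorem res0_Ph (o : ℂ) (G : R2) : res0 (Ph o G) = Polynomial.taylor o (rc G) := by
  have h : res0.comp (Ph o) = (Polynomial.taylorAlgHom o).comp rc := by
    apply MvPolynomial.algHom_ext
    intro i
    fin_cases i
    · change res0 (Ph o (MvPolynomial.X 0)) = Polynomial.taylor o (rc (MvPolynomial.X 0))
      rw [Ph_X0, rc_X0]
      simp [res0, Polynomial.taylor_apply, add_comm, MvPolynomial.algebraMap_eq]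
    · change res0 (Ph o (MvPolynomial.X 1)) = Polynomial.taylor o (rc (MvPolynomial.X 1))
      rw [Ph_X1, rc_X1]
      simp [res0, Polynomial.taylor_apply, add_comm, MvPolynomial.algebraMap_eq]
  exact DFunLike.congr_fun h G

theorem e2_inj {u v u' v' : ℕ} (h : e2 u v = e2 u' v') : u = u' ∧ v = v' := by
  have h0 := DFunLike.congr_fun h 0
  have h1 := DFunLike.congr_fun h 1
  exact ⟨h0, h1⟩

theorem coeff_res0 (F : R2) (i : ℕ) : (res0 F).coeff i = MvPolynomial.coeff (e2 i 0) F := by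
  induction F using MvPolynomial.induction_on' with
  | monomial e c =>
    rw [res0, MvPolynomial.aeval_monomial, Finsupp.prod_fintype _ _ (by simp), Fin.prod_univ_two]
    change (algebraMap ℂ (Polynomial ℂ) c * (Polynomial.X ^ (e 0) * 0 ^ (e 1))).coeff i = _
    rw [MvPolynomial.coeff_monomial, Polynomial.algebraMap_eq, e2_eq e]
    change (Polynomial.C c * (Polynomial.X ^ (e 0) * 0 ^ (e 1))).coeff i = _
    rcases Nat.eq_zero_or_pos (e 1) with h1 | h1
    · rw [h1, pow_zero, mul_one, Polynomial.coeff_C_mul, Polynomial.coeff_X_pow]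
      by_cases h2 : i = e 0
      · rw [if_pos h2, h2, if_pos rfl, mul_one]
      · rw [if_neg h2, if_neg (fun h => h2 (e2_inj h).1.symm), mul_zero]
    · rw [zero_pow (by omega), mul_zero, mul_zero, Polynomial.coeff_zero,
        if_neg (fun h => by have := (e2_inj h).2; omega)]
  | add F G hF hG => rw [map_add, Polynomial.coeff_add, MvPolynomial.coeff_add, hF, hG]

/-- the monomial `d` is the leading monomial of `F` (lower powers of `w`, then lower powers
of `u` come first) -/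
def Lead (F : R2) (d : ℕ × ℕ) : Prop :=
  MvPolynomial.coeff (e2 d.1 d.2) F ≠ 0 ∧
    ∀ p : ℕ × ℕ, p.2 < d.2 ∨ (p.2 = d.2 ∧ p.1 < d.1) → MvPolynomial.coeff (e2 p.1 p.2) F = 0

theorem coeff_X1_pow_mul (b : ℕ) (F : R2) (i j : ℕ) :
    MvPolynomial.coeff (e2 i j) (MvPolynomial.X 1 ^ b * F) =
      if b ≤ j then MvPolynomial.coeff (e2 i (j - b)) F else 0 := by
  rw [MvPolynomial.X_pow_eq_monomial, MvPolynomial.coeff_monomial_mul']
  have h1 : Finsupp.single (1 : Fin 2) b ≤ e2 i j ↔ b ≤ j := by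
    rw [Finsupp.single_le_iff]
    rfl
  by_cases h : b ≤ j
  · rw [if_pos (h1.2 h), if_pos h, one_mul]
    congr 1
    ext k
    fin_cases k
    · simp [e2]
    · simp [e2]
  · rw [if_neg (fun h2 => h (h1.1 h2)), if_neg h]

theorem lead_chart {o : ℂ} (ho : o ≠ 0) {g : R2} {x b : ℕ}
    (h1 : (Polynomial.taylor o (rc g)).coeff x = 1)
    (h2 : ∀ i < x, (Polynomial.taylor o (rc g)).coeff i = 0) :
    Lead (Ph o (cu ^ b * g)) (x, b) := by
  have e1 : Ph o (cu ^ b * g) = MvPolynomial.X 1 ^ b * (UU o ^ b * Ph o g) := by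
    rw [map_mul, map_pow, Ph_cu, mul_pow, mul_assoc]
  have e2' : res0 (UU o ^ b * Ph o g) =
      (2 * (Polynomial.X + Polynomial.C o) ^ 3) ^ b * Polynomial.taylor o (rc g) := by
    rw [map_mul, res0_Ph, map_pow]
    congr 2
    simp [UU, res0, MvPolynomial.algebraMap_eq, add_comm]
  obtain ⟨f, hf⟩ : (Polynomial.X : Polynomial ℂ) ^ x ∣ Polynomial.taylor o (rc g) :=
    Polynomial.X_pow_dvd_iff.2 h2
  have hf0 : f.coeff 0 = 1 := by
    rw [← h1, hf, Polynomial.coeff_X_pow_mul', if_pos le_rfl, Nat.sub_self]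
  have e3 : res0 (UU o ^ b * Ph o g) =
      Polynomial.X ^ x * ((2 * (Polynomial.X + Polynomial.C o) ^ 3) ^ b * f) := by
    rw [e2', hf]; ring
  constructor
  · rw [e1, coeff_X1_pow_mul]
    simp only [le_refl, if_true, Nat.sub_self]
    rw [← coeff_res0, e3, Polynomial.coeff_X_pow_mul', if_pos le_rfl, Nat.sub_self,
      Polynomial.mul_coeff_zero, hf0, mul_one, Polynomial.coeff_zero_eq_eval_zero]
    simp [ho]
  · rintro ⟨i, j⟩ hp
    simp only at hp
    rw [e1, coeff_X1_pow_mul]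
    rcases hp with hp | ⟨hp1, hp2⟩
    · rw [if_neg (by simp only; omega)]
    · simp only [hp1, le_refl, if_true, Nat.sub_self]
      rw [← coeff_res0, e3, Polynomial.coeff_X_pow_mul', if_neg (by omega)]

/-- the chart respects multiplicities -/
theorem Ph_mem {o : ℂ} {P : Fin 2 → ℂ} {m : ℕ} {G : R2}
    (h : G ∈ mI ![(o + P 0) ^ 2, (o + P 0) ^ 3 + P 1] ^ m) : Ph o G ∈ mI P ^ m := by
  have h1 : mI ![(o + P 0) ^ 2, (o + P 0) ^ 3 + P 1] ≤ Ideal.comap (Ph o) (mI P) := by
    intro F hF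
    rw [Ideal.mem_comap, mem_mI_iff]
    rw [mem_mI_iff] at hF
    rw [← hF]
    have h2 : (MvPolynomial.aeval P : R2 →ₐ[ℂ] ℂ).comp (Ph o) =
        MvPolynomial.aeval ![(o + P 0) ^ 2, (o + P 0) ^ 3 + P 1] := by
      apply MvPolynomial.algHom_ext
      intro i
      fin_cases i <;> simp [Ph]
    exact DFunLike.congr_fun h2 F
  have h2 := Ideal.pow_right_mono h1 m h
  exact Ideal.le_comap_pow (Ph o) m h2

end Helper18.Cusp
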