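import Pool.Agent.Helper18.ShghPeel

/-!
The cuspidal cubic `y^2 = x^3` and the restriction of polynomials to it.
-/

open Module

noncomputable section

namespace Helper18.Cusp

open Helper18.Shgh

/-- the cuspidal cubic -/
def cu : R2 := MvPolynomial.X 1 ^ 2 - MvPolynomial.X 0 ^ 3

theorem totalDegree_cu : cu.totalDegree = 3 := by
  apply le_antisymm
  · rw [cu]
    refine (MvPolynomial.totalDegree_sub _ _).trans (max_le ?_ ?_)
    · rw [MvPolynomial.totalDegree_X_pow]; omega
    · rw [MvPolynomial.totalDegree_X_pow]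
  · have h : MvPolynomial.coeff (Finsupp.single (0 : Fin 2) 3) cu ≠ 0 := by
      have h1 : ¬ (Finsupp.single (1 : Fin 2) 2 = Finsupp.single (0 : Fin 2) 3) := by
        intro h
        have := DFunLike.congr_fun h 0
        simp at this
      rw [cu, MvPolynomial.coeff_sub, MvPolynomial.coeff_X_pow,
        MvPolynomial.coeff_X_pow, if_neg h1]
      simp
    have := MvPolynomial.le_totalDegree (MvPolynomial.mem_support_iff.2 h)
    rw [Finsupp.sum_single_index rfl] at this
    exact this

theorem cu_ne_zero : cu ≠ 0 := by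
  intro h
  have := totalDegree_cu
  rw [h] at this
  simp at this

theorem cu_mul_mem_V {F : R2} {n : ℤ} : cu * F ∈ V n ↔ F ∈ V (n - 3) := by
  have := mul_mem_V_iff (F := F) cu_ne_zero (n := n - 3)
  rw [totalDegree_cu] at this
  rw [← this]
  congr! 2
  push_cast
  ring

/-- restriction to the cubic, pulled back to the normalization -/
def rc : R2 →ₐ[ℂ] Polynomial ℂ := MvPolynomial.aeval ![Polynomial.X ^ 2, Polynomial.X ^ 3]

theorem rc_X0 : rc (MvPolynomial.X 0) = Polynomial.X ^ 2 := by simp [rc]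
theorem rc_X1 : rc (MvPolynomial.X 1) = Polynomial.X ^ 3 := by simp [rc]

theorem rc_cu : rc cu = 0 := by
  rw [cu, map_sub, map_pow, map_pow, rc_X0, rc_X1]
  ring

theorem exists_nf (F : R2) : ∃ (A : R2) (B C : Polynomial ℂ),
    F = cu * A + Polynomial.aeval (MvPolynomial.X 0) B +
      Polynomial.aeval (MvPolynomial.X 0) C * MvPolynomial.X 1 := by
  induction F using MvPolynomial.induction_on with
  | C a =>
    refine ⟨0, Polynomial.C a, 0, ?_⟩
    rw [Polynomial.aeval_C]
    simp [MvPolynomial.algebraMap_eq]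
  | add F G hF hG =>
    obtain ⟨A, B, C, h⟩ := hF
    obtain ⟨A', B', C', h'⟩ := hG
    refine ⟨A + A', B + B', C + C', ?_⟩
    rw [map_add, map_add, h, h']
    ring
  | mul_X F i hF =>
    obtain ⟨A, B, C, h⟩ := hF
    fin_cases i
    · refine ⟨A * MvPolynomial.X 0, B * Polynomial.X, C * Polynomial.X, ?_⟩
      change F * MvPolynomial.X 0 = _
      rw [h, map_mul, map_mul, Polynomial.aeval_X]
      ring
    · refine ⟨A * MvPolynomial.X 1 + Polynomial.aeval (MvPolynomial.X 0) C,
        C * Polynomial.X ^ 3, B, ?_⟩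
      change F * MvPolynomial.X 1 = _
      rw [h, map_mul, map_pow, Polynomial.aeval_X, cu]
      ring

theorem rc_aeval (B : Polynomial ℂ) :
    rc (Polynomial.aeval (MvPolynomial.X 0) B) = Polynomial.expand ℂ 2 B := by
  rw [← Polynomial.aeval_algHom_apply, rc_X0, Polynomial.expand_eq_comp_X_pow]
  rfl

theorem coeff_expand_even (B : Polynomial ℂ) (k : ℕ) :
    (Polynomial.expand ℂ 2 B).coeff (2 * k) = B.coeff k := by
  rw [Polynomial.coeff_expand (by norm_num), if_pos (Dvd.intro k rfl)]
  congr 1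
  omega

theorem coeff_expand_odd (B : Polynomial ℂ) {k : ℕ} (hk : ¬ 2 ∣ k) :
    (Polynomial.expand ℂ 2 B).coeff k = 0 := by
  rw [Polynomial.coeff_expand (by norm_num), if_neg hk]

theorem rc_nf (A : R2) (B C : Polynomial ℂ) :
    rc (cu * A + Polynomial.aeval (MvPolynomial.X 0) B +
      Polynomial.aeval (MvPolynomial.X 0) C * MvPolynomial.X 1) =
      Polynomial.expand ℂ 2 B + Polynomial.expand ℂ 2 C * Polynomial.X ^ 3 := by
  rw [map_add, map_add, map_mul, map_mul, rc_cu, rc_aeval, rc_aeval, rc_X1, zero_mul, zero_add]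

theorem exists_of_rc_eq_zero {F : R2} (h : rc F = 0) : ∃ G, F = cu * G := by
  obtain ⟨A, B, C, hF⟩ := exists_nf F
  rw [hF, rc_nf] at h
  have hB : B = 0 := by
    ext k
    have h1 := congrArg (fun p => Polynomial.coeff p (2 * k)) h
    simp only [Polynomial.coeff_add, coeff_expand_even, Polynomial.coeff_zero,
      Polynomial.coeff_mul_X_pow'] at h1
    split_ifs at h1 with h2
    · rw [coeff_expand_odd C (by omega), add_zero] at h1
      simpa using h1
    · rw [add_zero] at h1
      simpa using h1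
  have hC : C = 0 := by
    ext k
    have h1 := congrArg (fun p => Polynomial.coeff p (2 * k + 3)) h
    simp only [Polynomial.coeff_add, Polynomial.coeff_zero, Polynomial.coeff_mul_X_pow,
      coeff_expand_even] at h1
    rw [coeff_expand_odd B (by omega), zero_add] at h1
    simpa using h1
  refine ⟨A, ?_⟩
  rw [hF, hB, hC]
  simp

theorem coeff_one_rc (F : R2) : (rc F).coeff 1 = 0 := by
  obtain ⟨A, B, C, hF⟩ := exists_nf F
  rw [hF, rc_nf, Polynomial.coeff_add, coeff_expand_odd B (by norm_num),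
    Polynomial.coeff_mul_X_pow', if_neg (by norm_num), zero_add]

theorem natDegree_rc {n : ℕ} {F : R2} (h : F ∈ V n) : (rc F).natDegree ≤ 3 * n := by
  have key : V n ≤ (Polynomial.degreeLE ℂ ((3 * n : ℕ) : WithBot ℕ)).comap rc.toLinearMap := by
    rw [V, MvPolynomial.restrictSupport_eq_span, Submodule.span_le]
    rintro _ ⟨e, he, rfl⟩
    change rc (MvPolynomial.monomial e 1) ∈ Polynomial.degreeLE ℂ ((3 * n : ℕ) : WithBot ℕ)
    rw [Polynomial.mem_degreeLE, ← Polynomial.natDegree_le_iff_degree_le, rc,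
      MvPolynomial.aeval_monomial, map_one, one_mul, Finsupp.prod_fintype _ _ (by simp),
      Fin.prod_univ_two]
    change ((Polynomial.X ^ 2 : Polynomial ℂ) ^ (e 0) * (Polynomial.X ^ 3) ^ (e 1)).natDegree ≤ _
    rw [← pow_mul, ← pow_mul, ← pow_add, Polynomial.natDegree_X_pow]
    change ((e.degree : ℕ) : ℤ) ≤ n at he
    have h3 : e.degree = e 0 + e 1 := by
      rw [Finsupp.degree_eq_sum, Fin.sum_univ_two]
    rw [h3] at he
    have : e 0 + e 1 ≤ n := by exact_mod_cast he
    omega
  have h1 := key h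
  rw [Submodule.mem_comap, Polynomial.mem_degreeLE, ← Polynomial.natDegree_le_iff_degree_le] at h1
  exact h1

/-- the point with parameter `z` -/
def cp (z : ℂ) : Fin 2 → ℂ := ![z ^ 2, z ^ 3]

theorem eval_rc (z : ℂ) (F : R2) : (rc F).eval z = MvPolynomial.eval (cp z) F := by
  have h : (Polynomial.aeval z).comp rc =
      (MvPolynomial.aeval (cp z) : R2 →ₐ[ℂ] ℂ) := by
    apply MvPolynomial.algHom_ext
    intro i
    fin_cases i <;> simp [rc, cp]
  have h1 := DFunLike.congr_fun h F
  rw [AlgHom.comp_apply, Polynomial.coe_aeval_eq_eval] at h1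
  rw [h1]
  rfl

theorem rc_dvd {z : ℂ} {m : ℕ} {F : R2} (h : F ∈ mI (cp z) ^ m) :
    (Polynomial.X - Polynomial.C z) ^ m ∣ rc F := by
  have h1 : mI (cp z) ≤ Ideal.comap rc (Ideal.span {Polynomial.X - Polynomial.C z}) := by
    intro G hG
    rw [Ideal.mem_comap, Ideal.mem_span_singleton, Polynomial.dvd_iff_isRoot,
      Polynomial.IsRoot.def, eval_rc]
    exact mem_mI_iff.1 hG
  have h2 := Ideal.pow_right_mono h1 m h
  have h3 := Ideal.le_comap_pow rc m h2
  rw [Ideal.mem_comap, Ideal.span_singleton_pow, Ideal.mem_span_singleton] at h3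
  exact h3

theorem DY_cu : DY cu = 2 * MvPolynomial.X 1 := by
  rw [cu, map_sub, Derivation.leibniz_pow, Derivation.leibniz_pow, DY,
    MvPolynomial.pderiv_X_self, MvPolynomial.pderiv_X_of_ne (by decide)]
  simp only [smul_eq_mul, nsmul_eq_mul]
  push_cast
  ring

theorem cu_notMem {z : ℂ} (hz : z ≠ 0) : cu ∉ mI (cp z) ^ 2 := by
  intro h
  have h1 := deriv_mem_pow DY (mI (cp z)) 1 h
  rw [pow_one, mem_mI_iff, DY_cu, map_mul, MvPolynomial.eval_X] at h1
  have h2 : MvPolynomial.eval (cp z) (2 : R2) = 2 := map_ofNat _ 2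
  rw [h2] at h1
  change 2 * z ^ 3 = 0 at h1
  simp [hz] at h1

theorem cu_mem (z : ℂ) : cu ∈ mI (cp z) := by
  rw [mem_mI_iff, ← eval_rc, rc_cu, Polynomial.eval_zero]

end Helper18.Cusp
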