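import Pool.Agent.Helper18.ShghCurve
import Pool.Agent.Lead.ShRect

/-!
Exchange of the two coordinates.
-/

open Module

noncomputable section

namespace Helper18.Cusp

open Helper18.Shgh
open Pool.Agent.Lead.Sh (E Row InjAt IndAt Inj Ind rows mem_rows)

theorem E_swap (o d : ℕ × ℕ) (x y : ℂ) : E o.swap d.swap y x = E o d x y := by
  simp only [E, Prod.fst_swap, Prod.snd_swap]
  ring

/-- the swapped row -/
def sR (r : Row) : Row := (r.1, r.2.swap)

theorem sR_sR (r : Row) : sR (sR r) = r := by simp [sR]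

theorem sR_mem {m : ℕ → ℕ} {S : Finset ℕ} {r : Row} (h : r ∈ rows m S) : sR r ∈ rows m S := by
  rw [mem_rows] at h ⊢
  refine ⟨h.1, ?_⟩
  simp only [sR, Prod.fst_swap, Prod.snd_swap]
  omega

theorem sum_swap (D : Finset (ℕ × ℕ)) (f : ℕ × ℕ → ℂ) :
    ∑ d ∈ D.image Prod.swap, f d = ∑ d ∈ D, f d.swap :=
  Finset.sum_image (fun _ _ _ _ h => Prod.swap_injective h)

theorem inj_swap {D : Finset (ℕ × ℕ)} {m : ℕ → ℕ} {S : Finset ℕ}
    (h : Inj (D.image Prod.swap) (rows m S)) : Inj D (rows m S) := by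
  obtain ⟨P, hP⟩ := h
  refine ⟨fun k => (P k).swap, ?_⟩
  intro c hc d hd
  have h1 := hP (fun d => c d.swap) (by
    intro r hr
    rw [sum_swap]
    refine Eq.trans ?_ (hc (sR r) (sR_mem hr))
    apply Finset.sum_congr rfl
    intro d _
    rw [Prod.swap_swap]
    congr 1
    have := E_swap (sR r).2 d (P r.1).swap.1 (P r.1).swap.2
    rw [show (sR r).1 = r.1 from rfl, ← this]
    simp [sR]) d.swap (Finset.mem_image_of_mem _ hd)
  simpa using h1

theorem ind_swap {D : Finset (ℕ × ℕ)} {m : ℕ → ℕ} {S : Finset ℕ}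
    (h : Ind (D.image Prod.swap) (rows m S)) : Ind D (rows m S) := by
  obtain ⟨P, hP⟩ := h
  refine ⟨fun k => (P k).swap, ?_⟩
  intro l hl r hr
  have hsum : ∀ f : Row → ℂ, ∑ r ∈ rows m S, f (sR r) = ∑ r ∈ rows m S, f r := by
    intro f
    apply Finset.sum_nbij' sR sR (fun r hr => sR_mem hr) (fun r hr => sR_mem hr)
      (fun r _ => sR_sR r) (fun r _ => sR_sR r)
    intro r _
    rfl
  have h1 := hP (fun r => l (sR r)) (by
    intro d hd
    rw [Finset.mem_image] at hd
    obtain ⟨d', hd', rfl⟩ := hd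
    refine Eq.trans ?_ (hl d' hd')
    rw [← hsum (fun r => l r * E r.2 d' (P r.1).swap.1 (P r.1).swap.2)]
    apply Finset.sum_congr rfl
    intro r _
    congr 1
    have := E_swap (sR r).2 d' (P r.1).swap.1 (P r.1).swap.2
    rw [show (sR r).1 = r.1 from rfl, ← this]
    simp [sR]) (sR r) (sR_mem hr)
  simpa [sR_sR] using h1

end Helper18.Cusp
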