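import Pool.Agent.Helper18.CuspChart
import Pool.Agent.Lead.ShCell

/-!
Taylor coefficients, and a weighted degeneration.
-/

open Module

noncomputable section

namespace Helper18.Cusp

open Helper18.Shgh
open Pool.Agent.Lead.Sh (E Row InjAt IndAt Inj Ind poly_inj wt E_scale)

/-- Taylor coefficient of `F` at the point `Q` -/
def TC (F : R2) (Q : ℂ × ℂ) (o : ℕ × ℕ) : ℂ := MvPolynomial.coeff (e2 o.1 o.2) (tau ![Q.1, Q.2] F)

theorem TC_eq_zero {F : R2} {Q : ℂ × ℂ} {m : ℕ} (h : F ∈ mI ![Q.1, Q.2] ^ m) {o : ℕ × ℕ}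
    (ho : o.1 + o.2 < m) : TC F Q o = 0 := by
  apply mem_mI_pow.1 h
  rw [Finsupp.degree_eq_sum, Fin.sum_univ_two]
  exact ho

theorem TC_sum {ι : Type*} (s : Finset ι) (c : ι → ℂ) (F : ι → R2) (Q : ℂ × ℂ) (o : ℕ × ℕ) :
    TC (∑ i ∈ s, c i • F i) Q o = ∑ i ∈ s, c i * TC (F i) Q o := by
  rw [TC, map_sum, MvPolynomial.coeff_sum]
  apply Finset.sum_congr rfl
  intro i _
  rw [map_smul, MvPolynomial.coeff_smul, smul_eq_mul, TC]

theorem e2_add (i j i' j' : ℕ) : e2 i j + e2 i' j' = e2 (i + i') (j + j') := by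
  ext k
  fin_cases k <;> rfl

theorem single_zero_eq (i : ℕ) : Finsupp.single (0 : Fin 2) i = e2 i 0 := by
  ext k
  fin_cases k <;> simp [e2]

theorem single_one_eq (i : ℕ) : Finsupp.single (1 : Fin 2) i = e2 0 i := by
  ext k
  fin_cases k <;> simp [e2]

theorem pow_expand0 (x : ℂ) (a : ℕ) : (MvPolynomial.X 0 + MvPolynomial.C x : R2) ^ a =
    ∑ i ∈ Finset.range (a + 1), MvPolynomial.monomial (e2 i 0) ((a.choose i : ℂ) * x ^ (a - i)) := by
  rw [add_pow]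
  apply Finset.sum_congr rfl
  intro i _
  rw [MvPolynomial.X_pow_eq_monomial, ← map_pow, ← map_natCast
    (MvPolynomial.C : ℂ →+* R2), mul_assoc, ← MvPolynomial.C_mul, mul_comm,
    MvPolynomial.C_mul_monomial, single_zero_eq]
  congr 1
  ring

theorem pow_expand1 (x : ℂ) (a : ℕ) : (MvPolynomial.X 1 + MvPolynomial.C x : R2) ^ a =
    ∑ i ∈ Finset.range (a + 1), MvPolynomial.monomial (e2 0 i) ((a.choose i : ℂ) * x ^ (a - i)) := by
  rw [add_pow]
  apply Finset.sum_congr rfl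
  intro i _
  rw [MvPolynomial.X_pow_eq_monomial, ← map_pow, ← map_natCast
    (MvPolynomial.C : ℂ →+* R2), mul_assoc, ← MvPolynomial.C_mul, mul_comm,
    MvPolynomial.C_mul_monomial, single_one_eq]
  congr 1
  ring

theorem TC_monomial (p : ℕ × ℕ) (c : ℂ) (Q : ℂ × ℂ) (o : ℕ × ℕ) :
    TC (MvPolynomial.monomial (e2 p.1 p.2) c) Q o = c * E o p Q.1 Q.2 := by
  have h1 : tau ![Q.1, Q.2] (MvPolynomial.monomial (e2 p.1 p.2) c) =
      MvPolynomial.C c * ((MvPolynomial.X 0 + MvPolynomial.C Q.1) ^ p.1 *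
        (MvPolynomial.X 1 + MvPolynomial.C Q.2) ^ p.2) := by
    rw [tau, MvPolynomial.aeval_monomial, Finsupp.prod_fintype _ _ (by simp), Fin.prod_univ_two]
    rfl
  rw [TC, h1, MvPolynomial.coeff_C_mul, pow_expand0, pow_expand1, Finset.sum_mul_sum,
    MvPolynomial.coeff_sum, E]
  congr 1
  have h2 : ∀ i j : ℕ, MvPolynomial.coeff (e2 o.1 o.2)
      (MvPolynomial.monomial (e2 i 0) ((p.1.choose i : ℂ) * Q.1 ^ (p.1 - i)) *
      MvPolynomial.monomial (e2 0 j) ((p.2.choose j : ℂ) * Q.2 ^ (p.2 - j))) =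
      if i = o.1 then (if j = o.2 then
        (p.1.choose o.1 : ℂ) * (p.2.choose o.2 : ℂ) * Q.1 ^ (p.1 - o.1) * Q.2 ^ (p.2 - o.2)
        else 0) else 0 := by
    intro i j
    rw [MvPolynomial.monomial_mul, e2_add, MvPolynomial.coeff_monomial]
    simp only [add_zero, zero_add]
    by_cases h : i = o.1
    · by_cases h' : j = o.2
      · rw [if_pos h, if_pos h', if_pos (by rw [h, h']), h, h']
        ring
      · rw [if_neg (fun h2 => h' (e2_inj h2).2), if_pos h, if_neg h']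
    · rw [if_neg (fun h2 => h (e2_inj h2).1), if_neg h]
  have h3 : ∀ i, MvPolynomial.coeff (e2 o.1 o.2) (∑ j ∈ Finset.range (p.2 + 1),
      (MvPolynomial.monomial (e2 i 0) ((p.1.choose i : ℂ) * Q.1 ^ (p.1 - i)) *
      MvPolynomial.monomial (e2 0 j) ((p.2.choose j : ℂ) * Q.2 ^ (p.2 - j)))) =
      if i = o.1 then (p.1.choose o.1 : ℂ) * (p.2.choose o.2 : ℂ) * Q.1 ^ (p.1 - o.1) *
        Q.2 ^ (p.2 - o.2) else 0 := by
    intro i
    rw [MvPolynomial.coeff_sum, Finset.sum_congr rfl (fun j _ => h2 i j)]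
    by_cases h : i = o.1
    · simp only [if_pos h]
      by_cases h' : o.2 ∈ Finset.range (p.2 + 1)
      · rw [Finset.sum_ite_eq' _ _ _, if_pos h']
      · rw [Finset.sum_ite_eq' _ _ _, if_neg h']
        rw [Finset.mem_range] at h'
        rw [Nat.choose_eq_zero_of_lt (show p.2 < o.2 by omega)]
        simp
    · simp only [if_neg h, Finset.sum_const_zero]
  rw [Finset.sum_congr rfl (fun i _ => h3 i)]
  by_cases h' : o.1 ∈ Finset.range (p.1 + 1)
  · rw [Finset.sum_ite_eq' _ _ _, if_pos h']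
  · rw [Finset.sum_ite_eq' _ _ _, if_neg h']
    rw [Finset.mem_range] at h'
    rw [Nat.choose_eq_zero_of_lt (show p.1 < o.1 by omega)]
    simp

theorem TC_eq (F : R2) (Q : ℂ × ℂ) (o : ℕ × ℕ) :
    TC F Q o = ∑ p ∈ F.support, MvPolynomial.coeff p F * E o (p 0, p 1) Q.1 Q.2 := by
  have h1 : TC F Q o = ∑ p ∈ F.support, TC (MvPolynomial.monomial p (MvPolynomial.coeff p F)) Q o := by
    conv_lhs => rw [MvPolynomial.as_sum F]
    rw [TC, map_sum, MvPolynomial.coeff_sum]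
    rfl
  rw [h1]
  apply Finset.sum_congr rfl
  intro p _
  conv_lhs => rw [e2_eq p]
  rw [TC_monomial (p 0, p 1)]
  rw [← e2_eq p]

/-- the deformed coefficient -/
def ND (β : ℕ) (F : R2) (d : ℕ × ℕ) (Q : ℂ × ℂ) (o : ℕ × ℕ) : Polynomial ℂ :=
  ∑ p ∈ F.support, Polynomial.C (MvPolynomial.coeff p F * E o (p 0, p 1) Q.1 Q.2) *
    Polynomial.X ^ (wt (1, β) (p 0, p 1) - wt (1, β) d)

theorem lead_wt {β : ℕ} {F : R2} {d : ℕ × ℕ} (h : Lead F d) (hβ : d.1 < β) {p : Fin 2 →₀ ℕ}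
    (hp : p ∈ F.support) : p = e2 d.1 d.2 ∨ wt (1, β) d < wt (1, β) (p 0, p 1) := by
  rw [MvPolynomial.mem_support_iff] at hp
  have h1 := h.2 (p 0, p 1)
  rw [← e2_eq p] at h1
  simp only [Pool.Agent.Lead.Sh.wt]
  rcases lt_trichotomy (p 1) d.2 with h2 | h2 | h2
  · exact absurd (h1 (Or.inl h2)) hp
  · rcases lt_trichotomy (p 0) d.1 with h3 | h3 | h3
    · exact absurd (h1 (Or.inr ⟨h2, h3⟩)) hp
    · left
      rw [e2_eq p, h2, h3]
    · right
      rw [h2]; omega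
  · right
    obtain ⟨k, hk⟩ := Nat.exists_eq_add_of_lt h2
    rw [hk]
    nlinarith

theorem ND_eval_zero {β : ℕ} {F : R2} {d : ℕ × ℕ} (h : Lead F d) (hβ : d.1 < β) (Q : ℂ × ℂ)
    (o : ℕ × ℕ) : (ND β F d Q o).eval 0 =
      MvPolynomial.coeff (e2 d.1 d.2) F * E o d Q.1 Q.2 := by
  rw [ND, Polynomial.eval_finsetSum, Finset.sum_eq_single (e2 d.1 d.2)]
  · have h0 : e2 d.1 d.2 0 = d.1 := rfl
    have h1 : e2 d.1 d.2 1 = d.2 := rfl
    rw [h0, h1]
    simp
  · intro p hp hne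
    rcases lead_wt h hβ hp with h1 | h1
    · exact absurd h1 hne
    · rw [Polynomial.eval_mul, Polynomial.eval_pow, Polynomial.eval_X, zero_pow (by omega), mul_zero]
  · intro hn
    exact absurd (MvPolynomial.mem_support_iff.2 h.1) hn

theorem ND_eval {β : ℕ} {F : R2} {d : ℕ × ℕ} (h : Lead F d) (hβ : d.1 < β) (Q : ℂ × ℂ)
    (o : ℕ × ℕ) (t : ℂ) : t ^ (wt (1, β) o) * TC F (t * Q.1, t ^ β * Q.2) o =
      t ^ (wt (1, β) d) * (ND β F d Q o).eval t := by
  rw [TC_eq, ND, Polynomial.eval_finsetSum, Finset.mul_sum, Finset.mul_sum]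
  apply Finset.sum_congr rfl
  intro p hp
  have h1 := E_scale (1, β) o (p 0, p 1) Q.1 Q.2 t
  rw [show (1, β).1 = 1 from rfl, show (1, β).2 = β from rfl, pow_one] at h1
  rw [Polynomial.eval_mul, Polynomial.eval_C, Polynomial.eval_pow, Polynomial.eval_X,
    mul_left_comm, h1]
  have h2 : wt (1, β) d ≤ wt (1, β) (p 0, p 1) := by
    rcases lead_wt h hβ hp with h3 | h3
    · rw [h3]
      exact le_rfl
    · exact h3.le
  rw [show t ^ wt (1, β) (p 0, p 1) = t ^ wt (1, β) d * t ^ (wt (1, β) (p 0, p 1) - wt (1, β) d) by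
    rw [← pow_add, Nat.add_sub_cancel' h2]]
  ring

theorem lead_indep {D : Finset (ℕ × ℕ)} {C : ℕ × ℕ → R2} (hC : ∀ d ∈ D, Lead (C d) d)
    {c : ℕ × ℕ → ℂ} (h : ∑ d ∈ D, c d • C d = 0) : ∀ d ∈ D, c d = 0 := by
  by_contra hcon
  push Not at hcon
  obtain ⟨d₀, hd₀, hd₀'⟩ := hcon
  obtain ⟨d, hd, hmin⟩ := Finset.exists_min_image (D.filter fun d => c d ≠ 0)
    (fun d => toLex (d.2, d.1)) ⟨d₀, Finset.mem_filter.2 ⟨hd₀, hd₀'⟩⟩
  rw [Finset.mem_filter] at hd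
  have h1 := congrArg (MvPolynomial.coeff (e2 d.1 d.2)) h
  rw [MvPolynomial.coeff_sum, MvPolynomial.coeff_zero, Finset.sum_eq_single d] at h1
  · rw [MvPolynomial.coeff_smul, smul_eq_mul] at h1
    rcases mul_eq_zero.1 h1 with h2 | h2
    · exact hd.2 h2
    · exact (hC d hd.1).1 h2
  · intro d' hd' hne
    rw [MvPolynomial.coeff_smul, smul_eq_mul]
    by_cases h0 : c d' = 0
    · rw [h0, zero_mul]
    · have h2 := hmin d' (Finset.mem_filter.2 ⟨hd', h0⟩)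
      rw [Prod.Lex.toLex_le_toLex] at h2
      simp only at h2
      rw [(hC d' hd').2 d ?_, mul_zero]
      rcases h2 with h2 | ⟨h2, h3⟩
      · exact Or.inl h2
      · refine Or.inr ⟨h2, lt_of_le_of_ne h3 ?_⟩
        intro h4
        exact hne (Prod.ext h4.symm h2.symm)
  · intro hn
    exact absurd hd.1 hn

end Helper18.Cusp
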