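import Pool.Agent.Helper18.CuspFinish

/-!
At most two points at the torus fixed points.
-/

open Module

noncomputable section

namespace Helper18.Cusp

open Helper18.Shgh
open Pool.Agent.Lead.Sh (E Row InjAt IndAt Inj Ind rows mem_rows)

/-- from special (possibly infinite) points to general points -/
theorem general_position_h {s : ℕ} {m : ℕ → ℕ} {d : ℕ} (hm : Antitone m)
    (P₀ : Fin s → Fin 3 → ℂ)
    (h : (finrank ℂ (LinearMap.ker (spec (LamG s m d) (phP P₀))) : ℤ) ≤
      max (((d + 2).choose 2 : ℤ) - ∑ i : Fin s, ((m (i : ℕ) + 1).choose 2 : ℤ)) 0) :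
    ∃ G : MvPolynomial (Fin s × Fin 3) ℂ, G ≠ 0 ∧
      ∀ P : Fin s → Fin 3 → ℂ, (∀ i, P i ≠ 0) →
        MvPolynomial.eval (fun ij : Fin s × Fin 3 => P ij.1 ij.2) G ≠ 0 →
        (finrank ℂ (FS s m d P) : ℤ) =
          max (((d + 2).choose 2 : ℤ) - ∑ i : Fin s, ((m (i : ℕ) + 1).choose 2 : ℤ)) 0 := by
  obtain ⟨Δ, hΔ0, hΔ⟩ := semicont (LamG s m d) (phP P₀)
  refine ⟨Δ * ∏ i : Fin s, MvPolynomial.X (i, 2), ?_, ?_⟩
  · apply mul_ne_zero
    · rintro rfl
      exact hΔ0 (map_zero _)
    · rw [Finset.prod_ne_zero_iff]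
      intro i _
      exact MvPolynomial.X_ne_zero _
  · intro P _ hG
    rw [map_mul, map_prod] at hG
    have h1 := left_ne_zero_of_mul hG
    have h2 := right_ne_zero_of_mul hG
    have h3 : ∀ i, P i 2 ≠ 0 := by
      intro i
      have h4 := (Finset.prod_ne_zero_iff.1 h2) i (Finset.mem_univ i)
      rwa [MvPolynomial.eval_X] at h4
    have h4 := lower_bound s m d P h3
    have h5 := (finrank_FS_le (d := d) hm P).trans
      (hΔ (phP P) (by rwa [phP, MvPolynomial.aeval_eq_eval]))
    have h6 : ((d + 2).choose 2 : ℤ) ≤ finrank ℂ (FS s m d P) +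
        ∑ i : Fin s, ((m (i : ℕ) + 1).choose 2 : ℤ) := by exact_mod_cast h4
    have h7 : (finrank ℂ (FS s m d P) : ℤ) ≤
      finrank ℂ (LinearMap.ker (spec (LamG s m d) (phP P₀))) := by exact_mod_cast h5
    apply le_antisymm
    · exact h7.trans h
    · apply max_le
      · linarith
      · positivity

/-- dehomogenization with respect to the variable `k` -/
def dh (k : Fin 3) : R3 →ₐ[ℂ] R3 := MvPolynomial.aeval fun i => if i = k then 1 else MvPolynomial.X i

/-- the coordinate points -/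
def dl (k : Fin 3) : Fin 3 → ℂ := fun i => if i = k then 1 else 0

theorem dh_mem {k : Fin 3} {A : ℕ} {F : R3} (h : F ∈ mI (dl k) ^ A) :
    dh k F ∈ MvPolynomial.idealOfVars (Fin 3) ℂ ^ A := by
  have h1 : Ideal.map (dh k) (mI (dl k)) ≤ MvPolynomial.idealOfVars (Fin 3) ℂ := by
    rw [mI, Ideal.map_span, Ideal.span_le]
    rintro _ ⟨_, ⟨i, rfl⟩, rfl⟩
    by_cases hi : i = k
    · have : dh k (MvPolynomial.X i - MvPolynomial.C (dl k i)) = 0 := by
        simp [dh, dl, hi]
      rw [SetLike.mem_coe, this]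
      exact Ideal.zero_mem _
    · have : dh k (MvPolynomial.X i - MvPolynomial.C (dl k i)) = MvPolynomial.X i := by
        simp [dh, dl, hi]
      rw [this]
      exact Ideal.subset_span ⟨i, rfl⟩
  have h2 := Ideal.mem_map_of_mem (dh k) h
  rw [Ideal.map_pow] at h2
  exact Ideal.pow_right_mono h1 A h2

theorem dh_monomial (k : Fin 3) (e : Fin 3 →₀ ℕ) (c : ℂ) :
    dh k (MvPolynomial.monomial e c) = MvPolynomial.monomial (e.erase k) c := by
  rw [dh, MvPolynomial.aeval_monomial, MvPolynomial.monomial_eq, MvPolynomial.algebraMap_eq]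
  congr 1
  rw [Finsupp.prod_fintype _ _ (by simp), Finsupp.prod_fintype _ _ (by simp)]
  apply Finset.prod_congr rfl
  intro i _
  by_cases hi : i = k
  · subst hi; simp
  · rw [if_neg hi, Finsupp.erase_ne hi]

theorem degree_erase (k : Fin 3) (e : Fin 3 →₀ ℕ) : (e.erase k).degree + e k = e.degree := by
  have h1 : e = Finsupp.single k (e k) + e.erase k := (Finsupp.single_add_erase k e).symm
  have h2 := congrArg Finsupp.degree h1
  rw [map_add, Finsupp.degree_single] at h2
  omega

theorem le_of_mem_dl {k : Fin 3} {A d : ℕ} {F : R3} (hF : F.IsHomogeneous d)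
    (h : F ∈ mI (dl k) ^ A) {e : Fin 3 →₀ ℕ} (he : e ∈ F.support) : e k + A ≤ d := by
  rw [isHomogeneous_iff'] at hF
  have h1 := dh_mem h
  rw [MvPolynomial.mem_pow_idealOfVars_iff'] at h1
  have h2 : MvPolynomial.coeff (e.erase k) (dh k F) = MvPolynomial.coeff e F := by
    conv_lhs => rw [F.as_sum]
    rw [map_sum, MvPolynomial.coeff_sum, Finset.sum_eq_single e]
    · rw [dh_monomial, MvPolynomial.coeff_monomial, if_pos rfl]
    · intro f hf hne
      rw [dh_monomial, MvPolynomial.coeff_monomial, if_neg]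
      intro heq
      apply hne
      have h3 := degree_erase k e
      have h4 := degree_erase k f
      rw [heq] at h4
      have h5 := hF e (MvPolynomial.mem_support_iff.1 he)
      have h6 := hF f (MvPolynomial.mem_support_iff.1 hf)
      rw [← Finsupp.single_add_erase k f, ← Finsupp.single_add_erase k e, heq]
      congr 2
      omega
    · intro hn
      exact absurd he hn
  by_contra hcon
  push Not at hcon
  have h3 := degree_erase k e
  have h4 := hF e (MvPolynomial.mem_support_iff.1 he)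
  have h5 := h1 (e.erase k) (by omega)
  rw [h2] at h5
  exact MvPolynomial.mem_support_iff.1 he h5

theorem supp_deh {F : R3} {f : Fin 2 →₀ ℕ} (hf : f ∈ (deh F).support) :
    ∃ e ∈ F.support, f 0 = e 0 ∧ f 1 = e 1 := by
  have h1 : deh F = ∑ e ∈ F.support, MvPolynomial.monomial (e2 (e 0) (e 1)) (MvPolynomial.coeff e F) := by
    conv_lhs => rw [F.as_sum]
    rw [map_sum]
    apply Finset.sum_congr rfl
    intro e _
    rw [deh, MvPolynomial.aeval_monomial, Finsupp.prod_fintype _ _ (by simp), Fin.prod_univ_three,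
      MvPolynomial.monomial_eq, Finsupp.prod_fintype _ _ (by simp), Fin.prod_univ_two]
    change algebraMap ℂ R2 (MvPolynomial.coeff e F) *
      (MvPolynomial.X 0 ^ (e 0) * MvPolynomial.X 1 ^ (e 1) * 1 ^ (e 2)) =
      MvPolynomial.C (MvPolynomial.coeff e F) * (MvPolynomial.X 0 ^ (e 0) * MvPolynomial.X 1 ^ (e 1))
    rw [one_pow, mul_one, MvPolynomial.algebraMap_eq]
  rw [MvPolynomial.mem_support_iff, h1, MvPolynomial.coeff_sum] at hf
  obtain ⟨e, he, hne⟩ := Finset.exists_ne_zero_of_sum_ne_zero hf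
  rw [MvPolynomial.coeff_monomial] at hne
  refine ⟨e, he, ?_⟩
  by_cases h2 : e2 (e 0) (e 1) = f
  · rw [← h2]
    exact ⟨rfl, rfl⟩
  · rw [if_neg h2] at hne
    exact absurd rfl hne

/-- polynomials with support in `D` and multiplicities -/
def KD (D : Finset (ℕ × ℕ)) (m : ℕ → ℕ) (S : Finset ℕ) (P : ℕ → ℂ × ℂ) : Submodule ℂ R2 :=
  MvPolynomial.restrictSupport ℂ {e | (e 0, e 1) ∈ D} ⊓
    ⨅ k ∈ S, Submodule.restrictScalars ℂ (mI ![(P k).1, (P k).2] ^ m k : Ideal R2)

theorem mem_KD {D : Finset (ℕ × ℕ)} {m : ℕ → ℕ} {S : Finset ℕ} {P : ℕ → ℂ × ℂ} {F : R2} :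
    F ∈ KD D m S P ↔ (∀ e ∈ F.support, (e 0, e 1) ∈ D) ∧
      ∀ k ∈ S, F ∈ mI ![(P k).1, (P k).2] ^ m k := by
  rw [KD, Submodule.mem_inf, MvPolynomial.mem_restrictSupport_iff]
  simp only [Submodule.mem_iInf, Submodule.restrictScalars_mem]
  rfl

/-- the coefficients in `D` -/
def co (D : Finset (ℕ × ℕ)) : R2 →ₗ[ℂ] (D → ℂ) :=
  LinearMap.pi fun d => MvPolynomial.lcoeff ℂ (e2 (d : ℕ × ℕ).1 (d : ℕ × ℕ).2)

theorem co_apply (D : Finset (ℕ × ℕ)) (F : R2) (d : D) :
    co D F d = MvPolynomial.coeff (e2 (d : ℕ × ℕ).1 (d : ℕ × ℕ).2) F := rfl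

theorem co_inj {D : Finset (ℕ × ℕ)} {F : R2} (h : ∀ e ∈ F.support, (e 0, e 1) ∈ D)
    (h0 : co D F = 0) : F = 0 := by
  by_contra hne
  obtain ⟨e, he⟩ := MvPolynomial.ne_zero_iff.1 hne
  have h1 := congrFun h0 ⟨(e 0, e 1), h e (MvPolynomial.mem_support_iff.2 he)⟩
  rw [co_apply] at h1
  simp only at h1
  rw [← e2_eq] at h1
  exact he h1

theorem TC_co {D : Finset (ℕ × ℕ)} {F : R2} (h : ∀ e ∈ F.support, (e 0, e 1) ∈ D)
    (Q : ℂ × ℂ) (o : ℕ × ℕ) : ∑ d : D, co D F d * E o (d : ℕ × ℕ) Q.1 Q.2 = TC F Q o := by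
  rw [TC_eq]
  have h1 : ∑ d : D, co D F d * E o (d : ℕ × ℕ) Q.1 Q.2 =
      ∑ d ∈ D, MvPolynomial.coeff (e2 d.1 d.2) F * E o d Q.1 Q.2 := by
    rw [← Finset.sum_coe_sort D]
    rfl
  rw [h1]
  have h2 : ∑ p ∈ F.support, MvPolynomial.coeff p F * E o (p 0, p 1) Q.1 Q.2 =
      ∑ d ∈ F.support.image (fun p => ((p 0, p 1) : ℕ × ℕ)),
        MvPolynomial.coeff (e2 d.1 d.2) F * E o d Q.1 Q.2 := by
    rw [Finset.sum_image]
    · apply Finset.sum_congr rfl
      intro p _
      rw [← e2_eq]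
    · intro p _ q _ hpq
      have h3 := Prod.mk.inj hpq
      rw [e2_eq p, e2_eq q, h3.1, h3.2]
  rw [h2]
  symm
  apply Finset.sum_subset
  · intro d hd
    rw [Finset.mem_image] at hd
    obtain ⟨p, hp, rfl⟩ := hd
    exact h p hp
  · intro d _ hd
    have h3 : MvPolynomial.coeff (e2 d.1 d.2) F = 0 := by
      by_contra hne
      apply hd
      rw [Finset.mem_image]
      exact ⟨e2 d.1 d.2, MvPolynomial.mem_support_iff.2 hne, rfl⟩
    rw [h3, zero_mul]

theorem toric_bound {D : Finset (ℕ × ℕ)} {m : ℕ → ℕ} {S : Finset ℕ} (h : GoodFor D m S) :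
    ∃ P : ℕ → ℂ × ℂ, (finrank ℂ (KD D m S P) : ℤ) ≤
      max ((D.card : ℤ) - ((∑ k ∈ S, (m k + 1).choose 2 : ℕ) : ℤ)) 0 := by
  have hcond : ∀ (P : ℕ → ℂ × ℂ) (F : R2), F ∈ KD D m S P → ∀ r ∈ rows m S,
      ∑ d : D, co D F d * E r.2 (d : ℕ × ℕ) (P r.1).1 (P r.1).2 = 0 := by
    intro P F hF r hr
    rw [mem_KD] at hF
    rw [mem_rows] at hr
    rw [TC_co hF.1]
    exact TC_eq_zero (hF.2 r.1 hr.1) hr.2
  rcases le_total D.card (∑ k ∈ S, (m k + 1).choose 2) with h1 | h1
  · obtain ⟨P, hP⟩ := h.1 h1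
    refine ⟨P, ?_⟩
    have h2 : KD D m S P = ⊥ := by
      rw [Submodule.eq_bot_iff]
      intro F hF
      apply co_inj (mem_KD.1 hF).1
      funext d
      have h3 := hP (fun d => MvPolynomial.coeff (e2 d.1 d.2) F) (by
        intro r hr
        refine Eq.trans ?_ (hcond P F hF r hr)
        rw [← Finset.sum_coe_sort D]
        rfl) d d.2
      exact h3
    rw [h2, finrank_bot]
    exact le_max_right _ _
  · obtain ⟨P, hP⟩ := h.2 h1
    refine ⟨P, ?_⟩
    let M : Matrix (rows m S) D ℂ := Matrix.of fun r d =>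
      E (r : Row).2 (d : ℕ × ℕ) (P (r : Row).1).1 (P (r : Row).1).2
    have h2 := finrank_ker_of_inj M (by
      intro l hl
      let l' : Row → ℂ := fun r => if h : r ∈ rows m S then l ⟨r, h⟩ else 0
      have hl' : ∀ r : rows m S, l' r = l r := fun r => dif_pos r.2
      have h3 := hP l' (by
        intro d hd
        refine Eq.trans ?_ (hl ⟨d, hd⟩)
        rw [← Finset.sum_coe_sort (rows m S)]
        apply Finset.sum_congr rfl
        intro r _
        rw [hl']
        rfl)
      funext r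
      rw [← hl' r, h3 r r.2]
      rfl)
    rw [Fintype.card_coe, Fintype.card_coe, card_rows] at h2
    have h3 : finrank ℂ (KD D m S P) ≤ finrank ℂ (LinearMap.ker M.mulVecLin) := by
      let J : KD D m S P →ₗ[ℂ] LinearMap.ker M.mulVecLin :=
        ((co D).domRestrict (KD D m S P)).codRestrict _ (by
          intro F
          rw [LinearMap.mem_ker, Matrix.mulVecLin_apply]
          funext r
          rw [Matrix.mulVec, dotProduct, Pi.zero_apply, ← hcond P F F.2 r r.2]
          apply Finset.sum_congr rfl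
          intro d _
          rw [mul_comm]
          rfl)
      apply LinearMap.finrank_le_finrank_of_injective (f := J)
      rw [← LinearMap.ker_eq_bot, eq_bot_iff]
      intro F hF
      have h4 : co D (F : R2) = 0 := congrArg Subtype.val (LinearMap.mem_ker.1 hF)
      exact Subtype.ext (co_inj (mem_KD.1 F.2).1 h4)
    apply le_max_of_le_left
    have h4 : (finrank ℂ (KD D m S P) : ℤ) + ((∑ k ∈ S, (m k + 1).choose 2 : ℕ) : ℤ) ≤ D.card := by
      have : finrank ℂ (KD D m S P) + ∑ k ∈ S, (m k + 1).choose 2 ≤ D.card := by omega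
      exact_mod_cast this
    linarith

/-- the region of two points at torus fixed points -/
def DT2 (d a b : ℕ) : Finset (ℕ × ℕ) :=
  (Finset.range (d + 1) ×ˢ Finset.range (d + 1)).filter fun x =>
    x.1 + x.2 ≤ d ∧ x.1 + a ≤ d ∧ x.2 + b ≤ d

theorem mem_DT2 {d a b : ℕ} {x : ℕ × ℕ} :
    x ∈ DT2 d a b ↔ x.1 + x.2 ≤ d ∧ x.1 + a ≤ d ∧ x.2 + b ≤ d := by
  rw [DT2, Finset.mem_filter, Finset.mem_product, Finset.mem_range, Finset.mem_range]
  constructor
  · exact fun h => h.2
  · exact fun h => ⟨by omega, h⟩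

theorem sum_range_id' (n : ℕ) : 2 * ∑ y ∈ Finset.range n, y = n * (n - 1) := by
  rw [mul_comm]
  exact Finset.sum_range_id_mul_two n

theorem card_DT2 {d a b : ℕ} (h : a + b ≤ d) :
    2 * ((DT2 d a b).card : ℤ) = ((d : ℤ) + 1) * (d + 2) - a * (a + 1) - b * (b + 1) := by
  have h1 : (DT2 d a b).card = ∑ y ∈ Finset.range (d - b + 1), min (d + 1 - y) (d + 1 - a) := by
    have h2 : DT2 d a b = (Finset.range (d - b + 1)).biUnion fun y =>
        (Finset.range (min (d + 1 - y) (d + 1 - a))).image fun x => (x, y) := by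
      ext ⟨x, y⟩
      rw [mem_DT2, Finset.mem_biUnion]
      constructor
      · rintro ⟨h3, h4, h5⟩
        simp only at h3 h4 h5
        refine ⟨y, Finset.mem_range.2 (by omega), Finset.mem_image.2 ⟨x, ?_, rfl⟩⟩
        rw [Finset.mem_range]; omega
      · rintro ⟨y', hy', hx⟩
        rw [Finset.mem_image] at hx
        obtain ⟨x', hx', he⟩ := hx
        rw [Finset.mem_range] at hy' hx'
        obtain ⟨rfl, rfl⟩ := Prod.mk.inj he
        simp only
        omega
    rw [h2, Finset.card_biUnion]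
    · apply Finset.sum_congr rfl
      intro y _
      rw [Finset.card_image_of_injective, Finset.card_range]
      intro x x' hx
      exact (Prod.mk.inj hx).1
    · intro i _ j _ hij
      change Disjoint _ _
      rw [Finset.disjoint_left]
      intro x hx hx'
      rw [Finset.mem_image] at hx hx'
      obtain ⟨t, _, rfl⟩ := hx
      obtain ⟨t', _, he⟩ := hx'
      exact hij (Prod.mk.inj he).2.symm
  have key : ∀ N : ℕ, N ≤ d - b + 1 → 2 * ((∑ y ∈ Finset.range N, min (d + 1 - y) (d + 1 - a) : ℕ) : ℤ) =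
      if N ≤ a then 2 * N * ((d : ℤ) + 1 - a) else
        2 * (a : ℤ) * (d + 1 - a) + ((N : ℤ) - a) * (2 * (d + 1) - a - N + 1) := by
    intro N
    induction N with
    | zero => intro _; simp
    | succ N ih =>
      intro hN
      have h3 := ih (by omega)
      rw [Finset.sum_range_succ]
      rcases Nat.lt_or_ge N a with h4 | h4
      · rw [if_pos h4.le] at h3
        have h5 : min (d + 1 - N) (d + 1 - a) = d + 1 - a := by omega
        rw [if_pos (show N + 1 ≤ a from h4), h5]
        push_cast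
        rw [mul_add]
        push_cast at h3
        rw [h3, Nat.cast_sub (by omega)]
        push_cast
        ring
      · have h5 : min (d + 1 - N) (d + 1 - a) = d + 1 - N := by omega
        rw [if_neg (by omega), h5]
        push_cast
        rw [mul_add]
        push_cast at h3
        rw [h3, Nat.cast_sub (by omega)]
        rcases Nat.lt_or_ge a N with h6 | h6
        · rw [if_neg (by omega)]
          push_cast
          ring
        · have h7 : N = a := by omega
          subst h7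
          rw [if_pos le_rfl]
          push_cast
          ring
  rw [h1, key _ le_rfl, if_neg (by omega)]
  push_cast
  rw [Nat.cast_sub (by omega)]
  ring

theorem toric_finish (s : ℕ) (m : ℕ → ℕ) (d j : ℕ) (hm : Antitone m) (hs : ∀ i, s ≤ i → m i = 0)
    (hj : j ≤ 2) (hd : m 0 + m 1 ≤ d)
    (hG : GoodFor (DT2 d (tr m j 0) (tr m j 1)) m (Finset.Ico j s)) :
    ∃ G : MvPolynomial (Fin s × Fin 3) ℂ, G ≠ 0 ∧
      ∀ P : Fin s → Fin 3 → ℂ, (∀ i, P i ≠ 0) →
        MvPolynomial.eval (fun ij : Fin s × Fin 3 => P ij.1 ij.2) G ≠ 0 →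
        (finrank ℂ (FS s m d P) : ℤ) =
          max (((d + 2).choose 2 : ℤ) - ∑ i : Fin s, ((m (i : ℕ) + 1).choose 2 : ℤ)) 0 := by
  have htr0 : tr m j 0 ≤ m 0 := by rw [tr]; split_ifs <;> omega
  have htr1 : tr m j 1 ≤ m 1 := by rw [tr]; split_ifs <;> omega
  have hcard := card_DT2 (d := d) (a := tr m j 0) (b := tr m j 1) (by omega)
  have hd1 : 2 * ((d + 2).choose 2 : ℤ) = (d + 1) * (d + 2) := by
    have := two_choose (d + 1)
    push_cast at this ⊢
    linarith
  have hsum : 2 * ∑ i : Fin s, ((m (i : ℕ) + 1).choose 2 : ℤ) =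
      (tr m j 0 : ℤ) * ((tr m j 0 : ℤ) + 1) + (tr m j 1 : ℤ) * ((tr m j 1 : ℤ) + 1) +
        2 * ((∑ k ∈ Finset.Ico j s, (m k + 1).choose 2 : ℕ) : ℤ) := by
    have h1 := sum_split (m := m) (j := j) (by omega) hs (fun x => (x : ℤ) * (x + 1)) (by simp)
    have h0 : ∀ i, 2 ≤ i → tr m j i = 0 := fun i hi => by rw [tr, if_neg (by omega)]
    rw [sum9z, h0 2 (by norm_num), h0 3 (by norm_num), h0 4 (by norm_num), h0 5 (by norm_num),
      h0 6 (by norm_num), h0 7 (by norm_num), h0 8 (by norm_num)] at h1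
    rw [Fin.sum_univ_eq_sum_range (fun i => ((m i + 1).choose 2 : ℤ)) s, Finset.mul_sum,
      Finset.sum_congr rfl (fun i _ => two_choose (m i)), ← h1]
    push_cast
    rw [Finset.mul_sum, Finset.sum_congr rfl (fun i _ => two_choose (m i))]
    ring
  obtain ⟨P, hP⟩ := toric_bound hG
  apply general_position_h hm (fun i : Fin s => if (i : ℕ) < j then
    (if (i : ℕ) = 0 then dl 0 else dl 1) else ![(P i).1, (P i).2, 1])
  have h1 : ((DT2 d (tr m j 0) (tr m j 1)).card : ℤ) -
      ((∑ k ∈ Finset.Ico j s, (m k + 1).choose 2 : ℕ) : ℤ) =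
      ((d + 2).choose 2 : ℤ) - ∑ i : Fin s, ((m (i : ℕ) + 1).choose 2 : ℤ) := by
    have h2 : 2 * (((DT2 d (tr m j 0) (tr m j 1)).card : ℤ) -
      ((∑ k ∈ Finset.Ico j s, (m k + 1).choose 2 : ℕ) : ℤ)) =
      2 * (((d + 2).choose 2 : ℤ) - ∑ i : Fin s, ((m (i : ℕ) + 1).choose 2 : ℤ)) := by
      rw [mul_sub, hcard, mul_sub, hd1, hsum]
      ring
    linarith
  rw [← h1]
  refine le_trans ?_ hP
  let φ : Helper18.Shgh.HS d →ₗ[ℂ] R2 := deh.toLinearMap ∘ₗ (Helper18.Shgh.HS d).subtype
  have hφ : Function.Injective φ := by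
    rw [← LinearMap.ker_eq_bot, eq_bot_iff]
    intro x hx
    exact Subtype.ext (deh_inj x.2 hx)
  rw [← finrank_map_inj hφ]
  have hfd : FiniteDimensional ℂ (KD (DT2 d (tr m j 0) (tr m j 1)) m (Finset.Ico j s) P) := by
    apply Submodule.finiteDimensional_of_le (S₂ := V (d : ℤ))
    intro F hF
    rw [mem_V']
    intro e he
    have h2 := mem_DT2.1 ((mem_KD.1 hF).1 e (MvPolynomial.mem_support_iff.2 he))
    have h3 : e.degree = e 0 + e 1 := by
      rw [Finsupp.degree_eq_sum, Fin.sum_univ_two]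
    rw [h3]
    exact_mod_cast h2.1
  have h2 : (LinearMap.ker (spec (LamG s m d) (phP (fun i : Fin s => if (i : ℕ) < j then
      (if (i : ℕ) = 0 then dl 0 else dl 1) else ![(P i).1, (P i).2, 1])))).map φ ≤
      KD (DT2 d (tr m j 0) (tr m j 1)) m (Finset.Ico j s) P := by
    rintro _ ⟨F, hF, rfl⟩
    have hF' := (mem_ker_LamG hm).1 hF
    rw [mem_KD]
    refine ⟨?_, ?_⟩
    · intro f hf
      obtain ⟨e, he, he0, he1⟩ := supp_deh hf
      rw [mem_DT2]
      simp only
      have hdeg : e 0 + e 1 + e 2 = d := by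
        have h3 := (isHomogeneous_iff'.1 F.2) e (MvPolynomial.mem_support_iff.1 he)
        rw [Finsupp.degree_eq_sum, Fin.sum_univ_three] at h3
        exact h3
      refine ⟨by omega, ?_, ?_⟩
      · rw [tr]
        split_ifs with h0
        · by_cases h0s : 0 < s
          · have h3 := hF' ⟨0, h0s⟩
            simp only [if_pos h0, if_true] at h3
            have := le_of_mem_dl F.2 h3 he
            omega
          · rw [hs 0 (by omega)]
            omega
        · omega
      · rw [tr]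
        split_ifs with h0
        · by_cases h0s : 1 < s
          · have h3 := hF' ⟨1, h0s⟩
            simp only [if_pos h0, one_ne_zero, if_false] at h3
            have := le_of_mem_dl F.2 h3 he
            omega
          · rw [hs 1 (by omega)]
            omega
        · omega
    · intro k hk
      rw [Finset.mem_Ico] at hk
      have h3 := hF' ⟨k, hk.2⟩
      simp only [if_neg (not_lt.2 hk.1)] at h3
      exact deh_mem_mI h3
  exact_mod_cast Submodule.finrank_mono h2

end Helper18.Cusp
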