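import Pool.Agent.Helper18.CuspTaylor
import Pool.Agent.Lead.ShRect
import Pool.Agent.Lead.ShTri

/-!
Nine arbitrary multiplicities absorbed in a region of monomials: the transfer theorem.
-/

open Module

noncomputable section

namespace Helper18.Cusp

open Helper18.Shgh
open Pool.Agent.Lead.Sh (E Row InjAt IndAt Inj Ind poly_inj E_scale rows mem_rows)

/-- the stage `b` of the filtration by powers of the cubic -/
abbrev YB (n : ℤ) (a : ℕ → ℕ) (b : ℕ) : Submodule ℂ R2 := YS (n - 3 * b) (fun i => a i - b)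

theorem cu_mul_mem_YB {n : ℤ} {a : ℕ → ℕ} {b : ℕ} {G : R2} :
    cu * G ∈ YB n a b ↔ G ∈ YB n a (b + 1) := by
  have h1 := cu_mul_mem_YS (n := n - 3 * b) (a := fun i => a i - b) (G := G)
  have h2 : YS (n - 3 * (b : ℤ) - 3) (fun i => a i - b - 1) = YB n a (b + 1) := by
    have e1 : n - 3 * (b : ℤ) - 3 = n - 3 * ((b + 1 : ℕ) : ℤ) := by push_cast; ring
    have e2 : (fun i => a i - b - 1) = (fun i => a i - (b + 1)) := by funext i; omega
    rw [e1, e2]
  rw [← h2]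
  exact h1

/-- the number of conditions of the restriction to the cubic at stage `b` -/
def rr (n : ℤ) (a : ℕ → ℕ) (b : ℕ) : ℕ := finrank ℂ (YB n a b) - finrank ℂ (YB n a (b + 1))

theorem finrank_map_rc (n : ℤ) (a : ℕ → ℕ) (b : ℕ) :
    finrank ℂ ((YB n a b).map rc.toLinearMap) + finrank ℂ (YB n a (b + 1)) =
      finrank ℂ (YB n a b) := by
  have h1 := LinearMap.finrank_range_add_finrank_ker (rc.toLinearMap.domRestrict (YB n a b))
  rw [LinearMap.range_domRestrict] at h1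
  have h2 : (LinearMap.ker (rc.toLinearMap.domRestrict (YB n a b))).map (YB n a b).subtype =
      (YB n a (b + 1)).map (LinearMap.mulLeft ℂ cu) := by
    ext x
    constructor
    · rintro ⟨y, hy, rfl⟩
      have h3 : rc (y : R2) = 0 := LinearMap.mem_ker.1 hy
      obtain ⟨G, hG⟩ := exists_of_rc_eq_zero h3
      refine ⟨G, ?_, hG.symm⟩
      rw [SetLike.mem_coe, ← cu_mul_mem_YB, ← hG]
      exact y.2
    · rintro ⟨G, hG, rfl⟩
      refine ⟨⟨cu * G, cu_mul_mem_YB.2 hG⟩, ?_, rfl⟩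
      rw [SetLike.mem_coe, LinearMap.mem_ker]
      change rc (cu * G) = 0
      rw [map_mul, rc_cu, zero_mul]
  have h3 := finrank_map_inj (YB n a b).subtype_injective
    (LinearMap.ker (rc.toLinearMap.domRestrict (YB n a b)))
  have h4 : Function.Injective (LinearMap.mulLeft ℂ cu) := fun F G h =>
    mul_left_cancel₀ cu_ne_zero h
  rw [h2, finrank_map_inj h4] at h3
  omega

theorem finrank_map_rc' (n : ℤ) (a : ℕ → ℕ) (b : ℕ) :
    finrank ℂ ((YB n a b).map rc.toLinearMap) = rr n a b := by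
  have := finrank_map_rc n a b
  rw [rr]; omega

theorem rr_add (n : ℤ) (a : ℕ → ℕ) (b : ℕ) :
    rr n a b + finrank ℂ (YB n a (b + 1)) = finrank ℂ (YB n a b) := by
  have := finrank_map_rc n a b
  rw [rr]; omega

theorem YB_eq_bot {n : ℤ} {a : ℕ → ℕ} {b : ℕ} (h : n < 3 * b) : YB n a b = ⊥ := by
  rw [Submodule.eq_bot_iff]
  rintro F ⟨h1, -⟩
  rw [V_neg (by omega)] at h1
  exact h1

/-- the region of monomials -/
def DS (n : ℤ) (a : ℕ → ℕ) (B : ℕ) : Finset (ℕ × ℕ) :=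
  (Finset.range B).biUnion fun b => (Finset.range (rr n a b)).image fun x => (x, b)

theorem mem_DS {n : ℤ} {a : ℕ → ℕ} {B : ℕ} {d : ℕ × ℕ} :
    d ∈ DS n a B ↔ d.2 < B ∧ d.1 < rr n a d.2 := by
  rw [DS, Finset.mem_biUnion]
  constructor
  · rintro ⟨b, hb, hd⟩
    rw [Finset.mem_image] at hd
    obtain ⟨x, hx, rfl⟩ := hd
    exact ⟨Finset.mem_range.1 hb, Finset.mem_range.1 hx⟩
  · rintro ⟨h1, h2⟩
    exact ⟨d.2, Finset.mem_range.2 h1, Finset.mem_image.2 ⟨d.1, Finset.mem_range.2 h2, rfl⟩⟩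

theorem card_DS_aux (n : ℤ) (a : ℕ → ℕ) (B : ℕ) :
    (DS n a B).card = ∑ b ∈ Finset.range B, rr n a b := by
  rw [DS, Finset.card_biUnion]
  · apply Finset.sum_congr rfl
    intro b _
    rw [Finset.card_image_of_injective, Finset.card_range]
    intro x y h
    exact (Prod.mk.inj h).1
  · intro i _ j _ hij
    change Disjoint _ _
    rw [Finset.disjoint_left]
    intro d hd hd'
    rw [Finset.mem_image] at hd hd'
    obtain ⟨t, _, rfl⟩ := hd
    obtain ⟨t', _, he⟩ := hd'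
    exact hij (Prod.mk.inj he).2.symm

theorem sum_rr (n : ℤ) (a : ℕ → ℕ) (B : ℕ) :
    ∑ b ∈ Finset.range B, rr n a b + finrank ℂ (YB n a B) = finrank ℂ (YB n a 0) := by
  induction B with
  | zero => simp
  | succ B ih =>
    rw [Finset.sum_range_succ, add_assoc, rr_add, ih]

theorem card_DS {n : ℤ} {a : ℕ → ℕ} {B : ℕ} (h : n < 3 * B) :
    (DS n a B).card = finrank ℂ (YS n a) := by
  have h1 := sum_rr n a B
  rw [YB_eq_bot h, finrank_bot, add_zero] at h1
  have e1 : n - 3 * ((0 : ℕ) : ℤ) = n := by simp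
  have e2 : (fun i => a i - 0) = a := by funext i; simp
  rw [YB, e1, e2] at h1
  rw [card_DS_aux, h1]

theorem cu_pow_mul_mem {n : ℤ} {a : ℕ → ℕ} {b : ℕ} : ∀ {c : ℕ} {G : R2}, G ∈ YB n a (b + c) →
    cu ^ c * G ∈ YB n a b := by
  intro c
  induction c with
  | zero => intro G h; simpa using h
  | succ c ih =>
    intro G h
    rw [pow_succ, mul_assoc]
    apply ih
    rw [cu_mul_mem_YB]
    exact h

theorem exists_family (n : ℤ) (a : ℕ → ℕ) (B : ℕ) : ∃ (o : ℂ) (F : ℕ × ℕ → R2),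
    ∀ d ∈ DS n a B, F d ∈ YS n a ∧ Lead (Ph o (F d)) d := by
  have h1 : ∀ b : ℕ, ∃ N : Polynomial ℂ, N ≠ 0 ∧ ∀ o : ℂ, N.eval o ≠ 0 →
      ∀ f ∈ (YB n a b).map rc.toLinearMap,
        (Polynomial.X - Polynomial.C o) ^ (rr n a b) ∣ f → f = 0 := fun b =>
    exists_general (rr n a b) _ inferInstance (finrank_map_rc' n a b)
  choose N hN0 hN using h1
  have h2 : (Polynomial.X * ∏ b ∈ Finset.range B, N b : Polynomial ℂ) ≠ 0 :=
    mul_ne_zero Polynomial.X_ne_zero (Finset.prod_ne_zero_iff.2 fun b _ => hN0 b)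
  obtain ⟨o, ho⟩ : ∃ o : ℂ, (Polynomial.X * ∏ b ∈ Finset.range B, N b : Polynomial ℂ).eval o ≠ 0 := by
    by_contra hcon
    push Not at hcon
    exact h2 (Polynomial.funext (fun r => by rw [hcon r, Polynomial.eval_zero]))
  rw [Polynomial.eval_mul, Polynomial.eval_X, Polynomial.eval_prod] at ho
  have ho0 := left_ne_zero_of_mul ho
  have ho1 := Finset.prod_ne_zero_iff.1 (right_ne_zero_of_mul ho)
  have h3 : ∀ d : ℕ × ℕ, ∃ F : R2, d ∈ DS n a B → F ∈ YS n a ∧ Lead (Ph o F) d := by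
    intro d
    by_cases hd : d ∈ DS n a B
    · have hd' := mem_DS.1 hd
      have h4 := hN d.2 o (ho1 d.2 (Finset.mem_range.2 hd'.1))
      rw [← finrank_map_rc'] at h4
      obtain ⟨f, ⟨g, hg, rfl⟩, h5, h6⟩ := exists_taylor h4 d.1 (by
        rw [finrank_map_rc']; exact hd'.2)
      refine ⟨cu ^ d.2 * g, fun _ => ⟨?_, ?_⟩⟩
      · have h7 : cu ^ d.2 * g ∈ YB n a 0 := cu_pow_mul_mem (by rw [zero_add]; exact hg)
        have e1 : n - 3 * ((0 : ℕ) : ℤ) = n := by simp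
        have e2 : (fun i => a i - 0) = a := by funext i; simp
        rw [YB, e1, e2] at h7
        exact h7
      · exact lead_chart ho0 h5 h6
    · exact ⟨0, fun h => absurd h hd⟩
  choose F hF using h3
  exact ⟨o, F, fun d hd => hF d hd⟩

/-- the points of the plane -/
def pts (o t : ℂ) (β : ℕ) (Q : ℕ → ℂ × ℂ) (k : ℕ) : Fin 2 → ℂ :=
  ![(o + t * (Q k).1) ^ 2, (o + t * (Q k).1) ^ 3 + t ^ β * (Q k).2]

theorem Ph_mem_pts {o t : ℂ} {β : ℕ} {Q : ℕ → ℂ × ℂ} {k m : ℕ} {G : R2}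
    (h : G ∈ mI (pts o t β Q k) ^ m) : Ph o G ∈ mI ![t * (Q k).1, t ^ β * (Q k).2] ^ m :=
  Ph_mem (P := ![t * (Q k).1, t ^ β * (Q k).2]) h

/-- the linear system with all the conditions -/
def KS (n : ℤ) (a m : ℕ → ℕ) (S : Finset ℕ) (P : ℕ → Fin 2 → ℂ) : Submodule ℂ R2 :=
  YS n a ⊓ ⨅ k ∈ S, Submodule.restrictScalars ℂ (mI (P k) ^ m k : Ideal R2)

theorem mem_KS {n : ℤ} {a m : ℕ → ℕ} {S : Finset ℕ} {P : ℕ → Fin 2 → ℂ} {F : R2} :
    F ∈ KS n a m S P ↔ F ∈ YS n a ∧ ∀ k ∈ S, F ∈ mI (P k) ^ m k := by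
  rw [KS, Submodule.mem_inf]
  simp only [Submodule.mem_iInf, Submodule.restrictScalars_mem]

theorem exists_beta (D : Finset (ℕ × ℕ)) : ∃ β : ℕ, ∀ d ∈ D, d.1 < β :=
  ⟨D.sup Prod.fst + 1, fun d hd => Nat.lt_succ_of_le (Finset.le_sup (f := Prod.fst) hd)⟩

/-- extension by zero -/
def ex0 {D : Finset (ℕ × ℕ)} (c : D → ℂ) (d : ℕ × ℕ) : ℂ := if h : d ∈ D then c ⟨d, h⟩ else 0

theorem ex0_coe {D : Finset (ℕ × ℕ)} (c : D → ℂ) (d : D) : ex0 c d = c d := by
  rw [ex0, dif_pos d.2]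

section

variable {n : ℤ} {a : ℕ → ℕ} {B : ℕ} {o : ℂ} {F : ℕ × ℕ → R2}

/-- the parametrization of the system of nine points -/
def TH (hF : ∀ d ∈ DS n a B, F d ∈ YS n a ∧ Lead (Ph o (F d)) d) :
    (DS n a B → ℂ) →ₗ[ℂ] YS n a where
  toFun c := ⟨∑ d : DS n a B, c d • F d, Submodule.sum_mem _ fun d _ =>
    Submodule.smul_mem _ _ (hF d d.2).1⟩
  map_add' c c' := by
    apply Subtype.ext
    simp only [Pi.add_apply, add_smul, Finset.sum_add_distrib, Submodule.coe_add]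
  map_smul' c c' := by
    apply Subtype.ext
    simp only [Pi.smul_apply, smul_eq_mul, mul_smul, RingHom.id_apply, Submodule.coe_smul,
      Finset.smul_sum]

theorem TH_apply (hF : ∀ d ∈ DS n a B, F d ∈ YS n a ∧ Lead (Ph o (F d)) d) (c : DS n a B → ℂ) :
    (TH hF c : R2) = ∑ d : DS n a B, c d • F d := rfl

theorem TH_inj (hF : ∀ d ∈ DS n a B, F d ∈ YS n a ∧ Lead (Ph o (F d)) d) :
    Function.Injective (TH hF) := by
  rw [injective_iff_map_eq_zero]
  intro c hc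
  have h1 : ∑ d : DS n a B, c d • F d = 0 := by
    rw [← TH_apply hF, hc]; rfl
  have h2 : ∑ d ∈ DS n a B, ex0 c d • Ph o (F d) = 0 := by
    rw [← Finset.sum_coe_sort]
    have h3 := congrArg (Ph o) h1
    rw [map_sum, map_zero] at h3
    rw [← h3]
    apply Finset.sum_congr rfl
    intro d _
    rw [ex0_coe, map_smul]
  have h3 := lead_indep (fun d hd => (hF d hd).2) h2
  funext d
  rw [← ex0_coe c d, h3 d d.2]
  rfl

theorem TH_surj (hB : n < 3 * B) (hF : ∀ d ∈ DS n a B, F d ∈ YS n a ∧ Lead (Ph o (F d)) d) :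
    Function.Surjective (TH hF) := by
  rw [← LinearMap.injective_iff_surjective_of_finrank_eq_finrank]
  · exact TH_inj hF
  · rw [finrank_fintype_fun_eq_card, Fintype.card_coe, card_DS hB]

/-- the conditions in terms of the deformed coefficients -/
theorem cond_of_mem (hF : ∀ d ∈ DS n a B, F d ∈ YS n a ∧ Lead (Ph o (F d)) d) {β : ℕ}
    (hβ : ∀ d ∈ DS n a B, d.1 < β) {t : ℂ} (Q : ℕ → ℂ × ℂ) {m : ℕ → ℕ} {S : Finset ℕ}
    (c : DS n a B → ℂ) (hc : (TH hF c : R2) ∈ KS n a m S (pts o t β Q)) {r : Row}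
    (hr : r ∈ rows m S) :
    ∑ d : DS n a B, (c d * t ^ Pool.Agent.Lead.Sh.wt (1, β) (d : ℕ × ℕ)) *
      (ND β (Ph o (F d)) d (Q r.1) r.2).eval t = 0 := by
  rw [mem_rows] at hr
  have h1 := Ph_mem_pts ((mem_KS.1 hc).2 r.1 hr.1)
  have h2 := TC_eq_zero (Q := (t * (Q r.1).1, t ^ β * (Q r.1).2)) h1 hr.2
  rw [TH_apply, map_sum, Finset.sum_congr rfl (fun d _ => map_smul (Ph o) (c d) (F d)),
    TC_sum] at h2
  have h3 : ∀ d : DS n a B, (c d * t ^ Pool.Agent.Lead.Sh.wt (1, β) (d : ℕ × ℕ)) *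
      (ND β (Ph o (F d)) d (Q r.1) r.2).eval t = t ^ Pool.Agent.Lead.Sh.wt (1, β) r.2 *
        (c d * TC (Ph o (F d)) (t * (Q r.1).1, t ^ β * (Q r.1).2) r.2) := by
    intro d
    rw [mul_assoc, ← ND_eval (hF d d.2).2 (hβ d d.2)]
    ring
  rw [Finset.sum_congr rfl (fun d _ => h3 d), ← Finset.mul_sum, h2, mul_zero]

end

theorem transfer_inj {n : ℤ} {a m : ℕ → ℕ} {B : ℕ} {S : Finset ℕ} (hB : n < 3 * B)
    (h : Inj (DS n a B) (rows m S)) : ∃ P : ℕ → Fin 2 → ℂ, KS n a m S P = ⊥ := by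
  obtain ⟨Q, hQ⟩ := h
  obtain ⟨o, F, hF⟩ := exists_family n a B
  obtain ⟨β, hβ⟩ := exists_beta (DS n a B)
  obtain ⟨t, ht, hinj⟩ := poly_inj
    (fun (r : ↥(rows m S)) (d : ↥(DS n a B)) => ND β (Ph o (F d)) d (Q (r : Row).1) (r : Row).2) (by
      intro c hc
      have h1 := hQ (fun d => ex0 c d * MvPolynomial.coeff (e2 d.1 d.2) (Ph o (F d))) (by
        intro r hr
        refine Eq.trans ?_ (hc ⟨r, hr⟩)
        rw [← Finset.sum_coe_sort (DS n a B)]
        apply Finset.sum_congr rfl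
        intro d _
        rw [ex0_coe, ND_eval_zero (hF d d.2).2 (hβ d d.2), mul_assoc])
      funext d
      have h2 := h1 d d.2
      rw [ex0_coe] at h2
      rcases mul_eq_zero.1 h2 with h3 | h3
      · exact h3
      · exact absurd h3 (hF d d.2).2.1)
  refine ⟨pts o t β Q, ?_⟩
  rw [Submodule.eq_bot_iff]
  intro G hG
  obtain ⟨c, hc⟩ := TH_surj hB hF ⟨G, (mem_KS.1 hG).1⟩
  have hc' : (TH hF c : R2) = G := by rw [hc]
  have h1 := hinj (fun d => c d * t ^ Pool.Agent.Lead.Sh.wt (1, β) (d : ℕ × ℕ)) (by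
    intro r
    apply cond_of_mem hF hβ Q c (by rw [hc']; exact hG) r.2)
  have h2 : c = 0 := by
    funext d
    have h3 := congrFun h1 d
    simp only [Pi.zero_apply] at h3
    rcases mul_eq_zero.1 h3 with h4 | h4
    · exact h4
    · exact absurd h4 (pow_ne_zero _ ht)
  rw [← hc', h2, map_zero]
  rfl

theorem finrank_ker_of_inj {ι κ : Type*} [Fintype ι] [Fintype κ] [DecidableEq ι] [DecidableEq κ]
    (M : Matrix ι κ ℂ) (h : ∀ l : ι → ℂ, (∀ k, ∑ i, l i * M i k = 0) → l = 0) :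
    finrank ℂ (LinearMap.ker M.mulVecLin) + Fintype.card ι = Fintype.card κ := by
  have h1 := LinearMap.finrank_range_add_finrank_ker M.mulVecLin
  rw [finrank_fintype_fun_eq_card] at h1
  have hinj : Function.Injective M.transpose.mulVecLin := by
    rw [injective_iff_map_eq_zero]
    intro l hl
    apply h
    intro k
    have h3 := congrFun hl k
    rw [Matrix.mulVecLin_apply, Matrix.mulVec, dotProduct, Pi.zero_apply] at h3
    rw [← h3]
    apply Finset.sum_congr rfl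
    intro i _
    rw [mul_comm]; rfl
  have h2 : M.rank = Fintype.card ι := by
    rw [← Matrix.rank_transpose, Matrix.rank, LinearMap.finrank_range_of_inj hinj,
      finrank_fintype_fun_eq_card]
  rw [Matrix.rank] at h2
  omega

theorem transfer_ind {n : ℤ} {a m : ℕ → ℕ} {B : ℕ} {S : Finset ℕ} (hB : n < 3 * B)
    (h : Ind (DS n a B) (rows m S)) : ∃ P : ℕ → Fin 2 → ℂ,
      finrank ℂ (KS n a m S P) + (rows m S).card ≤ finrank ℂ (YS n a) := by
  obtain ⟨Q, hQ⟩ := h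
  obtain ⟨o, F, hF⟩ := exists_family n a B
  obtain ⟨β, hβ⟩ := exists_beta (DS n a B)
  obtain ⟨t, ht, hinj⟩ := poly_inj
    (fun (d : ↥(DS n a B)) (r : ↥(rows m S)) => ND β (Ph o (F d)) d (Q (r : Row).1) (r : Row).2) (by
      intro l hl
      let l' : Row → ℂ := fun r => if h : r ∈ rows m S then l ⟨r, h⟩ else 0
      have hl' : ∀ r : rows m S, l' r = l r := fun r => dif_pos r.2
      have h1 := hQ l' (by
        intro d hd
        have h2 := hl ⟨d, hd⟩
        have h3 : MvPolynomial.coeff (e2 d.1 d.2) (Ph o (F d)) *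
            ∑ r ∈ rows m S, l' r * E r.2 d (Q r.1).1 (Q r.1).2 = 0 := by
          refine Eq.trans ?_ h2
          rw [← Finset.sum_coe_sort (rows m S), Finset.mul_sum]
          apply Finset.sum_congr rfl
          intro r _
          rw [hl', ND_eval_zero (hF d hd).2 (hβ d hd)]
          ring
        rcases mul_eq_zero.1 h3 with h4 | h4
        · exact absurd h4 (hF d hd).2.1
        · exact h4)
      funext r
      rw [← hl' r, h1 r r.2]
      rfl)
  refine ⟨pts o t β Q, ?_⟩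
  let M : Matrix (rows m S) (DS n a B) ℂ := Matrix.of fun r d =>
    (ND β (Ph o (F d)) d (Q (r : Row).1) (r : Row).2).eval t
  have h1 := finrank_ker_of_inj M (fun l hl => hinj l hl)
  rw [Fintype.card_coe, Fintype.card_coe, card_DS hB] at h1
  -- rescaling
  let W : (DS n a B → ℂ) ≃ₗ[ℂ] (DS n a B → ℂ) := LinearEquiv.piCongrRight fun d =>
    LinearEquiv.smulOfNeZero ℂ ℂ (t ^ Pool.Agent.Lead.Sh.wt (1, β) (d : ℕ × ℕ)) (pow_ne_zero _ ht)
  have hW : ∀ c d, W c d = t ^ Pool.Agent.Lead.Sh.wt (1, β) (d : ℕ × ℕ) * c d := fun c d => rfl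
  let Φ : (DS n a B → ℂ) ≃ₗ[ℂ] YS n a := LinearEquiv.ofBijective (TH hF)
    ⟨TH_inj hF, TH_surj hB hF⟩
  let J : YS n a →ₗ[ℂ] (DS n a B → ℂ) := W.toLinearMap ∘ₗ Φ.symm.toLinearMap
  have hJ : Function.Injective J := W.injective.comp Φ.symm.injective
  let K : Submodule ℂ (YS n a) := (KS n a m S (pts o t β Q)).comap (YS n a).subtype
  have hK : K.map J ≤ LinearMap.ker M.mulVecLin := by
    rintro _ ⟨G, hG, rfl⟩
    rw [LinearMap.mem_ker, Matrix.mulVecLin_apply]
    funext r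
    rw [Matrix.mulVec, dotProduct, Pi.zero_apply]
    have hG' : (TH hF (Φ.symm G) : R2) ∈ KS n a m S (pts o t β Q) := by
      have : TH hF (Φ.symm G) = G := Φ.apply_symm_apply G
      rw [this]
      exact hG
    rw [← cond_of_mem hF hβ Q (Φ.symm G) hG' r.2]
    apply Finset.sum_congr rfl
    intro d _
    have : J G d = t ^ Pool.Agent.Lead.Sh.wt (1, β) (d : ℕ × ℕ) * Φ.symm G d := rfl
    rw [this]
    change (ND β (Ph o (F d)) d (Q (r : Row).1) (r : Row).2).eval t * _ = _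
    ring
  have h2 := Submodule.finrank_mono hK
  rw [finrank_map_inj hJ] at h2
  have h3 : finrank ℂ K = finrank ℂ (KS n a m S (pts o t β Q)) := by
    have h4 : K.map (YS n a).subtype = KS n a m S (pts o t β Q) := by
      rw [Submodule.map_comap_subtype, inf_eq_right]
      intro x hx
      exact (mem_KS.1 hx).1
    rw [← h4, finrank_map_inj (YS n a).subtype_injective]
  omega

end Helper18.Cusp
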