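import Pool.Agent.Helper18.FlagRes

/-!
The branch of a plane curve at a smooth point, and general points of an irreducible curve.
-/

open Module Polynomial

noncomputable section

namespace Helper18.Flag

open Helper18.Shgh

/-- the derivative in the first direction -/
def DX : Derivation ℂ R2 R2 := MvPolynomial.pderiv 0

/-- restriction to the branch `(O₀ + t, g(t))` -/
def gm (O : Fin 2 → ℂ) (g : ℂ[X]) : R2 →ₐ[ℂ] ℂ[X] := MvPolynomial.aeval ![C (O 0) + X, g]

theorem gm_X0 (O : Fin 2 → ℂ) (g : ℂ[X]) : gm O g (MvPolynomial.X 0) = C (O 0) + X := by simp [gm]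
theorem gm_X1 (O : Fin 2 → ℂ) (g : ℂ[X]) : gm O g (MvPolynomial.X 1) = g := by simp [gm]
theorem gm_C (O : Fin 2 → ℂ) (g : ℂ[X]) (c : ℂ) : gm O g (MvPolynomial.C c) = C c := by
  rw [← MvPolynomial.algebraMap_eq, AlgHom.commutes]; rfl

theorem DX_X0 : DX (MvPolynomial.X 0) = 1 := MvPolynomial.pderiv_X_self 0
theorem DX_X1 : DX (MvPolynomial.X 1) = 0 := MvPolynomial.pderiv_X_of_ne (by decide)
theorem DY_X0 : DY (MvPolynomial.X 0) = 0 := MvPolynomial.pderiv_X_of_ne (by decide)
theorem DY_X1 : DY (MvPolynomial.X 1) = 1 := MvPolynomial.pderiv_X_self 1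
theorem DX_C (c : ℂ) : DX (MvPolynomial.C c) = 0 := MvPolynomial.pderiv_C
theorem DY_C (c : ℂ) : DY (MvPolynomial.C c) = 0 := MvPolynomial.pderiv_C

theorem eval_gm {O : Fin 2 → ℂ} {g : ℂ[X]} (hg : g.eval 0 = O 1) (f : R2) :
    (gm O g f).eval 0 = MvPolynomial.eval O f := by
  induction f using MvPolynomial.induction_on with
  | C c => rw [gm_C, eval_C, MvPolynomial.eval_C]
  | add P Q hP hQ => rw [map_add, eval_add, map_add, hP, hQ]
  | mul_X P i hP =>
    rw [map_mul, eval_mul, map_mul, hP, MvPolynomial.eval_X]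
    fin_cases i
    · change _ * (gm O g (MvPolynomial.X 0)).eval 0 = _ * O 0
      rw [gm_X0]; simp
    · change _ * (gm O g (MvPolynomial.X 1)).eval 0 = _ * O 1
      rw [gm_X1, hg]

theorem gm_add (O : Fin 2 → ℂ) (g h : ℂ[X]) (f : R2) : ∃ q : ℂ[X],
    gm O (g + h) f = gm O g f + gm O g (DY f) * h + h ^ 2 * q := by
  induction f using MvPolynomial.induction_on with
  | C c => exact ⟨0, by rw [gm_C, gm_C, DY_C]; simp⟩
  | add P Q hP hQ =>
    obtain ⟨q, hq⟩ := hP
    obtain ⟨q', hq'⟩ := hQ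
    exact ⟨q + q', by rw [map_add, map_add, map_add, map_add, hq, hq']; ring⟩
  | mul_X P i hP =>
    obtain ⟨q, hq⟩ := hP
    fin_cases i
    · refine ⟨q * (C (O 0) + X), ?_⟩
      change gm O (g + h) (P * MvPolynomial.X 0) = gm O g (P * MvPolynomial.X 0) +
        gm O g (DY (P * MvPolynomial.X 0)) * h + _
      rw [Derivation.leibniz, DY_X0, map_mul, map_mul, gm_X0, gm_X0, hq]
      simp only [smul_eq_mul, mul_zero, zero_add]
      rw [map_mul, gm_X0]
      ring
    · refine ⟨q * (g + h) + gm O g (DY P), ?_⟩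
      change gm O (g + h) (P * MvPolynomial.X 1) = gm O g (P * MvPolynomial.X 1) +
        gm O g (DY (P * MvPolynomial.X 1)) * h + _
      rw [Derivation.leibniz, DY_X1, map_mul, map_mul, gm_X1, gm_X1, hq]
      simp only [smul_eq_mul, mul_one, map_add, map_mul, gm_X1]
      ring

/-- the branch at a smooth point -/
theorem exists_branch {F : R2} {O : Fin 2 → ℂ} (h0 : MvPolynomial.eval O F = 0)
    (h1 : MvPolynomial.eval O (DY F) ≠ 0) (N : ℕ) :
    ∃ g : ℂ[X], g.eval 0 = O 1 ∧ X ^ N ∣ gm O g F := by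
  induction N with
  | zero => exact ⟨C (O 1), by simp, by simp⟩
  | succ N ih =>
    obtain ⟨g, hg, q, hq⟩ := ih
    rcases Nat.eq_zero_or_pos N with hN | hN
    · subst hN
      refine ⟨g, hg, ?_⟩
      rw [zero_add, pow_one, X_dvd_iff, coeff_zero_eq_eval_zero, eval_gm hg, h0]
    · set a : ℂ := - (q.eval 0) / MvPolynomial.eval O (DY F) with ha
      refine ⟨g + C a * X ^ N, ?_, ?_⟩
      · rw [eval_add, hg]
        simp [zero_pow (by omega : N ≠ 0)]
      · obtain ⟨q', hq'⟩ := gm_add O g (C a * X ^ N) F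
        rw [hq', hq]
        have e1 : X ^ N * q + gm O g (DY F) * (C a * X ^ N) + (C a * X ^ N) ^ 2 * q' =
            X ^ N * (q + gm O g (DY F) * C a) + X ^ (N + N) * (C a ^ 2 * q') := by ring
        rw [e1]
        apply dvd_add
        · rw [pow_succ]
          apply mul_dvd_mul_left
          rw [X_dvd_iff, coeff_zero_eq_eval_zero, eval_add, eval_mul, eval_C, eval_gm hg, ha]
          field_simp
          ring
        · exact Dvd.dvd.mul_right (pow_dvd_pow _ (by omega)) _

theorem gm_deriv (O : Fin 2 → ℂ) (g : ℂ[X]) (f : R2) :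
    derivative (gm O g f) = gm O g (DX f) + derivative g * gm O g (DY f) := by
  induction f using MvPolynomial.induction_on with
  | C c => rw [gm_C, DX_C, DY_C]; simp
  | add P Q hP hQ =>
    simp only [map_add, hP, hQ]
    ring
  | mul_X P i hP =>
    fin_cases i
    · change derivative (gm O g (P * MvPolynomial.X 0)) = gm O g (DX (P * MvPolynomial.X 0)) +
        derivative g * gm O g (DY (P * MvPolynomial.X 0))
      rw [Derivation.leibniz, Derivation.leibniz, DX_X0, DY_X0, map_mul, gm_X0, derivative_mul, hP]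
      simp only [smul_eq_mul, mul_one, mul_zero, zero_add, map_add, map_mul, gm_X0, derivative_C,
        derivative_X]
      ring
    · change derivative (gm O g (P * MvPolynomial.X 1)) = gm O g (DX (P * MvPolynomial.X 1)) +
        derivative g * gm O g (DY (P * MvPolynomial.X 1))
      rw [Derivation.leibniz, Derivation.leibniz, DX_X1, DY_X1, map_mul, gm_X1, derivative_mul, hP]
      simp only [smul_eq_mul, mul_one, mul_zero, zero_add, map_add, map_mul, gm_X1]
      ring

/-- the derivation along the curve -/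
def DH (F : R2) : Derivation ℂ R2 R2 := DY F • DX - DX F • DY

theorem DH_apply (F f : R2) : DH F f = DY F * DX f - DX F * DY f := rfl

theorem DH_self (F : R2) : DH F F = 0 := by rw [DH_apply]; ring

theorem gm_DH {F : R2} {O : Fin 2 → ℂ} {g : ℂ[X]} {N : ℕ} (h : X ^ N ∣ gm O g F) (f : R2) :
    X ^ (N - 1) ∣ gm O g (DY F) * derivative (gm O g f) - gm O g (DH F f) := by
  have h1 : gm O g (DY F) * derivative (gm O g f) - gm O g (DH F f) =
      derivative (gm O g F) * gm O g (DY f) := by
    rw [gm_deriv, gm_deriv, DH_apply, map_sub, map_mul, map_mul]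
    ring
  rw [h1]
  apply Dvd.dvd.mul_right
  obtain ⟨q, hq⟩ := h
  rw [hq, derivative_mul]
  rcases Nat.eq_zero_or_pos N with hN | hN
  · subst hN; simp
  · apply dvd_add
    · rw [derivative_X_pow]
      exact Dvd.dvd.mul_right (Dvd.intro_left _ rfl) _
    · exact Dvd.dvd.mul_right (pow_dvd_pow _ (by omega)) _

theorem X_pow_succ_dvd {f : ℂ[X]} {j : ℕ} (h0 : f.coeff 0 = 0) (h : X ^ j ∣ derivative f) :
    X ^ (j + 1) ∣ f := by
  rw [X_pow_dvd_iff] at h ⊢
  intro i hi
  rcases Nat.eq_zero_or_pos i with h1 | h1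
  · rw [h1, h0]
  · have h2 := h (i - 1) (by omega)
    rw [coeff_derivative, Nat.sub_add_cancel h1] at h2
    rcases mul_eq_zero.1 h2 with h3 | h3
    · exact h3
    · exfalso
      have : (((i - 1 : ℕ) : ℂ) + 1) ≠ 0 := by exact_mod_cast Nat.succ_ne_zero (i - 1)
      exact this h3

theorem dvd_of_mul_dvd {u f : ℂ[X]} {j : ℕ} (hu : u.eval 0 ≠ 0) (h : X ^ j ∣ u * f) :
    X ^ j ∣ f := by
  apply IsCoprime.dvd_of_dvd_mul_left _ h
  apply IsCoprime.pow_left
  rw [Prime.coprime_iff_not_dvd prime_X, X_dvd_iff, coeff_zero_eq_eval_zero]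
  exact hu

theorem gm_aeval (O : Fin 2 → ℂ) (g : ℂ[X]) (R : ℂ[X]) :
    gm O g (aeval (MvPolynomial.X 0 : R2) R) = taylor (O 0) R := by
  rw [← Polynomial.aeval_algHom_apply, gm_X0, taylor_apply, add_comm]
  rfl

/-- **Constants on the curve.** -/
theorem exists_const {F f₀ f : R2} (hF : Irreducible F) (hFy : ¬ F ∣ DY F) (hf₀ : ¬ F ∣ f₀)
    (h : F ∣ f₀ * DH F f - f * DH F f₀) : ∃ c : ℂ, F ∣ f - MvPolynomial.C c * f₀ := by
  obtain ⟨O, hO, hO1⟩ := exists_point hF (g := f₀ * DY F) (by
    intro h1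
    rcases hF.prime.dvd_or_dvd h1 with h2 | h2
    · exact hf₀ h2
    · exact hFy h2)
  rw [map_mul] at hO1
  have hO2 := left_ne_zero_of_mul hO1
  have hO3 := right_ne_zero_of_mul hO1
  refine ⟨MvPolynomial.eval O f / MvPolynomial.eval O f₀, ?_⟩
  set c := MvPolynomial.eval O f / MvPolynomial.eval O f₀ with hc
  set f₁ := f - MvPolynomial.C c * f₀ with hf₁
  have h1 : F ∣ f₀ * DH F f₁ - f₁ * DH F f₀ := by
    have e : f₀ * DH F f₁ - f₁ * DH F f₀ = f₀ * DH F f - f * DH F f₀ := by
      rw [hf₁, map_sub, Derivation.leibniz, DH_apply F (MvPolynomial.C c), DX_C, DY_C]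
      simp only [smul_eq_mul]
      ring
    rw [e]; exact h
  by_contra hcon
  obtain ⟨R, hR, a, b, hab⟩ := exists_res hF hcon
  set M := R.natDegree + 1 with hM
  obtain ⟨g, hg, hgF⟩ := exists_branch hO hO3 (M + 1)
  have h2 : ∀ j ≤ M, X ^ j ∣ gm O g f₁ := by
    intro j
    induction j with
    | zero => intro _; simp
    | succ j ih =>
      intro hj
      have h3 := ih (by omega)
      have h4 : X ^ j ∣ gm O g f₀ * gm O g (DH F f₁) := by
        obtain ⟨q, hq⟩ := h1
        have e : gm O g f₀ * gm O g (DH F f₁) = gm O g F * gm O g q +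
            gm O g f₁ * gm O g (DH F f₀) := by
          have := congrArg (gm O g) hq
          rw [map_sub, map_mul, map_mul, map_mul] at this
          linear_combination this
        rw [e]
        exact dvd_add (((pow_dvd_pow X (by omega)).trans hgF).mul_right _) (h3.mul_right _)
      have h5 := dvd_of_mul_dvd (by rw [eval_gm hg]; exact hO2) h4
      have h6 := gm_DH hgF f₁
      have h7 : X ^ j ∣ gm O g (DY F) * derivative (gm O g f₁) := by
        have := dvd_add ((pow_dvd_pow (X : ℂ[X]) (show j ≤ M + 1 - 1 by omega)).trans h6) h5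
        rwa [sub_add_cancel] at this
      have h8 := dvd_of_mul_dvd (by rw [eval_gm hg]; exact hO3) h7
      apply X_pow_succ_dvd _ h8
      rw [coeff_zero_eq_eval_zero, eval_gm hg, hf₁, map_sub, map_mul, MvPolynomial.eval_C, hc,
        div_mul_cancel₀ _ hO2, sub_self]
  have h9 : X ^ M ∣ taylor (O 0) R := by
    rw [← gm_aeval O g R, hab, map_add, map_mul, map_mul]
    exact dvd_add (((pow_dvd_pow X (by omega)).trans hgF).mul_left _) ((h2 M le_rfl).mul_left _)
  have h10 : taylor (O 0) R ≠ 0 := by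
    intro h0
    apply hR
    apply taylor_injective (O 0)
    rw [h0, map_zero]
  have h11 := natDegree_le_of_dvd h9 h10
  rw [natDegree_X_pow, natDegree_taylor] at h11
  omega

end Helper18.Flag
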