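import Pool.Agent.Helper18.FlagBranch

/-!
General points of an irreducible curve are not flexes of a finite dimensional space.
-/

open Module Polynomial

noncomputable section

namespace Helper18.Flag

open Helper18.Shgh

/-- the multiples of `F` -/
def IF (F : R2) : Submodule ℂ R2 := (Ideal.span {F} : Ideal R2).restrictScalars ℂ

theorem mem_IF {F G : R2} : G ∈ IF F ↔ F ∣ G := Ideal.mem_span_singleton

theorem mkQ_eq_zero {F G : R2} : (IF F).mkQ G = 0 ↔ F ∣ G := by
  rw [Submodule.mkQ_apply, Submodule.Quotient.mk_eq_zero, mem_IF]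

/-- `f ↦ f₀ D f - f D f₀` -/
def phi (F f₀ : R2) : R2 →ₗ[ℂ] R2 :=
  (LinearMap.mulLeft ℂ f₀) ∘ₗ (DH F).toLinearMap - LinearMap.mulLeft ℂ (DH F f₀)

theorem phi_apply (F f₀ f : R2) : phi F f₀ f = f₀ * DH F f - f * DH F f₀ := by
  rw [mul_comm f]; rfl

theorem phi_le (F f₀ : R2) : IF F ≤ (IF F).comap (phi F f₀) := by
  intro f hf
  rw [Submodule.mem_comap, mem_IF, phi_apply]
  obtain ⟨h, rfl⟩ := mem_IF.1 hf
  rw [Derivation.leibniz, DH_self]
  refine ⟨f₀ * DH F h - h * DH F f₀, ?_⟩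
  simp only [smul_eq_mul, mul_zero, add_zero]
  ring

theorem finrank_phi {F f₀ : R2} (hF : Irreducible F) (hFy : ¬ F ∣ DY F) {W : Submodule ℂ R2}
    [FiniteDimensional ℂ W] (hf₀ : f₀ ∈ W) (h0 : ¬ F ∣ f₀) :
    finrank ℂ ((W.map (phi F f₀)).map (IF F).mkQ) + 1 = finrank ℂ (W.map (IF F).mkQ) := by
  let φ' := (IF F).mapQ (IF F) (phi F f₀) (phi_le F f₀)
  have hφ' : ∀ x, φ' ((IF F).mkQ x) = (IF F).mkQ (phi F f₀ x) := fun x => rfl
  have h1 : (W.map (phi F f₀)).map (IF F).mkQ = (W.map (IF F).mkQ).map φ' := by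
    rw [← Submodule.map_comp, ← Submodule.map_comp]
    rfl
  have h2 := LinearMap.finrank_range_add_finrank_ker (φ'.domRestrict (W.map (IF F).mkQ))
  rw [LinearMap.range_domRestrict] at h2
  rw [h1, ← h2, Nat.add_left_cancel_iff]
  symm
  have hq0 : (IF F).mkQ f₀ ≠ 0 := fun h => h0 (mkQ_eq_zero.1 h)
  have h3 : (LinearMap.ker (φ'.domRestrict (W.map (IF F).mkQ))).map
      (W.map (IF F).mkQ).subtype = ℂ ∙ (IF F).mkQ f₀ := by
    ext x
    rw [Submodule.mem_span_singleton]
    constructor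
    · rintro ⟨⟨y, hy⟩, hy2, rfl⟩
      obtain ⟨f, hf, rfl⟩ := hy
      have h4 : φ' ((IF F).mkQ f) = 0 := LinearMap.mem_ker.1 hy2
      rw [hφ', mkQ_eq_zero, phi_apply] at h4
      obtain ⟨c, hc⟩ := exists_const hF hFy h0 h4
      refine ⟨c, ?_⟩
      change c • (IF F).mkQ f₀ = (IF F).mkQ f
      symm
      rw [← sub_eq_zero, ← map_smul, ← map_sub, mkQ_eq_zero, MvPolynomial.smul_eq_C_mul]
      exact hc
    · rintro ⟨c, rfl⟩
      refine ⟨⟨c • (IF F).mkQ f₀, ?_⟩, ?_, rfl⟩
      · exact Submodule.smul_mem _ _ ⟨f₀, hf₀, rfl⟩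
      · rw [SetLike.mem_coe, LinearMap.mem_ker]
        change φ' (c • (IF F).mkQ f₀) = 0
        rw [map_smul, hφ', phi_apply]
        simp
  have h4 := finrank_map_inj (W.map (IF F).mkQ).subtype_injective
    (LinearMap.ker (φ'.domRestrict (W.map (IF F).mkQ)))
  rw [← h4, h3, finrank_span_singleton hq0]

theorem exists_general {F : R2} (hF : Irreducible F) (hFy : ¬ F ∣ DY F) (r : ℕ) :
    ∀ W : Submodule ℂ R2, FiniteDimensional ℂ W → finrank ℂ (W.map (IF F).mkQ) = r →
      ∃ N : R2, ¬ F ∣ N ∧ ∀ O : Fin 2 → ℂ, MvPolynomial.eval O F = 0 →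
        MvPolynomial.eval O N ≠ 0 → MvPolynomial.eval O (DY F) ≠ 0 →
        ∀ (g : ℂ[X]) (n : ℕ), g.eval 0 = O 1 → r ≤ n → X ^ n ∣ gm O g F →
        ∀ f ∈ W, X ^ r ∣ gm O g f → F ∣ f := by
  induction r with
  | zero =>
    intro W hW h
    refine ⟨1, ?_, ?_⟩
    · intro h1
      exact hF.not_isUnit (isUnit_of_dvd_one h1)
    · intro O _ _ _ g n _ _ _ f hf _
      have h1 : (IF F).mkQ f ∈ W.map (IF F).mkQ := ⟨f, hf, rfl⟩
      rw [Submodule.finrank_eq_zero.1 h, Submodule.mem_bot, mkQ_eq_zero] at h1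
      exact h1
  | succ r ih =>
    intro W hW h
    have hne : W.map (IF F).mkQ ≠ ⊥ := by
      intro h1
      rw [h1, finrank_bot] at h
      omega
    obtain ⟨x, ⟨f₀, hf₀, rfl⟩, hx⟩ := (Submodule.ne_bot_iff _).1 hne
    have h0 : ¬ F ∣ f₀ := fun h => hx (mkQ_eq_zero.2 h)
    have h1 := finrank_phi hF hFy hf₀ h0
    obtain ⟨N, hN, hN2⟩ := ih (W.map (phi F f₀)) inferInstance (by omega)
    refine ⟨N * f₀, ?_, ?_⟩
    · intro h2
      rcases hF.prime.dvd_or_dvd h2 with h3 | h3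
      · exact hN h3
      · exact h0 h3
    · intro O hO hON hOy g n hg hn hgF f hf hdvd
      rw [map_mul] at hON
      have hON1 := left_ne_zero_of_mul hON
      have hON2 := right_ne_zero_of_mul hON
      have h4 : F ∣ phi F f₀ f := by
        apply hN2 O hO hON1 hOy g n hg (by omega) hgF _ ⟨f, hf, rfl⟩
        rw [phi_apply, map_sub, map_mul, map_mul]
        apply dvd_sub
        · apply Dvd.dvd.mul_left
          have h5 := (pow_dvd_pow (X : ℂ[X]) (show r ≤ n - 1 by omega)).trans (gm_DH hgF f)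
          have h6 : X ^ r ∣ gm O g (DY F) * derivative (gm O g f) := by
            apply Dvd.dvd.mul_left
            obtain ⟨q, hq⟩ := hdvd
            rw [hq, derivative_mul, derivative_X_pow, Nat.add_sub_cancel]
            apply dvd_add
            · exact Dvd.dvd.mul_right (Dvd.intro_left _ rfl) _
            · exact Dvd.dvd.mul_right (pow_dvd_pow _ (Nat.le_succ r)) _
          have h7 := dvd_sub h6 h5
          rwa [sub_sub_cancel] at h7
        · exact Dvd.dvd.mul_right ((pow_dvd_pow _ (Nat.le_succ r)).trans hdvd) _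
      rw [phi_apply] at h4
      obtain ⟨c, q, hc⟩ := exists_const hF hFy h0 h4
      have h5 : MvPolynomial.eval O f = 0 := by
        rw [← eval_gm hg]
        obtain ⟨q, hq⟩ := hdvd
        rw [hq, eval_mul, eval_pow, eval_X, zero_pow (Nat.succ_ne_zero r), zero_mul]
      have h6 := congrArg (MvPolynomial.eval O) hc
      rw [map_sub, map_mul, map_mul, MvPolynomial.eval_C, hO, h5, zero_mul, zero_sub,
        neg_eq_zero] at h6
      rcases mul_eq_zero.1 h6 with h7 | h7
      · rw [h7, map_zero, zero_mul, sub_zero] at hc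
        exact ⟨q, hc⟩
      · exact absurd h7 hON2

/-- same kernel, same rank -/
theorem finrank_map_of_ker {V V' V'' : Type*} [AddCommGroup V] [Module ℂ V] [AddCommGroup V']
    [Module ℂ V'] [AddCommGroup V''] [Module ℂ V''] (W : Submodule ℂ V) [FiniteDimensional ℂ W]
    (f : V →ₗ[ℂ] V') (g : V →ₗ[ℂ] V'') (h : ∀ x ∈ W, f x = 0 ↔ g x = 0) :
    finrank ℂ (W.map f) = finrank ℂ (W.map g) := by
  have h1 := LinearMap.finrank_range_add_finrank_ker (f.domRestrict W)
  have h2 := LinearMap.finrank_range_add_finrank_ker (g.domRestrict W)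
  rw [LinearMap.range_domRestrict] at h1 h2
  have h3 : LinearMap.ker (f.domRestrict W) = LinearMap.ker (g.domRestrict W) := by
    ext x
    rw [LinearMap.mem_ker, LinearMap.mem_ker]
    exact h x.1 x.2
  rw [h3] at h1
  omega

/-- elements with prescribed Taylor coefficients along the curve -/
theorem exists_taylor {F : R2} {O : Fin 2 → ℂ} {g : ℂ[X]} {W : Submodule ℂ R2}
    [FiniteDimensional ℂ W] {n : ℕ} (hn : finrank ℂ (W.map (IF F).mkQ) ≤ n)
    (hgF : X ^ n ∣ gm O g F)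
    (h : ∀ f ∈ W, X ^ finrank ℂ (W.map (IF F).mkQ) ∣ gm O g f → F ∣ f)
    (x : ℕ) (hx : x < finrank ℂ (W.map (IF F).mkQ)) :
    ∃ f ∈ W, (gm O g f).coeff x = 1 ∧ ∀ i < x, (gm O g f).coeff i = 0 := by
  set r := finrank ℂ (W.map (IF F).mkQ) with hr
  let θ : R2 →ₗ[ℂ] (Fin r → ℂ) :=
    (LinearMap.pi fun i : Fin r => lcoeff ℂ (i : ℕ)) ∘ₗ (gm O g).toLinearMap
  have hθ : ∀ (f : R2) (i : Fin r), θ f i = (gm O g f).coeff i := fun _ _ => rfl
  have h1 := finrank_map_of_ker W θ (IF F).mkQ (by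
    intro f hf
    rw [mkQ_eq_zero]
    constructor
    · intro h2
      apply h f hf
      rw [X_pow_dvd_iff]
      intro i hi
      have := congrFun h2 ⟨i, hi⟩
      rw [hθ] at this
      exact this
    · rintro ⟨q, rfl⟩
      funext i
      rw [hθ, map_mul]
      have h2 : X ^ n ∣ gm O g F * gm O g q := hgF.mul_right _
      exact X_pow_dvd_iff.1 h2 i (lt_of_lt_of_le i.2 hn))
  have h2 : W.map θ = ⊤ := by
    apply Submodule.eq_top_of_finrank_eq
    rw [h1, finrank_fin_fun]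
  have h3 : (Pi.single ⟨x, hx⟩ 1 : Fin r → ℂ) ∈ W.map θ := by rw [h2]; trivial
  obtain ⟨f, hf, hf2⟩ := h3
  refine ⟨f, hf, ?_, fun i hi => ?_⟩
  · have := congrFun hf2 ⟨x, hx⟩
    rw [hθ, Pi.single_eq_same] at this
    exact this
  · have := congrFun hf2 ⟨i, hi.trans hx⟩
    rw [hθ, Pi.single_eq_of_ne] at this
    · exact this
    · intro h4
      have := congrArg Fin.val h4
      simp only at this
      omega

end Helper18.Flag
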