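import Pool.Agent.Helper18.FlagGen

/-!
A chart along the branch of an irreducible curve, and leading monomials.
-/

open Module

noncomputable section

namespace Helper18.Flag

open Helper18.Shgh
open Helper18.Cusp (TC TC_eq TC_eq_zero TC_sum e2_inj e2_add res0 coeff_res0 ND coeff_X1_pow_mul)
open Pool.Agent.Lead.Sh (E Row InjAt IndAt Inj Ind poly_inj wt E_scale rows mem_rows)

/-- the monomial `d` is the unique monomial of `F` of least weight, weights `(1, β)` -/
def WL (β : ℕ) (F : R2) (d : ℕ × ℕ) : Prop :=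
  MvPolynomial.coeff (e2 d.1 d.2) F ≠ 0 ∧
    ∀ p ∈ F.support, p = e2 d.1 d.2 ∨ wt (1, β) d < wt (1, β) (p 0, p 1)

theorem wt_e2 (β i j : ℕ) : wt (1, β) (e2 i j 0, e2 i j 1) = i + β * j := by
  change 1 * i + β * j = _
  rw [one_mul]

theorem wt_pair (β i j : ℕ) : wt (1, β) (i, j) = i + β * j := by
  change 1 * i + β * j = _
  rw [one_mul]

theorem wl_mul {β : ℕ} {F G : R2} {d d' : ℕ × ℕ} (h : WL β F d) (h' : WL β G d') :
    WL β (F * G) (d.1 + d'.1, d.2 + d'.2) := by
  classical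
  have key : ∀ p q : Fin 2 →₀ ℕ, p ∈ F.support → q ∈ G.support →
      (p = e2 d.1 d.2 ∧ q = e2 d'.1 d'.2) ∨
        wt (1, β) (d.1 + d'.1, d.2 + d'.2) < wt (1, β) ((p + q) 0, (p + q) 1) := by
    intro p q hp hq
    have e1 : wt (1, β) (d.1 + d'.1, d.2 + d'.2) = wt (1, β) d + wt (1, β) d' := by
      simp only [Pool.Agent.Lead.Sh.wt]; ring
    have e3 : wt (1, β) ((p + q) 0, (p + q) 1) = wt (1, β) (p 0, p 1) + wt (1, β) (q 0, q 1) := by
      simp only [Pool.Agent.Lead.Sh.wt, Finsupp.add_apply]; ring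
    rw [e1, e3]
    rcases h.2 p hp with h1 | h1
    · rcases h'.2 q hq with h2 | h2
      · exact Or.inl ⟨h1, h2⟩
      · right
        have : wt (1, β) (p 0, p 1) = wt (1, β) d := by rw [h1, wt_e2, ← wt_pair]
        omega
    · right
      have : wt (1, β) d' ≤ wt (1, β) (q 0, q 1) := by
        rcases h'.2 q hq with h2 | h2
        · rw [h2, wt_e2, ← wt_pair]
        · exact h2.le
      omega
  constructor
  · rw [MvPolynomial.coeff_mul, Finset.sum_eq_single (e2 d.1 d.2, e2 d'.1 d'.2)]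
    · exact mul_ne_zero h.1 h'.1
    · rintro ⟨p, q⟩ hpq hne
      rw [Finset.HasAntidiagonal.mem_antidiagonal] at hpq
      simp only at hpq ⊢
      by_contra hcon
      have h1 := left_ne_zero_of_mul hcon
      have h2 := right_ne_zero_of_mul hcon
      rcases key p q (MvPolynomial.mem_support_iff.2 h1) (MvPolynomial.mem_support_iff.2 h2)
        with h3 | h3
      · exact hne (Prod.ext h3.1 h3.2)
      · rw [hpq, wt_e2, wt_pair] at h3
        exact lt_irrefl _ h3
    · intro hn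
      exfalso
      apply hn
      rw [Finset.HasAntidiagonal.mem_antidiagonal]
      simp only
      rw [e2_add]
  · intro r hr
    obtain ⟨p, hp, q, hq, rfl⟩ := Finset.mem_add.1 (MvPolynomial.support_mul _ _ hr)
    rcases key p q hp hq with h3 | h3
    · left
      rw [h3.1, h3.2, e2_add]
    · right; exact h3

theorem wl_one (β : ℕ) : WL β (1 : R2) (0, 0) := by
  constructor
  · have : e2 0 0 = 0 := by ext i; fin_cases i <;> rfl
    rw [this]
    simp
  · intro p hp
    left
    rw [MvPolynomial.mem_support_iff, MvPolynomial.coeff_one] at hp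
    have : e2 0 0 = 0 := by ext i; fin_cases i <;> rfl
    rw [this]
    by_contra h
    rw [if_neg (fun h1 => h h1.symm)] at hp
    exact hp rfl

theorem wl_pow {β : ℕ} {F : R2} (h : WL β F (0, 1)) (b : ℕ) : WL β (F ^ b) (0, b) := by
  induction b with
  | zero => rw [pow_zero]; exact wl_one β
  | succ b ih =>
    rw [pow_succ]
    have := wl_mul ih h
    simpa using this

/-- the chart -/
def Ch (O : Fin 2 → ℂ) (g : Polynomial ℂ) : R2 →ₐ[ℂ] R2 :=
  MvPolynomial.aeval ![MvPolynomial.C (O 0) + MvPolynomial.X 0,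
    Polynomial.aeval (MvPolynomial.X 0 : R2) g + MvPolynomial.X 1]

theorem Ch_X0 (O : Fin 2 → ℂ) (g : Polynomial ℂ) :
    Ch O g (MvPolynomial.X 0) = MvPolynomial.C (O 0) + MvPolynomial.X 0 := by simp [Ch]
theorem Ch_X1 (O : Fin 2 → ℂ) (g : Polynomial ℂ) : Ch O g (MvPolynomial.X 1) =
    Polynomial.aeval (MvPolynomial.X 0 : R2) g + MvPolynomial.X 1 := by simp [Ch]

theorem res0_X0 : res0 (MvPolynomial.X 0) = Polynomial.X := by simp [res0]
theorem res0_X1 : res0 (MvPolynomial.X 1) = 0 := by simp [res0]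

theorem res0_Ch (O : Fin 2 → ℂ) (g : Polynomial ℂ) (f : R2) : res0 (Ch O g f) = gm O g f := by
  have h : res0.comp (Ch O g) = gm O g := by
    apply MvPolynomial.algHom_ext
    intro i
    fin_cases i
    · change res0 (Ch O g (MvPolynomial.X 0)) = gm O g (MvPolynomial.X 0)
      rw [Ch_X0, gm_X0, map_add, res0_X0, ← MvPolynomial.algebraMap_eq, AlgHom.commutes]
      rfl
    · change res0 (Ch O g (MvPolynomial.X 1)) = gm O g (MvPolynomial.X 1)
      rw [Ch_X1, gm_X1, map_add, res0_X1, add_zero, ← Polynomial.aeval_algHom_apply, res0_X0,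
        Polynomial.aeval_X_left_apply]
  exact DFunLike.congr_fun h f

theorem DY_Ch (O : Fin 2 → ℂ) (g : Polynomial ℂ) (f : R2) : DY (Ch O g f) = Ch O g (DY f) := by
  have hg : DY (Polynomial.aeval (MvPolynomial.X 0 : R2) g) = 0 := by
    induction g using Polynomial.induction_on' with
    | add p q hp hq => rw [map_add, map_add, hp, hq, add_zero]
    | monomial n a =>
      rw [Polynomial.aeval_monomial, Derivation.leibniz, Derivation.leibniz_pow, DY_X0]
      simp
  induction f using MvPolynomial.induction_on with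
  | C c =>
    rw [DY_C, map_zero, ← MvPolynomial.algebraMap_eq, AlgHom.commutes, MvPolynomial.algebraMap_eq,
      DY_C]
  | add P Q hP hQ => rw [map_add, map_add, map_add, map_add, hP, hQ]
  | mul_X P i hP =>
    fin_cases i
    · change DY (Ch O g (P * MvPolynomial.X 0)) = Ch O g (DY (P * MvPolynomial.X 0))
      rw [map_mul, Ch_X0, Derivation.leibniz, Derivation.leibniz, DY_X0, map_add, DY_C, DY_X0, hP]
      simp only [smul_eq_mul, add_zero, mul_zero, zero_add, map_mul, Ch_X0]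
    · change DY (Ch O g (P * MvPolynomial.X 1)) = Ch O g (DY (P * MvPolynomial.X 1))
      rw [map_mul, Ch_X1, Derivation.leibniz, Derivation.leibniz, DY_X1, map_add, hg, DY_X1, hP]
      simp only [smul_eq_mul, zero_add, mul_one, map_add, map_mul, Ch_X1]

theorem coeff_zero_Ch {O : Fin 2 → ℂ} {g : Polynomial ℂ} (hg : g.eval 0 = O 1) (f : R2) :
    MvPolynomial.coeff (e2 0 0) (Ch O g f) = MvPolynomial.eval O f := by
  rw [← coeff_res0, res0_Ch, Polynomial.coeff_zero_eq_eval_zero, eval_gm hg]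

theorem coeff_DY (f : R2) (i j : ℕ) : MvPolynomial.coeff (e2 i j) (DY f) =
    (j + 1) * MvPolynomial.coeff (e2 i (j + 1)) f := by
  rw [DY, MvPolynomial.coeff_pderiv]
  have h1 : e2 i j + Finsupp.single 1 1 = e2 i (j + 1) := by
    ext k
    fin_cases k <;> simp [e2]
  rw [h1, mul_comm]
  rfl

theorem wl_chart_F {F : R2} {O : Fin 2 → ℂ} {g : Polynomial ℂ} {n β : ℕ} (hβ : 1 ≤ β)
    (hn : β < n) (hg : g.eval 0 = O 1) (hgF : Polynomial.X ^ n ∣ gm O g F)
    (hO : MvPolynomial.eval O (DY F) ≠ 0) : WL β (Ch O g F) (0, 1) := by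
  constructor
  · have h1 := coeff_DY (Ch O g F) 0 0
    rw [DY_Ch, coeff_zero_Ch hg] at h1
    intro h2
    simp only at h2
    rw [zero_add, h2, mul_zero] at h1
    exact hO h1
  · intro p hp
    rw [wt_pair, wt_pair]
    rcases Nat.eq_zero_or_pos (p 1) with h1 | h1
    · right
      rw [MvPolynomial.mem_support_iff, e2_eq p, h1, ← coeff_res0, res0_Ch] at hp
      by_contra hcon
      exact hp (Polynomial.X_pow_dvd_iff.1 hgF _ (by omega))
    · obtain ⟨j, hj⟩ : ∃ j, p 1 = j + 1 := ⟨p 1 - 1, by omega⟩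
      rcases Nat.eq_zero_or_pos j with h2 | h2
      · rcases Nat.eq_zero_or_pos (p 0) with h3 | h3
        · left
          rw [e2_eq p, h3, hj, h2]
        · right
          rw [hj, h2]
          omega
      · right
        rw [hj]
        nlinarith

theorem wl_chart_G {G : R2} {O : Fin 2 → ℂ} {g : Polynomial ℂ} {β y : ℕ}
    (hy : y < β) (h1 : (gm O g G).coeff y = 1) (h0 : ∀ i < y, (gm O g G).coeff i = 0) :
    WL β (Ch O g G) (y, 0) := by
  constructor
  · simp only
    rw [← coeff_res0, res0_Ch, h1]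
    exact one_ne_zero
  · intro p hp
    rw [wt_pair, wt_pair]
    rcases Nat.eq_zero_or_pos (p 1) with h3 | h3
    · rw [MvPolynomial.mem_support_iff, e2_eq p, h3, ← coeff_res0, res0_Ch] at hp
      rcases lt_trichotomy (p 0) y with h4 | h4 | h4
      · exact absurd (h0 _ h4) hp
      · left
        rw [e2_eq p, h3, h4]
      · right
        omega
    · right
      nlinarith

theorem wl_chart {F G : R2} {O : Fin 2 → ℂ} {g : Polynomial ℂ} {n β y b : ℕ}
    (hn : β < n) (hg : g.eval 0 = O 1) (hgF : Polynomial.X ^ n ∣ gm O g F)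
    (hO : MvPolynomial.eval O (DY F) ≠ 0) (hy : y < β) (h1 : (gm O g G).coeff y = 1)
    (h0 : ∀ i < y, (gm O g G).coeff i = 0) : WL β (Ch O g (F ^ b * G)) (y, b) := by
  rw [map_mul, map_pow]
  have := wl_mul (wl_pow (wl_chart_F (by omega) hn hg hgF hO) b) (wl_chart_G hy h1 h0)
  simpa using this

/-- the chart respects multiplicities -/
theorem Ch_mem {O : Fin 2 → ℂ} {g : Polynomial ℂ} {P : Fin 2 → ℂ} {m : ℕ} {G : R2}
    (h : G ∈ mI ![O 0 + P 0, g.eval (P 0) + P 1] ^ m) : Ch O g G ∈ mI P ^ m := by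
  have h1 : mI ![O 0 + P 0, g.eval (P 0) + P 1] ≤ Ideal.comap (Ch O g) (mI P) := by
    intro F hF
    rw [Ideal.mem_comap, mem_mI_iff]
    rw [mem_mI_iff] at hF
    rw [← hF]
    have h2 : (MvPolynomial.aeval P : R2 →ₐ[ℂ] ℂ).comp (Ch O g) =
        MvPolynomial.aeval ![O 0 + P 0, g.eval (P 0) + P 1] := by
      apply MvPolynomial.algHom_ext
      intro i
      fin_cases i
      · change MvPolynomial.aeval P (Ch O g (MvPolynomial.X 0)) =
          MvPolynomial.aeval ![O 0 + P 0, g.eval (P 0) + P 1] (MvPolynomial.X 0)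
        rw [Ch_X0]
        simp
      · change MvPolynomial.aeval P (Ch O g (MvPolynomial.X 1)) =
          MvPolynomial.aeval ![O 0 + P 0, g.eval (P 0) + P 1] (MvPolynomial.X 1)
        rw [Ch_X1, map_add, ← Polynomial.aeval_algHom_apply]
        simp [Polynomial.aeval_def, Polynomial.eval₂_eq_eval_map]
    exact DFunLike.congr_fun h2 F
  have h2 := Ideal.pow_right_mono h1 m h
  exact Ideal.le_comap_pow (Ch O g) m h2

theorem ND_eval_zero' {β : ℕ} {F : R2} {d : ℕ × ℕ} (h : WL β F d) (Q : ℂ × ℂ)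
    (o : ℕ × ℕ) : (ND β F d Q o).eval 0 =
      MvPolynomial.coeff (e2 d.1 d.2) F * E o d Q.1 Q.2 := by
  rw [ND, Polynomial.eval_finsetSum, Finset.sum_eq_single (e2 d.1 d.2)]
  · have h0 : e2 d.1 d.2 0 = d.1 := rfl
    have h1 : e2 d.1 d.2 1 = d.2 := rfl
    rw [h0, h1]
    simp
  · intro p hp hne
    rcases h.2 p hp with h1 | h1
    · exact absurd h1 hne
    · rw [Polynomial.eval_mul, Polynomial.eval_pow, Polynomial.eval_X, zero_pow (by omega), mul_zero]
  · intro hn
    exact absurd (MvPolynomial.mem_support_iff.2 h.1) hn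

theorem ND_eval' {β : ℕ} {F : R2} {d : ℕ × ℕ} (h : WL β F d) (Q : ℂ × ℂ)
    (o : ℕ × ℕ) (t : ℂ) : t ^ (wt (1, β) o) * TC F (t * Q.1, t ^ β * Q.2) o =
      t ^ (wt (1, β) d) * (ND β F d Q o).eval t := by
  rw [TC_eq, ND, Polynomial.eval_finsetSum, Finset.mul_sum, Finset.mul_sum]
  apply Finset.sum_congr rfl
  intro p hp
  have h1 := E_scale (1, β) o (p 0, p 1) Q.1 Q.2 t
  rw [show (1, β).1 = 1 from rfl, show (1, β).2 = β from rfl, pow_one] at h1
  rw [Polynomial.eval_mul, Polynomial.eval_C, Polynomial.eval_pow, Polynomial.eval_X,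
    mul_left_comm, h1]
  have h2 : wt (1, β) d ≤ wt (1, β) (p 0, p 1) := by
    rcases h.2 p hp with h3 | h3
    · rw [h3]
      exact le_rfl
    · exact h3.le
  rw [show t ^ wt (1, β) (p 0, p 1) = t ^ wt (1, β) d * t ^ (wt (1, β) (p 0, p 1) - wt (1, β) d) by
    rw [← pow_add, Nat.add_sub_cancel' h2]]
  ring

theorem wl_indep {β : ℕ} {D : Finset (ℕ × ℕ)} {C : ℕ × ℕ → R2}
    (hC : ∀ d ∈ D, WL β (C d) d)
    {c : ℕ × ℕ → ℂ} (h : ∑ d ∈ D, c d • C d = 0) : ∀ d ∈ D, c d = 0 := by
  by_contra hcon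
  push Not at hcon
  obtain ⟨d₀, hd₀, hd₀'⟩ := hcon
  obtain ⟨d, hd, hmin⟩ := Finset.exists_min_image (D.filter fun d => c d ≠ 0)
    (fun d => wt (1, β) d) ⟨d₀, Finset.mem_filter.2 ⟨hd₀, hd₀'⟩⟩
  rw [Finset.mem_filter] at hd
  have h1 := congrArg (MvPolynomial.coeff (e2 d.1 d.2)) h
  rw [MvPolynomial.coeff_sum, MvPolynomial.coeff_zero, Finset.sum_eq_single d] at h1
  · rw [MvPolynomial.coeff_smul, smul_eq_mul] at h1
    rcases mul_eq_zero.1 h1 with h2 | h2
    · exact hd.2 h2
    · exact (hC d hd.1).1 h2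
  · intro d' hd' hne
    rw [MvPolynomial.coeff_smul, smul_eq_mul]
    by_cases h0 : c d' = 0
    · rw [h0, zero_mul]
    · have h2 := hmin d' (Finset.mem_filter.2 ⟨hd', h0⟩)
      by_contra hcon
      have h3 : e2 d.1 d.2 ∈ (C d').support :=
        MvPolynomial.mem_support_iff.2 (right_ne_zero_of_mul hcon)
      rcases (hC d' hd').2 _ h3 with h4 | h4
      · obtain ⟨h5, h6⟩ := e2_inj h4
        exact hne (Prod.ext h5.symm h6.symm)
      · rw [wt_e2, ← wt_pair] at h4
        have : wt (1, β) (d.1, d.2) = wt (1, β) d := rfl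
        omega
  · intro hn
    exact absurd hd.1 hn

end Helper18.Flag
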