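import Pool.Agent.Helper18.CuspTransfer
import Mathlib

/-!
Elimination for an irreducible plane curve.
-/

open Module

noncomputable section

namespace Helper18.Flag

open Helper18.Shgh

/-- a polynomial in two variables as a polynomial in the second one -/
def biv : R2 →ₐ[ℂ] Polynomial (Polynomial ℂ) :=
  MvPolynomial.aeval ![Polynomial.C Polynomial.X, Polynomial.X]

theorem biv_X0 : biv (MvPolynomial.X 0) = Polynomial.C Polynomial.X := by simp [biv]
theorem biv_X1 : biv (MvPolynomial.X 1) = Polynomial.X := by simp [biv]

/-- the inverse of `biv` -/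
def unbiv : Polynomial (Polynomial ℂ) →+* R2 :=
  Polynomial.eval₂RingHom (Polynomial.aeval (MvPolynomial.X 0 : R2)).toRingHom (MvPolynomial.X 1)

theorem unbiv_biv (F : R2) : unbiv (biv F) = F := by
  have h : (unbiv.comp biv.toRingHom) = RingHom.id R2 := by
    apply MvPolynomial.ringHom_ext
    · intro c
      change unbiv (biv (MvPolynomial.C c)) = MvPolynomial.C c
      rw [← MvPolynomial.algebraMap_eq, AlgHom.commutes, unbiv, Polynomial.coe_eval₂RingHom,
        Polynomial.algebraMap_apply, Polynomial.eval₂_C]
      simp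
    · intro i
      fin_cases i
      · change unbiv (biv (MvPolynomial.X 0)) = MvPolynomial.X 0
        rw [biv_X0, unbiv, Polynomial.coe_eval₂RingHom, Polynomial.eval₂_C]
        simp
      · change unbiv (biv (MvPolynomial.X 1)) = MvPolynomial.X 1
        rw [biv_X1, unbiv, Polynomial.coe_eval₂RingHom, Polynomial.eval₂_X]
  exact DFunLike.congr_fun h F

theorem exists_res {F f : R2} (hF : Irreducible F) (hf : ¬ F ∣ f) :
    ∃ R : Polynomial ℂ, R ≠ 0 ∧ ∃ a b : R2,
      Polynomial.aeval (MvPolynomial.X 0 : R2) R = a * F + b * f := by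
  have hp : Prime F := hF.prime
  let I : Ideal R2 := Ideal.span {F}
  have hI : I.IsPrime := (Ideal.span_singleton_prime hF.ne_zero).2 hp
  let x : R2 ⧸ I := Ideal.Quotient.mk I (MvPolynomial.X 0)
  let alg : Algebra (Polynomial ℂ) (R2 ⧸ I) := (Polynomial.aeval x).toRingHom.toAlgebra
  have hmap : ∀ p : Polynomial ℂ, algebraMap (Polynomial ℂ) (R2 ⧸ I) p = Polynomial.aeval x p :=
    fun p => rfl
  have hmk : ∀ p : Polynomial ℂ, algebraMap (Polynomial ℂ) (R2 ⧸ I) p =
      Ideal.Quotient.mk I (Polynomial.aeval (MvPolynomial.X 0 : R2) p) := by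
    intro p
    rw [hmap]
    exact (Polynomial.map_aeval_eq_aeval_map (φ := RingHom.id ℂ) (ψ := Ideal.Quotient.mk I)
      (by ext; rfl) p (MvPolynomial.X 0)).symm ▸ (by simp [x])
  have halg : ∀ G : R2, IsAlgebraic (Polynomial ℂ) (Ideal.Quotient.mk I G) := by
    intro G
    induction G using MvPolynomial.induction_on with
    | C c =>
      have : Ideal.Quotient.mk I (MvPolynomial.C c) =
          algebraMap (Polynomial ℂ) (R2 ⧸ I) (Polynomial.C c) := by
        rw [hmk, Polynomial.aeval_C]; rfl
      rw [this]
      exact isAlgebraic_algebraMap _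
    | add P Q hP hQ => rw [map_add]; exact hP.add hQ
    | mul_X P i hP =>
      rw [map_mul]
      refine hP.mul ?_
      fin_cases i
      · have : Ideal.Quotient.mk I (MvPolynomial.X 0) =
            algebraMap (Polynomial ℂ) (R2 ⧸ I) Polynomial.X := by
          rw [hmk, Polynomial.aeval_X]
        change IsAlgebraic (Polynomial ℂ) (Ideal.Quotient.mk I (MvPolynomial.X 0))
        rw [this]
        exact isAlgebraic_algebraMap _
      · change IsAlgebraic (Polynomial ℂ) (Ideal.Quotient.mk I (MvPolynomial.X 1))
        refine ⟨biv F, ?_, ?_⟩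
        · intro h0
          have := unbiv_biv F
          rw [h0, map_zero] at this
          exact hF.ne_zero this.symm
        · have h1 : ((Polynomial.aeval (Ideal.Quotient.mk I (MvPolynomial.X 1)) :
              Polynomial (Polynomial ℂ) →ₐ[Polynomial ℂ] (R2 ⧸ I)) : _ →+* (R2 ⧸ I)).comp
              (biv : R2 →+* Polynomial (Polynomial ℂ)) = Ideal.Quotient.mk I := by
            apply MvPolynomial.ringHom_ext
            · intro c
              change Polynomial.aeval (Ideal.Quotient.mk I (MvPolynomial.X 1))
                (biv (MvPolynomial.C c)) = _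
              rw [← MvPolynomial.algebraMap_eq, AlgHom.commutes, Polynomial.algebraMap_apply,
                Polynomial.aeval_C, hmk]
              simp
            · intro i
              fin_cases i
              · change Polynomial.aeval (Ideal.Quotient.mk I (MvPolynomial.X 1))
                  (biv (MvPolynomial.X 0)) = _
                rw [biv_X0, Polynomial.aeval_C, hmk, Polynomial.aeval_X]
                rfl
              · change Polynomial.aeval (Ideal.Quotient.mk I (MvPolynomial.X 1))
                  (biv (MvPolynomial.X 1)) = _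
                rw [biv_X1, Polynomial.aeval_X]
                rfl
          have h2 := DFunLike.congr_fun h1 F
          change Polynomial.aeval (Ideal.Quotient.mk I (MvPolynomial.X 1)) (biv F) = _ at h2
          rw [h2, Ideal.Quotient.eq_zero_iff_mem]
          exact Ideal.mem_span_singleton_self F
  have hf0 : Ideal.Quotient.mk I f ∈ nonZeroDivisors (R2 ⧸ I) := by
    apply mem_nonZeroDivisors_of_ne_zero
    intro h
    rw [Ideal.Quotient.eq_zero_iff_mem, Ideal.mem_span_singleton] at h
    exact hf h
  obtain ⟨R, hR, y, hy⟩ := (halg f).exists_nonzero_dvd hf0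
  obtain ⟨b, rfl⟩ := Ideal.Quotient.mk_surjective y
  rw [hmk, ← map_mul, Ideal.Quotient.eq, Ideal.mem_span_singleton] at hy
  obtain ⟨a, ha⟩ := hy
  exact ⟨R, hR, a, b, by linear_combination ha⟩

/-- a point of the curve where `g` does not vanish -/
theorem exists_point {F g : R2} (hF : Irreducible F) (hg : ¬ F ∣ g) :
    ∃ O : Fin 2 → ℂ, MvPolynomial.eval O F = 0 ∧ MvPolynomial.eval O g ≠ 0 := by
  by_contra hcon
  push Not at hcon
  have hI : (Ideal.span {F} : Ideal R2).IsPrime :=
    (Ideal.span_singleton_prime hF.ne_zero).2 hF.prime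
  have h1 := MvPolynomial.vanishingIdeal_zeroLocus_eq_radical (K := ℂ) (Ideal.span {F} : Ideal R2)
  rw [hI.radical] at h1
  apply hg
  rw [← Ideal.mem_span_singleton, ← h1, MvPolynomial.mem_vanishingIdeal_iff]
  intro O hO
  rw [MvPolynomial.mem_zeroLocus_iff] at hO
  have h2 := hO F (Ideal.mem_span_singleton_self F)
  rw [MvPolynomial.aeval_eq_eval] at h2 ⊢
  exact hcon O h2

end Helper18.Flag
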