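import Pool.Agent.Helper18.ShghPeel
import Mathlib

/-!
The nodal cubic `y^2 = x^3 + x^2` and the restriction of polynomials to it.
-/

open Module

noncomputable section

namespace Helper18.Nod

open Helper18.Shgh

/-- the nodal cubic -/
def cn : R2 := MvPolynomial.X 1 ^ 2 - MvPolynomial.X 0 ^ 3 - MvPolynomial.X 0 ^ 2

theorem totalDegree_cn : cn.totalDegree = 3 := by
  apply le_antisymm
  · rw [cn]
    refine (MvPolynomial.totalDegree_sub _ _).trans (max_le ?_ ?_)
    · refine (MvPolynomial.totalDegree_sub _ _).trans (max_le ?_ ?_)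
      · rw [MvPolynomial.totalDegree_X_pow]; omega
      · rw [MvPolynomial.totalDegree_X_pow]
    · rw [MvPolynomial.totalDegree_X_pow]; omega
  · have h : MvPolynomial.coeff (Finsupp.single (0 : Fin 2) 3) cn ≠ 0 := by
      have h1 : ¬ (Finsupp.single (1 : Fin 2) 2 = Finsupp.single (0 : Fin 2) 3) := by
        intro h
        have := DFunLike.congr_fun h 0
        simp at this
      have h2 : ¬ (Finsupp.single (0 : Fin 2) 2 = Finsupp.single (0 : Fin 2) 3) := by
        intro h
        have := DFunLike.congr_fun h 0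
        simp at this
      rw [cn, MvPolynomial.coeff_sub, MvPolynomial.coeff_sub, MvPolynomial.coeff_X_pow,
        MvPolynomial.coeff_X_pow, MvPolynomial.coeff_X_pow, if_neg h1, if_neg h2]
      simp
    have := MvPolynomial.le_totalDegree (MvPolynomial.mem_support_iff.2 h)
    rw [Finsupp.sum_single_index rfl] at this
    exact this

theorem cn_ne_zero : cn ≠ 0 := by
  intro h
  have := totalDegree_cn
  rw [h] at this
  simp at this

theorem cn_mul_mem_V {F : R2} {n : ℤ} : cn * F ∈ V n ↔ F ∈ V (n - 3) := by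
  have := mul_mem_V_iff (F := F) cn_ne_zero (n := n - 3)
  rw [totalDegree_cn] at this
  rw [← this]
  congr! 2
  push_cast
  ring

/-- restriction to the cubic, pulled back to the normalization -/
def rn : R2 →ₐ[ℂ] Polynomial ℂ :=
  MvPolynomial.aeval ![Polynomial.X ^ 2 - 1, Polynomial.X ^ 3 - Polynomial.X]

theorem rn_X0 : rn (MvPolynomial.X 0) = Polynomial.X ^ 2 - 1 := by simp [rn]
theorem rn_X1 : rn (MvPolynomial.X 1) = Polynomial.X ^ 3 - Polynomial.X := by simp [rn]

theorem rn_cn : rn cn = 0 := by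
  rw [cn, map_sub, map_sub, map_pow, map_pow, map_pow, rn_X0, rn_X1]
  ring

theorem exists_nf (F : R2) : ∃ (A : R2) (B C : Polynomial ℂ),
    F = cn * A + Polynomial.aeval (MvPolynomial.X 0) B +
      Polynomial.aeval (MvPolynomial.X 0) C * MvPolynomial.X 1 := by
  induction F using MvPolynomial.induction_on with
  | C a =>
    refine ⟨0, Polynomial.C a, 0, ?_⟩
    rw [Polynomial.aeval_C]
    simp [MvPolynomial.algebraMap_eq]
  | add F G hF hG =>
    obtain ⟨A, B, C, h⟩ := hF
    obtain ⟨A', B', C', h'⟩ := hG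
    refine ⟨A + A', B + B', C + C', ?_⟩
    rw [map_add, map_add, h, h']
    ring
  | mul_X F i hF =>
    obtain ⟨A, B, C, h⟩ := hF
    fin_cases i
    · refine ⟨A * MvPolynomial.X 0, B * Polynomial.X, C * Polynomial.X, ?_⟩
      change F * MvPolynomial.X 0 = _
      rw [h, map_mul, map_mul, Polynomial.aeval_X]
      ring
    · refine ⟨A * MvPolynomial.X 1 + Polynomial.aeval (MvPolynomial.X 0) C,
        C * (Polynomial.X ^ 3 + Polynomial.X ^ 2), B, ?_⟩
      change F * MvPolynomial.X 1 = _
      rw [h, map_mul, map_add, map_pow, map_pow, Polynomial.aeval_X, cn]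
      ring

theorem rn_aeval (B : Polynomial ℂ) :
    rn (Polynomial.aeval (MvPolynomial.X 0) B) = B.comp (Polynomial.X ^ 2 - 1) := by
  rw [← Polynomial.aeval_algHom_apply, rn_X0]
  rfl

theorem comp_neg (B : Polynomial ℂ) : (B.comp (Polynomial.X ^ 2 - 1)).comp (-Polynomial.X) =
    B.comp (Polynomial.X ^ 2 - 1) := by
  rw [Polynomial.comp_assoc]
  congr 1
  simp

theorem comp_ne_zero {B : Polynomial ℂ} (h : B.comp (Polynomial.X ^ 2 - 1) = 0) : B = 0 := by
  rw [Polynomial.comp_eq_zero_iff] at h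
  rcases h with h | ⟨_, h⟩
  · exact h
  · exfalso
    have h1 : (Polynomial.X ^ 2 - 1 : Polynomial ℂ).natDegree = 2 := by
      have : (Polynomial.X ^ 2 - 1 : Polynomial ℂ) = Polynomial.X ^ 2 - Polynomial.C 1 := by simp
      rw [this, Polynomial.natDegree_X_pow_sub_C]
    rw [h, Polynomial.natDegree_C] at h1
    omega

theorem rn_nf (A : R2) (B C : Polynomial ℂ) :
    rn (cn * A + Polynomial.aeval (MvPolynomial.X 0) B +
      Polynomial.aeval (MvPolynomial.X 0) C * MvPolynomial.X 1) =
      B.comp (Polynomial.X ^ 2 - 1) +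
        C.comp (Polynomial.X ^ 2 - 1) * (Polynomial.X ^ 3 - Polynomial.X) := by
  rw [map_add, map_add, map_mul, map_mul, rn_cn, rn_aeval, rn_aeval, rn_X1, zero_mul, zero_add]

theorem exists_of_rn_eq_zero {F : R2} (h : rn F = 0) : ∃ G, F = cn * G := by
  obtain ⟨A, B, C, hF⟩ := exists_nf F
  rw [hF, rn_nf] at h
  have h2 := congrArg (fun p => Polynomial.comp p (-Polynomial.X)) h
  simp only [Polynomial.add_comp, Polynomial.mul_comp, comp_neg, Polynomial.zero_comp] at h2
  have h3 : ((Polynomial.X ^ 3 - Polynomial.X : Polynomial ℂ)).comp (-Polynomial.X) =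
      -(Polynomial.X ^ 3 - Polynomial.X) := by
    simp
    ring
  rw [h3] at h2
  have hB : B.comp (Polynomial.X ^ 2 - 1) = 0 := by
    have : (2 : Polynomial ℂ) * B.comp (Polynomial.X ^ 2 - 1) = 0 := by linear_combination h + h2
    rcases mul_eq_zero.1 this with h4 | h4
    · exact absurd h4 two_ne_zero
    · exact h4
  have hC : C.comp (Polynomial.X ^ 2 - 1) = 0 := by
    rw [hB, zero_add] at h
    rcases mul_eq_zero.1 h with h4 | h4
    · exact h4
    · exfalso
      have := congrArg (fun p => Polynomial.eval 2 p) h4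
      simp at this
      norm_num at this
  refine ⟨A, ?_⟩
  rw [hF, comp_ne_zero hB, comp_ne_zero hC]
  simp

/-- the point with parameter `z` -/
def np (z : ℂ) : Fin 2 → ℂ := ![z ^ 2 - 1, z ^ 3 - z]

theorem eval_rn (z : ℂ) (F : R2) : (rn F).eval z = MvPolynomial.eval (np z) F := by
  have h : (Polynomial.aeval z).comp rn =
      (MvPolynomial.aeval (np z) : R2 →ₐ[ℂ] ℂ) := by
    apply MvPolynomial.algHom_ext
    intro i
    fin_cases i <;> simp [rn, np]
  have h1 := DFunLike.congr_fun h F
  rw [AlgHom.comp_apply, Polynomial.coe_aeval_eq_eval] at h1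
  rw [h1]
  rfl

theorem rn_glue (F : R2) : (rn F).eval 1 = (rn F).eval (-1) := by
  rw [eval_rn, eval_rn]
  congr 1
  rw [np, np]
  norm_num

theorem natDegree_rn {n : ℕ} {F : R2} (h : F ∈ V n) : (rn F).natDegree ≤ 3 * n := by
  have key : V n ≤ (Polynomial.degreeLE ℂ ((3 * n : ℕ) : WithBot ℕ)).comap rn.toLinearMap := by
    rw [V, MvPolynomial.restrictSupport_eq_span, Submodule.span_le]
    rintro _ ⟨e, he, rfl⟩
    change rn (MvPolynomial.monomial e 1) ∈ Polynomial.degreeLE ℂ ((3 * n : ℕ) : WithBot ℕ)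
    rw [Polynomial.mem_degreeLE, ← Polynomial.natDegree_le_iff_degree_le, rn,
      MvPolynomial.aeval_monomial, map_one, one_mul, Finsupp.prod_fintype _ _ (by simp),
      Fin.prod_univ_two]
    change ((Polynomial.X ^ 2 - 1 : Polynomial ℂ) ^ (e 0) *
      (Polynomial.X ^ 3 - Polynomial.X) ^ (e 1)).natDegree ≤ _
    have h1 : (Polynomial.X ^ 2 - 1 : Polynomial ℂ).natDegree ≤ 2 := by
      refine (Polynomial.natDegree_sub_le _ _).trans (max_le ?_ ?_)
      · rw [Polynomial.natDegree_X_pow]
      · simp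
    have h2 : (Polynomial.X ^ 3 - Polynomial.X : Polynomial ℂ).natDegree ≤ 3 := by
      refine (Polynomial.natDegree_sub_le _ _).trans (max_le ?_ ?_)
      · rw [Polynomial.natDegree_X_pow]
      · rw [Polynomial.natDegree_X]; omega
    refine (Polynomial.natDegree_mul_le).trans ?_
    refine (Nat.add_le_add (Polynomial.natDegree_pow_le_of_le _ h1)
      (Polynomial.natDegree_pow_le_of_le _ h2)).trans ?_
    change ((e.degree : ℕ) : ℤ) ≤ n at he
    have h3 : e.degree = e 0 + e 1 := by
      rw [Finsupp.degree_eq_sum, Fin.sum_univ_two]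
    rw [h3] at he
    have : e 0 + e 1 ≤ n := by exact_mod_cast he
    omega
  have h1 := key h
  rw [Submodule.mem_comap, Polynomial.mem_degreeLE, ← Polynomial.natDegree_le_iff_degree_le] at h1
  exact h1

theorem rn_dvd {z : ℂ} {m : ℕ} {F : R2} (h : F ∈ mI (np z) ^ m) :
    (Polynomial.X - Polynomial.C z) ^ m ∣ rn F := by
  have h1 : mI (np z) ≤ Ideal.comap rn (Ideal.span {Polynomial.X - Polynomial.C z}) := by
    intro G hG
    rw [Ideal.mem_comap, Ideal.mem_span_singleton, Polynomial.dvd_iff_isRoot,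
      Polynomial.IsRoot.def, eval_rn]
    exact mem_mI_iff.1 hG
  have h2 := Ideal.pow_right_mono h1 m h
  have h3 := Ideal.le_comap_pow rn m h2
  rw [Ideal.mem_comap, Ideal.span_singleton_pow, Ideal.mem_span_singleton] at h3
  exact h3

theorem cn_mem (z : ℂ) : cn ∈ mI (np z) := by
  rw [mem_mI_iff, ← eval_rn, rn_cn, Polynomial.eval_zero]

theorem DY_cn : DY cn = 2 * MvPolynomial.X 1 := by
  rw [cn, map_sub, map_sub, Derivation.leibniz_pow, Derivation.leibniz_pow, Derivation.leibniz_pow,
    DY, MvPolynomial.pderiv_X_self, MvPolynomial.pderiv_X_of_ne (by decide)]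
  simp only [smul_eq_mul, nsmul_eq_mul]
  push_cast
  ring

theorem DX_cn : MvPolynomial.pderiv 0 cn =
    - (3 * MvPolynomial.X 0 ^ 2) - 2 * MvPolynomial.X 0 := by
  rw [cn, map_sub, map_sub, Derivation.leibniz_pow, Derivation.leibniz_pow, Derivation.leibniz_pow,
    MvPolynomial.pderiv_X_self, MvPolynomial.pderiv_X_of_ne (by decide)]
  simp only [smul_eq_mul, nsmul_eq_mul]
  push_cast
  ring

theorem cn_notMem {z : ℂ} (h1 : z ≠ 1) (h2 : z ≠ -1) : cn ∉ mI (np z) ^ 2 := by
  intro h
  have h3 := deriv_mem_pow DY (mI (np z)) 1 h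
  rw [pow_one, mem_mI_iff, DY_cn, map_mul, MvPolynomial.eval_X] at h3
  have h4 : MvPolynomial.eval (np z) (2 : R2) = 2 := map_ofNat _ 2
  rw [h4] at h3
  change 2 * (z ^ 3 - z) = 0 at h3
  have h5 : z * ((z - 1) * (z + 1)) = 0 := by linear_combination h3 / 2
  have h6 : z = 0 := by
    rcases mul_eq_zero.1 h5 with h | h
    · exact h
    · rcases mul_eq_zero.1 h with h | h
      · exact absurd (sub_eq_zero.1 h) h1
      · exact absurd (eq_neg_of_add_eq_zero_left h) h2
  have h7 := deriv_mem_pow (MvPolynomial.pderiv 0) (mI (np z)) 1 h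
  rw [pow_one, mem_mI_iff, DX_cn, h6] at h7
  simp [np] at h7
  norm_num at h7

end Helper18.Nod
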