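import Mathlib
import Pool.Agent.Helper18.SlabMain

/-!
Properties of a curve of class `-kK` that follow from its restriction to the cubic.
-/

set_option autoImplicit false

open Module

noncomputable section

namespace Helper18.Slab

open Helper18.Shgh Helper18.Flag
open Helper18.Nod

/-- an irreducible curve of class `-kK` with its restriction to the nodal cubic -/
structure PencilData (k : ℕ) (z : ℕ → ℂ) (F : R2) : Prop where
  good : GoodZ z
  mem : F ∈ NS z (3 * k) (fun _ => k)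
  res : rn F = PN z (fun _ => k)
  irr : Irreducible F

variable {k : ℕ} {z : ℕ → ℂ} {F : R2}

theorem PencilData.natDegree (h : PencilData k z F) : (rn F).natDegree = 9 * k := by
  rw [h.res, natDegree_PN, Finset.sum_const, Finset.card_range, smul_eq_mul]

theorem PencilData.totalDegree (h : PencilData k z F) : F.totalDegree = 3 * k := by
  apply le_antisymm
  · have h1 := h.mem.1
    rw [mem_V] at h1
    rcases h1 with h1 | h1
    · exact absurd h1 h.irr.ne_zero
    · exact_mod_cast h1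
  · have h1 : F ∈ V (F.totalDegree : ℤ) := by rw [mem_V]; right; exact le_rfl
    have h2 := natDegree_rn h1
    rw [h.natDegree] at h2
    omega

/-- the order of a product -/
theorem mem_of_mul_mem' {P : Fin 2 → ℂ} {m k : ℕ} {A G : R2}
    (hA : A ∉ mI P ^ (k + 1)) (h : A * G ∈ mI P ^ m) : G ∈ mI P ^ (m - k) := by
  rw [mem_mI_pow_order] at *
  rw [map_mul, MvPolynomial.coe_mul, MvPowerSeries.order_mul] at h
  push Not at hA
  by_cases hG : MvPowerSeries.order (tau P G : MvPowerSeries (Fin 2) ℂ) = ⊤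
  · rw [hG]; exact le_top
  obtain ⟨g, hg⟩ := ENat.ne_top_iff_exists.1 hG
  have hA' : MvPowerSeries.order (tau P A : MvPowerSeries (Fin 2) ℂ) ≠ ⊤ := ne_top_of_lt hA
  obtain ⟨a, ha⟩ := ENat.ne_top_iff_exists.1 hA'
  rw [← hg, ← ha] at h
  rw [← ha] at hA
  rw [← hg]
  norm_cast at *
  omega

theorem PencilData.notMem (h : PencilData k z F) {i : ℕ} (hi : i ∈ Finset.range 9) :
    F ∉ mI (np (z i)) ^ (k + 1) := by
  intro h1
  have h2 := rn_dvd h1
  rw [h.res, PN, ← Finset.mul_prod_erase _ _ hi, pow_succ] at h2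
  have h3 : (Polynomial.X - Polynomial.C (z i) : Polynomial ℂ) ∣
      ∏ j ∈ (Finset.range 9).erase i, (Polynomial.X - Polynomial.C (z j)) ^ k := by
    exact (mul_dvd_mul_iff_left (pow_ne_zero _ (Polynomial.X_sub_C_ne_zero (z i)))).1 h2
  obtain ⟨j, hj, hj2⟩ := (Prime.dvd_finsetProd_iff (Polynomial.prime_X_sub_C (z i)) _).1 h3
  have h4 := (Polynomial.prime_X_sub_C (z i)).dvd_of_dvd_pow hj2
  rw [Polynomial.dvd_iff_isRoot, Polynomial.root_X_sub_C] at h4
  rw [Finset.mem_erase] at hj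
  exact hj.1 (z_inj h.good (Finset.mem_range.1 hj.2) (Finset.mem_range.1 hi) h4)

theorem PencilData.mul (h : PencilData k z F) (n : ℤ) (a : ℕ → ℕ) (G : R2) :
    F * G ∈ NS z n a ↔ G ∈ NS z (n - 3 * k) (fun i => a i - k) := by
  have hV : F * G ∈ V n ↔ G ∈ V (n - 3 * k) := by
    have := mul_mem_V_iff (F := G) h.irr.ne_zero (n := n - 3 * k)
    rw [h.totalDegree] at this
    rw [← this]
    congr! 2
    push_cast
    ring
  rw [mem_SP, mem_SP, hV]
  refine and_congr_right fun _ => forall₂_congr fun i hi => ?_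
  constructor
  · intro h1
    exact mem_of_mul_mem' (h.notMem hi) h1
  · intro h1
    have h3 : F * G ∈ mI (np (z i)) ^ (k + (a i - k)) := mul_mem_mI_pow (h.mem.2 i hi) h1
    exact Ideal.pow_le_pow_right (by omega) h3

theorem DY_mem_V {n : ℤ} {G : R2} (h : G ∈ V n) : DY G ∈ V (n - 1) := by
  rw [mem_V'] at h ⊢
  intro e he
  rw [e2_eq e, coeff_DY] at he
  have h1 := h (e2 (e 0) (e 1 + 1)) (right_ne_zero_of_mul he)
  rw [Finsupp.degree_eq_sum, Fin.sum_univ_two] at h1 ⊢
  have h2 : e2 (e 0) (e 1 + 1) 0 = e 0 := rfl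
  have h3 : e2 (e 0) (e 1 + 1) 1 = e 1 + 1 := rfl
  rw [h2, h3] at h1
  push_cast at h1 ⊢
  linarith

theorem natDegree_rn_of_DY {n : ℕ} {G : R2} (h : G ∈ V n) (h0 : DY G = 0) :
    (rn G).natDegree ≤ 2 * n := by
  have h1 : rn G = ∑ e ∈ G.support, rn (MvPolynomial.monomial e (MvPolynomial.coeff e G)) := by
    conv_lhs => rw [MvPolynomial.as_sum G]
    rw [map_sum]
  rw [h1]
  apply Polynomial.natDegree_sum_le_of_forall_le
  intro e he
  rw [MvPolynomial.mem_support_iff] at he
  have h2 : e 1 = 0 := by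
    by_contra hne
    obtain ⟨j, hj⟩ : ∃ j, e 1 = j + 1 := ⟨e 1 - 1, by omega⟩
    have h3 := coeff_DY G (e 0) j
    rw [h0, MvPolynomial.coeff_zero, ← hj, ← e2_eq e] at h3
    rcases mul_eq_zero.1 h3.symm with h4 | h4
    · have : ((j : ℂ) + 1) ≠ 0 := by exact_mod_cast Nat.succ_ne_zero j
      exact this h4
    · exact he h4
  rw [mem_V'] at h
  have h3 := h e he
  rw [Finsupp.degree_eq_sum, Fin.sum_univ_two, h2] at h3
  rw [rn, MvPolynomial.aeval_monomial, Finsupp.prod_fintype _ _ (by simp),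
    Fin.prod_univ_two, h2, pow_zero, mul_one]
  change ((algebraMap ℂ (Polynomial ℂ)) (MvPolynomial.coeff e G) *
    (Polynomial.X ^ 2 - 1 : Polynomial ℂ) ^ (e 0)).natDegree ≤ _
  have h4 : (Polynomial.X ^ 2 - 1 : Polynomial ℂ).natDegree ≤ 2 := by
    refine (Polynomial.natDegree_sub_le _ _).trans (max_le ?_ ?_)
    · rw [Polynomial.natDegree_X_pow]
    · simp
  rw [Polynomial.algebraMap_eq]
  refine (Polynomial.natDegree_C_mul_le _ _).trans ?_
  refine (Polynomial.natDegree_pow_le_of_le _ h4).trans ?_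
  have : e 0 ≤ n := by
    have : ((e 0 + 0 : ℕ) : ℤ) ≤ n := h3
    omega
  omega

theorem PencilData.ndy (h : PencilData k z F) (hk : 1 ≤ k) : ¬ F ∣ DY F := by
  have h0 : DY F ≠ 0 := by
    intro h0
    have h1 : F ∈ V ((3 * k : ℕ) : ℤ) := by
      have := h.mem.1
      push_cast
      exact this
    have h2 := natDegree_rn_of_DY h1 h0
    rw [h.natDegree] at h2
    omega
  rintro ⟨G, hG⟩
  have h1 : F ∈ V (F.totalDegree : ℤ) := by rw [mem_V]; right; exact le_rfl
  have h2 := DY_mem_V h1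
  have hG0 : G ≠ 0 := by
    rintro rfl
    rw [mul_zero] at hG
    exact h0 hG
  rw [hG, mem_V] at h2
  rcases h2 with h2 | h2
  · exact mul_ne_zero h.irr.ne_zero hG0 h2
  · rw [MvPolynomial.totalDegree_mul_of_isDomain h.irr.ne_zero hG0] at h2
    push_cast at h2
    linarith [show (0 : ℤ) ≤ G.totalDegree by positivity]

theorem PencilData.notdvd (h : PencilData k z F) (hk : 2 ≤ k) : ¬ F ∣ cn := by
  rintro ⟨G, hG⟩
  have hG0 : G ≠ 0 := by
    rintro rfl
    rw [mul_zero] at hG
    exact cn_ne_zero hG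
  have h1 := totalDegree_cn
  rw [hG, MvPolynomial.totalDegree_mul_of_isDomain h.irr.ne_zero hG0, h.totalDegree] at h1
  omega

theorem PencilData.pencil (h : PencilData k z F) (hk : 2 ≤ k) : Pencil k z F :=
  ⟨h.good, h.irr, h.notdvd hk, h.ndy (by omega), h.mul⟩

end Helper18.Slab
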