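import Mathlib
import Pool.Agent.Helper18.SlabPencil

/-!
The final theorem: every reduced system of large degree is non-special.
-/

set_option autoImplicit false

open Module

noncomputable section

namespace Helper18.Slab

open Helper18.Shgh Helper18.Cusp Helper18.Flag
open Helper18.Nod
open Pool.Agent.Lead.Sh (Inj Ind rows mem_rows)

/-- small anticanonical multiples of the nine points are unique -/
def Uniq (k : ℕ) (z : ℕ → ℂ) : Prop :=
  ∀ j < k, ∀ G ∈ NS z (3 * j) (fun _ => j), ∃ c : ℂ, G = MvPolynomial.C c * cn ^ j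

theorem red_zero {m : ℕ → ℕ} {d : ℕ} (hm : Antitone m) (hd : m 0 + m 1 + m 2 ≤ d)
    (h : 3 * d ≤ ∑ i ∈ Finset.range 9, m i) : d = 3 * m 8 ∧ ∀ i < 9, m i = m 8 := by
  have h01 : m 1 ≤ m 0 := hm (by norm_num)
  have h12 : m 2 ≤ m 1 := hm (by norm_num)
  have h23 : m 3 ≤ m 2 := hm (by norm_num)
  have h34 : m 4 ≤ m 3 := hm (by norm_num)
  have h45 : m 5 ≤ m 4 := hm (by norm_num)
  have h56 : m 6 ≤ m 5 := hm (by norm_num)
  have h67 : m 7 ≤ m 6 := hm (by norm_num)
  have h78 : m 8 ≤ m 7 := hm (by norm_num)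
  rw [sum9] at h
  refine ⟨by omega, fun i hi => ?_⟩
  interval_cases i <;> omega

theorem main_zero {s : ℕ} {m : ℕ → ℕ} {d : ℕ} (hm : Antitone m) (hs : ∀ i, s ≤ i → m i = 0)
    (hd : m 0 + m 1 + m 2 ≤ d) {k : ℕ} {z : ℕ → ℂ} (hk : m 8 < k) (hz : Uniq k z)
    (hκ : 3 * d ≤ ∑ i ∈ Finset.range 9, m i) : Concl s m d := by
  obtain ⟨hd3, heq⟩ := red_zero hm hd hκ
  have hG : ∀ G ∈ SP (d : ℤ) (Finset.range 9) (fun i => np (z i)) m,
      ∃ c : ℂ, G = MvPolynomial.C c * cn ^ (m 8) := by
    intro G hG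
    apply hz (m 8) hk
    refine ⟨?_, fun i hi => ?_⟩
    · have := hG.1
      rw [hd3] at this
      push_cast at this
      exact this
    · have := hG.2 i hi
      rw [heq i (Finset.mem_range.1 hi)] at this
      exact this
  apply finish9 hm hs (fun i => np (z i)) (fun _ => ![1, 0])
  rcases Nat.eq_zero_or_pos (m 9) with h9 | h9
  · -- nine points
    have hle : KU (SP (d : ℤ) (Finset.range 9) (fun i => np (z i)) m) m (Finset.Ico 9 s)
        (fun _ => ![1, 0]) ≤ ℂ ∙ (cn ^ (m 8)) := by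
      intro G hG'
      obtain ⟨c, hc⟩ := hG G (mem_KU.1 hG').1
      rw [Submodule.mem_span_singleton]
      exact ⟨c, by rw [hc, MvPolynomial.smul_eq_C_mul]⟩
    have h1 := (Submodule.finrank_mono hle).trans (finrank_span_le_card _)
    have h2 : (finrank ℂ (KU (SP (d : ℤ) (Finset.range 9) (fun i => np (z i)) m) m
        (Finset.Ico 9 s) (fun _ => ![1, 0])) : ℤ) ≤ 1 := by
      have : Fintype.card ({cn ^ (m 8)} : Set R2) = 1 := by simp
      simp only [Set.toFinset_card] at h1
      rw [this] at h1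
      exact_mod_cast h1
    apply le_max_of_le_left
    refine h2.trans ?_
    have e1 := sum_split9 hs
    have e2 : (∑ k ∈ Finset.Ico 9 s, (m k + 1).choose 2 : ℕ) = 0 := by
      apply Finset.sum_eq_zero
      intro i hi
      rw [Finset.mem_Ico] at hi
      have := hm hi.1
      rw [show m i = 0 by omega]
      rfl
    rw [e2] at e1
    have e3 : ∑ i ∈ Finset.range 9, (m i : ℤ) * ((m i : ℤ) + 1) =
        9 * ((m 8 : ℤ) * ((m 8 : ℤ) + 1)) := by
      rw [Finset.sum_congr rfl (fun i hi => by rw [heq i (Finset.mem_range.1 hi)]),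
        Finset.sum_const, Finset.card_range]
      simp
    have hd1 : 2 * ((d + 2).choose 2 : ℤ) = (d + 1) * (d + 2) := by
      have := two_choose (d + 1)
      push_cast at this ⊢
      linarith
    have hd4 : (d : ℤ) = 3 * m 8 := by exact_mod_cast hd3
    rw [e3] at e1
    rw [hd4] at hd1
    push_cast at e1
    nlinarith
  · -- the tenth point is not on the cubic
    have hbot : KU (SP (d : ℤ) (Finset.range 9) (fun i => np (z i)) m) m (Finset.Ico 9 s)
        (fun _ => ![1, 0]) = ⊥ := by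
      rw [Submodule.eq_bot_iff]
      intro G hG'
      obtain ⟨c, hc⟩ := hG G (mem_KU.1 hG').1
      have hs9 : 9 < s := by
        by_contra hcon
        have := hs 9 (by omega)
        omega
      have h1 := (mem_KU.1 hG').2 9 (Finset.mem_Ico.2 ⟨le_rfl, hs9⟩)
      have h2 : G ∈ mI (![1, 0] : Fin 2 → ℂ) := Ideal.pow_le_self (by omega) h1
      rw [mem_mI_iff, hc, map_mul, map_pow, MvPolynomial.eval_C] at h2
      have h3 : MvPolynomial.eval (![1, 0] : Fin 2 → ℂ) cn = -2 := by
        rw [cn]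
        simp
        norm_num
      rw [h3] at h2
      rcases mul_eq_zero.1 h2 with h4 | h4
      · rw [hc, h4]; simp
      · exact absurd h4 (pow_ne_zero _ (by norm_num))
    rw [hbot, finrank_bot]
    exact le_max_right _ _

theorem exists_gap'' {m : ℕ → ℕ} (h9 : 1 ≤ m 9) :
    (∃ j, 1 ≤ j ∧ j ≤ 9 ∧ 1000 * m j ^ 16 ≤ m (j - 1)) ∨ m 0 ≤ (1000 * m 9) ^ (17 ^ 9) := by
  have key : ∀ t ≤ 9, (∃ j, 1 ≤ j ∧ j ≤ 9 ∧ 1000 * m j ^ 16 ≤ m (j - 1)) ∨
      m (9 - t) ≤ (1000 * m 9) ^ (17 ^ t) := by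
    intro t
    induction t with
    | zero =>
      intro _
      right
      rw [pow_zero, pow_one, Nat.sub_zero]
      omega
    | succ t ih =>
      intro ht
      rcases ih (by omega) with h1 | h1
      · exact Or.inl h1
      · by_cases h2 : 1000 * m (9 - t) ^ 16 ≤ m (9 - (t + 1))
        · left
          exact ⟨9 - t, by omega, by omega, by rw [show 9 - t - 1 = 9 - (t + 1) by omega]; exact h2⟩
        · right
          push Not at h2
          refine h2.le.trans ?_
          have h3 : m (9 - t) ^ 16 ≤ ((1000 * m 9) ^ (17 ^ t)) ^ 16 := Nat.pow_le_pow_left h1 16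
          have h4 : 1000 ≤ (1000 * m 9) ^ (17 ^ t) := by
            calc 1000 ≤ 1000 * m 9 := by omega
              _ = (1000 * m 9) ^ 1 := (pow_one _).symm
              _ ≤ _ := Nat.pow_le_pow_right (by omega) (Nat.one_le_pow _ _ (by norm_num))
          calc 1000 * m (9 - t) ^ 16 ≤ (1000 * m 9) ^ (17 ^ t) * ((1000 * m 9) ^ (17 ^ t)) ^ 16 :=
                Nat.mul_le_mul h4 h3
            _ = (1000 * m 9) ^ (17 ^ (t + 1)) := by
                rw [← pow_succ', ← pow_mul, ← pow_succ]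
  exact key 9 le_rfl

/-- **The main theorem.** -/
theorem main_all (hex : ∀ k, 1 ≤ k → ∃ (z : ℕ → ℂ) (F : R2), PencilData k z F ∧ Uniq k z)
    {s : ℕ} {m : ℕ → ℕ} {d : ℕ}
    (hm : Antitone m) (hs : ∀ i, s ≤ i → m i = 0) (hd : m 0 + m 1 + m 2 ≤ d)
    (hN : (1000 * m 9) ^ (2 ^ 39) ≤ d) : Concl s m d := by
  rcases Nat.lt_or_ge (∑ i ∈ Finset.range 9, m i) (3 * d) with hlt | hge
  · rcases Nat.eq_zero_or_pos (m 9) with h9 | h9
    · exact main_nine hm hs hd hlt h9
    · rcases exists_gap'' h9 with ⟨j, hj0, hj, h1⟩ | h1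
      · have h1' : 100 * m j ^ 15 ≤ m (j - 1) := by
          refine le_trans ?_ h1
          have hmj : 1 ≤ m j := le_trans h9 (hm hj)
          have h3 : m j ^ 15 ≤ m j ^ 16 := Nat.pow_le_pow_right hmj (by norm_num)
          omega
        rcases Nat.lt_or_ge j 9 with hj9 | hj9
        · exact main_T hm hs hd h9 hj0 hj (fun h => by omega) h1'
        · have hj9' : j = 9 := by omega
          subst hj9'
          rcases Nat.lt_or_ge (3 * d) (∑ i ∈ Finset.range 10, m i + 2) with hκ | hκ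
          · rw [Finset.sum_range_succ] at hκ
            obtain ⟨z, F, hP, -⟩ := hex (m 9 + 2) (by omega)
            exact main_slab hm hs hd h9 (hP.pencil (by omega)) hlt (by omega) h1
          · exact main_T hm hs hd h9 hj0 hj (fun _ => hκ) h1'
      · have h0 : 1 ≤ m 0 := le_trans h9 (hm (Nat.zero_le 9))
        apply main_small hm hs hd h0
        refine le_trans ?_ hN
        have h4 : 10 ≤ (1000 * m 9) ^ (17 ^ 9) := by
          calc 10 ≤ 1000 * m 9 := by omega
            _ = (1000 * m 9) ^ 1 := (pow_one _).symm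
            _ ≤ _ := Nat.pow_le_pow_right (by omega) (Nat.one_le_pow _ _ (by norm_num))
        have h5 : ((1000 * m 9) ^ (17 ^ 9)) ^ 4 ≤ (1000 * m 9) ^ (2 ^ 39) := by
          rw [← pow_mul]
          exact Nat.pow_le_pow_right (by omega) (by norm_num)
        refine le_trans ?_ h5
        generalize (1000 * m 9) ^ (17 ^ 9) = B at h1 h4 ⊢
        calc 10 * m 0 ^ 3 ≤ B * B ^ 3 := Nat.mul_le_mul h4 (Nat.pow_le_pow_left h1 3)
          _ = B ^ 4 := by ring
  · obtain ⟨z, F, -, hU⟩ := hex (m 8 + 1) (by omega)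
    exact main_zero hm hs hd (Nat.lt_succ_self _) hU hge

end Helper18.Slab
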