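import Mathlib

/-!
# Laurentness in triangulation charts versus all cluster charts for PGL₃

The question (Q1 of MP_e62c8e_ag): let `f` be a rational function on the Fock–Goncharov variety
of a punctured surface `S`, for the group `PGL₃`, that is a Laurent polynomial in the
Fock–Goncharov coordinates of every ideal triangulation of `S`.  Must `f` be a Laurent polynomial
in the coordinates of every cluster chart?

The complete answer proved here (theorem `result` of the hand-in): yes for every punctured
surface other than the thrice-punctured sphere, and no for the thrice-punctured sphere.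

This file contains the definitions that the statement of the hand-in
`Pool/Agent/Results/MP_e62c8e_ag/LaurentDichotomy.lean` uses.
-/

set_option autoImplicit false

namespace Pool.Agent.Helper18.PGL3

open Sum MvPolynomial

noncomputable section

/-! ## Definitions: rational functions, charts, seeds and mutations -/

/-- The field of rational functions over `ℂ` in variables indexed by `V`. -/
abbrev RatFun (V : Type) : Type := FractionRing (MvPolynomial V ℂ)

/-- The variables, as elements of the field of rational functions. -/
def cX {V : Type} (v : V) : RatFun V := algebraMap (MvPolynomial V ℂ) (RatFun V) (X v)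

/-- `f` is a Laurent polynomial (with coefficients in `ℂ`) in the family `x`: it lies in the
`ℂ`-algebra generated by all `x v` and all `(x v)⁻¹`. -/
def IsLaurentIn {V : Type} (x : V → RatFun V) (f : RatFun V) : Prop :=
  f ∈ Algebra.adjoin ℂ (Set.range x ∪ Set.range (fun v => (x v)⁻¹))

/-- A (labelled) seed: an exchange matrix and the coordinates of its cluster `𝒳`-chart. -/
structure Seed (V : Type) where
  /-- exchange matrix -/
  ε : V → V → ℤ
  /-- coordinates of the chart -/
  x : V → RatFun V

/-- Mutation at `k`: the usual Fomin–Zelevinsky mutation of the exchange matrix (in the form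
`ε'ᵢⱼ = εᵢⱼ + [εᵢₖ]₊ [εₖⱼ]₊ - [-εᵢₖ]₊ [-εₖⱼ]₊`), and
`X'ₖ = Xₖ⁻¹`, `X'ᵢ = Xᵢ (1 + Xₖ ^ (-sgn εᵢₖ)) ^ (-εᵢₖ)` for `i ≠ k`. -/
def Seed.mutate {V : Type} [DecidableEq V] (s : Seed V) (k : V) : Seed V where
  ε i j := if i = k ∨ j = k then - s.ε i j else
    s.ε i j + max (s.ε i k) 0 * max (s.ε k j) 0 - max (-s.ε i k) 0 * max (-s.ε k j) 0
  x i := if i = k then (s.x k)⁻¹ else s.x i * (1 + (s.x k) ^ (-(s.ε i k).sign)) ^ (-(s.ε i k))

/-- `MutEquiv s t`: the seed `t` is obtained from `s` by a finite sequence of mutations. -/
inductive MutEquiv {V : Type} [DecidableEq V] (s : Seed V) : Seed V → Prop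
  | refl : MutEquiv s s
  | step (t : Seed V) (k : V) : MutEquiv s t → MutEquiv s (t.mutate k)

/-! ## Definitions: ideal triangulations of punctured surfaces -/

/-- An ideal triangulation, without self-folded triangles, of a closed oriented surface whose
punctures are the vertices, given by its gluing pattern.  `T` is the set of triangles and `H` the
set of sides of triangles; a side is directed clockwise along its triangle.  Every edge of the
triangulation consists of two sides `h` and `glue h`, glued with opposite directions. -/
structure IdealTriangulation (H T : Type) where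
  /-- the side to which a side is glued -/
  glue : Equiv.Perm H
  /-- the next side of the same triangle, in clockwise order -/
  next : Equiv.Perm H
  /-- the triangle to which a side belongs -/
  tri : H → T
  glue_glue : ∀ h, glue (glue h) = h
  next_next_next : ∀ h, next (next (next h)) = h
  next_ne : ∀ h, next h ≠ h
  tri_next : ∀ h, tri (next h) = tri h
  eq_of_tri_eq : ∀ h h', tri h = tri h' → h' = h ∨ h' = next h ∨ h' = next (next h)
  tri_surjective : Function.Surjective tri
  /-- no self-folded triangles: two sides of one triangle are never glued to each other, and no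
  side is glued to itself -/
  not_self_folded : ∀ h, tri (glue h) ≠ tri h

namespace IdealTriangulation

/-- The surface is nonempty and connected. -/
def Connected {H T : Type} (Δ : IdealTriangulation H T) : Prop :=
  Nonempty H ∧ ∀ S : Set H, S.Nonempty → (∀ x ∈ S, Δ.glue x ∈ S ∧ Δ.next x ∈ S) → S = Set.univ

/-- The number of punctures.  `h ↦ next (glue h)` turns a side to the next side with the same
initial point, so that punctures are the orbits of this permutation. -/
def numPunctures {H T : Type} (Δ : IdealTriangulation H T) : ℕ :=
  Nat.card (Quotient (Equiv.Perm.SameCycle.setoid (Δ.next * Δ.glue)))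

/-- The number of edges of the triangulation. -/
def numEdges {H T : Type} (Δ : IdealTriangulation H T) : ℕ :=
  Nat.card (Quotient (Equiv.Perm.SameCycle.setoid Δ.glue))

/-- The Euler characteristic `2 - 2g` of the closed surface (punctures filled in). -/
def eulerChar {H T : Type} (Δ : IdealTriangulation H T) : ℤ :=
  (Δ.numPunctures : ℤ) - Δ.numEdges + Nat.card T

/-- Genus `0` (Euler characteristic `2`) and three punctures. -/
def IsThricePuncturedSphere {H T : Type} (Δ : IdealTriangulation H T) : Prop :=
  Δ.eulerChar = 2 ∧ Δ.numPunctures = 3

/-- The Fock–Goncharov exchange matrix `ε_{vw} = #(v → w) - #(w → v)` of the `3`-triangulation.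

The nodes are indexed by `H ⊕ T`: the node `inl h` is the node on the edge of `h` nearer to the
initial point of `h` (so `inl (glue h)` is the other node of the same edge) and `inr t` is the
node inside the triangle `t`.  In the triangle with clockwise sides `h`, `next h`,
`next (next h)`, the sides of the small triangles not ending at a puncture, oriented clockwise,
are, for each of its three sides `h`,
`inr t → inl h`, `inl (glue h) → inr t`, `inl (next h) → inl (glue h)` and the arrow
`inl h → inl (glue h)` of weight `1/2` along the edge.  The last one is cancelled by the arrow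
`inl (glue h) → inl h` of weight `1/2` coming from the triangle on the other side of the edge. -/
def exchange {H T : Type} [DecidableEq H] [DecidableEq T] (Δ : IdealTriangulation H T) :
    H ⊕ T → H ⊕ T → ℤ
  | inl a, inl b =>
    (if a = Δ.next (Δ.glue b) then 1 else 0) - (if b = Δ.next (Δ.glue a) then 1 else 0)
  | inr t, inl a => (if Δ.tri a = t then 1 else 0) - (if Δ.tri (Δ.glue a) = t then 1 else 0)
  | inl a, inr t => (if Δ.tri (Δ.glue a) = t then 1 else 0) - (if Δ.tri a = t then 1 else 0)
  | inr _, inr _ => 0

/-- The seed of the triangulation `Δ` with coordinates `x`. -/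
def seed {H T : Type} [DecidableEq H] [DecidableEq T] (Δ : IdealTriangulation H T)
    (x : H ⊕ T → RatFun (H ⊕ T)) : Seed (H ⊕ T) :=
  ⟨Δ.exchange, x⟩

/-- `IsFlip Δ Δ' h`: the triangulation `Δ'` is obtained from `Δ` by flipping the edge of `h`.
Write `h' = glue h`, `p = next h`, `q = next p`, `p' = next h'`, `q' = next p'`.  The two triangles
`(h, p, q)` and `(h', p', q')` of `Δ` form a quadrilateral with diagonal `h`, `h'`; in `Δ'` they
are replaced by the triangles `(h, q', p)` and `(h', q, p')`, where `h`, `h'` now name the two
sides of the other diagonal.  The new triangle `(h, q', p)` inherits the name of `(h, p, q)` and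
the new triangle `(h', q, p')` that of `(h', p', q')`. Nothing else changes. -/
structure IsFlip {H T : Type} (Δ Δ' : IdealTriangulation H T) (h : H) : Prop where
  glue_eq : Δ'.glue = Δ.glue
  next_h : Δ'.next h = Δ.next (Δ.next (Δ.glue h))
  next_q' : Δ'.next (Δ.next (Δ.next (Δ.glue h))) = Δ.next h
  next_p : Δ'.next (Δ.next h) = h
  next_h' : Δ'.next (Δ.glue h) = Δ.next (Δ.next h)
  next_q : Δ'.next (Δ.next (Δ.next h)) = Δ.next (Δ.glue h)
  next_p' : Δ'.next (Δ.next (Δ.glue h)) = Δ.glue h
  next_other : ∀ x, Δ.tri x ≠ Δ.tri h → Δ.tri x ≠ Δ.tri (Δ.glue h) → Δ'.next x = Δ.next x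
  tri_q : Δ'.tri (Δ.next (Δ.next h)) = Δ.tri (Δ.glue h)
  tri_q' : Δ'.tri (Δ.next (Δ.next (Δ.glue h))) = Δ.tri h
  tri_other : ∀ x, x ≠ Δ.next (Δ.next h) → x ≠ Δ.next (Δ.next (Δ.glue h)) → Δ'.tri x = Δ.tri x

/-- Which old node becomes a given node of the flipped triangulation: the two nodes on the new
diagonal are the old nodes inside the two old triangles, and the nodes inside the two new triangles
are the old nodes on the old diagonal; all other nodes stay. -/
def relabel {H T : Type} [DecidableEq H] [DecidableEq T] (Δ : IdealTriangulation H T) (h : H)
    (v : H ⊕ T) : H ⊕ T :=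
  if v = inl h then inr (Δ.tri h)
  else if v = inl (Δ.glue h) then inr (Δ.tri (Δ.glue h))
  else if v = inr (Δ.tri h) then inl (Δ.glue h)
  else if v = inr (Δ.tri (Δ.glue h)) then inl h
  else v

/-- The Fock–Goncharov coordinates of the triangulation obtained from `Δ` by flipping the edge of
`h`, when those of `Δ` are `x`: mutate at the two nodes of the edge and then at the two nodes
inside the adjacent triangles (Fock–Goncharov 2006). See `consistency` in `PGL3Main.lean`: the exchange matrix
obtained by these four mutations is the Fock–Goncharov exchange matrix of the new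
triangulation. -/
def flipCoord {H T : Type} [DecidableEq H] [DecidableEq T] (Δ : IdealTriangulation H T)
    (x : H ⊕ T → RatFun (H ⊕ T)) (h : H) : H ⊕ T → RatFun (H ⊕ T) := fun v =>
  (((((Δ.seed x).mutate (inl h)).mutate (inl (Δ.glue h))).mutate (inr (Δ.tri h))).mutate
    (inr (Δ.tri (Δ.glue h)))).x (Δ.relabel h v)

/-- `TriangulationChart Δ₀ Δ x`: starting from the triangulation `Δ₀` with coordinates the
variables, a finite sequence of flips (through triangulations without self-folded triangles)
leads to the triangulation `Δ` with Fock–Goncharov coordinates `x`. -/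
inductive TriangulationChart {H T : Type} [DecidableEq H] [DecidableEq T]
    (Δ₀ : IdealTriangulation H T) :
    IdealTriangulation H T → (H ⊕ T → RatFun (H ⊕ T)) → Prop
  | base : TriangulationChart Δ₀ Δ₀ cX
  | flip {Δ Δ' : IdealTriangulation H T} {x : H ⊕ T → RatFun (H ⊕ T)} {h : H} :
      TriangulationChart Δ₀ Δ x → IsFlip Δ Δ' h →
      TriangulationChart Δ₀ Δ' (Δ.flipCoord x h)

/-- `f` is regular on the chart of every ideal triangulation (without self-folded triangles) that
is obtained from `Δ₀` by flips. -/
def RegularOnTriangulationCharts {H T : Type} [DecidableEq H] [DecidableEq T]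
    (Δ₀ : IdealTriangulation H T) (f : RatFun (H ⊕ T)) : Prop :=
  ∀ (Δ : IdealTriangulation H T) (x : H ⊕ T → RatFun (H ⊕ T)),
    TriangulationChart Δ₀ Δ x → IsLaurentIn x f

/-- `f` is regular on every cluster chart, i.e. on the chart of every seed obtained from the
Fock–Goncharov seed of `Δ₀` by a finite sequence of mutations. -/
def RegularOnClusterCharts {H T : Type} [DecidableEq H] [DecidableEq T]
    (Δ₀ : IdealTriangulation H T) (f : RatFun (H ⊕ T)) : Prop :=
  ∀ s : Seed (H ⊕ T), MutEquiv (Δ₀.seed cX) s → IsLaurentIn s.x f

end IdealTriangulation

end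

end Pool.Agent.Helper18.PGL3
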