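import Mathlib
import Pool.Agent.Helper18.PGL3Defs
set_option autoImplicit false
set_option linter.unusedSectionVars false
set_option linter.unusedSimpArgs false
set_option linter.unusedVariables false
set_option linter.style.haveILetI false

namespace Pool.Agent.Helper18.PGL3

open Sum MvPolynomial

noncomputable section

/-! ## Proofs -/

section algebra

variable {V : Type}

theorem adjoin_cX : IntermediateField.adjoin ℂ (Set.range (cX : V → RatFun V)) = ⊤ := by
  rw [eq_top_iff]
  rintro f -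
  obtain ⟨a, b, hb, rfl⟩ := IsFractionRing.div_surjective (A := MvPolynomial V ℂ) f
  have key : ∀ P : MvPolynomial V ℂ, algebraMap (MvPolynomial V ℂ) (RatFun V) P ∈
      IntermediateField.adjoin ℂ (Set.range (cX : V → RatFun V)) := by
    intro P
    induction P using MvPolynomial.induction_on with
    | C a =>
      have : algebraMap (MvPolynomial V ℂ) (RatFun V) (C a) = algebraMap ℂ (RatFun V) a := by
        rw [IsScalarTower.algebraMap_apply ℂ (MvPolynomial V ℂ) (RatFun V)]; rfl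
      rw [this]
      exact IntermediateField.algebraMap_mem _ _
    | add p q hp hq => rw [map_add]; exact add_mem hp hq
    | mul_X p i hp =>
      rw [map_mul]
      exact mul_mem hp (IntermediateField.subset_adjoin _ _ ⟨i, rfl⟩)
  exact div_mem (key a) (key b)

theorem trdeg_RatFun [Fintype V] : Algebra.trdeg ℂ (RatFun V) = Fintype.card V := by
  have h1 : IsTranscendenceBasis ℂ (fun i : V => (X i : MvPolynomial V ℂ)) :=
    IsTranscendenceBasis.mvPolynomial V ℂ
  have halg : Algebra.IsAlgebraic (MvPolynomial V ℂ) (RatFun V) := by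
    constructor
    intro f
    obtain ⟨a, b, hb, rfl⟩ := IsFractionRing.div_surjective (A := MvPolynomial V ℂ) f
    rw [div_eq_mul_inv]
    exact (isAlgebraic_algebraMap a).mul (isAlgebraic_algebraMap b).inv
  have h2 := h1.algebraMap_comp (A := RatFun V)
  rw [← h2.cardinalMk_eq_trdeg]
  simp

/-- coordinate systems generating the field are images of the standard one by an automorphism -/
theorem exists_algEquiv [Fintype V] (y : V → RatFun V)
    (hy : ∀ v, cX v ∈ IntermediateField.adjoin ℂ (Set.range y)) :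
    ∃ φ : RatFun V ≃ₐ[ℂ] RatFun V, ∀ v, φ (cX v) = y v := by
  have htop : IntermediateField.adjoin ℂ (Set.range y) = ⊤ := by
    rw [eq_top_iff, ← adjoin_cX, IntermediateField.adjoin_le_iff]
    rintro _ ⟨v, rfl⟩
    exact hy v
  have halg : Algebra.IsAlgebraic (Algebra.adjoin ℂ (Set.range y)) (RatFun V) := by
    constructor
    intro f
    have hf : f ∈ IntermediateField.adjoin ℂ (Set.range y) := by rw [htop]; trivial
    rw [IntermediateField.mem_adjoin_iff_div] at hf
    obtain ⟨r, hr, s, hs, rfl⟩ := hf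
    have h1 : IsAlgebraic (Algebra.adjoin ℂ (Set.range y)) r :=
      isAlgebraic_algebraMap (⟨r, hr⟩ : Algebra.adjoin ℂ (Set.range y))
    have h2 : IsAlgebraic (Algebra.adjoin ℂ (Set.range y)) s :=
      isAlgebraic_algebraMap (⟨s, hs⟩ : Algebra.adjoin ℂ (Set.range y))
    rw [div_eq_mul_inv]
    exact h1.mul h2.inv
  have hb : IsTranscendenceBasis ℂ y := by
    apply Algebra.IsAlgebraic.isTranscendenceBasis_of_le_trdeg_of_finite
    rw [trdeg_RatFun]
    simp
  have hinj : Function.Injective (aeval y : MvPolynomial V ℂ →ₐ[ℂ] RatFun V) :=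
    hb.1
  let φ : RatFun V →ₐ[ℂ] RatFun V := IsFractionRing.liftAlgHom (K := RatFun V) hinj
  have hφ : ∀ v, φ (cX v) = y v := by
    intro v
    simp only [φ, cX]
    rw [IsFractionRing.liftAlgHom_apply, IsFractionRing.lift_algebraMap]
    simp
  have hsurj : Function.Surjective φ := by
    have : φ.fieldRange = ⊤ := by
      rw [eq_top_iff, ← htop, IntermediateField.adjoin_le_iff]
      rintro _ ⟨v, rfl⟩
      exact ⟨cX v, hφ v⟩
    intro f
    have hf : f ∈ φ.fieldRange := by rw [this]; trivial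
    exact hf
  refine ⟨AlgEquiv.ofBijective φ ⟨φ.toRingHom.injective, hsurj⟩, ?_⟩
  intro v
  exact hφ v


/-- the embedding of polynomials -/
abbrev ι : MvPolynomial V ℂ →+* RatFun V := algebraMap (MvPolynomial V ℂ) (RatFun V)

theorem ι_inj : Function.Injective (ι : MvPolynomial V ℂ →+* RatFun V) :=
  IsFractionRing.injective _ _

theorem ι_ne_zero {P : MvPolynomial V ℂ} (h : P ≠ 0) : ι P ≠ 0 := by
  intro h0
  exact h (ι_inj (by rw [h0, map_zero]))


variable [DecidableEq V]

/-- reduction modulo `1 + X j` -/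
def θ (j : V) : MvPolynomial V ℂ →ₐ[ℂ] MvPolynomial V ℂ :=
  aeval (fun i => if i = j then (-1 : MvPolynomial V ℂ) else X i)

@[simp] theorem θ_X_self (j : V) : θ j (X j) = -1 := by simp [θ]

theorem θ_X_ne {i j : V} (h : i ≠ j) : θ j (X i) = X i := by simp [θ, h]

theorem dvd_sub_θ (j : V) (P : MvPolynomial V ℂ) : (1 + X j) ∣ P - θ j P := by
  induction P using MvPolynomial.induction_on with
  | C a => simp [θ]
  | add p q hp hq =>
    rw [map_add]
    have : p + q - (θ j p + θ j q) = (p - θ j p) + (q - θ j q) := by ring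
    rw [this]; exact dvd_add hp hq
  | mul_X p i hp =>
    rw [map_mul]
    by_cases h : i = j
    · subst h
      rw [θ_X_self]
      have : p * X i - θ i p * -1 = (p - θ i p) * (-1) + p * (1 + X i) := by ring
      rw [this]
      exact dvd_add (Dvd.dvd.mul_right hp _) (Dvd.intro_left p rfl)
    · rw [θ_X_ne h]
      have : p * X i - θ j p * X i = (p - θ j p) * X i := by ring
      rw [this]
      exact Dvd.dvd.mul_right hp _

theorem θ_eq_zero_iff (j : V) (P : MvPolynomial V ℂ) : θ j P = 0 ↔ (1 + X j) ∣ P := by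
  constructor
  · intro h
    have := dvd_sub_θ j P
    rwa [h, sub_zero] at this
  · rintro ⟨Q, rfl⟩
    rw [map_mul, map_add, map_one, θ_X_self]; ring

theorem one_add_X_ne_zero (j : V) : (1 + X j : MvPolynomial V ℂ) ≠ 0 := by
  intro h
  have := congrArg (eval (fun _ => (0:ℂ))) h
  simp at this

theorem prime_one_add_X (j : V) : Prime (1 + X j : MvPolynomial V ℂ) := by
  refine ⟨one_add_X_ne_zero j, ?_, ?_⟩
  · intro h
    have := h.map (eval (fun i => if i = j then (-1:ℂ) else 0) : MvPolynomial V ℂ →+* ℂ)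
    simp at this
  · intro a b hab
    rw [← θ_eq_zero_iff, map_mul, mul_eq_zero] at hab
    rcases hab with h | h
    · left; rwa [← θ_eq_zero_iff]
    · right; rwa [← θ_eq_zero_iff]

/-- regular at the divisor `1 + X j = 0` -/
def Reg (j : V) (u : RatFun V) : Prop := ∃ A B : MvPolynomial V ℂ, θ j B ≠ 0 ∧ u = ι A / ι B

/-- unit at the divisor `1 + X j = 0` -/
def IsU (j : V) (u : RatFun V) : Prop :=
  ∃ A B : MvPolynomial V ℂ, θ j A ≠ 0 ∧ θ j B ≠ 0 ∧ u = ι A / ι B

theorem ne_of_θ {j : V} {P : MvPolynomial V ℂ} (h : θ j P ≠ 0) : P ≠ 0 := by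
  rintro rfl; simp at h

theorem IsU.reg {j : V} {u : RatFun V} (h : IsU j u) : Reg j u := by
  obtain ⟨A, B, _, hB, rfl⟩ := h; exact ⟨A, B, hB, rfl⟩

theorem IsU.ne_zero {j : V} {u : RatFun V} (h : IsU j u) : u ≠ 0 := by
  obtain ⟨A, B, hA, hB, rfl⟩ := h
  exact div_ne_zero (ι_ne_zero (ne_of_θ hA)) (ι_ne_zero (ne_of_θ hB))

theorem IsU.inv {j : V} {u : RatFun V} (h : IsU j u) : IsU j u⁻¹ := by
  obtain ⟨A, B, hA, hB, rfl⟩ := h
  exact ⟨B, A, hB, hA, by rw [inv_div]⟩

theorem IsU.mul {j : V} {u v : RatFun V} (hu : IsU j u) (hv : IsU j v) : IsU j (u * v) := by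
  obtain ⟨A, B, hA, hB, rfl⟩ := hu
  obtain ⟨C, D, hC, hD, rfl⟩ := hv
  refine ⟨A * C, B * D, ?_, ?_, ?_⟩
  · rw [map_mul]; exact mul_ne_zero hA hC
  · rw [map_mul]; exact mul_ne_zero hB hD
  · rw [map_mul, map_mul, div_mul_div_comm]

theorem isU_one (j : V) : IsU j (1 : RatFun V) := ⟨1, 1, by simp, by simp, by simp⟩

theorem IsU.pow {j : V} {u : RatFun V} (hu : IsU j u) (n : ℕ) : IsU j (u ^ n) := by
  induction n with
  | zero => simpa using isU_one j
  | succ n ih => rw [pow_succ]; exact ih.mul hu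

theorem IsU.zpow {j : V} {u : RatFun V} (hu : IsU j u) (n : ℤ) : IsU j (u ^ n) := by
  cases n with
  | ofNat n => simpa using hu.pow n
  | negSucc n => rw [zpow_negSucc]; exact (hu.pow _).inv

theorem isU_ι {j : V} {P : MvPolynomial V ℂ} (h : θ j P ≠ 0) : IsU j (ι P) :=
  ⟨P, 1, h, by simp, by simp⟩

theorem isU_cX (i j : V) : IsU j (cX i) := by
  apply isU_ι
  by_cases h : i = j
  · subst h; simp
  · rw [θ_X_ne h]; exact X_ne_zero i

theorem one_add_cX (i : V) : (1 + cX i : RatFun V) = ι (1 + X i) := by simp [cX, ι]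

theorem isU_one_add_cX {i j : V} (h : i ≠ j) : IsU j (1 + cX i) := by
  rw [one_add_cX]
  apply isU_ι
  rw [map_add, map_one, θ_X_ne h]
  exact one_add_X_ne_zero i

theorem Reg.mul {j : V} {u v : RatFun V} (hu : Reg j u) (hv : Reg j v) : Reg j (u * v) := by
  obtain ⟨A, B, hB, rfl⟩ := hu
  obtain ⟨C, D, hD, rfl⟩ := hv
  refine ⟨A * C, B * D, ?_, ?_⟩
  · rw [map_mul]; exact mul_ne_zero hB hD
  · rw [map_mul, map_mul, div_mul_div_comm]

theorem Reg.add {j : V} {u v : RatFun V} (hu : Reg j u) (hv : Reg j v) : Reg j (u + v) := by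
  obtain ⟨A, B, hB, rfl⟩ := hu
  obtain ⟨C, D, hD, rfl⟩ := hv
  refine ⟨A * D + B * C, B * D, ?_, ?_⟩
  · rw [map_mul]; exact mul_ne_zero hB hD
  · have h1 := ι_ne_zero (ne_of_θ hB)
    have h2 := ι_ne_zero (ne_of_θ hD)
    simp only [map_mul, map_add]
    field_simp

theorem reg_algebraMap (j : V) (c : ℂ) : Reg j (algebraMap ℂ (RatFun V) c) := by
  refine ⟨C c, 1, by simp, ?_⟩
  rw [IsScalarTower.algebraMap_apply ℂ (MvPolynomial V ℂ) (RatFun V)]
  simp [ι]

/-- if all coordinates are units at `1 + X j = 0` then Laurent polynomials are regular there -/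
theorem reg_of_isLaurentIn {j : V} {x : V → RatFun V} (hx : ∀ i, IsU j (x i)) {f : RatFun V}
    (hf : IsLaurentIn x f) : Reg j f := by
  unfold IsLaurentIn at hf
  induction hf using Algebra.adjoin_induction with
  | mem y hy =>
    rcases hy with ⟨i, rfl⟩ | ⟨i, rfl⟩
    · exact (hx i).reg
    · exact (hx i).inv.reg
  | algebraMap r => exact reg_algebraMap j r
  | add a b _ _ ha hb => exact ha.add hb
  | mul a b _ _ ha hb => exact ha.mul hb

theorem isLaurent_ι (P : MvPolynomial V ℂ) : IsLaurentIn (cX : V → RatFun V) (ι P) := by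
  unfold IsLaurentIn
  induction P using MvPolynomial.induction_on with
  | C a =>
    have : ι (C a : MvPolynomial V ℂ) = algebraMap ℂ (RatFun V) a := by
      rw [IsScalarTower.algebraMap_apply ℂ (MvPolynomial V ℂ) (RatFun V)]; rfl
    rw [this]
    exact Subalgebra.algebraMap_mem _ _
  | add p q hp hq => rw [map_add]; exact add_mem hp hq
  | mul_X p i hp =>
    rw [map_mul]
    exact mul_mem hp (Algebra.subset_adjoin (Or.inl ⟨i, rfl⟩))

/-- a Laurent polynomial is a polynomial divided by a monomial -/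
theorem exists_monomial {f : RatFun V} (hf : IsLaurentIn (cX : V → RatFun V) f) :
    ∃ (P : MvPolynomial V ℂ) (m : V →₀ ℕ), f * ι (monomial m 1) = ι P := by
  unfold IsLaurentIn at hf
  induction hf using Algebra.adjoin_induction with
  | mem y hy =>
    rcases hy with ⟨i, rfl⟩ | ⟨i, rfl⟩
    · exact ⟨X i, 0, by simp [cX, ι]⟩
    · refine ⟨1, Finsupp.single i 1, ?_⟩
      have : (monomial (Finsupp.single i 1) 1 : MvPolynomial V ℂ) = X i := rfl
      rw [this, map_one]
      exact inv_mul_cancel₀ (isU_cX i i).ne_zero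
  | algebraMap r =>
    refine ⟨C r, 0, ?_⟩
    rw [IsScalarTower.algebraMap_apply ℂ (MvPolynomial V ℂ) (RatFun V)]
    simp [ι]
  | add a b _ _ ha hb =>
    obtain ⟨P, m, hP⟩ := ha
    obtain ⟨Q, n, hQ⟩ := hb
    refine ⟨P * monomial n 1 + Q * monomial m 1, m + n, ?_⟩
    have : (monomial (m + n) 1 : MvPolynomial V ℂ) = monomial m 1 * monomial n 1 := by
      rw [monomial_mul, one_mul]
    rw [this]
    simp only [map_mul, map_add]
    rw [← hP, ← hQ]; ring
  | mul a b _ _ ha hb =>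
    obtain ⟨P, m, hP⟩ := ha
    obtain ⟨Q, n, hQ⟩ := hb
    refine ⟨P * Q, m + n, ?_⟩
    have : (monomial (m + n) 1 : MvPolynomial V ℂ) = monomial m 1 * monomial n 1 := by
      rw [monomial_mul, one_mul]
    rw [this]
    simp only [map_mul]
    rw [← hP, ← hQ]; ring

theorem isLaurent_monomial_inv (m : V →₀ ℕ) :
    IsLaurentIn (cX : V → RatFun V) (ι (monomial m 1))⁻¹ := by
  unfold IsLaurentIn
  induction m using Finsupp.induction with
  | zero => simp only [monomial_zero', map_one, inv_one]; exact one_mem _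
  | single_add i n f _ _ ih =>
    have : (monomial (Finsupp.single i n + f) 1 : MvPolynomial V ℂ) =
        (X i) ^ n * monomial f 1 := by
      rw [X_pow_eq_monomial, monomial_mul, one_mul]
    rw [this, map_mul, map_pow, mul_inv, ← inv_pow]
    have hi : (ι (X i))⁻¹ ∈ Algebra.adjoin ℂ
        (Set.range (cX : V → RatFun V) ∪ Set.range (fun v => (cX v)⁻¹)) :=
      Algebra.subset_adjoin (Or.inr ⟨i, rfl⟩)
    exact mul_mem (pow_mem hi n) ih

/-- removing a possible pole along `1 + X j = 0` -/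
theorem isLaurent_of_reg {j : V} {f : RatFun V} (N : ℕ)
    (h1 : IsLaurentIn (cX : V → RatFun V) (f * (1 + cX j) ^ N)) (h2 : Reg j f) :
    IsLaurentIn (cX : V → RatFun V) f := by
  obtain ⟨P, m, hP⟩ := exists_monomial h1
  obtain ⟨A, B, hB, rfl⟩ := h2
  have hB' := ι_ne_zero (ne_of_θ hB)
  have hp := ι_ne_zero (one_add_X_ne_zero j)
  have hm : (ι (monomial m 1 : MvPolynomial V ℂ)) ≠ 0 := by
    apply ι_ne_zero
    intro h
    rw [monomial_eq_zero] at h
    exact one_ne_zero h
  have e1 : ι (A * (1 + X j) ^ N * monomial m 1) = ι (P * B) := by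
    rw [one_add_cX] at hP
    simp only [map_mul, map_pow]
    rw [← hP]
    field_simp
  have e2 := ι_inj e1
  have e3 : (1 + X j : MvPolynomial V ℂ) ^ N ∣ P * B := by
    rw [← e2]; exact ⟨A * monomial m 1, by ring⟩
  have hBnd : ¬ (1 + X j : MvPolynomial V ℂ) ∣ B := by rwa [← θ_eq_zero_iff]
  have e4 : (1 + X j : MvPolynomial V ℂ) ^ N ∣ P := (prime_one_add_X j).pow_dvd_of_dvd_mul_right N hBnd e3
  obtain ⟨Q, rfl⟩ := e4
  have e5 : ι A / ι B = ι Q * (ι (monomial m 1))⁻¹ := by
    have : A * monomial m 1 = Q * B := by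
      have h0 : (1 + X j : MvPolynomial V ℂ) ^ N ≠ 0 := pow_ne_zero _ (one_add_X_ne_zero j)
      apply mul_left_cancel₀ h0
      linear_combination e2
    have := congrArg ι this
    simp only [map_mul] at this
    field_simp
    linear_combination this
  rw [e5]
  exact mul_mem (isLaurent_ι Q) (isLaurent_monomial_inv m)


/-- `u` vanishes to order exactly `n` along `1 + X j = 0` -/
def Val (j : V) (u : RatFun V) (n : ℤ) : Prop := ∃ w, IsU j w ∧ u = w * (1 + cX j) ^ n

theorem one_add_cX_ne_zero (j : V) : (1 + cX j : RatFun V) ≠ 0 := by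
  rw [one_add_cX]; exact ι_ne_zero (one_add_X_ne_zero j)

theorem Val.ne_zero {j : V} {u : RatFun V} {n : ℤ} (h : Val j u n) : u ≠ 0 := by
  obtain ⟨w, hw, rfl⟩ := h
  exact mul_ne_zero hw.ne_zero (zpow_ne_zero _ (one_add_cX_ne_zero j))

theorem IsU.val {j : V} {u : RatFun V} (h : IsU j u) : Val j u 0 := ⟨u, h, by simp⟩

theorem Val.isU {j : V} {u : RatFun V} (h : Val j u 0) : IsU j u := by
  obtain ⟨w, hw, rfl⟩ := h; simpa using hw

theorem Val.mul {j : V} {u v : RatFun V} {m n : ℤ} (hu : Val j u m) (hv : Val j v n) :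
    Val j (u * v) (m + n) := by
  obtain ⟨w, hw, rfl⟩ := hu
  obtain ⟨w', hw', rfl⟩ := hv
  refine ⟨w * w', hw.mul hw', ?_⟩
  rw [zpow_add₀ (one_add_cX_ne_zero j)]; ring

theorem Val.zpow {j : V} {u : RatFun V} {m : ℤ} (hu : Val j u m) (n : ℤ) :
    Val j (u ^ n) (m * n) := by
  obtain ⟨w, hw, rfl⟩ := hu
  refine ⟨w ^ n, hw.zpow n, ?_⟩
  rw [mul_zpow, zpow_mul]

theorem Val.inv {j : V} {u : RatFun V} {m : ℤ} (hu : Val j u m) : Val j u⁻¹ (-m) := by
  have := hu.zpow (-1)
  rw [zpow_neg_one] at this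
  simpa using this

theorem val_self (j : V) : Val j (1 + cX j) 1 := ⟨1, isU_one j, by simp⟩

theorem val_cX (i j : V) : Val j (cX i) 0 := (isU_cX i j).val

/-- `1 + (unit) * (1 + X j)^(n+1)` is a unit -/
theorem val_one_add_of_pos {j : V} {u : RatFun V} {n : ℤ} (hn : 0 < n) (hu : Val j u n) :
    Val j (1 + u) 0 := by
  obtain ⟨w, ⟨A, B, hA, hB, rfl⟩, rfl⟩ := hu
  apply IsU.val
  lift n to ℕ using hn.le
  have hn' : n ≠ 0 := by rintro rfl; simp at hn
  refine ⟨B + A * (1 + X j) ^ n, B, ?_, hB, ?_⟩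
  · rw [map_add, map_mul, map_pow, map_add, map_one, θ_X_self]
    simpa [hn'] using hB
  · have h1 := ι_ne_zero (ne_of_θ hB)
    rw [one_add_cX, zpow_natCast]
    simp only [map_add, map_mul, map_pow]
    field_simp

theorem val_one_add_of_neg {j : V} {u : RatFun V} {n : ℤ} (hn : n < 0) (hu : Val j u n) :
    Val j (1 + u) n := by
  have h0 := hu.ne_zero
  have h1 := val_one_add_of_pos (by omega) hu.inv
  have h2 := hu.mul h1
  have : 1 + u = u * (1 + u⁻¹) := by field_simp; ring
  rw [this]; simpa using h2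

/-- `(1 + X j) * u` with `u` regular and not vanishing mod `1 + X j` -/
theorem val_of_eq {j : V} {A B : MvPolynomial V ℂ} (hA : θ j A ≠ 0) (hB : θ j B ≠ 0) {u : RatFun V}
    (h : u = ι A / ι B * (1 + cX j)) : Val j u 1 :=
  ⟨ι A / ι B, ⟨A, B, hA, hB, rfl⟩, by simpa using h⟩


namespace Seed

def Skew (s : Seed V) : Prop := ∀ i j, s.ε i j = - s.ε j i

theorem Skew.self {s : Seed V} (h : s.Skew) (i : V) : s.ε i i = 0 := by
  have := h i i; omega

theorem Skew.mutate {s : Seed V} (h : s.Skew) (k : V) : (s.mutate k).Skew := by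
  intro i j
  simp only [Seed.mutate]
  by_cases hi : i = k
  · simp [hi]; rw [h k j, neg_neg]
  · by_cases hj : j = k
    · simp [hj]; rw [h i k, neg_neg]
    · simp only [hi, hj, or_self, if_false]
      rw [h i j, h i k, h k j]
      simp only [neg_neg]
      ring

theorem mutate_ε_left (s : Seed V) (k j : V) : (s.mutate k).ε k j = - s.ε k j := by
  simp [mutate]

theorem mutate_ε_right (s : Seed V) (k i : V) : (s.mutate k).ε i k = - s.ε i k := by
  simp [mutate]

theorem mutate_ε_of_ne (s : Seed V) {k i j : V} (hi : i ≠ k) (hj : j ≠ k) :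
    (s.mutate k).ε i j =
    s.ε i j + max (s.ε i k) 0 * max (s.ε k j) 0 - max (-s.ε i k) 0 * max (-s.ε k j) 0 := by
  simp [mutate, hi, hj]

theorem mutate_x_self (s : Seed V) (k : V) : (s.mutate k).x k = (s.x k)⁻¹ := by
  simp [mutate]

theorem mutate_x_of_ne (s : Seed V) {k i : V} (hi : i ≠ k) (h0 : s.x k ≠ 0) :
    (s.mutate k).x i = s.x i * (s.x k) ^ (max (s.ε i k) 0) * (1 + s.x k) ^ (-(s.ε i k)) := by
  simp only [mutate, hi, if_false]
  rcases lt_trichotomy (s.ε i k) 0 with h | h | h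
  · have h1 : (s.ε i k).sign = -1 := Int.sign_eq_neg_one_of_neg h
    rw [h1, max_eq_right h.le]
    simp
  · rw [h]; simp
  · have h1 : (s.ε i k).sign = 1 := Int.sign_eq_one_of_pos h
    rw [h1, max_eq_left h.le]
    have h2 : (1 + (s.x k) ^ (-1 : ℤ)) = (1 + s.x k) * (s.x k)⁻¹ := by
      rw [zpow_neg_one]; field_simp; ring
    rw [h2, mul_zpow, inv_zpow', neg_neg]
    ring

/-- order of vanishing of mutated coordinates -/
theorem val_mutate (s : Seed V) {D k i : V} {a c d : ℤ} (hi : i ≠ k) (ha : Val D (s.x i) a)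
    (hc : Val D (s.x k) c) (hd : Val D (1 + s.x k) d) :
    Val D ((s.mutate k).x i) (a + max (s.ε i k) 0 * c - s.ε i k * d) := by
  rw [s.mutate_x_of_ne hi hc.ne_zero]
  have := (ha.mul (hc.zpow (max (s.ε i k) 0))).mul (hd.zpow (-(s.ε i k)))
  convert this using 1
  ring

theorem mutate_mutate_ε (s : Seed V) (k : V) : ((s.mutate k).mutate k).ε = s.ε := by
  funext i j
  by_cases hi : i = k
  · subst hi; rw [mutate_ε_left, mutate_ε_left, neg_neg]
  · by_cases hj : j = k
    · subst hj; rw [mutate_ε_right, mutate_ε_right, neg_neg]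
    · rw [mutate_ε_of_ne _ hi hj, mutate_ε_right, mutate_ε_left, mutate_ε_of_ne _ hi hj]
      simp only [neg_neg]; ring

theorem mutate_mutate_x (s : Seed V) (k : V) (h0 : s.x k ≠ 0) (h1 : 1 + s.x k ≠ 0) :
    ((s.mutate k).mutate k).x = s.x := by
  funext i
  by_cases hi : i = k
  · subst hi; rw [mutate_x_self, mutate_x_self, inv_inv]
  · have h0' : (s.mutate k).x k ≠ 0 := by rw [mutate_x_self]; exact inv_ne_zero h0
    rw [mutate_x_of_ne _ hi h0', mutate_x_of_ne _ hi h0, mutate_x_self, mutate_ε_right]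
    have h2 : (1 + (s.x k)⁻¹) = (1 + s.x k) * (s.x k)⁻¹ := by field_simp; ring
    rw [h2, mul_zpow, inv_zpow', inv_zpow', neg_neg]
    have e1 : (1 + s.x k) ^ (-(s.ε i k)) * (1 + s.x k) ^ (s.ε i k) = 1 := by
      rw [← zpow_add₀ h1]; simp
    have e2 : (s.x k) ^ (max (s.ε i k) 0) * (s.x k) ^ (-(max (-(s.ε i k)) 0)) *
        (s.x k) ^ (-(s.ε i k)) = 1 := by
      rw [← zpow_add₀ h0, ← zpow_add₀ h0]
      have : max (s.ε i k) 0 + -max (-s.ε i k) 0 + -s.ε i k = 0 := by omega
      rw [this, zpow_zero]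
    linear_combination (s.x i) * (e2 * (1 + s.x k) ^ (-(s.ε i k)) * (1 + s.x k) ^ (s.ε i k) + e1)

end Seed

/-- the seed with standard coordinates -/
def stdSeed (E : V → V → ℤ) : Seed V := ⟨E, cX⟩


section key

variable {E : V → V → ℤ} {j k : V}

theorem stdSeed_skew (hE : ∀ a b, E a b = - E b a) : (stdSeed E).Skew := hE

theorem key1 (hE : ∀ a b, E a b = - E b a) (i : V) :
    Val j (((stdSeed E).mutate j).x i) (((stdSeed E).mutate j).ε i j) := by
  by_cases hi : i = j
  · subst hi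
    rw [Seed.mutate_x_self, Seed.mutate_ε_left]
    change Val i (cX i)⁻¹ _
    have h0 : (stdSeed E).ε i i = 0 := (stdSeed_skew hE).self i
    rw [h0]
    have h1 := (val_cX i i).inv
    simpa using h1
  · rw [Seed.mutate_ε_right]
    have := Seed.val_mutate (stdSeed E) (D := j) (k := j) (i := i) hi (val_cX i j) (val_cX j j)
      (val_self j)
    convert this using 1
    ring

theorem mutate_x_of_zero {s : Seed V} {i k : V} (hik : i ≠ k) (h : s.ε i k = 0) :
    (s.mutate k).x i = s.x i := by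
  simp [Seed.mutate, hik, h]

theorem key2 (hE : ∀ a b, E a b = - E b a) (hjk : j ≠ k) (i : V) :
    Val j ((((stdSeed E).mutate j).mutate k).x i) ((((stdSeed E).mutate j).mutate k).ε i j) := by
  set s1 := (stdSeed E).mutate j with hs1
  have hk := key1 (j := j) hE k
  rw [← hs1] at hk
  by_cases hi : i = k
  · subst hi
    rw [Seed.mutate_x_self, Seed.mutate_ε_left]
    exact hk.inv
  · have hd : Val j (1 + s1.x k) (min (s1.ε k j) 0) := by
      rcases lt_trichotomy (s1.ε k j) 0 with h | h | h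
      · rw [min_eq_left h.le]; exact val_one_add_of_neg h hk
      · rw [h, min_self]
        have h0 : (stdSeed E).ε k j = 0 := by
          have h1 := Seed.mutate_ε_right (stdSeed E) j k
          rw [← hs1, h] at h1
          omega
        rw [hs1, mutate_x_of_zero hjk.symm h0]
        exact (isU_one_add_cX hjk.symm).val
      · rw [min_eq_right h.le]; exact val_one_add_of_pos h hk
    have h1 := key1 (j := j) hE i
    rw [← hs1] at h1
    have h2 := Seed.val_mutate s1 (D := j) hi h1 hk hd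
    rw [Seed.mutate_ε_of_ne _ hi hjk]
    convert h2 using 1
    rcases le_total (s1.ε k j) 0 with h | h
    · have hA : max (s1.ε i k) 0 = s1.ε i k + max (-s1.ε i k) 0 := by omega
      rw [min_eq_left h, max_eq_right h, max_eq_left (by omega : 0 ≤ -s1.ε k j)]
      rw [hA]
      ring
    · rw [min_eq_right h, max_eq_left h, max_eq_right (by omega : -s1.ε k j ≤ 0)]
      ring

theorem ι_X (i : V) : ι (X i : MvPolynomial V ℂ) = cX i := rfl

theorem ι_p (i : V) : ι (1 + X i : MvPolynomial V ℂ) = 1 + cX i := (one_add_cX i).symm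

theorem key3 (hE : ∀ a b, E a b = - E b a) (hjk : j ≠ k) :
    Val j (1 + (((stdSeed E).mutate j).mutate k).x j) 1 := by
  set s1 := (stdSeed E).mutate j with hs1
  have hsk : s1.Skew := (stdSeed_skew hE).mutate j
  have hXj : (cX j : RatFun V) ≠ 0 := (isU_cX j j).ne_zero
  have hXk : (cX k : RatFun V) ≠ 0 := (isU_cX k k).ne_zero
  have hp : (1 + cX j : RatFun V) ≠ 0 := one_add_cX_ne_zero j
  have hxj : s1.x j = (cX j)⁻¹ := by rw [hs1, Seed.mutate_x_self]; rfl
  have hxk : s1.x k = cX k * (cX j) ^ (max (E k j) 0) * (1 + cX j) ^ (-(E k j)) := by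
    rw [hs1, Seed.mutate_x_of_ne _ hjk.symm hXj]; rfl
  have hε : s1.ε j k = E k j := by
    rw [hs1, Seed.mutate_ε_left]
    have := hE j k
    show - E j k = E k j
    omega
  have hk := (key1 (j := j) hE k).ne_zero
  rw [← hs1] at hk
  have hform : (s1.mutate k).x j =
      (cX j)⁻¹ * (s1.x k) ^ (max (E k j) 0) * (1 + s1.x k) ^ (-(E k j)) := by
    rw [Seed.mutate_x_of_ne _ hjk hk, hxj, hε]
  rw [hform]
  rcases lt_trichotomy (E k j) 0 with h | h | h
  · -- `E k j = - n`
    obtain ⟨n, hn⟩ : ∃ n : ℕ, E k j = -((n : ℤ) + 1) := ⟨(-(E k j) - 1).toNat, by omega⟩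
    have hmax : max (E k j) 0 = 0 := max_eq_right h.le
    rw [hmax] at hxk ⊢
    rw [hn, neg_neg] at hxk ⊢
    have hcast : ((n : ℤ) + 1) = ((n + 1 : ℕ) : ℤ) := by push_cast; ring
    rw [hcast, zpow_natCast] at hxk ⊢
    rw [zpow_zero, mul_one] at hxk ⊢
    rw [hxk]
    -- polynomial identity
    obtain ⟨S, hS, hS1⟩ : ∃ S : MvPolynomial V ℂ,
        (1 + X k * (1 + X j) ^ (n + 1)) ^ (n + 1) = 1 + X k * (1 + X j) ^ (n + 1) * S ∧
        (n = 0 → S = 1) := by
      rcases Nat.eq_zero_or_pos n with h0 | h0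
      · subst h0
        exact ⟨1, by ring, fun _ => rfl⟩
      · have := sub_dvd_pow_sub_pow (1 + X k * (1 + X j) ^ (n + 1) : MvPolynomial V ℂ) 1 (n + 1)
        obtain ⟨S, hS⟩ := this
        refine ⟨S, ?_, fun h => absurd h (by omega)⟩
        rw [one_pow] at hS
        linear_combination hS
    apply val_of_eq (A := 1 + X k * (1 + X j) ^ n * S) (B := X j)
    · rw [map_add, map_mul, map_mul, map_one, map_pow, map_add, map_one, θ_X_self]
      rcases Nat.eq_zero_or_pos n with h0 | h0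
      · rw [hS1 h0, h0]
        simp only [map_one, pow_zero, mul_one]
        rw [θ_X_ne hjk.symm]; exact one_add_X_ne_zero k
      · have : (1 + -1 : MvPolynomial V ℂ) ^ n = 0 := by
          rw [add_neg_cancel]; exact zero_pow (by omega)
        rw [this]; simp
    · simp
    · have e := congrArg ι hS
      simp only [map_add, map_mul, map_pow, map_one, ι_X] at e
      simp only [map_add, map_mul, map_pow, map_one, ι_X]
      rw [e]
      field_simp
      ring
  · rw [h]
    simp only [max_self, zpow_zero, neg_zero, mul_one]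
    apply val_of_eq (A := 1) (B := X j) (by simp) (by simp)
    rw [map_one, ι_X]
    field_simp
    ring
  · obtain ⟨n, hn⟩ : ∃ n : ℕ, E k j = (n : ℤ) + 1 := ⟨((E k j) - 1).toNat, by omega⟩
    have hmax : max (E k j) 0 = ((n + 1 : ℕ) : ℤ) := by rw [max_eq_left h.le, hn]; push_cast; ring
    rw [hmax] at hxk ⊢
    have hneg : -(E k j) = -((n + 1 : ℕ) : ℤ) := by rw [hn]; push_cast; ring
    rw [hneg] at hxk ⊢
    rw [zpow_neg, zpow_natCast, zpow_natCast] at hxk ⊢
    set w : MvPolynomial V ℂ := X k * (X j) ^ (n + 1) with hw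
    obtain ⟨S, hS, hS1⟩ : ∃ S : MvPolynomial V ℂ,
        ((1 + X j) ^ (n + 1) + w) ^ (n + 1) = w ^ (n + 1) + (1 + X j) ^ (n + 1) * S ∧
        (n = 0 → S = 1) := by
      rcases Nat.eq_zero_or_pos n with h0 | h0
      · subst h0
        exact ⟨1, by ring, fun _ => rfl⟩
      · have := sub_dvd_pow_sub_pow ((1 + X j) ^ (n + 1) + w : MvPolynomial V ℂ) w (n + 1)
        obtain ⟨S, hS⟩ := this
        refine ⟨S, ?_, fun h => absurd h (by omega)⟩
        linear_combination hS
    have hθw : θ j w = X k * (-1) ^ (n + 1) := by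
      rw [hw, map_mul, map_pow, θ_X_self, θ_X_ne hjk.symm]
    have hθw0 : θ j w ≠ 0 := by
      rw [hθw]
      exact mul_ne_zero (X_ne_zero k) (pow_ne_zero _ (neg_ne_zero.mpr one_ne_zero))
    have hθp : θ j (1 + X j) = 0 := by rw [map_add, map_one, θ_X_self]; ring
    have hB : θ j (X j * ((1 + X j) ^ (n + 1) + w) ^ (n + 1)) ≠ 0 := by
      rw [map_mul, map_pow, map_add, map_pow, hθp, zero_pow (by omega), zero_add, θ_X_self]
      exact mul_ne_zero (neg_ne_zero.mpr one_ne_zero) (pow_ne_zero _ hθw0)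
    apply val_of_eq (A := X j * (1 + X j) ^ n * S + w ^ (n + 1))
      (B := X j * ((1 + X j) ^ (n + 1) + w) ^ (n + 1))
    · rw [map_add, map_mul, map_mul, map_pow, map_pow, hθp]
      rcases Nat.eq_zero_or_pos n with h0 | h0
      · rw [hS1 h0, hθw, h0, θ_X_self]
        simp only [map_one, pow_zero, mul_one, zero_add, pow_one]
        have : (-1 + X k * -1 : MvPolynomial V ℂ) = -(1 + X k) := by ring
        rw [this]
        exact neg_ne_zero.mpr (one_add_X_ne_zero k)
      · rw [zero_pow (by omega), mul_zero, zero_mul, zero_add]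
        exact pow_ne_zero _ hθw0
    · exact hB
    · have hB' := ι_ne_zero (ne_of_θ hB)
      have e := congrArg ι hS
      have hwK : ι w = cX k * cX j ^ (n + 1) := by rw [hw, map_mul, map_pow]; rfl
      simp only [map_add, map_mul, map_pow, map_one, ι_X, hwK] at e hB' ⊢
      have hq : ((1 + cX j) ^ (n + 1) + cX k * cX j ^ (n + 1) : RatFun V) ≠ 0 := by
        intro h0
        apply hB'
        rw [h0, zero_pow (by omega), mul_zero]
      have e2 : s1.x k = cX k * cX j ^ (n + 1) / (1 + cX j) ^ (n + 1) := by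
        rw [hxk]; field_simp
      have e3 : 1 + s1.x k = ((1 + cX j) ^ (n + 1) + cX k * cX j ^ (n + 1)) / (1 + cX j) ^ (n + 1) := by
        rw [e2]; field_simp
      rw [e3, e2, div_pow, div_pow]
      field_simp
      rw [e]
      ring

theorem key4 (hE : ∀ a b, E a b = - E b a) (hjk : j ≠ k) (i : V) :
    IsU j (((((stdSeed E).mutate j).mutate k).mutate j).x i) := by
  apply Val.isU
  have hsk : (((stdSeed E).mutate j).mutate k).Skew := ((stdSeed_skew hE).mutate j).mutate k
  have hj := key2 (j := j) (k := k) hE hjk j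
  rw [hsk.self] at hj
  by_cases hi : i = j
  · subst hi
    rw [Seed.mutate_x_self]
    simpa using hj.inv
  · have := Seed.val_mutate _ (D := j) hi (key2 (j := j) (k := k) hE hjk i) hj (key3 hE hjk)
    convert this using 1
    ring

end key


section laurent

/-- `f` times some power of `D` is Laurent -/
def LD (D f : RatFun V) : Prop := ∃ N : ℕ, IsLaurentIn (cX : V → RatFun V) (f * D ^ N)

theorem isLaurent_mul {x : V → RatFun V} {f g : RatFun V} (hf : IsLaurentIn x f)
    (hg : IsLaurentIn x g) : IsLaurentIn x (f * g) := mul_mem hf hg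

theorem isLaurent_add {x : V → RatFun V} {f g : RatFun V} (hf : IsLaurentIn x f)
    (hg : IsLaurentIn x g) : IsLaurentIn x (f + g) := add_mem hf hg

theorem isLaurent_pow {x : V → RatFun V} {f : RatFun V} (hf : IsLaurentIn x f) (n : ℕ) :
    IsLaurentIn x (f ^ n) := pow_mem hf n

theorem isLaurent_coord (x : V → RatFun V) (v : V) : IsLaurentIn x (x v) :=
  Algebra.subset_adjoin (Or.inl ⟨v, rfl⟩)

theorem isLaurent_coord_inv (x : V → RatFun V) (v : V) : IsLaurentIn x (x v)⁻¹ :=
  Algebra.subset_adjoin (Or.inr ⟨v, rfl⟩)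

theorem isLaurent_one (x : V → RatFun V) : IsLaurentIn x 1 := one_mem _

theorem isLaurent_zpow {x : V → RatFun V} {f : RatFun V} (hf : IsLaurentIn x f)
    (hf' : IsLaurentIn x f⁻¹) (n : ℤ) : IsLaurentIn x (f ^ n) := by
  cases n with
  | ofNat n => simpa using isLaurent_pow hf n
  | negSucc n => rw [zpow_negSucc, ← inv_pow]; exact isLaurent_pow hf' _

theorem LD.mul {D f g : RatFun V} (hf : LD D f) (hg : LD D g) : LD D (f * g) := by
  obtain ⟨N, hN⟩ := hf
  obtain ⟨M, hM⟩ := hg
  refine ⟨N + M, ?_⟩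
  have : f * g * D ^ (N + M) = (f * D ^ N) * (g * D ^ M) := by rw [pow_add]; ring
  rw [this]; exact isLaurent_mul hN hM

theorem LD.add {D f g : RatFun V} (hD : IsLaurentIn (cX : V → RatFun V) D)
    (hf : LD D f) (hg : LD D g) : LD D (f + g) := by
  obtain ⟨N, hN⟩ := hf
  obtain ⟨M, hM⟩ := hg
  refine ⟨N + M, ?_⟩
  have : (f + g) * D ^ (N + M) = (f * D ^ N) * D ^ M + (g * D ^ M) * D ^ N := by
    rw [pow_add]; ring
  rw [this]
  exact isLaurent_add (isLaurent_mul hN (isLaurent_pow hD M)) (isLaurent_mul hM (isLaurent_pow hD N))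

theorem LD.of {D f : RatFun V} (h : IsLaurentIn (cX : V → RatFun V) f) : LD D f :=
  ⟨0, by simpa using h⟩

theorem LD.zpow {D f : RatFun V} (h : LD D f) (h' : LD D f⁻¹) (n : ℤ) : LD D (f ^ n) := by
  have hp : ∀ (g : RatFun V), LD D g → ∀ n : ℕ, LD D (g ^ n) := by
    intro g hg n
    induction n with
    | zero => simpa using LD.of (isLaurent_one _)
    | succ n ih => rw [pow_succ]; exact ih.mul hg
  cases n with
  | ofNat n => simpa using hp f h n
  | negSucc n => rw [zpow_negSucc, ← inv_pow]; exact hp _ h' _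

theorem LD.of_isLaurentIn {D : RatFun V} (hD : IsLaurentIn (cX : V → RatFun V) D)
    {x : V → RatFun V} (h : ∀ v, LD D (x v)) (h' : ∀ v, LD D (x v)⁻¹) {f : RatFun V}
    (hf : IsLaurentIn x f) : LD D f := by
  unfold IsLaurentIn at hf
  induction hf using Algebra.adjoin_induction with
  | mem y hy =>
    rcases hy with ⟨i, rfl⟩ | ⟨i, rfl⟩
    · exact h i
    · exact h' i
  | algebraMap r => exact LD.of (Subalgebra.algebraMap_mem _ _)
  | add a b _ _ ha hb => exact ha.add hD hb
  | mul a b _ _ ha hb => exact ha.mul hb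

theorem isLaurent_one_add (x : V → RatFun V) (j : V) : IsLaurentIn x (1 + x j) :=
  isLaurent_add (isLaurent_one _) (isLaurent_coord _ _)

/-- coordinates of a once mutated standard seed are Laurent up to powers of a denominator
divisible by `1 + X j` -/
theorem LD_mutate {E : V → V → ℤ} {j : V} {D : RatFun V}
    (hD : LD D (1 + cX j)⁻¹) (i : V) :
    LD D (((stdSeed E).mutate j).x i) ∧ LD D (((stdSeed E).mutate j).x i)⁻¹ := by
  have hXj : (cX j : RatFun V) ≠ 0 := (isU_cX j j).ne_zero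
  by_cases hi : i = j
  · subst hi
    rw [Seed.mutate_x_self, inv_inv]
    exact ⟨LD.of (isLaurent_coord_inv _ _), LD.of (isLaurent_coord _ _)⟩
  · rw [Seed.mutate_x_of_ne _ hi hXj]
    have h1 : LD D (1 + cX j : RatFun V) := LD.of (isLaurent_one_add _ _)
    have h2 : ∀ n : ℤ, LD D ((1 + cX j : RatFun V) ^ n) := fun n => h1.zpow hD n
    have h3 : ∀ n : ℤ, LD D ((cX j : RatFun V) ^ n) := fun n =>
      (LD.of (isLaurent_coord _ _)).zpow (LD.of (isLaurent_coord_inv _ _)) n
    have h4 : LD D (cX i : RatFun V) := LD.of (isLaurent_coord _ _)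
    have h5 : LD D (cX i : RatFun V)⁻¹ := LD.of (isLaurent_coord_inv _ _)
    refine ⟨(h4.mul (h3 _)).mul (h2 _), ?_⟩
    rw [mul_inv, mul_inv, ← zpow_neg, ← zpow_neg]
    exact (h5.mul (h3 _)).mul (h2 _)

theorem LD_self (j : V) : LD (1 + cX j : RatFun V) (1 + cX j)⁻¹ := by
  refine ⟨1, ?_⟩
  rw [pow_one, inv_mul_cancel₀ (one_add_cX_ne_zero j)]
  exact isLaurent_one _

/-- Laurent polynomials in the mutated chart have poles at worst along `1 + X j = 0`. -/
theorem LD_of_mutate {E : V → V → ℤ} {j : V} {f : RatFun V}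
    (hf : IsLaurentIn ((stdSeed E).mutate j).x f) : LD (1 + cX j) f :=
  LD.of_isLaurentIn (isLaurent_one_add _ _) (fun i => (LD_mutate (LD_self j) i).1)
    (fun i => (LD_mutate (LD_self j) i).2) hf

theorem isLaurent_of_LD_reg {j : V} {f : RatFun V} (h1 : LD (1 + cX j) f) (h2 : Reg j f) :
    IsLaurentIn (cX : V → RatFun V) f := by
  obtain ⟨N, hN⟩ := h1
  exact isLaurent_of_reg N hN h2

/-- Key Lemma A (base form). -/
theorem keyA {E : V → V → ℤ} (hE : ∀ a b, E a b = - E b a) {j k : V} (hjk : j ≠ k)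
    {f : RatFun V} (h1 : IsLaurentIn ((stdSeed E).mutate j).x f)
    (h2 : IsLaurentIn ((((stdSeed E).mutate j).mutate k).mutate j).x f) :
    IsLaurentIn (cX : V → RatFun V) f :=
  isLaurent_of_LD_reg (LD_of_mutate h1) (reg_of_isLaurentIn (key4 hE hjk) h2)

/-- coordinates of a seed mutated at `k` are units along `1 + X j`, `j ≠ k` -/
theorem isU_mutate {E : V → V → ℤ} {j k : V} (hjk : j ≠ k) (i : V) :
    IsU j (((stdSeed E).mutate k).x i) := by
  by_cases hi : i = k
  · subst hi
    rw [Seed.mutate_x_self]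
    exact (isU_cX _ _).inv
  · rw [Seed.mutate_x_of_ne _ hi (isU_cX k j).ne_zero]
    exact ((isU_cX i j).mul ((isU_cX k j).zpow _)).mul ((isU_one_add_cX hjk.symm).zpow _)

/-- (P) -/
theorem keyP {E : V → V → ℤ} {j k : V} (hjk : j ≠ k)
    {f : RatFun V} (h1 : IsLaurentIn ((stdSeed E).mutate j).x f)
    (h2 : IsLaurentIn ((stdSeed E).mutate k).x f) :
    IsLaurentIn (cX : V → RatFun V) f :=
  isLaurent_of_LD_reg (LD_of_mutate h1) (reg_of_isLaurentIn (isU_mutate hjk) h2)

end laurent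


section square

variable {E : V → V → ℤ} {a b : V}

theorem isU_mutate2 (hab : E a b = 0) (hne : a ≠ b) {j : V} (hja : j ≠ a) (hjb : j ≠ b) (i : V) :
    IsU j ((((stdSeed E).mutate b).mutate a).x i) := by
  have hxa : ((stdSeed E).mutate b).x a = cX a := mutate_x_of_zero hne hab
  by_cases hi : i = a
  · subst hi
    rw [Seed.mutate_x_self, hxa]
    exact (isU_cX _ _).inv
  · have h0 : ((stdSeed E).mutate b).x a ≠ 0 := by rw [hxa]; exact (isU_cX a a).ne_zero
    rw [Seed.mutate_x_of_ne _ hi h0, hxa]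
    exact ((isU_mutate hjb i).mul ((isU_cX a j).zpow _)).mul ((isU_one_add_cX hja.symm).zpow _)

theorem LD_mutate2 (hab : E a b = 0) (hne : a ≠ b) {D : RatFun V}
    (hDa : LD D (1 + cX a)⁻¹) (hDb : LD D (1 + cX b)⁻¹) (i : V) :
    LD D ((((stdSeed E).mutate b).mutate a).x i) ∧ LD D ((((stdSeed E).mutate b).mutate a).x i)⁻¹ := by
  have hxa : ((stdSeed E).mutate b).x a = cX a := mutate_x_of_zero hne hab
  by_cases hi : i = a
  · subst hi
    rw [Seed.mutate_x_self, inv_inv, hxa]
    exact ⟨LD.of (isLaurent_coord_inv _ _), LD.of (isLaurent_coord _ _)⟩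
  · have h0 : ((stdSeed E).mutate b).x a ≠ 0 := by rw [hxa]; exact (isU_cX a a).ne_zero
    rw [Seed.mutate_x_of_ne _ hi h0, hxa]
    have h1 : LD D (1 + cX a : RatFun V) := LD.of (isLaurent_one_add _ _)
    have h2 : ∀ n : ℤ, LD D ((1 + cX a : RatFun V) ^ n) := fun n => h1.zpow hDa n
    have h3 : ∀ n : ℤ, LD D ((cX a : RatFun V) ^ n) := fun n =>
      (LD.of (isLaurent_coord _ _)).zpow (LD.of (isLaurent_coord_inv _ _)) n
    obtain ⟨h4, h5⟩ := LD_mutate (E := E) (j := b) hDb i
    refine ⟨(h4.mul (h3 _)).mul (h2 _), ?_⟩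
    rw [mul_inv, mul_inv, ← zpow_neg, ← zpow_neg]
    exact (h5.mul (h3 _)).mul (h2 _)

theorem keyQ {c d : V} (hab : E a b = 0) (hcd : E c d = 0) (h1 : a ≠ b) (h2 : c ≠ d)
    (hac : a ≠ c) (had : a ≠ d) (hbc : b ≠ c) (hbd : b ≠ d) {f : RatFun V}
    (hf : IsLaurentIn (((stdSeed E).mutate b).mutate a).x f)
    (hf' : IsLaurentIn (((stdSeed E).mutate d).mutate c).x f) :
    IsLaurentIn (cX : V → RatFun V) f := by
  have hDL : IsLaurentIn (cX : V → RatFun V) ((1 + cX a) * (1 + cX b)) :=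
    isLaurent_mul (isLaurent_one_add _ _) (isLaurent_one_add _ _)
  have ha0 := one_add_cX_ne_zero a
  have hb0 := one_add_cX_ne_zero b
  have hDa : LD ((1 + cX a) * (1 + cX b) : RatFun V) (1 + cX a)⁻¹ := by
    refine ⟨1, ?_⟩
    have : (1 + cX a : RatFun V)⁻¹ * ((1 + cX a) * (1 + cX b)) ^ 1 = 1 + cX b := by
      rw [pow_one]; field_simp
    rw [this]; exact isLaurent_one_add _ _
  have hDb : LD ((1 + cX a) * (1 + cX b) : RatFun V) (1 + cX b)⁻¹ := by
    refine ⟨1, ?_⟩
    have : (1 + cX b : RatFun V)⁻¹ * ((1 + cX a) * (1 + cX b)) ^ 1 = 1 + cX a := by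
      rw [pow_one]; field_simp
    rw [this]; exact isLaurent_one_add _ _
  obtain ⟨N, hN⟩ := LD.of_isLaurentIn hDL (fun i => (LD_mutate2 hab h1 hDa hDb i).1)
    (fun i => (LD_mutate2 hab h1 hDa hDb i).2) hf
  have hra : Reg a f := reg_of_isLaurentIn (isU_mutate2 hcd h2 hac had) hf'
  have hrb : Reg b f := reg_of_isLaurentIn (isU_mutate2 hcd h2 hbc hbd) hf'
  have e : f * ((1 + cX a) * (1 + cX b)) ^ N = (f * (1 + cX b) ^ N) * (1 + cX a) ^ N := by
    rw [mul_pow]; ring
  rw [e] at hN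
  have hra' : Reg a (f * (1 + cX b) ^ N) := hra.mul ((isU_one_add_cX h1.symm).pow N).reg
  have := isLaurent_of_reg N hN hra'
  exact isLaurent_of_reg N this hrb

end square

section transport

/-- apply an automorphism of the function field to all coordinates -/
def Seed.map (φ : RatFun V ≃ₐ[ℂ] RatFun V) (s : Seed V) : Seed V := ⟨s.ε, fun v => φ (s.x v)⟩

theorem Seed.ext' {s t : Seed V} (h1 : s.ε = t.ε) (h2 : s.x = t.x) : s = t := by
  cases s; cases t; simp_all

theorem Seed.map_mutate (φ : RatFun V ≃ₐ[ℂ] RatFun V) (s : Seed V) (k : V) :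
    (s.map φ).mutate k = (s.mutate k).map φ := by
  apply Seed.ext'
  · rfl
  · funext i
    simp only [Seed.mutate, Seed.map]
    split_ifs
    · rw [map_inv₀]
    · rw [map_mul, map_zpow₀, map_add, map_zpow₀, map_one]

theorem isLaurentIn_map (φ : RatFun V ≃ₐ[ℂ] RatFun V) {x : V → RatFun V} {f : RatFun V} :
    IsLaurentIn (fun v => φ (x v)) (φ f) ↔ IsLaurentIn x f := by
  have key : ∀ (φ : RatFun V ≃ₐ[ℂ] RatFun V) {x : V → RatFun V} {f : RatFun V},
      IsLaurentIn x f → IsLaurentIn (fun v => φ (x v)) (φ f) := by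
    intro φ x f hf
    unfold IsLaurentIn at hf
    induction hf using Algebra.adjoin_induction with
    | mem y hy =>
      rcases hy with ⟨i, rfl⟩ | ⟨i, rfl⟩
      · exact Algebra.subset_adjoin (Or.inl ⟨i, rfl⟩)
      · exact Algebra.subset_adjoin (Or.inr ⟨i, (map_inv₀ φ _).symm⟩)
    | algebraMap r => rw [AlgEquiv.commutes]; exact Subalgebra.algebraMap_mem _ _
    | add a b _ _ ha hb => rw [map_add]; exact add_mem ha hb
    | mul a b _ _ ha hb => rw [map_mul]; exact mul_mem ha hb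
  constructor
  · intro h
    have := key φ.symm h
    simpa using this
  · exact key φ

/-- the coordinates of the seed are images of the standard ones under a field automorphism -/
def Seed.IsChart (s : Seed V) : Prop := ∃ φ : RatFun V ≃ₐ[ℂ] RatFun V, ∀ v, φ (cX v) = s.x v

theorem Seed.IsChart.eq_map {s : Seed V} (h : s.IsChart) :
    ∃ φ : RatFun V ≃ₐ[ℂ] RatFun V, s = (stdSeed s.ε).map φ := by
  obtain ⟨φ, hφ⟩ := h
  refine ⟨φ, Seed.ext' rfl ?_⟩
  funext v
  exact (hφ v).symm

theorem Seed.IsChart.x_ne_zero {s : Seed V} (h : s.IsChart) (k : V) : s.x k ≠ 0 := by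
  obtain ⟨φ, hφ⟩ := h
  rw [← hφ]
  exact (map_ne_zero φ).mpr (isU_cX k k).ne_zero

theorem Seed.IsChart.one_add_x_ne_zero {s : Seed V} (h : s.IsChart) (k : V) : 1 + s.x k ≠ 0 := by
  obtain ⟨φ, hφ⟩ := h
  rw [← hφ, ← map_one φ, ← map_add]
  exact (map_ne_zero φ).mpr (one_add_cX_ne_zero k)

theorem Seed.IsChart.mutate_mutate {s : Seed V} (h : s.IsChart) (k : V) :
    (s.mutate k).mutate k = s :=
  Seed.ext' (s.mutate_mutate_ε k) (s.mutate_mutate_x k (h.x_ne_zero k) (h.one_add_x_ne_zero k))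

theorem stdSeed_isChart (E : V → V → ℤ) : (stdSeed E).IsChart := ⟨AlgEquiv.refl, fun _ => rfl⟩

theorem stdSeed_mutate_isChart [Fintype V] (E : V → V → ℤ) (k : V) :
    ((stdSeed E).mutate k).IsChart := by
  apply exists_algEquiv
  intro v
  set s1 := (stdSeed E).mutate k with hs1
  have h0 : s1.x k ≠ 0 := by
    rw [hs1, Seed.mutate_x_self]
    exact inv_ne_zero ((stdSeed_isChart E).x_ne_zero k)
  have h := (stdSeed_isChart E).mutate_mutate k
  have hv : (s1.mutate k).x v = cX v := by rw [hs1, h]; rfl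
  rw [← hv]
  have hmem : ∀ i, s1.x i ∈ IntermediateField.adjoin ℂ (Set.range s1.x) := fun i =>
    IntermediateField.subset_adjoin _ _ ⟨i, rfl⟩
  by_cases hvk : v = k
  · subst hvk
    rw [Seed.mutate_x_self]
    exact inv_mem (hmem _)
  · rw [Seed.mutate_x_of_ne _ hvk h0]
    exact mul_mem (mul_mem (hmem _) (zpow_mem (hmem _) _))
      (zpow_mem (add_mem (one_mem _) (hmem _)) _)

theorem Seed.IsChart.map {s : Seed V} (h : s.IsChart) (φ : RatFun V ≃ₐ[ℂ] RatFun V) :
    (s.map φ).IsChart := by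
  obtain ⟨ψ, hψ⟩ := h
  refine ⟨ψ.trans φ, fun v => ?_⟩
  change φ (ψ (cX v)) = φ (s.x v)
  rw [hψ]

theorem Seed.IsChart.mutate [Fintype V] {s : Seed V} (h : s.IsChart) (k : V) :
    (s.mutate k).IsChart := by
  obtain ⟨φ, hφ⟩ := h.eq_map
  rw [hφ, Seed.map_mutate]
  exact (stdSeed_mutate_isChart s.ε k).map φ

/-- Lemma A for arbitrary seeds -/
theorem lemmaA [Fintype V] {s : Seed V} (hs : s.IsChart) (hk : s.Skew) {j k : V} (hjk : j ≠ k)
    {f : RatFun V} (h1 : IsLaurentIn (s.mutate k).x f) (h2 : IsLaurentIn (s.mutate j).x f) :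
    IsLaurentIn ((s.mutate k).mutate j).x f := by
  set t := (s.mutate k).mutate j with ht
  have htc : t.IsChart := (hs.mutate k).mutate j
  have htk : t.Skew := (hk.mutate k).mutate j
  have e1 : t.mutate j = s.mutate k := by rw [ht]; exact (hs.mutate k).mutate_mutate j
  have e2 : (t.mutate j).mutate k = s := by rw [e1]; exact hs.mutate_mutate k
  have e3 : ((t.mutate j).mutate k).mutate j = s.mutate j := by rw [e2]
  rw [← e1] at h1
  rw [← e3] at h2
  obtain ⟨φ, hφ⟩ := htc.eq_map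
  have hE : ∀ a b, t.ε a b = - t.ε b a := htk
  generalize t.ε = E at hφ hE
  rw [hφ] at h1 h2 ⊢
  rw [Seed.map_mutate] at h1 h2
  rw [Seed.map_mutate, Seed.map_mutate] at h2
  have hf : f = φ (φ.symm f) := by simp
  rw [hf] at h1 h2 ⊢
  have h1' := (isLaurentIn_map φ).mp h1
  have h2' := (isLaurentIn_map φ).mp h2
  exact (isLaurentIn_map φ).mpr (keyA hE hjk h1' h2')

theorem lemmaP [Fintype V] {s : Seed V} (hs : s.IsChart) {j k : V} (hjk : j ≠ k)
    {f : RatFun V} (h1 : IsLaurentIn (s.mutate j).x f) (h2 : IsLaurentIn (s.mutate k).x f) :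
    IsLaurentIn s.x f := by
  obtain ⟨φ, hφ⟩ := hs.eq_map
  generalize s.ε = E at hφ
  rw [hφ] at h1 h2 ⊢
  rw [Seed.map_mutate] at h1 h2
  have hf : f = φ (φ.symm f) := by simp
  rw [hf] at h1 h2 ⊢
  exact (isLaurentIn_map φ).mpr (keyP hjk ((isLaurentIn_map φ).mp h1) ((isLaurentIn_map φ).mp h2))

theorem lemmaQ [Fintype V] {s : Seed V} (hs : s.IsChart) {a b c d : V}
    (hab : s.ε a b = 0) (hcd : s.ε c d = 0) (h1 : a ≠ b) (h2 : c ≠ d)
    (hac : a ≠ c) (had : a ≠ d) (hbc : b ≠ c) (hbd : b ≠ d) {f : RatFun V}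
    (hf : IsLaurentIn ((s.mutate b).mutate a).x f)
    (hf' : IsLaurentIn ((s.mutate d).mutate c).x f) :
    IsLaurentIn s.x f := by
  obtain ⟨φ, hφ⟩ := hs.eq_map
  generalize s.ε = E at hφ hab hcd
  rw [hφ] at hf hf' ⊢
  rw [Seed.map_mutate, Seed.map_mutate] at hf hf'
  have hf0 : f = φ (φ.symm f) := by simp
  rw [hf0] at hf hf' ⊢
  exact (isLaurentIn_map φ).mpr (keyQ hab hcd h1 h2 hac had hbc hbd
    ((isLaurentIn_map φ).mp hf) ((isLaurentIn_map φ).mp hf'))

/-- The starfish lemma for `X`-charts -/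
theorem starfish [Fintype V] {s : Seed V} (hs : s.IsChart) (hk : s.Skew) {f : RatFun V}
    (h0 : IsLaurentIn s.x f) (h1 : ∀ k, IsLaurentIn (s.mutate k).x f) {t : Seed V}
    (ht : MutEquiv s t) : IsLaurentIn t.x f := by
  suffices t.IsChart ∧ t.Skew ∧ IsLaurentIn t.x f ∧ ∀ k, IsLaurentIn (t.mutate k).x f from this.2.2.1
  induction ht with
  | refl => exact ⟨hs, hk, h0, h1⟩
  | step t k _ ih =>
    obtain ⟨htc, htk, ht0, ht1⟩ := ih
    refine ⟨htc.mutate k, htk.mutate k, ht1 k, fun j => ?_⟩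
    by_cases hjk : j = k
    · subst hjk; rw [htc.mutate_mutate]; exact ht0
    · exact lemmaA htc htk hjk (ht1 k) (ht1 j)

end transport

end algebra

end

end Pool.Agent.Helper18.PGL3
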