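import Mathlib
import Pool.Agent.Helper18.PGL3Algebra
set_option autoImplicit false
set_option linter.unusedSectionVars false
set_option linter.unusedSimpArgs false
set_option linter.unusedVariables false
set_option linter.style.haveILetI false

namespace Pool.Agent.Helper18.PGL3

open Sum MvPolynomial

noncomputable section


namespace IdealTriangulation

variable {H T : Type} (Δ : IdealTriangulation H T)

theorem next_next_ne (h : H) : Δ.next (Δ.next h) ≠ h := by
  intro e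
  have := Δ.next_next_next h
  rw [e] at this
  exact Δ.next_ne h this

theorem next_next_ne' (h : H) : Δ.next (Δ.next h) ≠ Δ.next h := Δ.next_ne _

theorem tri_next_next (h : H) : Δ.tri (Δ.next (Δ.next h)) = Δ.tri h := by
  rw [Δ.tri_next, Δ.tri_next]

theorem ne_of_tri_ne {a b : H} (h : Δ.tri a ≠ Δ.tri b) : a ≠ b := fun e => h (by rw [e])

theorem glue_ne (h : H) : Δ.glue h ≠ h := Δ.ne_of_tri_ne (Δ.not_self_folded h)

/-- the edge `h` is flippable -/
def Flippable (h : H) : Prop :=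
  Δ.next (Δ.glue h) ≠ Δ.glue (Δ.next (Δ.next h)) ∧
  Δ.next h ≠ Δ.glue (Δ.next (Δ.next (Δ.glue h)))


variable [DecidableEq H]

section facts

variable (h : H)

theorem tri_glue_ne : Δ.tri (Δ.glue h) ≠ Δ.tri h := Δ.not_self_folded h

/-- all the distinctness facts about the six sides of the quadrilateral around `h` -/
theorem facts : 
    (Δ.next h ≠ h ∧ Δ.next (Δ.next h) ≠ h ∧ Δ.next (Δ.next h) ≠ Δ.next h) ∧
    (Δ.next (Δ.glue h) ≠ Δ.glue h ∧ Δ.next (Δ.next (Δ.glue h)) ≠ Δ.glue h ∧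
      Δ.next (Δ.next (Δ.glue h)) ≠ Δ.next (Δ.glue h)) ∧
    (Δ.glue h ≠ h ∧ Δ.glue h ≠ Δ.next h ∧ Δ.glue h ≠ Δ.next (Δ.next h)) ∧
    (Δ.next (Δ.glue h) ≠ h ∧ Δ.next (Δ.glue h) ≠ Δ.next h ∧
      Δ.next (Δ.glue h) ≠ Δ.next (Δ.next h)) ∧
    (Δ.next (Δ.next (Δ.glue h)) ≠ h ∧ Δ.next (Δ.next (Δ.glue h)) ≠ Δ.next h ∧
      Δ.next (Δ.next (Δ.glue h)) ≠ Δ.next (Δ.next h)) := by
  have ht := Δ.not_self_folded h
  refine ⟨⟨Δ.next_ne h, Δ.next_next_ne h, Δ.next_ne _⟩, ⟨Δ.next_ne _, Δ.next_next_ne _, Δ.next_ne _⟩,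
    ⟨?_, ?_, ?_⟩, ⟨?_, ?_, ?_⟩, ⟨?_, ?_, ?_⟩⟩ <;>
  · apply Δ.ne_of_tri_ne
    simpa only [Δ.tri_next] using ht

end facts


/-- Named version of the quadrilateral around `h`. -/
structure Quad (Δ : IdealTriangulation H T) (h p q h' p' q' : H) : Prop where
  glue_h : Δ.glue h = h'
  glue_h' : Δ.glue h' = h
  nh : Δ.next h = p
  np : Δ.next p = q
  nq : Δ.next q = h
  nh' : Δ.next h' = p'
  np' : Δ.next p' = q'
  nq' : Δ.next q' = h'
  tp : Δ.tri p = Δ.tri h
  tq : Δ.tri q = Δ.tri h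
  tp' : Δ.tri p' = Δ.tri h'
  tq' : Δ.tri q' = Δ.tri h'
  tt' : Δ.tri h' ≠ Δ.tri h
  hp : p ≠ h
  hq : q ≠ h
  pq : q ≠ p
  hp' : p' ≠ h'
  hq' : q' ≠ h'
  pq' : q' ≠ p'
  hh : h' ≠ h
  h'p : h' ≠ p
  h'q : h' ≠ q
  p'h : p' ≠ h
  p'p : p' ≠ p
  p'q : p' ≠ q
  q'h : q' ≠ h
  q'p : q' ≠ p
  q'q : q' ≠ q
  cover : ∀ x, Δ.tri x = Δ.tri h → x = h ∨ x = p ∨ x = q
  cover' : ∀ x, Δ.tri x = Δ.tri h' → x = h' ∨ x = p' ∨ x = q'

theorem quad (h : H) : Quad Δ h (Δ.next h) (Δ.next (Δ.next h)) (Δ.glue h) (Δ.next (Δ.glue h))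
    (Δ.next (Δ.next (Δ.glue h))) := by
  obtain ⟨⟨a1, a2, a3⟩, ⟨b1, b2, b3⟩, ⟨c1, c2, c3⟩, ⟨d1, d2, d3⟩, ⟨e1, e2, e3⟩⟩ := Δ.facts h
  exact ⟨rfl, Δ.glue_glue h, rfl, rfl, Δ.next_next_next h, rfl, rfl, Δ.next_next_next _,
    Δ.tri_next h, Δ.tri_next_next h, Δ.tri_next _, Δ.tri_next_next _, Δ.not_self_folded h,
    a1, a2, a3, b1, b2, b3, c1, c2, c3, d1, d2, d3, e1, e2, e3,
    fun x hx => Δ.eq_of_tri_eq h x hx.symm, fun x hx => Δ.eq_of_tri_eq (Δ.glue h) x hx.symm⟩

theorem Quad.symm {Δ : IdealTriangulation H T} {h p q h' p' q' : H} (Q : Quad Δ h p q h' p' q') :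
    Quad Δ h' p' q' h p q :=
  ⟨Q.glue_h', Q.glue_h, Q.nh', Q.np', Q.nq', Q.nh, Q.np, Q.nq, Q.tp', Q.tq', Q.tp, Q.tq, Q.tt'.symm,
    Q.hp', Q.hq', Q.pq', Q.hp, Q.hq, Q.pq, Q.hh.symm, Q.p'h.symm, Q.q'h.symm, Q.h'p.symm,
    Q.p'p.symm, Q.q'p.symm, Q.h'q.symm, Q.p'q.symm, Q.q'q.symm, Q.cover', Q.cover⟩


/-- Named version of the flip relation. -/
structure QFlip (Δ Δ' : IdealTriangulation H T) (h p q h' p' q' : H) : Prop where
  glue_eq : Δ'.glue = Δ.glue
  next_h : Δ'.next h = q'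
  next_q' : Δ'.next q' = p
  next_p : Δ'.next p = h
  next_h' : Δ'.next h' = q
  next_q : Δ'.next q = p'
  next_p' : Δ'.next p' = h'
  next_other : ∀ x, Δ.tri x ≠ Δ.tri h → Δ.tri x ≠ Δ.tri h' → Δ'.next x = Δ.next x
  tri_q : Δ'.tri q = Δ.tri h'
  tri_q' : Δ'.tri q' = Δ.tri h
  tri_other : ∀ x, x ≠ q → x ≠ q' → Δ'.tri x = Δ.tri x

theorem IsFlip.qflip {Δ Δ' : IdealTriangulation H T} {h : H} (F : IsFlip Δ Δ' h) :
    QFlip Δ Δ' h (Δ.next h) (Δ.next (Δ.next h)) (Δ.glue h) (Δ.next (Δ.glue h))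
    (Δ.next (Δ.next (Δ.glue h))) :=
  ⟨F.glue_eq, F.next_h, F.next_q', F.next_p, F.next_h', F.next_q, F.next_p', F.next_other,
    F.tri_q, F.tri_q', F.tri_other⟩

theorem QFlip.isFlip {Δ Δ' : IdealTriangulation H T} {h p q h' p' q' : H}
    (Q : Quad Δ h p q h' p' q') (F : QFlip Δ Δ' h p q h' p' q') : IsFlip Δ Δ' h := by
  have e1 := Q.glue_h; have e2 := Q.nh; have e3 := Q.np; have e4 := Q.nh'; have e5 := Q.np'
  subst e1 e2 e3 e4 e5
  exact ⟨F.glue_eq, F.next_h, F.next_q', F.next_p, F.next_h', F.next_q, F.next_p', F.next_other,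
    F.tri_q, F.tri_q', F.tri_other⟩

section construct

variable {Δ} {h p q h' p' q' : H} 

theorem kappa_h (Q : Quad Δ h p q h' p' q') :
    (Equiv.swap h p' * Equiv.swap p' q' * (Equiv.swap h' p * Equiv.swap p q)) h = p' := by
  simp only [Equiv.Perm.mul_apply]
  rw [Equiv.swap_apply_of_ne_of_ne Q.hp.symm Q.hq.symm,
    Equiv.swap_apply_of_ne_of_ne Q.hh.symm Q.hp.symm,
    Equiv.swap_apply_of_ne_of_ne Q.p'h.symm Q.q'h.symm, Equiv.swap_apply_left]

theorem kappa_p' (Q : Quad Δ h p q h' p' q') :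
    (Equiv.swap h p' * Equiv.swap p' q' * (Equiv.swap h' p * Equiv.swap p q)) p' = q' := by
  simp only [Equiv.Perm.mul_apply]
  rw [Equiv.swap_apply_of_ne_of_ne Q.p'p Q.p'q,
    Equiv.swap_apply_of_ne_of_ne Q.hp' Q.p'p,
    Equiv.swap_apply_left, Equiv.swap_apply_of_ne_of_ne Q.q'h Q.pq']

theorem kappa_q' (Q : Quad Δ h p q h' p' q') :
    (Equiv.swap h p' * Equiv.swap p' q' * (Equiv.swap h' p * Equiv.swap p q)) q' = h := by
  simp only [Equiv.Perm.mul_apply]
  rw [Equiv.swap_apply_of_ne_of_ne Q.q'p Q.q'q,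
    Equiv.swap_apply_of_ne_of_ne Q.hq' Q.q'p,
    Equiv.swap_apply_right, Equiv.swap_apply_right]

theorem kappa_h' (Q : Quad Δ h p q h' p' q') :
    (Equiv.swap h p' * Equiv.swap p' q' * (Equiv.swap h' p * Equiv.swap p q)) h' = p := by
  simp only [Equiv.Perm.mul_apply]
  rw [Equiv.swap_apply_of_ne_of_ne Q.h'p Q.h'q,
    Equiv.swap_apply_left, 
    Equiv.swap_apply_of_ne_of_ne Q.p'p.symm Q.q'p.symm,
    Equiv.swap_apply_of_ne_of_ne Q.hp Q.p'p.symm]

theorem kappa_p (Q : Quad Δ h p q h' p' q') :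
    (Equiv.swap h p' * Equiv.swap p' q' * (Equiv.swap h' p * Equiv.swap p q)) p = q := by
  simp only [Equiv.Perm.mul_apply]
  rw [Equiv.swap_apply_left, Equiv.swap_apply_of_ne_of_ne Q.h'q.symm Q.pq,
    Equiv.swap_apply_of_ne_of_ne Q.p'q.symm Q.q'q.symm,
    Equiv.swap_apply_of_ne_of_ne Q.hq Q.p'q.symm]

theorem kappa_q (Q : Quad Δ h p q h' p' q') :
    (Equiv.swap h p' * Equiv.swap p' q' * (Equiv.swap h' p * Equiv.swap p q)) q = h' := by
  simp only [Equiv.Perm.mul_apply]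
  rw [Equiv.swap_apply_right, Equiv.swap_apply_right,
    Equiv.swap_apply_of_ne_of_ne Q.hp'.symm Q.hq'.symm,
    Equiv.swap_apply_of_ne_of_ne Q.hh Q.hp'.symm]

theorem kappa_other {x : H} (h1 : x ≠ h) (h2 : x ≠ p) (h3 : x ≠ q) (h4 : x ≠ h')
    (h5 : x ≠ p') (h6 : x ≠ q') :
    (Equiv.swap h p' * Equiv.swap p' q' * (Equiv.swap h' p * Equiv.swap p q)) x = x := by
  simp only [Equiv.Perm.mul_apply]
  rw [Equiv.swap_apply_of_ne_of_ne h2 h3, Equiv.swap_apply_of_ne_of_ne h4 h2,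
    Equiv.swap_apply_of_ne_of_ne h5 h6, Equiv.swap_apply_of_ne_of_ne h1 h5]

theorem Quad.ne_of_tri (Q : Quad Δ h p q h' p' q') {x : H} (h1 : Δ.tri x ≠ Δ.tri h)
    (h2 : Δ.tri x ≠ Δ.tri h') : x ≠ h ∧ x ≠ p ∧ x ≠ q ∧ x ≠ h' ∧ x ≠ p' ∧ x ≠ q' := by
  refine ⟨?_, ?_, ?_, ?_, ?_, ?_⟩
  · rintro rfl; exact h1 rfl
  · rintro rfl; exact h1 Q.tp
  · rintro rfl; exact h1 Q.tq
  · rintro rfl; exact h2 rfl
  · rintro rfl; exact h2 Q.tp'
  · rintro rfl; exact h2 Q.tq'

/-- every side is one of the six or outside both triangles -/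
theorem Quad.cases (Q : Quad Δ h p q h' p' q') (x : H) :
    x = h ∨ x = p ∨ x = q ∨ x = h' ∨ x = p' ∨ x = q' ∨
    (Δ.tri x ≠ Δ.tri h ∧ Δ.tri x ≠ Δ.tri h') := by
  by_cases h1 : Δ.tri x = Δ.tri h
  · rcases Q.cover x h1 with h | h | h <;> simp [h]
  · by_cases h2 : Δ.tri x = Δ.tri h'
    · rcases Q.cover' x h2 with h | h | h <;> simp [h]
    · simp [h1, h2]

theorem exists_qflip (Q : Quad Δ h p q h' p' q') (hf1 : p' ≠ Δ.glue q) (hf2 : p ≠ Δ.glue q') :
    ∃ Δ' : IdealTriangulation H T, QFlip Δ Δ' h p q h' p' q' := by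
  set κ := (Equiv.swap h p' * Equiv.swap p' q' * (Equiv.swap h' p * Equiv.swap p q)) with hκ
  set n' : Equiv.Perm H := Δ.next * κ with hn'
  have nh : n' h = q' := by rw [hn', Equiv.Perm.mul_apply, hκ, kappa_h Q, Q.np']
  have nq' : n' q' = p := by rw [hn', Equiv.Perm.mul_apply, hκ, kappa_q' Q, Q.nh]
  have np : n' p = h := by rw [hn', Equiv.Perm.mul_apply, hκ, kappa_p Q, Q.nq]
  have nh' : n' h' = q := by rw [hn', Equiv.Perm.mul_apply, hκ, kappa_h' Q, Q.np]
  have nq : n' q = p' := by rw [hn', Equiv.Perm.mul_apply, hκ, kappa_q Q, Q.nh']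
  have np' : n' p' = h' := by rw [hn', Equiv.Perm.mul_apply, hκ, kappa_p' Q, Q.nq']
  have no : ∀ x, Δ.tri x ≠ Δ.tri h → Δ.tri x ≠ Δ.tri h' → n' x = Δ.next x := by
    intro x h1 h2
    obtain ⟨a1, a2, a3, a4, a5, a6⟩ := Q.ne_of_tri h1 h2
    rw [hn', Equiv.Perm.mul_apply, hκ, kappa_other a1 a2 a3 a4 a5 a6]
  clear_value n'
  clear hn' hκ
  set τ' : H → T := fun x => if x = q then Δ.tri h' else if x = q' then Δ.tri h else Δ.tri x with hτ'
  have τq : τ' q = Δ.tri h' := by simp [hτ']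
  have τq' : τ' q' = Δ.tri h := by simp [hτ', Q.q'q]
  have τo : ∀ x, x ≠ q → x ≠ q' → τ' x = Δ.tri x := by
    intro x h1 h2; simp [hτ', h1, h2]
  clear_value τ'
  clear hτ'
  have τh : τ' h = Δ.tri h := τo _ Q.hq.symm Q.q'h.symm
  have τp : τ' p = Δ.tri h := by rw [τo _ Q.pq.symm Q.q'p.symm, Q.tp]
  have τh' : τ' h' = Δ.tri h' := τo _ Q.h'q Q.hq'.symm
  have τp' : τ' p' = Δ.tri h' := by rw [τo _ Q.p'q Q.pq'.symm, Q.tp']
  have τout : ∀ x, Δ.tri x ≠ Δ.tri h → Δ.tri x ≠ Δ.tri h' → τ' x = Δ.tri x := by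
    intro x h1 h2
    obtain ⟨a1, a2, a3, a4, a5, a6⟩ := Q.ne_of_tri h1 h2
    exact τo x a3 a6
  have hsf := Δ.not_self_folded
  have hgg := Δ.glue_glue
  have hgi : ∀ a b, Δ.glue a = Δ.glue b → a = b := fun a b e => Δ.glue.injective e
  refine ⟨⟨Δ.glue, n', τ', Δ.glue_glue, ?_, ?_, ?_, ?_, ?_, ?_⟩,
    ⟨rfl, nh, nq', np, nh', nq, np', no, τq, τq', τo⟩⟩
  · intro x
    rcases Q.cases x with rfl | rfl | rfl | rfl | rfl | rfl | ⟨h1, h2⟩
    · rw [nh, nq', np]
    · rw [np, nh, nq']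
    · rw [nq, np', nh']
    · rw [nh', nq, np']
    · rw [np', nh', nq]
    · rw [nq', np, nh]
    · have t1 : Δ.tri (Δ.next x) = Δ.tri x := Δ.tri_next x
      have t2 : Δ.tri (Δ.next (Δ.next x)) = Δ.tri x := Δ.tri_next_next x
      rw [no x h1 h2, no (Δ.next x) (by rwa [t1]) (by rwa [t1]), no _ (by rwa [t2]) (by rwa [t2]),
        Δ.next_next_next]
  · intro x
    rcases Q.cases x with rfl | rfl | rfl | rfl | rfl | rfl | ⟨h1, h2⟩
    · rw [nh]; exact Q.q'h
    · rw [np]; exact Q.hp.symm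
    · rw [nq]; exact Q.p'q
    · rw [nh']; exact Q.h'q.symm
    · rw [np']; exact Q.hp'.symm
    · rw [nq']; exact Q.q'p.symm
    · rw [no x h1 h2]; exact Δ.next_ne x
  · intro x
    rcases Q.cases x with rfl | rfl | rfl | rfl | rfl | rfl | ⟨h1, h2⟩
    · rw [nh, τq', τh]
    · rw [np, τp, τh]
    · rw [nq, τp', τq]
    · rw [nh', τq, τh']
    · rw [np', τh', τp']
    · rw [nq', τp, τq']
    · have t1 : Δ.tri (Δ.next x) = Δ.tri x := Δ.tri_next x
      rw [no x h1 h2, τout _ h1 h2, τout _ (by rwa [t1]) (by rwa [t1]), t1]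
  · intro x y hxy
    have cov : ∀ y, τ' y = Δ.tri h → y = h ∨ y = p ∨ y = q' := by
      intro y hy
      rcases Q.cases y with e | e | e | e | e | e | ⟨h1, h2⟩
      · exact Or.inl e
      · exact Or.inr (Or.inl e)
      · rw [e, τq] at hy; exact absurd hy Q.tt'
      · rw [e, τh'] at hy; exact absurd hy Q.tt'
      · rw [e, τp'] at hy; exact absurd hy Q.tt'
      · exact Or.inr (Or.inr e)
      · rw [τout y h1 h2] at hy; exact absurd hy h1
    have cov' : ∀ y, τ' y = Δ.tri h' → y = h' ∨ y = p' ∨ y = q := by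
      intro y hy
      rcases Q.cases y with e | e | e | e | e | e | ⟨h1, h2⟩
      · rw [e, τh] at hy; exact absurd hy.symm Q.tt'
      · rw [e, τp] at hy; exact absurd hy.symm Q.tt'
      · exact Or.inr (Or.inr e)
      · exact Or.inl e
      · exact Or.inr (Or.inl e)
      · rw [e, τq'] at hy; exact absurd hy.symm Q.tt'
      · rw [τout y h1 h2] at hy; exact absurd hy h2
    rcases Q.cases x with e | e | e | e | e | e | ⟨h1, h2⟩
    · rw [e, τh] at hxy
      rw [e, nh, nq']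
      rcases cov y hxy.symm with h | h | h <;> simp [h]
    · rw [e, τp] at hxy
      rw [e, np, nh]
      rcases cov y hxy.symm with h | h | h <;> simp [h]
    · rw [e, τq] at hxy
      rw [e, nq, np']
      rcases cov' y hxy.symm with h | h | h <;> simp [h]
    · rw [e, τh'] at hxy
      rw [e, nh', nq]
      rcases cov' y hxy.symm with h | h | h <;> simp [h]
    · rw [e, τp'] at hxy
      rw [e, np', nh']
      rcases cov' y hxy.symm with h | h | h <;> simp [h]
    · rw [e, τq'] at hxy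
      rw [e, nq', np]
      rcases cov y hxy.symm with h | h | h <;> simp [h]
    · have t1 : Δ.tri (Δ.next x) = Δ.tri x := Δ.tri_next x
      rw [τout x h1 h2] at hxy
      rw [no x h1 h2, no (Δ.next x) (by rwa [t1]) (by rwa [t1])]
      have hy : Δ.tri y = Δ.tri x := by
        rcases Q.cases y with e | e | e | e | e | e | ⟨h3, h4⟩
        · rw [e, τh] at hxy; exact absurd hxy h1
        · rw [e, τp] at hxy; exact absurd hxy h1
        · rw [e, τq] at hxy; exact absurd hxy h2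
        · rw [e, τh'] at hxy; exact absurd hxy h2
        · rw [e, τp'] at hxy; exact absurd hxy h2
        · rw [e, τq'] at hxy; exact absurd hxy h1
        · rw [τout y h3 h4] at hxy; exact hxy.symm
      exact Δ.eq_of_tri_eq x y hy.symm
  · intro t
    obtain ⟨x, rfl⟩ := Δ.tri_surjective t
    rcases Q.cases x with e | e | e | e | e | e | ⟨h1, h2⟩
    · exact ⟨h, by rw [e, τh]⟩
    · exact ⟨p, by rw [e, τp, Q.tp]⟩
    · exact ⟨h, by rw [e, τh, Q.tq]⟩
    · exact ⟨h', by rw [e, τh']⟩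
    · exact ⟨p', by rw [e, τp', Q.tp']⟩
    · exact ⟨h', by rw [e, τh', Q.tq']⟩
    · exact ⟨x, τout x h1 h2⟩
  · -- no self-folded triangle
    intro x hx
    have ggh : Δ.glue h = h' := Q.glue_h
    have ggh' : Δ.glue h' = h := Q.glue_h'
    -- tri x determines membership
    have cov : ∀ y, τ' y = Δ.tri h → y = h ∨ y = p ∨ y = q' := by
      intro y hy
      rcases Q.cases y with e | e | e | e | e | e | ⟨h1, h2⟩
      · exact Or.inl e
      · exact Or.inr (Or.inl e)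
      · rw [e, τq] at hy; exact absurd hy Q.tt'
      · rw [e, τh'] at hy; exact absurd hy Q.tt'
      · rw [e, τp'] at hy; exact absurd hy Q.tt'
      · exact Or.inr (Or.inr e)
      · rw [τout y h1 h2] at hy; exact absurd hy h1
    have cov' : ∀ y, τ' y = Δ.tri h' → y = h' ∨ y = p' ∨ y = q := by
      intro y hy
      rcases Q.cases y with e | e | e | e | e | e | ⟨h1, h2⟩
      · rw [e, τh] at hy; exact absurd hy.symm Q.tt'
      · rw [e, τp] at hy; exact absurd hy.symm Q.tt'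
      · exact Or.inr (Or.inr e)
      · exact Or.inl e
      · exact Or.inr (Or.inl e)
      · rw [e, τq'] at hy; exact absurd hy.symm Q.tt'
      · rw [τout y h1 h2] at hy; exact absurd hy h2
    have pg : Δ.glue p ≠ p := Δ.glue_ne p
    have qg : Δ.glue q ≠ q := Δ.glue_ne q
    have pg' : Δ.glue p' ≠ p' := Δ.glue_ne p'
    have qg' : Δ.glue q' ≠ q' := Δ.glue_ne q'
    rcases Q.cases x with e | e | e | e | e | e | ⟨h1, h2⟩
    · rw [e, ggh, τh', τh] at hx; exact Q.tt' hx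
    · rw [e, τp] at hx
      rcases cov _ hx with h' | h' | h'
      · have := congrArg Δ.glue h'; rw [hgg, ggh] at this; exact Q.h'p this.symm
      · exact pg h'
      · have := congrArg Δ.glue h'; rw [hgg] at this; exact hf2 this
    · rw [e, τq] at hx
      rcases cov' _ hx with h' | h' | h'
      · have := congrArg Δ.glue h'; rw [hgg, ggh'] at this; exact Q.hq this
      · exact hf1 h'.symm
      · exact qg h'
    · rw [e, ggh', τh', τh] at hx; exact Q.tt' hx.symm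
    · rw [e, τp'] at hx
      rcases cov' _ hx with h' | h' | h'
      · have := congrArg Δ.glue h'; rw [hgg, ggh'] at this; exact Q.p'h this
      · exact pg' h'
      · have := congrArg Δ.glue h'; rw [hgg] at this; exact hf1 this
    · rw [e, τq'] at hx
      rcases cov _ hx with h' | h' | h'
      · have := congrArg Δ.glue h'; rw [hgg, ggh] at this; exact Q.hq' this
      · exact hf2 h'.symm
      · exact qg' h'
    · rw [τout x h1 h2] at hx
      have hne := hsf x
      rcases Q.cases (Δ.glue x) with e | e | e | e | e | e | ⟨h3, h4⟩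
      · rw [e, τh] at hx; exact h1 hx.symm
      · rw [e, τp] at hx; exact h1 hx.symm
      · rw [e, τq] at hx; exact h2 hx.symm
      · rw [e, τh'] at hx; exact h2 hx.symm
      · rw [e, τp'] at hx; exact h2 hx.symm
      · rw [e, τq'] at hx; exact h1 hx.symm
      · rw [τout _ h3 h4] at hx; exact hne hx

end construct

/-- construction of the flipped triangulation -/
theorem exists_flip (h : H) (hf : Δ.Flippable h) : ∃ Δ' : IdealTriangulation H T, IsFlip Δ Δ' h := by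
  obtain ⟨Δ', F⟩ := exists_qflip (Δ.quad h) hf.1 hf.2
  exact ⟨Δ', F.isFlip (Δ.quad h)⟩


/-- rotation around the initial puncture of a side -/
def rot (x : H) : H := Δ.next (Δ.glue x)

theorem rot_injective : Function.Injective Δ.rot := fun _ _ e =>
  Δ.glue.injective (Δ.next.injective e)

theorem rot_ne (x : H) : Δ.rot x ≠ x := by
  apply Δ.ne_of_tri_ne
  unfold rot
  rw [Δ.tri_next]
  exact Δ.not_self_folded x

/-- sides starting at a puncture of valence two -/
def Bad (x : H) : Prop := Δ.rot (Δ.rot x) = x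

section badflip

variable {Δ} {Δ' : IdealTriangulation H T} {h p q h' p' q' : H}

theorem QFlip.bad (Q : Quad Δ h p q h' p' q') (F : QFlip Δ Δ' h p q h' p' q') {x : H}
    (hx : Δ'.Bad x) : Δ.Bad x ∨ Δ'.rot p' = Δ.glue q ∨ Δ'.rot p = Δ.glue q' := by
  have hgg := Δ.glue_glue
  have r1 : Δ'.rot h' = q' := by unfold rot; rw [F.glue_eq, Q.glue_h', F.next_h]
  have r2 : Δ'.rot h = q := by unfold rot; rw [F.glue_eq, Q.glue_h, F.next_h']
  have r3 : Δ'.rot (Δ.glue q') = p := by unfold rot; rw [F.glue_eq, hgg, F.next_q']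
  have r4 : Δ'.rot (Δ.glue p) = h := by unfold rot; rw [F.glue_eq, hgg, F.next_p]
  have r5 : Δ'.rot (Δ.glue q) = p' := by unfold rot; rw [F.glue_eq, hgg, F.next_q]
  have r6 : Δ'.rot (Δ.glue p') = h' := by unfold rot; rw [F.glue_eq, hgg, F.next_p']
  have sp : Δ.glue p ≠ q := by
    apply Δ.ne_of_tri_ne
    rw [Q.tq, ← Q.tp]; exact Δ.not_self_folded p
  have sp' : Δ.glue p' ≠ q' := by
    apply Δ.ne_of_tri_ne
    rw [Q.tq', ← Q.tp']; exact Δ.not_self_folded p'
  have inj := Δ'.rot_injective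
  have ro : ∀ x, x ≠ h' → x ≠ h → x ≠ Δ.glue q' → x ≠ Δ.glue p → x ≠ Δ.glue q → x ≠ Δ.glue p' →
      Δ'.rot x = Δ.rot x := by
    intro x a1 a2 a3 a4 a5 a6
    unfold rot
    rw [F.glue_eq]
    have key : ∀ y, x ≠ Δ.glue y → Δ.glue x ≠ y := by
      rintro y hy rfl; exact hy (hgg x).symm
    rcases Q.cases (Δ.glue x) with e | e | e | e | e | e | ⟨h1, h2⟩
    · exact absurd e (key _ (by rw [Q.glue_h]; exact a1))
    · exact absurd e (key _ a4)
    · exact absurd e (key _ a5)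
    · exact absurd e (key _ (by rw [Q.glue_h']; exact a2))
    · exact absurd e (key _ a6)
    · exact absurd e (key _ a3)
    · exact F.next_other _ h1 h2
  unfold Bad at hx ⊢
  set y := Δ'.rot x with hy
  -- exclude the special values of x
  by_cases x1 : x = h
  · exfalso
    rw [x1, r2] at hy
    rw [hy, x1] at hx
    exact sp (inj (by rw [r4, hx]))
  by_cases x2 : x = h'
  · exfalso
    rw [x2, r1] at hy
    rw [hy, x2] at hx
    exact sp' (inj (by rw [r6, hx]))
  by_cases x3 : x = Δ.glue p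
  · exfalso
    rw [x3, r4] at hy
    rw [hy, x3, r2] at hx
    exact sp hx.symm
  by_cases x4 : x = Δ.glue p'
  · exfalso
    rw [x4, r6] at hy
    rw [hy, x4, r1] at hx
    exact sp' hx.symm
  by_cases x5 : x = Δ.glue q
  · right; left
    rw [x5, r5] at hy
    rw [← hy, hx, x5]
  by_cases x6 : x = Δ.glue q'
  · right; right
    rw [x6, r3] at hy
    rw [← hy, hx, x6]
  have hxy : y = Δ.rot x := by rw [hy]; exact ro x x2 x1 x6 x3 x5 x4
  by_cases y1 : y = h
  · exact absurd (inj (by rw [r4, ← hy, y1])) x3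
  by_cases y2 : y = h'
  · exact absurd (inj (by rw [r6, ← hy, y2])) x4
  by_cases y3 : y = Δ.glue p
  · rw [y3, r4] at hx; exact absurd hx.symm x1
  by_cases y4 : y = Δ.glue p'
  · rw [y4, r6] at hx; exact absurd hx.symm x2
  by_cases y5 : y = Δ.glue q
  · right; left
    rw [y5, r5] at hx
    rw [hx, ← hy, y5]
  by_cases y6 : y = Δ.glue q'
  · right; right
    rw [y6, r3] at hx
    rw [hx, ← hy, y6]
  left
  rw [← hxy, ← ro y y2 y1 y6 y3 y5 y4]
  exact hx

end badflip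

/-- The configuration around a puncture of valence two. -/
structure Two (Δ : IdealTriangulation H T) (h1 h2 a b : H) : Prop where
  n1 : Δ.next h1 = a
  n2 : Δ.next a = Δ.glue h2
  n3 : Δ.next (Δ.glue h2) = h1
  m1 : Δ.next h2 = b
  m2 : Δ.next b = Δ.glue h1
  m3 : Δ.next (Δ.glue h1) = h2

theorem two_of_bad {Δ : IdealTriangulation H T} {h1 : H} (hb : Δ.Bad h1) :
    Two Δ h1 (Δ.rot h1) (Δ.next h1) (Δ.next (Δ.rot h1)) := by
  have hb' : Δ.next (Δ.glue (Δ.rot h1)) = h1 := hb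
  have e1 : Δ.next (Δ.next (Δ.next h1)) = h1 := Δ.next_next_next h1
  have e2 : Δ.next (Δ.next (Δ.next (Δ.rot h1))) = Δ.rot h1 := Δ.next_next_next _
  refine ⟨rfl, ?_, hb', rfl, ?_, rfl⟩
  · exact Δ.next.injective (by rw [e1, hb'])
  · exact Δ.next.injective (by rw [e2]; rfl)

theorem Two.bad {Δ : IdealTriangulation H T} {h1 h2 a b : H} (W : Two Δ h1 h2 a b) : Δ.Bad h1 := by
  unfold Bad rot
  rw [W.m3, W.n3]

theorem Two.rot1 {Δ : IdealTriangulation H T} {h1 h2 a b : H} (W : Two Δ h1 h2 a b) :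
    Δ.rot h1 = h2 := W.m3

theorem Two.rot2 {Δ : IdealTriangulation H T} {h1 h2 a b : H} (W : Two Δ h1 h2 a b) :
    Δ.rot h2 = h1 := W.n3

section two

variable {Δ} {h1 h2 a b : H}

theorem Two.ta (W : Two Δ h1 h2 a b) : Δ.tri a = Δ.tri h1 := by rw [← W.n1, Δ.tri_next]
theorem Two.tg2 (W : Two Δ h1 h2 a b) : Δ.tri (Δ.glue h2) = Δ.tri h1 := by
  rw [← W.n2, Δ.tri_next, W.ta]
theorem Two.tb (W : Two Δ h1 h2 a b) : Δ.tri b = Δ.tri h2 := by rw [← W.m1, Δ.tri_next]
theorem Two.tg1 (W : Two Δ h1 h2 a b) : Δ.tri (Δ.glue h1) = Δ.tri h2 := by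
  rw [← W.m2, Δ.tri_next, W.tb]
theorem Two.t12 (W : Two Δ h1 h2 a b) : Δ.tri h2 ≠ Δ.tri h1 := by
  rw [← W.tg1]; exact Δ.not_self_folded h1

theorem Two.cov1 (W : Two Δ h1 h2 a b) {x : H} (hx : Δ.tri x = Δ.tri h1) :
    x = h1 ∨ x = a ∨ x = Δ.glue h2 := by
  have := Δ.eq_of_tri_eq h1 x hx.symm
  rwa [W.n1, W.n2] at this

theorem Two.cov2 (W : Two Δ h1 h2 a b) {x : H} (hx : Δ.tri x = Δ.tri h2) :
    x = h2 ∨ x = b ∨ x = Δ.glue h1 := by
  have := Δ.eq_of_tri_eq h2 x hx.symm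
  rwa [W.m1, W.m2] at this

/-- the third triangle is different from the two triangles around the puncture -/
theorem Two.ga1 (W : Two Δ h1 h2 a b) : Δ.tri (Δ.glue a) ≠ Δ.tri h1 := by
  rw [← W.ta]; exact Δ.not_self_folded a

theorem Two.ga2 (W : Two Δ h1 h2 a b) (hab : Δ.glue a ≠ b) : Δ.tri (Δ.glue a) ≠ Δ.tri h2 := by
  intro e
  rcases W.cov2 e with h | h | h
  · have : a = Δ.glue h2 := by rw [← h, Δ.glue_glue]
    have h3 := W.n2
    rw [← this] at h3
    exact Δ.next_ne a h3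
  · exact hab h
  · have := Δ.glue.injective h
    have h3 := W.n1
    rw [this] at h3
    exact Δ.next_ne h1 h3

/-- general step: flip the side opposite to the puncture of valence two -/
theorem Two.general (W : Two Δ h1 h2 a b) (hab : Δ.glue a ≠ b)
    (hc : Δ.next (Δ.glue a) ≠ Δ.glue b) (hd : Δ.next (Δ.next (Δ.glue a)) ≠ Δ.glue b) :
    ∃ Δ' : IdealTriangulation H T, IsFlip Δ Δ' a ∧ (∀ x, Δ'.Bad x → Δ.Bad x) ∧ ¬ Δ'.Bad h1 := by
  have Q := Δ.quad a
  rw [W.n2, W.n3] at Q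
  set c := Δ.next (Δ.glue a) with hcdef
  set d := Δ.next c with hddef
  have hgg := Δ.glue_glue
  have f1 : c ≠ Δ.glue h1 := by
    intro e
    apply hab
    apply Δ.next.injective
    rw [← hcdef, e, W.m2]
  have f2 : Δ.glue h2 ≠ Δ.glue d := by
    intro e
    have e' := Δ.glue.injective e
    apply hab
    apply Δ.next.injective
    apply Δ.next.injective
    rw [← hcdef, ← hddef, ← e', W.m2, W.m3]
  obtain ⟨Δ', F⟩ := exists_qflip Q f1 f2
  have tb1 : Δ.tri b ≠ Δ.tri a := by rw [W.tb, W.ta]; exact W.t12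
  have tb2 : Δ.tri b ≠ Δ.tri (Δ.glue a) := by rw [W.tb]; exact (W.ga2 hab).symm
  have th1 : Δ.tri h2 ≠ Δ.tri a := by rw [W.ta]; exact W.t12
  have th2 : Δ.tri h2 ≠ Δ.tri (Δ.glue a) := (W.ga2 hab).symm
  refine ⟨Δ', F.isFlip Q, ?_, ?_⟩
  · intro x hx
    rcases F.bad Q hx with h | h | h
    · exact h
    · exfalso
      have e1 : Δ'.next b = Δ.glue h1 := by rw [F.next_other b tb1 tb2, W.m2]
      rw [← e1] at h
      unfold rot at h
      have := Δ'.next.injective h
      rw [F.glue_eq] at this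
      apply hc
      rw [← this, hgg]
    · exfalso
      unfold rot at h
      rw [F.glue_eq, hgg, F.next_other h2 th1 th2, W.m1] at h
      apply hd
      rw [h, hgg]
  · intro hbad
    unfold Bad rot at hbad
    have tg1 : Δ.tri (Δ.glue h1) ≠ Δ.tri a := by rw [W.tg1]; exact th1
    have tg1' : Δ.tri (Δ.glue h1) ≠ Δ.tri (Δ.glue a) := by rw [W.tg1]; exact th2
    rw [F.glue_eq, F.next_other _ tg1 tg1', W.m3, F.next_p] at hbad
    have := W.n1
    rw [hbad] at this
    exact Δ.next_ne _ this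

/-- special step, first kind -/
theorem Two.special1 (W : Two Δ h1 h2 a b) (hab : Δ.glue a ≠ b)
    (hc : Δ.next (Δ.glue a) = Δ.glue b) :
    ∃ (e : H) (Δ' : IdealTriangulation H T), IsFlip Δ Δ' e ∧ (∀ x, Δ'.Bad x → Δ.Bad x) ∧
      Two Δ' h1 h2 a b ∧ Δ'.glue a ≠ b ∧ Δ'.next (Δ'.glue a) ≠ Δ'.glue b ∧
      Δ'.next (Δ'.next (Δ'.glue a)) ≠ Δ'.glue b := by
  have hgg := Δ.glue_glue
  set c := Δ.next (Δ.glue a) with hcdef
  set d := Δ.next c with hddef
  have hnd : Δ.next d = Δ.glue a := by rw [hddef, hcdef]; exact Δ.next_next_next _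
  have tc : Δ.tri c = Δ.tri (Δ.glue a) := by rw [hcdef, Δ.tri_next]
  have td : Δ.tri d = Δ.tri (Δ.glue a) := by rw [hddef, Δ.tri_next, tc]
  have ga1 := W.ga1
  have ga2 := W.ga2 hab
  have t12 := W.t12
  have Q := Δ.quad d
  rw [hnd, ← hcdef] at Q
  set e := Δ.next (Δ.glue d) with hedef
  set g := Δ.next e with hgdef
  have te : Δ.tri e = Δ.tri (Δ.glue d) := by rw [hedef, Δ.tri_next]
  have tg : Δ.tri g = Δ.tri (Δ.glue d) := by rw [hgdef, Δ.tri_next, te]
  have hcd : d ≠ c := by rw [hddef]; exact Δ.next_ne c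
  -- tri (glue d) is not one of the two triangles
  have gd1 : Δ.tri (Δ.glue d) ≠ Δ.tri h1 := by
    intro h
    rcases W.cov1 h with h' | h' | h'
    · have : d = Δ.glue h1 := by rw [← h', hgg]
      rw [this, W.tg1] at td; exact ga2 td.symm
    · have : d = Δ.glue a := by rw [← h', hgg]
      have h3 := hnd; rw [this] at h3; exact Δ.next_ne _ h3
    · have := Δ.glue.injective h'
      rw [this] at td; exact ga2 td.symm
  have gd2 : Δ.tri (Δ.glue d) ≠ Δ.tri h2 := by
    intro h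
    rcases W.cov2 h with h' | h' | h'
    · have : d = Δ.glue h2 := by rw [← h', hgg]
      rw [this, W.tg2] at td; exact ga1 td.symm
    · have : d = Δ.glue b := by rw [← h', hgg]
      rw [← hc] at this; exact hcd this
    · have := Δ.glue.injective h'
      rw [this] at td; exact ga1 td.symm
  have f1 : e ≠ Δ.glue c := by
    intro h
    rw [hc, hgg] at h
    rw [h, W.tb] at te
    exact gd2 te.symm
  have f2 : Δ.glue a ≠ Δ.glue g := by
    intro h
    have := Δ.glue.injective h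
    rw [← this, W.ta] at tg
    exact gd1 tg.symm
  obtain ⟨Δ', F⟩ := exists_qflip Q f1 f2
  -- outside facts
  have o1 : ∀ x, Δ.tri x = Δ.tri h1 → Δ'.next x = Δ.next x := by
    intro x hx
    apply F.next_other
    · rw [hx, td]; exact ga1.symm
    · rw [hx]; exact gd1.symm
  have o2 : ∀ x, Δ.tri x = Δ.tri h2 → Δ'.next x = Δ.next x := by
    intro x hx
    apply F.next_other
    · rw [hx, td]; exact ga2.symm
    · rw [hx]; exact gd2.symm
  refine ⟨d, Δ', F.isFlip Q, ?_, ⟨?_, ?_, ?_, ?_, ?_, ?_⟩, ?_, ?_, ?_⟩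
  · intro x hx
    rcases F.bad Q hx with h | h | h
    · exact h
    · exfalso
      have e1 : Δ'.next h2 = Δ.glue c := by rw [o2 h2 rfl, W.m1, hc, hgg]
      rw [← e1] at h
      unfold rot at h
      have := Δ'.next.injective h
      rw [F.glue_eq] at this
      have h4 : e = Δ.glue h2 := by rw [← this, hgg]
      rw [h4, W.tg2] at te
      exact gd1 te.symm
    · exfalso
      unfold rot at h
      rw [F.glue_eq, hgg, o1 a W.ta, W.n2] at h
      have := Δ.glue.injective h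
      rw [← this] at tg
      exact gd2 tg.symm
  · rw [o1 h1 rfl, W.n1]
  · rw [F.glue_eq, o1 a W.ta, W.n2]
  · rw [F.glue_eq, o1 _ W.tg2, W.n3]
  · rw [o2 h2 rfl, W.m1]
  · rw [F.glue_eq, o2 b W.tb, W.m2]
  · rw [F.glue_eq, o2 _ W.tg1, W.m3]
  · rw [F.glue_eq]; exact hab
  · rw [F.glue_eq, F.next_p, ← hc]; exact hcd
  · rw [F.glue_eq, F.next_p, F.next_h, ← hc]
    apply Δ.ne_of_tri_ne
    rw [tg, tc, ← td]
    exact Δ.not_self_folded d

/-- special step, second kind -/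
theorem Two.special2 (W : Two Δ h1 h2 a b) (hab : Δ.glue a ≠ b)
    (hd : Δ.next (Δ.next (Δ.glue a)) = Δ.glue b) :
    ∃ (e : H) (Δ' : IdealTriangulation H T), IsFlip Δ Δ' e ∧ (∀ x, Δ'.Bad x → Δ.Bad x) ∧
      Two Δ' h1 h2 a b ∧ Δ'.glue a ≠ b ∧ Δ'.next (Δ'.glue a) ≠ Δ'.glue b ∧
      Δ'.next (Δ'.next (Δ'.glue a)) ≠ Δ'.glue b := by
  have hgg := Δ.glue_glue
  set c := Δ.next (Δ.glue a) with hcdef
  set d := Δ.next c with hddef
  have hnd : Δ.next d = Δ.glue a := by rw [hddef, hcdef]; exact Δ.next_next_next _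
  have tc : Δ.tri c = Δ.tri (Δ.glue a) := by rw [hcdef, Δ.tri_next]
  have td : Δ.tri d = Δ.tri (Δ.glue a) := by rw [hddef, Δ.tri_next, tc]
  have ga1 := W.ga1
  have ga2 := W.ga2 hab
  have t12 := W.t12
  have Q := Δ.quad c
  rw [← hddef, hnd] at Q
  set e := Δ.next (Δ.glue c) with hedef
  set g := Δ.next e with hgdef
  have te : Δ.tri e = Δ.tri (Δ.glue c) := by rw [hedef, Δ.tri_next]
  have tg : Δ.tri g = Δ.tri (Δ.glue c) := by rw [hgdef, Δ.tri_next, te]
  have hcd : d ≠ c := by rw [hddef]; exact Δ.next_ne c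
  have gc1 : Δ.tri (Δ.glue c) ≠ Δ.tri h1 := by
    intro h
    rcases W.cov1 h with h' | h' | h'
    · have : c = Δ.glue h1 := by rw [← h', hgg]
      rw [this, W.tg1] at tc; exact ga2 tc.symm
    · have : c = Δ.glue a := by rw [← h', hgg]
      have h3 := hcdef; rw [this] at h3; exact Δ.next_ne _ h3.symm
    · have := Δ.glue.injective h'
      rw [this] at tc; exact ga2 tc.symm
  have gc2 : Δ.tri (Δ.glue c) ≠ Δ.tri h2 := by
    intro h
    rcases W.cov2 h with h' | h' | h'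
    · have : c = Δ.glue h2 := by rw [← h', hgg]
      rw [this, W.tg2] at tc; exact ga1 tc.symm
    · have : c = Δ.glue b := by rw [← h', hgg]
      rw [← hd] at this; exact hcd this.symm
    · have := Δ.glue.injective h'
      rw [this] at tc; exact ga1 tc.symm
  have f1 : e ≠ Δ.glue (Δ.glue a) := by
    intro h
    rw [hgg] at h
    rw [h, W.ta] at te
    exact gc1 te.symm
  have f2 : d ≠ Δ.glue g := by
    intro h
    have h3 : g = b := by
      have := congrArg Δ.glue h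
      rw [hgg, hd, hgg] at this
      exact this.symm
    rw [h3, W.tb] at tg
    exact gc2 tg.symm
  obtain ⟨Δ', F⟩ := exists_qflip Q f1 f2
  have o1 : ∀ x, Δ.tri x = Δ.tri h1 → Δ'.next x = Δ.next x := by
    intro x hx
    apply F.next_other
    · rw [hx, tc]; exact ga1.symm
    · rw [hx]; exact gc1.symm
  have o2 : ∀ x, Δ.tri x = Δ.tri h2 → Δ'.next x = Δ.next x := by
    intro x hx
    apply F.next_other
    · rw [hx, tc]; exact ga2.symm
    · rw [hx]; exact gc2.symm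
  refine ⟨c, Δ', F.isFlip Q, ?_, ⟨?_, ?_, ?_, ?_, ?_, ?_⟩, ?_, ?_, ?_⟩
  · intro x hx
    rcases F.bad Q hx with h | h | h
    · exact h
    · exfalso
      have e1 : Δ'.next h1 = Δ.glue (Δ.glue a) := by rw [o1 h1 rfl, W.n1, hgg]
      rw [← e1] at h
      unfold rot at h
      have := Δ'.next.injective h
      rw [F.glue_eq] at this
      have h4 : e = Δ.glue h1 := by rw [← this, hgg]
      rw [h4, W.tg1] at te
      exact gc2 te.symm
    · exfalso
      unfold rot at h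
      rw [F.glue_eq, hd, hgg, o2 b W.tb, W.m2] at h
      have := Δ.glue.injective h
      rw [← this] at tg
      exact gc1 tg.symm
  · rw [o1 h1 rfl, W.n1]
  · rw [F.glue_eq, o1 a W.ta, W.n2]
  · rw [F.glue_eq, o1 _ W.tg2, W.n3]
  · rw [o2 h2 rfl, W.m1]
  · rw [F.glue_eq, o2 b W.tb, W.m2]
  · rw [F.glue_eq, o2 _ W.tg1, W.m3]
  · rw [F.glue_eq]; exact hab
  · rw [F.glue_eq, F.next_q, ← hd]
    apply Δ.ne_of_tri_ne
    rw [te, td, ← tc]
    exact Δ.not_self_folded c
  · rw [F.glue_eq, F.next_q, F.next_p', ← hd]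
    apply Δ.ne_of_tri_ne
    rw [td, ← tc]
    exact Δ.not_self_folded c

end two

end IdealTriangulation

section orbits

variable {α : Type} [Fintype α] [DecidableEq α]

open Equiv.Perm

theorem two_mul_orbits_iff (f : Equiv.Perm α) (hf : ∀ x, f x ≠ x) :
    2 * Nat.card (Quotient (SameCycle.setoid f)) = Fintype.card α ↔ ∀ x, f (f x) = x := by
  classical
  letI : DecidableRel (SameCycle.setoid f).r := Classical.decRel _
  set Q := Quotient (SameCycle.setoid f) with hQ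
  haveI : Fintype Q := Quotient.fintype _
  have hsum : Fintype.card α = ∑ q : Q, (Finset.univ.filter (fun x => (⟦x⟧ : Q) = q)).card := by
    rw [← Finset.card_univ]
    exact Finset.card_eq_sum_card_fiberwise (fun _ _ => Finset.mem_coe.mpr (Finset.mem_univ _))
  have hmk : ∀ x, (⟦f x⟧ : Q) = ⟦x⟧ := by
    intro x
    apply Quotient.sound
    exact (SameCycle.refl f (f x)).symm.trans (sameCycle_apply_left.mpr (SameCycle.refl f x))
  have h2 : ∀ q : Q, 2 ≤ (Finset.univ.filter (fun x => (⟦x⟧ : Q) = q)).card := by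
    intro q
    obtain ⟨x, rfl⟩ := Quotient.exists_rep q
    have : ({x, f x} : Finset α) ⊆ Finset.univ.filter (fun y => (⟦y⟧ : Q) = ⟦x⟧) := by
      intro y hy
      simp only [Finset.mem_insert, Finset.mem_singleton] at hy
      rw [Finset.mem_filter]
      refine ⟨Finset.mem_univ _, ?_⟩
      rcases hy with rfl | rfl
      · rfl
      · exact hmk x
    calc 2 = ({x, f x} : Finset α).card := by rw [Finset.card_pair (hf x).symm]
      _ ≤ _ := Finset.card_le_card this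
  have hcardQ : Nat.card Q = Fintype.card Q := Nat.card_eq_fintype_card
  rw [hcardQ]
  constructor
  · intro h x
    by_contra hx
    have h3 : 3 ≤ (Finset.univ.filter (fun y => (⟦y⟧ : Q) = ⟦x⟧)).card := by
      have hsub : ({x, f x, f (f x)} : Finset α) ⊆
          Finset.univ.filter (fun y => (⟦y⟧ : Q) = ⟦x⟧) := by
        intro y hy
        simp only [Finset.mem_insert, Finset.mem_singleton] at hy
        rw [Finset.mem_filter]
        refine ⟨Finset.mem_univ _, ?_⟩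
        rcases hy with rfl | rfl | rfl
        · rfl
        · exact hmk x
        · rw [hmk, hmk]
      calc 3 = ({x, f x, f (f x)} : Finset α).card := by
            rw [Finset.card_insert_of_notMem, Finset.card_pair (hf (f x)).symm]
            simp only [Finset.mem_insert, Finset.mem_singleton, not_or]
            exact ⟨(hf x).symm, fun e => hx e.symm⟩
        _ ≤ _ := Finset.card_le_card hsub
    have : ∑ q : Q, 2 < ∑ q : Q, (Finset.univ.filter (fun x => (⟦x⟧ : Q) = q)).card := by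
      apply Finset.sum_lt_sum
      · intro q _; exact h2 q
      · exact ⟨⟦x⟧, Finset.mem_univ _, h3⟩
    rw [← hsum, Finset.sum_const, Finset.card_univ, smul_eq_mul] at this
    omega
  · intro h
    have hk : ∀ x y : α, SameCycle f x y → y = x ∨ y = f x := by
      intro x y hxy
      obtain ⟨n, hn, rfl⟩ := hxy.exists_pow_eq'
      clear hn hxy
      induction n with
      | zero => left; rfl
      | succ n ih =>
        rw [pow_succ', Equiv.Perm.mul_apply]
        rcases ih with h1 | h1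
        · right; rw [h1]
        · left; rw [h1, h]
    have h2' : ∀ q : Q, (Finset.univ.filter (fun x => (⟦x⟧ : Q) = q)).card = 2 := by
      intro q
      obtain ⟨x, rfl⟩ := Quotient.exists_rep q
      have : Finset.univ.filter (fun y => (⟦y⟧ : Q) = ⟦x⟧) = {x, f x} := by
        ext y
        simp only [Finset.mem_filter, Finset.mem_univ, true_and, Finset.mem_insert,
          Finset.mem_singleton]
        constructor
        · intro hy
          exact hk x y (Quotient.exact hy).symm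
        · rintro (rfl | rfl)
          · rfl
          · exact hmk x
      rw [this, Finset.card_pair (hf x).symm]
    rw [hsum, Finset.sum_congr rfl (fun q _ => h2' q), Finset.sum_const, Finset.card_univ,
      smul_eq_mul]
    ring

end orbits

namespace IdealTriangulation

variable {H T : Type} (Δ : IdealTriangulation H T)

variable [Fintype H] [DecidableEq H] [Fintype T] [DecidableEq T]

theorem two_mul_numEdges : 2 * Δ.numEdges = Fintype.card H := by
  unfold numEdges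
  rw [two_mul_orbits_iff Δ.glue Δ.glue_ne]
  exact Δ.glue_glue

include Δ in
theorem card_H : Fintype.card H = 3 * Fintype.card T := by
  have hsum : Fintype.card H = ∑ t : T, (Finset.univ.filter (fun x => Δ.tri x = t)).card := by
    rw [← Finset.card_univ]
    exact Finset.card_eq_sum_card_fiberwise (fun _ _ => Finset.mem_coe.mpr (Finset.mem_univ _))
  have h3 : ∀ t : T, (Finset.univ.filter (fun x => Δ.tri x = t)).card = 3 := by
    intro t
    obtain ⟨h, rfl⟩ := Δ.tri_surjective t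
    have : Finset.univ.filter (fun x => Δ.tri x = Δ.tri h) =
        {h, Δ.next h, Δ.next (Δ.next h)} := by
      ext x
      simp only [Finset.mem_filter, Finset.mem_univ, true_and, Finset.mem_insert,
        Finset.mem_singleton]
      constructor
      · intro hx; exact Δ.eq_of_tri_eq h x hx.symm
      · rintro (rfl | rfl | rfl)
        · rfl
        · exact Δ.tri_next h
        · exact Δ.tri_next_next h
    rw [this, Finset.card_insert_of_notMem, Finset.card_pair (Δ.next_ne _).symm]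
    simp only [Finset.mem_insert, Finset.mem_singleton, not_or]
    exact ⟨(Δ.next_ne h).symm, (Δ.next_next_ne h).symm⟩
  rw [hsum, Finset.sum_congr rfl (fun t _ => h3 t), Finset.sum_const, Finset.card_univ,
    smul_eq_mul]
  ring

theorem two_mul_numPunctures_iff :
    2 * Δ.numPunctures = Fintype.card H ↔ ∀ x, Δ.Bad x := by
  unfold numPunctures
  rw [two_mul_orbits_iff (Δ.next * Δ.glue) (fun x => Δ.rot_ne x)]
  rfl

theorem IsThricePuncturedSphere.bad {Δ : IdealTriangulation H T}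
    (h : Δ.IsThricePuncturedSphere) : ∀ x, Δ.Bad x := by
  rw [← Δ.two_mul_numPunctures_iff]
  obtain ⟨h1, h2⟩ := h
  have h3 := Δ.two_mul_numEdges
  have h4 := Δ.card_H
  unfold eulerChar at h1
  rw [Nat.card_eq_fintype_card] at h1
  omega

theorem isThricePuncturedSphere_of_two {h1 h2 a b : H} (W : Two Δ h1 h2 a b)
    (hab : Δ.glue a = b) (hc : Δ.Connected) : Δ.IsThricePuncturedSphere := by
  have hgg := Δ.glue_glue
  have hba : Δ.glue b = a := by rw [← hab, hgg]
  have hS : ({h1, a, Δ.glue h2, h2, b, Δ.glue h1} : Set H) = Set.univ := by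
    apply hc.2
    · exact ⟨h1, by simp⟩
    · intro x hx
      simp only [Set.mem_insert_iff, Set.mem_singleton_iff] at hx ⊢
      rcases hx with rfl | rfl | rfl | rfl | rfl | rfl
      · exact ⟨by simp, by rw [W.n1]; simp⟩
      · exact ⟨by rw [hab]; simp, by rw [W.n2]; simp⟩
      · exact ⟨by rw [hgg]; simp, by rw [W.n3]; simp⟩
      · exact ⟨by simp, by rw [W.m1]; simp⟩
      · exact ⟨by rw [hba]; simp, by rw [W.m2]; simp⟩
      · exact ⟨by rw [hgg]; simp, by rw [W.m3]; simp⟩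
  have hall : ∀ x, x = h1 ∨ x = a ∨ x = Δ.glue h2 ∨ x = h2 ∨ x = b ∨ x = Δ.glue h1 := by
    intro x
    have : x ∈ ({h1, a, Δ.glue h2, h2, b, Δ.glue h1} : Set H) := by rw [hS]; trivial
    simpa using this
  have hbad : ∀ x, Δ.Bad x := by
    intro x
    unfold Bad rot
    rcases hall x with rfl | rfl | rfl | rfl | rfl | rfl
    · rw [W.m3, W.n3]
    · rw [hab, W.m2, hgg, W.n1]
    · rw [hgg, W.m1, hba, W.n2]
    · rw [W.n3, W.m3]
    · rw [hba, W.n2, hgg, W.m1]
    · rw [hgg, W.n1, hab, W.m2]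
  have hT : Fintype.card T = 2 := by
    have : (Finset.univ : Finset T) = {Δ.tri h1, Δ.tri h2} := by
      ext t
      simp only [Finset.mem_univ, Finset.mem_insert, Finset.mem_singleton, true_iff]
      obtain ⟨x, rfl⟩ := Δ.tri_surjective t
      rcases hall x with rfl | rfl | rfl | rfl | rfl | rfl
      · left; rfl
      · left; exact W.ta
      · left; exact W.tg2
      · right; rfl
      · right; exact W.tb
      · right; exact W.tg1
    rw [← Finset.card_univ, this, Finset.card_pair W.t12.symm]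
  have h3 := Δ.two_mul_numEdges
  have h4 := Δ.card_H
  have h5 := Δ.two_mul_numPunctures_iff.mpr hbad
  refine ⟨?_, by omega⟩
  unfold eulerChar
  rw [Nat.card_eq_fintype_card]
  omega

/-- connectedness is preserved by flips -/
theorem QFlip.connected {Δ Δ' : IdealTriangulation H T} {h p q h' p' q' : H}
    (Q : Quad Δ h p q h' p' q') (F : QFlip Δ Δ' h p q h' p' q') (hc : Δ.Connected) :
    Δ'.Connected := by
  refine ⟨hc.1, fun S hS hcl => hc.2 S hS ?_⟩
  intro x hx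
  have hg : ∀ y ∈ S, Δ.glue y ∈ S := fun y hy => by
    have := (hcl y hy).1
    rwa [F.glue_eq] at this
  have hn : ∀ y ∈ S, Δ'.next y ∈ S := fun y hy => (hcl y hy).2
  refine ⟨hg x hx, ?_⟩
  -- if one of the six sides is in S then all are
  have c1 : h ∈ S → q' ∈ S := fun e => by rw [← F.next_h]; exact hn _ e
  have c2 : q' ∈ S → p ∈ S := fun e => by rw [← F.next_q']; exact hn _ e
  have c3 : p ∈ S → h ∈ S := fun e => by rw [← F.next_p]; exact hn _ e
  have c4 : h' ∈ S → q ∈ S := fun e => by rw [← F.next_h']; exact hn _ e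
  have c5 : q ∈ S → p' ∈ S := fun e => by rw [← F.next_q]; exact hn _ e
  have c6 : p' ∈ S → h' ∈ S := fun e => by rw [← F.next_p']; exact hn _ e
  have c7 : h ∈ S → h' ∈ S := fun e => by rw [← Q.glue_h]; exact hg _ e
  have c8 : h' ∈ S → h ∈ S := fun e => by rw [← Q.glue_h']; exact hg _ e
  rcases Q.cases x with rfl | rfl | rfl | rfl | rfl | rfl | ⟨h1, h2⟩
  · rw [Q.nh]; exact c2 (c1 hx)
  · rw [Q.np]; exact c4 (c7 (c3 hx))
  · rw [Q.nq]; exact c8 (c6 (c5 hx))
  · rw [Q.nh']; exact c5 (c4 hx)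
  · rw [Q.np']; exact c1 (c8 (c6 hx))
  · rw [Q.nq']; exact c7 (c3 (c2 hx))
  · rw [← F.next_other x h1 h2]; exact hn x hx

/-- the new diagonal is not at a valence two puncture -/
theorem QFlip.not_all_bad {Δ Δ' : IdealTriangulation H T} {h p q h' p' q' : H}
    (Q : Quad Δ h p q h' p' q') (F : QFlip Δ Δ' h p q h' p' q') : ¬ Δ'.Bad h := by
  intro hb
  unfold Bad rot at hb
  rw [F.glue_eq, Q.glue_h, F.next_h'] at hb
  have h1 : Δ'.next p = h := F.next_p
  have h2 : Δ.glue q = p := Δ'.next.injective (by rw [hb, h1])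
  have := Δ.not_self_folded q
  rw [h2, Q.tp, Q.tq] at this
  exact this rfl

/-- no flips are possible out of a triangulation all of whose punctures have valence two -/
theorem IsFlip.false_of_bad {Δ Δ' : IdealTriangulation H T} {h : H} (F : IsFlip Δ Δ' h)
    (hb : ∀ x, Δ.Bad x) : False := by
  have Q := Δ.quad h
  have F' := F.qflip
  set p := Δ.next h
  set q := Δ.next p
  set h' := Δ.glue h
  set p' := Δ.next h'
  set q' := Δ.next p'
  have h1 := hb h
  unfold Bad rot at h1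
  -- next (glue p') = h hence glue p' = q
  have h2 : Δ.glue p' = q := Δ.next.injective (by rw [Q.nq]; exact h1)
  have h3 := Δ'.not_self_folded p'
  rw [F'.glue_eq, h2, F'.tri_q, F'.tri_other p' Q.p'q Q.pq'.symm, Q.tp'] at h3
  exact h3 rfl

/-- all sides flippable if there is no puncture of valence two -/
theorem flippable_of_not_bad (hb : ∀ x, ¬ Δ.Bad x) (h : H) : Δ.Flippable h := by
  have Q := Δ.quad h
  constructor
  · intro e
    apply hb h
    unfold Bad rot
    rw [e, Δ.glue_glue, Q.nq]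
  · intro e
    apply hb (Δ.glue h)
    unfold Bad rot
    rw [Δ.glue_glue, e, Δ.glue_glue, Q.nq']

end IdealTriangulation

namespace IdealTriangulation

variable {H T : Type} (Δ : IdealTriangulation H T)

variable [DecidableEq H] [DecidableEq T]

theorem exchange_skew (v w : H ⊕ T) : Δ.exchange v w = - Δ.exchange w v := by
  rcases v with a | s <;> rcases w with b | t <;> simp [exchange]

end IdealTriangulation

section mutsec

variable {V : Type} [DecidableEq V]

/-- indicator function of `a` -/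
def ind (a v : V) : ℤ := if v = a then 1 else 0

/-- matrix with a single arrow `a → b` -/
def ar (a b v w : V) : ℤ := ind a v * ind b w - ind b v * ind a w

@[simp] theorem ind_self (a : V) : ind a a = 1 := by simp [ind]

theorem ind_ne {a v : V} (h : v ≠ a) : ind a v = 0 := by simp [ind, h]

/-- mutation of an exchange matrix at a vertex with two incoming and two outgoing arrows -/
theorem mutate_ε_four (s : Seed V) (hs : s.Skew) {k a1 a2 b1 b2 : V}
    (hcol : ∀ i, s.ε i k = ind a1 i + ind a2 i - ind b1 i - ind b2 i)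
    (h1 : a1 ≠ k) (h2 : a2 ≠ k) (h3 : b1 ≠ k) (h4 : b2 ≠ k)
    (h5 : a1 ≠ a2) (h6 : b1 ≠ b2) (h7 : a1 ≠ b1) (h8 : a1 ≠ b2) (h9 : a2 ≠ b1) (h10 : a2 ≠ b2)
    (v w : V) : (s.mutate k).ε v w = s.ε v w
      - 2 * (ar a1 k v w + ar a2 k v w + ar k b1 v w + ar k b2 v w)
      + (ar a1 b1 v w + ar a1 b2 v w + ar a2 b1 v w + ar a2 b2 v w) := by
  have hrow : ∀ i, s.ε k i = - (ind a1 i + ind a2 i - ind b1 i - ind b2 i) := by
    intro i; rw [hs k i, hcol]
  have hmax : ∀ i, max (ind a1 i + ind a2 i - ind b1 i - ind b2 i) 0 = ind a1 i + ind a2 i := by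
    intro i
    by_cases e1 : i = a1
    · subst e1; simp [ind_ne h5, ind_ne h7, ind_ne h8]
    by_cases e2 : i = a2
    · subst e2; simp [ind_ne h5.symm, ind_ne h9, ind_ne h10]
    by_cases e3 : i = b1
    · subst e3; simp [ind_ne h7.symm, ind_ne h9.symm, ind_ne h6]
    by_cases e4 : i = b2
    · subst e4; simp [ind_ne h8.symm, ind_ne h10.symm, ind_ne h6.symm]
    simp [ind_ne e1, ind_ne e2, ind_ne e3, ind_ne e4]
  have hmin : ∀ i, max (-(ind a1 i + ind a2 i - ind b1 i - ind b2 i)) 0 = ind b1 i + ind b2 i := by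
    intro i
    by_cases e1 : i = a1
    · subst e1; simp [ind_ne h5, ind_ne h7, ind_ne h8]
    by_cases e2 : i = a2
    · subst e2; simp [ind_ne h5.symm, ind_ne h9, ind_ne h10]
    by_cases e3 : i = b1
    · subst e3; simp [ind_ne h7.symm, ind_ne h9.symm, ind_ne h6]
    by_cases e4 : i = b2
    · subst e4; simp [ind_ne h8.symm, ind_ne h10.symm, ind_ne h6.symm]
    simp [ind_ne e1, ind_ne e2, ind_ne e3, ind_ne e4]
  by_cases hv : v = k
  · subst hv
    rw [Seed.mutate_ε_left, hrow]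
    simp only [ar, ind_self, ind_ne h1.symm, ind_ne h2.symm, ind_ne h3.symm, ind_ne h4.symm]
    ring
  · by_cases hw : w = k
    · subst hw
      rw [Seed.mutate_ε_right, hcol]
      simp only [ar, ind_self, ind_ne h1.symm, ind_ne h2.symm, ind_ne h3.symm, ind_ne h4.symm]
      ring
    · rw [Seed.mutate_ε_of_ne _ hv hw, hcol v, hrow w, neg_neg, hmax, hmin, hmax, hmin]
      simp only [ar, ind_ne hv, ind_ne hw]
      ring

end mutsec

namespace IdealTriangulation

variable {H T : Type} [DecidableEq H] [DecidableEq T] {Δ Δ' : IdealTriangulation H T}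
  {h p q h' p' q' : H}

theorem ind_inl_glue (Δ : IdealTriangulation H T) (x a : H) :
    ind (inl (Δ.glue x) : H ⊕ T) (inl a) = ind (inl x : H ⊕ T) (inl (Δ.glue a)) := by
  unfold ind
  have : (inl a : H ⊕ T) = inl (Δ.glue x) ↔ (inl (Δ.glue a) : H ⊕ T) = inl x := by
    rw [Sum.inl.injEq, Sum.inl.injEq]
    constructor
    · rintro rfl; exact Δ.glue_glue x
    · rintro rfl; exact (Δ.glue_glue a).symm
  simp only [this]

theorem ind_tri (Q : Quad Δ h p q h' p' q') (a : H) :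
    (if Δ.tri a = Δ.tri h then (1 : ℤ) else 0) =
      ind (inl h : H ⊕ T) (inl a) + ind (inl p : H ⊕ T) (inl a) + ind (inl q : H ⊕ T) (inl a) := by
  unfold ind
  simp only [Sum.inl.injEq]
  by_cases e : Δ.tri a = Δ.tri h
  · rw [if_pos e]
    rcases Q.cover a e with rfl | rfl | rfl
    · simp [Q.hp.symm, Q.hq.symm]
    · simp [Q.hp, Q.pq.symm]
    · simp [Q.hq, Q.pq]
  · rw [if_neg e]
    have a1 : a ≠ h := by rintro rfl; exact e rfl
    have a2 : a ≠ p := by rintro rfl; exact e Q.tp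
    have a3 : a ≠ q := by rintro rfl; exact e Q.tq
    simp [a1, a2, a3]

theorem col0 (Q : Quad Δ h p q h' p' q') (i : H ⊕ T) :
    Δ.exchange i (inl h) =
    ind (inr (Δ.tri h)) i + ind (inl p') i - ind (inr (Δ.tri h')) i - ind (inl (Δ.glue q)) i := by
  rcases i with a | s
  · simp only [exchange, Q.glue_h, Q.nh']
    rw [ind_inl_glue]
    have e : (h = Δ.next (Δ.glue a)) ↔ (Δ.glue a = q) := by
      rw [← Q.nq]
      constructor
      · intro e; exact (Δ.next.injective e).symm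
      · rintro rfl; rfl
    unfold ind
    simp only [Sum.inl.injEq, e, reduceCtorEq, if_false]
    ring
  · simp only [exchange, Q.glue_h]
    unfold ind
    simp only [Sum.inr.injEq, reduceCtorEq, if_false, eq_comm]
    ring

theorem colt (Q : Quad Δ h p q h' p' q') (i : H ⊕ T) :
    Δ.exchange i (inr (Δ.tri h)) =
    (ind (inl h') i + ind (inl (Δ.glue p)) i + ind (inl (Δ.glue q)) i)
    - (ind (inl h) i + ind (inl p) i + ind (inl q) i) := by
  rcases i with a | s
  · simp only [exchange]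
    rw [ind_tri Q, ind_tri Q, ind_inl_glue, ind_inl_glue]
    have : ind (inl h' : H ⊕ T) (inl a) = ind (inl h : H ⊕ T) (inl (Δ.glue a)) := by
      rw [← Q.glue_h, ind_inl_glue]
    rw [this]
  · simp [exchange, ind]


section steps

variable (Q : Quad Δ h p q h' p' q') (hf1 : p' ≠ Δ.glue q) (hf2 : p ≠ Δ.glue q')
  (x : H ⊕ T → RatFun (H ⊕ T))

theorem seed_skew (Δ : IdealTriangulation H T) (x : H ⊕ T → RatFun (H ⊕ T)) : (Δ.seed x).Skew :=
  Δ.exchange_skew

theorem glue_q_ne_h' (Q : Quad Δ h p q h' p' q') : Δ.glue q ≠ h' := by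
  intro e
  have := congrArg Δ.glue e
  rw [Δ.glue_glue, Q.glue_h'] at this
  exact Q.hq this

theorem glue_p_ne_h' (Q : Quad Δ h p q h' p' q') : Δ.glue p ≠ h' := by
  intro e
  have := congrArg Δ.glue e
  rw [Δ.glue_glue, Q.glue_h'] at this
  exact Q.hp this

theorem glue_q_ne_h (Q : Quad Δ h p q h' p' q') : Δ.glue q ≠ h := by
  intro e
  have := congrArg Δ.glue e
  rw [Δ.glue_glue, Q.glue_h] at this
  exact Q.h'q this.symm

theorem glue_p_ne_h (Q : Quad Δ h p q h' p' q') : Δ.glue p ≠ h := by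
  intro e
  have := congrArg Δ.glue e
  rw [Δ.glue_glue, Q.glue_h] at this
  exact Q.h'p this.symm

theorem glue_p_ne_q (Q : Quad Δ h p q h' p' q') : Δ.glue p ≠ q := by
  apply Δ.ne_of_tri_ne
  rw [Q.tq, ← Q.tp]; exact Δ.not_self_folded p

noncomputable abbrev S1 (Δ : IdealTriangulation H T) (x : H ⊕ T → RatFun (H ⊕ T)) (h : H) : Seed (H ⊕ T) :=
  (Δ.seed x).mutate (inl h)
noncomputable abbrev S2 (Δ : IdealTriangulation H T) (x : H ⊕ T → RatFun (H ⊕ T)) (h h' : H) : Seed (H ⊕ T) :=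
  (S1 Δ x h).mutate (inl h')
noncomputable abbrev S3 (Δ : IdealTriangulation H T) (x : H ⊕ T → RatFun (H ⊕ T)) (h h' : H) : Seed (H ⊕ T) :=
  (S2 Δ x h h').mutate (inr (Δ.tri h))
noncomputable abbrev S4 (Δ : IdealTriangulation H T) (x : H ⊕ T → RatFun (H ⊕ T)) (h h' : H) : Seed (H ⊕ T) :=
  (S3 Δ x h h').mutate (inr (Δ.tri h'))

include Q hf1

theorem eq1 (v w : H ⊕ T) : (S1 Δ x h).ε v w = Δ.exchange v w
      - 2 * (ar (inr (Δ.tri h)) (inl h) v w + ar (inl p') (inl h) v w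
        + ar (inl h) (inr (Δ.tri h')) v w + ar (inl h) (inl (Δ.glue q)) v w)
      + (ar (inr (Δ.tri h)) (inr (Δ.tri h')) v w + ar (inr (Δ.tri h)) (inl (Δ.glue q)) v w
        + ar (inl p') (inr (Δ.tri h')) v w + ar (inl p') (inl (Δ.glue q)) v w) := by
  apply mutate_ε_four (Δ.seed x) (Δ.seed_skew x)
  · intro i; exact col0 Q i
  · simp
  · simpa using Q.p'h
  · simp
  · simpa using glue_q_ne_h Q
  · simp
  · simp
  · simpa using Q.tt'.symm
  · simp
  · simp
  · simpa using hf1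

theorem col1 (i : H ⊕ T) : (S1 Δ x h).ε i (inl h') =
    ind (inr (Δ.tri h')) i + ind (inl p) i - ind (inr (Δ.tri h)) i
      - ind (inl (Δ.glue q')) i := by
  rw [eq1 Q hf1, col0 Q.symm]
  have e1 : ind (inl h : H ⊕ T) (inl h') = 0 := ind_ne (by simpa using Q.hh)
  have e2 : ind (inr (Δ.tri h') : H ⊕ T) (inl h') = 0 := ind_ne (by simp)
  have e3 : ind (inl (Δ.glue q) : H ⊕ T) (inl h') = 0 :=
    ind_ne (by simpa using (glue_q_ne_h' Q).symm)
  have e4 : ind (inr (Δ.tri h) : H ⊕ T) (inl h') = 0 := ind_ne (by simp)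
  have e5 : ind (inl p' : H ⊕ T) (inl h') = 0 := ind_ne (by simpa using Q.hp'.symm)
  simp only [ar, e1, e2, e3, e4, e5]
  ring

include hf2

theorem eq2 (v w : H ⊕ T) : (S2 Δ x h h').ε v w = (S1 Δ x h).ε v w
      - 2 * (ar (inr (Δ.tri h')) (inl h') v w + ar (inl p) (inl h') v w
        + ar (inl h') (inr (Δ.tri h)) v w + ar (inl h') (inl (Δ.glue q')) v w)
      + (ar (inr (Δ.tri h')) (inr (Δ.tri h)) v w + ar (inr (Δ.tri h')) (inl (Δ.glue q')) v w
        + ar (inl p) (inr (Δ.tri h)) v w + ar (inl p) (inl (Δ.glue q')) v w) := by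
  apply mutate_ε_four (S1 Δ x h) ((Δ.seed_skew x).mutate _)
  · intro i; exact col1 Q hf1 x i
  · simp
  · simpa using Q.h'p.symm
  · simp
  · simpa using glue_q_ne_h Q.symm
  · simp
  · simp
  · simpa using Q.tt'
  · simp
  · simp
  · simpa using hf2

theorem col2 (i : H ⊕ T) : (S2 Δ x h h').ε i (inr (Δ.tri h)) =
    ind (inl h) i + ind (inl (Δ.glue p)) i - ind (inl h') i - ind (inl q) i := by
  rw [eq2 Q hf1 hf2, eq1 Q hf1, colt Q]
  have e4 : ind (inr (Δ.tri h') : H ⊕ T) (inr (Δ.tri h)) = 0 := ind_ne (by simpa using Q.tt'.symm)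
  have e5 : ∀ y : H, ind (inl y : H ⊕ T) (inr (Δ.tri h)) = 0 := fun y => ind_ne (by simp)
  simp only [ar, ind_self, e4, e5]
  ring

theorem eq3 (v w : H ⊕ T) : (S3 Δ x h h').ε v w = (S2 Δ x h h').ε v w
      - 2 * (ar (inl h) (inr (Δ.tri h)) v w + ar (inl (Δ.glue p)) (inr (Δ.tri h)) v w
        + ar (inr (Δ.tri h)) (inl h') v w + ar (inr (Δ.tri h)) (inl q) v w)
      + (ar (inl h) (inl h') v w + ar (inl h) (inl q) v w
        + ar (inl (Δ.glue p)) (inl h') v w + ar (inl (Δ.glue p)) (inl q) v w) := by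
  apply mutate_ε_four (S2 Δ x h h') (((Δ.seed_skew x).mutate _).mutate _)
  · intro i; exact col2 Q hf1 hf2 x i
  · simp
  · simp
  · simp
  · simp
  · simpa using (glue_p_ne_h Q).symm
  · simpa using Q.h'q
  · simpa using Q.hh.symm
  · simpa using Q.hq.symm
  · simpa using glue_p_ne_h' Q
  · simpa using glue_p_ne_q Q

theorem col3 (i : H ⊕ T) : (S3 Δ x h h').ε i (inr (Δ.tri h')) =
    ind (inl h') i + ind (inl (Δ.glue p')) i - ind (inl h) i - ind (inl q') i := by
  rw [eq3 Q hf1 hf2, eq2 Q hf1 hf2, eq1 Q hf1, colt Q.symm]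
  have e4 : ind (inr (Δ.tri h) : H ⊕ T) (inr (Δ.tri h')) = 0 := ind_ne (by simpa using Q.tt')
  have e5 : ∀ y : H, ind (inl y : H ⊕ T) (inr (Δ.tri h')) = 0 := fun y => ind_ne (by simp)
  simp only [ar, ind_self, e4, e5]
  ring

theorem eq4 (v w : H ⊕ T) : (S4 Δ x h h').ε v w = (S3 Δ x h h').ε v w
      - 2 * (ar (inl h') (inr (Δ.tri h')) v w + ar (inl (Δ.glue p')) (inr (Δ.tri h')) v w
        + ar (inr (Δ.tri h')) (inl h) v w + ar (inr (Δ.tri h')) (inl q') v w)
      + (ar (inl h') (inl h) v w + ar (inl h') (inl q') v w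
        + ar (inl (Δ.glue p')) (inl h) v w + ar (inl (Δ.glue p')) (inl q') v w) := by
  apply mutate_ε_four (S3 Δ x h h') ((((Δ.seed_skew x).mutate _).mutate _).mutate _)
  · intro i; exact col3 Q hf1 hf2 x i
  · simp
  · simp
  · simp
  · simp
  · simpa using (glue_p_ne_h Q.symm).symm
  · simpa using Q.q'h.symm
  · simpa using Q.hh
  · simpa using Q.hq'.symm
  · simpa using glue_p_ne_h' Q.symm
  · simpa using glue_p_ne_q Q.symm

/-- the exchange matrix after the four mutations -/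
theorem eqAll (v w : H ⊕ T) : (S4 Δ x h h').ε v w = Δ.exchange v w
      - 2 * (ar (inr (Δ.tri h)) (inl h) v w + ar (inl p') (inl h) v w
        + ar (inl h) (inr (Δ.tri h')) v w + ar (inl h) (inl (Δ.glue q)) v w)
      + (ar (inr (Δ.tri h)) (inr (Δ.tri h')) v w + ar (inr (Δ.tri h)) (inl (Δ.glue q)) v w
        + ar (inl p') (inr (Δ.tri h')) v w + ar (inl p') (inl (Δ.glue q)) v w)
      - 2 * (ar (inr (Δ.tri h')) (inl h') v w + ar (inl p) (inl h') v w
        + ar (inl h') (inr (Δ.tri h)) v w + ar (inl h') (inl (Δ.glue q')) v w)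
      + (ar (inr (Δ.tri h')) (inr (Δ.tri h)) v w + ar (inr (Δ.tri h')) (inl (Δ.glue q')) v w
        + ar (inl p) (inr (Δ.tri h)) v w + ar (inl p) (inl (Δ.glue q')) v w)
      - 2 * (ar (inl h) (inr (Δ.tri h)) v w + ar (inl (Δ.glue p)) (inr (Δ.tri h)) v w
        + ar (inr (Δ.tri h)) (inl h') v w + ar (inr (Δ.tri h)) (inl q) v w)
      + (ar (inl h) (inl h') v w + ar (inl h) (inl q) v w
        + ar (inl (Δ.glue p)) (inl h') v w + ar (inl (Δ.glue p)) (inl q) v w)
      - 2 * (ar (inl h') (inr (Δ.tri h')) v w + ar (inl (Δ.glue p')) (inr (Δ.tri h')) v w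
        + ar (inr (Δ.tri h')) (inl h) v w + ar (inr (Δ.tri h')) (inl q') v w)
      + (ar (inl h') (inl h) v w + ar (inl h') (inl q') v w
        + ar (inl (Δ.glue p')) (inl h) v w + ar (inl (Δ.glue p')) (inl q') v w) := by
  rw [eq4 Q hf1 hf2, eq3 Q hf1 hf2, eq2 Q hf1 hf2, eq1 Q hf1]

end steps

@[simp] theorem ind_inl_inl (a b : H) : ind (inl a : H ⊕ T) (inl b) = ind a b := by
  simp [ind]

@[simp] theorem ind_inr_inr (a b : T) : ind (inr a : H ⊕ T) (inr b) = ind a b := by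
  simp [ind]

@[simp] theorem ind_inl_inr (a : H) (b : T) : ind (inl a : H ⊕ T) (inr b) = 0 := by
  simp [ind]

@[simp] theorem ind_inr_inl (a : T) (b : H) : ind (inr a : H ⊕ T) (inl b) = 0 := by
  simp [ind]

section consist

theorem ind_glue (Δ : IdealTriangulation H T) (x a : H) : ind x (Δ.glue a) = ind (Δ.glue x) a := by
  unfold ind
  have : Δ.glue a = x ↔ a = Δ.glue x := by
    constructor
    · rintro rfl; exact (Δ.glue_glue a).symm
    · rintro rfl; exact Δ.glue_glue x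
  simp only [this]

theorem ind_next (Q : Quad Δ h p q h' p' q') (F : QFlip Δ Δ' h p q h' p' q') (a y : H)
    (hy : y ≠ h) (hy' : y ≠ h') :
    ind (Δ'.next y) a = ind (Δ.next y) a + ind q' y * (ind p a - ind h' a)
      + ind p y * (ind h a - ind q a) + ind q y * (ind p' a - ind h a)
      + ind p' y * (ind h' a - ind q' a) := by
  rcases Q.cases y with rfl | rfl | rfl | rfl | rfl | rfl | ⟨h1, h2⟩
  · exact absurd rfl hy
  · rw [F.next_p, Q.np, ind_self, ind_ne Q.q'p.symm, ind_ne Q.pq.symm, ind_ne Q.p'p.symm]; ring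
  · rw [F.next_q, Q.nq, ind_self, ind_ne Q.q'q.symm, ind_ne Q.pq, ind_ne Q.p'q.symm]; ring
  · exact absurd rfl hy'
  · rw [F.next_p', Q.np', ind_self, ind_ne Q.pq'.symm, ind_ne Q.p'q, ind_ne Q.p'p]; ring
  · rw [F.next_q', Q.nq', ind_self, ind_ne Q.pq', ind_ne Q.q'q, ind_ne Q.q'p]; ring
  · obtain ⟨a1, a2, a3, a4, a5, a6⟩ := Q.ne_of_tri h1 h2
    rw [F.next_other y h1 h2, ind_ne a2, ind_ne a3, ind_ne a5, ind_ne a6]; ring

theorem ind_tri1 (Q : Quad Δ h p q h' p' q') (a : H) :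
    ind (Δ.tri h) (Δ.tri a) = ind h a + ind p a + ind q a := by
  have := ind_tri Q a
  simp only [ind_inl_inl] at this
  exact this

theorem ind_tri2 (Q : Quad Δ h p q h' p' q') (F : QFlip Δ Δ' h p q h' p' q') (s : T) (a : H) :
    ind s (Δ'.tri a) = ind s (Δ.tri a) + ind q a * (ind s (Δ.tri h') - ind s (Δ.tri h))
      + ind q' a * (ind s (Δ.tri h) - ind s (Δ.tri h')) := by
  by_cases e1 : a = q
  · subst e1
    rw [F.tri_q, Q.tq, ind_self, ind_ne Q.q'q.symm]; ring
  · by_cases e2 : a = q'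
    · subst e2
      rw [F.tri_q', Q.tq', ind_self, ind_ne Q.q'q]; ring
    · rw [F.tri_other a e1 e2, ind_ne e1, ind_ne e2]; ring

theorem ind_comm {V : Type} [DecidableEq V] (a b : V) : ind a b = ind b a := by
  unfold ind; simp only [eq_comm]

theorem ind_next_h (Q : Quad Δ h p q h' p' q') (y : H) : ind (Δ.next y) h = ind q y := by
  unfold ind
  have : h = Δ.next y ↔ y = q := by
    rw [← Q.nq]
    constructor
    · intro e; exact (Δ.next.injective e).symm
    · rintro rfl; rfl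
  simp only [this]

theorem exchange_inl_inl (Δ : IdealTriangulation H T) (a b : H) : Δ.exchange (inl a) (inl b) =
    ind (Δ.next (Δ.glue b)) a - ind (Δ.next (Δ.glue a)) b := rfl

theorem exchange_inr_inl (Δ : IdealTriangulation H T) (t : T) (a : H) :
    Δ.exchange (inr t) (inl a) = ind t (Δ.tri a) - ind t (Δ.tri (Δ.glue a)) := rfl

theorem exchange_inl_inr (Δ : IdealTriangulation H T) (t : T) (a : H) :
    Δ.exchange (inl a) (inr t) = ind t (Δ.tri (Δ.glue a)) - ind t (Δ.tri a) := rfl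

theorem exchange_inr_inr (Δ : IdealTriangulation H T) (s t : T) :
    Δ.exchange (inr s) (inr t) = 0 := rfl

theorem relabel_h (_Q : Quad Δ h p q h' p' q') : Δ.relabel h (inl h) = inr (Δ.tri h) := by
  simp [relabel]

theorem relabel_h' (Q : Quad Δ h p q h' p' q') : Δ.relabel h (inl h') = inr (Δ.tri h') := by
  simp [relabel, Q.glue_h, Q.hh]

theorem relabel_t (Q : Quad Δ h p q h' p' q') : Δ.relabel h (inr (Δ.tri h)) = inl h' := by
  simp [relabel, Q.glue_h]

theorem relabel_t' (Q : Quad Δ h p q h' p' q') : Δ.relabel h (inr (Δ.tri h')) = inl h := by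
  simp [relabel, Q.glue_h, Q.tt']

theorem relabel_inl (Q : Quad Δ h p q h' p' q') {a : H} (h1 : a ≠ h) (h2 : a ≠ h') :
    Δ.relabel h (inl a) = inl a := by
  simp [relabel, Q.glue_h, h1, h2]

theorem relabel_inr (Q : Quad Δ h p q h' p' q') {s : T} (h1 : s ≠ Δ.tri h) (h2 : s ≠ Δ.tri h') :
    Δ.relabel h (inr s) = inr s := by
  simp [relabel, Q.glue_h, h1, h2]

variable (Q : Quad Δ h p q h' p' q') (F : QFlip Δ Δ' h p q h' p' q')
  (hf1 : p' ≠ Δ.glue q) (hf2 : p ≠ Δ.glue q')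
  (x : H ⊕ T → RatFun (H ⊕ T))

include Q F hf1 hf2

theorem consist_ll {a b : H} (a1 : a ≠ h) (a2 : a ≠ h') (b1 : b ≠ h) (b2 : b ≠ h') :
    Δ'.exchange (inl a) (inl b) = (S4 Δ x h h').ε (inl a) (inl b) := by
  have ga1 : Δ.glue a ≠ h := by
    intro e; apply a2; rw [← Q.glue_h, ← e, Δ.glue_glue]
  have ga2 : Δ.glue a ≠ h' := by
    intro e; apply a1; rw [← Q.glue_h', ← e, Δ.glue_glue]
  have gb1 : Δ.glue b ≠ h := by
    intro e; apply b2; rw [← Q.glue_h, ← e, Δ.glue_glue]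
  have gb2 : Δ.glue b ≠ h' := by
    intro e; apply b1; rw [← Q.glue_h', ← e, Δ.glue_glue]
  rw [eqAll Q hf1 hf2]
  simp only [exchange_inl_inl, F.glue_eq, ind_next Q F _ _ ga1 ga2, ind_next Q F _ _ gb1 gb2,
    ind_glue, ar, ind_inl_inl, ind_inr_inl, ind_ne a1, ind_ne a2, ind_ne b1, ind_ne b2]
  ring


omit F hf1 hf2 in
theorem glue_out {a : H} (a1 : a ≠ h) (a2 : a ≠ h') : Δ.glue a ≠ h ∧ Δ.glue a ≠ h' := by
  constructor
  · intro e; apply a2; rw [← Q.glue_h, ← e, Δ.glue_glue]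
  · intro e; apply a1; rw [← Q.glue_h', ← e, Δ.glue_glue]

/-- row of the new diagonal half-edge `h` -/
theorem consist_hl {b : H} (b1 : b ≠ h) (b2 : b ≠ h') :
    Δ'.exchange (inl h) (inl b) = (S4 Δ x h h').ε (inr (Δ.tri h)) (inl b) := by
  obtain ⟨gb1, gb2⟩ := glue_out Q b1 b2
  have et : ind (Δ.tri h) (Δ.tri h') = 0 := ind_ne Q.tt'
  have et' : ind (Δ.tri h') (Δ.tri h) = 0 := ind_ne Q.tt'.symm
  rw [eqAll Q hf1 hf2]
  simp only [exchange_inl_inl, exchange_inr_inl, F.glue_eq, ind_next Q F _ _ gb1 gb2, Q.glue_h,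
    F.next_h', ind_next_h Q, ind_tri1 Q, ind_self, et, et', ind_ne Q.hp.symm, ind_ne Q.hh.symm,
    ind_ne Q.hq.symm, ind_ne Q.p'h.symm, ind_ne Q.q'h.symm, ind_inr_inr, ind_inl_inr,
    ind_glue, ar, ind_inl_inl, ind_inr_inl, ind_ne b1, ind_ne b2]
  ring

/-- row of the new diagonal half-edge `h'` -/
theorem consist_h'l {b : H} (b1 : b ≠ h) (b2 : b ≠ h') :
    Δ'.exchange (inl h') (inl b) = (S4 Δ x h h').ε (inr (Δ.tri h')) (inl b) := by
  obtain ⟨gb1, gb2⟩ := glue_out Q b1 b2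
  have et : ind (Δ.tri h) (Δ.tri h') = 0 := ind_ne Q.tt'
  have et' : ind (Δ.tri h') (Δ.tri h) = 0 := ind_ne Q.tt'.symm
  rw [eqAll Q hf1 hf2]
  simp only [exchange_inl_inl, exchange_inr_inl, F.glue_eq, ind_next Q F _ _ gb1 gb2, Q.glue_h',
    F.next_h, ind_next_h Q.symm, ind_tri1 Q.symm, ind_self, et, et', ind_ne Q.hp'.symm, ind_ne Q.hh,
    ind_ne Q.hq'.symm, ind_ne Q.h'p, ind_ne Q.h'q, ind_inr_inr, ind_inl_inr,
    ind_glue, ar, ind_inl_inl, ind_inr_inl, ind_ne b1, ind_ne b2]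
  ring

theorem consist_hh' :
    Δ'.exchange (inl h) (inl h') = (S4 Δ x h h').ε (inr (Δ.tri h)) (inr (Δ.tri h')) := by
  have et : ind (Δ.tri h) (Δ.tri h') = 0 := ind_ne Q.tt'
  have et' : ind (Δ.tri h') (Δ.tri h) = 0 := ind_ne Q.tt'.symm
  rw [eqAll Q hf1 hf2]
  simp only [exchange_inl_inl, exchange_inr_inr, F.glue_eq, Q.glue_h', Q.glue_h, F.next_h', F.next_h,
    ind_self, et, et', ind_inr_inr, ind_inl_inr, ar, ind_ne Q.q'h.symm, ind_ne Q.h'q]
  ring

/-- rows of the new face nodes against outer nodes -/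
theorem consist_tl {b : H} (b1 : b ≠ h) (b2 : b ≠ h') :
    Δ'.exchange (inr (Δ.tri h)) (inl b) = (S4 Δ x h h').ε (inl h') (inl b) := by
  obtain ⟨gb1, gb2⟩ := glue_out Q b1 b2
  have et : ind (Δ.tri h) (Δ.tri h') = 0 := ind_ne Q.tt'
  have et' : ind (Δ.tri h') (Δ.tri h) = 0 := ind_ne Q.tt'.symm
  rw [eqAll Q hf1 hf2]
  have e1 : ind (Δ.next h) b = ind p b := by rw [Q.nh]
  simp only [exchange_inl_inl, exchange_inr_inl, F.glue_eq, Q.glue_h', Q.glue_h, ind_tri2 Q F,
    ind_next_h Q.symm, e1, ind_tri1 Q, ind_self, ind_ne Q.hh, ind_ne Q.hp'.symm,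
    ind_ne Q.hp.symm, ind_ne Q.hq.symm,
    ind_ne Q.hq'.symm, ind_ne Q.h'p, ind_ne Q.h'q, ind_inr_inr, ind_inl_inr,
    ind_glue, ar, ind_inl_inl, ind_inr_inl, ind_ne b1, ind_ne b2,
    ind_ne (glue_q_ne_h' Q).symm, ind_ne (glue_p_ne_h' Q).symm,
    ind_ne (glue_q_ne_h Q.symm).symm, ind_ne (glue_p_ne_h Q.symm).symm]
  ring


theorem consist_t'l {b : H} (b1 : b ≠ h) (b2 : b ≠ h') :
    Δ'.exchange (inr (Δ.tri h')) (inl b) = (S4 Δ x h h').ε (inl h) (inl b) := by
  obtain ⟨gb1, gb2⟩ := glue_out Q b1 b2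
  rw [eqAll Q hf1 hf2]
  have e1 : ind (Δ.next h') b = ind p' b := by rw [Q.nh']
  simp only [exchange_inl_inl, exchange_inr_inl, F.glue_eq, Q.glue_h', Q.glue_h, ind_tri2 Q F,
    ind_next_h Q, e1, ind_tri1 Q.symm, ind_self, ind_ne Q.hh.symm, ind_ne Q.hp.symm,
    ind_ne Q.hp'.symm, ind_ne Q.hq'.symm,
    ind_ne Q.hq.symm, ind_ne Q.p'h.symm, ind_ne Q.q'h.symm, ind_inr_inr, ind_inl_inr,
    ind_glue, ar, ind_inl_inl, ind_inr_inl, ind_ne b1, ind_ne b2,
    ind_ne (glue_q_ne_h Q).symm, ind_ne (glue_p_ne_h Q).symm,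
    ind_ne (glue_q_ne_h' Q.symm).symm, ind_ne (glue_p_ne_h' Q.symm).symm]
  ring

theorem consist_sl {s : T} (s1 : s ≠ Δ.tri h) (s2 : s ≠ Δ.tri h') {b : H} (b1 : b ≠ h)
    (b2 : b ≠ h') :
    Δ'.exchange (inr s) (inl b) = (S4 Δ x h h').ε (inr s) (inl b) := by
  rw [eqAll Q hf1 hf2]
  simp only [exchange_inr_inl, F.glue_eq, ind_tri2 Q F, ind_inr_inr, ind_inl_inr,
    ind_glue, ar, ind_inl_inl, ind_inr_inl, ind_ne b1, ind_ne b2, ind_ne s1, ind_ne s2,
    ind_ne s1.symm, ind_ne s2.symm]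
  ring

theorem consist_sh {s : T} (s1 : s ≠ Δ.tri h) (s2 : s ≠ Δ.tri h') :
    Δ'.exchange (inr s) (inl h) = (S4 Δ x h h').ε (inr s) (inr (Δ.tri h)) := by
  rw [eqAll Q hf1 hf2]
  simp only [exchange_inr_inl, exchange_inr_inr, F.glue_eq, Q.glue_h, ind_tri2 Q F, ind_inr_inr,
    ind_inl_inr, ar, ind_ne s1.symm, ind_ne s2.symm, ind_ne s1, ind_ne s2]
  ring

theorem consist_sh' {s : T} (s1 : s ≠ Δ.tri h) (s2 : s ≠ Δ.tri h') :
    Δ'.exchange (inr s) (inl h') = (S4 Δ x h h').ε (inr s) (inr (Δ.tri h')) := by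
  rw [eqAll Q hf1 hf2]
  simp only [exchange_inr_inl, exchange_inr_inr, F.glue_eq, Q.glue_h', ind_tri2 Q F, ind_inr_inr,
    ind_inl_inr, ar, ind_ne s1.symm, ind_ne s2.symm, ind_ne s1, ind_ne s2]
  ring

theorem consist_st {s : T} (s1 : s ≠ Δ.tri h) (s2 : s ≠ Δ.tri h') :
    Δ'.exchange (inr s) (inr (Δ.tri h)) = (S4 Δ x h h').ε (inr s) (inl h') := by
  rw [eqAll Q hf1 hf2]
  simp only [exchange_inr_inl, exchange_inr_inr, F.glue_eq, Q.glue_h', ind_inr_inr,
    ind_inl_inr, ind_inr_inl, ar, ind_ne s1.symm, ind_ne s2.symm, ind_ne s1, ind_ne s2]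
  ring

theorem consist_st' {s : T} (s1 : s ≠ Δ.tri h) (s2 : s ≠ Δ.tri h') :
    Δ'.exchange (inr s) (inr (Δ.tri h')) = (S4 Δ x h h').ε (inr s) (inl h) := by
  rw [eqAll Q hf1 hf2]
  simp only [exchange_inr_inl, exchange_inr_inr, F.glue_eq, Q.glue_h, ind_inr_inr,
    ind_inl_inr, ind_inr_inl, ar, ind_ne s1.symm, ind_ne s2.symm, ind_ne s1, ind_ne s2]
  ring

theorem consist_ss {s r : T} (s1 : s ≠ Δ.tri h) (s2 : s ≠ Δ.tri h') (r1 : r ≠ Δ.tri h)
    (r2 : r ≠ Δ.tri h') :
    Δ'.exchange (inr s) (inr r) = (S4 Δ x h h').ε (inr s) (inr r) := by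
  rw [eqAll Q hf1 hf2]
  simp only [exchange_inr_inr, ind_inr_inr,
    ind_inl_inr, ind_inr_inl, ar, ind_ne s1.symm, ind_ne s2.symm, ind_ne s1, ind_ne s2, ind_ne r1,
    ind_ne r2]
  ring

theorem consist_th : Δ'.exchange (inr (Δ.tri h)) (inl h) =
    (S4 Δ x h h').ε (inl h') (inr (Δ.tri h)) := by
  have et : ind (Δ.tri h') (Δ.tri h) = 0 := ind_ne Q.tt'.symm
  have et' : ind (Δ.tri h) (Δ.tri h') = 0 := ind_ne Q.tt'
  rw [eqAll Q hf1 hf2]
  simp only [exchange_inr_inl, exchange_inl_inr, F.glue_eq, Q.glue_h, Q.glue_h', ind_tri2 Q F,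
    ind_inr_inr, ind_inl_inr, ind_inr_inl, ind_inl_inl, ar, et, et', ind_self,
    ind_ne Q.hh, ind_ne Q.hq.symm, ind_ne Q.q'h.symm, ind_ne Q.h'q, ind_ne Q.hq'.symm,
    ind_ne Q.hp'.symm, ind_ne Q.h'p, ind_ne (glue_q_ne_h' Q).symm,
    ind_ne (glue_p_ne_h' Q).symm, ind_ne (glue_q_ne_h Q.symm).symm,
    ind_ne (glue_p_ne_h Q.symm).symm]
  ring

theorem consist_th' : Δ'.exchange (inr (Δ.tri h)) (inl h') =
    (S4 Δ x h h').ε (inl h') (inr (Δ.tri h')) := by
  have et : ind (Δ.tri h') (Δ.tri h) = 0 := ind_ne Q.tt'.symm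
  have et' : ind (Δ.tri h) (Δ.tri h') = 0 := ind_ne Q.tt'
  rw [eqAll Q hf1 hf2]
  simp only [exchange_inr_inl, exchange_inl_inr, F.glue_eq, Q.glue_h, Q.glue_h', ind_tri2 Q F,
    ind_inr_inr, ind_inl_inr, ind_inr_inl, ind_inl_inl, ar, et, et', ind_self,
    ind_ne Q.hh, ind_ne Q.hq.symm, ind_ne Q.q'h.symm, ind_ne Q.h'q, ind_ne Q.hq'.symm,
    ind_ne Q.hp'.symm, ind_ne Q.h'p, ind_ne (glue_q_ne_h' Q).symm,
    ind_ne (glue_p_ne_h' Q).symm, ind_ne (glue_q_ne_h Q.symm).symm,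
    ind_ne (glue_p_ne_h Q.symm).symm]
  ring

theorem consist_t'h : Δ'.exchange (inr (Δ.tri h')) (inl h) =
    (S4 Δ x h h').ε (inl h) (inr (Δ.tri h)) := by
  have et : ind (Δ.tri h') (Δ.tri h) = 0 := ind_ne Q.tt'.symm
  have et' : ind (Δ.tri h) (Δ.tri h') = 0 := ind_ne Q.tt'
  rw [eqAll Q hf1 hf2]
  simp only [exchange_inr_inl, exchange_inl_inr, F.glue_eq, Q.glue_h, Q.glue_h', ind_tri2 Q F,
    ind_inr_inr, ind_inl_inr, ind_inr_inl, ind_inl_inl, ar, et, et', ind_self,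
    ind_ne Q.hh.symm, ind_ne Q.hq.symm, ind_ne Q.q'h.symm, ind_ne Q.h'q, ind_ne Q.hq'.symm,
    ind_ne Q.hp.symm, ind_ne Q.p'h.symm, ind_ne (glue_q_ne_h Q).symm,
    ind_ne (glue_p_ne_h Q).symm, ind_ne (glue_q_ne_h' Q.symm).symm,
    ind_ne (glue_p_ne_h' Q.symm).symm]
  ring

theorem consist_t'h' : Δ'.exchange (inr (Δ.tri h')) (inl h') =
    (S4 Δ x h h').ε (inl h) (inr (Δ.tri h')) := by
  have et : ind (Δ.tri h') (Δ.tri h) = 0 := ind_ne Q.tt'.symm
  have et' : ind (Δ.tri h) (Δ.tri h') = 0 := ind_ne Q.tt'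
  rw [eqAll Q hf1 hf2]
  simp only [exchange_inr_inl, exchange_inl_inr, F.glue_eq, Q.glue_h, Q.glue_h', ind_tri2 Q F,
    ind_inr_inr, ind_inl_inr, ind_inr_inl, ind_inl_inl, ar, et, et', ind_self,
    ind_ne Q.hh.symm, ind_ne Q.hq.symm, ind_ne Q.q'h.symm, ind_ne Q.h'q, ind_ne Q.hq'.symm,
    ind_ne Q.hp.symm, ind_ne Q.p'h.symm, ind_ne (glue_q_ne_h Q).symm,
    ind_ne (glue_p_ne_h Q).symm, ind_ne (glue_q_ne_h' Q.symm).symm,
    ind_ne (glue_p_ne_h' Q.symm).symm]
  ring

theorem consist_tt' : Δ'.exchange (inr (Δ.tri h)) (inr (Δ.tri h')) =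
    (S4 Δ x h h').ε (inl h') (inl h) := by
  rw [eqAll Q hf1 hf2]
  simp only [exchange_inr_inr, exchange_inl_inl, Q.glue_h, Q.glue_h', Q.nh, Q.nh',
    ind_inr_inl, ind_inl_inl, ar, ind_self,
    ind_ne Q.hh.symm, ind_ne Q.hh, ind_ne Q.hq.symm, ind_ne Q.q'h.symm, ind_ne Q.h'q,
    ind_ne Q.hq'.symm, ind_ne Q.hp'.symm, ind_ne Q.h'p, ind_ne Q.hp.symm, ind_ne Q.p'h.symm,
    ind_ne (glue_q_ne_h Q).symm,
    ind_ne (glue_p_ne_h Q).symm, ind_ne (glue_q_ne_h' Q.symm).symm,
    ind_ne (glue_p_ne_h' Q.symm).symm, ind_ne (glue_q_ne_h' Q).symm,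
    ind_ne (glue_p_ne_h' Q).symm, ind_ne (glue_q_ne_h Q.symm).symm,
    ind_ne (glue_p_ne_h Q.symm).symm]
  ring

end consist

end IdealTriangulation

namespace IdealTriangulation

variable {H T : Type} [DecidableEq H] [DecidableEq T] {Δ Δ' : IdealTriangulation H T}
  {h p q h' p' q' : H}

theorem consistency (Q : Quad Δ h p q h' p' q') (F : QFlip Δ Δ' h p q h' p' q')
    (hf1 : p' ≠ Δ.glue q) (hf2 : p ≠ Δ.glue q')
    (x : H ⊕ T → RatFun (H ⊕ T)) (v w : H ⊕ T) :
    Δ'.exchange v w = (S4 Δ x h h').ε (Δ.relabel h v) (Δ.relabel h w) := by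
  have sk4 : (S4 Δ x h h').Skew := ((((Δ.seed_skew x).mutate _).mutate _).mutate _).mutate _
  have flip : ∀ v w, Δ'.exchange w v = (S4 Δ x h h').ε (Δ.relabel h w) (Δ.relabel h v) →
      Δ'.exchange v w = (S4 Δ x h h').ε (Δ.relabel h v) (Δ.relabel h w) := by
    intro v w e
    rw [Δ'.exchange_skew, e, sk4 (Δ.relabel h v)]
  have self : ∀ v, Δ'.exchange v v = (S4 Δ x h h').ε (Δ.relabel h v) (Δ.relabel h v) := by
    intro v
    rw [sk4.self]
    have := Δ'.exchange_skew v v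
    omega
  have rh := relabel_h Q
  have rh' := relabel_h' Q
  have rt := relabel_t Q
  have rt' := relabel_t' Q
  -- classification of the nodes
  have cl : ∀ v : H ⊕ T, v = inl h ∨ v = inl h' ∨ v = inr (Δ.tri h) ∨ v = inr (Δ.tri h') ∨
      (∃ a, v = inl a ∧ a ≠ h ∧ a ≠ h') ∨ (∃ s, v = inr s ∧ s ≠ Δ.tri h ∧ s ≠ Δ.tri h') := by
    rintro (a | s)
    · by_cases e1 : a = h
      · simp [e1]
      · by_cases e2 : a = h'
        · simp [e2]
        · simp [e1, e2]
    · by_cases e1 : s = Δ.tri h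
      · simp [e1]
      · by_cases e2 : s = Δ.tri h'
        · simp [e2]
        · simp [e1, e2]
  -- pairs
  have hh' : Δ'.exchange (inl h) (inl h') =
      (S4 Δ x h h').ε (Δ.relabel h (inl h)) (Δ.relabel h (inl h')) := by
    rw [rh, rh']; exact consist_hh' Q F hf1 hf2 x
  have ht : Δ'.exchange (inr (Δ.tri h)) (inl h) =
      (S4 Δ x h h').ε (Δ.relabel h (inr (Δ.tri h))) (Δ.relabel h (inl h)) := by
    rw [rh, rt]; exact consist_th Q F hf1 hf2 x
  have ht' : Δ'.exchange (inr (Δ.tri h')) (inl h) =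
      (S4 Δ x h h').ε (Δ.relabel h (inr (Δ.tri h'))) (Δ.relabel h (inl h)) := by
    rw [rh, rt']; exact consist_t'h Q F hf1 hf2 x
  have h't : Δ'.exchange (inr (Δ.tri h)) (inl h') =
      (S4 Δ x h h').ε (Δ.relabel h (inr (Δ.tri h))) (Δ.relabel h (inl h')) := by
    rw [rh', rt]; exact consist_th' Q F hf1 hf2 x
  have h't' : Δ'.exchange (inr (Δ.tri h')) (inl h') =
      (S4 Δ x h h').ε (Δ.relabel h (inr (Δ.tri h'))) (Δ.relabel h (inl h')) := by
    rw [rh', rt']; exact consist_t'h' Q F hf1 hf2 x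
  have tt' : Δ'.exchange (inr (Δ.tri h)) (inr (Δ.tri h')) =
      (S4 Δ x h h').ε (Δ.relabel h (inr (Δ.tri h))) (Δ.relabel h (inr (Δ.tri h'))) := by
    rw [rt, rt']; exact consist_tt' Q F hf1 hf2 x
  have hl : ∀ b, b ≠ h → b ≠ h' → Δ'.exchange (inl h) (inl b) =
      (S4 Δ x h h').ε (Δ.relabel h (inl h)) (Δ.relabel h (inl b)) := by
    intro b b1 b2
    rw [rh, relabel_inl Q b1 b2]; exact consist_hl Q F hf1 hf2 x b1 b2
  have h'l : ∀ b, b ≠ h → b ≠ h' → Δ'.exchange (inl h') (inl b) =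
      (S4 Δ x h h').ε (Δ.relabel h (inl h')) (Δ.relabel h (inl b)) := by
    intro b b1 b2
    rw [rh', relabel_inl Q b1 b2]; exact consist_h'l Q F hf1 hf2 x b1 b2
  have tl : ∀ b, b ≠ h → b ≠ h' → Δ'.exchange (inr (Δ.tri h)) (inl b) =
      (S4 Δ x h h').ε (Δ.relabel h (inr (Δ.tri h))) (Δ.relabel h (inl b)) := by
    intro b b1 b2
    rw [rt, relabel_inl Q b1 b2]; exact consist_tl Q F hf1 hf2 x b1 b2
  have t'l : ∀ b, b ≠ h → b ≠ h' → Δ'.exchange (inr (Δ.tri h')) (inl b) =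
      (S4 Δ x h h').ε (Δ.relabel h (inr (Δ.tri h'))) (Δ.relabel h (inl b)) := by
    intro b b1 b2
    rw [rt', relabel_inl Q b1 b2]; exact consist_t'l Q F hf1 hf2 x b1 b2
  have sl : ∀ s, s ≠ Δ.tri h → s ≠ Δ.tri h' → ∀ b, b ≠ h → b ≠ h' → Δ'.exchange (inr s) (inl b) =
      (S4 Δ x h h').ε (Δ.relabel h (inr s)) (Δ.relabel h (inl b)) := by
    intro s s1 s2 b b1 b2
    rw [relabel_inr Q s1 s2, relabel_inl Q b1 b2]; exact consist_sl Q F hf1 hf2 x s1 s2 b1 b2
  have sh : ∀ s, s ≠ Δ.tri h → s ≠ Δ.tri h' → Δ'.exchange (inr s) (inl h) =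
      (S4 Δ x h h').ε (Δ.relabel h (inr s)) (Δ.relabel h (inl h)) := by
    intro s s1 s2
    rw [relabel_inr Q s1 s2, rh]; exact consist_sh Q F hf1 hf2 x s1 s2
  have sh' : ∀ s, s ≠ Δ.tri h → s ≠ Δ.tri h' → Δ'.exchange (inr s) (inl h') =
      (S4 Δ x h h').ε (Δ.relabel h (inr s)) (Δ.relabel h (inl h')) := by
    intro s s1 s2
    rw [relabel_inr Q s1 s2, rh']; exact consist_sh' Q F hf1 hf2 x s1 s2
  have st : ∀ s, s ≠ Δ.tri h → s ≠ Δ.tri h' → Δ'.exchange (inr s) (inr (Δ.tri h)) =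
      (S4 Δ x h h').ε (Δ.relabel h (inr s)) (Δ.relabel h (inr (Δ.tri h))) := by
    intro s s1 s2
    rw [relabel_inr Q s1 s2, rt]; exact consist_st Q F hf1 hf2 x s1 s2
  have st' : ∀ s, s ≠ Δ.tri h → s ≠ Δ.tri h' → Δ'.exchange (inr s) (inr (Δ.tri h')) =
      (S4 Δ x h h').ε (Δ.relabel h (inr s)) (Δ.relabel h (inr (Δ.tri h'))) := by
    intro s s1 s2
    rw [relabel_inr Q s1 s2, rt']; exact consist_st' Q F hf1 hf2 x s1 s2
  rcases cl v with rfl | rfl | rfl | rfl | ⟨a, rfl, a1, a2⟩ | ⟨s, rfl, s1, s2⟩ <;>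
  rcases cl w with rfl | rfl | rfl | rfl | ⟨b, rfl, b1, b2⟩ | ⟨r, rfl, r1, r2⟩
  · exact self _
  · exact hh'
  · exact flip _ _ ht
  · exact flip _ _ ht'
  · exact hl b b1 b2
  · exact flip _ _ (sh r r1 r2)
  · exact flip _ _ hh'
  · exact self _
  · exact flip _ _ h't
  · exact flip _ _ h't'
  · exact h'l b b1 b2
  · exact flip _ _ (sh' r r1 r2)
  · exact ht
  · exact h't
  · exact self _
  · exact tt'
  · exact tl b b1 b2
  · exact flip _ _ (st r r1 r2)
  · exact ht'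
  · exact h't'
  · exact flip _ _ tt'
  · exact self _
  · exact t'l b b1 b2
  · exact flip _ _ (st' r r1 r2)
  · exact flip _ _ (hl a a1 a2)
  · exact flip _ _ (h'l a a1 a2)
  · exact flip _ _ (tl a a1 a2)
  · exact flip _ _ (t'l a a1 a2)
  · rw [relabel_inl Q a1 a2, relabel_inl Q b1 b2]; exact consist_ll Q F hf1 hf2 x a1 a2 b1 b2
  · exact flip _ _ (sl r r1 r2 a a1 a2)
  · exact sh s s1 s2
  · exact sh' s s1 s2
  · exact st s s1 s2
  · exact st' s s1 s2
  · exact sl s s1 s2 b b1 b2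
  · rw [relabel_inr Q s1 s2, relabel_inr Q r1 r2]; exact consist_ss Q F hf1 hf2 x s1 s2 r1 r2

/-- `relabel` is a bijection -/
theorem relabel_bijective (Q : Quad Δ h p q h' p' q') : Function.Bijective (Δ.relabel h) := by
  have rh := relabel_h Q
  have rh' := relabel_h' Q
  have rt := relabel_t Q
  have rt' := relabel_t' Q
  have cl : ∀ v : H ⊕ T, v = inl h ∨ v = inl h' ∨ v = inr (Δ.tri h) ∨ v = inr (Δ.tri h') ∨
      (∃ a, v = inl a ∧ a ≠ h ∧ a ≠ h') ∨ (∃ s, v = inr s ∧ s ≠ Δ.tri h ∧ s ≠ Δ.tri h') := by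
    rintro (a | s)
    · by_cases e1 : a = h
      · simp [e1]
      · by_cases e2 : a = h'
        · simp [e2]
        · simp [e1, e2]
    · by_cases e1 : s = Δ.tri h
      · simp [e1]
      · by_cases e2 : s = Δ.tri h'
        · simp [e2]
        · simp [e1, e2]
  -- fourth power is the identity
  have h4 : ∀ v, Δ.relabel h (Δ.relabel h (Δ.relabel h (Δ.relabel h v))) = v := by
    intro v
    rcases cl v with rfl | rfl | rfl | rfl | ⟨a, rfl, a1, a2⟩ | ⟨s, rfl, s1, s2⟩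
    · rw [rh, rt, rh', rt']
    · rw [rh', rt', rh, rt]
    · rw [rt, rh', rt', rh]
    · rw [rt', rh, rt, rh']
    · rw [relabel_inl Q a1 a2, relabel_inl Q a1 a2, relabel_inl Q a1 a2, relabel_inl Q a1 a2]
    · rw [relabel_inr Q s1 s2, relabel_inr Q s1 s2, relabel_inr Q s1 s2, relabel_inr Q s1 s2]
  constructor
  · intro v w e
    rw [← h4 v, ← h4 w, e]
  · intro v
    exact ⟨_, h4 v⟩

end IdealTriangulation

section seeds

variable {V : Type} [DecidableEq V]

theorem MutEquiv.trans {s t u : Seed V} (h1 : MutEquiv s t) (h2 : MutEquiv t u) : MutEquiv s u := by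
  induction h2 with
  | refl => exact h1
  | step t k _ ih => exact ih.step _ k

theorem MutEquiv.isChart [Fintype V] {s t : Seed V} (hs : s.IsChart) (h : MutEquiv s t) :
    t.IsChart := by
  induction h with
  | refl => exact hs
  | step t k _ ih => exact ih.mutate k

theorem MutEquiv.skew {s t : Seed V} (hs : s.Skew) (h : MutEquiv s t) : t.Skew := by
  induction h with
  | refl => exact hs
  | step t k _ ih => exact ih.mutate k

theorem MutEquiv.symm [Fintype V] {s t : Seed V} (hs : s.IsChart) (h : MutEquiv s t) :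
    MutEquiv t s := by
  induction h with
  | refl => exact MutEquiv.refl
  | step t k hst ih =>
    have h1 : MutEquiv (t.mutate k) ((t.mutate k).mutate k) := MutEquiv.refl.step _ k
    rw [(hst.isChart hs).mutate_mutate] at h1
    exact h1.trans ih

/-- relabelling a seed -/
def Seed.comap (π : V → V) (s : Seed V) : Seed V := ⟨fun v w => s.ε (π v) (π w), fun v => s.x (π v)⟩

theorem Seed.comap_mutate {π : V → V} (hπ : Function.Injective π) (s : Seed V) (k : V) :
    (s.comap π).mutate k = (s.mutate (π k)).comap π := by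
  apply Seed.ext'
  · funext i j
    simp only [Seed.mutate, Seed.comap, hπ.eq_iff]
  · funext i
    simp only [Seed.mutate, Seed.comap, hπ.eq_iff]

theorem Seed.IsChart.comap [Fintype V] {s : Seed V} (hs : s.IsChart) {π : V → V}
    (hπ : Function.Bijective π) : (s.comap π).IsChart := by
  obtain ⟨φ, hφ⟩ := hs
  obtain ⟨ψ, hψ⟩ := exists_algEquiv (fun v => (cX (π v) : RatFun V)) (by
    intro v
    obtain ⟨w, rfl⟩ := hπ.2 v
    exact IntermediateField.subset_adjoin _ _ ⟨w, rfl⟩)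
  refine ⟨ψ.trans φ, fun v => ?_⟩
  change φ (ψ (cX v)) = s.x (π v)
  rw [hψ, hφ]

theorem isLaurentIn_comap {π : V → V} (hπ : Function.Surjective π) {x : V → RatFun V}
    {f : RatFun V} : IsLaurentIn (fun v => x (π v)) f ↔ IsLaurentIn x f := by
  unfold IsLaurentIn
  have h1 : Set.range (fun v => x (π v)) = Set.range x := hπ.range_comp x
  have h2 : Set.range (fun v => (x (π v))⁻¹) = Set.range (fun v => (x v)⁻¹) :=
    hπ.range_comp (fun v => (x v)⁻¹)
  rw [h1, h2]

theorem MutEquiv.comap {s t : Seed V} (h : MutEquiv s t) {π : V → V}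
    (hπ : Function.Bijective π) : MutEquiv (s.comap π) (t.comap π) := by
  induction h with
  | refl => exact MutEquiv.refl
  | step t k _ ih =>
    obtain ⟨j, rfl⟩ := hπ.2 k
    rw [← Seed.comap_mutate hπ.1]
    exact ih.step _ j

theorem reg_val_nonneg {j : V} {u : RatFun V} {n : ℤ} (h1 : Reg j u) (h2 : Val j u n) : 0 ≤ n := by
  by_contra hn
  push Not at hn
  obtain ⟨A, B, hB, rfl⟩ := h1
  obtain ⟨w, ⟨C, D, hC, hD, rfl⟩, e⟩ := h2
  obtain ⟨m, hm⟩ : ∃ m : ℕ, n = -((m : ℤ) + 1) := ⟨(-n - 1).toNat, by omega⟩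
  have hB' := ι_ne_zero (ne_of_θ hB)
  have hD' := ι_ne_zero (ne_of_θ hD)
  have hp := ι_ne_zero (one_add_X_ne_zero j)
  have e1 : ι (A * D * (1 + MvPolynomial.X j) ^ (m + 1)) = ι (C * B) := by
    rw [hm, one_add_cX, zpow_neg] at e
    have : ((m : ℤ) + 1) = ((m + 1 : ℕ) : ℤ) := by push_cast; ring
    rw [this, zpow_natCast] at e
    simp only [map_mul, map_pow]
    field_simp at e
    linear_combination e
  have e2 := congrArg (θ j) (ι_inj e1)
  rw [map_mul, map_mul, map_pow, map_add, map_one, θ_X_self, add_neg_cancel,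
    zero_pow (by omega), mul_zero, map_mul] at e2
  exact mul_ne_zero hC hB e2.symm

end seeds

namespace IdealTriangulation

variable {H T : Type} [DecidableEq H] [DecidableEq T]

theorem IsFlip.conds {Δ Δ' : IdealTriangulation H T} {h : H} (F : IsFlip Δ Δ' h) :
    Δ.next (Δ.glue h) ≠ Δ.glue (Δ.next (Δ.next h)) ∧
    Δ.next h ≠ Δ.glue (Δ.next (Δ.next (Δ.glue h))) := by
  have Q := Δ.quad h
  have F' := F.qflip
  set p := Δ.next h
  set q := Δ.next p
  set h' := Δ.glue h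
  set p' := Δ.next h'
  set q' := Δ.next p'
  constructor
  · intro e
    have h3 := Δ'.not_self_folded q
    rw [F'.glue_eq, ← e, F'.tri_q, F'.tri_other p' Q.p'q Q.pq'.symm, Q.tp'] at h3
    exact h3 rfl
  · intro e
    have h3 := Δ'.not_self_folded q'
    rw [F'.glue_eq, ← e, F'.tri_q', F'.tri_other p Q.pq.symm Q.q'p.symm, Q.tp] at h3
    exact h3 rfl

theorem TriangulationChart.mutEquiv {Δ₀ Δ : IdealTriangulation H T}
    {x : H ⊕ T → RatFun (H ⊕ T)} (h : TriangulationChart Δ₀ Δ x) :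
    ∃ (s : Seed (H ⊕ T)) (π : H ⊕ T → H ⊕ T), MutEquiv (Δ₀.seed cX) s ∧ Function.Bijective π ∧
      Δ.seed x = s.comap π := by
  induction h with
  | base => exact ⟨Δ₀.seed cX, id, MutEquiv.refl, Function.bijective_id, rfl⟩
  | @flip Δ Δ' x h _ F ih =>
    obtain ⟨s, π, hs, hπ, e⟩ := ih
    have Q := Δ.quad h
    obtain ⟨f1, f2⟩ := F.conds
    have hr := relabel_bijective Q
    refine ⟨(((s.mutate (π (inl h))).mutate (π (inl (Δ.glue h)))).mutate
      (π (inr (Δ.tri h)))).mutate (π (inr (Δ.tri (Δ.glue h)))), π ∘ Δ.relabel h, ?_,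
      hπ.comp hr, ?_⟩
    · exact (((hs.step _ _).step _ _).step _ _).step _ _
    · have e4 : S4 Δ x h (Δ.glue h) = ((((s.mutate (π (inl h))).mutate
          (π (inl (Δ.glue h)))).mutate (π (inr (Δ.tri h)))).mutate
          (π (inr (Δ.tri (Δ.glue h))))).comap π := by
        unfold S4 S3 S2 S1
        rw [e, Seed.comap_mutate hπ.1, Seed.comap_mutate hπ.1, Seed.comap_mutate hπ.1,
          Seed.comap_mutate hπ.1]
      apply Seed.ext'
      · funext v w
        change Δ'.exchange v w = _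
        rw [consistency Q F.qflip f1 f2 x v w, e4]
        rfl
      · funext v
        change (S4 Δ x h (Δ.glue h)).x (Δ.relabel h v) = _
        rw [e4]
        rfl

end IdealTriangulation

namespace IdealTriangulation

variable {H T : Type} [Fintype H] [DecidableEq H] [Fintype T] [DecidableEq T]

theorem seed_isChart {Δ₀ Δ : IdealTriangulation H T}
    {x : H ⊕ T → RatFun (H ⊕ T)} (h : TriangulationChart Δ₀ Δ x) : (Δ.seed x).IsChart := by
  obtain ⟨s, π, hs, hπ, e⟩ := h.mutEquiv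
  rw [e]
  exact (hs.isChart (stdSeed_isChart Δ₀.exchange)).comap hπ

/-- Regularity in a triangulation chart and in its flip implies regularity in the charts obtained
by single mutations at the nodes of the quadrilateral. -/
theorem regular_near_flip {s0 : Seed (H ⊕ T)} (hc : s0.IsChart) (hk : s0.Skew)
    {a b c d : H ⊕ T} (hab : a ≠ b) (hcd : c ≠ d) (hac : a ≠ c) (had : a ≠ d) (hbc : b ≠ c)
    (hbd : b ≠ d) (e1 : ((s0.mutate a).mutate b).ε a b = 0)
    (e2 : ((s0.mutate a).mutate b).ε c d = 0) {f : RatFun (H ⊕ T)}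
    (h0 : IsLaurentIn s0.x f)
    (h4 : IsLaurentIn ((((s0.mutate a).mutate b).mutate c).mutate d).x f) :
    IsLaurentIn (s0.mutate a).x f ∧ IsLaurentIn (s0.mutate b).x f ∧
    IsLaurentIn (s0.mutate c).x f ∧ IsLaurentIn (s0.mutate d).x f := by
  set s1 := s0.mutate a with hs1
  set s2 := s1.mutate b with hs2
  set s3 := s2.mutate c with hs3
  set s4 := s3.mutate d with hs4
  have c1 : s1.IsChart := hc.mutate a
  have c2 : s2.IsChart := c1.mutate b
  have c3 : s3.IsChart := c2.mutate c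
  have k1 : s1.Skew := hk.mutate a
  have k2 : s2.Skew := k1.mutate b
  have k3 : s3.Skew := k2.mutate c
  have m1 : s1.mutate a = s0 := hc.mutate_mutate a
  have m2 : s2.mutate b = s1 := c1.mutate_mutate b
  have m3 : s3.mutate c = s2 := c2.mutate_mutate c
  have h2 : IsLaurentIn s2.x f := by
    have e2' : s2.ε d c = 0 := by rw [k2 d c, e2, neg_zero]
    apply lemmaQ c2 (a := a) (b := b) (c := d) (d := c) e1 e2' hab hcd.symm had hac hbd hbc
    · rw [m2, m1]; exact h0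
    · exact h4
  have h1 : IsLaurentIn s1.x f := by
    apply lemmaP c1 hab
    · rw [m1]; exact h0
    · exact h2
  have h3 : IsLaurentIn s3.x f := by
    apply lemmaP c3 hcd
    · rw [m3]; exact h2
    · exact h4
  -- single mutations
  have hb : IsLaurentIn (s0.mutate b).x f := by
    have := lemmaA c1 k1 (j := b) (k := a) hab.symm (f := f) (by rw [m1]; exact h0) h2
    rwa [m1] at this
  have step : ∀ j, j ≠ a → j ≠ b → IsLaurentIn (s2.mutate j).x f → IsLaurentIn (s0.mutate j).x f := by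
    intro j hja hjb hj
    have t1 := lemmaA c2 k2 (j := j) (k := b) hjb (f := f) (by rw [m2]; exact h1) hj
    rw [m2] at t1
    have t2 := lemmaA c1 k1 (j := j) (k := a) hja (f := f) (by rw [m1]; exact h0) t1
    rwa [m1] at t2
  have hc' : IsLaurentIn (s0.mutate c).x f := step c hac.symm hbc.symm h3
  have hd' : IsLaurentIn (s0.mutate d).x f := by
    apply step d had.symm hbd.symm
    have t1 := lemmaA c3 k3 (j := d) (k := c) hcd.symm (f := f) (by rw [m3]; exact h2) h4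
    rwa [m3] at t1
  exact ⟨h1, hb, hc', hd'⟩

/-- A triangulation without punctures of valence two: regularity in its chart and in the charts
of its flips implies regularity in all cluster charts. -/
theorem regular_of_good {Δ₀ Δ : IdealTriangulation H T} {x : H ⊕ T → RatFun (H ⊕ T)}
    (ht : TriangulationChart Δ₀ Δ x) (hgood : ∀ y, ¬ Δ.Bad y) {f : RatFun (H ⊕ T)}
    (hf : ∀ (Δ' : IdealTriangulation H T) (y : H ⊕ T → RatFun (H ⊕ T)),
      TriangulationChart Δ₀ Δ' y → IsLaurentIn y f)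
    {u : Seed (H ⊕ T)} (hu : MutEquiv (Δ.seed x) u) : IsLaurentIn u.x f := by
  have hc : (Δ.seed x).IsChart := seed_isChart ht
  have hk : (Δ.seed x).Skew := Δ.seed_skew x
  have h0 : IsLaurentIn (Δ.seed x).x f := hf Δ x ht
  have main : ∀ h : H, IsLaurentIn ((Δ.seed x).mutate (inl h)).x f ∧
      IsLaurentIn ((Δ.seed x).mutate (inr (Δ.tri h))).x f := by
    intro h
    obtain ⟨Δ', F⟩ := Δ.exists_flip h (Δ.flippable_of_not_bad hgood h)
    have Q := Δ.quad h
    obtain ⟨f1, f2⟩ := F.conds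
    have hf' := hf Δ' _ (ht.flip F)
    have h4 : IsLaurentIn (S4 Δ x h (Δ.glue h)).x f :=
      (isLaurentIn_comap (relabel_bijective Q).2).mp hf'
    have e1 : (S2 Δ x h (Δ.glue h)).ε (inl h) (inl (Δ.glue h)) = 0 := by
      rw [Seed.mutate_ε_right, Seed.mutate_ε_left, neg_neg]
      change Δ.exchange (inl h) (inl (Δ.glue h)) = 0
      simp only [exchange_inl_inl, Q.glue_h', ind_ne Q.hp.symm, ind_ne Q.hp'.symm]
      ring
    have e2 : (S2 Δ x h (Δ.glue h)).ε (inr (Δ.tri h)) (inr (Δ.tri (Δ.glue h))) = 0 := by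
      have := col2 Q f1 f2 x (inr (Δ.tri (Δ.glue h)))
      rw [(((Δ.seed_skew x).mutate _).mutate _) (inr (Δ.tri h)), this]
      simp only [ind_inl_inr]
      ring
    obtain ⟨r1, _, r3, _⟩ := regular_near_flip hc hk (a := inl h) (b := inl (Δ.glue h))
      (c := inr (Δ.tri h)) (d := inr (Δ.tri (Δ.glue h)))
      (by simpa using Q.hh.symm) (by simpa using Q.tt'.symm) (by simp) (by simp) (by simp)
      (by simp) e1 e2 h0 h4
    exact ⟨r1, r3⟩
  apply starfish hc hk h0 ?_ hu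
  rintro (h | t)
  · exact (main h).1
  · obtain ⟨h, rfl⟩ := Δ.tri_surjective t
    exact (main h).2

/-- number of sides starting at a puncture of valence two -/
noncomputable def numBad (Δ : IdealTriangulation H T) : ℕ := Nat.card {x : H // Δ.Bad x}

theorem numBad_lt {Δ Δ' : IdealTriangulation H T} (h1 : ∀ x, Δ'.Bad x → Δ.Bad x) {y : H}
    (h2 : Δ.Bad y) (h3 : ¬ Δ'.Bad y) : Δ'.numBad < Δ.numBad := by
  classical
  unfold numBad
  rw [Nat.card_eq_fintype_card, Nat.card_eq_fintype_card]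
  have hinj : Function.Injective (fun x : {x : H // Δ'.Bad x} => (⟨x.1, h1 _ x.2⟩ : {x : H // Δ.Bad x})) := by
    intro a b e
    have := congrArg Subtype.val e
    exact Subtype.ext this
  apply Fintype.card_lt_of_injective_of_notMem _ hinj (b := ⟨y, h2⟩)
  rintro ⟨⟨z, hz⟩, e⟩
  have : z = y := congrArg Subtype.val e
  rw [this] at hz
  exact h3 hz

theorem exists_good {Δ₀ : IdealTriangulation H T} (hS : ¬ Δ₀.IsThricePuncturedSphere) :
    ∀ (n : ℕ) (Δ : IdealTriangulation H T) (x : H ⊕ T → RatFun (H ⊕ T)),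
    TriangulationChart Δ₀ Δ x → Δ.Connected → Δ.numBad = n →
    ∃ (Δ' : IdealTriangulation H T) (x' : H ⊕ T → RatFun (H ⊕ T)),
      TriangulationChart Δ₀ Δ' x' ∧ ∀ y, ¬ Δ'.Bad y := by
  intro n
  induction n using Nat.strong_induction_on with
  | _ n ih =>
  intro Δ x ht hc hn
  by_cases hgood : ∀ y, ¬ Δ.Bad y
  · exact ⟨Δ, x, ht, hgood⟩
  push Not at hgood
  obtain ⟨h1, hb⟩ := hgood
  have W := two_of_bad hb
  have hab : Δ.glue (Δ.next h1) ≠ Δ.next (Δ.rot h1) := by
    intro e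
    have hsph := Δ.isThricePuncturedSphere_of_two W e hc
    have hall := hsph.bad
    cases ht with
    | base => exact hS hsph
    | flip ht' F => exact F.qflip.not_all_bad (quad _ _) (hall _)
  -- a reduction step from any triangulation satisfying the generic conditions
  have red : ∀ (Δ₁ : IdealTriangulation H T) (x₁ : H ⊕ T → RatFun (H ⊕ T)),
      TriangulationChart Δ₀ Δ₁ x₁ → Δ₁.Connected → (∀ y, Δ₁.Bad y → Δ.Bad y) →
      ∀ {h2 a b : H}, Two Δ₁ h1 h2 a b → Δ₁.glue a ≠ b →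
      Δ₁.next (Δ₁.glue a) ≠ Δ₁.glue b → Δ₁.next (Δ₁.next (Δ₁.glue a)) ≠ Δ₁.glue b →
      ∃ (Δ' : IdealTriangulation H T) (x' : H ⊕ T → RatFun (H ⊕ T)),
        TriangulationChart Δ₀ Δ' x' ∧ ∀ y, ¬ Δ'.Bad y := by
    intro Δ₁ x₁ ht1 hc1 hsub h2 a b W1 g1 g2 g3
    obtain ⟨Δ₂, F, hsub2, hnb⟩ := W1.general g1 g2 g3
    have hlt : Δ₂.numBad < n := by
      rw [← hn]
      exact numBad_lt (fun y hy => hsub y (hsub2 y hy)) hb hnb
    exact ih _ hlt Δ₂ _ (ht1.flip F) (F.qflip.connected (quad _ _) hc1) rfl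
  by_cases e1 : Δ.next (Δ.glue (Δ.next h1)) = Δ.glue (Δ.next (Δ.rot h1))
  · obtain ⟨e, Δ₁, F, hsub, W1, g1, g2, g3⟩ := W.special1 hab e1
    exact red Δ₁ _ (ht.flip F) (F.qflip.connected (quad _ _) hc) hsub W1 g1 g2 g3
  by_cases e2 : Δ.next (Δ.next (Δ.glue (Δ.next h1))) = Δ.glue (Δ.next (Δ.rot h1))
  · obtain ⟨e, Δ₁, F, hsub, W1, g1, g2, g3⟩ := W.special2 hab e2
    exact red Δ₁ _ (ht.flip F) (F.qflip.connected (quad _ _) hc) hsub W1 g1 g2 g3
  exact red Δ x ht hc (fun _ h => h) W hab e1 e2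

/-- positive part -/
theorem positive {Δ₀ : IdealTriangulation H T} (hc : Δ₀.Connected)
    (hS : ¬ Δ₀.IsThricePuncturedSphere) {f : RatFun (H ⊕ T)}
    (hf : ∀ (Δ' : IdealTriangulation H T) (y : H ⊕ T → RatFun (H ⊕ T)),
      TriangulationChart Δ₀ Δ' y → IsLaurentIn y f)
    {u : Seed (H ⊕ T)} (hu : MutEquiv (Δ₀.seed cX) u) : IsLaurentIn u.x f := by
  obtain ⟨Δ, x, ht, hgood⟩ := exists_good hS _ Δ₀ cX TriangulationChart.base hc rfl
  obtain ⟨s, π, hs, hπ, e⟩ := ht.mutEquiv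
  have h1 : MutEquiv s u := (hs.symm (stdSeed_isChart Δ₀.exchange)).trans hu
  have h2 : MutEquiv (Δ.seed x) (u.comap π) := by
    rw [e]; exact h1.comap hπ
  have h3 := regular_of_good ht hgood hf h2
  exact (isLaurentIn_comap hπ.2).mp h3

/-- negative part -/
theorem negative {Δ₀ : IdealTriangulation H T} (hc : Δ₀.Connected)
    (hS : Δ₀.IsThricePuncturedSphere) : ∃ (f : RatFun (H ⊕ T)) (u : Seed (H ⊕ T)),
    (∀ (Δ' : IdealTriangulation H T) (y : H ⊕ T → RatFun (H ⊕ T)),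
      TriangulationChart Δ₀ Δ' y → IsLaurentIn y f) ∧ MutEquiv (Δ₀.seed cX) u ∧
      ¬ IsLaurentIn u.x f := by
  obtain ⟨h⟩ := hc.1
  have hbad := hS.bad
  set t' := Δ₀.tri (Δ₀.glue h) with ht'
  have hstd : (Δ₀.seed cX).IsChart := stdSeed_isChart Δ₀.exchange
  refine ⟨cX (inr t'), (Δ₀.seed cX).mutate (inl h), ?_, MutEquiv.refl.step _ _, ?_⟩
  · intro Δ' y ht
    have : Δ' = Δ₀ ∧ y = cX := by
      induction ht with
      | base => exact ⟨rfl, rfl⟩
      | flip _ F ih =>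
        obtain ⟨rfl, rfl⟩ := ih
        exact (F.false_of_bad hbad).elim
    rw [this.2]
    exact isLaurent_coord _ _
  · intro hL
    set s1 := (Δ₀.seed cX).mutate (inl h) with hs1
    have hc1 : s1.IsChart := hstd.mutate _
    have hk1 : s1.Skew := (Δ₀.seed_skew cX).mutate _
    have hm : s1.mutate (inl h) = Δ₀.seed cX := hstd.mutate_mutate _
    obtain ⟨φ, hφ⟩ := hc1.eq_map
    set g := ((stdSeed s1.ε).mutate (inl h)).x (inr t') with hg
    have hfg : (cX (inr t') : RatFun (H ⊕ T)) = φ g := by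
      have h1 : (s1.mutate (inl h)).x (inr t') = cX (inr t') := by rw [hm]; rfl
      rw [← h1, hφ, Seed.map_mutate]
      rfl
    have hL' : IsLaurentIn (cX : H ⊕ T → RatFun (H ⊕ T)) g := by
      rw [hfg, hφ] at hL
      exact (isLaurentIn_map φ).mp hL
    have hreg : Reg (inl h) g := reg_of_isLaurentIn (fun i => isU_cX i _) hL'
    have hval := key1 (E := s1.ε) (j := inl h) hk1 (inr t')
    have hneg : ((stdSeed s1.ε).mutate (inl h)).ε (inr t') (inl h) = -1 := by
      rw [Seed.mutate_ε_right]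
      change - s1.ε (inr t') (inl h) = -1
      rw [hs1, Seed.mutate_ε_right]
      change - - Δ₀.exchange (inr t') (inl h) = -1
      rw [exchange_inr_inl, ← ht', ind_self, ind_ne (Δ₀.not_self_folded h).symm]
      ring
    rw [hneg] at hval
    have := reg_val_nonneg hreg hval
    omega

theorem dichotomy (Δ₀ : IdealTriangulation H T) (hc : Δ₀.Connected) :
    (∀ f : RatFun (H ⊕ T), Δ₀.RegularOnTriangulationCharts f → Δ₀.RegularOnClusterCharts f) ↔
    ¬ Δ₀.IsThricePuncturedSphere := by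
  constructor
  · intro hall hS
    obtain ⟨f, u, h1, h2, h3⟩ := negative hc hS
    exact h3 (hall f h1 u h2)
  · intro hS f hf u hu
    exact positive hc hS hf hu

end IdealTriangulation

section example03

/-- clockwise rotation in the triangles `(0, 1, 2)` and `(3, 4, 5)` -/
def next03 : Equiv.Perm (Fin 6) where
  toFun := ![1, 2, 0, 4, 5, 3]
  invFun := ![2, 0, 1, 5, 3, 4]
  left_inv := by decide
  right_inv := by decide

/-- gluing of the two triangles along their boundaries -/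
def glue03 : Equiv.Perm (Fin 6) where
  toFun := ![3, 5, 4, 0, 2, 1]
  invFun := ![3, 5, 4, 0, 2, 1]
  left_inv := by decide
  right_inv := by decide

/-- The ideal triangulation of the thrice-punctured sphere with two triangles. -/
def sphere03 : IdealTriangulation (Fin 6) (Fin 2) where
  glue := glue03
  next := next03
  tri := ![0, 0, 0, 1, 1, 1]
  glue_glue := by decide
  next_next_next := by decide
  next_ne := by decide
  tri_next := by decide
  eq_of_tri_eq := by decide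
  tri_surjective := by decide
  not_self_folded := by decide

theorem sphere03_connected : sphere03.Connected := by
  refine ⟨⟨0⟩, fun S hS hcl => ?_⟩
  have hg : ∀ x ∈ S, glue03 x ∈ S := fun x hx => (hcl x hx).1
  have hn : ∀ x ∈ S, next03 x ∈ S := fun x hx => (hcl x hx).2
  have n01 : (0 : Fin 6) ∈ S → (1 : Fin 6) ∈ S := fun h => hn 0 h
  have n12 : (1 : Fin 6) ∈ S → (2 : Fin 6) ∈ S := fun h => hn 1 h
  have n20 : (2 : Fin 6) ∈ S → (0 : Fin 6) ∈ S := fun h => hn 2 h
  have n34 : (3 : Fin 6) ∈ S → (4 : Fin 6) ∈ S := fun h => hn 3 h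
  have n45 : (4 : Fin 6) ∈ S → (5 : Fin 6) ∈ S := fun h => hn 4 h
  have n53 : (5 : Fin 6) ∈ S → (3 : Fin 6) ∈ S := fun h => hn 5 h
  have g03 : (0 : Fin 6) ∈ S → (3 : Fin 6) ∈ S := fun h => hg 0 h
  have g30 : (3 : Fin 6) ∈ S → (0 : Fin 6) ∈ S := fun h => hg 3 h
  obtain ⟨x, hx⟩ := hS
  have h0 : (0 : Fin 6) ∈ S := by
    fin_cases x
    · exact hx
    · exact n20 (n12 hx)
    · exact n20 hx
    · exact g30 hx
    · exact g30 (n53 (n45 hx))
    · exact g30 (n53 hx)
  ext y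
  simp only [Set.mem_univ, iff_true]
  fin_cases y
  · exact h0
  · exact n01 h0
  · exact n12 (n01 h0)
  · exact g03 h0
  · exact n34 (g03 h0)
  · exact n45 (n34 (g03 h0))

theorem sphere03_isThricePuncturedSphere : sphere03.IsThricePuncturedSphere := by
  have h3 := sphere03.two_mul_numEdges
  have hb : ∀ x, sphere03.Bad x := by
    intro x
    fin_cases x <;> rfl
  have h5 := sphere03.two_mul_numPunctures_iff.mpr hb
  simp only [Fintype.card_fin] at h3 h5
  refine ⟨?_, by omega⟩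
  unfold IdealTriangulation.eulerChar
  rw [Nat.card_eq_fintype_card, Fintype.card_fin]
  omega

end example03

end

end Pool.Agent.Helper18.PGL3
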