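import Mathlib

open Polynomial
open scoped QuadraticAlgebra

noncomputable section

namespace Helper18.Shgh

/-- The coordinate ring of the affine curve `v² = 1 - z⁴`. -/
abbrev CR := QuadraticAlgebra ℂ[X] (1 - X ^ 4) 0

/-- the coordinate `z` -/
def zz : CR := ⟨X, 0⟩
/-- the coordinate `v` -/
def vv : CR := ⟨0, 1⟩

theorem cr_mul (f g : CR) : f * g =
    ⟨f.re * g.re + (1 - X ^ 4) * f.im * g.im, f.re * g.im + f.im * g.re⟩ := by
  ext <;> simp

theorem zz_eq : zz = algebraMap ℂ[X] CR X := rfl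

theorem zz_pow (n : ℕ) : zz ^ n = ⟨X ^ n, 0⟩ := by
  rw [zz_eq, ← map_pow]; rfl

theorem vv_sq : vv * vv = 1 - zz ^ 4 := by
  rw [zz_pow]
  ext1 <;> simp [vv]

/-- The derivation `z ↦ v`, `v ↦ -2 z³`. -/
def DD : CR →ₗ[ℂ] CR where
  toFun f := ⟨(1 - X ^ 4) * derivative f.im - 2 * X ^ 3 * f.im, derivative f.re⟩
  map_add' f g := by ext1 <;> simp <;> ring
  map_smul' c f := by
    ext1
    · simp only [QuadraticAlgebra.im_smul, QuadraticAlgebra.re_smul, derivative_smul,
        RingHom.id_apply, smul_sub, mul_smul_comm]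
    · simp

theorem DD_apply (f : CR) :
    DD f = ⟨(1 - X ^ 4) * derivative f.im - 2 * X ^ 3 * f.im, derivative f.re⟩ := rfl

theorem DD_mul (f g : CR) : DD (f * g) = DD f * g + f * DD g := by
  rw [DD_apply, DD_apply, DD_apply]
  ext1
  · simp only [cr_mul, QuadraticAlgebra.re_add, derivative_add, derivative_mul]
    ring
  · simp only [cr_mul, QuadraticAlgebra.im_add, derivative_add, derivative_mul, derivative_sub,
      derivative_one, derivative_X_pow]
    simp only [map_ofNat, Nat.cast_ofNat, Nat.add_one_sub_one]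
    ring

theorem DD_zz : DD zz = vv := by
  rw [DD_apply]; ext1 <;> simp [zz, vv]

theorem DD_vv : DD vv = -2 * zz ^ 3 := by
  rw [zz_pow, DD_apply]
  ext1 <;> simp [vv]

/-- Points of the affine curve `v² = 1 - z⁴` with `v ≠ 0`. -/
structure Pt where
  z : ℂ
  v : ℂ
  h : v ^ 2 = 1 - z ^ 4
  hv : v ≠ 0

/-- evaluation at a point -/
def ev (q : Pt) : CR →+* ℂ where
  toFun f := f.re.eval q.z + f.im.eval q.z * q.v
  map_one' := by simp
  map_zero' := by simp
  map_add' f g := by simp; ring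
  map_mul' f g := by
    simp only [cr_mul, eval_add, eval_mul, eval_sub, eval_one, eval_pow, eval_X]
    linear_combination (-(f.im.eval q.z * g.im.eval q.z)) * q.h

theorem ev_apply (q : Pt) (f : CR) : ev q f = f.re.eval q.z + f.im.eval q.z * q.v := rfl

theorem ev_smul (q : Pt) (c : ℂ) (f : CR) : ev q (c • f) = c * ev q f := by
  simp [ev_apply]; ring

theorem ev_zz (q : Pt) : ev q zz = q.z := by simp [ev_apply, zz]
theorem ev_vv (q : Pt) : ev q vv = q.v := by simp [ev_apply, vv]

/-- Taylor expansion at the point `q` along the flow of `DD`. -/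
def T (q : Pt) (f : CR) : PowerSeries ℂ :=
  PowerSeries.mk fun a => ev q (DD^[a] f) / (a.factorial : ℂ)

theorem coeff_T (q : Pt) (f : CR) (a : ℕ) :
    PowerSeries.coeff a (T q f) = ev q (DD^[a] f) / (a.factorial : ℂ) := by
  rw [T, PowerSeries.coeff_mk]

theorem coeff_T_succ (q : Pt) (f : CR) (a : ℕ) :
    PowerSeries.coeff (a + 1) (T q f) * (a + 1) = PowerSeries.coeff a (T q (DD f)) := by
  rw [coeff_T, coeff_T, Function.iterate_succ_apply, Nat.factorial_succ]
  push_cast
  have h1 : (a.factorial : ℂ) ≠ 0 := by exact_mod_cast a.factorial_ne_zero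
  have h2 : (a : ℂ) + 1 ≠ 0 := by exact_mod_cast a.succ_ne_zero
  field_simp

theorem T_add (q : Pt) (f g : CR) : T q (f + g) = T q f + T q g := by
  ext a
  rw [map_add, coeff_T, coeff_T, coeff_T, iterate_map_add, map_add]
  ring

theorem T_smul (q : Pt) (c : ℂ) (f : CR) : T q (c • f) = c • T q f := by
  ext a
  rw [PowerSeries.coeff_smul, coeff_T, coeff_T]
  have : DD^[a] (c • f) = c • DD^[a] f := by
    induction a with
    | zero => rfl
    | succ a ih => rw [Function.iterate_succ_apply', Function.iterate_succ_apply', ih, map_smul]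
  rw [this, ev_smul, smul_eq_mul]
  ring

theorem T_mul (q : Pt) (f g : CR) : T q (f * g) = T q f * T q g := by
  ext a
  induction a generalizing f g with
  | zero =>
    rw [PowerSeries.coeff_mul, Finset.Nat.antidiagonal_zero, Finset.sum_singleton,
      coeff_T, coeff_T, coeff_T]
    simp
  | succ a ih =>
    have h2 : (a : ℂ) + 1 ≠ 0 := by exact_mod_cast a.succ_ne_zero
    apply mul_right_cancel₀ h2
    rw [coeff_T_succ, DD_mul, T_add, map_add, ih, ih]
    have key : ∀ (A B : PowerSeries ℂ), PowerSeries.coeff (a + 1) (A * B) * ((a : ℂ) + 1) =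
        PowerSeries.coeff a (PowerSeries.derivative ℂ (A * B)) := by
      intro A B
      rw [PowerSeries.coeff_derivative]
    rw [key, Derivation.leibniz, map_add]
    have hd : ∀ f : CR, PowerSeries.derivative ℂ (T q f) = T q (DD f) := by
      intro f
      ext n
      rw [PowerSeries.coeff_derivative, coeff_T_succ]
    rw [hd, hd, smul_eq_mul, smul_eq_mul, mul_comm (T q g)]
    ring

theorem T_one (q : Pt) : T q 1 = 1 := by
  ext a
  rw [coeff_T, PowerSeries.coeff_one]
  cases a with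
  | zero => simp
  | succ a =>
    have h1 : DD 1 = 0 := by rw [DD_apply]; ext1 <;> simp
    have h2 : DD^[a + 1] (1 : CR) = 0 := by
      rw [Function.iterate_succ_apply, h1]
      exact iterate_map_zero DD a
    rw [h2]
    simp

/-- Taylor expansion as a ring homomorphism. -/
def TH (q : Pt) : CR →+* PowerSeries ℂ where
  toFun := T q
  map_one' := T_one q
  map_mul' := T_mul q
  map_zero' := by simpa using T_smul q 0 0
  map_add' := T_add q

theorem TH_apply (q : Pt) (f : CR) : TH q f = T q f := rfl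

theorem TH_smul (q : Pt) (c : ℂ) (f : CR) : TH q (c • f) = c • TH q f := T_smul q c f

theorem coeff_zero_TH (q : Pt) (f : CR) : PowerSeries.constantCoeff (TH q f) = ev q f := by
  rw [← PowerSeries.coeff_zero_eq_constantCoeff_apply, TH_apply, coeff_T]
  simp

/-- the elements vanishing to order at least `n` at `q` -/
def Ord (q : Pt) (n : ℕ) : Submodule ℂ CR where
  carrier := {f | (PowerSeries.X : PowerSeries ℂ) ^ n ∣ TH q f}
  add_mem' := by
    intro f g hf hg
    simp only [Set.mem_ofPred_eq, map_add] at *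
    exact dvd_add hf hg
  zero_mem' := by simp
  smul_mem' := by
    intro c f hf
    simp only [Set.mem_ofPred_eq] at *
    rw [TH_smul, PowerSeries.smul_eq_C_mul]
    exact Dvd.dvd.mul_left hf _

theorem mem_Ord {q : Pt} {n : ℕ} {f : CR} :
    f ∈ Ord q n ↔ (PowerSeries.X : PowerSeries ℂ) ^ n ∣ TH q f := Iff.rfl

theorem mem_Ord_iff {q : Pt} {n : ℕ} {f : CR} :
    f ∈ Ord q n ↔ ∀ a < n, ev q (DD^[a] f) = 0 := by
  rw [mem_Ord, PowerSeries.X_pow_dvd_iff]
  apply forall₂_congr
  intro a _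
  rw [TH_apply, coeff_T, div_eq_zero_iff]
  have h1 : (a.factorial : ℂ) ≠ 0 := by exact_mod_cast a.factorial_ne_zero
  simp [h1]

theorem Ord_zero (q : Pt) (f : CR) : f ∈ Ord q 0 := by
  rw [mem_Ord, pow_zero]; exact one_dvd _

theorem Ord_anti (q : Pt) {a b : ℕ} (h : a ≤ b) {f : CR} (hf : f ∈ Ord q b) : f ∈ Ord q a :=
  (pow_dvd_pow _ h).trans hf

theorem Ord_mul {q : Pt} {a b : ℕ} {f g : CR} (hf : f ∈ Ord q a) (hg : g ∈ Ord q b) :
    f * g ∈ Ord q (a + b) := by
  rw [mem_Ord, map_mul, pow_add]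
  exact mul_dvd_mul hf hg

theorem Ord_mul_left {q : Pt} {b : ℕ} (f : CR) {g : CR} (hg : g ∈ Ord q b) :
    f * g ∈ Ord q b := by
  rw [mem_Ord, map_mul]
  exact Dvd.dvd.mul_left hg _

theorem Ord_mul_right {q : Pt} {b : ℕ} (f : CR) {g : CR} (hg : g ∈ Ord q b) :
    g * f ∈ Ord q b := by
  rw [mul_comm]; exact Ord_mul_left f hg

theorem Ord_pow {q : Pt} {a : ℕ} {f : CR} (hf : f ∈ Ord q a) (k : ℕ) :
    f ^ k ∈ Ord q (k * a) := by
  rw [mem_Ord, map_pow, mul_comm, pow_mul]
  exact pow_dvd_pow_of_dvd hf k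

theorem mem_Ord_one {q : Pt} {f : CR} : f ∈ Ord q 1 ↔ ev q f = 0 := by
  rw [mem_Ord, pow_one, PowerSeries.X_dvd_iff, coeff_zero_TH]

/-- multiplication by an element not vanishing at `q` does not change the order -/
theorem Ord_of_mul {q : Pt} {n : ℕ} {u f : CR} (hu : ev q u ≠ 0) (h : u * f ∈ Ord q n) :
    f ∈ Ord q n := by
  rw [mem_Ord, map_mul] at h
  rw [mem_Ord]
  have hunit : IsUnit (TH q u) := by
    rw [PowerSeries.isUnit_iff_constantCoeff, coeff_zero_TH]
    exact isUnit_iff_ne_zero.2 hu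
  exact (hunit.dvd_mul_left).1 h

theorem TH_X_sub (q : Pt) : ∃ A : PowerSeries ℂ, PowerSeries.constantCoeff A ≠ 0 ∧
    TH q (algebraMap ℂ[X] CR (X - C q.z)) = PowerSeries.X * A := by
  refine ⟨PowerSeries.mk fun p => PowerSeries.coeff (p + 1)
    (TH q (algebraMap ℂ[X] CR (X - C q.z))), ?_, ?_⟩
  · rw [← PowerSeries.coeff_zero_eq_constantCoeff_apply, PowerSeries.coeff_mk, TH_apply, coeff_T]
    have : DD^[0 + 1] (algebraMap ℂ[X] CR (X - C q.z)) = ⟨0, 1⟩ := by
      simp only [zero_add, Function.iterate_one, QuadraticAlgebra.algebraMap_eq, DD_apply]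
      ext1 <;> simp
    rw [this, ev_apply]
    simpa using q.hv
  · have h := PowerSeries.sub_const_eq_X_mul_shift (TH q (algebraMap ℂ[X] CR (X - C q.z)))
    rw [coeff_zero_TH, ev_apply] at h
    simpa [QuadraticAlgebra.algebraMap_eq] using h

theorem dvd_of_Ord (q : Pt) (n : ℕ) (P : ℂ[X]) (h : algebraMap ℂ[X] CR P ∈ Ord q n) :
    (X - C q.z) ^ n ∣ P := by
  by_cases hP : P = 0
  · rw [hP]; exact dvd_zero _
  obtain ⟨P₁, h1, h2⟩ := exists_eq_pow_rootMultiplicity_mul_and_not_dvd P hP q.z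
  set e := rootMultiplicity q.z P with he
  by_contra hcon
  have hlt : e < n := by
    by_contra h3
    push Not at h3
    exact hcon ((pow_dvd_pow _ h3).trans ⟨P₁, h1⟩)
  obtain ⟨A, hA, hA2⟩ := TH_X_sub q
  have h4 : algebraMap ℂ[X] CR P ∈ Ord q (e + 1) := Ord_anti q hlt h
  rw [mem_Ord, h1, map_mul, map_mul, map_pow, map_pow, hA2, mul_pow, mul_assoc, pow_succ] at h4
  have hX : (PowerSeries.X : PowerSeries ℂ) ^ e ≠ 0 := pow_ne_zero _ PowerSeries.X_ne_zero
  have h5 := (mul_dvd_mul_iff_left hX).1 h4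
  rw [PowerSeries.X_dvd_iff, map_mul, map_pow, coeff_zero_TH, ev_apply] at h5
  have h6 : P₁.eval q.z ≠ 0 := by
    intro h7
    exact h2 (dvd_iff_isRoot.2 h7)
  rcases mul_eq_zero.1 h5 with h | h
  · exact pow_ne_zero e hA h
  · rw [QuadraticAlgebra.algebraMap_eq] at h
    simp at h
    exact h6 h

theorem algebraMap_re_add_im (f : CR) :
    f = algebraMap ℂ[X] CR f.re + algebraMap ℂ[X] CR f.im * vv := by
  ext1 <;> simp [QuadraticAlgebra.algebraMap_eq, vv]

/-- if `h` and its conjugate vanish to order `n` at `q` then both components are divisible by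
`(z - q.z)^n` -/
theorem dvd_re_im {q : Pt} {n : ℕ} {h : CR} (h1 : h ∈ Ord q n) (h2 : star h ∈ Ord q n) :
    (X - C q.z) ^ n ∣ h.re ∧ (X - C q.z) ^ n ∣ h.im := by
  have e1 : algebraMap ℂ[X] CR (2 * h.re) = h + star h := by
    ext1 <;> simp [QuadraticAlgebra.algebraMap_eq]; ring
  have e2 : vv * algebraMap ℂ[X] CR (2 * h.im) = h - star h := by
    ext1 <;> simp [QuadraticAlgebra.algebraMap_eq, vv]; ring
  have h3 : algebraMap ℂ[X] CR (2 * h.re) ∈ Ord q n := by
    rw [e1]; exact (Ord q n).add_mem h1 h2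
  have h4 : algebraMap ℂ[X] CR (2 * h.im) ∈ Ord q n := by
    apply Ord_of_mul (u := vv) (by rw [ev_vv]; exact q.hv)
    rw [e2]; exact (Ord q n).sub_mem h1 h2
  have hu : IsUnit (2 : ℂ[X]) := by
    have : (2 : ℂ[X]) = C 2 := rfl
    rw [this]
    exact isUnit_C.2 (isUnit_iff_ne_zero.2 two_ne_zero)
  exact ⟨(hu.dvd_mul_left).1 (dvd_of_Ord q n _ h3), (hu.dvd_mul_left).1 (dvd_of_Ord q n _ h4)⟩

theorem poly_aux {A B : ℂ[X]} (h1 : A * A = (1 - X ^ 4) * B * B) : A = 0 ∧ B = 0 := by
  by_cases him : B = 0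
  · rw [him, mul_zero] at h1
    exact ⟨mul_self_eq_zero.1 h1, him⟩
  · exfalso
    have hre : A ≠ 0 := by
      intro h2
      rw [h2, mul_zero] at h1
      have h3 : (1 - X ^ 4 : ℂ[X]) ≠ 0 := by
        intro h4
        have := congrArg (eval 0) h4
        simp at this
      exact (mul_ne_zero (mul_ne_zero h3 him) him) h1.symm
    have h4 : (1 - X ^ 4 : ℂ[X]) = (X - C 1) * (-(X ^ 3 + X ^ 2 + X + 1)) := by
      rw [C_1]; ring
    have hg : (-(X ^ 3 + X ^ 2 + X + 1) : ℂ[X]) ≠ 0 := by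
      intro h5
      have := congrArg (eval 0) h5
      simp at this
    have hroot : rootMultiplicity 1 (-(X ^ 3 + X ^ 2 + X + 1) : ℂ[X]) = 0 := by
      rw [rootMultiplicity_eq_zero_iff]
      intro h5
      rw [IsRoot] at h5
      simp at h5
      norm_num at h5
    have h5 := congrArg (rootMultiplicity 1) h1
    rw [rootMultiplicity_mul (mul_ne_zero hre hre), mul_assoc, rootMultiplicity_mul
      (mul_ne_zero (by rw [h4]; exact mul_ne_zero (X_sub_C_ne_zero 1) hg) (mul_ne_zero him him)),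
      rootMultiplicity_mul (mul_ne_zero him him), h4,
      rootMultiplicity_mul (mul_ne_zero (X_sub_C_ne_zero 1) hg),
      rootMultiplicity_X_sub_C_self, hroot] at h5
    omega

theorem norm_ne_zero {f : CR} (hf : f ≠ 0) : QuadraticAlgebra.norm f ≠ 0 := by
  intro h
  rw [QuadraticAlgebra.norm_def] at h
  have h1 : f.re * f.re = (1 - X ^ 4) * f.im * f.im := by linear_combination h
  obtain ⟨h2, h3⟩ := poly_aux h1
  exact hf (by ext1 <;> simp [h2, h3])

instance : NoZeroDivisors CR where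
  eq_zero_or_eq_zero_of_mul_eq_zero {a b} h := by
    by_contra hcon
    push Not at hcon
    have h1 := congrArg QuadraticAlgebra.norm h
    rw [map_mul, QuadraticAlgebra.norm_zero] at h1
    rcases mul_eq_zero.1 h1 with h2 | h2
    · exact norm_ne_zero hcon.1 h2
    · exact norm_ne_zero hcon.2 h2

instance : IsDomain CR := NoZeroDivisors.to_isDomain _

end Helper18.Shgh
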