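import Pool.Agent.Helper18.ShghLim

open Module

noncomputable section

namespace Helper18.Shgh

theorem DT_cc_pow_mul (n a : ℕ) (F : R2) : DT^[a] (cc ^ n * F) = cc ^ n * DT^[a] F := by
  induction a generalizing F with
  | zero => rfl
  | succ a ih =>
    rw [Function.iterate_succ_apply, Function.iterate_succ_apply]
    have : DT (cc ^ n * F) = cc ^ n * DT F := by
      rw [Derivation.leibniz, Derivation.leibniz_pow, DT_cc]
      simp
    rw [this, ih]

theorem rho_DT_iterate (a : ℕ) (F : R2) : rho (DT^[a] F) = DD^[a] (rho F) := by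
  induction a generalizing F with
  | zero => rfl
  | succ a ih => rw [Function.iterate_succ_apply, Function.iterate_succ_apply, ih, rho_DT]

/-- the leading part of the iterated transversal derivative of a multiple of `c ^ k` -/
theorem exists_op (k b : ℕ) (hb : b ≤ k) : ∃ A : R2 →ₗ[ℂ] R2,
    (∀ G, DY^[b] (cc ^ k * G) = cc ^ (k - b) * A G) ∧
    ∀ G, ∃ B, A G = (k.descFactorial b : ℂ) • ((2 * MvPolynomial.X 1) ^ b * G) + cc * B := by
  induction b with
  | zero =>
    refine ⟨LinearMap.id, fun G => rfl, fun G => ⟨0, ?_⟩⟩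
    simp
  | succ b ih =>
    obtain ⟨A, h1, h2⟩ := ih (by omega)
    refine ⟨(((k - b : ℕ) : ℂ)) • ((LinearMap.mulLeft ℂ (2 * MvPolynomial.X 1 : R2)) ∘ₗ A) +
      (LinearMap.mulLeft ℂ cc) ∘ₗ DY.toLinearMap ∘ₗ A, ?_, ?_⟩
    · intro G
      rw [Function.iterate_succ_apply', h1, Derivation.leibniz, Derivation.leibniz_pow, DY_cc]
      have e1 : k - b = (k - (b + 1)) + 1 := by omega
      have e2 : (((k - b : ℕ) : ℂ)) • ((2 * MvPolynomial.X 1 : R2) * A G) =
          ((k - b : ℕ) : R2) * (2 * MvPolynomial.X 1 * A G) := by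
        rw [Algebra.smul_def, map_natCast]
      simp only [LinearMap.add_apply, LinearMap.smul_apply, LinearMap.comp_apply,
        LinearMap.mulLeft_apply, smul_eq_mul, nsmul_eq_mul, e2]
      have e3 : k - b - 1 = k - (b + 1) := by omega
      have e4 : cc ^ (k - b) = cc ^ (k - (b + 1)) * cc := by rw [← pow_succ, ← e1]
      rw [e3, e4]
      change cc ^ (k - (b + 1)) * cc * DY (A G) + A G * _ = cc ^ (k - (b + 1)) *
        (_ + cc * DY (A G))
      ring
    · intro G
      obtain ⟨B, hB⟩ := h2 G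
      refine ⟨((k - b : ℕ) : R2) * (2 * MvPolynomial.X 1 * B) + DY (A G), ?_⟩
      simp only [LinearMap.add_apply, LinearMap.smul_apply, LinearMap.comp_apply,
        LinearMap.mulLeft_apply]
      change (((k - b : ℕ) : ℂ)) • ((2 * MvPolynomial.X 1 : R2) * A G) + cc * DY (A G) = _
      rw [show A G = (k.descFactorial b : ℂ) • ((2 * MvPolynomial.X 1) ^ b * G) + cc * B from hB,
        Nat.descFactorial_succ]
      simp only [Algebra.smul_def, map_natCast, Nat.cast_mul, map_mul]
      ring

/-- substitution of a moving point -/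
def phi (x y η : ℂ) : R2 →ₐ[ℂ] Polynomial ℂ :=
  MvPolynomial.aeval ![Polynomial.C x, Polynomial.C y + Polynomial.C η * Polynomial.X]

theorem eval_phi (x y η t : ℂ) (F : R2) :
    (phi x y η F).eval t = MvPolynomial.eval ![x, y + η * t] F := by
  have h : (Polynomial.aeval t).comp (phi x y η) =
      (MvPolynomial.aeval ![x, y + η * t] : R2 →ₐ[ℂ] ℂ) := by
    apply MvPolynomial.algHom_ext
    intro i
    fin_cases i <;> simp [phi]
  have h2 := DFunLike.congr_fun h F
  rw [AlgHom.comp_apply, Polynomial.coe_aeval_eq_eval] at h2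
  rw [h2, MvPolynomial.aeval_eq_eval]

theorem phi_cc {x y η : ℂ} (h : y ^ 2 - x + x ^ 3 = 0) : phi x y η cc =
    Polynomial.X * (Polynomial.C (2 * y * η) + Polynomial.C (η ^ 2) * Polynomial.X) := by
  have h1 : Polynomial.C y ^ 2 - Polynomial.C x + Polynomial.C x ^ 3 = 0 := by
    rw [← Polynomial.C_pow, ← Polynomial.C_pow, ← Polynomial.C_sub, ← Polynomial.C_add, h, map_zero]
  rw [cc, map_add, map_sub, map_pow, map_pow]
  have e0 : phi x y η (MvPolynomial.X 0) = Polynomial.C x := by simp [phi]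
  have e1 : phi x y η (MvPolynomial.X 1) =
    Polynomial.C y + Polynomial.C η * Polynomial.X := by simp [phi]
  rw [e0, e1]
  simp only [map_mul, map_pow, map_ofNat]
  linear_combination h1

/-- the `y`-coordinate of a point -/
def Pt.y (q : Pt) : ℂ := q.z * q.v

theorem Pt.y_ne_zero {q : Pt} (hz : q.z ≠ 0) : q.y ≠ 0 := mul_ne_zero hz q.hv

theorem Pt.curve (q : Pt) : q.y ^ 2 - (q.z ^ 2) + (q.z ^ 2) ^ 3 = 0 := by
  have := q.h
  rw [Pt.y]
  linear_combination q.z ^ 2 * this

/-- the transversal speed -/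
def Pt.eta (q : Pt) : ℂ := ev q pp / (2 * q.y)

theorem Pt.two_y_eta {q : Pt} (hz : q.z ≠ 0) : 2 * q.y * q.eta = ev q pp := by
  have h := Pt.y_ne_zero hz
  rw [Pt.eta]
  field_simp

/-- the functionals of the degeneration -/
theorem exists_T (q : Pt) (hz : q.z ≠ 0) (j a b k : ℕ) (hb : b ≤ j) (hk : k ≤ j) :
    ∃ T : R2 →ₗ[ℂ] Polynomial ℂ,
      (∀ G, Polynomial.X ^ (j - b) * T G =
        Polynomial.X ^ (j - k) * phi (q.z ^ 2) q.y q.eta (DT^[a] (DY^[b] (cc ^ k * G)))) ∧
      ∀ G, (T G).eval 0 = (k.descFactorial b : ℂ) * (ev q pp) ^ (k - b) *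
        MvPolynomial.eval q.pt (DT^[a] ((2 * MvPolynomial.X 1) ^ b * G)) := by
  rcases le_or_gt b k with hbk | hbk
  · obtain ⟨A, h1, h2⟩ := exists_op k b hbk
    set κ : Polynomial ℂ := Polynomial.C (2 * q.y * q.eta) +
      Polynomial.C (q.eta ^ 2) * Polynomial.X with hκ
    refine ⟨(LinearMap.mulLeft ℂ (κ ^ (k - b))) ∘ₗ (phi (q.z ^ 2) q.y q.eta).toLinearMap ∘ₗ
      (DT.toLinearMap ^ a) ∘ₗ A, ?_, ?_⟩
    · intro G
      rw [h1, DT_cc_pow_mul, map_mul, map_pow, phi_cc q.curve, ← hκ]
      simp only [LinearMap.comp_apply, LinearMap.mulLeft_apply, Module.End.pow_apply]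
      change _ * (_ * phi (q.z ^ 2) q.y q.eta (DT^[a] (A G))) = _
      rw [mul_pow, show j - b = (j - k) + (k - b) by omega, pow_add]
      ring
    · intro G
      simp only [LinearMap.comp_apply, LinearMap.mulLeft_apply, Module.End.pow_apply]
      change (κ ^ (k - b) * phi (q.z ^ 2) q.y q.eta (DT^[a] (A G))).eval 0 = _
      rw [Polynomial.eval_mul, Polynomial.eval_pow, eval_phi]
      have e1 : κ.eval 0 = ev q pp := by
        rw [hκ]; simp [Pt.two_y_eta hz]
      have e2 : (![q.z ^ 2, q.y + q.eta * 0] : Fin 2 → ℂ) = q.pt := by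
        rw [mul_zero, add_zero]; rfl
      rw [e1, e2]
      obtain ⟨B, hB⟩ := h2 G
      have e3 : DT^[a] (A G) = (k.descFactorial b : ℂ) •
          DT^[a] ((2 * MvPolynomial.X 1) ^ b * G) + cc * DT^[a] B := by
        rw [hB, iterate_map_add]
        congr 1
        · have : ∀ (n : ℕ) (s : ℂ) (F : R2), DT^[n] (s • F) = s • DT^[n] F := by
            intro n s F
            induction n generalizing F with
            | zero => rfl
            | succ n ih =>
              rw [Function.iterate_succ_apply, Function.iterate_succ_apply, Derivation.map_smul, ih]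
          exact this a _ _
        · have := DT_cc_pow_mul 1 a B
          rwa [pow_one] at this
      rw [e3, map_add, map_mul]
      have e4 : MvPolynomial.eval q.pt cc = 0 := mem_mI_iff.1 (cc_mem q)
      rw [e4, zero_mul, add_zero, MvPolynomial.smul_eval]
      ring
  · refine ⟨(LinearMap.mulLeft ℂ (Polynomial.X ^ (b - k))) ∘ₗ
      (phi (q.z ^ 2) q.y q.eta).toLinearMap ∘ₗ
      (DT.toLinearMap ^ a) ∘ₗ (DY.toLinearMap ^ b) ∘ₗ LinearMap.mulLeft ℂ (cc ^ k), ?_, ?_⟩
    · intro G
      simp only [LinearMap.comp_apply, LinearMap.mulLeft_apply, Module.End.pow_apply]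
      change _ * (_ * phi (q.z ^ 2) q.y q.eta (DT^[a] (DY^[b] (cc ^ k * G)))) = _
      rw [← mul_assoc, ← pow_add, show j - b + (b - k) = j - k by omega]
    · intro G
      simp only [LinearMap.comp_apply, LinearMap.mulLeft_apply, Module.End.pow_apply]
      rw [Polynomial.eval_mul, Polynomial.eval_pow, Polynomial.eval_X, zero_pow (by omega),
        zero_mul, Nat.descFactorial_of_lt hbk]
      simp

end Helper18.Shgh
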