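import Pool.Agent.Helper18.ShghDeg2
import Pool.Agent.Helper18.ShghNine

open Module

noncomputable section

namespace Helper18.Shgh

/-- the polynomial whose roots are the abscissas of the nine points -/
def Tp : Polynomial ℂ := Polynomial.X ^ 9 + Polynomial.X ^ 2 - 1

theorem Tp_eval (x : ℂ) : Tp.eval x = x ^ 9 + x ^ 2 - 1 := by simp [Tp]

theorem Tp_natDegree : Tp.natDegree = 9 := by
  rw [Tp]; compute_degree!

theorem Tp_ne_zero : Tp ≠ 0 := by
  intro h
  have := Tp_natDegree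
  rw [h] at this
  simp at this

theorem Tp_nodup : Tp.roots.Nodup := by
  rw [Multiset.nodup_iff_count_le_one]
  intro x
  rw [Polynomial.count_roots]
  by_contra hlt
  push Not at hlt
  rw [Polynomial.one_lt_rootMultiplicity_iff_isRoot Tp_ne_zero] at hlt
  obtain ⟨h1, h2⟩ := hlt
  rw [Polynomial.IsRoot] at h1 h2
  have h3 : x ^ 9 + x ^ 2 - 1 = 0 := by simpa [Tp] using h1
  have h4 : 9 * x ^ 8 + 2 * x = 0 := by
    have h := h2
    simp [Tp] at h
    linear_combination h
  have h5 : x ≠ 0 := by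
    rintro rfl
    norm_num at h3
  have h6 : 9 * x ^ 7 + 2 = 0 := by
    apply mul_left_cancel₀ h5
    linear_combination h4
  have h7 : 7 * x ^ 2 = 9 := by
    linear_combination 9 * h3 - x ^ 2 * h6
  have h8 : (7 * x ^ 2) ^ 7 * 81 = 7 ^ 7 * (9 * x ^ 7) ^ 2 := by ring
  rw [h7, show 9 * x ^ 7 = -2 by linear_combination h6] at h8
  norm_num at h8

theorem exists_nine_roots : ∃ x : Fin 9 → ℂ, Function.Injective x ∧
    ∀ i, x i ^ 9 + x i ^ 2 - 1 = 0 := by
  have h1 : Tp.roots.toFinset.card = 9 := by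
    rw [Multiset.toFinset_card_of_nodup Tp_nodup, IsAlgClosed.card_roots_eq_natDegree,
      Tp_natDegree]
  let e := (Finset.equivFinOfCardEq h1).symm
  refine ⟨fun i => (e i : ℂ), fun i j h => e.injective (Subtype.ext h), fun i => ?_⟩
  have h2 := (e i).2
  rw [Multiset.mem_toFinset, Polynomial.mem_roots Tp_ne_zero, Polynomial.IsRoot, Tp_eval] at h2
  exact h2

theorem exists_pts : ∃ q : ℕ → Pt, (∀ i, (q i).z ≠ 0) ∧
    Function.Injective (fun i => (q i).z ^ 2) ∧ ∀ i ∈ Finset.range 9, ev (q i) pp = 0 := by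
  obtain ⟨x, hx, hx2⟩ := exists_nine_roots
  have h1 : ∀ i : ℕ, ∃ p : Pt, p.z ≠ 0 ∧
      (∀ h : i < 9, p.z ^ 2 = x ⟨i, h⟩ ∧ ev p pp = 0) ∧ (9 ≤ i → p.z ^ 2 = i) := by
    intro i
    by_cases hi : i < 9
    · obtain ⟨z, hz⟩ := IsAlgClosed.exists_pow_nat_eq (x ⟨i, hi⟩) (n := 2) (by norm_num)
      have h2 := hx2 ⟨i, hi⟩
      rw [← hz] at h2
      have hz0 : z ≠ 0 := by
        rintro rfl
        norm_num at h2
      refine ⟨⟨z, -z ^ 9, by linear_combination h2, neg_ne_zero.2 (pow_ne_zero _ hz0)⟩,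
        hz0, fun _ => ⟨hz, ?_⟩, fun h => by omega⟩
      rw [pp, map_add, map_pow, ev_zz, ev_vv]
      ring
    · obtain ⟨z, hz⟩ := IsAlgClosed.exists_pow_nat_eq (i : ℂ) (n := 2) (by norm_num)
      obtain ⟨v, hv⟩ := IsAlgClosed.exists_pow_nat_eq (1 - z ^ 4) (n := 2) (by norm_num)
      have hz0 : z ≠ 0 := by
        rintro rfl
        have : (i : ℂ) = 0 := by rw [← hz]; norm_num
        have : i = 0 := by exact_mod_cast this
        omega
      have hv0 : v ≠ 0 := by
        rintro rfl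
        have h2 : z ^ 4 = 1 := by linear_combination hv
        have h3 : (i : ℂ) ^ 2 = 1 := by rw [← hz, ← h2]; ring
        have h4 : i ^ 2 = 1 := by exact_mod_cast h3
        have h5 : i = 1 := by
          have := Nat.pow_left_injective (n := 2) (by norm_num) (h4.trans (one_pow 2).symm)
          exact this
        omega
      exact ⟨⟨z, v, hv, hv0⟩, hz0, fun h => absurd h hi, fun _ => hz⟩
  choose q hq1 hq2 hq3 using h1
  refine ⟨q, hq1, ?_, fun i hi => (hq2 i (Finset.mem_range.1 hi)).2⟩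
  have key : ∀ i j : ℕ, i < 9 → ¬ j < 9 → (q i).z ^ 2 ≠ (q j).z ^ 2 := by
    intro i j hi hj h
    rw [(hq2 i hi).1, hq3 j (by omega)] at h
    have h2 := hx2 ⟨i, hi⟩
    rw [h] at h2
    have h3 : (j : ℂ) ^ 9 + (j : ℂ) ^ 2 = 1 := by linear_combination h2
    have h4 : j ^ 9 + j ^ 2 = 1 := by exact_mod_cast h3
    have h5 : 9 ^ 9 ≤ j ^ 9 := Nat.pow_le_pow_left (by omega) 9
    norm_num at h5
    omega
  intro i j h
  simp only at h
  by_cases hi : i < 9
  · by_cases hj : j < 9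
    · rw [(hq2 i hi).1, (hq2 j hj).1] at h
      have := hx h
      simpa using this
    · exact absurd h (key i j hi hj)
  · by_cases hj : j < 9
    · exact absurd h.symm (key j i hj hi)
    · rw [hq3 i (by omega), hq3 j (by omega)] at h
      exact_mod_cast h

/-- the weight of an additional point -/
def wt (m : ℕ → ℕ) (d r : ℕ) : ℕ := m r + if m 0 + m 1 + m 2 = d ∧ m r = m 1 then 1 else 0

theorem exists_points {m : ℕ → ℕ} {d : ℕ} {E : Finset ℕ} (hm : Antitone m)
    (hd : m 0 + m 1 + m 2 ≤ d) (hE : ∀ r ∈ E, 9 ≤ r ∧ 2 ≤ m r)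
    (hsum : 2 * ∑ i ∈ Finset.range 9, m i + ∑ r ∈ E, wt m d r < 6 * d) :
    ∃ P : ℕ → Fin 2 → ℂ,
      2 * (finrank ℂ (SP (d : ℤ) (Finset.range 9 ∪ E) P m) : ℤ) +
        ∑ i ∈ Finset.range 9 ∪ E, (m i : ℤ) * (m i + 1) ≤ (d + 1) * (d + 2) := by
  obtain ⟨q, hz, hinj, hp⟩ := exists_pts
  have hsum9 : ∑ i ∈ Finset.range 9, m i < 3 * d := by omega
  have hdisj : Disjoint (Finset.range 9) E := by
    rw [Finset.disjoint_left]
    intro i hi hi2
    rw [Finset.mem_range] at hi
    have := (hE i hi2).1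
    omega
  rcases E.eq_empty_or_nonempty with hE0 | ⟨r₀, hr₀⟩
  · subst hE0
    refine ⟨fun i => (q i).pt, ?_⟩
    have h1 := GG_bound hm hd hsum9 (hinj.injOn) (fun i _ => hz i) (K := m 2) (Or.inl rfl) (m 2)
      0 (by omega)
    have h2 : SP (d : ℤ) (Finset.range 9 ∪ ∅) (fun i => (q i).pt) m ≤
        GG (Finset.range 9) q m (d : ℤ) 0 := by
      intro F hF
      rw [mem_SP] at hF
      rw [mem_GG]
      refine ⟨by simpa using hF.1, fun i hi => ?_⟩
      rw [pow_zero, one_mul]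
      exact hF.2 i (Finset.mem_union_left _ hi)
    have h3 := Submodule.finrank_mono h2
    rw [Finset.union_empty] at h3 ⊢
    simp only [Nat.sub_zero, Nat.cast_zero, mul_zero, sub_zero] at h1
    have h4 : (finrank ℂ (SP (d : ℤ) (Finset.range 9) (fun i => (q i).pt) m) : ℤ) ≤
      finrank ℂ (GG (Finset.range 9) q m (d : ℤ) 0) := by exact_mod_cast h3
    linarith
  · have m01 : m 1 ≤ m 0 := hm (by norm_num)
    have m12 : m 2 ≤ m 1 := hm (by norm_num)
    have m28 : m 8 ≤ m 2 := hm (by norm_num)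
    have hm8 : ∀ r ∈ E, m r ≤ m 8 := fun r hr => hm (by have := (hE r hr).1; omega)
    have h2m8 : 2 ≤ m 8 := (hE r₀ hr₀).2.trans (hm8 r₀ hr₀)
    obtain ⟨j, K, hK, hjK, hj8, hj8', hjw⟩ : ∃ j K : ℕ, KK m d K ∧ j + 1 ≤ K ∧ j ≤ m 8 ∧
        m 8 ≤ j + 1 ∧ ∀ r ∈ E, m r + (m r - j) ≤ wt m d r := by
      by_cases hA : m 0 + m 1 + m 2 < d ∨ m 2 < m 1
      · refine ⟨m 8, m 2 + 1, Or.inr ⟨rfl, hA⟩, by omega, le_refl _, by omega, ?_⟩
        intro r hr
        have := hm8 r hr
        rw [wt]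
        omega
      · by_cases hB : m 8 < m 2
        · refine ⟨m 8, m 2, Or.inl rfl, by omega, le_refl _, by omega, ?_⟩
          intro r hr
          have := hm8 r hr
          rw [wt]
          omega
        · refine ⟨m 8 - 1, m 2, Or.inl rfl, by omega, by omega, by omega, ?_⟩
          intro r hr
          have := hm8 r hr
          rw [wt]
          split_ifs with h
          · omega
          · have : m r ≠ m 1 := fun h' => h ⟨by omega, h'⟩
            omega
    have hN : ∀ i ≤ j, Nc m j E i < 6 * d := by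
      intro i hi
      refine lt_of_le_of_lt ?_ hsum
      rw [Nc]
      apply Nat.add_le_add_left
      apply Finset.sum_le_sum
      intro r hr
      refine le_trans ?_ (hjw r hr)
      omega
    have hj1 : ∀ r ∈ E, m r ≤ j + 1 := fun r hr => (hm8 r hr).trans hj8'
    obtain ⟨hfd, hLP⟩ := finrank_LP hz hinj hdisj hN hj1
    obtain ⟨P, hP⟩ := deg_bound hz hp hdisj hj1 hfd
    refine ⟨P, ?_⟩
    have hG := GG_bound hm hd hsum9 (hinj.injOn) (fun i _ => hz i) hK (K - (j + 1)) (j + 1)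
      (by omega)
    have h1 : ∑ i ∈ Finset.range 9, (m i : ℤ) * (m i + 1) =
        ∑ i ∈ Finset.range 9, ((m i - (j + 1) : ℕ) : ℤ) * (((m i - (j + 1) : ℕ) : ℤ) + 1) +
        2 * (j + 1) * ∑ i ∈ Finset.range 9, (m i : ℤ) - 9 * ((j + 1) * j) := by
      have h2 : ∀ i ∈ Finset.range 9, (m i : ℤ) * (m i + 1) =
          ((m i - (j + 1) : ℕ) : ℤ) * (((m i - (j + 1) : ℕ) : ℤ) + 1) +
            2 * (j + 1) * (m i : ℤ) - (j + 1) * j := by
        intro i hi
        rw [Finset.mem_range] at hi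
        have h3 : m 8 ≤ m i := hm (by omega)
        rcases Nat.lt_or_ge (m i) (j + 1) with h4 | h4
        · have h5 : m i = j := by omega
          have h6 : m i - (j + 1) = 0 := by omega
          rw [h6, h5]
          push_cast
          ring
        · rw [Nat.cast_sub h4]
          push_cast
          ring
      rw [Finset.sum_congr rfl h2, Finset.sum_sub_distrib, Finset.sum_add_distrib,
        ← Finset.mul_sum, Finset.sum_const, Finset.card_range]
      simp only [nsmul_eq_mul]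
      push_cast
      ring
    rw [Finset.sum_union hdisj, h1]
    have h2 : 2 * (finrank ℂ (LP q m d j E) : ℤ) + 2 * (j + 1) * ∑ l ∈ Finset.range 9, (m l : ℤ) +
      ∑ r ∈ E, (m r : ℤ) * (m r + 1) ≤ 6 * d * (j + 1) := by exact_mod_cast hLP
    have h3 : (finrank ℂ (SP (d : ℤ) (Finset.range 9 ∪ E) P m) : ℤ) ≤
      finrank ℂ (GG (Finset.range 9) q m d (j + 1)) + finrank ℂ (LP q m d j E) := by
      exact_mod_cast hP
    push_cast at hG
    nlinarith [hG, h2, h3]

end Helper18.Shgh
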