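import Pool.Agent.Helper18.ShghGen
import Pool.Agent.Helper18.ShghPts

open Module

noncomputable section

namespace Helper18.Shgh

abbrev AA (s : ℕ) := MvPolynomial (Fin s × Fin 3) ℂ

/-- Taylor expansion at a variable point -/
def tay (s : ℕ) (i : Fin s) : R3 →ₐ[ℂ] MvPolynomial (Fin 3) (AA s) :=
  MvPolynomial.aeval fun k => MvPolynomial.X k + MvPolynomial.C (MvPolynomial.X (i, k))

/-- specialization of the points -/
def phP {s : ℕ} (P : Fin s → Fin 3 → ℂ) : AA s →ₐ[ℂ] ℂ :=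
  MvPolynomial.aeval fun ij => P ij.1 ij.2

theorem coeff_tay {s : ℕ} (P : Fin s → Fin 3 → ℂ) (i : Fin s) (F : R3) (e : Fin 3 →₀ ℕ) :
    phP P (MvPolynomial.coeff e (tay s i F)) = MvPolynomial.coeff e (tau (P i) F) := by
  have h : (MvPolynomial.mapAlgHom (phP P)).comp (tay s i) = tau (P i) := by
    apply MvPolynomial.algHom_ext
    intro k
    simp [tay, tau, phP]
  have h1 := DFunLike.congr_fun h F
  rw [← h1]
  change _ = MvPolynomial.coeff e (MvPolynomial.map (phP P : AA s →+* ℂ) (tay s i F))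
  rw [MvPolynomial.coeff_map]
  rfl

/-- exponents from bounded functions -/
def ee {N : ℕ} (f : Fin 3 → Fin N) : Fin 3 →₀ ℕ := Finsupp.equivFunOnFinite.symm fun k => (f k : ℕ)

/-- the universal functionals -/
def LamG (s : ℕ) (m : ℕ → ℕ) (d : ℕ) :
    HS d →ₗ[ℂ] ((Fin s × (Fin 3 → Fin (m 0 + 1))) → AA s) :=
  LinearMap.pi fun x => if (ee x.2).degree < m x.1 then
    ((MvPolynomial.lcoeff (AA s) (ee x.2)).restrictScalars ℂ) ∘ₗ (tay s x.1).toLinearMap ∘ₗ
      (HS d).subtype else 0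

theorem mem_ker_LamG {s : ℕ} {m : ℕ → ℕ} {d : ℕ} (hm : Antitone m) {P : Fin s → Fin 3 → ℂ}
    {F : HS d} : F ∈ LinearMap.ker (spec (LamG s m d) (phP P)) ↔
      ∀ i : Fin s, (F : R3) ∈ mI (P i) ^ m (i : ℕ) := by
  rw [mem_ker_spec]
  have h1 : ∀ (i : Fin s) (f : Fin 3 → Fin (m 0 + 1)), (ee f).degree < m i →
      phP P (LamG s m d F (i, f)) = MvPolynomial.coeff (ee f) (tau (P i) (F : R3)) := by
    intro i f hf
    rw [← coeff_tay]
    change phP P ((if (ee f).degree < m i then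
    ((MvPolynomial.lcoeff (AA s) (ee f)).restrictScalars ℂ) ∘ₗ (tay s i).toLinearMap ∘ₗ
      (HS d).subtype else 0) F) = _
    rw [if_pos hf]
    rfl
  have h2 : ∀ (i : Fin s) (f : Fin 3 → Fin (m 0 + 1)), ¬ ((ee f).degree < m i) →
      phP P (LamG s m d F (i, f)) = 0 := by
    intro i f hf
    change phP P ((if (ee f).degree < m i then
    ((MvPolynomial.lcoeff (AA s) (ee f)).restrictScalars ℂ) ∘ₗ (tay s i).toLinearMap ∘ₗ
      (HS d).subtype else 0) F) = _
    rw [if_neg hf]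
    simp
  constructor
  · intro h i
    rw [mem_mI_pow]
    intro e he
    have hle : ∀ k, e k < m 0 + 1 := by
      intro k
      have h3 : e k ≤ e.degree := Finsupp.le_degree k e
      have h4 : m i ≤ m 0 := hm (Nat.zero_le _)
      omega
    have h3 : e = ee (fun k => (⟨e k, hle k⟩ : Fin (m 0 + 1))) := by
      ext k; rfl
    rw [h3] at he ⊢
    rw [← h1 i _ he]
    exact h (i, _)
  · rintro h ⟨i, f⟩
    by_cases hf : (ee f).degree < m i
    · rw [h1 i f hf]
      exact mem_mI_pow.1 (h i) _ hf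
    · exact h2 i f hf

theorem finrank_FS_le {s : ℕ} {m : ℕ → ℕ} {d : ℕ} (hm : Antitone m) (P : Fin s → Fin 3 → ℂ) :
    finrank ℂ (FS s m d P) ≤ finrank ℂ (LinearMap.ker (spec (LamG s m d) (phP P))) := by
  rw [← finrank_map_inj (HS d).subtype_injective]
  apply Submodule.finrank_mono
  intro F hF
  obtain ⟨h1, h2⟩ := Submodule.mem_inf.1 hF
  refine ⟨⟨F, h1⟩, ?_, rfl⟩
  change (⟨F, h1⟩ : HS d) ∈ LinearMap.ker (spec (LamG s m d) (phP P))
  rw [mem_ker_LamG hm]
  intro i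
  rw [Submodule.mem_iInf] at h2
  exact Ideal.pow_right_mono (LI_le_mI (P i)) _ (h2 i)

/-- dehomogenization -/
def deh : R3 →ₐ[ℂ] R2 := MvPolynomial.aeval ![MvPolynomial.X 0, MvPolynomial.X 1, 1]

theorem eval_deh (a b : ℂ) (F : R3) :
    MvPolynomial.eval ![a, b] (deh F) = MvPolynomial.eval ![a, b, 1] F := by
  have h : (MvPolynomial.aeval ![a, b] : R2 →ₐ[ℂ] ℂ).comp deh =
      (MvPolynomial.aeval ![a, b, 1] : R3 →ₐ[ℂ] ℂ) := by
    apply MvPolynomial.algHom_ext
    intro i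
    fin_cases i <;> simp [deh]
  have h1 := DFunLike.congr_fun h F
  simpa [MvPolynomial.aeval_eq_eval] using h1

theorem eval_smul_homog {F : R3} {d : ℕ} (hF : F.IsHomogeneous d) (c : ℂ) (x : Fin 3 → ℂ) :
    MvPolynomial.eval (fun i => c * x i) F = c ^ d * MvPolynomial.eval x F := by
  rw [isHomogeneous_iff'] at hF
  rw [MvPolynomial.eval_eq', MvPolynomial.eval_eq', Finset.mul_sum]
  apply Finset.sum_congr rfl
  intro e he
  rw [MvPolynomial.mem_support_iff] at he
  have h1 := hF e he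
  have h2 : ∏ i, (c * x i) ^ e i = c ^ d * ∏ i, x i ^ e i := by
    rw [← h1, Finsupp.degree_eq_sum, ← Finset.prod_pow_eq_pow_sum, ← Finset.prod_mul_distrib]
    apply Finset.prod_congr rfl
    intro i _
    rw [mul_pow]
  rw [h2]
  ring

theorem deh_inj {F : R3} {d : ℕ} (hF : F.IsHomogeneous d) (h : deh F = 0) : F = 0 := by
  have h1 : MvPolynomial.X 2 * F = 0 := by
    apply MvPolynomial.funext
    intro x
    rw [map_mul, MvPolynomial.eval_X, map_zero]
    by_cases hx : x 2 = 0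
    · rw [hx, zero_mul]
    · have h2 : x = fun i => x 2 * (![x 0 / x 2, x 1 / x 2, 1] : Fin 3 → ℂ) i := by
        funext i
        fin_cases i
        · change x 0 = x 2 * (x 0 / x 2)
          field_simp
        · change x 1 = x 2 * (x 1 / x 2)
          field_simp
        · change x 2 = x 2 * 1
          ring
      rw [h2, eval_smul_homog hF, ← eval_deh, h, map_zero, mul_zero, mul_zero]
  exact (mul_eq_zero.1 h1).resolve_left (MvPolynomial.X_ne_zero 2)

theorem deh_mem_mI {a b : ℂ} {M : ℕ} {F : R3} (h : F ∈ mI ![a, b, 1] ^ M) :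
    deh F ∈ mI ![a, b] ^ M := by
  have h1 : Ideal.map deh (mI ![a, b, 1]) ≤ mI ![a, b] := by
    rw [mI, Ideal.map_span, Ideal.span_le]
    rintro _ ⟨_, ⟨i, rfl⟩, rfl⟩
    rw [SetLike.mem_coe, mem_mI_iff, eval_deh]
    simp
  have h2 := Ideal.mem_map_of_mem deh h
  rw [Ideal.map_pow] at h2
  exact Ideal.pow_right_mono h1 M h2

theorem deh_mem_V {F : R3} {d : ℕ} (hF : F.IsHomogeneous d) : deh F ∈ V d := by
  rw [isHomogeneous_iff'] at hF
  rw [F.as_sum, map_sum]
  apply Submodule.sum_mem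
  intro e he
  rw [MvPolynomial.mem_support_iff] at he
  have h1 := hF e he
  rw [deh, MvPolynomial.aeval_monomial, Finsupp.prod_fintype _ _ (by simp), Fin.prod_univ_three]
  change algebraMap ℂ R2 (MvPolynomial.coeff e F) *
    (MvPolynomial.X 0 ^ (e 0) * MvPolynomial.X 1 ^ (e 1) * 1 ^ (e 2)) ∈ V d
  rw [one_pow, mul_one, mem_V]
  right
  have h2 : (algebraMap ℂ R2 (MvPolynomial.coeff e F) *
    (MvPolynomial.X 0 ^ (e 0) * MvPolynomial.X 1 ^ (e 1))).totalDegree ≤ e 0 + e 1 := by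
    refine (MvPolynomial.totalDegree_mul _ _).trans ?_
    rw [MvPolynomial.algebraMap_eq, MvPolynomial.totalDegree_C, zero_add]
    refine (MvPolynomial.totalDegree_mul _ _).trans ?_
    rw [MvPolynomial.totalDegree_X_pow, MvPolynomial.totalDegree_X_pow]
  have h3 : e.degree = e 0 + e 1 + e 2 := by
    rw [Finsupp.degree_eq_sum, Fin.sum_univ_three]
  omega

theorem finrank_ker_le {s : ℕ} {m : ℕ → ℕ} {d : ℕ} (hm : Antitone m) (P : ℕ → Fin 2 → ℂ) :
    finrank ℂ (LinearMap.ker (spec (LamG s m d)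
      (phP (fun i : Fin s => ![P i 0, P i 1, 1])))) ≤ finrank ℂ (SP (d : ℤ) (Finset.range s) P m) := by
  let φ : HS d →ₗ[ℂ] R2 := deh.toLinearMap ∘ₗ (HS d).subtype
  have hφ : Function.Injective φ := by
    rw [← LinearMap.ker_eq_bot, eq_bot_iff]
    intro x hx
    exact Subtype.ext (deh_inj x.2 hx)
  rw [← finrank_map_inj hφ]
  apply Submodule.finrank_mono
  rintro _ ⟨F, hF, rfl⟩
  have hF' := (mem_ker_LamG hm).1 hF
  rw [mem_SP]
  refine ⟨deh_mem_V F.2, ?_⟩
  intro i hi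
  rw [Finset.mem_range] at hi
  have h1 := hF' ⟨i, hi⟩
  have h2 := deh_mem_mI h1
  have h3 : (![P i 0, P i 1] : Fin 2 → ℂ) = P i := by
    funext k
    fin_cases k <;> rfl
  rw [← h3]
  exact h2

theorem general_position {s : ℕ} {m : ℕ → ℕ} {d : ℕ} (hm : Antitone m) (P₀ : ℕ → Fin 2 → ℂ)
    (h : (finrank ℂ (SP (d : ℤ) (Finset.range s) P₀ m) : ℤ) ≤
      max (((d + 2).choose 2 : ℤ) - ∑ i : Fin s, ((m (i : ℕ) + 1).choose 2 : ℤ)) 0) :
    ∃ G : MvPolynomial (Fin s × Fin 3) ℂ, G ≠ 0 ∧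
      ∀ P : Fin s → Fin 3 → ℂ, (∀ i, P i ≠ 0) →
        MvPolynomial.eval (fun ij : Fin s × Fin 3 => P ij.1 ij.2) G ≠ 0 →
        (finrank ℂ (FS s m d P) : ℤ) =
          max (((d + 2).choose 2 : ℤ) - ∑ i : Fin s, ((m (i : ℕ) + 1).choose 2 : ℤ)) 0 := by
  obtain ⟨Δ, hΔ0, hΔ⟩ := semicont (LamG s m d) (phP (fun i : Fin s => ![P₀ i 0, P₀ i 1, 1]))
  refine ⟨Δ * ∏ i : Fin s, MvPolynomial.X (i, 2), ?_, ?_⟩
  · apply mul_ne_zero
    · rintro rfl
      exact hΔ0 (map_zero _)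
    · rw [Finset.prod_ne_zero_iff]
      intro i _
      exact MvPolynomial.X_ne_zero _
  · intro P _ hG
    rw [map_mul, map_prod] at hG
    have h1 := left_ne_zero_of_mul hG
    have h2 := right_ne_zero_of_mul hG
    have h3 : ∀ i, P i 2 ≠ 0 := by
      intro i
      have h4 := (Finset.prod_ne_zero_iff.1 h2) i (Finset.mem_univ i)
      rwa [MvPolynomial.eval_X] at h4
    have h4 := lower_bound s m d P h3
    have h5 := (finrank_FS_le (d := d) hm P).trans
      ((hΔ (phP P) (by rwa [phP, MvPolynomial.aeval_eq_eval])).trans (finrank_ker_le hm P₀))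
    have h6 : ((d + 2).choose 2 : ℤ) ≤ finrank ℂ (FS s m d P) +
        ∑ i : Fin s, ((m (i : ℕ) + 1).choose 2 : ℤ) := by exact_mod_cast h4
    have h7 : (finrank ℂ (FS s m d P) : ℤ) ≤
      finrank ℂ (SP (d : ℤ) (Finset.range s) P₀ m) := by exact_mod_cast h5
    apply le_antisymm
    · exact h7.trans h
    · apply max_le
      · linarith
      · positivity

end Helper18.Shgh
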