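import Mathlib

open Module

noncomputable section

namespace Helper18.Shgh

section general

variable {σ : Type*}

/-- the maximal ideal of a point of affine space -/
def mI (P : σ → ℂ) : Ideal (MvPolynomial σ ℂ) :=
  Ideal.span (Set.range fun i => MvPolynomial.X i - MvPolynomial.C (P i))

/-- translation by `P` -/
def tau (P : σ → ℂ) : MvPolynomial σ ℂ →ₐ[ℂ] MvPolynomial σ ℂ :=
  MvPolynomial.aeval fun i => MvPolynomial.X i + MvPolynomial.C (P i)

theorem tau_tau (P : σ → ℂ) (F : MvPolynomial σ ℂ) : tau (-P) (tau P F) = F := by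
  have : (tau (-P)).comp (tau P) = AlgHom.id ℂ _ := by
    apply MvPolynomial.algHom_ext
    intro i
    simp [tau]
  exact DFunLike.congr_fun this F

theorem tau_tau' (P : σ → ℂ) (F : MvPolynomial σ ℂ) : tau P (tau (-P) F) = F := by
  have := tau_tau (-P) F
  rwa [neg_neg] at this

theorem tau_injective (P : σ → ℂ) : Function.Injective (tau P) :=
  Function.LeftInverse.injective (tau_tau P)

theorem eval_tau (P Q : σ → ℂ) (F : MvPolynomial σ ℂ) :
    MvPolynomial.eval Q (tau P F) = MvPolynomial.eval (Q + P) F := by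
  have : (MvPolynomial.aeval Q : MvPolynomial σ ℂ →ₐ[ℂ] ℂ).comp (tau P) =
      MvPolynomial.aeval (Q + P) := by
    apply MvPolynomial.algHom_ext
    intro i
    simp [tau]
  have h := DFunLike.congr_fun this F
  simpa [MvPolynomial.aeval_eq_eval] using h

theorem tau_mem {P : σ → ℂ} {m : ℕ} {F : MvPolynomial σ ℂ} (h : F ∈ mI P ^ m) :
    tau P F ∈ MvPolynomial.idealOfVars σ ℂ ^ m := by
  have h1 : Ideal.map (tau P) (mI P) ≤ MvPolynomial.idealOfVars σ ℂ := by
    rw [mI, Ideal.map_span, Ideal.span_le]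
    rintro _ ⟨_, ⟨i, rfl⟩, rfl⟩
    have : tau P (MvPolynomial.X i - MvPolynomial.C (P i)) = MvPolynomial.X i := by
      simp [tau]
    rw [this]
    exact Ideal.subset_span ⟨i, rfl⟩
  have h2 := Ideal.mem_map_of_mem (tau P) h
  rw [Ideal.map_pow] at h2
  exact Ideal.pow_right_mono h1 m h2

theorem mem_of_tau_mem {P : σ → ℂ} {m : ℕ} {F : MvPolynomial σ ℂ}
    (h : tau P F ∈ MvPolynomial.idealOfVars σ ℂ ^ m) : F ∈ mI P ^ m := by
  have h1 : Ideal.map (tau (-P)) (MvPolynomial.idealOfVars σ ℂ) ≤ mI P := by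
    rw [MvPolynomial.idealOfVars, Ideal.map_span, Ideal.span_le]
    rintro _ ⟨_, ⟨i, rfl⟩, rfl⟩
    have : tau (-P) (MvPolynomial.X i) = MvPolynomial.X i - MvPolynomial.C (P i) := by
      simp [tau, sub_eq_add_neg]
    rw [this]
    exact Ideal.subset_span ⟨i, rfl⟩
  have h2 := Ideal.mem_map_of_mem (tau (-P)) h
  rw [Ideal.map_pow, tau_tau] at h2
  exact Ideal.pow_right_mono h1 m h2

theorem mem_mI_pow {P : σ → ℂ} {m : ℕ} {F : MvPolynomial σ ℂ} :
    F ∈ mI P ^ m ↔ ∀ e : σ →₀ ℕ, e.degree < m → MvPolynomial.coeff e (tau P F) = 0 := by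
  rw [← MvPolynomial.mem_pow_idealOfVars_iff']
  exact ⟨tau_mem, mem_of_tau_mem⟩

theorem mem_mI_pow_order {P : σ → ℂ} {m : ℕ} {F : MvPolynomial σ ℂ} :
    F ∈ mI P ^ m ↔ (m : ℕ∞) ≤ MvPowerSeries.order (tau P F : MvPowerSeries σ ℂ) := by
  rw [mem_mI_pow]
  constructor
  · intro h
    apply MvPowerSeries.nat_le_order
    intro e he
    rw [MvPolynomial.coeff_coe]
    exact h e he
  · intro h e he
    rw [← MvPolynomial.coeff_coe]
    apply MvPowerSeries.coeff_of_lt_order
    exact lt_of_lt_of_le (by exact_mod_cast he) h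

theorem mem_mI_iff {P : σ → ℂ} {F : MvPolynomial σ ℂ} :
    F ∈ mI P ↔ MvPolynomial.eval P F = 0 := by
  have h := mem_mI_pow (P := P) (m := 1) (F := F)
  rw [pow_one] at h
  rw [h]
  have h2 : MvPolynomial.eval P F = MvPolynomial.coeff 0 (tau P F) := by
    have h3 := eval_tau P 0 F
    rw [zero_add] at h3
    rw [← h3, MvPolynomial.eval_zero, MvPolynomial.constantCoeff_eq]
  rw [h2]
  constructor
  · intro h; exact h 0 (by simp)
  · intro h e he
    have : e = 0 := by
      have : e.degree = 0 := by omega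
      exact (Finsupp.degree_eq_zero_iff e).1 this
    rw [this]; exact h

/-- cancelling an element of order exactly one -/
theorem mem_of_mul_mem {P : σ → ℂ} {m : ℕ} {A G : MvPolynomial σ ℂ}
    (hA : A ∉ mI P ^ 2) (h : A * G ∈ mI P ^ (m + 1)) : G ∈ mI P ^ m := by
  rw [mem_mI_pow_order] at *
  rw [map_mul, MvPolynomial.coe_mul, MvPowerSeries.order_mul] at h
  push Not at hA
  by_cases hG : MvPowerSeries.order (tau P G : MvPowerSeries σ ℂ) = ⊤
  · rw [hG]; exact le_top
  obtain ⟨g, hg⟩ := ENat.ne_top_iff_exists.1 hG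
  have hA' : MvPowerSeries.order (tau P A : MvPowerSeries σ ℂ) ≠ ⊤ := ne_top_of_lt hA
  obtain ⟨a, ha⟩ := ENat.ne_top_iff_exists.1 hA'
  rw [← hg, ← ha] at h
  rw [← ha] at hA
  rw [← hg]
  norm_cast at *
  omega

theorem mem_of_pow_mul_mem {P : σ → ℂ} {m : ℕ} {A G : MvPolynomial σ ℂ}
    (hA : A ∉ mI P ^ 2) (k : ℕ) (h : A ^ k * G ∈ mI P ^ m) : G ∈ mI P ^ (m - k) := by
  induction k generalizing m G with
  | zero => simpa using h
  | succ k ih =>
    rcases Nat.eq_zero_or_pos m with hm | hm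
    · subst hm; simp
    obtain ⟨n, rfl⟩ : ∃ n, m = n + 1 := ⟨m - 1, by omega⟩
    have : A * (A ^ k * G) ∈ mI P ^ (n + 1) := by
      rw [← mul_assoc, ← pow_succ']; exact h
    have h2 := ih (mem_of_mul_mem hA this)
    rwa [show n + 1 - (k + 1) = n - k from by omega]

theorem mul_mem_mI_pow {P : σ → ℂ} {a b : ℕ} {F G : MvPolynomial σ ℂ} (hF : F ∈ mI P ^ a)
    (hG : G ∈ mI P ^ b) : F * G ∈ mI P ^ (a + b) := by
  rw [pow_add]; exact Ideal.mul_mem_mul hF hG

/-- derivations lower the power of an ideal by at most one -/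
theorem deriv_mem_pow {A : Type*} [CommRing A] [Algebra ℂ A] (D : Derivation ℂ A A) (I : Ideal A)
    (m : ℕ) {F : A} (h : F ∈ I ^ (m + 1)) : D F ∈ I ^ m := by
  induction m generalizing F with
  | zero => simp
  | succ m ih =>
    rw [pow_succ] at h
    refine Submodule.mul_induction_on h ?_ ?_
    · intro a ha b hb
      rw [Derivation.leibniz, smul_eq_mul, smul_eq_mul]
      apply Ideal.add_mem
      · exact Ideal.mul_mem_right _ _ ha
      · rw [mul_comm, pow_succ]
        exact Ideal.mul_mem_mul (ih ha) hb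
    · intro a b ha hb
      rw [map_add]; exact Ideal.add_mem _ ha hb

theorem deriv_iterate_mem_pow {A : Type*} [CommRing A] [Algebra ℂ A] (D : Derivation ℂ A A)
    (I : Ideal A) (a m : ℕ) {F : A} (h : F ∈ I ^ (m + a)) : D^[a] F ∈ I ^ m := by
  induction a generalizing m F with
  | zero => simpa using h
  | succ a ih =>
    rw [Function.iterate_succ_apply']
    apply deriv_mem_pow
    apply ih
    rwa [show m + 1 + a = m + (a + 1) from by omega]

end general

end Helper18.Shgh
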