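import Pool.Agent.Helper18.ShghPeel

open Module

noncomputable section

namespace Helper18.Shgh

/-- the coefficients of `(1 + X) ^ k * (1 - X) ^ (j - k)` -/
def aa (j k i : ℕ) : ℂ :=
  ((1 + Polynomial.X) ^ k * (1 - Polynomial.X) ^ (j - k) : Polynomial ℂ).coeff i

theorem reflect_pow' {f : Polynomial ℂ} (hf : f.natDegree ≤ 1) (n : ℕ) :
    (f ^ n).reflect n = (f.reflect 1) ^ n := by
  induction n with
  | zero => simp
  | succ n ih =>
    have h1 : (f ^ n).natDegree ≤ n := by
      have := Polynomial.natDegree_pow_le_of_le n hf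
      rwa [mul_one] at this
    rw [pow_succ, Polynomial.reflect_mul _ _ h1 hf, ih, pow_succ]

theorem natDegree_one_add_X : (1 + Polynomial.X : Polynomial ℂ).natDegree ≤ 1 :=
  (Polynomial.natDegree_add_le _ _).trans (by simp)

theorem natDegree_one_sub_X : (1 - Polynomial.X : Polynomial ℂ).natDegree ≤ 1 :=
  (Polynomial.natDegree_sub_le _ _).trans (by simp)

theorem aa_symm {j k i : ℕ} (hk : k ≤ j) (hi : i ≤ j) :
    aa j k (j - i) = (-1) ^ (j - k) * aa j k i := by
  have h1 : ((1 + Polynomial.X) ^ k * (1 - Polynomial.X) ^ (j - k) : Polynomial ℂ).reflect j =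
      Polynomial.C ((-1) ^ (j - k)) *
        ((1 + Polynomial.X) ^ k * (1 - Polynomial.X) ^ (j - k)) := by
    have hj : j = k + (j - k) := by omega
    conv_lhs => rw [show Polynomial.reflect j = Polynomial.reflect (k + (j - k)) from by rw [← hj]]
    rw [Polynomial.reflect_mul, reflect_pow' natDegree_one_add_X, reflect_pow' natDegree_one_sub_X]
    · have e1 : (1 + Polynomial.X : Polynomial ℂ).reflect 1 = 1 + Polynomial.X := by
        rw [Polynomial.reflect_add, Polynomial.reflect_one, Polynomial.reflect_one_X]; ring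
      have e2 : (1 - Polynomial.X : Polynomial ℂ).reflect 1 = -(1 - Polynomial.X) := by
        rw [Polynomial.reflect_sub, Polynomial.reflect_one, Polynomial.reflect_one_X]; ring
      rw [e1, e2, neg_pow]
      simp only [map_pow, map_neg, map_one]
      ring
    · have := Polynomial.natDegree_pow_le_of_le k natDegree_one_add_X
      rwa [mul_one] at this
    · have := Polynomial.natDegree_pow_le_of_le (j - k) natDegree_one_sub_X
      rwa [mul_one] at this
  have h2 := congrArg (fun p => Polynomial.coeff p i) h1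
  simp only [Polynomial.coeff_reflect, Polynomial.coeff_C_mul] at h2
  rw [Polynomial.revAt_le hi] at h2
  exact h2

theorem aa_eq_zero {j k i : ℕ} (hk : k ≤ j) (hi : j < i) : aa j k i = 0 := by
  apply Polynomial.coeff_eq_zero_of_natDegree_lt
  refine lt_of_le_of_lt Polynomial.natDegree_mul_le ?_
  have h1 := Polynomial.natDegree_pow_le_of_le k natDegree_one_add_X
  have h2 := Polynomial.natDegree_pow_le_of_le (j - k) natDegree_one_sub_X
  omega

/-- the polynomial `Σ g_k (1 + X)^k (1 - X)^(j - k)` -/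
def Hp (j : ℕ) (g : Fin (j + 1) → CR) : Polynomial CR :=
  ∑ k : Fin (j + 1), Polynomial.C (g k) *
    ((1 + Polynomial.X) ^ (k : ℕ) * (1 - Polynomial.X) ^ (j - k))

theorem coeff_Hp (j : ℕ) (g : Fin (j + 1) → CR) (i : ℕ) :
    (Hp j g).coeff i = ∑ k : Fin (j + 1), aa j k i • g k := by
  rw [Hp, Polynomial.finsetSum_coeff]
  apply Finset.sum_congr rfl
  intro k _
  rw [Polynomial.coeff_C_mul]
  have h1 : ((1 + Polynomial.X) ^ (k : ℕ) * (1 - Polynomial.X) ^ (j - k) : Polynomial CR) =
      ((1 + Polynomial.X) ^ (k : ℕ) * (1 - Polynomial.X) ^ (j - k) : Polynomial ℂ).map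
        (algebraMap ℂ CR) := by
    simp
  rw [h1, Polynomial.coeff_map, Algebra.algebraMap_eq_smul_one, mul_smul_comm, mul_one]
  rfl

theorem Hp_inj (j : ℕ) : ∀ g : Fin (j + 1) → CR, Hp j g = 0 → g = 0 := by
  induction j with
  | zero =>
    intro g h
    ext1 k
    have hk : k = 0 := Fin.ext (by omega)
    rw [Hp, Fin.sum_univ_one] at h
    rw [hk]
    simpa using h
  | succ j ih =>
    intro g h
    rw [Hp, Fin.sum_univ_castSucc] at h
    have h1 := congrArg (Polynomial.eval 1) h
    rw [Polynomial.eval_add, Polynomial.eval_finsetSum] at h1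
    have h2 : ∀ k : Fin (j + 1), Polynomial.eval 1 (Polynomial.C (g k.castSucc) *
        ((1 + Polynomial.X) ^ ((k.castSucc : Fin (j + 2)) : ℕ) *
          (1 - Polynomial.X) ^ (j + 1 - ((k.castSucc : Fin (j + 2)) : ℕ)))) = 0 := by
      intro k
      rw [Polynomial.eval_mul, Polynomial.eval_mul, Polynomial.eval_pow, Polynomial.eval_pow,
        Polynomial.eval_sub, Polynomial.eval_one, Polynomial.eval_X, sub_self, zero_pow, mul_zero,
        mul_zero]
      have : (k.castSucc : ℕ) < j + 1 := k.2
      omega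
    rw [Finset.sum_eq_zero (fun k _ => h2 k), zero_add] at h1
    have hlast : g (Fin.last (j + 1)) = 0 := by
      simp only [Fin.val_last, Nat.sub_self, pow_zero, mul_one, Polynomial.eval_mul,
        Polynomial.eval_C, Polynomial.eval_pow, Polynomial.eval_add, Polynomial.eval_one,
        Polynomial.eval_X, Polynomial.eval_zero] at h1
      rcases mul_eq_zero.1 h1 with h3 | h3
      · exact h3
      · exfalso
        have h4 : (1 + 1 : CR) ≠ 0 := by
          intro h5
          have h6 : (algebraMap ℂ CR 2) = 0 := by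
            rw [map_ofNat, ← h5]; norm_num
          have h7 : (2 : ℂ) = 0 := by
            have := (algebraMap ℂ CR).injective (h6.trans (map_zero _).symm)
            exact this
          norm_num at h7
        exact h4 (pow_eq_zero_iff (by omega) |>.1 h3)
    rw [hlast, map_zero, zero_mul, add_zero] at h
    have h5 : (1 - Polynomial.X : Polynomial CR) * Hp j (fun k => g k.castSucc) = 0 := by
      rw [← h, Hp, Finset.mul_sum]
      apply Finset.sum_congr rfl
      intro k _
      have hk : (k.castSucc : ℕ) = (k : ℕ) := rfl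
      rw [hk, show j + 1 - (k : ℕ) = (j - k) + 1 by omega,
        pow_succ (1 - Polynomial.X : Polynomial CR) (j - k)]
      ring
    have h6 : (1 - Polynomial.X : Polynomial CR) ≠ 0 := by
      intro h7
      have := congrArg (Polynomial.eval 0) h7
      simp at this
    have h7 := ih _ ((mul_eq_zero.1 h5).resolve_left h6)
    ext1 k
    refine Fin.lastCases ?_ (fun k => ?_) k
    · exact hlast
    · exact congrFun h7 k

/-- coefficients of increasing index have decreasing order -/
def JP (q : Pt) (n : ℕ) (H : Polynomial CR) : Prop := ∀ i, H.coeff i ∈ Ord q (n - i)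

theorem JP_mul {q : Pt} {a b : ℕ} {F G : Polynomial CR} (hF : JP q a F) (hG : JP q b G) :
    JP q (a + b) (F * G) := by
  intro i
  rw [Polynomial.coeff_mul]
  apply Submodule.sum_mem
  intro x hx
  rw [Finset.HasAntidiagonal.mem_antidiagonal] at hx
  exact Ord_anti q (by omega) (Ord_mul (hF x.1) (hG x.2))

theorem JP_zero (q : Pt) (F : Polynomial CR) : JP q 0 F := by
  intro i
  rw [Nat.zero_sub]
  exact Ord_zero q _

theorem JP_pow {q : Pt} {a : ℕ} {F : Polynomial CR} (hF : JP q a F) (n : ℕ) :
    JP q (n * a) (F ^ n) := by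
  induction n with
  | zero => rw [zero_mul]; exact JP_zero q _
  | succ n ih =>
    have h1 := JP_mul ih hF
    rwa [← pow_succ F n, show n * a + a = (n + 1) * a by ring] at h1

theorem JP_anti {q : Pt} {a b : ℕ} (h : a ≤ b) {F : Polynomial CR} (hF : JP q b F) : JP q a F :=
  fun i => Ord_anti q (by omega) (hF i)

theorem JP_C {q : Pt} {n : ℕ} {f : CR} (hf : f ∈ Ord q n) : JP q n (Polynomial.C f) := by
  intro i
  rw [Polynomial.coeff_C]
  split_ifs with h
  · rw [h, Nat.sub_zero]; exact hf
  · exact Submodule.zero_mem _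

theorem JP_sum {q : Pt} {n : ℕ} {ι : Type*} (s : Finset ι) (F : ι → Polynomial CR)
    (h : ∀ i ∈ s, JP q n (F i)) : JP q n (∑ i ∈ s, F i) := by
  intro i
  rw [Polynomial.finsetSum_coeff]
  exact Submodule.sum_mem _ fun k hk => h k hk i

/-- the function `p = z ^ 9 + v` -/
def pp : CR := zz ^ 9 + vv

theorem sg_pp : sg pp = -pp := by
  rw [pp, map_add, sg_pow, sg_zz, sg_vv]
  ring

theorem pp_mem_Fil : pp ∈ Fil 9 := by
  refine Submodule.add_mem _ ?_ (Fil_mono (by norm_num) vv_mem_Fil)
  simpa using pow_mem_Fil zz_mem_Fil 9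

theorem pp_ne_zero : pp ≠ 0 := by
  intro h
  have h1 := congrArg QuadraticAlgebra.im h
  rw [pp, zz_pow] at h1
  simp [vv] at h1

/-- the Taylor coefficients at `w` -/
def Psi (j : ℕ) (w : ℂ) (c : Fin (j + 1) → CR) (b : ℕ) : CR :=
  ∑ k : Fin (j + 1), (((k : ℕ).choose b : ℂ) * w ^ ((k : ℕ) - b)) • c k

theorem Hp_taylor (j : ℕ) (w : ℂ) (c : Fin (j + 1) → CR) :
    Hp j (fun k => c k * pp ^ (k : ℕ)) = ∑ b ∈ Finset.range (j + 1),
      Polynomial.C (Psi j w c b) *
      ((Polynomial.C pp * (1 + Polynomial.X) -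
        Polynomial.C (algebraMap ℂ CR w) * (1 - Polynomial.X)) ^ b *
      (1 - Polynomial.X) ^ (j - b)) := by
  set δ : Polynomial CR := Polynomial.C pp * (1 + Polynomial.X) -
        Polynomial.C (algebraMap ℂ CR w) * (1 - Polynomial.X) with hδ
  have h1 : ∀ k : ℕ, k ≤ j → Polynomial.C (pp ^ k) * (1 + Polynomial.X) ^ k =
      ∑ b ∈ Finset.range (j + 1), δ ^ b *
        (Polynomial.C (algebraMap ℂ CR w) * (1 - Polynomial.X)) ^ (k - b) *
          ((k.choose b : ℕ) : Polynomial CR) := by
    intro k hk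
    have h2 : Polynomial.C (pp ^ k) * (1 + Polynomial.X) ^ k =
        (δ + Polynomial.C (algebraMap ℂ CR w) * (1 - Polynomial.X)) ^ k := by
      rw [hδ, sub_add_cancel, mul_pow, Polynomial.C_pow]
    rw [h2, add_pow]
    apply Finset.sum_subset
    · intro x hx
      rw [Finset.mem_range] at *
      omega
    · intro x _ hx
      rw [Finset.mem_range] at hx
      rw [Nat.choose_eq_zero_of_lt (by omega), Nat.cast_zero, mul_zero]
  have h2 : Hp j (fun k => c k * pp ^ (k : ℕ)) = ∑ k : Fin (j + 1), ∑ b ∈ Finset.range (j + 1),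
      Polynomial.C (c k) * (δ ^ b *
        (Polynomial.C (algebraMap ℂ CR w) * (1 - Polynomial.X)) ^ ((k : ℕ) - b) *
          (((k : ℕ).choose b : ℕ) : Polynomial CR)) * (1 - Polynomial.X) ^ (j - k) := by
    rw [Hp]
    apply Finset.sum_congr rfl
    intro k _
    rw [← Finset.sum_mul, ← Finset.mul_sum, ← h1 k (by omega), Polynomial.C_mul]
    ring
  rw [h2, Finset.sum_comm]
  apply Finset.sum_congr rfl
  intro b _
  rw [Psi, map_sum, Finset.sum_mul]
  apply Finset.sum_congr rfl
  intro k _
  rcases le_or_gt b k with hbk | hbk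
  · have e1 : (1 - Polynomial.X : Polynomial CR) ^ (j - b) =
        (1 - Polynomial.X) ^ ((k : ℕ) - b) * (1 - Polynomial.X) ^ (j - k) := by
      rw [← pow_add]
      congr 1
      omega
    have e2 : Polynomial.C ((((k : ℕ).choose b : ℂ) * w ^ ((k : ℕ) - b)) • c k) =
        (((k : ℕ).choose b : ℕ) : Polynomial CR) *
          Polynomial.C (algebraMap ℂ CR w) ^ ((k : ℕ) - b) * Polynomial.C (c k) := by
      rw [Algebra.smul_def, map_mul, map_mul, map_pow, map_natCast, Polynomial.C_mul,
        Polynomial.C_pow, Polynomial.C_eq_natCast]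
    rw [e1, e2, mul_pow]
    ring
  · rw [Nat.choose_eq_zero_of_lt hbk]
    simp

theorem coeff_Hp_mem_Ord {q : Pt} {w : ℂ} (hw : ev q pp = w) {j m : ℕ} {c : Fin (j + 1) → CR}
    (hj : ∀ b ∈ Finset.range (j + 1), Psi j w c b ∈ Ord q (m - b)) (i : ℕ) :
    (Hp j (fun k => c k * pp ^ (k : ℕ))).coeff i ∈ Ord q (m - i) := by
  rw [Hp_taylor j w c]
  have hδ : JP q 1 (Polynomial.C pp * (1 + Polynomial.X) -
        Polynomial.C (algebraMap ℂ CR w) * (1 - Polynomial.X)) := by
    intro i
    rcases Nat.eq_zero_or_pos i with h | h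
    · subst h
      rw [Polynomial.coeff_sub, Polynomial.coeff_C_mul, Polynomial.coeff_C_mul, Nat.sub_zero,
        mem_Ord_one]
      simp only [Polynomial.coeff_add, Polynomial.coeff_one_zero, Polynomial.coeff_X_zero,
        Polynomial.coeff_sub, add_zero, sub_zero, mul_one, map_sub]
      rw [hw, Algebra.algebraMap_eq_smul_one, ev_smul, map_one, mul_one, sub_self]
    · rw [show 1 - i = 0 by omega]
      exact Ord_zero q _
  refine JP_sum _ _ (fun b hb => ?_) i
  have h1 := JP_mul (JP_C (hj b hb)) (JP_mul (JP_pow hδ b) (JP_zero q ((1 - Polynomial.X) ^ (j - b))))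
  exact JP_anti (by omega) h1

end Helper18.Shgh
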