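import Pool.Agent.Helper18.ShghPeel

open Module

noncomputable section

namespace Helper18.Shgh

/-- the line `y = a x + b` -/
def ll (a b : ℂ) : R2 :=
  MvPolynomial.X 1 - (MvPolynomial.C a * MvPolynomial.X 0 + MvPolynomial.C b)

/-- restriction to the line -/
def lam (a b : ℂ) : R2 →ₐ[ℂ] Polynomial ℂ :=
  MvPolynomial.aeval ![Polynomial.X, Polynomial.C a * Polynomial.X + Polynomial.C b]

theorem lam_X0 (a b : ℂ) : lam a b (MvPolynomial.X 0) = Polynomial.X := by simp [lam]
theorem lam_X1 (a b : ℂ) : lam a b (MvPolynomial.X 1) =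
    Polynomial.C a * Polynomial.X + Polynomial.C b := by simp [lam]

theorem exists_ll_normal_form (a b : ℂ) (F : R2) : ∃ (A : R2) (B : Polynomial ℂ),
    F = ll a b * A + Polynomial.aeval (MvPolynomial.X 0) B := by
  induction F using MvPolynomial.induction_on with
  | C c =>
    refine ⟨0, Polynomial.C c, ?_⟩
    rw [Polynomial.aeval_C]
    simp [MvPolynomial.algebraMap_eq]
  | add F G hF hG =>
    obtain ⟨A, B, h⟩ := hF
    obtain ⟨A', B', h'⟩ := hG
    refine ⟨A + A', B + B', ?_⟩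
    rw [map_add, h, h']
    ring
  | mul_X F i hF =>
    obtain ⟨A, B, h⟩ := hF
    fin_cases i
    · refine ⟨A * MvPolynomial.X 0, B * Polynomial.X, ?_⟩
      change F * MvPolynomial.X 0 = _
      rw [h, map_mul, Polynomial.aeval_X]
      ring
    · refine ⟨A * MvPolynomial.X 1 + Polynomial.aeval (MvPolynomial.X 0) B,
        B * (Polynomial.C a * Polynomial.X + Polynomial.C b), ?_⟩
      change F * MvPolynomial.X 1 = _
      rw [h, map_mul, map_add, map_mul, Polynomial.aeval_X, Polynomial.aeval_C,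
        Polynomial.aeval_C, ll, MvPolynomial.algebraMap_eq]
      ring

theorem lam_aeval (a b : ℂ) (B : Polynomial ℂ) :
    lam a b (Polynomial.aeval (MvPolynomial.X 0) B) = B := by
  rw [← Polynomial.aeval_algHom_apply, lam_X0, Polynomial.aeval_X_left_apply]

theorem lam_ll (a b : ℂ) : lam a b (ll a b) = 0 := by
  simp [ll, lam]

theorem exists_of_lam_eq_zero {a b : ℂ} {F : R2} (h : lam a b F = 0) : ∃ G, F = ll a b * G := by
  obtain ⟨A, B, hF⟩ := exists_ll_normal_form a b F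
  have h1 := h
  rw [hF, map_add, map_mul, lam_ll, zero_mul, zero_add, lam_aeval] at h1
  refine ⟨A, ?_⟩
  rw [hF, h1]
  simp

theorem DY_ll (a b : ℂ) : DY (ll a b) = 1 := by
  rw [ll, map_sub, map_add, Derivation.leibniz, DY, MvPolynomial.pderiv_X_self,
    MvPolynomial.pderiv_X_of_ne (by decide)]
  simp

theorem ll_ne_zero (a b : ℂ) : ll a b ≠ 0 := by
  intro h
  have := DY_ll a b
  rw [h, map_zero] at this
  exact zero_ne_one this

theorem totalDegree_ll (a b : ℂ) : (ll a b).totalDegree = 1 := by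
  apply le_antisymm
  · rw [ll]
    refine (MvPolynomial.totalDegree_sub _ _).trans (max_le ?_ ?_)
    · rw [MvPolynomial.totalDegree_X]
    · refine (MvPolynomial.totalDegree_add _ _).trans (max_le ?_ ?_)
      · refine (MvPolynomial.totalDegree_mul _ _).trans ?_
        rw [MvPolynomial.totalDegree_C, MvPolynomial.totalDegree_X]
      · rw [MvPolynomial.totalDegree_C]; omega
  · by_contra hlt
    have h0 : (ll a b).totalDegree = 0 := by omega
    rw [MvPolynomial.totalDegree_eq_zero_iff_eq_C] at h0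
    have := DY_ll a b
    rw [h0, DY, MvPolynomial.pderiv_C] at this
    exact zero_ne_one this

theorem ll_mul_mem_V {a b : ℂ} {F : R2} {n : ℤ} : ll a b * F ∈ V n ↔ F ∈ V (n - 1) := by
  have := mul_mem_V_iff (F := F) (ll_ne_zero a b) (n := n - 1)
  rw [totalDegree_ll] at this
  rw [← this]
  congr! 2
  push_cast
  ring

theorem ll_notMem (a b : ℂ) (P : Fin 2 → ℂ) : ll a b ∉ mI P ^ 2 := by
  intro h
  have h1 := deriv_mem_pow DY (mI P) 1 h
  rw [pow_one, mem_mI_iff, DY_ll, map_one] at h1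
  exact one_ne_zero h1

theorem lam_degree {a b : ℂ} {n : ℕ} {F : R2} (h : F ∈ V n) : (lam a b F).natDegree ≤ n := by
  have key : V n ≤ (Polynomial.degreeLE ℂ n).comap (lam a b).toLinearMap := by
    rw [V, MvPolynomial.restrictSupport_eq_span, Submodule.span_le]
    rintro _ ⟨e, he, rfl⟩
    change lam a b (MvPolynomial.monomial e 1) ∈ Polynomial.degreeLE ℂ n
    rw [Polynomial.mem_degreeLE, ← Polynomial.natDegree_le_iff_degree_le, lam,
      MvPolynomial.aeval_monomial, map_one, one_mul, Finsupp.prod_fintype _ _ (by simp),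
      Fin.prod_univ_two]
    change (Polynomial.X ^ (e 0) *
      (Polynomial.C a * Polynomial.X + Polynomial.C b) ^ (e 1) : Polynomial ℂ).natDegree ≤ n
    change ((e.degree : ℕ) : ℤ) ≤ n at he
    have h3 : e.degree = e 0 + e 1 := by
      rw [Finsupp.degree_eq_sum, Fin.sum_univ_two]
    rw [h3] at he
    have h4 : e 0 + e 1 ≤ n := by exact_mod_cast he
    refine Polynomial.natDegree_mul_le.trans ?_
    rw [Polynomial.natDegree_X_pow]
    have h5 : (Polynomial.C a * Polynomial.X + Polynomial.C b : Polynomial ℂ).natDegree ≤ 1 :=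
      Polynomial.natDegree_linear_le
    have h6 := Polynomial.natDegree_pow_le_of_le (e 1) h5
    omega
  have h1 : lam a b F ∈ Polynomial.degreeLE ℂ n := key h
  rwa [Polynomial.mem_degreeLE, ← Polynomial.natDegree_le_iff_degree_le] at h1

theorem lam_dvd {a b : ℂ} {P : Fin 2 → ℂ} (hP : P 1 = a * P 0 + b) {m : ℕ} {F : R2}
    (h : F ∈ mI P ^ m) : (Polynomial.X - Polynomial.C (P 0)) ^ m ∣ lam a b F := by
  have h1 : mI P ≤ Ideal.comap (lam a b) (Ideal.span {Polynomial.X - Polynomial.C (P 0)}) := by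
    rw [mI, Ideal.span_le]
    rintro _ ⟨i, rfl⟩
    rw [SetLike.mem_coe, Ideal.mem_comap, Ideal.mem_span_singleton]
    have hC : ∀ c : ℂ, lam a b (MvPolynomial.C c) = Polynomial.C c := by intro c; simp [lam]
    fin_cases i
    · change _ ∣ lam a b (MvPolynomial.X 0 - MvPolynomial.C (P 0))
      rw [map_sub, lam_X0, hC]
    · change _ ∣ lam a b (MvPolynomial.X 1 - MvPolynomial.C (P 1))
      rw [map_sub, lam_X1, hC, hP]
      refine ⟨Polynomial.C a, ?_⟩
      rw [Polynomial.C_add, Polynomial.C_mul]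
      ring
  have h2 := Ideal.pow_right_mono h1 m h
  have h3 := Ideal.le_comap_pow (lam a b) m h2
  rwa [Ideal.mem_comap, Ideal.span_singleton_pow, Ideal.mem_span_singleton] at h3

/-- polynomials of degree at most `n` with multiplicities at two points -/
def TP (n : ℤ) (P Q : Fin 2 → ℂ) (a b : ℕ) : Submodule ℂ R2 where
  carrier := {G | G ∈ V n ∧ G ∈ mI P ^ a ∧ G ∈ mI Q ^ b}
  add_mem' := by
    rintro F G ⟨hF1, hF2, hF3⟩ ⟨hG1, hG2, hG3⟩
    exact ⟨Submodule.add_mem _ hF1 hG1, Ideal.add_mem _ hF2 hG2, Ideal.add_mem _ hF3 hG3⟩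
  zero_mem' := ⟨Submodule.zero_mem _, Ideal.zero_mem _, Ideal.zero_mem _⟩
  smul_mem' := by
    rintro c F ⟨hF1, hF2, hF3⟩
    refine ⟨Submodule.smul_mem _ c hF1, ?_, ?_⟩
    · rw [← algebraMap_smul R2 c F, smul_eq_mul]
      exact Ideal.mul_mem_left _ _ hF2
    · rw [← algebraMap_smul R2 c F, smul_eq_mul]
      exact Ideal.mul_mem_left _ _ hF3

theorem mem_TP {n : ℤ} {P Q : Fin 2 → ℂ} {a b : ℕ} {G : R2} :
    G ∈ TP n P Q a b ↔ G ∈ V n ∧ G ∈ mI P ^ a ∧ G ∈ mI Q ^ b := Iff.rfl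

instance (n : ℤ) (P Q : Fin 2 → ℂ) (a b : ℕ) : FiniteDimensional ℂ (TP n P Q a b) :=
  Submodule.finiteDimensional_of_le (fun _ h => h.1 : TP n P Q a b ≤ V n)

theorem finrank_TP_step {n : ℕ} {P Q : Fin 2 → ℂ} (hPQ : P 0 ≠ Q 0) {a b : ℕ}
    (h : a + b ≤ n + 1) :
    finrank ℂ (TP n P Q a b) ≤ finrank ℂ (TP (n - 1) P Q (a - 1) (b - 1)) + (n + 1 - a - b) := by
  obtain ⟨α, β, hP, hQ⟩ : ∃ α β : ℂ, P 1 = α * P 0 + β ∧ Q 1 = α * Q 0 + β := by
    have h1 : Q 0 - P 0 ≠ 0 := sub_ne_zero.2 (Ne.symm hPQ)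
    refine ⟨(Q 1 - P 1) / (Q 0 - P 0), P 1 - (Q 1 - P 1) / (Q 0 - P 0) * P 0, by ring, ?_⟩
    field_simp
    ring
  let M : Polynomial ℂ := (Polynomial.X - Polynomial.C (P 0)) ^ a *
    (Polynomial.X - Polynomial.C (Q 0)) ^ b
  have hM : M.Monic :=
    ((Polynomial.monic_X_sub_C _).pow _).mul ((Polynomial.monic_X_sub_C _).pow _)
  have hMdeg : M.natDegree = a + b := by
    rw [Polynomial.Monic.natDegree_mul ((Polynomial.monic_X_sub_C _).pow _)
      ((Polynomial.monic_X_sub_C _).pow _), Polynomial.natDegree_pow, Polynomial.natDegree_pow,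
      Polynomial.natDegree_X_sub_C, Polynomial.natDegree_X_sub_C, mul_one, mul_one]
  let C : Submodule ℂ (Polynomial ℂ) :=
    (Polynomial.degreeLT ℂ (n + 1 - a - b)).map (LinearMap.mulLeft ℂ M)
  have hC : finrank ℂ C ≤ n + 1 - a - b := by
    refine (Submodule.finrank_map_le _ _).trans ?_
    rw [finrank_degreeLT]
  have h1 := finrank_le_of_map (TP n P Q a b) (TP (n - 1) P Q (a - 1) (b - 1)) C
    (lam α β).toLinearMap (LinearMap.mulLeft ℂ (ll α β))
    (by
      intro F hF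
      rw [mem_TP] at hF
      obtain ⟨hF1, hF2, hF3⟩ := hF
      have hd : M ∣ lam α β F := by
        apply IsCoprime.mul_dvd _ (lam_dvd hP hF2) (lam_dvd hQ hF3)
        apply IsCoprime.pow
        apply Polynomial.isCoprime_X_sub_C_of_isUnit_sub
        exact (sub_ne_zero.2 hPQ).isUnit
      obtain ⟨g, hg⟩ := hd
      refine ⟨g, ?_, hg.symm⟩
      rw [SetLike.mem_coe, mem_degreeLT_iff]
      by_cases hg0 : g = 0
      · exact Or.inl hg0
      · right
        have h2 := lam_degree (a := α) (b := β) hF1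
        rw [hg, hM.natDegree_mul' hg0, hMdeg] at h2
        omega)
    (by
      intro F hF h0
      rw [mem_TP] at hF
      obtain ⟨hF1, hF2, hF3⟩ := hF
      obtain ⟨G, hG⟩ := exists_of_lam_eq_zero h0
      refine ⟨G, ?_, hG.symm⟩
      rw [hG] at hF1 hF2 hF3
      rw [mem_TP]
      refine ⟨ll_mul_mem_V.1 hF1, ?_, ?_⟩
      · exact mem_of_pow_mul_mem (ll_notMem α β P) 1 (by rw [pow_one (ll α β)]; exact hF2)
      · exact mem_of_pow_mul_mem (ll_notMem α β Q) 1 (by rw [pow_one (ll α β)]; exact hF3))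
  omega

theorem finrank_TP {P Q : Fin 2 → ℂ} (hPQ : P 0 ≠ Q 0) (N : ℕ) : ∀ a b : ℕ, a + b ≤ N →
    2 * finrank ℂ (TP ((N : ℤ) - 1) P Q a b) + a * (a + 1) + b * (b + 1) ≤ N * (N + 1) := by
  induction N with
  | zero =>
    intro a b h
    have ha : a = 0 := by omega
    have hb : b = 0 := by omega
    subst ha hb
    have : TP (((0 : ℕ) : ℤ) - 1) P Q 0 0 = ⊥ := by
      rw [eq_bot_iff, ← V_neg (n := ((0 : ℕ) : ℤ) - 1) (by norm_num)]
      exact fun _ h => h.1
    rw [this, finrank_bot]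
  | succ N ih =>
    intro a b h
    have h1 := finrank_TP_step (n := N) hPQ (a := a) (b := b) (by omega)
    have h2 := ih (a - 1) (b - 1) (by omega)
    have e1 : (((N + 1 : ℕ) : ℤ) - 1) = (N : ℤ) := by push_cast; ring
    rw [e1]
    have key : ∀ c : ℕ, c * (c + 1) = (c - 1) * (c - 1 + 1) + 2 * c := by
      intro c
      rcases Nat.eq_zero_or_pos c with h | h
      · subst h; rfl
      · obtain ⟨c', rfl⟩ : ∃ c', c = c' + 1 := ⟨c - 1, by omega⟩
        simp only [Nat.add_sub_cancel]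
        ring
    rw [key a, key b, show (N + 1) * (N + 1 + 1) = N * (N + 1) + 2 * (N + 1) by ring]
    omega

/-- the two point estimate, all cases -/
theorem finrank_TP' {P Q : Fin 2 → ℂ} (hPQ : P 0 ≠ Q 0) (n : ℤ) (hn : -2 ≤ n) (a b : ℕ)
    (h : (a : ℤ) + b ≤ n + 1 ∨ (a = 0 ∧ b = 0)) :
    2 * (finrank ℂ (TP n P Q a b) : ℤ) + a * (a + 1) + b * (b + 1) ≤ (n + 1) * (n + 2) := by
  by_cases h2 : n = -2
  · subst h2
    have ha : a = 0 := by omega
    have hb : b = 0 := by omega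
    subst ha hb
    have : TP (-2) P Q 0 0 = ⊥ := by
      rw [eq_bot_iff, ← V_neg (n := -2) (by norm_num)]
      exact fun _ h => h.1
    rw [this, finrank_bot]
    norm_num
  · obtain ⟨N, hN⟩ : ∃ N : ℕ, (N : ℤ) = n + 1 := ⟨(n + 1).toNat, by omega⟩
    have h1 := finrank_TP hPQ N a b (by omega)
    rw [show ((N : ℤ) - 1) = n by omega] at h1
    rw [← hN, show n + 2 = (N : ℤ) + 1 by omega]
    exact_mod_cast h1

end Helper18.Shgh
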