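import Mathlib
import Pool.Agent.Helper18.ShghCurve

open Polynomial Module
open scoped QuadraticAlgebra

noncomputable section

namespace Helper18.Shgh

section linalg

variable {k V W : Type*} [Field k] [AddCommGroup V] [Module k V] [AddCommGroup W] [Module k W]

theorem finrank_le_add (A B : Submodule k V) [FiniteDimensional k A] [FiniteDimensional k B]
    [FiniteDimensional k W] (φ : V →ₗ[k] W) (h : ∀ x ∈ B, φ x = 0 → x ∈ A) :
    finrank k B ≤ finrank k A + finrank k W := by
  have h1 := LinearMap.finrank_range_add_finrank_ker (φ.domRestrict B)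
  have h2 : finrank k (LinearMap.range (φ.domRestrict B)) ≤ finrank k W :=
    Submodule.finrank_le _
  have h3 : finrank k (LinearMap.ker (φ.domRestrict B)) ≤ finrank k A := by
    refine LinearMap.finrank_le_finrank_of_injective (f := (B.subtype.comp
      (LinearMap.ker (φ.domRestrict B)).subtype).codRestrict A ?_) ?_
    · rintro ⟨x, hx⟩
      exact h x.1 x.2 (by simpa using hx)
    · intro x y hxy
      have := congrArg Subtype.val hxy
      exact Subtype.ext (Subtype.ext this)
  omega

theorem finrank_map_inj {f : V →ₗ[k] W} (hf : Function.Injective f) (p : Submodule k V) :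
    finrank k (p.map f) = finrank k p :=
  (Submodule.equivMapOfInjective f hf p).finrank_eq.symm

end linalg

/-- The filtration by pole order at infinity: `P + Q v` with `deg P ≤ N`, `deg Q ≤ N - 2`. -/
def Fil (N : ℕ) : Submodule ℂ CR where
  carrier := {f | f.re ∈ degreeLT ℂ (N + 1) ∧ f.im ∈ degreeLT ℂ (N - 1)}
  add_mem' hf hg := ⟨Submodule.add_mem _ hf.1 hg.1, Submodule.add_mem _ hf.2 hg.2⟩
  zero_mem' := ⟨Submodule.zero_mem _, Submodule.zero_mem _⟩
  smul_mem' c _ hf := ⟨Submodule.smul_mem _ c hf.1, Submodule.smul_mem _ c hf.2⟩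

theorem mem_degreeLT_iff {p : ℂ[X]} {n : ℕ} :
    p ∈ degreeLT ℂ n ↔ p = 0 ∨ p.natDegree < n := by
  rw [mem_degreeLT]
  by_cases hp : p = 0
  · simp [hp]
  · rw [degree_eq_natDegree hp, Nat.cast_lt]
    simp [hp]

theorem mem_Fil {N : ℕ} {f : CR} :
    f ∈ Fil N ↔ f.re.natDegree ≤ N ∧ (f.im = 0 ∨ f.im.natDegree + 2 ≤ N) := by
  change (f.re ∈ degreeLT ℂ (N + 1) ∧ f.im ∈ degreeLT ℂ (N - 1)) ↔ _
  rw [mem_degreeLT_iff, mem_degreeLT_iff]
  constructor
  · rintro ⟨h1, h2⟩
    refine ⟨?_, ?_⟩
    · rcases h1 with h1 | h1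
      · rw [h1]; simp
      · omega
    · rcases h2 with h2 | h2
      · exact Or.inl h2
      · right; omega
  · rintro ⟨h1, h2⟩
    refine ⟨Or.inr (by omega), ?_⟩
    rcases h2 with h2 | h2
    · exact Or.inl h2
    · right; omega

/-- `Fil N` as a product -/
def FilEquiv (N : ℕ) : Fil N ≃ₗ[ℂ] (degreeLT ℂ (N + 1) × degreeLT ℂ (N - 1)) where
  toFun f := (⟨f.1.re, f.2.1⟩, ⟨f.1.im, f.2.2⟩)
  map_add' _ _ := rfl
  map_smul' _ _ := rfl
  invFun p := ⟨⟨p.1.1, p.2.1⟩, p.1.2, p.2.2⟩
  left_inv _ := rfl
  right_inv _ := rfl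

instance (N : ℕ) : FiniteDimensional ℂ (degreeLT ℂ N) :=
  (degreeLTEquiv ℂ N).symm.finiteDimensional

theorem finrank_degreeLT (N : ℕ) : finrank ℂ (degreeLT ℂ N) = N := by
  rw [(degreeLTEquiv ℂ N).finrank_eq]; simp

instance (N : ℕ) : FiniteDimensional ℂ (Fil N) := (FilEquiv N).symm.finiteDimensional

theorem finrank_Fil (N : ℕ) : finrank ℂ (Fil N) = (N + 1) + (N - 1) := by
  rw [(FilEquiv N).finrank_eq, finrank_prod, finrank_degreeLT, finrank_degreeLT]

theorem Fil_mono {N M : ℕ} (h : N ≤ M) : Fil N ≤ Fil M := by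
  intro f hf
  rw [mem_Fil] at *
  refine ⟨by omega, ?_⟩
  rcases hf.2 with h2 | h2
  · exact Or.inl h2
  · right; omega

theorem star_mem_Fil {N : ℕ} {f : CR} (hf : f ∈ Fil N) : star f ∈ Fil N := by
  rw [mem_Fil] at *
  simpa using hf

theorem mul_mem_Fil {N M : ℕ} {f g : CR} (hf : f ∈ Fil N) (hg : g ∈ Fil M) :
    f * g ∈ Fil (N + M) := by
  rw [mem_Fil] at *
  obtain ⟨hf1, hf2⟩ := hf
  obtain ⟨hg1, hg2⟩ := hg
  rw [cr_mul]
  have hX : (1 - X ^ 4 : ℂ[X]).natDegree ≤ 4 := by compute_degree
  constructor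
  · change (f.re * g.re + (1 - X ^ 4) * f.im * g.im).natDegree ≤ _
    refine (natDegree_add_le _ _).trans (max_le (natDegree_mul_le.trans (by omega)) ?_)
    rcases hf2 with hf2 | hf2
    · simp [hf2]
    rcases hg2 with hg2 | hg2
    · simp [hg2]
    refine natDegree_mul_le.trans ?_
    have := natDegree_mul_le (p := (1 - X ^ 4 : ℂ[X])) (q := f.im)
    omega
  · change f.re * g.im + f.im * g.re = 0 ∨ (f.re * g.im + f.im * g.re).natDegree + 2 ≤ _
    rcases hf2 with hf2 | hf2 <;> rcases hg2 with hg2 | hg2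
    · left; simp [hf2, hg2]
    · right
      rw [hf2, zero_mul, add_zero]
      have := natDegree_mul_le (p := f.re) (q := g.im)
      omega
    · right
      rw [hg2, mul_zero, zero_add]
      have := natDegree_mul_le (p := f.im) (q := g.re)
      omega
    · right
      have h1 := natDegree_mul_le (p := f.re) (q := g.im)
      have h2 := natDegree_mul_le (p := f.im) (q := g.re)
      have h3 := natDegree_add_le (f.re * g.im) (f.im * g.re)
      omega

section RR

variable {ι : Type*} (S : Finset ι) (q : ι → Pt) (n : ι → ℕ)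

/-- functions with pole order `≤ N` at infinity vanishing to order `≥ n i` at `q i`, `i ∈ S` -/
def UU (N : ℕ) : Submodule ℂ CR := Fil N ⊓ ⨅ i ∈ S, Ord (q i) (n i)

variable {S q n}

theorem mem_UU {N : ℕ} {f : CR} : f ∈ UU S q n N ↔ f ∈ Fil N ∧ ∀ i ∈ S, f ∈ Ord (q i) (n i) := by
  simp [UU, Submodule.mem_iInf]

instance (N : ℕ) : FiniteDimensional ℂ (UU S q n N) :=
  Submodule.finiteDimensional_of_le (inf_le_left : UU S q n N ≤ Fil N)

variable (S q n) in
/-- the product of the `(z - z_i)^(n_i)` -/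
def PP : ℂ[X] := ∏ i ∈ S, (X - C (q i).z) ^ n i

theorem PP_monic : (PP S q n).Monic := monic_prod_of_monic _ _ fun _ _ => (monic_X_sub_C _).pow _

theorem PP_natDegree : (PP S q n).natDegree = ∑ i ∈ S, n i := by
  rw [PP, natDegree_prod_of_monic _ _ fun _ _ => (monic_X_sub_C _).pow _]
  simp

theorem PP_dvd (hinj : Set.InjOn (fun i => (q i).z) S) {P : ℂ[X]}
    (h : ∀ i ∈ S, (X - C (q i).z) ^ n i ∣ P) : PP S q n ∣ P := by
  apply Finset.prod_dvd_of_coprime _ h
  intro i hi j hj hij
  apply IsCoprime.pow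
  apply isCoprime_X_sub_C_of_isUnit_sub
  rw [isUnit_iff_ne_zero, sub_ne_zero]
  intro h2
  exact hij (hinj hi hj h2)

theorem key_mul (hinj : Set.InjOn (fun i => (q i).z) S) {N M : ℕ} {f g : CR}
    (hf : f ∈ UU S q n N) (hg : g ∈ UU S q n M) :
    ∃ G : CR, f * star g = algebraMap ℂ[X] CR (PP S q n) * G ∧
      (∑ i ∈ S, n i ≤ N + M → G ∈ Fil (N + M - ∑ i ∈ S, n i)) ∧
      (N + M < ∑ i ∈ S, n i → G = 0) := by
  rw [mem_UU] at hf hg
  set h : CR := f * star g with hh
  have hd : ∀ i ∈ S, (X - C (q i).z) ^ n i ∣ h.re ∧ (X - C (q i).z) ^ n i ∣ h.im := by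
    intro i hi
    apply dvd_re_im
    · exact Ord_mul_right _ (hf.2 i hi)
    · rw [hh, star_mul, star_star]
      exact Ord_mul_right _ (hg.2 i hi)
  obtain ⟨A, hA⟩ := PP_dvd hinj fun i hi => (hd i hi).1
  obtain ⟨B, hB⟩ := PP_dvd hinj fun i hi => (hd i hi).2
  have hFil : h ∈ Fil (N + M) := mul_mem_Fil hf.1 (star_mem_Fil hg.1)
  rw [mem_Fil] at hFil
  have hP0 : PP S q n ≠ 0 := PP_monic.ne_zero
  refine ⟨⟨A, B⟩, ?_, ?_, ?_⟩
  · rw [QuadraticAlgebra.algebraMap_eq, cr_mul]
    ext1
    · rw [hA]; simp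
    · rw [hB]; simp
  · intro hle
    rw [mem_Fil]
    constructor
    · by_cases hA0 : A = 0
      · rw [hA0]; simp
      · have := natDegree_mul hP0 hA0
        rw [← hA, PP_natDegree] at this
        change A.natDegree ≤ _
        omega
    · by_cases hB0 : B = 0
      · exact Or.inl hB0
      · right
        have := natDegree_mul hP0 hB0
        rw [← hB, PP_natDegree] at this
        change B.natDegree + 2 ≤ _
        rcases hFil.2 with h2 | h2
        · exfalso
          rw [h2] at hB
          exact mul_ne_zero hP0 hB0 hB.symm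
        · omega
  · intro hlt
    have hA0 : A = 0 := by
      by_contra hA0
      have := natDegree_mul hP0 hA0
      rw [← hA, PP_natDegree] at this
      omega
    have hB0 : B = 0 := by
      by_contra hB0
      have := natDegree_mul hP0 hB0
      rw [← hB, PP_natDegree] at this
      rcases hFil.2 with h2 | h2
      · rw [h2] at hB
        exact mul_ne_zero hP0 hB0 hB.symm
      · omega
    rw [hA0, hB0]; rfl

theorem star_ne_zero' {f : CR} (hf : f ≠ 0) : star f ≠ 0 := by
  intro h
  apply hf
  rw [← star_star f, h, star_zero]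

theorem algebraMap_PP_ne_zero : algebraMap ℂ[X] CR (PP S q n) ≠ 0 := by
  intro h
  exact PP_monic.ne_zero (QuadraticAlgebra.algebraMap_injective (h.trans (map_zero _).symm))

/-- the number of zeros is at most twice the degree -/
theorem sum_le_of_ne (hinj : Set.InjOn (fun i => (q i).z) S) {N : ℕ} {f : CR}
    (hf : f ∈ UU S q n N) (h0 : f ≠ 0) : ∑ i ∈ S, n i ≤ 2 * N := by
  obtain ⟨G, h1, -, h3⟩ := key_mul hinj hf hf
  by_contra hlt
  rw [h3 (by omega), mul_zero] at h1
  exact mul_ne_zero h0 (star_ne_zero' h0) h1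

theorem finrank_UU_succ (N : ℕ) :
    finrank ℂ (UU S q n (N + 1)) ≤ finrank ℂ (UU S q n N) + 2 := by
  let φ : CR →ₗ[ℂ] (ℂ × ℂ) :=
    { toFun := fun f => (f.re.coeff (N + 1), f.im.coeff (N - 1))
      map_add' := fun f g => by simp
      map_smul' := fun c f => by simp }
  have h := finrank_le_add (UU S q n N) (UU S q n (N + 1)) φ ?_
  · simpa using h
  · intro f hf h0
    rw [mem_UU] at hf ⊢
    refine ⟨?_, hf.2⟩
    have h1 := hf.1
    rw [mem_Fil] at h1 ⊢
    have h2 : f.re.coeff (N + 1) = 0 := congrArg Prod.fst h0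
    have h3 : f.im.coeff (N - 1) = 0 := congrArg Prod.snd h0
    constructor
    · by_contra hcon
      have h4 : f.re.natDegree = N + 1 := by omega
      have h5 : f.re ≠ 0 := by
        intro h6; rw [h6] at h4; simp at h4
      apply h5
      rw [← leadingCoeff_eq_zero, leadingCoeff, h4, h2]
    · rcases h1.2 with h4 | h4
      · exact Or.inl h4
      · by_contra hcon
        push Not at hcon
        have h5 : f.im.natDegree = N - 1 := by omega
        apply hcon.1
        rw [← leadingCoeff_eq_zero, leadingCoeff, h5, h3]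

theorem finrank_UU_add (N k : ℕ) :
    finrank ℂ (UU S q n (N + k)) ≤ finrank ℂ (UU S q n N) + 2 * k := by
  induction k with
  | zero => simp
  | succ k ih =>
    have := finrank_UU_succ (S := S) (q := q) (n := n) (N + k)
    rw [← add_assoc]
    omega

/-- multiplication as a linear map -/
def mulL (g : CR) : CR →ₗ[ℂ] CR where
  toFun f := f * g
  map_add' f f' := add_mul f f' g
  map_smul' c f := by simp

theorem mulL_injective {g : CR} (hg : g ≠ 0) : Function.Injective (mulL g) := by
  intro a b h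
  exact mul_right_cancel₀ hg h

theorem finrank_UU_of_eq (hinj : Set.InjOn (fun i => (q i).z) S) {N₀ N : ℕ} {f₀ : CR}
    (hf : f₀ ∈ UU S q n N₀) (h0 : f₀ ≠ 0) (hS : ∑ i ∈ S, n i = 2 * N₀) (hN : N₀ ≤ N) :
    finrank ℂ (UU S q n N) ≤ finrank ℂ (Fil (N - N₀)) := by
  have e1 := finrank_map_inj (mulL_injective (star_ne_zero' h0)) (UU S q n N)
  have e2 := finrank_map_inj
    (mulL_injective (algebraMap_PP_ne_zero (S := S) (q := q) (n := n))) (Fil (N - N₀))
  rw [← e1, ← e2]
  apply Submodule.finrank_mono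
  rintro _ ⟨f, hf', rfl⟩
  obtain ⟨G, h1, h2, -⟩ := key_mul hinj hf' hf
  refine ⟨G, ?_, ?_⟩
  · have := h2 (by omega)
    rwa [hS, show N + N₀ - 2 * N₀ = N - N₀ by omega] at this
  · change G * _ = f * star f₀
    rw [h1, mul_comm]

theorem finrank_UU_le_one (hinj : Set.InjOn (fun i => (q i).z) S) {N₀ : ℕ}
    (hS : ∑ i ∈ S, n i + 1 = 2 * N₀) (hmin : UU S q n (N₀ - 1) = ⊥) :
    finrank ℂ (UU S q n N₀) ≤ 1 := by
  by_cases hbot : UU S q n N₀ = ⊥
  · rw [hbot, finrank_bot]; omega
  obtain ⟨f₁, hf₁, h01⟩ := (Submodule.ne_bot_iff _).1 hbot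
  have hN₀ : 1 ≤ N₀ := by omega
  have hmin' : ∀ f ∈ UU S q n (N₀ - 1), f = 0 := by
    intro f hf; rw [hmin] at hf; exact hf
  refine finrank_le_one (⟨f₁, hf₁⟩ : UU S q n N₀) ?_
  rintro ⟨f₂, hf₂⟩
  suffices h : ∃ c : ℂ, c • f₁ = f₂ by
    obtain ⟨c, hc⟩ := h
    exact ⟨c, Subtype.ext hc⟩
  obtain ⟨G, hG1, hG2, -⟩ := key_mul hinj hf₂ hf₁
  obtain ⟨L, hL1, hL2, -⟩ := key_mul hinj hf₁ hf₁
  have hG3 := hG2 (by omega)
  have hL3 := hL2 (by omega)
  rw [show N₀ + N₀ - ∑ i ∈ S, n i = 1 by omega, mem_Fil] at hG3 hL3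
  have hGim : G.im = 0 := by rcases hG3.2 with h | h; exact h; omega
  have hLim : L.im = 0 := by rcases hL3.2 with h | h; exact h; omega
  have hL0 : L ≠ 0 := by
    intro h
    rw [h, mul_zero] at hL1
    exact mul_ne_zero h01 (star_ne_zero' h01) hL1
  set g := G.re with hg
  set l := L.re with hl
  have hl0 : l ≠ 0 := by
    intro h
    exact hL0 (by ext1; exact h; exact hLim)
  have hrel : f₂ * L = f₁ * G := by
    apply mul_left_cancel₀ (algebraMap_PP_ne_zero (S := S) (q := q) (n := n))
    linear_combination (-f₂) * hL1 + f₁ * hG1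
  have hre : f₂.re * l = f₁.re * g := by
    have := congrArg QuadraticAlgebra.re hrel
    simpa [hGim, hLim] using this
  have him : f₂.im * l = f₁.im * g := by
    have := congrArg QuadraticAlgebra.im hrel
    simpa [hGim, hLim] using this
  have hf₁F := (mem_UU.1 hf₁).1
  have hf₂F := (mem_UU.1 hf₂).1
  rw [mem_Fil] at hf₁F hf₂F
  -- it suffices that `g` is a scalar multiple of `l`
  have hprop : ∀ c : ℂ, g = C c * l → ∃ c : ℂ, c • f₁ = f₂ := by
    intro c hc
    refine ⟨c, ?_⟩
    ext1
    · apply mul_right_cancel₀ hl0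
      rw [hre, hc, QuadraticAlgebra.re_smul, smul_eq_C_mul]; ring
    · apply mul_right_cancel₀ hl0
      rw [him, hc, QuadraticAlgebra.im_smul, smul_eq_C_mul]; ring
  rcases Nat.eq_zero_or_pos l.natDegree with hld | hld
  · -- `l` constant
    obtain ⟨c, hc⟩ := natDegree_eq_zero.1 hld
    have hc0 : c ≠ 0 := by
      intro h; rw [h, C_0] at hc; exact hl0 hc.symm
    rcases Nat.eq_zero_or_pos g.natDegree with hgd | hgd
    · obtain ⟨b, hb⟩ := natDegree_eq_zero.1 hgd
      apply hprop (b / c)
      rw [← hb, ← hc, ← C_mul, div_mul_cancel₀ _ hc0]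
    · exfalso
      apply h01
      apply hmin'
      rw [mem_UU]
      refine ⟨?_, (mem_UU.1 hf₁).2⟩
      have hg0 : g ≠ 0 := by intro h; rw [h] at hgd; simp at hgd
      have hCc : (C c : ℂ[X]) ≠ 0 := C_ne_zero.2 hc0
      rw [mem_Fil]
      constructor
      · by_cases h : f₁.re = 0
        · rw [h]; simp
        · have h5 := natDegree_mul h hg0
          rw [← hre, ← hc] at h5
          have h6 := natDegree_mul_C_le f₂.re c
          omega
      · by_cases h : f₁.im = 0
        · exact Or.inl h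
        · right
          have h5 := natDegree_mul h hg0
          rw [← him, ← hc] at h5
          have h6 := natDegree_mul_C_le f₂.im c
          rcases hf₂F.2 with h7 | h7
          · exfalso
            rw [h7, zero_mul] at him
            exact mul_ne_zero h hg0 him.symm
          · omega
  · -- `l` of degree one
    have hl1 : l.natDegree = 1 := by omega
    obtain ⟨r, hr⟩ : ∃ r, l.IsRoot r := by
      apply IsAlgClosed.exists_root
      rw [degree_eq_natDegree hl0, hl1]
      norm_num
    obtain ⟨l', hl'⟩ := dvd_iff_isRoot.2 hr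
    have hl'0 : l' ≠ 0 := by
      intro h; rw [h, mul_zero] at hl'; exact hl0 hl'
    have hl'd : l'.natDegree = 0 := by
      have h5 := natDegree_mul (X_sub_C_ne_zero r) hl'0
      rw [← hl', hl1, natDegree_X_sub_C] at h5
      omega
    obtain ⟨c, hc⟩ := natDegree_eq_zero.1 hl'd
    have hc0 : c ≠ 0 := by
      intro h; rw [h, C_0] at hc; exact hl'0 hc.symm
    by_cases hgr : g.eval r = 0
    · -- proportional
      obtain ⟨g', hg'⟩ := dvd_iff_isRoot.2 (show g.IsRoot r from hgr)
      by_cases hg'0 : g' = 0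
      · apply hprop 0
        rw [hg', hg'0]; simp
      have hg'd : g'.natDegree = 0 := by
        have h5 := natDegree_mul (X_sub_C_ne_zero r) hg'0
        rw [← hg', natDegree_X_sub_C] at h5
        omega
      obtain ⟨b, hb⟩ := natDegree_eq_zero.1 hg'd
      apply hprop (b / c)
      have hbc : C (b / c) * C c = (C b : ℂ[X]) := by rw [← C_mul, div_mul_cancel₀ _ hc0]
      rw [hg', hl', ← hb, ← hc, ← hbc]; ring
    · exfalso
      have hprime := prime_X_sub_C r
      have hd1 : (X - C r) ∣ f₁.re := by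
        have : (X - C r) ∣ f₁.re * g := by
          rw [← hre, hl']; exact Dvd.intro_left (f₂.re * l') (by ring)
        rcases hprime.dvd_or_dvd this with h | h
        · exact h
        · exact absurd (dvd_iff_isRoot.1 h) hgr
      have hd2 : (X - C r) ∣ f₁.im := by
        have : (X - C r) ∣ f₁.im * g := by
          rw [← him, hl']; exact Dvd.intro_left (f₂.im * l') (by ring)
        rcases hprime.dvd_or_dvd this with h | h
        · exact h
        · exact absurd (dvd_iff_isRoot.1 h) hgr
      obtain ⟨A, hA⟩ := hd1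
      obtain ⟨B, hB⟩ := hd2
      set f' : CR := ⟨A, B⟩ with hf'
      have hf₁' : f₁ = algebraMap ℂ[X] CR (X - C r) * f' := by
        rw [QuadraticAlgebra.algebraMap_eq, cr_mul]
        ext1
        · rw [hA]; simp [hf']
        · rw [hB]; simp [hf']
      have hf₂' : f₂ * algebraMap ℂ[X] CR (C c) = f' * algebraMap ℂ[X] CR g := by
        have hX : algebraMap ℂ[X] CR (X - C r) ≠ 0 := by
          intro h
          exact X_sub_C_ne_zero r (QuadraticAlgebra.algebraMap_injective (h.trans (map_zero _).symm))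
        apply mul_left_cancel₀ hX
        have hLL : L = algebraMap ℂ[X] CR (X - C r) * algebraMap ℂ[X] CR (C c) := by
          rw [← map_mul, hc, ← hl']
          ext1
          · rfl
          · exact hLim
        have hGG : G = algebraMap ℂ[X] CR g := by
          ext1
          · rfl
          · exact hGim
        rw [hLL, hGG] at hrel
        linear_combination hrel + (algebraMap ℂ[X] CR g) * hf₁'
      have hf'0 : f' ≠ 0 := by
        intro h; rw [h, mul_zero] at hf₁'; exact h01 hf₁'
      apply hf'0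
      apply hmin'
      rw [mem_UU]
      constructor
      · rw [mem_Fil]
        constructor
        · change A.natDegree ≤ _
          by_cases h : A = 0
          · rw [h]; simp
          · have h5 := natDegree_mul (X_sub_C_ne_zero r) h
            rw [← hA, natDegree_X_sub_C] at h5
            omega
        · change B = 0 ∨ B.natDegree + 2 ≤ _
          by_cases h : B = 0
          · exact Or.inl h
          · right
            have h5 := natDegree_mul (X_sub_C_ne_zero r) h
            rw [← hB, natDegree_X_sub_C] at h5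
            rcases hf₁F.2 with h7 | h7
            · exfalso
              rw [h7] at hB
              exact mul_ne_zero (X_sub_C_ne_zero r) h hB.symm
            · omega
      · intro i hi
        by_cases hri : (q i).z = r
        · apply Ord_of_mul (u := algebraMap ℂ[X] CR g)
          · rw [QuadraticAlgebra.algebraMap_eq, ev_apply]
            simpa [hri] using hgr
          · rw [mul_comm, ← hf₂']
            exact Ord_mul_right _ ((mem_UU.1 hf₂).2 i hi)
        · apply Ord_of_mul (u := algebraMap ℂ[X] CR (X - C r))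
          · rw [QuadraticAlgebra.algebraMap_eq, ev_apply]
            simpa [sub_eq_zero] using hri
          · rw [← hf₁']
            exact (mem_UU.1 hf₁).2 i hi

/-- **Riemann-Roch type bound.** -/
theorem finrank_UU_le (hinj : Set.InjOn (fun i => (q i).z) S) {N : ℕ}
    (hN : ∑ i ∈ S, n i < 2 * N) :
    finrank ℂ (UU S q n N) + ∑ i ∈ S, n i ≤ 2 * N := by
  classical
  by_cases hall : UU S q n N = ⊥
  · rw [hall, finrank_bot]; omega
  have hex : ∃ M, UU S q n M ≠ ⊥ := ⟨N, hall⟩
  set N₀ := Nat.find hex with hN₀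
  have hne : UU S q n N₀ ≠ ⊥ := Nat.find_spec hex
  have hmin : ∀ M < N₀, UU S q n M = ⊥ := fun M hM => by
    have := Nat.find_min hex hM
    push Not at this
    exact this
  have hle : N₀ ≤ N := Nat.find_min' hex hall
  obtain ⟨f₀, hf₀, h0⟩ := (Submodule.ne_bot_iff _).1 hne
  have hZ := sum_le_of_ne hinj hf₀ h0
  have hadd := finrank_UU_add (S := S) (q := q) (n := n) N₀ (N - N₀)
  rw [show N₀ + (N - N₀) = N by omega] at hadd
  rcases Nat.lt_or_ge (∑ i ∈ S, n i + 1) (2 * N₀) with h | h
  · have h2 : finrank ℂ (UU S q n N₀) ≤ 2 := by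
      have h3 := finrank_UU_succ (S := S) (q := q) (n := n) (N₀ - 1)
      rw [show N₀ - 1 + 1 = N₀ by omega, hmin (N₀ - 1) (by omega), finrank_bot] at h3
      exact h3
    omega
  · rcases Nat.eq_or_lt_of_le hZ with h' | h'
    · have h2 := finrank_UU_of_eq hinj hf₀ h0 h' hle
      rw [finrank_Fil] at h2
      omega
    · have h2 := finrank_UU_le_one hinj (N₀ := N₀) (by omega) (hmin (N₀ - 1) (by omega))
      omega

end RR

end Helper18.Shgh
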