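import Mathlib
import Pool.Agent.Helper18.ShghRR

open Polynomial Module
open scoped QuadraticAlgebra

noncomputable section

namespace Helper18.Shgh

theorem finrank_le_inf_iInf {k E ι : Type*} [Field k] [AddCommGroup E] [Module k E]
    (S : Finset ι) (K : ι → Submodule k E) (c : ι → ℕ)
    (h : ∀ i ∈ S, ∀ V : Submodule k E, FiniteDimensional k V →
      finrank k V ≤ finrank k (V ⊓ K i : Submodule k E) + c i)
    (V : Submodule k E) [FiniteDimensional k V] :
    finrank k V ≤ finrank k (V ⊓ ⨅ i ∈ S, K i : Submodule k E) + ∑ i ∈ S, c i := by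
  classical
  induction S using Finset.induction_on with
  | empty =>
    have h1 : V ⊓ ⨅ i ∈ (∅ : Finset ι), K i = V := by simp
    rw [h1]; simp
  | insert a S ha ih =>
    have ih' := ih fun i hi => h i (Finset.mem_insert_of_mem hi)
    have hfd : FiniteDimensional k (V ⊓ ⨅ i ∈ S, K i : Submodule k E) :=
      Submodule.finiteDimensional_of_le inf_le_left
    have h1 := h a (Finset.mem_insert_self a S) _ hfd
    rw [Finset.sum_insert ha]
    have h2 : (V ⊓ ⨅ i ∈ S, K i) ⊓ K a = V ⊓ ⨅ i ∈ insert a S, K i := by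
      rw [Finset.iInf_insert, inf_assoc, inf_comm (⨅ i ∈ S, K i)]
    rw [h2] at h1
    omega

theorem finrank_le_inf_Ord (q : Pt) (n : ℕ) (V : Submodule ℂ CR) [FiniteDimensional ℂ V] :
    finrank ℂ V ≤ finrank ℂ (V ⊓ Ord q n : Submodule ℂ CR) + n := by
  have : FiniteDimensional ℂ (V ⊓ Ord q n : Submodule ℂ CR) :=
    Submodule.finiteDimensional_of_le inf_le_left
  let φ : CR →ₗ[ℂ] (Fin n → ℂ) :=
    { toFun := fun f a => ev q (DD^[a] f)
      map_add' := fun f g => by
        ext a; rw [iterate_map_add, map_add]; rfl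
      map_smul' := fun c f => by
        ext a
        have : DD^[a] (c • f) = c • DD^[a] f := by
          generalize (a : ℕ) = b
          induction b with
          | zero => rfl
          | succ b ih => rw [Function.iterate_succ_apply', Function.iterate_succ_apply', ih,
              map_smul]
        rw [this, ev_smul]; rfl }
  have h := finrank_le_add (V ⊓ Ord q n) V φ ?_
  · simpa using h
  · intro f hf h0
    refine Submodule.mem_inf.2 ⟨hf, ?_⟩
    rw [mem_Ord_iff]
    intro a ha
    exact congrFun h0 ⟨a, ha⟩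

/-- the involution `(z, v) ↦ (-z, -v)` -/
def sg : CR →ₗ[ℂ] CR where
  toFun f := ⟨f.re.comp (-X), -f.im.comp (-X)⟩
  map_add' f g := by ext1 <;> simp [add_comp]; ring
  map_smul' c f := by ext1 <;> simp [smul_comp]

theorem sg_apply (f : CR) : sg f = ⟨f.re.comp (-X), -f.im.comp (-X)⟩ := rfl

theorem sg_mul (f g : CR) : sg (f * g) = sg f * sg g := by
  rw [sg_apply, sg_apply, sg_apply]
  ext1
  · simp only [cr_mul, add_comp, mul_comp, sub_comp, pow_comp, X_comp, one_comp]
    ring
  · simp only [cr_mul, add_comp, mul_comp]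
    ring

theorem sg_sg (f : CR) : sg (sg f) = f := by
  rw [sg_apply, sg_apply]
  ext1
  · simp [comp_assoc]
  · simp [comp_assoc]

theorem sg_one : sg 1 = 1 := by
  rw [sg_apply]; ext1 <;> simp

theorem sg_pow (f : CR) (k : ℕ) : sg (f ^ k) = sg f ^ k := by
  induction k with
  | zero => simp [sg_one]
  | succ k ih => rw [pow_succ f k, sg_mul, ih, pow_succ (sg f) k]

theorem sg_zz : sg zz = -zz := by
  rw [sg_apply]; ext1 <;> simp [zz]

theorem sg_vv : sg vv = -vv := by
  rw [sg_apply]; ext1 <;> simp [vv]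

theorem DD_sg (f : CR) : DD (sg f) = sg (DD f) := by
  rw [sg_apply, DD_apply, DD_apply, sg_apply]
  ext1
  · simp only [derivative_neg, derivative_comp, derivative_X, sub_comp, mul_comp, pow_comp,
      X_comp, one_comp]
    have : (2 : ℂ[X]).comp (-X) = 2 := by
      have : (2 : ℂ[X]) = C 2 := rfl
      rw [this, C_comp]
    rw [this]
    ring
  · simp only [derivative_comp, derivative_neg, derivative_X]
    ring

theorem DD_iterate_sg (a : ℕ) (f : CR) : DD^[a] (sg f) = sg (DD^[a] f) := by
  induction a with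
  | zero => rfl
  | succ a ih => rw [Function.iterate_succ_apply', ih, DD_sg, Function.iterate_succ_apply']

/-- the image of a point under the involution -/
def Pt.neg (q : Pt) : Pt := ⟨-q.z, -q.v, by rw [neg_sq, q.h]; ring, neg_ne_zero.2 q.hv⟩

theorem ev_sg (q : Pt) (f : CR) : ev q (sg f) = ev q.neg f := by
  rw [ev_apply, ev_apply, sg_apply]
  simp [Pt.neg, eval_comp]

theorem Ord_neg {q : Pt} {n : ℕ} {f : CR} : f ∈ Ord q.neg n ↔ sg f ∈ Ord q n := by
  rw [mem_Ord_iff, mem_Ord_iff]
  apply forall₂_congr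
  intro a _
  rw [DD_iterate_sg, ev_sg]

theorem sg_mem_Fil {N : ℕ} {f : CR} (hf : f ∈ Fil N) : sg f ∈ Fil N := by
  rw [mem_Fil] at *
  rw [sg_apply]
  have h : ∀ p : ℂ[X], (p.comp (-X)).natDegree ≤ p.natDegree := by
    intro p
    refine natDegree_comp_le.trans ?_
    rw [natDegree_neg, natDegree_X, mul_one]
  constructor
  · exact (h _).trans hf.1
  · change -f.im.comp (-X) = 0 ∨ (-f.im.comp (-X)).natDegree + 2 ≤ N
    rcases hf.2 with h1 | h1
    · left; rw [h1]; simp
    · right
      rw [natDegree_neg]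
      have := h f.im
      omega

/-- the `±1`-eigenspaces of the involution -/
def Eig (ε : ℤˣ) : Submodule ℂ CR where
  carrier := {f | sg f = ((ε : ℤ) : ℂ) • f}
  add_mem' := by
    intro f g hf hg
    simp only [Set.mem_ofPred_eq, map_add, smul_add] at *
    rw [hf, hg]
  zero_mem' := by simp
  smul_mem' := by
    intro c f hf
    simp only [Set.mem_ofPred_eq, map_smul] at *
    rw [hf, smul_comm]

theorem mem_Eig {ε : ℤˣ} {f : CR} : f ∈ Eig ε ↔ sg f = ((ε : ℤ) : ℂ) • f := Iff.rfl

theorem mem_Eig_one {f : CR} : f ∈ Eig 1 ↔ sg f = f := by simp [mem_Eig]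
theorem mem_Eig_neg_one {f : CR} : f ∈ Eig (-1) ↔ sg f = -f := by simp [mem_Eig]

theorem Eig_disjoint (ε : ℤˣ) {f : CR} (h1 : f ∈ Eig ε) (h2 : f ∈ Eig (-ε)) : f = 0 := by
  have key : f ∈ Eig 1 → f ∈ Eig (-1) → f = 0 := by
    intro h1 h2
    rw [mem_Eig_one] at h1
    rw [mem_Eig_neg_one, h1] at h2
    have h3 : (2 : ℂ) • f = 0 := by
      rw [two_smul]
      nth_rewrite 2 [h2]
      exact add_neg_cancel f
    exact (smul_eq_zero.1 h3).resolve_left two_ne_zero
  rcases Int.units_eq_one_or ε with rfl | rfl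
  · exact key h1 h2
  · rw [neg_neg] at h2
    exact key h2 h1

/-- lower bound for the dimension of the eigenspaces -/
theorem le_finrank_Fil_Eig (ε : ℤˣ) {N : ℕ} (hN : 1 ≤ N) :
    N ≤ finrank ℂ (Fil N ⊓ Eig ε : Submodule ℂ CR) := by
  have hfd : FiniteDimensional ℂ (Fil N ⊓ Eig ε : Submodule ℂ CR) :=
    Submodule.finiteDimensional_of_le inf_le_left
  have hex : ∀ p : ℂ[X], (expand ℂ 2 p).comp (-X) = expand ℂ 2 p := by
    intro p
    rw [expand_eq_comp_X_pow, comp_assoc]
    congr 1
    simp
  have hinj : Function.Injective (expand ℂ 2) := expand_injective (by norm_num)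
  rcases Int.units_eq_one_or ε with rfl | rfl
  · let φ : (degreeLT ℂ (N / 2 + 1) × degreeLT ℂ ((N - 1) / 2)) →ₗ[ℂ]
        (Fil N ⊓ Eig 1 : Submodule ℂ CR) :=
      { toFun := fun p => ⟨⟨expand ℂ 2 p.1.1, X * expand ℂ 2 p.2.1⟩, by
          obtain ⟨⟨A, hA⟩, ⟨B, hB⟩⟩ := p
          rw [mem_degreeLT_iff] at hA hB
          refine Submodule.mem_inf.2 ⟨?_, ?_⟩
          · rw [mem_Fil]
            constructor
            · change (expand ℂ 2 A).natDegree ≤ N
              rw [natDegree_expand]
              rcases hA with h | h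
              · rw [h]; simp
              · omega
            · change X * expand ℂ 2 B = 0 ∨ (X * expand ℂ 2 B).natDegree + 2 ≤ N
              rcases hB with h | h
              · left; rw [h]; simp
              · right
                have h1 := natDegree_mul_le (p := (X : ℂ[X])) (q := expand ℂ 2 B)
                rw [natDegree_expand, natDegree_X] at h1
                omega
          · rw [mem_Eig_one, sg_apply]
            ext1
            · exact hex A
            · change -(X * expand ℂ 2 B).comp (-X) = X * expand ℂ 2 B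
              rw [mul_comp, hex, X_comp]; ring⟩
        map_add' := fun p p' => by
          apply Subtype.ext
          ext1
          · simp
          · simp [mul_add]
        map_smul' := fun c p => by
          apply Subtype.ext
          ext1
          · simp
          · simp }
    have h := LinearMap.finrank_le_finrank_of_injective (f := φ) (by
      rintro ⟨⟨A, hA⟩, ⟨B, hB⟩⟩ ⟨⟨A', hA'⟩, ⟨B', hB'⟩⟩ h
      have h1 : expand ℂ 2 A = expand ℂ 2 A' := congrArg (fun f => f.1.re) h
      have h2 : X * expand ℂ 2 B = X * expand ℂ 2 B' := congrArg (fun f => f.1.im) h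
      have h3 := hinj h1
      have h4 := hinj (mul_left_cancel₀ X_ne_zero h2)
      subst h3 h4
      rfl)
    rw [finrank_prod, finrank_degreeLT, finrank_degreeLT] at h
    omega
  · let φ : (degreeLT ℂ ((N + 1) / 2) × degreeLT ℂ (N / 2)) →ₗ[ℂ]
        (Fil N ⊓ Eig (-1) : Submodule ℂ CR) :=
      { toFun := fun p => ⟨⟨X * expand ℂ 2 p.1.1, expand ℂ 2 p.2.1⟩, by
          obtain ⟨⟨A, hA⟩, ⟨B, hB⟩⟩ := p
          rw [mem_degreeLT_iff] at hA hB
          refine Submodule.mem_inf.2 ⟨?_, ?_⟩
          · rw [mem_Fil]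
            constructor
            · change (X * expand ℂ 2 A).natDegree ≤ N
              rcases hA with h | h
              · rw [h]; simp
              · have h1 := natDegree_mul_le (p := (X : ℂ[X])) (q := expand ℂ 2 A)
                rw [natDegree_expand, natDegree_X] at h1
                omega
            · change expand ℂ 2 B = 0 ∨ (expand ℂ 2 B).natDegree + 2 ≤ N
              rcases hB with h | h
              · left; rw [h]; simp
              · right
                rw [natDegree_expand]
                omega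
          · rw [mem_Eig_neg_one, sg_apply]
            ext1
            · change (X * expand ℂ 2 A).comp (-X) = -(X * expand ℂ 2 A)
              rw [mul_comp, hex, X_comp]; ring
            · change -(expand ℂ 2 B).comp (-X) = -expand ℂ 2 B
              rw [hex]⟩
        map_add' := fun p p' => by
          apply Subtype.ext
          ext1
          · simp [mul_add]
          · simp
        map_smul' := fun c p => by
          apply Subtype.ext
          ext1
          · simp
          · simp }
    have h := LinearMap.finrank_le_finrank_of_injective (f := φ) (by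
      rintro ⟨⟨A, hA⟩, ⟨B, hB⟩⟩ ⟨⟨A', hA'⟩, ⟨B', hB'⟩⟩ h
      have h1 : X * expand ℂ 2 A = X * expand ℂ 2 A' := congrArg (fun f => f.1.re) h
      have h2 : expand ℂ 2 B = expand ℂ 2 B' := congrArg (fun f => f.1.im) h
      have h3 := hinj (mul_left_cancel₀ X_ne_zero h1)
      have h4 := hinj h2
      subst h3 h4
      rfl)
    rw [finrank_prod, finrank_degreeLT, finrank_degreeLT] at h
    omega

section

variable {ι : Type*} (S : Finset ι) (q : ι → Pt) (n : ι → ℕ)

/-- functions in an eigenspace with prescribed orders -/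
def EU (ε : ℤˣ) (N : ℕ) : Submodule ℂ CR := (Fil N ⊓ Eig ε) ⊓ ⨅ i ∈ S, Ord (q i) (n i)

variable {S q n}

theorem mem_EU {ε : ℤˣ} {N : ℕ} {f : CR} : f ∈ EU S q n ε N ↔
    f ∈ Fil N ∧ f ∈ Eig ε ∧ ∀ i ∈ S, f ∈ Ord (q i) (n i) := by
  simp [EU, Submodule.mem_iInf, and_assoc]

instance (ε : ℤˣ) (N : ℕ) : FiniteDimensional ℂ (EU S q n ε N) :=
  Submodule.finiteDimensional_of_le ((inf_le_left.trans inf_le_left : EU S q n ε N ≤ Fil N))

theorem le_finrank_EU (ε : ℤˣ) {N : ℕ} (hN : 1 ≤ N) :
    N ≤ finrank ℂ (EU S q n ε N) + ∑ i ∈ S, n i := by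
  have hfd : FiniteDimensional ℂ (Fil N ⊓ Eig ε : Submodule ℂ CR) :=
    Submodule.finiteDimensional_of_le inf_le_left
  refine (le_finrank_Fil_Eig ε hN).trans ?_
  exact finrank_le_inf_iInf S (fun i => Ord (q i) (n i)) n
    (fun i _ V _ => finrank_le_inf_Ord (q i) (n i) V) _

/-- Riemann-Roch type bound for the eigenspaces. -/
theorem finrank_EU_le (ε : ℤˣ) (hinj : Set.InjOn (fun i => (q i).z ^ 2) S)
    (h0 : ∀ i ∈ S, (q i).z ≠ 0) {N : ℕ} (hN : ∑ i ∈ S, n i < N) :
    finrank ℂ (EU S q n ε N) + ∑ i ∈ S, n i ≤ N := by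
  classical
  let q' : ι × Bool → Pt := fun x => if x.2 then q x.1 else (q x.1).neg
  let n' : ι × Bool → ℕ := fun x => n x.1
  let S' : Finset (ι × Bool) := S ×ˢ Finset.univ
  have hsum : ∑ x ∈ S', n' x = 2 * ∑ i ∈ S, n i := by
    rw [Finset.sum_product, Finset.mul_sum]
    apply Finset.sum_congr rfl
    intro i _
    simp [n', two_mul]
  have hinj' : Set.InjOn (fun x => (q' x).z) S' := by
    rintro ⟨i, b⟩ hi ⟨j, c⟩ hj h
    simp only [S', Finset.coe_product, Set.mem_prod, Finset.mem_coe] at hi hj
    have hsq : (q i).z ^ 2 = (q j).z ^ 2 := by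
      have := congrArg (· ^ 2) h
      cases b <;> cases c <;> simpa [q', Pt.neg] using this
    have hij := hinj hi.1 hj.1 hsq
    subst hij
    have hz := h0 i hi.1
    congr 1
    cases b <;> cases c <;> simp [q', Pt.neg] at h ⊢
    · exact hz (by linear_combination (-1 / 2 : ℂ) * h)
    · exact hz (by linear_combination (1 / 2 : ℂ) * h)
  have hle : ∀ ε : ℤˣ, EU S q n ε N ≤ UU S' q' n' N := by
    intro ε f hf
    rw [mem_EU] at hf
    rw [mem_UU]
    refine ⟨hf.1, ?_⟩
    rintro ⟨i, b⟩ hi
    simp only [S', Finset.mem_product] at hi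
    cases b
    · change f ∈ Ord (q i).neg (n i)
      rw [Ord_neg, mem_Eig.1 hf.2.1]
      exact Submodule.smul_mem _ _ (hf.2.2 i hi.1)
    · exact hf.2.2 i hi.1
  have h1 : finrank ℂ (EU S q n ε N ⊔ EU S q n (-ε) N : Submodule ℂ CR) =
      finrank ℂ (EU S q n ε N) + finrank ℂ (EU S q n (-ε) N) := by
    have := Submodule.finrank_sup_add_finrank_inf_eq (EU S q n ε N) (EU S q n (-ε) N)
    have hbot : EU S q n ε N ⊓ EU S q n (-ε) N = ⊥ := by
      rw [eq_bot_iff]
      intro f hf
      rw [Submodule.mem_inf, mem_EU, mem_EU] at hf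
      exact Eig_disjoint ε hf.1.2.1 hf.2.2.1
    rw [hbot, finrank_bot, add_zero] at this
    exact this
  have h2 : finrank ℂ (EU S q n ε N ⊔ EU S q n (-ε) N : Submodule ℂ CR) ≤
      finrank ℂ (UU S' q' n' N) :=
    Submodule.finrank_mono (sup_le (hle ε) (hle (-ε)))
  have h3 := finrank_UU_le (S := S') (q := q') (n := n') hinj' (N := N) (by omega)
  have h4 := le_finrank_EU (S := S) (q := q) (n := n) (-ε) (N := N) (by omega)
  omega

end

end Helper18.Shgh
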