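import Pool.Agent.Helper18.ShghPlane
import Pool.Agent.Helper18.ShghSym

open Module

noncomputable section

namespace Helper18.Shgh

/-- dimension count along a map -/
theorem finrank_le_of_map {k E E' W : Type*} [Field k] [AddCommGroup E] [Module k E]
    [AddCommGroup E'] [Module k E'] [AddCommGroup W] [Module k W]
    (B : Submodule k E) (A : Submodule k E') (C : Submodule k W)
    [FiniteDimensional k B] [FiniteDimensional k A] [FiniteDimensional k C]
    (φ : E →ₗ[k] W) (μ : E' →ₗ[k] E) (hB : ∀ x ∈ B, φ x ∈ C)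
    (hker : ∀ x ∈ B, φ x = 0 → ∃ y ∈ A, μ y = x) :
    finrank k B ≤ finrank k A + finrank k C := by
  let ψ : B →ₗ[k] C := (φ.domRestrict B).codRestrict C (fun x => hB x.1 x.2)
  have h1 := LinearMap.finrank_range_add_finrank_ker ψ
  have h2 : finrank k (LinearMap.range ψ) ≤ finrank k C := Submodule.finrank_le _
  have h3 : finrank k (LinearMap.ker ψ) ≤ finrank k (A.map μ) := by
    have h4 : (LinearMap.ker ψ).map B.subtype ≤ A.map μ := by
      rintro _ ⟨x, hx, rfl⟩
      have hx' : φ x.1 = 0 := by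
        have := congrArg Subtype.val (LinearMap.mem_ker.1 hx)
        exact this
      obtain ⟨y, hy, h5⟩ := hker x.1 x.2 hx'
      exact ⟨y, hy, h5⟩
    have h5 := Submodule.finrank_mono h4
    rwa [finrank_map_inj B.subtype_injective] at h5
  have h6 : finrank k (A.map μ) ≤ finrank k A := Submodule.finrank_map_le μ A
  omega

theorem zz_mem_Fil : zz ∈ Fil 1 := by
  rw [mem_Fil]; simp [zz]

theorem vv_mem_Fil : vv ∈ Fil 2 := by
  rw [mem_Fil]; simp [vv]

theorem one_mem_Fil : (1 : CR) ∈ Fil 0 := by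
  have h : (1 : CR) = ⟨1, 0⟩ := rfl
  rw [mem_Fil, h]
  simp

theorem pow_mem_Fil {N : ℕ} {f : CR} (h : f ∈ Fil N) (k : ℕ) : f ^ k ∈ Fil (k * N) := by
  induction k with
  | zero => rw [pow_zero, zero_mul]; exact one_mem_Fil
  | succ k ih =>
    have h1 := mul_mem_Fil ih h
    rwa [← pow_succ f k, show k * N + N = (k + 1) * N by ring] at h1

theorem rho_mem_Fil {n : ℕ} {F : R2} (h : F ∈ V n) : rho F ∈ Fil (3 * n) := by
  have key : V n ≤ (Fil (3 * n)).comap rho.toLinearMap := by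
    rw [V, MvPolynomial.restrictSupport_eq_span, Submodule.span_le]
    rintro _ ⟨e, he, rfl⟩
    change rho (MvPolynomial.monomial e 1) ∈ Fil (3 * n)
    rw [rho, MvPolynomial.aeval_monomial, map_one, one_mul, Finsupp.prod_fintype _ _ (by simp),
      Fin.prod_univ_two]
    change (zz ^ 2) ^ (e 0) * (zz * vv) ^ (e 1) ∈ Fil (3 * n)
    have h1 := pow_mem_Fil (pow_mem_Fil zz_mem_Fil 2) (e 0)
    have h2 := pow_mem_Fil (mul_mem_Fil zz_mem_Fil vv_mem_Fil) (e 1)
    refine Fil_mono ?_ (mul_mem_Fil h1 h2)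
    change ((e.degree : ℕ) : ℤ) ≤ n at he
    have h3 : e.degree = e 0 + e 1 := by
      rw [Finsupp.degree_eq_sum, Fin.sum_univ_two]
    rw [h3] at he
    have : e 0 + e 1 ≤ n := by exact_mod_cast he
    omega
  exact key h

theorem rho_mem_Eig (F : R2) : rho F ∈ Eig 1 := by
  rw [mem_Eig_one]
  induction F using MvPolynomial.induction_on with
  | C a =>
    rw [show (MvPolynomial.C a : R2) = algebraMap ℂ R2 a from rfl, AlgHom.commutes,
      Algebra.algebraMap_eq_smul_one, map_smul, sg_one]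
  | add F G hF hG => rw [map_add, map_add, hF, hG]
  | mul_X F i hF =>
    rw [map_mul, sg_mul, hF]
    congr 1
    fin_cases i
    · change sg (rho (MvPolynomial.X 0)) = rho (MvPolynomial.X 0)
      rw [rho_X0, sg_pow, sg_zz, neg_sq]
    · change sg (rho (MvPolynomial.X 1)) = rho (MvPolynomial.X 1)
      rw [rho_X1, sg_mul, sg_zz, sg_vv, neg_mul_neg]

/-- the point of the plane below a point of the double cover -/
def Pt.pt (q : Pt) : Fin 2 → ℂ := ![q.z ^ 2, q.z * q.v]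

theorem ev_rho (q : Pt) (F : R2) : ev q (rho F) = MvPolynomial.eval q.pt F := by
  induction F using MvPolynomial.induction_on with
  | C a =>
    rw [show (MvPolynomial.C a : R2) = algebraMap ℂ R2 a from rfl, AlgHom.commutes,
      Algebra.algebraMap_eq_smul_one, ev_smul, map_one, mul_one, MvPolynomial.algebraMap_eq,
      MvPolynomial.eval_C]
  | add F G hF hG => rw [map_add, map_add, map_add, hF, hG]
  | mul_X F i hF =>
    rw [map_mul, map_mul, hF, map_mul, MvPolynomial.eval_X]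
    congr 1
    fin_cases i
    · change ev q (rho (MvPolynomial.X 0)) = q.z ^ 2
      rw [rho_X0, map_pow, ev_zz]
    · change ev q (rho (MvPolynomial.X 1)) = q.z * q.v
      rw [rho_X1, map_mul, ev_zz, ev_vv]

theorem rho_mem_Ord {q : Pt} {m : ℕ} {F : R2} (h : F ∈ mI q.pt ^ m) : rho F ∈ Ord q m := by
  let φ : R2 →+* PowerSeries ℂ := (TH q).comp rho.toRingHom
  have h1 : mI q.pt ≤ Ideal.comap φ (Ideal.span {PowerSeries.X}) := by
    intro G hG
    rw [Ideal.mem_comap, Ideal.mem_span_singleton]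
    change PowerSeries.X ∣ TH q (rho G)
    rw [PowerSeries.X_dvd_iff, coeff_zero_TH, ev_rho]
    exact mem_mI_iff.1 hG
  have h2 := Ideal.pow_right_mono h1 m h
  have h3 := Ideal.le_comap_pow φ m h2
  rw [Ideal.mem_comap, Ideal.span_singleton_pow, Ideal.mem_span_singleton] at h3
  exact h3

theorem cc_notMem {q : Pt} (hz : q.z ≠ 0) : cc ∉ mI q.pt ^ 2 := by
  intro h
  have h1 := deriv_mem_pow DY (mI q.pt) 1 h
  rw [pow_one, mem_mI_iff, DY_cc, map_mul, MvPolynomial.eval_X] at h1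
  have h2 : MvPolynomial.eval q.pt (2 : R2) = 2 := map_ofNat _ 2
  rw [h2] at h1
  change 2 * (q.z * q.v) = 0 at h1
  have := q.hv
  simp [hz, this] at h1

theorem cc_mem (q : Pt) : cc ∈ mI q.pt := by
  rw [mem_mI_iff, ← ev_rho, rho_cc, map_zero]

section GG

variable {ι : Type*} (S : Finset ι) (q : ι → Pt) (m : ι → ℕ) (d : ℤ)

/-- the quotients by `c ^ k` of the polynomials in the system divisible by `c ^ k` -/
def GG (k : ℕ) : Submodule ℂ R2 where
  carrier := {G | G ∈ V (d - 3 * k) ∧ ∀ i ∈ S, cc ^ k * G ∈ mI (q i).pt ^ m i}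
  add_mem' := by
    rintro F G ⟨hF1, hF2⟩ ⟨hG1, hG2⟩
    refine ⟨Submodule.add_mem _ hF1 hG1, fun i hi => ?_⟩
    rw [mul_add]
    exact Ideal.add_mem _ (hF2 i hi) (hG2 i hi)
  zero_mem' := ⟨Submodule.zero_mem _, fun i _ => by rw [mul_zero]; exact Ideal.zero_mem _⟩
  smul_mem' := by
    rintro c F ⟨hF1, hF2⟩
    refine ⟨Submodule.smul_mem _ c hF1, fun i hi => ?_⟩
    rw [mul_smul_comm, ← algebraMap_smul R2 c (cc ^ k * F), smul_eq_mul]
    exact Ideal.mul_mem_left _ _ (hF2 i hi)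

variable {S q m d}

theorem mem_GG {k : ℕ} {G : R2} : G ∈ GG S q m d k ↔
    G ∈ V (d - 3 * k) ∧ ∀ i ∈ S, cc ^ k * G ∈ mI (q i).pt ^ m i := Iff.rfl

theorem GG_le_V (k : ℕ) : GG S q m d k ≤ V (d - 3 * k) := fun _ h => h.1

instance (k : ℕ) : FiniteDimensional ℂ (GG S q m d k) :=
  Submodule.finiteDimensional_of_le (GG_le_V k)

theorem mem_GG_ord {k : ℕ} {G : R2} (hz : ∀ i ∈ S, (q i).z ≠ 0) (h : G ∈ GG S q m d k) {i : ι}
    (hi : i ∈ S) : G ∈ mI (q i).pt ^ (m i - k) :=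
  mem_of_pow_mul_mem (cc_notMem (hz i hi)) k (h.2 i hi)

/-- multiplication by the cubic -/
def mulcc : R2 →ₗ[ℂ] R2 := LinearMap.mulLeft ℂ cc

theorem mulcc_apply (F : R2) : mulcc F = cc * F := rfl

theorem mulcc_injective : Function.Injective mulcc := by
  intro F G h
  exact mul_left_cancel₀ cc_ne_zero h

theorem mulcc_mem_GG {k : ℕ} {G : R2} : cc * G ∈ GG S q m d k ↔ G ∈ GG S q m d (k + 1) := by
  rw [mem_GG, mem_GG, cc_mul_mem_V, ← mul_assoc, ← pow_succ]
  push_cast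
  rw [show d - 3 * (k : ℤ) - 3 = d - 3 * (k + 1) by ring]

theorem rho_mem_EU {k : ℕ} {G : R2} (hz : ∀ i ∈ S, (q i).z ≠ 0) (h : G ∈ GG S q m d k)
    {n : ℕ} (hn : (n : ℤ) = d - 3 * k) :
    rho G ∈ EU S q (fun i => m i - k) 1 (3 * n) := by
  rw [mem_EU]
  refine ⟨rho_mem_Fil ?_, rho_mem_Eig G, fun i hi => rho_mem_Ord (mem_GG_ord hz h hi)⟩
  rw [hn]; exact h.1

theorem finrank_GG_le (hinj : Set.InjOn (fun i => (q i).z ^ 2) S) (hz : ∀ i ∈ S, (q i).z ≠ 0)
    {k : ℕ} {n : ℕ} (hn : (n : ℤ) = d - 3 * k) (hlt : ∑ i ∈ S, (m i - k) < 3 * n) :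
    finrank ℂ (GG S q m d k) + ∑ i ∈ S, (m i - k) ≤
      finrank ℂ (GG S q m d (k + 1)) + 3 * n := by
  have h1 := finrank_le_of_map (GG S q m d k) (GG S q m d (k + 1))
    (EU S q (fun i => m i - k) 1 (3 * n)) rho.toLinearMap mulcc
    (fun x hx => rho_mem_EU hz hx hn)
    (by
      intro x hx h0
      obtain ⟨G, hG⟩ := exists_of_rho_eq_zero h0
      refine ⟨G, ?_, ?_⟩
      · rw [← mulcc_mem_GG, ← hG]; exact hx
      · rw [mulcc_apply, hG])
  have h2 := finrank_EU_le (S := S) (q := q) (n := fun i => m i - k) 1 hinj hz hlt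
  omega

end GG

end Helper18.Shgh
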