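import Pool.Agent.Helper18.ShghIdeal
import Pool.Agent.Helper18.ShghCurve

open Module

noncomputable section

namespace Helper18.Shgh

abbrev R2 := MvPolynomial (Fin 2) ℂ

/-- polynomials of total degree at most `n` (zero if `n < 0`) -/
def V (n : ℤ) : Submodule ℂ R2 := MvPolynomial.restrictSupport ℂ {e | (e.degree : ℤ) ≤ n}

theorem mem_V' {n : ℤ} {F : R2} :
    F ∈ V n ↔ ∀ e, MvPolynomial.coeff e F ≠ 0 → (e.degree : ℤ) ≤ n := by
  rw [V, MvPolynomial.mem_restrictSupport_iff]
  simp [Set.subset_def]

theorem mem_V {n : ℤ} {F : R2} : F ∈ V n ↔ F = 0 ∨ (F.totalDegree : ℤ) ≤ n := by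
  rw [mem_V']
  constructor
  · intro h
    by_cases hF : F = 0
    · exact Or.inl hF
    · right
      have hne : F.support.Nonempty := by
        rwa [Finset.nonempty_iff_ne_empty, Ne, MvPolynomial.support_eq_empty]
      obtain ⟨e, he, h2⟩ := Finset.exists_mem_eq_sup F.support hne
        (fun s => s.sum fun _ e => e)
      have h3 : F.totalDegree = e.degree := by
        rw [MvPolynomial.totalDegree, h2]; rfl
      rw [h3]
      exact h e (MvPolynomial.mem_support_iff.1 he)
  · rintro (h | h) e he
    · rw [h] at he; simp at he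
    · refine le_trans ?_ h
      have := MvPolynomial.le_totalDegree (MvPolynomial.mem_support_iff.2 he)
      exact_mod_cast this

theorem V_neg {n : ℤ} (hn : n < 0) : V n = ⊥ := by
  rw [eq_bot_iff]
  intro F hF
  rw [mem_V] at hF
  rcases hF with h | h
  · exact h
  · omega

theorem V_mono {n n' : ℤ} (h : n ≤ n') : V n ≤ V n' := by
  intro F hF
  rw [mem_V] at *
  rcases hF with h | h
  · exact Or.inl h
  · exact Or.inr (by omega)

instance (n : ℤ) : FiniteDimensional ℂ (V n) := by
  apply Submodule.finiteDimensional_of_le (S₂ := MvPolynomial.restrictTotalDegree (Fin 2) ℂ n.toNat)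
  intro F hF
  rw [MvPolynomial.mem_restrictTotalDegree]
  rw [mem_V] at hF
  rcases hF with h | h
  · rw [h]; simp
  · omega

theorem mul_mem_V_iff {h F : R2} (hh : h ≠ 0) {n : ℤ} :
    h * F ∈ V (n + h.totalDegree) ↔ F ∈ V n := by
  rw [mem_V, mem_V]
  by_cases hF : F = 0
  · simp [hF]
  · rw [MvPolynomial.totalDegree_mul_of_isDomain hh hF]
    simp only [mul_eq_zero, hh, hF, or_self, false_or]
    push_cast
    omega

/-- the affine cubic `y² = x - x³` -/
def cc : R2 := MvPolynomial.X 1 ^ 2 - MvPolynomial.X 0 + MvPolynomial.X 0 ^ 3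

theorem totalDegree_cc : cc.totalDegree = 3 := by
  apply le_antisymm
  · rw [cc]
    refine (MvPolynomial.totalDegree_add _ _).trans (max_le ?_ ?_)
    · refine (MvPolynomial.totalDegree_sub _ _).trans (max_le ?_ ?_)
      · rw [MvPolynomial.totalDegree_X_pow]; omega
      · rw [MvPolynomial.totalDegree_X]; omega
    · rw [MvPolynomial.totalDegree_X_pow]
  · have h : MvPolynomial.coeff (Finsupp.single (0 : Fin 2) 3) cc ≠ 0 := by
      have h1 : ¬ (Finsupp.single (1 : Fin 2) 2 = Finsupp.single (0 : Fin 2) 3) := by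
        intro h
        have := DFunLike.congr_fun h 0
        simp at this
      have h2 : ¬ (Finsupp.single (0 : Fin 2) 1 = Finsupp.single (0 : Fin 2) 3) := by
        intro h
        have := DFunLike.congr_fun h 0
        simp at this
      rw [cc, MvPolynomial.coeff_add, MvPolynomial.coeff_sub, MvPolynomial.coeff_X_pow,
        MvPolynomial.coeff_X_pow, MvPolynomial.coeff_X, if_neg h1, if_neg h2]
      simp
    have := MvPolynomial.le_totalDegree (MvPolynomial.mem_support_iff.2 h)
    rw [Finsupp.sum_single_index rfl] at this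
    exact this

theorem cc_ne_zero : cc ≠ 0 := by
  intro h
  have := totalDegree_cc
  rw [h] at this
  simp at this

theorem cc_mul_mem_V {F : R2} {n : ℤ} : cc * F ∈ V n ↔ F ∈ V (n - 3) := by
  have := mul_mem_V_iff (F := F) cc_ne_zero (n := n - 3)
  rw [totalDegree_cc] at this
  rw [← this]
  congr! 2
  push_cast
  ring

/-- restriction to the curve, pulled back to the double cover -/
def rho : R2 →ₐ[ℂ] CR := MvPolynomial.aeval ![zz ^ 2, zz * vv]

theorem rho_X0 : rho (MvPolynomial.X 0) = zz ^ 2 := by simp [rho]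
theorem rho_X1 : rho (MvPolynomial.X 1) = zz * vv := by simp [rho]

theorem rho_cc : rho cc = 0 := by
  rw [cc, map_add, map_sub, map_pow, map_pow, rho_X0, rho_X1]
  have := vv_sq
  linear_combination zz ^ 2 * this

/-- the derivation tangent to the curve -/
def DT : Derivation ℂ R2 R2 :=
  MvPolynomial.mkDerivation ℂ ![2 * MvPolynomial.X 1, 1 - 3 * MvPolynomial.X 0 ^ 2]

theorem DT_X0 : DT (MvPolynomial.X 0) = 2 * MvPolynomial.X 1 := by
  rw [DT, MvPolynomial.mkDerivation_X]; rfl

theorem DT_X1 : DT (MvPolynomial.X 1) = 1 - 3 * MvPolynomial.X 0 ^ 2 := by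
  rw [DT, MvPolynomial.mkDerivation_X]; rfl

theorem DT_cc : DT cc = 0 := by
  rw [cc, map_add, map_sub, Derivation.leibniz_pow, Derivation.leibniz_pow, DT_X0, DT_X1]
  simp only [smul_eq_mul, nsmul_eq_mul]
  push_cast
  ring

theorem DD_one : DD 1 = 0 := by
  have h := DD_mul 1 1
  rw [mul_one, mul_one, one_mul] at h
  exact left_eq_add.1 h

theorem rho_DT (F : R2) : rho (DT F) = DD (rho F) := by
  induction F using MvPolynomial.induction_on with
  | C a =>
    rw [show (MvPolynomial.C a : R2) = algebraMap ℂ R2 a from rfl, Derivation.map_algebraMap,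
      map_zero, AlgHom.commutes, Algebra.algebraMap_eq_smul_one, map_smul]
    rw [DD_one, smul_zero]
  | add F G hF hG => rw [map_add, map_add, map_add, map_add, hF, hG]
  | mul_X F i hF =>
    rw [Derivation.leibniz, map_add, smul_eq_mul, smul_eq_mul, map_mul, map_mul, map_mul, DD_mul, hF]
    have : rho (DT (MvPolynomial.X i)) = DD (rho (MvPolynomial.X i)) := by
      fin_cases i
      · change rho (DT (MvPolynomial.X 0)) = DD (rho (MvPolynomial.X 0))
        rw [DT_X0, rho_X0, map_mul, rho_X1, sq, DD_mul, DD_zz, map_ofNat]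
        ring
      · change rho (DT (MvPolynomial.X 1)) = DD (rho (MvPolynomial.X 1))
        rw [DT_X1, rho_X1, DD_mul, DD_zz, DD_vv, map_sub, map_mul, map_one, map_pow, rho_X0,
          map_ofNat, vv_sq]
        ring
    rw [this]
    ring

/-- the derivative with respect to the second variable -/
def DY : Derivation ℂ R2 R2 := MvPolynomial.pderiv 1

theorem DY_cc : DY cc = 2 * MvPolynomial.X 1 := by
  rw [cc, map_add, map_sub, Derivation.leibniz_pow, Derivation.leibniz_pow, DY,
    MvPolynomial.pderiv_X_self, MvPolynomial.pderiv_X_of_ne (by decide)]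
  simp only [smul_eq_mul, nsmul_eq_mul]
  push_cast
  ring

/-- every polynomial is congruent modulo the cubic to a polynomial linear in `y` -/
theorem exists_normal_form (F : R2) : ∃ (A : R2) (B C : Polynomial ℂ),
    F = cc * A + Polynomial.aeval (MvPolynomial.X 0) B +
      Polynomial.aeval (MvPolynomial.X 0) C * MvPolynomial.X 1 := by
  induction F using MvPolynomial.induction_on with
  | C a =>
    refine ⟨0, Polynomial.C a, 0, ?_⟩
    rw [Polynomial.aeval_C]
    simp [MvPolynomial.algebraMap_eq]
  | add F G hF hG =>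
    obtain ⟨A, B, C, h⟩ := hF
    obtain ⟨A', B', C', h'⟩ := hG
    refine ⟨A + A', B + B', C + C', ?_⟩
    rw [map_add, map_add, h, h']
    ring
  | mul_X F i hF =>
    obtain ⟨A, B, C, h⟩ := hF
    fin_cases i
    · refine ⟨A * MvPolynomial.X 0, B * Polynomial.X, C * Polynomial.X, ?_⟩
      change F * MvPolynomial.X 0 = _
      rw [h, map_mul, map_mul, Polynomial.aeval_X]
      ring
    · refine ⟨A * MvPolynomial.X 1 + Polynomial.aeval (MvPolynomial.X 0) C,
        C * (Polynomial.X - Polynomial.X ^ 3), B, ?_⟩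
      change F * MvPolynomial.X 1 = _
      rw [h, map_mul, map_sub, map_pow, Polynomial.aeval_X, cc]
      ring

theorem rho_aeval (B : Polynomial ℂ) :
    rho (Polynomial.aeval (MvPolynomial.X 0) B) = ⟨Polynomial.expand ℂ 2 B, 0⟩ := by
  rw [← Polynomial.aeval_algHom_apply, rho_X0, zz_pow]
  induction B using Polynomial.induction_on' with
  | add p q hp hq =>
    rw [map_add, hp, hq, map_add]
    ext1 <;> simp
  | monomial n a =>
    rw [Polynomial.aeval_monomial, Polynomial.expand_monomial]
    have : (⟨Polynomial.X ^ 2, 0⟩ : CR) = algebraMap (Polynomial ℂ) CR (Polynomial.X ^ 2) := rfl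
    rw [this, ← map_pow, Algebra.algebraMap_eq_smul_one, smul_mul_assoc, one_mul]
    change a • (⟨(Polynomial.X ^ 2) ^ n, 0⟩ : CR) = _
    ext1
    · rw [QuadraticAlgebra.re_smul, ← pow_mul, mul_comm, ← Polynomial.C_mul_X_pow_eq_monomial,
        Polynomial.smul_eq_C_mul, mul_comm n 2]
    · simp

/-- the kernel of the restriction is generated by the cubic -/
theorem exists_of_rho_eq_zero {F : R2} (h : rho F = 0) : ∃ G, F = cc * G := by
  obtain ⟨A, B, C, hF⟩ := exists_normal_form F
  have h1 := h
  rw [hF, map_add, map_add, map_mul, map_mul, rho_cc, zero_mul, zero_add, rho_aeval, rho_aeval,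
    rho_X1] at h1
  have h2 : zz * vv = (⟨0, Polynomial.X⟩ : CR) := by
    rw [zz, vv, cr_mul]; ext1 <;> simp
  rw [h2, cr_mul] at h1
  have h3 := congrArg QuadraticAlgebra.re h1
  have h4 := congrArg QuadraticAlgebra.im h1
  simp only [QuadraticAlgebra.re_add, QuadraticAlgebra.im_add, mul_zero, zero_mul, add_zero,
    QuadraticAlgebra.re_zero, QuadraticAlgebra.im_zero, zero_add] at h3 h4
  have hB : B = 0 := (Polynomial.expand_eq_zero (by norm_num)).1 h3
  have hC : C = 0 := by
    rcases mul_eq_zero.1 h4 with h5 | h5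
    · exact (Polynomial.expand_eq_zero (by norm_num)).1 h5
    · exact absurd h5 Polynomial.X_ne_zero
  refine ⟨A, ?_⟩
  rw [hF, hB, hC]
  simp

end Helper18.Shgh
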