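import Pool.Agent.Helper18.ShghSub

open Module

noncomputable section

namespace Helper18.Shgh

variable {q : ℕ → Pt}

theorem chi_le_two {n : ℕ} {a m : ℕ → ℕ} (h : 3 * n ≤ ∑ i ∈ Finset.range 9, a i) :
    chi n a m ∅ ≤ 2 := by
  have h1 := sq_sum_le_card_mul_sum_sq (s := Finset.range 9) (f := fun i => (a i : ℤ))
  rw [Finset.card_range] at h1
  have h2 : (3 * n : ℤ) ≤ ∑ i ∈ Finset.range 9, (a i : ℤ) := by exact_mod_cast h
  have h3 : ∑ i ∈ Finset.range 9, (a i : ℤ) * (a i + 1) =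
      ∑ i ∈ Finset.range 9, (a i : ℤ) ^ 2 + ∑ i ∈ Finset.range 9, (a i : ℤ) := by
    rw [← Finset.sum_add_distrib]
    exact Finset.sum_congr rfl fun i _ => by ring
  rw [chi, Finset.sum_empty, h3]
  set A := ∑ i ∈ Finset.range 9, (a i : ℤ)
  set B := ∑ i ∈ Finset.range 9, (a i : ℤ) ^ 2
  have h4 : (9 : ℤ) * n ^ 2 ≤ A ^ 2 := by
    have : (0 : ℤ) ≤ 3 * n := by positivity
    nlinarith
  have h5 : (9 : ℤ) * n ^ 2 ≤ 9 * B := by
    push_cast at h1
    linarith
  nlinarith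

theorem chi_window {n : ℤ} {h : ℕ} {a m : ℕ → ℕ} {E₁ E₂ : Finset ℕ} (hdisj : Disjoint E₁ E₂)
    (ha : ∀ i ∈ Finset.range 9, h ≤ a i) :
    chi (n - 3 * h) (fun i => a i - h) m E₂ = chi n a m (E₁ ∪ E₂) -
      h * (6 * n - 2 * ∑ i ∈ Finset.range 9, (a i : ℤ)) + ∑ r ∈ E₁, (m r : ℤ) * (m r + 1) := by
  have h3 : ∑ i ∈ Finset.range 9, (a i : ℤ) * (a i + 1) =
      ∑ i ∈ Finset.range 9, ((a i - h : ℕ) : ℤ) * (((a i - h : ℕ) : ℤ) + 1) +
      2 * h * ∑ i ∈ Finset.range 9, (a i : ℤ) - 9 * (h * (h - 1)) := by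
    have h4 : ∀ i ∈ Finset.range 9, (a i : ℤ) * (a i + 1) =
        ((a i - h : ℕ) : ℤ) * (((a i - h : ℕ) : ℤ) + 1) +
          2 * h * (a i : ℤ) - h * (h - 1) := by
      intro i hi
      rw [Nat.cast_sub (ha i hi)]
      ring
    rw [Finset.sum_congr rfl h4, Finset.sum_sub_distrib, Finset.sum_add_distrib,
      ← Finset.mul_sum, Finset.sum_const, Finset.card_range]
    simp only [nsmul_eq_mul]
    push_cast
    ring
  rw [chi, chi, Finset.sum_union hdisj, h3]
  ring

theorem chi_mono_empty (n : ℤ) (a m : ℕ → ℕ) (E : Finset ℕ) : chi n a m E ≤ chi n a m ∅ := by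
  rw [chi, chi, Finset.sum_empty]
  have : 0 ≤ ∑ r ∈ E, (m r : ℤ) * (m r + 1) := Finset.sum_nonneg fun r _ => by positivity
  linarith

/-- the invariant of the recursion -/
def Inv (n : ℕ) (a : ℕ → ℕ) : Prop :=
  (Antitone a ∧ a 0 + a 1 + a 2 ≤ n) ∨
    ((∀ i ∈ Finset.range 9, 2 ≤ i → a i = 0) ∧ a 1 ≤ a 0 ∧ a 0 + a 1 ≤ n + 1)

theorem base_inv (hq : Nine q) {n : ℕ} {a m : ℕ → ℕ} (hI : Inv n a)
    (hsum : ∑ i ∈ Finset.range 9, a i < 3 * n) (P : ℕ → Fin 2 → ℂ) :
    2 * (finrank ℂ (XX q n a m ∅ P) : ℤ) ≤ chi n a m ∅ := by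
  rcases hI with ⟨h1, h2⟩ | ⟨h1, -, h3⟩
  · exact base_red hq h1 h2 hsum P
  · exact base_two hq (by omega) h1 (by exact_mod_cast h3) P

/-- greedy choice of a group of points -/
theorem exists_group (m : ℕ → ℕ) (e s c : ℕ) (hes : e ≤ s) (hc : 0 < c) :
    ∃ e', e ≤ e' ∧ e' ≤ s ∧ ∑ r ∈ Finset.Ico e e', m r < c ∧
      (e' < s → c ≤ ∑ r ∈ Finset.Ico e e', m r + m e') := by
  let Q : ℕ → Prop := fun x => e ≤ x ∧ ∑ r ∈ Finset.Ico e x, m r < c
  classical
  have hQe : Q e := ⟨le_refl e, by simpa using hc⟩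
  have h1 : Q (Nat.findGreatest Q s) := Nat.findGreatest_spec hes hQe
  refine ⟨Nat.findGreatest Q s, h1.1, Nat.findGreatest_le s, h1.2, ?_⟩
  intro hlt
  by_contra hcon
  push Not at hcon
  have h2 : Q (Nat.findGreatest Q s + 1) := by
    refine ⟨by have := h1.1; omega, ?_⟩
    rw [Finset.sum_Ico_succ_top h1.1]
    exact hcon
  have h3 := Nat.le_findGreatest (P := Q) (n := s) (m := Nat.findGreatest Q s + 1) (by omega) h2
  omega

theorem alg_R {n h c x : ℤ} (hx : 0 ≤ x) (hxh : x + 1 ≤ h) (hn : 12 * h ≤ n + 2)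
    (hc : c ≤ 6 * n) : 12 * (n + 1 - 3 * h) * (x + 1) ≤
      12 * (n + 1) * h - 9 * (h * (h + 1)) - h * c + (x + 1) * (c - x) := by
  obtain ⟨δ, hδ⟩ : ∃ δ : ℤ, h = x + 1 + δ := ⟨h - (x + 1), by ring⟩
  subst hδ
  have hδ0 : 0 ≤ δ := by linarith
  have k1 : 0 ≤ δ * (6 * n - c) := mul_nonneg hδ0 (by linarith)
  have k2 : 0 ≤ δ * (n + 2 - 12 * (x + 1 + δ)) := mul_nonneg hδ0 (by linarith)
  have k3 : 0 ≤ x * δ := mul_nonneg hx hδ0
  have k4 : 0 ≤ x * x := mul_nonneg hx hx
  have k5 : 0 ≤ δ * δ := mul_nonneg hδ0 hδ0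
  have e : 12 * (n + 1) * (x + 1 + δ) - 9 * ((x + 1 + δ) * (x + 1 + δ + 1)) -
      (x + 1 + δ) * c + (x + 1) * (c - x) - 12 * (n + 1 - 3 * (x + 1 + δ)) * (x + 1) =
      δ * (6 * n - c) + 6 * (δ * (n + 2 - 12 * (x + 1 + δ))) + 26 * (x * x) + 90 * (x * δ) +
        63 * (δ * δ) + 44 * x + 81 * δ + 18 := by
    ring
  linarith

theorem RR_main (hq : Nine q) {m : ℕ → ℕ} (hm : Antitone m) {s : ℕ} (hs : ∀ i, s ≤ i → m i = 0)
    (n : ℕ) : ∀ (a : ℕ → ℕ) (e : ℕ), 9 ≤ e → Inv n a →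
      12 * ((n : ℤ) + 1) * (m e + 1) ≤ chi n a m (Finset.Ico e s) →
      RR q n a m (Finset.Ico e s) := by
  induction n using Nat.strong_induction_on with
  | _ n ih =>
  intro a e he9 hI hchi
  have hchi0 : 12 * ((n : ℤ) + 1) * (m e + 1) ≤ chi n a m ∅ :=
    hchi.trans (chi_mono_empty _ _ _ _)
  have hsum : ∑ i ∈ Finset.range 9, a i < 3 * n := by
    by_contra hcon
    push Not at hcon
    have h1 := chi_le_two (m := m) hcon
    have h2 : (12 : ℤ) ≤ 12 * ((n : ℤ) + 1) * (m e + 1) := by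
      have e1 : (1 : ℤ) ≤ (n : ℤ) + 1 := by omega
      have e2 : (1 : ℤ) ≤ (m e : ℤ) + 1 := by omega
      nlinarith
    linarith
  have hbase : ∀ P, 2 * (finrank ℂ (XX q n a m ∅ P) : ℤ) ≤ chi n a m ∅ :=
    fun P => base_inv hq hI hsum P
  by_cases hμ : m e = 0
  · apply RR_of_zero _ hbase
    intro r hr
    rw [Finset.mem_Ico] at hr
    have := hm hr.1
    omega
  have hes : e < s := by
    by_contra hcon
    exact hμ (hs e (by omega))
  obtain ⟨μ, hμe⟩ : ∃ μ, m e = μ := ⟨_, rfl⟩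
  obtain ⟨h, hh⟩ : ∃ h, h = μ + 1 := ⟨_, rfl⟩
  rw [hμe] at hμ hchi hchi0
  have hh2 : 2 ≤ h := by omega
  have hmh : ((μ : ℤ) + 1) = h := by rw [hh]; push_cast; ring
  rw [hmh] at hchi hchi0
  have hn1 : (0 : ℤ) < (n : ℤ) + 1 := by omega
  -- size of n
  have hQ1 : 12 * (h : ℤ) ≤ n + 2 := by
    have h1 : chi n a m ∅ ≤ ((n : ℤ) + 1) * (n + 2) := by
      rw [chi, Finset.sum_empty]
      have : 0 ≤ ∑ i ∈ Finset.range 9, (a i : ℤ) * (a i + 1) :=
        Finset.sum_nonneg fun r _ => by positivity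
      linarith
    have h2 : ((n : ℤ) + 1) * (12 * h) ≤ ((n : ℤ) + 1) * (n + 2) := by linarith
    exact le_of_mul_le_mul_left h2 hn1
  have ha01 : a 0 + a 1 ≤ n + 1 := by
    rcases hI with ⟨-, h2⟩ | ⟨-, -, h2⟩ <;> omega
  have ha10 : a 1 ≤ a 0 := by
    rcases hI with ⟨h2, -⟩ | ⟨-, h2, -⟩
    · exact h2 (by norm_num)
    · exact h2
  have hQ2 : 4 * h + a 0 ≤ n + 1 := by
    have h1 : chi n a m ∅ ≤ ((n : ℤ) + 1) * (n + 2) - a 0 * (a 0 + 1) := by
      rw [chi, Finset.sum_empty]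
      have : (a 0 : ℤ) * (a 0 + 1) ≤ ∑ i ∈ Finset.range 9, (a i : ℤ) * (a i + 1) :=
        Finset.single_le_sum (f := fun i => (a i : ℤ) * (a i + 1)) (fun r _ => by positivity)
          (by simp)
      linarith
    have h2 : ((n : ℤ) + 1) * (12 * h) ≤ (n + 1 - a 0) * (n + 2 + a 0) := by
      nlinarith
    have h3 : (0 : ℤ) ≤ n + 1 - a 0 := by omega
    have h4 : (n + 1 - (a 0 : ℤ)) * (n + 2 + a 0) ≤ (n + 1 - a 0) * (3 * (n + 1)) :=
      mul_le_mul_of_nonneg_left (by omega) h3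
    have h5 : ((n : ℤ) + 1) * (12 * h) ≤ ((n : ℤ) + 1) * (3 * (n + 1 - a 0)) := by linarith
    have h6 := le_of_mul_le_mul_left h5 hn1
    omega
  -- the number of lines removed
  obtain ⟨t, ht⟩ : ∃ t, t = if h ≤ a 2 then 0 else h - (n + 1 - a 0 - a 1) := ⟨_, rfl⟩
  have hth : t ≤ h := by rw [ht]; split_ifs <;> omega
  obtain ⟨n₁, hn₁⟩ : ∃ n₁, n = n₁ + t := ⟨n - t, by omega⟩
  obtain ⟨n', hn'⟩ : ∃ n', n₁ = n' + 3 * h := ⟨n₁ - 3 * h, by omega⟩
  obtain ⟨b, hb⟩ : ∃ b : ℕ → ℕ, b = fun i => max (low a t i) h := ⟨_, rfl⟩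
  have hbh : ∀ i ∈ Finset.range 9, h ≤ b i := by
    intro i _
    rw [hb]
    exact le_max_right _ _
  have hsmall : a 2 < h → ∀ i ∈ Finset.range 9, 2 ≤ i → a i < h := by
    intro h1 i hi h2
    rcases hI with ⟨h3, -⟩ | ⟨h3, -, -⟩
    · exact lt_of_le_of_lt (h3 h2) h1
    · rw [h3 i hi h2]; omega
  have hterm : ∀ x y : ℕ, y = max x h → (y : ℤ) * (y + 1) - x * (x + 1) ≤ h * (h + 1) := by
    intro x y hy
    rcases le_total x h with h1 | h1
    · rw [max_eq_right h1] at hy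
      subst hy
      have : (0 : ℤ) ≤ x * (x + 1) := by positivity
      linarith
    · rw [max_eq_left h1] at hy
      subst hy
      have : (0 : ℤ) ≤ h * (h + 1) := by positivity
      linarith
  have hΔ1 : chi n a m ∅ - 9 * (h * (h + 1)) ≤ chi n₁ b m ∅ := by
    rw [chi, chi, Finset.sum_empty]
    have hsplit : ∀ f : ℕ → ℤ, ∑ i ∈ Finset.range 9, f i =
        f 0 + f 1 + ∑ i ∈ Finset.Ico 2 9, f i := by
      intro f
      rw [Finset.range_eq_Ico, ← Finset.sum_Ico_consecutive f (Nat.zero_le 2) (by norm_num : 2 ≤ 9)]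
      congr 1
      simp [Finset.sum_range_succ]
    have hrest : ∑ i ∈ Finset.Ico 2 9, (b i : ℤ) * (b i + 1) -
        ∑ i ∈ Finset.Ico 2 9, (a i : ℤ) * (a i + 1) ≤ 7 * (h * (h + 1)) := by
      rw [← Finset.sum_sub_distrib]
      refine (Finset.sum_le_card_nsmul _ _ ((h : ℤ) * (h + 1)) ?_).trans ?_
      · intro i hi
        rw [Finset.mem_Ico] at hi
        apply hterm
        rw [hb]
        simp only [low, if_neg (by omega : ¬ i < 2)]
      · simp
    rw [hsplit, hsplit (fun i => (b i : ℤ) * (b i + 1))]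
    by_cases ht0 : t = 0
    · have h0 := hterm (a 0) (b 0) (by rw [hb, ht0]; simp [low])
      have h1 := hterm (a 1) (b 1) (by rw [hb, ht0]; simp [low])
      rw [ht0, add_zero] at hn₁
      rw [hn₁]
      linarith
    · have h2 : ¬ h ≤ a 2 := by
        intro h3
        rw [if_pos h3] at ht
        exact ht0 ht
      rw [if_neg h2] at ht
      have hb0 : b 0 + t = a 0 := by
        rw [hb]
        simp only [low]
        rw [if_pos (by norm_num), max_eq_left (by omega)]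
        omega
      have hb1 : b 1 + t = a 1 := by
        rw [hb]
        simp only [low]
        rw [if_pos (by norm_num), max_eq_left (by omega)]
        omega
      have e1 : (a 0 : ℤ) = b 0 + t := by exact_mod_cast hb0.symm
      have e2 : (a 1 : ℤ) = b 1 + t := by exact_mod_cast hb1.symm
      have e3 : (n : ℤ) = n₁ + t := by exact_mod_cast hn₁
      have e4 : (n₁ : ℤ) + 1 - b 0 - b 1 = h := by omega
      rw [e1, e2, e3]
      have e5 : (n₁ : ℤ) = h + b 0 + b 1 - 1 := by linarith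
      rw [e5]
      have e6 : (0 : ℤ) ≤ t := by positivity
      have e7 : (t : ℤ) ≤ h := by exact_mod_cast hth
      nlinarith [mul_nonneg e6 (sub_nonneg.2 e7)]
  have hsumb : ∑ i ∈ Finset.range 9, b i < 3 * n₁ := by
    by_contra hcon
    push Not at hcon
    have h1 := chi_le_two (m := m) hcon
    have h2 : (2 : ℤ) ≤ h := by exact_mod_cast hh2
    nlinarith
  obtain ⟨c, hc⟩ : ∃ c, c + 2 * ∑ i ∈ Finset.range 9, b i = 6 * n₁ :=
    ⟨6 * n₁ - 2 * ∑ i ∈ Finset.range 9, b i, by omega⟩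
  obtain ⟨e', hee, hes', hlt, hge⟩ := exists_group m e s c hes.le (by omega)
  have hEsplit : Finset.Ico e s = Finset.Ico e e' ∪ Finset.Ico e' s :=
    (Finset.Ico_union_Ico_eq_Ico hee hes').symm
  have hdisj : Disjoint (Finset.Ico e e') (Finset.Ico e' s) := by
    rw [Finset.disjoint_left]
    intro i h1 h2
    rw [Finset.mem_Ico] at h1 h2
    omega
  have hmμ : ∀ r ∈ Finset.Ico e e', m r ≤ μ := by
    intro r hr
    rw [Finset.mem_Ico] at hr
    rw [← hμe]
    exact hm hr.1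
  have hInv' : Inv n' (fun i => b i - h) := by
    by_cases h2 : h ≤ a 2
    · left
      rw [if_pos h2] at ht
      have hbb : ∀ i, b i = max (a i) h := by
        intro i; rw [hb, ht]; simp [low]
      rcases hI with ⟨h3, h4⟩ | ⟨h3, -, -⟩
      · refine ⟨?_, ?_⟩
        · intro i k hik
          have := h3 hik
          simp only [hbb]
          omega
        · have h5 : a 2 ≤ a 1 := h3 (by norm_num)
          simp only [hbb]
          omega
      · exfalso
        have := h3 2 (by simp) (by norm_num)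
        omega
    · right
      have h3 := hsmall (by omega)
      rw [if_neg h2] at ht
      have hb0 : b 0 = max (a 0 - t) h := by rw [hb]; simp [low]
      have hb1 : b 1 = max (a 1 - t) h := by rw [hb]; simp [low]
      refine ⟨?_, ?_, ?_⟩
      · intro i hi hi2
        have h4 := h3 i hi hi2
        have h5 : b i = h := by
          rw [hb]
          simp only [low, if_neg (by omega : ¬ i < 2)]
          omega
        simp only [h5, Nat.sub_self]
      · simp only [hb0, hb1]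
        omega
      · simp only [hb0, hb1]
        omega
  have hRR' : RR q ((n₁ : ℤ) - 3 * ((μ + 1 : ℕ) : ℤ)) (fun i => b i - (μ + 1)) m
      (Finset.Ico e' s) := by
    rw [← hh]
    have e1 : (n₁ : ℤ) - 3 * ((h : ℕ) : ℤ) = (n' : ℤ) := by rw [hn']; push_cast; ring
    rw [e1]
    have hcsum : ∑ i ∈ Finset.range 9, (b i - h) + 9 * h = ∑ i ∈ Finset.range 9, b i := by
      have h1 : 9 * h = ∑ i ∈ Finset.range 9, h := by simp
      rw [h1, ← Finset.sum_add_distrib]
      apply Finset.sum_congr rfl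
      intro i hi
      have := hbh i hi
      omega
    rcases Nat.lt_or_ge e' s with hlt' | hge'
    · apply ih n' (by omega) _ _ (by omega) hInv'
      have hkey := chi_window (n := (n₁ : ℤ)) (h := h) (a := b) (m := m) hdisj hbh
      rw [e1, ← hEsplit] at hkey
      rw [hkey]
      -- sums over the group
      obtain ⟨μ', hμ'⟩ : ∃ μ', m e' = μ' := ⟨_, rfl⟩
      have hle : μ' ≤ μ := by rw [← hμ', ← hμe]; exact hm hee
      have hS : ((μ' : ℤ) + 1) * (c - μ') ≤ ∑ r ∈ Finset.Ico e e', (m r : ℤ) * (m r + 1) := by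
        have h1 : ((μ' : ℤ) + 1) * ∑ r ∈ Finset.Ico e e', (m r : ℤ) ≤
            ∑ r ∈ Finset.Ico e e', (m r : ℤ) * (m r + 1) := by
          rw [Finset.mul_sum]
          apply Finset.sum_le_sum
          intro r hr
          rw [Finset.mem_Ico] at hr
          have h2 : μ' ≤ m r := by rw [← hμ']; exact hm hr.2.le
          have h3 : (μ' : ℤ) ≤ m r := by exact_mod_cast h2
          have h4 : (0 : ℤ) ≤ m r := by positivity
          nlinarith
        have h2 : (c : ℤ) - μ' ≤ ∑ r ∈ Finset.Ico e e', (m r : ℤ) := by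
          have := hge hlt'
          rw [hμ'] at this
          have h3 : (c : ℤ) ≤ ∑ r ∈ Finset.Ico e e', (m r : ℤ) + μ' := by exact_mod_cast this
          linarith
        have h3 : (0 : ℤ) ≤ (μ' : ℤ) + 1 := by positivity
        exact (mul_le_mul_of_nonneg_left h2 h3).trans h1
      have hcκ : 6 * (n₁ : ℤ) - 2 * ∑ i ∈ Finset.range 9, (b i : ℤ) = c := by
        have : (c : ℤ) + 2 * ∑ i ∈ Finset.range 9, (b i : ℤ) = 6 * n₁ := by exact_mod_cast hc
        linarith
      rw [hcκ, hμ']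
      have hE : chi n₁ b m (Finset.Ico e s) = chi n₁ b m ∅ + (chi n a m (Finset.Ico e s) -
          chi n a m ∅) := by
        simp only [chi, Finset.sum_empty]; ring
      rw [hE]
      have hc6 : (c : ℤ) ≤ 6 * n := by
        have : c ≤ 6 * n₁ := by omega
        have h1 : c ≤ 6 * n := by omega
        exact_mod_cast h1
      have hnn : (n' : ℤ) + 3 * h ≤ n := by omega
      have hμh : (μ' : ℤ) + 1 ≤ h := by rw [← hmh]; omega
      have hh2' : (2 : ℤ) ≤ h := by exact_mod_cast hh2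
      have hμ0 : (0 : ℤ) ≤ μ' := by positivity
      have f1 : 12 * ((n' : ℤ) + 1) * (μ' + 1) ≤ 12 * ((n : ℤ) + 1 - 3 * h) * (μ' + 1) := by
        apply mul_le_mul_of_nonneg_right _ (by positivity)
        linarith
      have hg := alg_R hμ0 hμh hQ1 hc6
      linarith
    · have hee' : e' = s := le_antisymm hes' hge'
      subst hee'
      rw [Finset.Ico_self]
      apply RR_of_zero (by simp)
      intro P
      exact base_inv hq hInv' (by omega) P
  have hRR1 : RR q n₁ b m (Finset.Ico e s) := by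
    rw [hEsplit]
    refine window_R hq (j := μ) ?_ hdisj ?_ ?_ ?_ hRR'
    · intro r hr
      rw [Finset.mem_Ico] at hr
      omega
    · rw [← hh]; exact hbh
    · intro r hr
      have := hmμ r hr
      omega
    · have h1 : ∑ r ∈ Finset.Ico e e', (m r + (m r - μ)) = ∑ r ∈ Finset.Ico e e', m r := by
        apply Finset.sum_congr rfl
        intro r hr
        have := hmμ r hr
        omega
      rw [h1]
      omega
  apply subspace_R hq (t := t) (b := b) _ _ _ _ hbase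
  · rw [show (n : ℤ) - t = n₁ by rw [hn₁]; push_cast; ring]
    exact hRR1
  · omega
  · rw [hb]; simp only [low]; rw [if_pos (by norm_num)]; omega
  · rw [hb]; simp only [low]; rw [if_pos (by norm_num)]; omega
  · intro i hi h2
    rw [hb]
    simp only [low, if_neg (by omega : ¬ i < 2)]
    exact le_max_left _ _

end Helper18.Shgh
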