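import Pool.Agent.Helper18.ShghRec

open Module

noncomputable section

namespace Helper18.Shgh

variable {q : ℕ → Pt}

/-- the number of points of multiplicity at least `u` -/
def cnt (m : ℕ → ℕ) (E : Finset ℕ) (u : ℕ) : ℕ := (E.filter fun r => u ≤ m r).card

theorem cnt_mono (m : ℕ → ℕ) {E F : Finset ℕ} (h : E ⊆ F) (u : ℕ) : cnt m E u ≤ cnt m F u :=
  Finset.card_le_card (Finset.filter_subset_filter _ h)

theorem cnt_le_card (m : ℕ → ℕ) (E : Finset ℕ) (u : ℕ) : cnt m E u ≤ E.card :=
  Finset.card_filter_le _ _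

theorem sum_tri (m : ℕ → ℕ) (E : Finset ℕ) {μ : ℕ} (hμ : ∀ r ∈ E, m r ≤ μ) :
    ∑ r ∈ E, m r * (m r + 1) = ∑ u ∈ Finset.range (μ + 1), 2 * (u * cnt m E u) := by
  have h1 : ∀ r ∈ E, m r * (m r + 1) =
      ∑ u ∈ Finset.range (μ + 1), if u ≤ m r then 2 * u else 0 := by
    intro r hr
    have h2 := hμ r hr
    rw [← Finset.sum_filter]
    have h3 : (Finset.range (μ + 1)).filter (fun u => u ≤ m r) = Finset.range (m r + 1) := by
      ext u
      rw [Finset.mem_filter, Finset.mem_range, Finset.mem_range]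
      omega
    rw [h3, ← Finset.mul_sum, mul_comm 2, Finset.sum_range_id_mul_two, Nat.add_sub_cancel, mul_comm]
  rw [Finset.sum_congr rfl h1, Finset.sum_comm]
  apply Finset.sum_congr rfl
  intro u _
  rw [← Finset.sum_filter, Finset.sum_const, cnt, smul_eq_mul]
  ring

theorem le_of_lt_cnt {m : ℕ → ℕ} (hm : Antitone m) {e s r u : ℕ} (her : e ≤ r)
    (hr : r < e + cnt m (Finset.Ico e s) u) : u ≤ m r := by
  by_contra hcon
  push Not at hcon
  have h1 : (Finset.Ico e s).filter (fun r => u ≤ m r) ⊆ Finset.Ico e r := by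
    intro x hx
    rw [Finset.mem_filter, Finset.mem_Ico] at hx
    rw [Finset.mem_Ico]
    refine ⟨hx.1.1, ?_⟩
    by_contra h2
    have := hm (not_lt.1 h2)
    omega
  have h2 := Finset.card_le_card h1
  rw [Nat.card_Ico] at h2
  change cnt m (Finset.Ico e s) u ≤ r - e at h2
  omega

theorem lt_of_cnt_le {m : ℕ → ℕ} (hm : Antitone m) {e s r u : ℕ} (her : e ≤ r) (hrs : r < s)
    (hr : e + cnt m (Finset.Ico e s) u ≤ r) : m r < u := by
  by_contra hcon
  push Not at hcon
  have h1 : Finset.Ico e (r + 1) ⊆ (Finset.Ico e s).filter (fun r => u ≤ m r) := by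
    intro x hx
    rw [Finset.mem_Ico] at hx
    rw [Finset.mem_filter, Finset.mem_Ico]
    refine ⟨⟨hx.1, by omega⟩, hcon.trans (hm (by omega))⟩
  have h2 := Finset.card_le_card h1
  rw [Nat.card_Ico] at h2
  change r + 1 - e ≤ cnt m (Finset.Ico e s) u at h2
  omega

theorem cnt_add_le {m : ℕ → ℕ} {e s u : ℕ} : e + cnt m (Finset.Ico e s) u ≤ max e s := by
  have := cnt_le_card m (Finset.Ico e s) u
  rw [Nat.card_Ico] at this
  omega

/-- the invariant of the second recursion -/
def Inv2 (n : ℕ) (a : ℕ → ℕ) : Prop :=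
  (Antitone a ∧ a 0 + a 1 + a 2 ≤ n) ∨
    ((∀ i ∈ Finset.range 9, 2 ≤ i → a i = 0) ∧ a 1 ≤ a 0 ∧ a 0 + a 1 ≤ n)

theorem sum_nine (f : ℕ → ℤ) : ∑ i ∈ Finset.range 9, f i =
    f 0 + f 1 + ∑ i ∈ Finset.Ico 2 9, f i := by
  rw [Finset.range_eq_Ico, ← Finset.sum_Ico_consecutive f (Nat.zero_le 2) (by norm_num : 2 ≤ 9)]
  congr 1
  simp [Finset.sum_range_succ]

theorem inv2_bounds {n : ℕ} {a m : ℕ → ℕ} (h : Inv2 n a) :
    0 ≤ chi n a m ∅ ∧ ∑ i ∈ Finset.range 9, a i ≤ 3 * n := by
  rcases h with ⟨h1, h2⟩ | ⟨h1, h2, h3⟩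
  · have m01 : a 1 ≤ a 0 := h1 (by norm_num)
    have m12 : a 2 ≤ a 1 := h1 (by norm_num)
    have hle : ∀ i ∈ Finset.Ico 2 9, a i ≤ a 2 := fun i hi => h1 (Finset.mem_Ico.1 hi).1
    have hs1 : ∑ i ∈ Finset.Ico 2 9, (a i : ℤ) ≤ 7 * a 2 := by
      refine (Finset.sum_le_card_nsmul _ _ (a 2 : ℤ) fun i hi => by exact_mod_cast hle i hi).trans ?_
      simp
    have hs2 : ∑ i ∈ Finset.Ico 2 9, (a i : ℤ) * (a i + 1) ≤ 7 * (a 2 * (a 2 + 1)) := by
      refine (Finset.sum_le_card_nsmul _ _ ((a 2 : ℤ) * (a 2 + 1)) fun i hi => ?_).trans ?_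
      · have h4 : (a i : ℤ) ≤ a 2 := by exact_mod_cast hle i hi
        have h5 : (0 : ℤ) ≤ a i := by positivity
        nlinarith
      · simp
    refine ⟨?_, ?_⟩
    · rw [chi, Finset.sum_empty, sum_nine]
      have e1 : (a 1 : ℤ) ≤ a 0 := by exact_mod_cast m01
      have e2 : (a 2 : ℤ) ≤ a 1 := by exact_mod_cast m12
      have e3 : (a 0 : ℤ) + a 1 + a 2 ≤ n := by exact_mod_cast h2
      have e4 : (0 : ℤ) ≤ a 2 := by positivity
      have e5 : ((a 0 : ℤ) + a 1 + a 2) * (a 0 + a 1 + a 2) ≤ n * n :=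
        mul_self_le_mul_self (by linarith) e3
      nlinarith [mul_nonneg e4 (sub_nonneg.2 e1), mul_nonneg e4 (sub_nonneg.2 e2),
        mul_nonneg (sub_nonneg.2 e2) (sub_nonneg.2 e1), mul_nonneg (e4.trans e2) (sub_nonneg.2 e1)]
    · have h4 : (∑ i ∈ Finset.range 9, (a i : ℤ)) ≤ 3 * n := by
        rw [sum_nine]
        have e1 : (a 1 : ℤ) ≤ a 0 := by exact_mod_cast m01
        have e2 : (a 2 : ℤ) ≤ a 1 := by exact_mod_cast m12
        have e3 : (a 0 : ℤ) + a 1 + a 2 ≤ n := by exact_mod_cast h2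
        linarith
      exact_mod_cast h4
  · have hz : ∀ i ∈ Finset.Ico 2 9, a i = 0 := fun i hi =>
      h1 i (by rw [Finset.mem_range]; exact (Finset.mem_Ico.1 hi).2) (Finset.mem_Ico.1 hi).1
    refine ⟨?_, ?_⟩
    · rw [chi, Finset.sum_empty, sum_nine, Finset.sum_eq_zero (s := Finset.Ico 2 9)
        (fun i hi => by rw [hz i hi]; simp)]
      have e3 : (a 0 : ℤ) + a 1 ≤ n := by exact_mod_cast h3
      have e4 : (0 : ℤ) ≤ a 0 := by positivity
      have e5 : (0 : ℤ) ≤ a 1 := by positivity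
      have e6 : ((a 0 : ℤ) + a 1) * (a 0 + a 1) ≤ n * n :=
        mul_self_le_mul_self (by linarith) e3
      nlinarith [mul_nonneg e4 e5]
    · have h4 : (∑ i ∈ Finset.range 9, (a i : ℤ)) ≤ 3 * n := by
        rw [sum_nine, Finset.sum_eq_zero (s := Finset.Ico 2 9)
          (fun i hi => by rw [hz i hi]; simp)]
        have e3 : (a 0 : ℤ) + a 1 ≤ n := by exact_mod_cast h3
        have e4 : (0 : ℤ) ≤ n := by positivity
        linarith
      exact_mod_cast h4

theorem alg_E {n c μ v : ℤ} (hv : 0 ≤ v) (hvμ : v ≤ μ) (hc : c ≤ 6 * n) :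
    12 * (n + 1 - 3 * (v + 1)) * (v + 1) ≤
      12 * (n + 1) * (μ + 1) - 2 * c * (μ - v) - 11 * (v * (v + 1)) := by
  have k1 : 0 ≤ (μ - v) * (6 * n - c) := mul_nonneg (by linarith) (by linarith)
  have k2 : 0 ≤ μ - v := by linarith
  have k3 : 0 ≤ v * v := mul_nonneg hv hv
  have e : 12 * (n + 1) * (μ + 1) - 2 * c * (μ - v) - 11 * (v * (v + 1)) -
      12 * (n + 1 - 3 * (v + 1)) * (v + 1) =
      2 * ((μ - v) * (6 * n - c)) + 12 * (μ - v) + 25 * (v * v) + 61 * v + 36 := by ring
  linarith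

theorem EE_main (hq : Nine q) {m : ℕ → ℕ} (hm : Antitone m) {s : ℕ}
    (n : ℕ) : ∀ (a : ℕ → ℕ) (e : ℕ), 9 ≤ e → Inv2 n a →
      12 * ((n : ℤ) + 1) * (m e + 1) ≤ - chi n a m (Finset.Ico e s) →
      EE q n a m (Finset.Ico e s) := by
  induction n using Nat.strong_induction_on with
  | _ n ih =>
  intro a e he9 hI hchi
  obtain ⟨hchi0, hsum⟩ := inv2_bounds (m := m) hI
  obtain ⟨μ, hμe⟩ : ∃ μ, m e = μ := ⟨_, rfl⟩
  rw [hμe] at hchi
  obtain ⟨c, hc⟩ : ∃ c, c + 2 * ∑ i ∈ Finset.range 9, a i = 6 * n :=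
    ⟨6 * n - 2 * ∑ i ∈ Finset.range 9, a i, by omega⟩
  have hmμ : ∀ r ∈ Finset.Ico e s, m r ≤ μ := by
    intro r hr
    rw [Finset.mem_Ico] at hr
    rw [← hμe]
    exact hm hr.1
  have hchiE : chi n a m (Finset.Ico e s) = chi n a m ∅ -
      ∑ r ∈ Finset.Ico e s, (m r : ℤ) * (m r + 1) := by
    simp only [chi, Finset.sum_empty]; ring
  have hcn : c ≤ 6 * n := by omega
  -- the level
  obtain ⟨v, hv1, hvμ, hvc, hvmax⟩ : ∃ v, 1 ≤ v ∧ v ≤ μ ∧ c < v * cnt m (Finset.Ico e s) v ∧
      ∀ u, v < u → u ≤ μ → u * cnt m (Finset.Ico e s) u ≤ c := by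
    let Q : ℕ → Prop := fun u => c < u * cnt m (Finset.Ico e s) u
    classical
    have hex : ∃ u, u ≤ μ ∧ Q u := by
      by_contra hcon
      push Not at hcon
      have h1 : ∑ r ∈ Finset.Ico e s, m r * (m r + 1) ≤ 2 * (μ * c) := by
        rw [sum_tri m _ hmμ, Finset.sum_range_succ']
        have h2 : ∑ u ∈ Finset.range μ, 2 * ((u + 1) * cnt m (Finset.Ico e s) (u + 1)) ≤
            ∑ u ∈ Finset.range μ, 2 * c := by
          apply Finset.sum_le_sum
          intro u hu
          rw [Finset.mem_range] at hu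
          have h3 := hcon (u + 1) (by omega)
          have h4 : (u + 1) * cnt m (Finset.Ico e s) (u + 1) ≤ c := not_lt.1 h3
          omega
        rw [Finset.sum_const, Finset.card_range, smul_eq_mul] at h2
        have h5 : μ * (2 * c) = 2 * (μ * c) := by ring
        omega
      have h2 : ∑ r ∈ Finset.Ico e s, (m r : ℤ) * (m r + 1) ≤ 2 * (μ * c) := by
        exact_mod_cast h1
      have h3 : (μ : ℤ) * c ≤ μ * (6 * n) := by
        apply mul_le_mul_of_nonneg_left _ (by positivity)
        exact_mod_cast hcn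
      rw [hchiE] at hchi
      have h4 : (0 : ℤ) ≤ μ := by positivity
      have h5 : (0 : ℤ) ≤ n := by positivity
      nlinarith
    obtain ⟨u, hu, hQu⟩ := hex
    refine ⟨Nat.findGreatest Q μ, ?_, Nat.findGreatest_le μ, Nat.findGreatest_spec hu hQu, ?_⟩
    · have h1 : Q (Nat.findGreatest Q μ) := Nat.findGreatest_spec hu hQu
      by_contra h0
      have h2 : Nat.findGreatest Q μ = 0 := by omega
      rw [h2] at h1
      simp [Q] at h1
    · intro u hu hu2
      exact not_lt.1 (Nat.findGreatest_is_greatest (P := Q) hu hu2)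
  -- the group
  obtain ⟨N, hN⟩ : ∃ N, N = c / v + 1 := ⟨_, rfl⟩
  have hNv : c < N * v ∧ N * v ≤ c + v := by
    have h1 := Nat.div_add_mod c v
    have h2 := Nat.mod_lt c (show 0 < v by omega)
    have h3 : N * v = v * (c / v) + v := by rw [hN]; ring
    omega
  have hNcnt : N ≤ cnt m (Finset.Ico e s) v := by
    by_contra hcon
    push Not at hcon
    have h1 : cnt m (Finset.Ico e s) v ≤ c / v := by omega
    have h2 := Nat.div_mul_le_self c v
    have h3 : v * cnt m (Finset.Ico e s) v ≤ v * (c / v) := Nat.mul_le_mul_left v h1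
    rw [mul_comm v (c / v)] at h3
    omega
  have hes : e + N ≤ s := by
    have h1 := cnt_le_card m (Finset.Ico e s) v
    rw [Nat.card_Ico] at h1
    have h2 : 0 < N := by rw [hN]; exact Nat.succ_pos _
    omega
  have hm1 : ∀ r ∈ Finset.Ico e (e + N), v ≤ m r := by
    intro r hr
    rw [Finset.mem_Ico] at hr
    exact le_of_lt_cnt (e := e) (s := s) (u := v) hm hr.1 (by omega)
  have hm2 : m (e + N) ≤ v := by
    rcases Nat.eq_or_lt_of_le hvμ with h1 | h1
    · rw [h1, ← hμe]; exact hm (by omega)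
    · have h2 := hvmax (v + 1) (by omega) (by omega)
      have h3 : cnt m (Finset.Ico e s) (v + 1) < N := by
        by_contra hcon
        push Not at hcon
        have h4 : v * N ≤ (v + 1) * cnt m (Finset.Ico e s) (v + 1) :=
          Nat.mul_le_mul (by omega) hcon
        rw [mul_comm v N] at h4
        omega
      rcases Nat.lt_or_ge (e + N) s with h4 | h4
      · have := lt_of_cnt_le hm (e := e) (s := s) (r := e + N) (u := v + 1) (by omega) h4 (by omega)
        omega
      · -- the last element of the range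
        have h5 : e + N = s := le_antisymm hes h4
        have h6 := lt_of_cnt_le hm (e := e) (s := s) (r := e + N - 1) (u := v + 1) (by omega)
          (by omega) (by omega)
        have h7 : m (e + N) ≤ m (e + N - 1) := hm (by omega)
        omega
  have hEsplit : Finset.Ico e s = Finset.Ico e (e + N) ∪ Finset.Ico (e + N) s :=
    (Finset.Ico_union_Ico_eq_Ico (by omega) hes).symm
  have hdisj : Disjoint (Finset.Ico e (e + N)) (Finset.Ico (e + N) s) := by
    rw [Finset.disjoint_left]
    intro i h1 h2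
    rw [Finset.mem_Ico] at h1 h2
    omega
  have hS : (∑ r ∈ Finset.Ico e (e + N), (m r : ℤ) * (m r + 1)) ≤
      (c + v) * (v + 1) + 2 * c * (μ - v) := by
    have h0 : ∑ r ∈ Finset.Ico e (e + N), m r * (m r + 1) ≤
        N * (v * (v + 1)) + (μ - v) * (2 * c) := by
      rw [sum_tri m _ (μ := μ) (fun r hr => hmμ r (by
        rw [hEsplit]; exact Finset.mem_union_left _ hr))]
      rw [show μ + 1 = (v + 1) + (μ - v) by omega, Finset.sum_range_add]
      apply Nat.add_le_add
      · have h1 : ∀ u ∈ Finset.range (v + 1),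
            2 * (u * cnt m (Finset.Ico e (e + N)) u) ≤ N * (2 * u) := by
          intro u _
          have h2 := cnt_le_card m (Finset.Ico e (e + N)) u
          rw [Nat.card_Ico, Nat.add_sub_cancel_left] at h2
          have h3 := Nat.mul_le_mul_left (2 * u) h2
          calc 2 * (u * cnt m (Finset.Ico e (e + N)) u) =
              2 * u * cnt m (Finset.Ico e (e + N)) u := by ring
            _ ≤ 2 * u * N := h3
            _ = N * (2 * u) := by ring
        refine (Finset.sum_le_sum h1).trans ?_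
        rw [← Finset.mul_sum, ← Finset.mul_sum, mul_comm 2 (∑ i ∈ Finset.range (v + 1), i),
          Finset.sum_range_id_mul_two, Nat.add_sub_cancel, mul_comm (v + 1) v]
      · have h1 : ∀ u ∈ Finset.range (μ - v),
            2 * ((v + 1 + u) * cnt m (Finset.Ico e (e + N)) (v + 1 + u)) ≤ 2 * c := by
          intro u hu
          rw [Finset.mem_range] at hu
          have h2 := cnt_mono m (E := Finset.Ico e (e + N)) (F := Finset.Ico e s) (by
            rw [hEsplit]; exact Finset.subset_union_left) (v + 1 + u)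
          have h3 := hvmax (v + 1 + u) (by omega) (by omega)
          have h4 := Nat.mul_le_mul_left (v + 1 + u) h2
          omega
        refine (Finset.sum_le_sum h1).trans ?_
        rw [Finset.sum_const, Finset.card_range, smul_eq_mul]
    have h1 : (∑ r ∈ Finset.Ico e (e + N), (m r : ℤ) * (m r + 1)) ≤
        N * (v * (v + 1)) + ((μ - v : ℕ) : ℤ) * (2 * c) := by exact_mod_cast h0
    rw [Nat.cast_sub hvμ] at h1
    have h2 : (N : ℤ) * v ≤ c + v := by exact_mod_cast hNv.2
    have h3 : (0 : ℤ) ≤ (v : ℤ) + 1 := by positivity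
    have h4 := mul_le_mul_of_nonneg_right h2 h3
    linarith
  rw [hEsplit]
  refine window_E hq (j := v) ?_ hdisj ?_ ?_
  · intro r hr
    rw [Finset.mem_Ico] at hr
    omega
  · intro i hi
    have h1 : N * v ≤ ∑ r ∈ Finset.Ico e (e + N), ((m r - i) + (m r - (v - i))) := by
      have h2 : N * v = ∑ r ∈ Finset.Ico e (e + N), v := by
        rw [Finset.sum_const, Nat.card_Ico, Nat.add_sub_cancel_left, smul_eq_mul]
      rw [h2]
      apply Finset.sum_le_sum
      intro r hr
      have := hm1 r hr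
      omega
    omega
  -- the next state
  rcases lt_or_ge ((n : ℤ) - 3 * ((v + 1 : ℕ) : ℤ)) 0 with hneg | hnn
  · exact EE_of_neg hneg _ _ _
  obtain ⟨n', hn'⟩ : ∃ n', n = n' + 3 * (v + 1) := ⟨n - 3 * (v + 1), by omega⟩
  have en' : (n : ℤ) - 3 * ((v + 1 : ℕ) : ℤ) = (n' : ℤ) := by rw [hn']; push_cast; ring
  rw [en']
  have hchi1 : ((v : ℤ) + 1) * c - 9 * ((v + 1) * v) ≤
      chi n a m ∅ - chi n' (fun i => a i - (v + 1)) m ∅ := by
    rw [chi, chi, Finset.sum_empty]
    have h1 : ∑ i ∈ Finset.range 9, (a i : ℤ) * (a i + 1) -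
        ∑ i ∈ Finset.range 9, ((a i - (v + 1) : ℕ) : ℤ) * (((a i - (v + 1) : ℕ) : ℤ) + 1) ≤
        2 * (v + 1) * ∑ i ∈ Finset.range 9, (a i : ℤ) := by
      rw [← Finset.sum_sub_distrib, Finset.mul_sum]
      apply Finset.sum_le_sum
      intro i _
      rcases Nat.lt_or_ge (a i) (v + 1) with h2 | h2
      · rw [Nat.sub_eq_zero_of_le (by omega)]
        have h3 : (a i : ℤ) ≤ v := by exact_mod_cast Nat.lt_succ_iff.1 h2
        have h4 : (0 : ℤ) ≤ a i := by positivity
        push_cast
        nlinarith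
      · rw [Nat.cast_sub h2]
        push_cast
        have h4 : (0 : ℤ) ≤ v := by positivity
        nlinarith [mul_nonneg h4 h4]
    have h2 : (c : ℤ) + 2 * ∑ i ∈ Finset.range 9, (a i : ℤ) = 6 * n := by exact_mod_cast hc
    have h3 : (n : ℤ) = n' + 3 * (v + 1) := by exact_mod_cast hn'
    have h4 : (c : ℤ) = 6 * n - 2 * ∑ i ∈ Finset.range 9, (a i : ℤ) := by linarith
    rw [h4, h3]
    nlinarith [h1]
  have hpot : ∀ (n'' : ℕ) (a'' : ℕ → ℕ), n'' ≤ n' →
      chi n' (fun i => a i - (v + 1)) m ∅ - chi n'' a'' m ∅ ≥ -((v + 1) * v : ℤ) →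
      12 * ((n'' : ℤ) + 1) * (m (e + N) + 1) ≤ - chi n'' a'' m (Finset.Ico (e + N) s) := by
    intro n'' a'' h1 h2
    have h3 : chi n'' a'' m (Finset.Ico (e + N) s) = chi n'' a'' m ∅ -
        ∑ r ∈ Finset.Ico (e + N) s, (m r : ℤ) * (m r + 1) := by
      simp only [chi, Finset.sum_empty]; ring
    have h4 : ∑ r ∈ Finset.Ico e s, (m r : ℤ) * (m r + 1) =
        ∑ r ∈ Finset.Ico e (e + N), (m r : ℤ) * (m r + 1) +
        ∑ r ∈ Finset.Ico (e + N) s, (m r : ℤ) * (m r + 1) := by
      rw [hEsplit, Finset.sum_union hdisj]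
    rw [hchiE, h4] at hchi
    rw [h3]
    have h5 := alg_E (n := (n : ℤ)) (c := (c : ℤ)) (μ := (μ : ℤ)) (v := (v : ℤ)) (by positivity)
      (by exact_mod_cast hvμ) (by exact_mod_cast hcn)
    have h6 : 12 * ((n'' : ℤ) + 1) * (m (e + N) + 1) ≤
        12 * ((n : ℤ) + 1 - 3 * (v + 1)) * (v + 1) := by
      have g1 : (n'' : ℤ) + 1 ≤ (n : ℤ) + 1 - 3 * (v + 1) := by
        rw [hn']; push_cast
        have : (n'' : ℤ) ≤ n' := by exact_mod_cast h1
        linarith
      have g2 : (m (e + N) : ℤ) ≤ v := by exact_mod_cast hm2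
      have g3 : (0 : ℤ) ≤ (n'' : ℤ) + 1 := by positivity
      have g4 : (0 : ℤ) ≤ (m (e + N) : ℤ) + 1 := by positivity
      have g5 : ((n'' : ℤ) + 1) * (m (e + N) + 1) ≤
          ((n : ℤ) + 1 - 3 * (v + 1)) * (v + 1) :=
        mul_le_mul g1 (by linarith) g4 (g3.trans g1)
      linarith
    nlinarith [h5, h6, hS, hchi1, h2, hchi]
  by_cases h2 : v + 1 ≤ a 2
  · -- reduced
    apply ih n' (by omega) _ _ (by omega)
    · left
      rcases hI with ⟨h3, h4⟩ | ⟨h3, -, -⟩
      · have h5 : a 1 ≤ a 0 := h3 (by norm_num)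
        have h6 : a 2 ≤ a 1 := h3 (by norm_num)
        refine ⟨?_, ?_⟩
        · intro i k hik
          have := h3 hik
          simp only
          omega
        · simp only
          omega
      · exfalso
        have := h3 2 (by simp) (by norm_num)
        omega
    · apply hpot n' _ le_rfl
      have : (0 : ℤ) ≤ ((v : ℤ) + 1) * v := by positivity
      linarith
  · have hz : ∀ i ∈ Finset.range 9, 2 ≤ i → a i - (v + 1) = 0 := by
      intro i hi hi2
      rcases hI with ⟨h3, -⟩ | ⟨h3, -, -⟩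
      · have := h3 hi2
        omega
      · rw [h3 i hi hi2]; omega
    have ha10 : a 1 ≤ a 0 := by
      rcases hI with ⟨h3, -⟩ | ⟨-, h3, -⟩
      · exact h3 (by norm_num)
      · exact h3
    have ha01 : a 0 + a 1 ≤ n := by
      rcases hI with ⟨-, h3⟩ | ⟨-, -, h3⟩ <;> omega
    by_cases h3 : (a 0 - (v + 1)) + (a 1 - (v + 1)) ≤ n'
    · apply ih n' (by omega) _ _ (by omega)
      · right
        refine ⟨hz, ?_, h3⟩
        simp only
        omega
      · apply hpot n' _ le_rfl
        have : (0 : ℤ) ≤ ((v : ℤ) + 1) * v := by positivity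
        linarith
    · obtain ⟨t, ht⟩ : ∃ t, (a 0 - (v + 1)) + (a 1 - (v + 1)) = n' + t :=
        ⟨(a 0 - (v + 1)) + (a 1 - (v + 1)) - n', by omega⟩
      by_cases h4 : t ≤ a 1 - (v + 1)
      · apply lines_E hq t
        · omega
        · omega
        · exact h4
        · exact hz
        · rcases lt_or_ge ((n' : ℤ) - t) 0 with hneg | hnn'
          · exact EE_of_neg hneg _ _ _
          obtain ⟨n'', hn''⟩ : ∃ n'', n' = n'' + t := ⟨n' - t, by omega⟩
          rw [show (n' : ℤ) - t = (n'' : ℤ) by rw [hn'']; push_cast; ring]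
          apply ih n'' (by omega) _ _ (by omega)
          · right
            refine ⟨?_, ?_, ?_⟩
            · intro i hi hi2
              rw [low, if_neg (by omega)]
              exact hz i hi hi2
            · simp only [low]
              rw [if_pos (by norm_num), if_pos (by norm_num)]
              omega
            · simp only [low]
              rw [if_pos (by norm_num), if_pos (by norm_num)]
              omega
          · apply hpot n'' _ (by omega)
            have hth : t ≤ v + 1 := by omega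
            have ht1 : 1 ≤ t := by omega
            have hlow : ∑ i ∈ Finset.Ico 2 9, ((low (fun i => a i - (v + 1)) t i : ℕ) : ℤ) *
                (((low (fun i => a i - (v + 1)) t i : ℕ) : ℤ) + 1) =
                ∑ i ∈ Finset.Ico 2 9, ((a i - (v + 1) : ℕ) : ℤ) *
                (((a i - (v + 1) : ℕ) : ℤ) + 1) := by
              apply Finset.sum_congr rfl
              intro i hi
              rw [Finset.mem_Ico] at hi
              rw [low, if_neg (by omega)]
            rw [chi, chi, Finset.sum_empty, sum_nine, sum_nine (fun i =>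
              ((low (fun i => a i - (v + 1)) t i : ℕ) : ℤ) *
                (((low (fun i => a i - (v + 1)) t i : ℕ) : ℤ) + 1)), hlow]
            obtain ⟨x, hx⟩ : ∃ x, a 0 - (v + 1) = x + t := ⟨a 0 - (v + 1) - t, by omega⟩
            obtain ⟨y, hy⟩ : ∃ y, a 1 - (v + 1) = y + t := ⟨a 1 - (v + 1) - t, by omega⟩
            have l0 : low (fun i => a i - (v + 1)) t 0 = x := by
              rw [low, if_pos (by norm_num)]; omega
            have l1 : low (fun i => a i - (v + 1)) t 1 = y := by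
              rw [low, if_pos (by norm_num)]; omega
            rw [l0, l1, hx, hy, hn'']
            have hxy : x + y = n'' := by omega
            have hxy' : (x : ℤ) + y = n'' := by exact_mod_cast hxy
            rw [← hxy']
            push_cast
            have g1 : (1 : ℤ) ≤ t := by exact_mod_cast ht1
            have g2 : (t : ℤ) ≤ v + 1 := by exact_mod_cast hth
            have g3 : (t : ℤ) * (t - 1) ≤ (v + 1) * v :=
              mul_le_mul g2 (by linarith) (by linarith) (by positivity)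
            nlinarith [g3]
      · apply EE_of_lt
        omega

end Helper18.Shgh
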