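import Pool.Agent.Helper18.ShghWin
import Pool.Agent.Helper18.ShghPts

open Module

noncomputable section

namespace Helper18.Shgh

/-- nine points forming a Halphen set of index two, and additional points of the curve -/
structure Nine (q : ℕ → Pt) : Prop where
  hz : ∀ i, (q i).z ≠ 0
  hinj : Function.Injective (fun i => (q i).z ^ 2)
  hp : ∀ i ∈ Finset.range 9, ev (q i) pp = 0
  hw : ∀ i, 9 ≤ i → ev (q i) pp ≠ 0

theorem nat_ne {j : ℕ} (hj : 9 ≤ j) : (j : ℂ) ^ 9 + (j : ℂ) ^ 2 ≠ 1 := by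
  intro h3
  have h4 : j ^ 9 + j ^ 2 = 1 := by exact_mod_cast h3
  have h5 : 9 ^ 9 ≤ j ^ 9 := Nat.pow_le_pow_left (by omega) 9
  norm_num at h5
  omega

theorem exists_Nine : ∃ q : ℕ → Pt, Nine q := by
  obtain ⟨x, hx, hx2⟩ := exists_nine_roots
  have h1 : ∀ i : ℕ, ∃ p : Pt, p.z ≠ 0 ∧
      (∀ h : i < 9, p.z ^ 2 = x ⟨i, h⟩ ∧ ev p pp = 0) ∧ (9 ≤ i → p.z ^ 2 = i) := by
    intro i
    by_cases hi : i < 9
    · obtain ⟨z, hz⟩ := IsAlgClosed.exists_pow_nat_eq (x ⟨i, hi⟩) (n := 2) (by norm_num)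
      have h2 := hx2 ⟨i, hi⟩
      rw [← hz] at h2
      have hz0 : z ≠ 0 := by
        rintro rfl
        norm_num at h2
      refine ⟨⟨z, -z ^ 9, by linear_combination h2, neg_ne_zero.2 (pow_ne_zero _ hz0)⟩,
        hz0, fun _ => ⟨hz, ?_⟩, fun h => by omega⟩
      rw [pp, map_add, map_pow, ev_zz, ev_vv]
      ring
    · obtain ⟨z, hz⟩ := IsAlgClosed.exists_pow_nat_eq (i : ℂ) (n := 2) (by norm_num)
      obtain ⟨v, hv⟩ := IsAlgClosed.exists_pow_nat_eq (1 - z ^ 4) (n := 2) (by norm_num)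
      have hz0 : z ≠ 0 := by
        rintro rfl
        have : (i : ℂ) = 0 := by rw [← hz]; norm_num
        have : i = 0 := by exact_mod_cast this
        omega
      have hv0 : v ≠ 0 := by
        rintro rfl
        have h2 : z ^ 4 = 1 := by linear_combination hv
        have h3 : (i : ℂ) ^ 2 = 1 := by rw [← hz, ← h2]; ring
        have h4 : i ^ 2 = 1 := by exact_mod_cast h3
        have h5 : i = 1 := by
          have := Nat.pow_left_injective (n := 2) (by norm_num) (h4.trans (one_pow 2).symm)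
          exact this
        omega
      exact ⟨⟨z, v, hv, hv0⟩, hz0, fun h => absurd h hi, fun _ => hz⟩
  choose q hq1 hq2 hq3 using h1
  refine ⟨q, hq1, ?_, fun i hi => (hq2 i (Finset.mem_range.1 hi)).2, ?_⟩
  · have key : ∀ i j : ℕ, i < 9 → ¬ j < 9 → (q i).z ^ 2 ≠ (q j).z ^ 2 := by
      intro i j hi hj h
      rw [(hq2 i hi).1, hq3 j (by omega)] at h
      have h2 := hx2 ⟨i, hi⟩
      rw [h] at h2
      exact nat_ne (j := j) (by omega) (by linear_combination h2)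
    intro i j h
    simp only at h
    by_cases hi : i < 9
    · by_cases hj : j < 9
      · rw [(hq2 i hi).1, (hq2 j hj).1] at h
        have := hx h
        simpa using this
      · exact absurd h (key i j hi hj)
    · by_cases hj : j < 9
      · exact absurd h.symm (key j i hj hi)
      · rw [hq3 i (by omega), hq3 j (by omega)] at h
        exact_mod_cast h
  · intro i hi h
    rw [pp, map_add, map_pow, ev_zz, ev_vv] at h
    have h2 := (q i).h
    have h3 := hq3 i hi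
    apply nat_ne hi
    rw [← h3]
    linear_combination ((q i).z ^ 9 - (q i).v) * h + h2

/-- the line through the first two points -/
def Lq (q : ℕ → Pt) : R2 :=
  ll (((q 1).y - (q 0).y) / ((q 1).z ^ 2 - (q 0).z ^ 2))
    ((q 0).y - ((q 1).y - (q 0).y) / ((q 1).z ^ 2 - (q 0).z ^ 2) * (q 0).z ^ 2)

theorem eval_ll (a b : ℂ) (P : Fin 2 → ℂ) :
    MvPolynomial.eval P (ll a b) = P 1 - (a * P 0 + b) := by
  simp [ll]

variable {q : ℕ → Pt}

theorem Nine.diff (hq : Nine q) : (q 1).z ^ 2 - (q 0).z ^ 2 ≠ 0 := by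
  intro h
  have := hq.hinj (sub_eq_zero.1 h)
  omega

theorem Lq_mem0 : Lq q ∈ mI (q 0).pt := by
  rw [mem_mI_iff, Lq, eval_ll]
  change (q 0).y - (_ * (q 0).z ^ 2 + _) = 0
  ring

theorem Lq_mem1 (hq : Nine q) : Lq q ∈ mI (q 1).pt := by
  rw [mem_mI_iff, Lq, eval_ll]
  change (q 1).y - (_ * (q 1).z ^ 2 + _) = 0
  have := hq.diff
  field_simp
  ring

/-- points off the cubic and off the line -/
def good (q : ℕ → Pt) (P : ℕ → Fin 2 → ℂ) (E : Finset ℕ) : Prop :=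
  ∀ r ∈ E, MvPolynomial.eval (P r) cc ≠ 0 ∧ MvPolynomial.eval (P r) (Lq q) ≠ 0

theorem mem_of_mul_unit {σ : Type*} {P : σ → ℂ} {m : ℕ} {A G : MvPolynomial σ ℂ}
    (hA : MvPolynomial.eval P A ≠ 0) : A * G ∈ mI P ^ m ↔ G ∈ mI P ^ m := by
  constructor
  · intro h
    have hA' : ¬ A ∈ mI P ^ 1 := by rwa [pow_one, mem_mI_iff]
    rw [mem_mI_pow_order] at *
    rw [map_mul, MvPolynomial.coe_mul, MvPowerSeries.order_mul] at h
    push Not at hA'
    have h0 : MvPowerSeries.order (tau P A : MvPowerSeries σ ℂ) = 0 := by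
      have : MvPowerSeries.order (tau P A : MvPowerSeries σ ℂ) < 1 := by exact_mod_cast hA'
      exact Order.lt_one_iff.1 this
    rwa [h0, zero_add] at h
  · intro h
    exact Ideal.mul_mem_left _ _ h

/-- the space of polynomials with multiplicities at the nine points and additional points -/
def XX (q : ℕ → Pt) (n : ℤ) (a m : ℕ → ℕ) (E : Finset ℕ) (P : ℕ → Fin 2 → ℂ) :
    Submodule ℂ R2 where
  carrier := {G | G ∈ V n ∧ (∀ i ∈ Finset.range 9, G ∈ mI (q i).pt ^ a i) ∧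
    ∀ r ∈ E, G ∈ mI (P r) ^ m r}
  add_mem' := by
    rintro F G ⟨hF1, hF2, hF3⟩ ⟨hG1, hG2, hG3⟩
    exact ⟨Submodule.add_mem _ hF1 hG1, fun i hi => Ideal.add_mem _ (hF2 i hi) (hG2 i hi),
      fun i hi => Ideal.add_mem _ (hF3 i hi) (hG3 i hi)⟩
  zero_mem' := ⟨Submodule.zero_mem _, fun i _ => Ideal.zero_mem _, fun i _ => Ideal.zero_mem _⟩
  smul_mem' := by
    rintro c F ⟨hF1, hF2, hF3⟩
    refine ⟨Submodule.smul_mem _ c hF1, fun i hi => ?_, fun i hi => ?_⟩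
    · rw [← algebraMap_smul R2 c F, smul_eq_mul]
      exact Ideal.mul_mem_left _ _ (hF2 i hi)
    · rw [← algebraMap_smul R2 c F, smul_eq_mul]
      exact Ideal.mul_mem_left _ _ (hF3 i hi)

theorem mem_XX {n : ℤ} {a m : ℕ → ℕ} {E : Finset ℕ} {P : ℕ → Fin 2 → ℂ} {G : R2} :
    G ∈ XX q n a m E P ↔ G ∈ V n ∧ (∀ i ∈ Finset.range 9, G ∈ mI (q i).pt ^ a i) ∧
      ∀ r ∈ E, G ∈ mI (P r) ^ m r := Iff.rfl

instance (n : ℤ) (a m : ℕ → ℕ) (E : Finset ℕ) (P : ℕ → Fin 2 → ℂ) :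
    FiniteDimensional ℂ (XX q n a m E P) :=
  Submodule.finiteDimensional_of_le (fun _ h => h.1 : XX q n a m E P ≤ V n)

/-- multiplicities at all points -/
def comb (a m : ℕ → ℕ) (i : ℕ) : ℕ := if i < 9 then a i else m i

theorem comb_lt {a m : ℕ → ℕ} {i : ℕ} (h : i ∈ Finset.range 9) : comb a m i = a i := by
  rw [comb, if_pos (Finset.mem_range.1 h)]

theorem comb_ge {a m : ℕ → ℕ} {i : ℕ} (h : 9 ≤ i) : comb a m i = m i := by
  rw [comb, if_neg (by omega)]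

/-- the filtration by powers of the cubic -/
def YY (q : ℕ → Pt) (n : ℤ) (a m : ℕ → ℕ) (E : Finset ℕ) (P : ℕ → Fin 2 → ℂ) (k : ℕ) :
    Submodule ℂ R2 where
  carrier := {G | G ∈ GG (Finset.range 9) q (comb a m) n k ∧ ∀ r ∈ E, G ∈ mI (P r) ^ m r}
  add_mem' := by
    rintro F G ⟨hF1, hF3⟩ ⟨hG1, hG3⟩
    exact ⟨Submodule.add_mem _ hF1 hG1, fun i hi => Ideal.add_mem _ (hF3 i hi) (hG3 i hi)⟩
  zero_mem' := ⟨Submodule.zero_mem _, fun i _ => Ideal.zero_mem _⟩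
  smul_mem' := by
    rintro c F ⟨hF1, hF3⟩
    refine ⟨Submodule.smul_mem _ c hF1, fun i hi => ?_⟩
    · rw [← algebraMap_smul R2 c F, smul_eq_mul]
      exact Ideal.mul_mem_left _ _ (hF3 i hi)

theorem mem_YY {n : ℤ} {a m : ℕ → ℕ} {E : Finset ℕ} {P : ℕ → Fin 2 → ℂ} {k : ℕ} {G : R2} :
    G ∈ YY q n a m E P k ↔ G ∈ GG (Finset.range 9) q (comb a m) n k ∧
      ∀ r ∈ E, G ∈ mI (P r) ^ m r := Iff.rfl

instance (n : ℤ) (a m : ℕ → ℕ) (E : Finset ℕ) (P : ℕ → Fin 2 → ℂ) (k : ℕ) :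
    FiniteDimensional ℂ (YY q n a m E P k) :=
  Submodule.finiteDimensional_of_le (fun _ h => h.1.1 : YY q n a m E P k ≤ V (n - 3 * k))

instance (Y : Submodule ℂ R2) [FiniteDimensional ℂ Y] (m : ℕ → ℕ) (E : Finset ℕ) (t : ℂ) :
    FiniteDimensional ℂ (MM Y q m E t) :=
  Submodule.finiteDimensional_of_le (fun _ h => h.1 : MM Y q m E t ≤ Y)

theorem YY_succ {n : ℤ} {a m : ℕ → ℕ} {E : Finset ℕ} {P : ℕ → Fin 2 → ℂ} (hP : good q P E)
    (k : ℕ) (G : R2) : cc * G ∈ YY q n a m E P k ↔ G ∈ YY q n a m E P (k + 1) := by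
  rw [mem_YY, mem_YY, mulcc_mem_GG]
  refine and_congr_right fun _ => ?_
  apply forall₂_congr
  intro r hr
  exact mem_of_mul_unit (hP r hr).1

theorem YY_le (hq : Nine q) {n : ℤ} {a m : ℕ → ℕ} {E : Finset ℕ} {P : ℕ → Fin 2 → ℂ} (k : ℕ) :
    YY q n a m E P k ≤ XX q (n - 3 * k) (fun i => a i - k) m E P := by
  rintro G ⟨h1, h2⟩
  refine ⟨h1.1, fun i hi => ?_, h2⟩
  have h3 := mem_GG_ord (fun i _ => hq.hz i) h1 hi
  rwa [comb_lt hi] at h3

theorem Pt.eta_ne_zero {p : Pt} (hz : p.z ≠ 0) (hw : ev p pp ≠ 0) : p.eta ≠ 0 := by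
  rw [Pt.eta]
  exact div_ne_zero hw (mul_ne_zero two_ne_zero (Pt.y_ne_zero hz))

theorem phi_cc_ne_zero {p : Pt} (hz : p.z ≠ 0) (hw : ev p pp ≠ 0) :
    phi (p.z ^ 2) p.y p.eta cc ≠ 0 := by
  rw [phi_cc p.curve]
  apply mul_ne_zero Polynomial.X_ne_zero
  intro h
  have h1 := congrArg (Polynomial.eval 0) h
  simp [Pt.two_y_eta hz] at h1
  exact hw h1

theorem phi_ll_ne_zero {p : Pt} (hz : p.z ≠ 0) (hw : ev p pp ≠ 0) (a b : ℂ) :
    phi (p.z ^ 2) p.y p.eta (ll a b) ≠ 0 := by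
  intro h
  have h1 : phi (p.z ^ 2) p.y p.eta (ll a b) = Polynomial.C p.y + Polynomial.C p.eta *
      Polynomial.X - (Polynomial.C a * Polynomial.C (p.z ^ 2) + Polynomial.C b) := by
    rw [ll, map_sub, map_add, map_mul]
    simp [phi]
  rw [h1] at h
  have h2 := congrArg (fun f => Polynomial.coeff f 1) h
  simp [Polynomial.coeff_C, -map_mul, -map_pow, ← Polynomial.C_mul] at h2
  exact Pt.eta_ne_zero hz hw h2

/-- the window lemma -/
theorem window_step (hq : Nine q) (n j : ℕ) (a m : ℕ → ℕ) (E₁ E₂ : Finset ℕ)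
    (h9 : ∀ r ∈ E₁, 9 ≤ r) (hdisj : Disjoint E₁ E₂) (P : ℕ → Fin 2 → ℂ) (hP : good q P E₂)
    (hfd : FiniteDimensional ℂ (LP q (comb a m) n j E₁)) :
    ∃ P' : ℕ → Fin 2 → ℂ, good q P' (E₁ ∪ E₂) ∧
      finrank ℂ (XX q n a m (E₁ ∪ E₂) P') ≤
        finrank ℂ (XX q (n - 3 * ((j + 1 : ℕ) : ℤ)) (fun i => a i - (j + 1)) m E₂ P) +
        finrank ℂ (LP q (comb a m) n j E₁) := by
  let Δ : Polynomial ℂ := ∏ r ∈ E₁, (phi ((q r).z ^ 2) (q r).y (q r).eta cc *
    phi ((q r).z ^ 2) (q r).y (q r).eta (Lq q))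
  have hΔ : Δ ≠ 0 := by
    rw [Finset.prod_ne_zero_iff]
    intro r hr
    exact mul_ne_zero (phi_cc_ne_zero (hq.hz r) (hq.hw r (h9 r hr)))
      (phi_ll_ne_zero (hq.hz r) (hq.hw r (h9 r hr)) _ _)
  obtain ⟨t, ht, hfr⟩ := window (d := n) (j := j) (E := E₁) hq.hz hq.hp (YY q n a m E₂ P)
    (fun k _ h => h.1) (YY_succ hP) hfd Δ hΔ
  have hmv : ∀ r ∈ E₁, MvPolynomial.eval (mv (q r) t) cc ≠ 0 ∧
      MvPolynomial.eval (mv (q r) t) (Lq q) ≠ 0 := by
    intro r hr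
    rw [Polynomial.eval_prod, Finset.prod_ne_zero_iff] at ht
    have h1 := ht r hr
    rw [Polynomial.eval_mul, eval_phi, eval_phi] at h1
    exact ⟨left_ne_zero_of_mul h1, right_ne_zero_of_mul h1⟩
  refine ⟨fun r => if r ∈ E₁ then mv (q r) t else P r, ?_, ?_⟩
  · intro r hr
    by_cases h1 : r ∈ E₁
    · simp only [if_pos h1]
      exact hmv r h1
    · simp only [if_neg h1]
      exact hP r ((Finset.mem_union.1 hr).resolve_left h1)
  · refine le_trans (Submodule.finrank_mono ?_) (hfr.trans (Nat.add_le_add_right ?_ _))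
    · rintro G ⟨h1, h2, h3⟩
      refine ⟨⟨⟨by simpa using h1, fun i hi => ?_⟩, fun r hr => ?_⟩, fun r hr => ?_⟩
      · rw [pow_zero, one_mul, comb_lt hi]
        exact h2 i hi
      · have h4 := h3 r (Finset.mem_union_right _ hr)
        have h5 : r ∉ E₁ := fun h => (Finset.disjoint_left.1 hdisj h) hr
        simp only [if_neg h5] at h4
        exact h4
      · have h4 := h3 r (Finset.mem_union_left _ hr)
        simp only [if_pos hr] at h4
        rw [comb_ge (h9 r hr)]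
        exact h4
    · exact Submodule.finrank_mono (YY_le hq _)

end Helper18.Shgh
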