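import Pool.Agent.Helper18.ShghState
import Pool.Agent.Helper18.ShghGP

open Module

noncomputable section

namespace Helper18.Shgh

/-- twice the virtual dimension (plus one) -/
def chi (n : ℤ) (a m : ℕ → ℕ) (E : Finset ℕ) : ℤ :=
  (n + 1) * (n + 2) - ∑ i ∈ Finset.range 9, (a i : ℤ) * (a i + 1) -
    ∑ r ∈ E, (m r : ℤ) * (m r + 1)

/-- the additional points impose independent conditions -/
def RR (q : ℕ → Pt) (n : ℤ) (a m : ℕ → ℕ) (E : Finset ℕ) : Prop :=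
  ∃ P : ℕ → Fin 2 → ℂ, good q P E ∧ 2 * (finrank ℂ (XX q n a m E P) : ℤ) ≤ chi n a m E

/-- the system is empty -/
def EE (q : ℕ → Pt) (n : ℤ) (a m : ℕ → ℕ) (E : Finset ℕ) : Prop :=
  ∃ P : ℕ → Fin 2 → ℂ, good q P E ∧ XX q n a m E P = ⊥

variable {q : ℕ → Pt}

theorem sum_comb_nine (a m : ℕ → ℕ) (f : ℕ → ℕ) :
    ∑ i ∈ Finset.range 9, f (comb a m i) = ∑ i ∈ Finset.range 9, f (a i) :=
  Finset.sum_congr rfl fun i hi => by rw [comb_lt hi]

theorem sum_comb_ge (a m : ℕ → ℕ) {E : Finset ℕ} (h9 : ∀ r ∈ E, 9 ≤ r) (f : ℕ → ℕ) :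
    ∑ i ∈ E, f (comb a m i) = ∑ i ∈ E, f (m i) :=
  Finset.sum_congr rfl fun i hi => by rw [comb_ge (h9 i hi)]

theorem disj_nine {E : Finset ℕ} (h9 : ∀ r ∈ E, 9 ≤ r) : Disjoint (Finset.range 9) E := by
  rw [Finset.disjoint_left]
  intro i hi hi2
  rw [Finset.mem_range] at hi
  have := h9 i hi2
  omega

theorem window_R (hq : Nine q) {n j : ℕ} {a m : ℕ → ℕ} {E₁ E₂ : Finset ℕ}
    (h9 : ∀ r ∈ E₁, 9 ≤ r) (hdisj : Disjoint E₁ E₂)
    (ha : ∀ i ∈ Finset.range 9, j + 1 ≤ a i) (hj : ∀ r ∈ E₁, m r ≤ j + 1)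
    (hcap : 2 * ∑ i ∈ Finset.range 9, a i + ∑ r ∈ E₁, (m r + (m r - j)) < 6 * n)
    (h : RR q ((n : ℤ) - 3 * ((j + 1 : ℕ) : ℤ)) (fun i => a i - (j + 1)) m E₂) :
    RR q n a m (E₁ ∪ E₂) := by
  obtain ⟨P, hP, hdim⟩ := h
  have hN : ∀ i ≤ j, Nc (comb a m) j E₁ i < 6 * n := by
    intro i hi
    refine lt_of_le_of_lt ?_ hcap
    rw [Nc, sum_comb_nine a m (fun x => x)]
    apply Nat.add_le_add_left
    rw [sum_comb_ge a m h9 (fun x => (x - i) + (x - (j - i)))]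
    apply Finset.sum_le_sum
    intro r hr
    have := hj r hr
    omega
  obtain ⟨hfd, hLP⟩ := finrank_LP (q := q) hq.hz hq.hinj (disj_nine h9) hN
    (fun r hr => by rw [comb_ge (h9 r hr)]; exact hj r hr)
  obtain ⟨P', hP', hfr⟩ := window_step hq n j a m E₁ E₂ h9 hdisj P hP hfd
  refine ⟨P', hP', ?_⟩
  rw [sum_comb_nine a m (fun x => x), sum_comb_ge a m h9 (fun x => x * (x + 1))] at hLP
  have h1 : 2 * (finrank ℂ (LP q (comb a m) n j E₁) : ℤ) +
      2 * (j + 1) * ∑ i ∈ Finset.range 9, (a i : ℤ) + ∑ r ∈ E₁, (m r : ℤ) * (m r + 1) ≤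
      6 * n * (j + 1) := by exact_mod_cast hLP
  have h2 : (finrank ℂ (XX q n a m (E₁ ∪ E₂) P') : ℤ) ≤
      finrank ℂ (XX q ((n : ℤ) - 3 * ((j + 1 : ℕ) : ℤ)) (fun i => a i - (j + 1)) m E₂ P) +
      finrank ℂ (LP q (comb a m) n j E₁) := by exact_mod_cast hfr
  have h3 : ∑ i ∈ Finset.range 9, (a i : ℤ) * (a i + 1) =
      ∑ i ∈ Finset.range 9, ((a i - (j + 1) : ℕ) : ℤ) * (((a i - (j + 1) : ℕ) : ℤ) + 1) +
      2 * (j + 1) * ∑ i ∈ Finset.range 9, (a i : ℤ) - 9 * ((j + 1) * j) := by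
    have h4 : ∀ i ∈ Finset.range 9, (a i : ℤ) * (a i + 1) =
        ((a i - (j + 1) : ℕ) : ℤ) * (((a i - (j + 1) : ℕ) : ℤ) + 1) +
          2 * (j + 1) * (a i : ℤ) - (j + 1) * j := by
      intro i hi
      rw [Nat.cast_sub (ha i hi)]
      push_cast
      ring
    rw [Finset.sum_congr rfl h4, Finset.sum_sub_distrib, Finset.sum_add_distrib,
      ← Finset.mul_sum, Finset.sum_const, Finset.card_range]
    simp only [nsmul_eq_mul]
    push_cast
    ring
  rw [chi] at hdim ⊢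
  rw [Finset.sum_union hdisj, h3]
  push_cast at hdim h2 ⊢
  nlinarith [hdim, h1, h2]

theorem window_E (hq : Nine q) {n j : ℕ} {a m : ℕ → ℕ} {E₁ E₂ : Finset ℕ}
    (h9 : ∀ r ∈ E₁, 9 ≤ r) (hdisj : Disjoint E₁ E₂)
    (hN : ∀ i ≤ j, 6 * n < 2 * ∑ i ∈ Finset.range 9, a i +
      ∑ r ∈ E₁, ((m r - i) + (m r - (j - i))))
    (h : EE q ((n : ℤ) - 3 * ((j + 1 : ℕ) : ℤ)) (fun i => a i - (j + 1)) m E₂) :
    EE q n a m (E₁ ∪ E₂) := by
  obtain ⟨P, hP, hbot⟩ := h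
  have hLP := LP_eq_bot (q := q) (m := comb a m) (d := n) (j := j) hq.hz hq.hinj (disj_nine h9) (by
    intro i hi
    rw [Nc, sum_comb_nine a m (fun x => x),
      sum_comb_ge a m h9 (fun x => (x - i) + (x - (j - i)))]
    exact hN i hi)
  have hfd : FiniteDimensional ℂ (LP q (comb a m) n j E₁) := by
    rw [hLP]; infer_instance
  obtain ⟨P', hP', hfr⟩ := window_step hq n j a m E₁ E₂ h9 hdisj P hP hfd
  refine ⟨P', hP', ?_⟩
  rw [hLP, hbot, finrank_bot, finrank_bot] at hfr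
  exact Submodule.finrank_eq_zero.1 (by omega)

theorem cc_mul_Lq_ne_zero : cc * Lq q ≠ 0 := mul_ne_zero cc_ne_zero (ll_ne_zero _ _)

theorem exists_good (q : ℕ → Pt) (E : Finset ℕ) : ∃ P, good q P E := by
  obtain ⟨x, hx⟩ : ∃ x, MvPolynomial.eval x (cc * Lq q) ≠ 0 := by
    by_contra hcon
    push Not at hcon
    exact cc_mul_Lq_ne_zero (q := q) (MvPolynomial.funext fun x => by rw [hcon x, map_zero])
  rw [map_mul] at hx
  exact ⟨fun _ => x, fun _ _ => ⟨left_ne_zero_of_mul hx, right_ne_zero_of_mul hx⟩⟩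

theorem eq_zero_of_mem {σ : Type*} {P : σ → ℂ} {n : ℕ} {F : MvPolynomial σ ℂ}
    (h1 : F.totalDegree < n) (h2 : F ∈ mI P ^ n) : F = 0 := by
  have h3 : (tau P F).totalDegree ≤ F.totalDegree := by
    rw [tau, MvPolynomial.aeval_def, MvPolynomial.eval₂_eq]
    refine MvPolynomial.totalDegree_finsetSum_le fun e he => ?_
    refine (MvPolynomial.totalDegree_mul _ _).trans ?_
    rw [MvPolynomial.algebraMap_eq, MvPolynomial.totalDegree_C, zero_add]
    refine (MvPolynomial.totalDegree_finsetProd _ _).trans ?_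
    refine le_trans ?_ (MvPolynomial.le_totalDegree he)
    rw [Finsupp.sum]
    apply Finset.sum_le_sum
    intro i _
    refine (MvPolynomial.totalDegree_pow _ _).trans ?_
    have : (MvPolynomial.X i + MvPolynomial.C (P i) : MvPolynomial σ ℂ).totalDegree ≤ 1 := by
      refine (MvPolynomial.totalDegree_add _ _).trans (max_le ?_ ?_)
      · rw [MvPolynomial.totalDegree_X]
      · rw [MvPolynomial.totalDegree_C]; omega
    calc e i * _ ≤ e i * 1 := Nat.mul_le_mul_left _ this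
      _ = e i := mul_one _
  have h4 : tau P F = 0 := by
    ext e
    rw [MvPolynomial.coeff_zero]
    rcases Nat.lt_or_ge e.degree n with h5 | h5
    · exact mem_mI_pow.1 h2 e h5
    · apply MvPolynomial.coeff_eq_zero_of_totalDegree_lt
      have : (∑ i ∈ e.support, e i) = e.degree := rfl
      rw [this]
      omega
  exact tau_injective P (h4.trans (map_zero _).symm)

theorem EE_of_neg {n : ℤ} (hn : n < 0) (a m : ℕ → ℕ) (E : Finset ℕ) : EE q n a m E := by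
  obtain ⟨P, hP⟩ := exists_good q E
  refine ⟨P, hP, ?_⟩
  rw [eq_bot_iff, ← V_neg hn]
  exact fun _ h => h.1

theorem EE_of_lt {n : ℤ} {a m : ℕ → ℕ} {E : Finset ℕ} (hn : n < a 0) : EE q n a m E := by
  rcases lt_or_ge n 0 with h0 | h0
  · exact EE_of_neg h0 a m E
  obtain ⟨P, hP⟩ := exists_good q E
  refine ⟨P, hP, ?_⟩
  rw [eq_bot_iff]
  rintro F ⟨h1, h2, -⟩
  rw [Submodule.mem_bot]
  rw [mem_V] at h1
  rcases h1 with h1 | h1
  · exact h1
  · exact eq_zero_of_mem (by omega) (h2 0 (by simp))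

theorem coord0 (q : ℕ → Pt) (i : ℕ) : (q i).pt 0 = (q i).z ^ 2 := rfl
theorem coord1 (q : ℕ → Pt) (i : ℕ) : (q i).pt 1 = (q i).y := rfl

theorem on_line0 (q : ℕ → Pt) : (q 0).pt 1 =
    (((q 1).y - (q 0).y) / ((q 1).z ^ 2 - (q 0).z ^ 2)) * (q 0).pt 0 +
    ((q 0).y - ((q 1).y - (q 0).y) / ((q 1).z ^ 2 - (q 0).z ^ 2) * (q 0).z ^ 2) := by
  rw [coord0, coord1]; ring

theorem on_line1 (hq : Nine q) : (q 1).pt 1 =
    (((q 1).y - (q 0).y) / ((q 1).z ^ 2 - (q 0).z ^ 2)) * (q 1).pt 0 +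
    ((q 0).y - ((q 1).y - (q 0).y) / ((q 1).z ^ 2 - (q 0).z ^ 2) * (q 0).z ^ 2) := by
  rw [coord0, coord1]
  have := hq.diff
  field_simp
  ring

/-- the first two multiplicities lowered by `t` -/
def low (a : ℕ → ℕ) (t : ℕ) (i : ℕ) : ℕ := if i < 2 then a i - t else a i

theorem line_E (hq : Nine q) {n : ℤ} {a m : ℕ → ℕ} {E : Finset ℕ} (hn : n < a 0 + a 1)
    (ha : ∀ i ∈ Finset.range 9, 2 ≤ i → a i = 0)
    (h : EE q (n - 1) (low a 1) m E) : EE q n a m E := by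
  rcases lt_or_ge n 0 with h0 | h0
  · exact EE_of_neg h0 a m E
  obtain ⟨P, hP, hbot⟩ := h
  refine ⟨P, hP, ?_⟩
  rw [eq_bot_iff]
  rintro F ⟨h1, h2, h3⟩
  rw [Submodule.mem_bot]
  obtain ⟨N, rfl⟩ := Int.eq_ofNat_of_zero_le h0
  have hQ0 := lam_dvd (on_line0 q) (h2 0 (by simp))
  have hQ1 := lam_dvd (on_line1 hq) (h2 1 (by simp))
  have hdeg := lam_degree (a := ((q 1).y - (q 0).y) / ((q 1).z ^ 2 - (q 0).z ^ 2))
    (b := (q 0).y - ((q 1).y - (q 0).y) / ((q 1).z ^ 2 - (q 0).z ^ 2) * (q 0).z ^ 2) h1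
  have hne : (q 0).pt 0 ≠ (q 1).pt 0 := by
    intro h
    have := hq.hinj h
    omega
  have hzero : lam (((q 1).y - (q 0).y) / ((q 1).z ^ 2 - (q 0).z ^ 2))
    ((q 0).y - ((q 1).y - (q 0).y) / ((q 1).z ^ 2 - (q 0).z ^ 2) * (q 0).z ^ 2) F = 0 := by
    by_contra hne0
    have hd : (Polynomial.X - Polynomial.C ((q 0).pt 0)) ^ a 0 *
        (Polynomial.X - Polynomial.C ((q 1).pt 0)) ^ a 1 ∣
        lam (((q 1).y - (q 0).y) / ((q 1).z ^ 2 - (q 0).z ^ 2))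
        ((q 0).y - ((q 1).y - (q 0).y) / ((q 1).z ^ 2 - (q 0).z ^ 2) * (q 0).z ^ 2) F := by
      apply IsCoprime.mul_dvd _ hQ0 hQ1
      apply IsCoprime.pow
      apply Polynomial.isCoprime_X_sub_C_of_isUnit_sub
      exact (sub_ne_zero.2 hne).isUnit
    have h4 := Polynomial.natDegree_le_of_dvd hd hne0
    rw [Polynomial.Monic.natDegree_mul ((Polynomial.monic_X_sub_C _).pow _)
      ((Polynomial.monic_X_sub_C _).pow _), Polynomial.natDegree_pow, Polynomial.natDegree_pow,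
      Polynomial.natDegree_X_sub_C, Polynomial.natDegree_X_sub_C, mul_one, mul_one] at h4
    omega
  obtain ⟨G, hG⟩ := exists_of_lam_eq_zero hzero
  change F = Lq q * G at hG
  have hGm : G ∈ XX q (((N : ℕ) : ℤ) - 1) (low a 1) m E P := by
    rw [hG] at h1 h2 h3
    refine ⟨ll_mul_mem_V.1 h1, fun i hi => ?_, fun r hr => ?_⟩
    · have h4 := h2 i hi
      rw [low]
      split_ifs with h5
      · exact mem_of_pow_mul_mem (ll_notMem _ _ _) 1 (by rw [pow_one]; exact h4)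
      · rw [ha i hi (by omega)]
        simp
    · exact (mem_of_mul_unit (hP r hr).2).1 (h3 r hr)
  change XX q (((N : ℕ) : ℤ) - 1) (low a 1) m E P = ⊥ at hbot
  rw [hbot, Submodule.mem_bot] at hGm
  rw [hG, hGm, mul_zero]

theorem low_low (a : ℕ → ℕ) (s t : ℕ) : low (low a s) t = low a (s + t) := by
  funext i
  simp only [low]
  split_ifs <;> omega

theorem lines_E (hq : Nine q) (t : ℕ) : ∀ {n : ℤ} {a m : ℕ → ℕ} {E : Finset ℕ},
    n + t ≤ a 0 + a 1 → t ≤ a 0 → t ≤ a 1 →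
    (∀ i ∈ Finset.range 9, 2 ≤ i → a i = 0) →
    EE q (n - t) (low a t) m E → EE q n a m E := by
  induction t with
  | zero =>
    intro n a m E _ _ _ _ h
    have : low a 0 = a := by funext i; simp [low]
    rw [this] at h
    simpa using h
  | succ t ih =>
    intro n a m E h1 h2 h3 h4 h
    apply line_E hq (by push_cast at h1; omega) h4
    have e0 : low a 1 0 = a 0 - 1 := rfl
    have e1 : low a 1 1 = a 1 - 1 := rfl
    apply ih
    · rw [e0, e1]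
      push_cast at h1
      omega
    · rw [e0]; omega
    · rw [e1]; omega
    · intro i hi hi2
      rw [low, if_neg (by omega)]
      exact h4 i hi hi2
    · rw [low_low, add_comm 1 t]
      push_cast at h
      rwa [show n - 1 - (t : ℤ) = n - (t + 1) by ring]

end Helper18.Shgh
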