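import Pool.Agent.Helper18.ShghRecE
import Pool.Agent.Helper18.ShghFinal

open Module

noncomputable section

namespace Helper18.Shgh

theorem tenth (s : ℕ) (m : ℕ → ℕ) (d : ℕ) (hm : Antitone m) (hs : ∀ i, s ≤ i → m i = 0)
    (hd : m 0 + m 1 + m 2 ≤ d)
    (hgap : 6 * ((d : ℤ) + 1) * (m 9 + 1) ≤
      |((d + 2).choose 2 : ℤ) - ∑ i : Fin s, ((m (i : ℕ) + 1).choose 2 : ℤ)|) :
    ∃ G : MvPolynomial (Fin s × Fin 3) ℂ, G ≠ 0 ∧
      ∀ P : Fin s → Fin 3 → ℂ, (∀ i, P i ≠ 0) →
        MvPolynomial.eval (fun ij : Fin s × Fin 3 => P ij.1 ij.2) G ≠ 0 →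
        (finrank ℂ (FS s m d P) : ℤ) =
          max (((d + 2).choose 2 : ℤ) - ∑ i : Fin s, ((m (i : ℕ) + 1).choose 2 : ℤ)) 0 := by
  obtain ⟨q, hq⟩ := exists_Nine
  have hd1 : 2 * ((d + 2).choose 2 : ℤ) = (d + 1) * (d + 2) := by
    have := two_choose (d + 1)
    push_cast at this ⊢
    linarith
  have hsum : 2 * ∑ i : Fin s, ((m (i : ℕ) + 1).choose 2 : ℤ) =
      ∑ i ∈ Finset.range 9, (m i : ℤ) * (m i + 1) +
        ∑ i ∈ Finset.Ico 9 s, (m i : ℤ) * (m i + 1) := by
    rw [Fin.sum_univ_eq_sum_range (fun i => ((m i + 1).choose 2 : ℤ)) s, Finset.mul_sum,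
      Finset.sum_congr rfl (fun i _ => two_choose (m i))]
    have h1 : ∑ i ∈ Finset.range s, (m i : ℤ) * (m i + 1) =
        ∑ i ∈ Finset.range 9 ∪ Finset.Ico 9 s, (m i : ℤ) * (m i + 1) := by
      apply Finset.sum_subset
      · intro i hi
        rw [Finset.mem_range] at hi
        rw [Finset.mem_union, Finset.mem_range, Finset.mem_Ico]
        omega
      · intro i _ hi
        rw [Finset.mem_range] at hi
        rw [hs i (by omega)]
        simp
    rw [h1, Finset.sum_union (disj_nine fun r hr => (Finset.mem_Ico.1 hr).1)]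
  have hchi : chi d m m (Finset.Ico 9 s) =
      2 * (((d + 2).choose 2 : ℤ) - ∑ i : Fin s, ((m (i : ℕ) + 1).choose 2 : ℤ)) := by
    rw [chi, mul_sub, hd1, hsum]
    ring
  set χ : ℤ := ((d + 2).choose 2 : ℤ) - ∑ i : Fin s, ((m (i : ℕ) + 1).choose 2 : ℤ) with hχ
  -- from the special points to general points
  have key : ∀ P : ℕ → Fin 2 → ℂ, (finrank ℂ (XX q d m m (Finset.Ico 9 s) P) : ℤ) ≤ max χ 0 →
      ∃ G : MvPolynomial (Fin s × Fin 3) ℂ, G ≠ 0 ∧
        ∀ P : Fin s → Fin 3 → ℂ, (∀ i, P i ≠ 0) →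
        MvPolynomial.eval (fun ij : Fin s × Fin 3 => P ij.1 ij.2) G ≠ 0 →
        (finrank ℂ (FS s m d P) : ℤ) = max χ 0 := by
    intro P hP
    apply general_position hm (fun i => if i < 9 then (q i).pt else P i)
    refine le_trans ?_ hP
    have h1 : SP (d : ℤ) (Finset.range s) (fun i => if i < 9 then (q i).pt else P i) m ≤
        XX q d m m (Finset.Ico 9 s) P := by
      rintro F ⟨h1, h2⟩
      refine ⟨h1, fun i hi => ?_, fun i hi => ?_⟩
      · rw [Finset.mem_range] at hi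
        by_cases his : i < s
        · have := h2 i (Finset.mem_range.2 his)
          simp only [if_pos hi] at this
          exact this
        · rw [hs i (by omega), pow_zero, Ideal.one_eq_top]
          exact Submodule.mem_top
      · rw [Finset.mem_Ico] at hi
        have := h2 i (Finset.mem_range.2 hi.2)
        simp only [if_neg (not_lt.2 hi.1)] at this
        exact this
    exact_mod_cast Submodule.finrank_mono h1
  rcases le_or_gt 0 χ with h0 | h0
  · rw [abs_of_nonneg h0] at hgap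
    obtain ⟨P, -, hP⟩ := RR_main hq hm hs d m 9 le_rfl (Or.inl ⟨hm, hd⟩) (by
      rw [hchi]; linarith)
    apply key P
    rw [hchi] at hP
    exact le_max_of_le_left (by linarith)
  · rw [abs_of_neg h0] at hgap
    obtain ⟨P, -, hP⟩ := EE_main hq hm (s := s) d m 9 le_rfl (Or.inl ⟨hm, hd⟩) (by
      rw [hchi]; linarith)
    apply key P
    rw [hP, finrank_bot]
    exact le_max_right _ _

end Helper18.Shgh
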