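import Pool.Agent.Helper18.ShghDeg2

open Module

noncomputable section

namespace Helper18.Shgh

/-- the moving point -/
def mv (q : Pt) (t : ℂ) : Fin 2 → ℂ := ![q.z ^ 2, q.y + q.eta * t]

/-- elements of `Y` with multiplicities at the moving points -/
def MM (Y : Submodule ℂ R2) (q : ℕ → Pt) (m : ℕ → ℕ) (E : Finset ℕ) (t : ℂ) :
    Submodule ℂ R2 where
  carrier := {G | G ∈ Y ∧ ∀ r ∈ E, G ∈ mI (mv (q r) t) ^ m r}
  add_mem' := by
    rintro F G ⟨hF1, hF2⟩ ⟨hG1, hG2⟩
    exact ⟨Submodule.add_mem _ hF1 hG1, fun i hi => Ideal.add_mem _ (hF2 i hi) (hG2 i hi)⟩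
  zero_mem' := ⟨Submodule.zero_mem _, fun i _ => Ideal.zero_mem _⟩
  smul_mem' := by
    rintro c F ⟨hF1, hF2⟩
    refine ⟨Submodule.smul_mem _ c hF1, fun i hi => ?_⟩
    rw [← algebraMap_smul R2 c F, smul_eq_mul]
    exact Ideal.mul_mem_left _ _ (hF2 i hi)

theorem mem_MM {Y : Submodule ℂ R2} {q : ℕ → Pt} {m : ℕ → ℕ} {E : Finset ℕ} {t : ℂ} {G : R2} :
    G ∈ MM Y q m E t ↔ G ∈ Y ∧ ∀ r ∈ E, G ∈ mI (mv (q r) t) ^ m r := Iff.rfl

variable {q : ℕ → Pt} {m : ℕ → ℕ} {d j : ℕ} {E : Finset ℕ}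

theorem window (hz : ∀ i, (q i).z ≠ 0) (hp : ∀ i ∈ Finset.range 9, ev (q i) pp = 0)
    (Y : ℕ → Submodule ℂ R2) (hY1 : ∀ k, Y k ≤ GG (Finset.range 9) q m (d : ℤ) k)
    (hY2 : ∀ k G, cc * G ∈ Y k ↔ G ∈ Y (k + 1))
    (hfd : FiniteDimensional ℂ (LP q m d j E)) (Δ' : Polynomial ℂ) (hΔ' : Δ' ≠ 0) :
    ∃ t : ℂ, Δ'.eval t ≠ 0 ∧ finrank ℂ (MM (Y 0) q m E t) ≤
      finrank ℂ (Y (j + 1)) + finrank ℂ (LP q m d j E) := by
  have hYfd : ∀ k, FiniteDimensional ℂ (Y k) := fun k =>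
    Submodule.finiteDimensional_of_le (hY1 k)
  have hYpow : ∀ (k : ℕ) (G : R2), G ∈ Y k → cc ^ k * G ∈ Y 0 := by
    intro k
    induction k with
    | zero => intro G hG; simpa using hG
    | succ k ih =>
      intro G hG
      rw [pow_succ, mul_assoc]
      exact ih _ ((hY2 k G).2 hG)
  obtain ⟨A, hA⟩ : ∃ A : ℕ, ∀ r ∈ E, m r ≤ A :=
    ⟨∑ r ∈ E, m r, fun r hr => Finset.single_le_sum (fun _ _ => Nat.zero_le _) hr⟩
  choose T hT1 hT2 using fun (r a : ℕ) (b k : Fin (j + 1)) =>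
    exists_T (q r) (hz r) j a b k (by omega) (by omega)
  let W := (k : Fin (j + 1)) → Y k
  let Λ : W →ₗ[ℂ] ((E × Fin A × Fin (j + 1)) → Polynomial ℂ) :=
    LinearMap.pi fun i => if (i.2.1 : ℕ) + i.2.2 < m i.1 then
      ∑ k : Fin (j + 1), T i.1 i.2.1 i.2.2 k ∘ₗ (Y k).subtype ∘ₗ LinearMap.proj k else 0
  have hΛ : ∀ (G : W) (r : E) (a : Fin A) (b : Fin (j + 1)), (a : ℕ) + b < m r →
      Λ G (r, a, b) = ∑ k : Fin (j + 1), T r a b k (G k) := by
    intro G r a b hab
    change (if (a : ℕ) + b < m r then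
      ∑ k : Fin (j + 1), T r a b k ∘ₗ (Y k).subtype ∘ₗ LinearMap.proj k else 0) G = _
    rw [if_pos hab, LinearMap.sum_apply]
    rfl
  have hΛ' : ∀ (G : W) (r : E) (a : Fin A) (b : Fin (j + 1)), ¬ ((a : ℕ) + b < m r) →
      Λ G (r, a, b) = 0 := by
    intro G r a b hab
    change (if (a : ℕ) + b < m r then
      ∑ k : Fin (j + 1), T r a b k ∘ₗ (Y k).subtype ∘ₗ LinearMap.proj k else 0) G = _
    rw [if_neg hab]
    rfl
  obtain ⟨Δ, hΔ0, hΔ⟩ := semicont Λ (Polynomial.aeval (0 : ℂ))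
  have hΔne : Δ ≠ 0 := by
    rintro rfl
    exact hΔ0 (map_zero _)
  obtain ⟨t, ht, hΔt'⟩ := exists_ne_zero_eval_ne_zero (Δ * Δ') (mul_ne_zero hΔne hΔ')
  rw [Polynomial.eval_mul] at hΔt'
  have hΔt := left_ne_zero_of_mul hΔt'
  have hker := hΔ (Polynomial.aeval t) (by rwa [Polynomial.coe_aeval_eq_eval])
  refine ⟨t, right_ne_zero_of_mul hΔt', ?_⟩
  -- the limit
  have hlim : finrank ℂ (LinearMap.ker (spec Λ (Polynomial.aeval (0 : ℂ)))) ≤
      ∑ k : Fin (j + 1), finrank ℂ (Y ((k : ℕ) + 1)) +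
        finrank ℂ (LP q m d j E) := by
    let W' := (k : Fin (j + 1)) → Y ((k : ℕ) + 1)
    let μ : W' →ₗ[ℂ] W := LinearMap.pi fun k =>
      ((mulcc.domRestrict _).codRestrict (Y k)
        (fun x => (hY2 k x.1).2 x.2)) ∘ₗ LinearMap.proj k
    let φ : W →ₗ[ℂ] (Fin (j + 1) → CR) := LinearMap.pi fun k =>
      rho.toLinearMap ∘ₗ (Y k).subtype ∘ₗ LinearMap.proj k
    have h1 := finrank_le_of_map (LinearMap.ker (spec Λ (Polynomial.aeval (0 : ℂ))))
      (⊤ : Submodule ℂ W') (LP q m d j E) φ μ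
      (by
        intro G hG
        rw [mem_ker_spec] at hG
        rw [mem_LP]
        refine ⟨fun k => rho_mem_CK hz hp (hY1 k (G k).2), ?_⟩
        intro r hr b hb
        rw [Finset.mem_range] at hb
        apply limit_ord (hz r) (G := fun k => (G k : R2))
        intro a hab
        have h2 := hG (⟨r, hr⟩, ⟨a, by have := hA r hr; omega⟩, ⟨b, hb⟩)
        rw [hΛ _ _ _ _ hab, map_sum] at h2
        rw [← h2]
        apply Finset.sum_congr rfl
        intro k _
        rw [Polynomial.coe_aeval_eq_eval, hT2])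
      (by
        intro G _ h0
        have h2 : ∀ k : Fin (j + 1), ∃ y : Y ((k : ℕ) + 1), cc * (y : R2) = G k := by
          intro k
          have h3 : rho (G k : R2) = 0 := congrFun h0 k
          obtain ⟨y, hy⟩ := exists_of_rho_eq_zero h3
          refine ⟨⟨y, ?_⟩, hy.symm⟩
          rw [← hY2, ← hy]
          exact (G k).2
        choose y hy using h2
        refine ⟨y, trivial, ?_⟩
        funext k
        exact Subtype.ext (hy k))
    rw [finrank_top, finrank_pi_fintype] at h1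
    exact h1
  -- the general member
  let Θ : W →ₗ[ℂ] Y 0 :=
    ∑ k : Fin (j + 1), (t ^ (j - (k : ℕ))) •
      (((LinearMap.mulLeft ℂ (cc ^ (k : ℕ))).domRestrict _).codRestrict
        (Y 0) (fun x => hYpow k x.1 x.2)) ∘ₗ LinearMap.proj k
  have hΘ : ∀ G : W, ((Θ G : Y 0) : R2) =
      ∑ k : Fin (j + 1), t ^ (j - (k : ℕ)) • (cc ^ (k : ℕ) * (G k : R2)) := by
    intro G
    change (Y 0).subtype (Θ G) = _
    rw [LinearMap.sum_apply, map_sum]
    rfl
  have hΘs : Function.Surjective Θ := by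
    intro F
    have hF : (t ^ j)⁻¹ • (F : R2) ∈ Y ((0 : Fin (j + 1)) : ℕ) :=
      Submodule.smul_mem _ _ F.2
    refine ⟨Pi.single (0 : Fin (j + 1)) ⟨_, hF⟩, ?_⟩
    apply Subtype.ext
    rw [hΘ, Finset.sum_eq_single (0 : Fin (j + 1))]
    · rw [Pi.single_eq_same]
      simp only [Fin.val_zero, Nat.sub_zero, pow_zero, one_mul, smul_smul]
      rw [mul_inv_cancel₀ (pow_ne_zero _ ht), one_smul]
    · intro k _ hk
      rw [Pi.single_eq_of_ne hk]
      simp
    · simp
  set M := MM (Y 0) q m E t with hM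
  have hMG : M ≤ Y 0 := fun F hF => hF.1
  let M' : Submodule ℂ (Y 0) := M.comap (Y 0).subtype
  have hM' : finrank ℂ M' = finrank ℂ M := by
    have h1 : M'.map (Y 0).subtype = M := by
      ext x
      constructor
      · rintro ⟨y, hy, rfl⟩
        exact hy
      · intro hx
        exact ⟨⟨x, hMG hx⟩, hx, rfl⟩
    have h2 := finrank_map_inj (Y 0).subtype_injective M'
    rw [h1] at h2
    exact h2.symm
  have h3 := finrank_comap_add Θ hΘs M'
  have h4 : M'.comap Θ ≤ LinearMap.ker (spec Λ (Polynomial.aeval t)) := by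
    intro G hG
    have hG' : ((Θ G : Y 0) : R2) ∈ M := hG
    rw [mem_ker_spec]
    rintro ⟨r, a, b⟩
    by_cases hab : (a : ℕ) + b < m r
    · have h5 : (t ^ (j - (b : ℕ))) * (Λ G (r, a, b)).eval t =
          MvPolynomial.eval (mv (q r) t) (DD2 a b (Θ G : R2)) := by
        rw [hΛ _ _ _ _ hab, Polynomial.eval_finsetSum, Finset.mul_sum, hΘ, map_sum, map_sum]
        apply Finset.sum_congr rfl
        intro k _
        have h6 := congrArg (Polynomial.eval t) (hT1 r a b k (G k))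
        rw [Polynomial.eval_mul, Polynomial.eval_mul, Polynomial.eval_pow, Polynomial.eval_pow,
          Polynomial.eval_X, eval_phi] at h6
        rw [h6, map_smul, MvPolynomial.smul_eval, DD2_apply]
        rfl
      rw [hM, mem_MM] at hG'
      rw [eval_DD2 hab (hG'.2 r r.2)] at h5
      rw [Polynomial.coe_aeval_eq_eval]
      exact (mul_eq_zero.1 h5).resolve_left (pow_ne_zero _ ht)
    · rw [hΛ' _ _ _ _ hab, map_zero]
  have h5 := Submodule.finrank_mono h4
  have h6 : finrank ℂ W = ∑ k : Fin (j + 1), finrank ℂ (Y (k : ℕ)) :=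
    finrank_pi_fintype ℂ
  have h7 := Fin.sum_univ_eq_sum_range (fun k => finrank ℂ (Y k)) (j + 1)
  have h8 := Fin.sum_univ_eq_sum_range (fun k => finrank ℂ (Y (k + 1))) (j + 1)
  have h9 := Finset.sum_range_succ' (fun k => finrank ℂ (Y k)) (j + 1)
  have h10 := Finset.sum_range_succ (fun k => finrank ℂ (Y k)) (j + 1)
  rw [h8] at hlim
  rw [h6, h7, hM'] at h3
  omega

/-- in the overdetermined case the limit space is zero -/
theorem LP_eq_bot (hz : ∀ i, (q i).z ≠ 0) (hinj : Function.Injective (fun i => (q i).z ^ 2))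
    (hE : Disjoint (Finset.range 9) E) (hN : ∀ i ≤ j, 6 * d < Nc m j E i) :
    LP q m d j E = ⊥ := by
  rw [eq_bot_iff]
  intro c hc
  rw [Submodule.mem_bot]
  apply LP_inj hc
  intro i hi
  by_contra hne
  have h1 : HH j c i ∈ UU ((Finset.range 9 ∪ E) ×ˢ (Finset.univ : Finset Bool)) (q2 q)
      (n2 m j i) (3 * d) := by
    rw [mem_UU]
    refine ⟨HH_mem_Fil hc i, ?_⟩
    rintro ⟨l, β⟩ hl
    rw [Finset.mem_product, Finset.mem_union] at hl
    by_cases h3 : l ∈ Finset.range 9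
    · cases β
      · have := HH_mem_Ord_neg hc i h3
        simpa [q2, n2, Finset.mem_range.1 h3] using this
      · have := HH_mem_Ord hc i h3
        simpa [q2, n2, Finset.mem_range.1 h3] using this
    · have h4 : l ∈ E := hl.1.resolve_left h3
      cases β
      · have := HH_mem_Ord_neg' hc (i := i) (by omega) h4
        rw [Finset.mem_range] at h3
        simpa [q2, n2, h3] using this
      · have := HH_mem_Ord' hc i h4
        rw [Finset.mem_range] at h3
        simpa [q2, n2, h3] using this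
  have h2 := sum_le_of_ne (q2_inj hz hinj _) h1 hne
  rw [sum_n2 hE] at h2
  have h3 := hN i (by omega)
  omega

end Helper18.Shgh
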